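import Pool.Agent.Helper87.HilbertPlane

set_option autoImplicit false

namespace Pool.Agent.Helper87.HilbertPlane

open Set Filter Topology

/-- `q` is given by a polynomial of degree at most two -/
def IsQuad (q : ℝ × ℝ → ℝ) : Prop :=
  ∃ A B C D E F : ℝ, ∀ z, q z = A * z.1^2 + B * (z.1 * z.2) + C * z.2^2 + D * z.1 + E * z.2 + F

lemma IsQuad.add {q r : ℝ × ℝ → ℝ} (hq : IsQuad q) (hr : IsQuad r) : IsQuad (fun z => q z + r z) := by
  obtain ⟨A, B, C, D, E, F, h⟩ := hq
  obtain ⟨A', B', C', D', E', F', h'⟩ := hr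
  exact ⟨A + A', B + B', C + C', D + D', E + E', F + F', fun z => by simp only [h, h']; ring⟩

lemma IsQuad.smul {q : ℝ × ℝ → ℝ} (hq : IsQuad q) (c : ℝ) : IsQuad (fun z => c * q z) := by
  obtain ⟨A, B, C, D, E, F, h⟩ := hq
  exact ⟨c * A, c * B, c * C, c * D, c * E, c * F, fun z => by simp only [h]; ring⟩

lemma IsQuad.ev_mul (f g : ℝ × ℝ × ℝ) : IsQuad (fun z => ev f z * ev g z) :=
  ⟨f.2.1 * g.2.1, f.2.1 * g.2.2 + f.2.2 * g.2.1, f.2.2 * g.2.2, f.1 * g.2.1 + f.2.1 * g.1,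
    f.1 * g.2.2 + f.2.2 * g.1, f.1 * g.1, fun z => by simp only [ev]; ring⟩

/-- the affine map sending the unit disc to an ellipse in normal form -/
noncomputable def ellMap (α β κ h k : ℝ) (hα : α ≠ 0) (hβ : β ≠ 0) :
    (ℝ × ℝ) ≃ᵃ[ℝ] (ℝ × ℝ) :=
  (LinearEquiv.toAffineEquiv
    { toFun := fun w => (w.1 / α - κ * (w.2 / β), w.2 / β)
      invFun := fun X => (α * (X.1 + κ * X.2), β * X.2)
      map_add' := fun w v => by ext <;> simp <;> ring
      map_smul' := fun c w => by ext <;> simp <;> ring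
      left_inv := fun w => by
        ext
        · simp only; field_simp; ring
        · simp only; field_simp
      right_inv := fun w => by
        ext
        · simp only; field_simp; ring
        · simp only; field_simp
        } ).trans
    (AffineEquiv.constVAdd ℝ (ℝ × ℝ) (h, k))

lemma ellMap_apply (α β κ h k : ℝ) (hα : α ≠ 0) (hβ : β ≠ 0) (w : ℝ × ℝ) :
    ellMap α β κ h k hα hβ w = (h + (w.1 / α - κ * (w.2 / β)), k + w.2 / β) := by
  rfl

theorem conic_to_ellipse {Ω : Set (ℝ × ℝ)} (hΩ : IsOpen Ω) (hc : Convex ℝ Ω)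
    (hb : Bornology.IsBounded Ω) {q : ℝ × ℝ → ℝ} (hq : IsQuad q) {O : ℝ × ℝ} (hO : O ∈ Ω)
    (hqO : 0 < q O) (hfr : ∀ z ∈ closure Ω, z ∉ Ω → q z = 0) :
    ∃ f : (ℝ × ℝ) ≃ᵃ[ℝ] (ℝ × ℝ), Ω = f '' {p : ℝ × ℝ | p.1 ^ 2 + p.2 ^ 2 < 1} := by
  obtain ⟨A, B, C, D, E, F, hq⟩ := hq
  -- expansion along rays
  have hray : ∀ (u : ℝ × ℝ) (t : ℝ), q (O + t • u) = q O
      + t * (2 * A * O.1 * u.1 + B * (O.1 * u.2 + O.2 * u.1) + 2 * C * O.2 * u.2 + D * u.1 + E * u.2)
      + t^2 * (A * u.1^2 + B * (u.1 * u.2) + C * u.2^2) := by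
    intro u t
    rw [hq, hq]
    simp only [Prod.fst_add, Prod.snd_add, Prod.smul_fst, Prod.smul_snd, smul_eq_mul]
    ring
  have key : ∀ u : ℝ × ℝ, u ≠ 0 → (A * u.1^2 + B * (u.1 * u.2) + C * u.2^2) < 0 ∧
      (O + u ∈ Ω ↔ 0 < q (O + u)) := by
    intro u hu
    obtain ⟨T, hT, hT1, hT2, hT3⟩ := exists_ray hΩ hc hb hO hu
    obtain ⟨S, hS, hS1, hS2, hS3⟩ := exists_ray hΩ hc hb hO (v := -u) (neg_ne_zero.2 hu)
    have e1 := hfr _ hT2 hT3
    have e2 := hfr _ hS2 hS3
    rw [hray] at e1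
    have e3 : O + S • (-u) = O + (-S) • u := by simp
    rw [e3, hray] at e2
    set L := (2 * A * O.1 * u.1 + B * (O.1 * u.2 + O.2 * u.1) + 2 * C * O.2 * u.2 + D * u.1 + E * u.2)
    set Q := (A * u.1^2 + B * (u.1 * u.2) + C * u.2^2)
    have hsum : (S + T) * (q O + T * S * Q) = 0 := by linear_combination S * e1 + T * e2
    have hQ : q O + T * S * Q = 0 := by
      rcases mul_eq_zero.1 hsum with h | h
      · linarith
      · exact h
    have hL : T * S * L = q O * (T - S) := by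
      have : (S + T) * (T * S * L - q O * (T - S)) = 0 := by
        linear_combination S^2 * e1 - T^2 * e2 
      rcases mul_eq_zero.1 this with h | h
      · linarith
      · linarith
    have hTS : 0 < T * S := mul_pos hT hS
    refine ⟨by by_contra h; push Not at h; nlinarith [mul_nonneg hTS.le h], ?_⟩
    have h1 : q (O + u) = q O + L + Q := by
      have := hray u 1
      rw [one_smul] at this
      rw [this]; ring
    have h2 : T * S * q (O + u) = q O * ((T - 1) * (1 + S)) := by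
      rw [h1]; linear_combination hL + hQ
    have h3 : O + u ∈ Ω ↔ 1 < T := by
      have : (1:ℝ) ∈ {t : ℝ | 0 ≤ t ∧ O + t • u ∈ Ω} ↔ (1:ℝ) ∈ Ico 0 T := by rw [hT1]
      simpa using this
    rw [h3]
    constructor
    · intro h
      have : 0 < q O * ((T - 1) * (1 + S)) := by
        apply mul_pos hqO (mul_pos (by linarith) (by linarith))
      rw [← h2] at this
      exact (pos_iff_pos_of_mul_pos this).1 hTS
    · intro h
      by_contra hle
      push Not at hle
      have h4 : 0 < T * S * q (O + u) := mul_pos hTS h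
      rw [h2] at h4
      have : (T - 1) * (1 + S) ≤ 0 := mul_nonpos_of_nonpos_of_nonneg (by linarith) (by linarith)
      nlinarith
  have hmem : ∀ z, z ∈ Ω ↔ 0 < q z := by
    intro z
    by_cases hz : z = O
    · rw [hz]; exact ⟨fun _ => hqO, fun _ => hO⟩
    · have := (key (z - O) (sub_ne_zero.2 hz)).2
      rwa [add_sub_cancel] at this
  have hA : A < 0 := by
    have := (key (1, 0) (by simp)).1
    simpa using this
  have hdisc : 0 < 4 * A * C - B^2 := by
    have := (key (-B, 2 * A) (by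
      intro h
      have : 2 * A = 0 := congrArg Prod.snd h
      linarith)).1
    simp only at this
    have h2 : A * (4 * A * C - B^2) < 0 := by nlinarith
    by_contra h
    push Not at h
    nlinarith [mul_nonneg_of_nonpos_of_nonpos hA.le h]
  -- centre
  have hA0 : A ≠ 0 := hA.ne
  obtain ⟨Δ, hΔ⟩ : ∃ Δ, Δ = 4 * A * C - B^2 := ⟨_, rfl⟩
  rw [← hΔ] at hdisc
  obtain ⟨h, hh⟩ : ∃ h, h = (B * E - 2 * C * D) / Δ := ⟨_, rfl⟩
  obtain ⟨k, hk⟩ : ∃ k, k = (B * D - 2 * A * E) / Δ := ⟨_, rfl⟩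
  have eqh : Δ * h = B * E - 2 * C * D := by rw [hh]; field_simp
  have eqk : Δ * k = B * D - 2 * A * E := by rw [hk]; field_simp
  have g1 : 2 * A * h + B * k + D = 0 := by
    have : Δ * (2 * A * h + B * k + D) = 0 := by
      linear_combination 2 * A * eqh + B * eqk + D * hΔ
    rcases mul_eq_zero.1 this with h' | h'
    · linarith
    · exact h'
  have g2 : B * h + 2 * C * k + E = 0 := by
    have : Δ * (B * h + 2 * C * k + E) = 0 := by
      linear_combination B * eqh + 2 * C * eqk + E * hΔ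
    rcases mul_eq_zero.1 this with h' | h'
    · linarith
    · exact h'
  obtain ⟨M, hM⟩ : ∃ M, M = q (h, k) := ⟨_, rfl⟩
  have hqz : ∀ z : ℝ × ℝ, q z = M + (A * (z.1 - h)^2 + B * ((z.1 - h) * (z.2 - k)) + C * (z.2 - k)^2) := by
    intro z
    rw [hM, hq, hq]
    simp only
    linear_combination (z.1 - h) * g1 + (z.2 - k) * g2
  have hform : ∀ X Y : ℝ, A * X^2 + B * (X * Y) + C * Y^2
      = A * (X + B/(2*A) * Y)^2 + Δ/(4*A) * Y^2 := by
    intro X Y
    rw [hΔ]; field_simp; ring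
  have hMpos : 0 < M := by
    have := hqz O
    rw [hform] at this
    have h1 : A * (O.1 - h + B/(2*A) * (O.2 - k))^2 ≤ 0 :=
      mul_nonpos_of_nonpos_of_nonneg hA.le (sq_nonneg _)
    have h2 : Δ/(4*A) * (O.2 - k)^2 ≤ 0 := by
      apply mul_nonpos_of_nonpos_of_nonneg _ (sq_nonneg _)
      exact div_nonpos_of_nonneg_of_nonpos hdisc.le (by linarith)
    linarith
  have ha : 0 < -A / M := div_pos (by linarith) hMpos
  have hb' : 0 < -Δ / (4 * A) / M := by
    apply div_pos _ hMpos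
    apply div_pos_of_neg_of_neg <;> linarith
  obtain ⟨α, hα⟩ : ∃ α, α = Real.sqrt (-A / M) := ⟨_, rfl⟩
  obtain ⟨β, hβ⟩ : ∃ β, β = Real.sqrt (-Δ / (4 * A) / M) := ⟨_, rfl⟩
  have hα0 : 0 < α := by rw [hα]; exact Real.sqrt_pos.2 ha
  have hβ0 : 0 < β := by rw [hβ]; exact Real.sqrt_pos.2 hb'
  have hα2 : α^2 = -A / M := by rw [hα]; exact Real.sq_sqrt ha.le
  have hβ2 : β^2 = -Δ / (4 * A) / M := by rw [hβ]; exact Real.sq_sqrt hb'.le
  have hα3 : α^2 * M = -A := by rw [hα2]; field_simp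
  have hβ3 : β^2 * M = -(Δ / (4 * A)) := by rw [hβ2]; field_simp
  have hfin : ∀ z : ℝ × ℝ, q z = M * (1 - ((α * (z.1 - h + B/(2*A) * (z.2 - k)))^2
      + (β * (z.2 - k))^2)) := by
    intro z
    rw [hqz, hform]
    linear_combination (z.1 - h + B/(2*A) * (z.2 - k))^2 * hα3 + (z.2 - k)^2 * hβ3
  refine ⟨ellMap α β (B/(2*A)) h k hα0.ne' hβ0.ne', ?_⟩
  ext z
  rw [hmem, hfin]
  have hpos : 0 < M * (1 - ((α * (z.1 - h + B/(2*A) * (z.2 - k)))^2 + (β * (z.2 - k))^2)) ↔
      (α * (z.1 - h + B/(2*A) * (z.2 - k)))^2 + (β * (z.2 - k))^2 < 1 := by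
    rw [mul_pos_iff_of_pos_left hMpos, sub_pos]
  rw [hpos]
  constructor
  · intro hlt
    refine ⟨(α * (z.1 - h + B/(2*A) * (z.2 - k)), β * (z.2 - k)), hlt, ?_⟩
    rw [ellMap_apply]
    ext
    · simp only; field_simp; ring
    · simp only; field_simp; ring
  · rintro ⟨w, hw, rfl⟩
    rw [ellMap_apply]
    simp only
    have e1 : α * (h + (w.1 / α - B/(2*A) * (w.2 / β)) - h + B/(2*A) * (k + w.2 / β - k)) = w.1 := by
      field_simp; ring
    have e2 : β * (k + w.2 / β - k) = w.2 := by field_simp; ring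
    rw [e1, e2]
    exact hw

/-- barycentric evaluation -/
lemma detP_ev (f : ℝ × ℝ × ℝ) (p q r b : ℝ × ℝ) :
    detP p q r * ev f b = detP b q r * ev f p + detP p b r * ev f q + detP p q b * ev f r := by
  simp only [detP, ev]; ring

/-- the functional `z ↦ detP z q r` -/
def bary1 (q r : ℝ × ℝ) : ℝ × ℝ × ℝ := (q.1 * r.2 - q.2 * r.1, q.2 - r.2, r.1 - q.1)
def bary2 (p r : ℝ × ℝ) : ℝ × ℝ × ℝ := (r.1 * p.2 - r.2 * p.1, r.2 - p.2, p.1 - r.1)
def bary3 (p q : ℝ × ℝ) : ℝ × ℝ × ℝ := (p.1 * q.2 - p.2 * q.1, p.2 - q.2, q.1 - p.1)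

lemma ev_bary1 (q r z : ℝ × ℝ) : ev (bary1 q r) z = detP z q r := by
  simp only [ev, bary1, detP]; ring
lemma ev_bary2 (p r z : ℝ × ℝ) : ev (bary2 p r) z = detP p z r := by
  simp only [ev, bary2, detP]; ring
lemma ev_bary3 (p q z : ℝ × ℝ) : ev (bary3 p q) z = detP p q z := by
  simp only [ev, bary3, detP]; ring

section core

variable {Ω : Set (ℝ × ℝ)} {O : ℝ × ℝ}

/-- the cyclic identity for tangent functionals -/
def Cyclic (Ω : Set (ℝ × ℝ)) (O : ℝ × ℝ) : Prop :=
  ∀ p q r tp tq tr, Smooth Ω O p tp → Smooth Ω O q tq → Smooth Ω O r tr →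
    0 < ev tp q → 0 < ev tq p → 0 < ev tp r → 0 < ev tr p → 0 < ev tq r → 0 < ev tr q →
    ev tp q * ev tq r * ev tr p = ev tq p * ev tr q * ev tp r

lemma smooth_dichotomy {p b : ℝ × ℝ} {tp s : ℝ × ℝ × ℝ} (hp : Smooth Ω O p tp)
    (hb : Smooth Ω O b s) : s = tp ∨ (0 < ev s p ∧ 0 < ev tp b) := by
  by_cases h : s = tp
  · exact Or.inl h
  right
  constructor
  · rcases (Pol_nonneg_closure hb.2.1 hp.1).lt_or_eq with h' | h'
    · exact h'
    · exact absurd (hp.2.2.2 s hb.2.1 h'.symm) h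
  · rcases (Pol_nonneg_closure hp.2.1 hb.1).lt_or_eq with h' | h'
    · exact h'
    · exact absurd (hb.2.2.2 tp hp.2.1 h'.symm).symm h

lemma smooth_pos_symm {p b : ℝ × ℝ} {tp s : ℝ × ℝ × ℝ} (hp : Smooth Ω O p tp)
    (hb : Smooth Ω O b s) (h : 0 < ev s p) : 0 < ev tp b := by
  rcases smooth_dichotomy hp hb with h' | h'
  · rw [h', hp.2.2.1] at h; exact absurd h (lt_irrefl _)
  · exact h'.2

/-- three smooth points with pairwise different tangents -/
lemma exists_three (hΩ : IsOpen Ω) (hc : Convex ℝ Ω) (hb : Bornology.IsBounded Ω) (hO : O ∈ Ω) :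
    ∃ p q r tp tq tr, Smooth Ω O p tp ∧ Smooth Ω O q tq ∧ Smooth Ω O r tr ∧
      0 < ev tp q ∧ 0 < ev tq p ∧ 0 < ev tp r ∧ 0 < ev tr p ∧ 0 < ev tq r ∧ 0 < ev tr q := by
  -- first point
  obtain ⟨T, hT, hT1, hT2, hT3⟩ := exists_ray hΩ hc hb hO (v := ((1:ℝ), (0:ℝ))) (by simp)
  obtain ⟨p, tp, hp, -⟩ := smooth_dense hΩ hc hb hO hT2 hT3 (ε := 1) one_pos
  -- second point
  have hOp : O - p ≠ 0 := by
    intro h
    rw [sub_eq_zero] at h
    exact hp.not_mem hΩ (h ▸ hO)
  obtain ⟨S, hS, hS1, hS2, hS3⟩ := exists_ray hΩ hc hb hO hOp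
  have hz : 0 < ev tp (O + S • (O - p)) := by
    rw [ev_add_smul_sub, hp.2.1.1, hp.2.2.1]; linarith
  have hopen : IsOpen {z | 0 < ev tp z} := isOpen_lt continuous_const (continuous_ev_right tp)
  obtain ⟨ε, hε, hball⟩ := Metric.isOpen_iff.1 hopen _ hz
  obtain ⟨q, tq, hq, hqd⟩ := smooth_dense hΩ hc hb hO hS2 hS3 hε
  have hpq : 0 < ev tp q := hball hqd
  have hqp : 0 < ev tq p := smooth_pos_symm hq hp hpq
  -- the midpoint of p and q lies in Ω
  have hm : p + (1/2 : ℝ) • (q - p) ∈ Ω := by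
    by_contra hm
    obtain ⟨f, hf, hfm⟩ := exists_support hΩ hc hO hm
    rw [ev_add_smul_sub] at hfm
    have h1 := Pol_nonneg_closure hf hp.1
    have h2 := Pol_nonneg_closure hf hq.1
    have h3 : ev f p = 0 := by linarith
    have h4 : ev f q = 0 := by linarith
    rw [hp.2.2.2 f hf h3] at h4
    linarith
  set m := p + (1/2 : ℝ) • (q - p) with hmdef
  have mp : 0 < ev tp m := Pol_pos hΩ hp.2.1 hm
  have mq : 0 < ev tq m := Pol_pos hΩ hq.2.1 hm
  -- direction w along which tp / tq is constant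
  obtain ⟨w, hw, hw1, hw2⟩ : ∃ w : ℝ × ℝ, w ≠ 0 ∧ 0 ≤ lin tp w ∧
      ev tq m * lin tp w = ev tp m * lin tq w := by
    have hk : lin (row tp tq (ev tq m) (ev tp m)) (q - p) ≠ 0 := by
      rw [lin_sub, ev_row, ev_row, hq.2.2.1, hp.2.2.1]
      have : 0 < ev tq m * ev tp q := mul_pos mq hpq
      have : 0 < ev tp m * ev tq p := mul_pos mp hqp
      intro h
      linarith
    set k := row tp tq (ev tq m) (ev tp m) with hkdef
    have hw0 : ((-k.2.2, k.2.1) : ℝ × ℝ) ≠ 0 := by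
      intro h
      have h1 : -k.2.2 = 0 := congrArg Prod.fst h
      have h2 : k.2.1 = 0 := congrArg Prod.snd h
      apply hk
      simp only [lin]
      rw [h2, neg_eq_zero.1 h1]; ring
    have hkw : lin k ((-k.2.2, k.2.1) : ℝ × ℝ) = 0 := by simp only [lin]; ring
    have hkw' : ev tq m * lin tp ((-k.2.2, k.2.1) : ℝ × ℝ) - ev tp m * lin tq ((-k.2.2, k.2.1) : ℝ × ℝ) = 0 := by
      rw [← hkw, hkdef, lin_row]
    rcases le_total 0 (lin tp ((-k.2.2, k.2.1) : ℝ × ℝ)) with h | h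
    · exact ⟨_, hw0, h, by linarith⟩
    · refine ⟨-((-k.2.2, k.2.1) : ℝ × ℝ), neg_ne_zero.2 hw0, ?_, ?_⟩
      · have : lin tp (-((-k.2.2, k.2.1) : ℝ × ℝ)) = - lin tp ((-k.2.2, k.2.1) : ℝ × ℝ) := by
          simp only [lin, Prod.fst_neg, Prod.snd_neg]; ring
        rw [this]; linarith
      · have e1 : lin tp (-((-k.2.2, k.2.1) : ℝ × ℝ)) = - lin tp ((-k.2.2, k.2.1) : ℝ × ℝ) := by
          simp only [lin, Prod.fst_neg, Prod.snd_neg]; ring
        have e2 : lin tq (-((-k.2.2, k.2.1) : ℝ × ℝ)) = - lin tq ((-k.2.2, k.2.1) : ℝ × ℝ) := by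
          simp only [lin, Prod.fst_neg, Prod.snd_neg]; ring
        rw [e1, e2]; linarith
  have hw3 : 0 ≤ lin tq w := by
    have : 0 ≤ ev tp m * lin tq w := by rw [← hw2]; exact mul_nonneg mq.le hw1
    exact nonneg_of_mul_nonneg_right this mp
  obtain ⟨R, hR, hR1, hR2, hR3⟩ := exists_ray hΩ hc hb hm hw
  have hz1 : 0 < ev tp (m + R • w) := by
    rw [ev_add_smul]; have := mul_nonneg hR.le hw1; linarith
  have hz2 : 0 < ev tq (m + R • w) := by
    rw [ev_add_smul]; have := mul_nonneg hR.le hw3; linarith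
  have hopen2 : IsOpen ({z | 0 < ev tp z} ∩ {z | 0 < ev tq z}) :=
    hopen.inter (isOpen_lt continuous_const (continuous_ev_right tq))
  obtain ⟨δ, hδ, hball2⟩ := Metric.isOpen_iff.1 hopen2 _ ⟨hz1, hz2⟩
  obtain ⟨r, tr, hr, hrd⟩ := smooth_dense hΩ hc hb hO hR2 hR3 hδ
  have hpr : 0 < ev tp r := (hball2 hrd).1
  have hqr : 0 < ev tq r := (hball2 hrd).2
  exact ⟨p, q, r, tp, tq, tr, hp, hq, hr, hpq, hqp, hpr, smooth_pos_symm hr hp hpr, hqr,
    smooth_pos_symm hr hq hqr⟩

/-- if `b` has the same tangent as `p`, then the barycentric coordinates along `q`, `r` vanish -/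
lemma same_tangent (hcyc : Cyclic Ω O) {p q r b : ℝ × ℝ} {tp tq tr : ℝ × ℝ × ℝ}
    (hp : Smooth Ω O p tp) (hq : Smooth Ω O q tq) (hr : Smooth Ω O r tr)
    (hb : Smooth Ω O b tp)
    (hpq : 0 < ev tp q) (hqp : 0 < ev tq p) (hpr : 0 < ev tp r) (hrp : 0 < ev tr p)
    (hqr : 0 < ev tq r) (hrq : 0 < ev tr q) :
    detP p b r = 0 ∧ detP p q b = 0 := by
  have hqb : 0 < ev tq b := smooth_pos_symm hq hb hpq
  have hrb : 0 < ev tr b := smooth_pos_symm hr hb hpr
  have g1 := hcyc b q r tp tq tr hb hq hr hpq hqb hpr hrb hqr hrq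
  have g2 := hcyc p q r tp tq tr hp hq hr hpq hqp hpr hrp hqr hrq
  have e0 := detP_ev tp p q r b
  have e1 := detP_ev tq p q r b
  have e2 := detP_ev tr p q r b
  rw [hb.2.2.1, hp.2.2.1] at e0
  rw [hq.2.2.1] at e1
  rw [hr.2.2.1] at e2
  -- unknowns
  set x := detP b q r
  set y := detP p b r
  set z := detP p q b
  set Dl := detP p q r
  have f1 : y * ev tp q + z * ev tp r = 0 := by linarith
  have f2 : ev tq r * ev tr q * (ev tp q * y - ev tp r * z) = 0 := by
    have h1 : ev tp q * ev tq r * (Dl * ev tr b) = Dl * ev tq b * ev tr q * ev tp r := by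
      linear_combination Dl * g1
    rw [e1, e2] at h1
    linear_combination h1 - x * g2
  have f3 : ev tp q * y - ev tp r * z = 0 := by
    rcases mul_eq_zero.1 f2 with h | h
    · exact absurd h (mul_pos hqr hrq).ne'
    · exact h
  constructor
  · have : ev tp q * y = 0 := by linarith
    rcases mul_eq_zero.1 this with h | h
    · exact absurd h hpq.ne'
    · exact h
  · have : ev tp r * z = 0 := by linarith
    rcases mul_eq_zero.1 this with h | h
    · exact absurd h hpr.ne'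
    · exact h

/-- the cyclic identity forces the domain to be bounded by an ellipse -/
theorem ellipse_of_cyclic (hΩ : IsOpen Ω) (hc : Convex ℝ Ω) (hb : Bornology.IsBounded Ω)
    (hO : O ∈ Ω) (hcyc : Cyclic Ω O) :
    ∃ f : (ℝ × ℝ) ≃ᵃ[ℝ] (ℝ × ℝ), Ω = f '' {p : ℝ × ℝ | p.1 ^ 2 + p.2 ^ 2 < 1} := by
  obtain ⟨p, q, r, tp, tq, tr, hp, hq, hr, hpq, hqp, hpr, hrp, hqr, hrq⟩ :=
    exists_three hΩ hc hb hO
  have hΔ : detP p q r ≠ 0 :=
    (det3_ne_zero hp.2.2.1 hq.2.2.1 hr.2.2.1 hpq hqp hpr hrp hqr hrq).2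
  have gpqr := hcyc p q r tp tq tr hp hq hr hpq hqp hpr hrp hqr hrq
  -- the quadratic function
  let Q : ℝ × ℝ → ℝ := fun z =>
    (ev tp q * ev tq p) * (ev (bary1 q r) z * ev (bary2 p r) z)
      + (ev tp r * ev tq p) * (ev (bary1 q r) z * ev (bary3 p q) z)
      + (ev tp q * ev tq r) * (ev (bary2 p r) z * ev (bary3 p q) z)
  have hQ : IsQuad Q :=
    (((IsQuad.ev_mul _ _).smul _).add ((IsQuad.ev_mul _ _).smul _)).add ((IsQuad.ev_mul _ _).smul _)
  have hQv : ∀ z, Q z = (ev tp q * ev tq p) * (detP z q r * detP p z r)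
      + (ev tp r * ev tq p) * (detP z q r * detP p q z)
      + (ev tp q * ev tq r) * (detP p z r * detP p q z) := by
    intro z; simp only [Q, ev_bary1, ev_bary2, ev_bary3]
  have hQc : Continuous Q := by
    simp only [Q]
    have c1 := continuous_ev_right (bary1 q r)
    have c2 := continuous_ev_right (bary2 p r)
    have c3 := continuous_ev_right (bary3 p q)
    fun_prop
  -- smooth points lie on the conic
  have hsm : ∀ b s, Smooth Ω O b s → Q b = 0 := by
    intro b s hbs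
    rw [hQv]
    rcases smooth_dichotomy hp hbs with h1 | ⟨h1, h1'⟩
    · rw [h1] at hbs
      obtain ⟨e1, e2⟩ := same_tangent hcyc hp hq hr hbs hpq hqp hpr hrp hqr hrq
      rw [e1, e2]; ring
    rcases smooth_dichotomy hq hbs with h2 | ⟨h2, h2'⟩
    · rw [h2] at hbs
      obtain ⟨e1, e2⟩ := same_tangent hcyc hq hr hp hbs hqr hrq hqp hpq hrp hpr
      have e3 : detP p q b = 0 := by rw [← e1]; simp only [detP]; ring
      have e4 : detP b q r = 0 := by rw [← e2]; simp only [detP]; ring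
      rw [e3, e4]; ring
    rcases smooth_dichotomy hr hbs with h3 | ⟨h3, h3'⟩
    · rw [h3] at hbs
      obtain ⟨e1, e2⟩ := same_tangent hcyc hr hp hq hbs hrp hpr hrq hqr hpq hqp
      have e3 : detP b q r = 0 := by rw [← e1]; simp only [detP]; ring
      have e4 : detP p b r = 0 := by rw [← e2]; simp only [detP]; ring
      rw [e3, e4]; ring
    -- generic case
    have g1 := hcyc b p q s tp tq hbs hp hq h1 h1' h2 h2' hpq hqp
    have g2 := hcyc b p r s tp tr hbs hp hr h1 h1' h3 h3' hpr hrp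
    have e0 := detP_ev s p q r b
    have e1 := detP_ev tp p q r b
    have e2 := detP_ev tq p q r b
    have e3 := detP_ev tr p q r b
    rw [hbs.2.2.1] at e0
    rw [hp.2.2.1] at e1
    rw [hq.2.2.1] at e2
    rw [hr.2.2.1] at e3
    set x := detP b q r
    set y := detP p b r
    set z := detP p q b
    set Dl := detP p q r
    set S1 := ev s p
    set S2 := ev s q
    set S3 := ev s r
    set Pb := ev tp b
    set Qb := ev tq b
    set Rb := ev tr b
    set pq := ev tp q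
    set pr := ev tp r
    set qp := ev tq p
    set qr := ev tq r
    set rp := ev tr p
    set rq := ev tr q
    -- g1 : S1 * pq * Qb = Pb * qp * S2,  g2 : S1 * pr * Rb = Pb * rp * S3
    have a0 : x * S1 + y * S2 + z * S3 = 0 := by linarith
    have a1 : S1 * (Pb * x * qp * rp + pq * Qb * y * rp + pr * Rb * z * qp) = 0 := by
      linear_combination (Pb * qp * rp) * a0 + y * rp * g1 + z * qp * g2
    have a2 : Pb * x * qp * rp + pq * Qb * y * rp + pr * Rb * z * qp = 0 := by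
      rcases mul_eq_zero.1 a1 with h | h
      · exact absurd h h1.ne'
      · exact h
    have a3 : 2 * rp * ((pq * qp) * (x * y) + (pr * qp) * (x * z) + (pq * qr) * (y * z)) = 0 := by
      linear_combination Dl * a2 - (x * qp * rp) * e1 - (pq * y * rp) * e2 - (pr * z * qp) * e3
        + (y * z) * gpqr
    rcases mul_eq_zero.1 a3 with h | h
    · linarith
    · exact h
  -- hence all boundary points
  have hfr : ∀ z ∈ closure Ω, z ∉ Ω → Q z = 0 := by
    intro z hz hz'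
    have hcl : z ∈ closure {b | ∃ s, Smooth Ω O b s} := by
      rw [Metric.mem_closure_iff]
      intro ε hε
      obtain ⟨b, s, hbs, hd⟩ := smooth_dense hΩ hc hb hO hz hz' hε
      exact ⟨b, ⟨s, hbs⟩, by rwa [dist_comm]⟩
    have hclosed : IsClosed {z | Q z = 0} := isClosed_eq hQc continuous_const
    have hsub : {b | ∃ s, Smooth Ω O b s} ⊆ {z | Q z = 0} := by
      intro b hb'
      obtain ⟨s, hbs⟩ := hb'
      exact hsm b s hbs
    exact closure_minimal hsub hclosed hcl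
  -- the midpoint of p and q
  have hm : p + (1/2 : ℝ) • (q - p) ∈ Ω := by
    by_contra hm
    obtain ⟨f, hf, hfm⟩ := exists_support hΩ hc hO hm
    rw [ev_add_smul_sub] at hfm
    have h1 := Pol_nonneg_closure hf hp.1
    have h2 := Pol_nonneg_closure hf hq.1
    have h3 : ev f p = 0 := by linarith
    have h4 : ev f q = 0 := by linarith
    rw [hp.2.2.2 f hf h3] at h4
    linarith
  have hQm : 0 < Q (p + (1/2 : ℝ) • (q - p)) := by
    rw [hQv]
    have d1 : detP (p + (1/2 : ℝ) • (q - p)) q r = (1/2) * detP p q r := by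
      simp only [detP, Prod.fst_add, Prod.snd_add, Prod.smul_fst, Prod.smul_snd, smul_eq_mul,
        Prod.fst_sub, Prod.snd_sub]; ring
    have d2 : detP p (p + (1/2 : ℝ) • (q - p)) r = (1/2) * detP p q r := by
      simp only [detP, Prod.fst_add, Prod.snd_add, Prod.smul_fst, Prod.smul_snd, smul_eq_mul,
        Prod.fst_sub, Prod.snd_sub]; ring
    have d3 : detP p q (p + (1/2 : ℝ) • (q - p)) = 0 := by
      simp only [detP, Prod.fst_add, Prod.snd_add, Prod.smul_fst, Prod.smul_snd, smul_eq_mul,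
        Prod.fst_sub, Prod.snd_sub]; ring
    rw [d1, d2, d3]
    have : 0 < (detP p q r)^2 := by positivity
    have h2 : 0 < ev tp q * ev tq p := mul_pos hpq hqp
    nlinarith [mul_pos h2 this]
  exact conic_to_ellipse hΩ hc hb hQ hm hQm hfr

end core

end Pool.Agent.Helper87.HilbertPlane
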