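import Pool.Agent.Helper87.ConicsDefs

set_option autoImplicit false

open Filter Topology

namespace Pool.Agent.Helper87.Conics

section aux

variable {C : Set V} {D : V → V → ℝ}

theorem ConePlane.zero_notMem (hD : ConePlane C D) : (0 : V) ∉ C := by
  intro h
  obtain ⟨φ, hφ⟩ := hD.chart
  have := hφ 0 h
  simp at this

theorem ConePlane.smul_pos (hD : ConePlane C D) {f : V} (hf : f ∈ C) {s : ℝ} (h : s • f ∈ C) :
    0 < s := by
  obtain ⟨φ, hφ⟩ := hD.chart
  have h1 := hφ _ h
  have h2 := hφ _ hf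
  rw [map_smul, smul_eq_mul] at h1
  by_contra hs
  nlinarith

theorem ConePlane.smul_right (hD : ConePlane C D) {v w : V} (hv : v ∈ C) (hw : w ∈ C) {s : ℝ}
    (hs : 0 < s) : D v (s • w) = D v w := by
  rw [hD.symm v hv _ (hD.smul_mem w hw s hs), hD.smul w hw v hv s hs, hD.symm w hw v hv]

theorem ConePlane.nonneg (hD : ConePlane C D) {v w : V} (hv : v ∈ C) (hw : w ∈ C) :
    0 ≤ D v w := by
  have h1 := hD.triangle v hv w hw v hv
  rw [hD.self v hv, hD.symm w hw v hv] at h1
  linarith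

theorem ConePlane.anti (hD : ConePlane C D) {f g u : V} (hf : f ∈ C) (hg : g ∈ C) (hu : u ∈ C)
    {s : ℝ} (hs : 0 < s) : D f (u + s • f) + D (u + s • f) g ≤ D f u + D u g := by
  have hu' : u + s • f ∈ C := hD.add_mem _ hu _ (hD.smul_mem f hf s hs)
  have h1 := hD.add f hf u hu s 1 hs one_pos
  rw [one_smul, add_comm (s • f) u] at h1
  have h2 := hD.triangle _ hu' u hu g hg
  linarith

theorem ConePlane.anti' (hD : ConePlane C D) {f g x : V} (hf : f ∈ C) (hg : g ∈ C) {t t' : ℝ}
    (htt : t ≤ t') (ht : x + t • f ∈ C) :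
    D f (x + t' • f) + D (x + t' • f) g ≤ D f (x + t • f) + D (x + t • f) g := by
  rcases htt.eq_or_lt with rfl | h
  · exact le_rfl
  · have := hD.anti hf hg ht (sub_pos.2 h)
    have e : x + t • f + (t' - t) • f = x + t' • f := by module
    rw [e] at this
    exact this

theorem ConePlane.contσ (hD : ConePlane C D) {f g : V} (hf : f ∈ C) (hg : g ∈ C) :
    ContinuousOn (fun z => D f z + D z g) C := by
  apply ContinuousOn.add
  · exact hD.cont.comp (f := fun z => (f, z)) (by fun_prop) (fun z hz => ⟨hf, hz⟩)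
  · exact hD.cont.comp (f := fun z => (z, g)) (by fun_prop) (fun z hz => ⟨hz, hg⟩)

theorem ConePlane.root (hD : ConePlane C D) {f g : V} (hf : f ∈ C) (hg : g ∈ C) {a : ℝ}
    (ha : D f g < 2 * a) (x : V) (hx : ∀ s : ℝ, x ≠ s • f) :
    ∃ t : ℝ, x + t • f ∈ C ∧ D f (x + t • f) + D (x + t • f) g = 2 * a := by
  -- a large parameter
  have hcσ := hD.contσ hf hg
  have h1 : ∀ᶠ h : ℝ in 𝓝 0, f + h • x ∈ C ∧ D f (f + h • x) + D (f + h • x) g < 2 * a := by
    have hc : Continuous (fun h : ℝ => f + h • x) := by fun_prop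
    have h0 : f + (0 : ℝ) • x ∈ C := by simpa using hf
    have e1 : ∀ᶠ h : ℝ in 𝓝 0, f + h • x ∈ C :=
      hc.continuousAt.eventually (hD.isOpen.mem_nhds h0)
    have hca : ContinuousAt (fun z => D f z + D z g) (f + (0 : ℝ) • x) :=
      hcσ.continuousAt (hD.isOpen.mem_nhds h0)
    have hcc : ContinuousAt (fun h : ℝ => D f (f + h • x) + D (f + h • x) g) 0 :=
      ContinuousAt.comp (f := fun h : ℝ => f + h • x) (g := fun z => D f z + D z g) hca
        hc.continuousAt
    have e2 : ∀ᶠ h : ℝ in 𝓝 0, D f (f + h • x) + D (f + h • x) g < 2 * a := by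
      apply hcc.eventually_lt continuousAt_const
      simp only [zero_smul, add_zero]
      rw [hD.self f hf]
      linarith
    exact e1.and e2
  obtain ⟨δ, hδ, hδ'⟩ := Metric.eventually_nhds_iff.1 h1
  obtain ⟨hm, hlt⟩ := hδ' (y := δ / 2) (by
    rw [Real.dist_eq, sub_zero, abs_of_pos (by positivity)]
    linarith)
  have hpos : 0 < (δ / 2)⁻¹ := by positivity
  have e : (δ / 2)⁻¹ • (f + (δ / 2) • x) = x + (δ / 2)⁻¹ • f := by
    rw [smul_add, smul_smul, inv_mul_cancel₀ (by positivity), one_smul, add_comm]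
  set t1 := (δ / 2)⁻¹ with ht1
  have hu1 : x + t1 • f ∈ C := by
    rw [← e]
    exact hD.smul_mem _ hm _ hpos
  have hl1 : D f (x + t1 • f) + D (x + t1 • f) g < 2 * a := by
    rw [← e, hD.smul_right hf hm hpos, hD.smul _ hm g hg _ hpos]
    exact hlt
  have hli : LinearIndependent ℝ ![f, x + t1 • f] := by
    rw [LinearIndependent.pair_iff]
    intro s t hst
    by_cases ht : t = 0
    · subst ht
      rw [zero_smul, add_zero] at hst
      refine ⟨?_, rfl⟩
      rcases smul_eq_zero.1 hst with h | h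
      · exact h
      · exact absurd (h ▸ hf) hD.zero_notMem
    · exfalso
      apply hx (-(s + t * t1) / t)
      have h2 : t • x = (-(s + t * t1)) • f := by
        have : t • x - (-(s + t * t1)) • f = s • f + t • (x + t1 • f) := by module
        rw [hst] at this
        exact sub_eq_zero.1 this
      rw [div_eq_inv_mul, mul_smul, ← h2, smul_smul, inv_mul_cancel₀ ht, one_smul]
  obtain ⟨s, hs, hsC, hsR⟩ := hD.unbounded f hf _ hu1 hli (2 * a)
  have e3 : x + t1 • f - s • f = x + (t1 - s) • f := by module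
  rw [e3] at hsC hsR
  have hC : ∀ t, t1 - s ≤ t → x + t • f ∈ C := by
    intro t ht
    rcases ht.eq_or_lt with rfl | ht
    · exact hsC
    · have := hD.add_mem _ hsC _ (hD.smul_mem f hf (t - (t1 - s)) (by linarith))
      have e4 : x + (t1 - s) • f + (t - (t1 - s)) • f = x + t • f := by module
      rw [e4] at this
      exact this
  have hcont : ContinuousOn (fun t : ℝ => D f (x + t • f) + D (x + t • f) g)
      (Set.Icc (t1 - s) t1) :=
    hcσ.comp (f := fun t : ℝ => x + t • f) (by fun_prop) (fun t ht => hC t ht.1)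
  have hmem : 2 * a ∈ Set.Icc (D f (x + t1 • f) + D (x + t1 • f) g)
      (D f (x + (t1 - s) • f) + D (x + (t1 - s) • f) g) := by
    refine ⟨hl1.le, ?_⟩
    have := hD.nonneg hsC hg
    linarith
  obtain ⟨t, ht, hte⟩ := intermediate_value_Icc' (by linarith) hcont hmem
  exact ⟨t, hC t ht.1, hte⟩

/-- polar form (without the factor 2) -/
def Bf (c : Fin 6 → ℝ) (v w : V) : ℝ :=
  2 * c 0 * v 0 * w 0 + 2 * c 1 * v 1 * w 1 + 2 * c 2 * v 2 * w 2 +
    c 3 * (v 0 * w 1 + v 1 * w 0) + c 4 * (v 0 * w 2 + v 2 * w 0) + c 5 * (v 1 * w 2 + v 2 * w 1)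

theorem Qf_line (c : Fin 6 → ℝ) (x f : V) (t : ℝ) :
    Qf c (x + t • f) = Qf c f * t ^ 2 + Bf c x f * t + Qf c x := by
  simp only [Qf, Bf, Pi.add_apply, Pi.smul_apply, smul_eq_mul]
  ring

theorem Qf_smul_coef (c : Fin 6 → ℝ) (s : ℝ) (x : V) : Qf (s • c) x = s * Qf c x := by
  simp only [Qf, Pi.smul_apply, smul_eq_mul]
  ring

theorem Qf_smul (c : Fin 6 → ℝ) (s : ℝ) (x : V) : Qf c (s • x) = s ^ 2 * Qf c x := by
  simp only [Qf, Pi.smul_apply, smul_eq_mul]
  ring

theorem Qf_eq_zero (c : Fin 6 → ℝ) (h : ∀ x : V, Qf c x = 0) : c = 0 := by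
  have h0 := h ![1, 0, 0]
  have h1 := h ![0, 1, 0]
  have h2 := h ![0, 0, 1]
  have h3 := h ![1, 1, 0]
  have h4 := h ![1, 0, 1]
  have h5 := h ![0, 1, 1]
  simp [Qf] at h0 h1 h2 h3 h4 h5
  funext i
  fin_cases i
  · simpa using h0
  · simpa using h1
  · simpa using h2
  · simp only [Pi.zero_apply]; simp; linarith
  · simp only [Pi.zero_apply]; simp; linarith
  · simp only [Pi.zero_apply]; simp; linarith

/-- the two roots of the form along a line in direction `f` -/
theorem ConePlane.roots (hD : ConePlane C D) {f g : V} (hf : f ∈ C) (hg : g ∈ C) {a : ℝ}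
    (ha : D f g < 2 * a) (c : Fin 6 → ℝ) (hc : ∀ z ∈ C, D f z + D z g = 2 * a → Qf c z = 0)
    (x : V) (hx : ∀ s : ℝ, x ≠ s • f) :
    ∃ p m : ℝ, x + p • f ∈ C ∧ D f (x + p • f) + D (x + p • f) g = 2 * a ∧
      -x + m • f ∈ C ∧ 0 < p + m ∧ Qf c x = - Qf c f * p * m ∧
      (Qf c f = 0 → Qf c x = 0) := by
  obtain ⟨p, hp, hp'⟩ := hD.root hf hg ha x hx
  obtain ⟨m, hm, hm'⟩ := hD.root hf hg ha (-x) (fun s h => hx (-s) (by
    rw [neg_smul, ← h, neg_neg]))
  have hpm : 0 < p + m := by
    apply hD.smul_pos hf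
    have := hD.add_mem _ hp _ hm
    have e : x + p • f + (-x + m • f) = (p + m) • f := by module
    rw [e] at this
    exact this
  have q1 := hc _ hp hp'
  have q2 : Qf c (x + (-m) • f) = 0 := by
    have h1 := hc _ hm hm'
    have e : -x + m • f = (-1 : ℝ) • (x + (-m) • f) := by module
    rw [e, Qf_smul] at h1
    linarith
  rw [Qf_line] at q1 q2
  have hB : Bf c x f = - Qf c f * (p - m) := by
    have : (p + m) * (Qf c f * (p - m) + Bf c x f) = 0 := by linear_combination q1 - q2
    rcases mul_eq_zero.1 this with h | h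
    · linarith
    · linarith
  have hQ : Qf c x = - Qf c f * p * m := by
    rw [hB] at q1
    linear_combination q1
  refine ⟨p, m, hp, hp', hm, hpm, hQ, fun h => by rw [hQ, h]; ring⟩

theorem ConePlane.signs (hD : ConePlane C D) {f g : V} (hf : f ∈ C) (hg : g ∈ C) {a : ℝ}
    (ha : D f g < 2 * a) (c : Fin 6 → ℝ) (hc : ∀ z ∈ C, D f z + D z g = 2 * a → Qf c z = 0)
    (hneg : Qf c f < 0) :
      (∀ z ∈ C, D f z + D z g < 2 * a → Qf c z < 0) ∧
      (∀ z ∈ C, 2 * a < D f z + D z g → 0 < Qf c z) ∧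
      (∀ x, x ≠ 0 → x ∉ C → -x ∉ C → 0 < Qf c x) := by
  refine ⟨?_, ?_, ?_⟩
  · intro z hz hlt
    by_cases hx : ∃ s : ℝ, z = s • f
    · obtain ⟨s, rfl⟩ := hx
      have hs := hD.smul_pos hf hz
      rw [Qf_smul]
      have : 0 < s ^ 2 := by positivity
      nlinarith
    · push Not at hx
      obtain ⟨p, m, hp, hp', hm, hpm, hQ, -⟩ := hD.roots hf hg ha c hc z hx
      have hp0 : p < 0 := by
        by_contra h
        push Not at h
        have := hD.anti' (x := z) (t := 0) (t' := p) hf hg h (by simpa using hz)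
        rw [zero_smul, add_zero, hp'] at this
        linarith
      rw [hQ]
      have hm0 : 0 < m := by linarith
      have h1 : p * m < 0 := mul_neg_of_neg_of_pos hp0 hm0
      nlinarith
  · intro z hz hlt
    by_cases hx : ∃ s : ℝ, z = s • f
    · exfalso
      obtain ⟨s, rfl⟩ := hx
      have hs := hD.smul_pos hf hz
      rw [hD.smul_right hf hf hs, hD.smul f hf g hg s hs, hD.self f hf] at hlt
      linarith
    · push Not at hx
      obtain ⟨p, m, hp, hp', hm, hpm, hQ, -⟩ := hD.roots hf hg ha c hc z hx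
      have hp0 : 0 < p := by
        by_contra h
        push Not at h
        have := hD.anti' (x := z) (t := p) (t' := 0) hf hg h hp
        rw [zero_smul, add_zero, hp'] at this
        linarith
      have hm0 : 0 < m := by
        apply hD.smul_pos hf
        have := hD.add_mem _ hz _ hm
        have e : z + (-z + m • f) = m • f := by module
        rw [e] at this
        exact this
      rw [hQ]
      have h1 : 0 < p * m := mul_pos hp0 hm0
      nlinarith
  · intro x hx0 hxC hxC'
    have hx : ∀ s : ℝ, x ≠ s • f := by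
      rintro s rfl
      rcases lt_trichotomy s 0 with h | h | h
      · apply hxC'
        rw [← neg_smul]
        exact hD.smul_mem f hf _ (by linarith)
      · subst h
        simp at hx0
      · exact hxC (hD.smul_mem f hf s h)
    obtain ⟨p, m, hp, hp', hm, hpm, hQ, -⟩ := hD.roots hf hg ha c hc x hx
    have key : ∀ (y : V) (r : ℝ), y + r • f ∈ C → y ∉ C → 0 < r := by
      intro y r hr hy
      by_contra h
      push Not at h
      rcases h.eq_or_lt with rfl | h
      · exact hy (by simpa using hr)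
      · apply hy
        have := hD.add_mem _ hr _ (hD.smul_mem f hf (-r) (by linarith))
        have e : y + r • f + (-r) • f = y := by module
        rw [e] at this
        exact this
    have hp0 := key x p hp hxC
    have hm0 := key (-x) m hm hxC'
    rw [hQ]
    have h1 : 0 < p * m := mul_pos hp0 hm0
    nlinarith

end aux

theorem ellSep_of {C : Set V} {D : V → V → ℝ} (hD : ConePlane C D) (hE : EllConics C D) :
    EllSep C D := by
  intro f hf g hg hfg a ha
  obtain ⟨c0, hc0, hc⟩ := hE f hf g hg hfg a ha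
  have hq : Qf c0 f ≠ 0 := by
    intro h
    apply hc0
    apply Qf_eq_zero
    intro x
    by_cases hx : ∃ s : ℝ, x = s • f
    · obtain ⟨s, rfl⟩ := hx
      rw [Qf_smul, h, mul_zero]
    · push Not at hx
      obtain ⟨p, m, hp, hp', hm, hpm, hQ, h0⟩ := hD.roots hf hg ha c0 hc x hx
      exact h0 h
  -- normalise
  obtain ⟨s, hs, hsn⟩ : ∃ s : ℝ, s * Qf c0 f < 0 ∧ ‖s • c0‖ = 1 := by
    have hn : 0 < ‖c0‖ := norm_pos_iff.2 hc0
    rcases lt_or_gt_of_ne hq with h | h
    · refine ⟨‖c0‖⁻¹, mul_neg_of_pos_of_neg (by positivity) h, ?_⟩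
      rw [norm_smul, norm_inv, norm_norm, inv_mul_cancel₀ hn.ne']
    · refine ⟨-‖c0‖⁻¹, ?_, ?_⟩
      · have : 0 < ‖c0‖⁻¹ * Qf c0 f := by positivity
        linarith
      · rw [norm_smul, norm_neg, norm_inv, norm_norm, inv_mul_cancel₀ hn.ne']
  have hc' : ∀ z ∈ C, D f z + D z g = 2 * a → Qf (s • c0) z = 0 := by
    intro z hz h
    rw [Qf_smul_coef, hc z hz h, mul_zero]
  obtain ⟨h1, h2, h3⟩ := hD.signs hf hg ha (s • c0) hc' (by rw [Qf_smul_coef]; exact hs)
  exact ⟨s • c0, hsn, hc', h1, h2, h3⟩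



end Pool.Agent.Helper87.Conics
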