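import Pool.Agent.Helper87.ConicsDefs

set_option autoImplicit false

open Filter Topology

namespace Pool.Agent.Helper87.Conics

namespace JB
/-- Limits of horofunctions. -/
theorem horo_limit {C : Set V} {D : V → V → ℝ} (hD : ConePlane C D) (l : Filter ℕ) [l.NeBot]
    {v : ℕ → V} {h : ℕ → V → ℝ} {v₀ : V} {h₀ : V → ℝ} (hh : ∀ᶠ n in l, Horo C D (v n) (h n))
    (hv : Tendsto v l (𝓝 v₀)) (hlim : ∀ z ∈ C, Tendsto (fun n => h n z) l (𝓝 (h₀ z))) :
    Horo C D v₀ h₀ := by
  refine ⟨?_, ?_⟩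
  · intro z hz w hw
    refine le_of_tendsto ((hlim z hz).sub (hlim w hw)).abs ?_
    filter_upwards [hh] with n hn
    exact hn.1 z hz w hw
  · intro z hz a b ha hb hy
    have hyn : Tendsto (fun n => a • z + b • v n) l (𝓝 (a • z + b • v₀)) :=
      tendsto_const_nhds.add (hv.const_smul b)
    have hev : ∀ᶠ n in l, a • z + b • v n ∈ C := hyn.eventually (hD.isOpen.mem_nhds hy)
    have hA : Tendsto (fun n => D z (a • z + b • v n)) l (𝓝 (D z (a • z + b • v₀))) := by
      have h1 : ContinuousAt (fun p : V × V => D p.1 p.2) (z, a • z + b • v₀) :=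
        hD.cont.continuousAt ((hD.isOpen.prod hD.isOpen).mem_nhds ⟨hz, hy⟩)
      exact h1.tendsto.comp (tendsto_const_nhds.prodMk_nhds hyn)
    have hB : Tendsto (fun n => D (a • z + b • v n) (a • z + b • v₀)) l (𝓝 0) := by
      have h1 : ContinuousAt (fun p : V × V => D p.1 p.2) (a • z + b • v₀, a • z + b • v₀) :=
        hD.cont.continuousAt ((hD.isOpen.prod hD.isOpen).mem_nhds ⟨hy, hy⟩)
      have h2 := h1.tendsto.comp (hyn.prodMk_nhds (tendsto_const_nhds (x := a • z + b • v₀)))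
      simp only [hD.self _ hy] at h2
      exact h2
    have hC : Tendsto (fun n => h n z - h n (a • z + b • v₀) - D z (a • z + b • v n)) l
        (𝓝 0) := by
      refine squeeze_zero_norm' ?_ hB
      filter_upwards [hh, hev] with n hn hen
      rw [← hn.2 z hz a b ha hb hen, Real.norm_eq_abs]
      have h3 := hn.1 (a • z + b • v n) hen (a • z + b • v₀) hy
      have h4 : h n z - h n (a • z + b • v₀) - (h n z - h n (a • z + b • v n)) =
        h n (a • z + b • v n) - h n (a • z + b • v₀) := by ring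
      rw [h4]
      exact h3
    have hE := hC.add hA
    simp only [sub_add_cancel, zero_add] at hE
    exact tendsto_nhds_unique ((hlim z hz).sub (hlim _ hy)) hE

/-- Existence of limits along an ultrafilter. -/
theorem exists_limit {C : Set V} {D : V → V → ℝ} (hD : ConePlane C D) (l : Ultrafilter ℕ)
    {o : V} (ho : o ∈ C) {h : ℕ → V → ℝ} (h0 : ∀ n, h n o = 0)
    (hlip : ∀ n, ∀ z ∈ C, ∀ w ∈ C, |h n z - h n w| ≤ D z w) :
    ∃ h₀ : V → ℝ, h₀ o = 0 ∧ ∀ z ∈ C, Tendsto (fun n => h n z) l (𝓝 (h₀ z)) := by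
  have h1 : ∀ z : V, ∃ r : ℝ, z ∈ C → Tendsto (fun n => h n z) l (𝓝 r) := by
    intro z
    by_cases hz : z ∈ C
    · have h2 : Set.Icc (-(D z o)) (D z o) ∈ (l.map (fun n => h n z) : Filter ℝ) := by
        rw [Ultrafilter.coe_map, Filter.mem_map]
        refine Filter.univ_mem' ?_
        intro n
        have h3 := hlip n z hz o ho
        rw [h0, sub_zero] at h3
        exact abs_le.1 h3
      obtain ⟨r, _, hr⟩ := isCompact_Icc.ultrafilter_le_nhds (l.map (fun n => h n z))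
        (by rwa [le_principal_iff])
      exact ⟨r, fun _ => hr⟩
    · exact ⟨0, fun h => absurd h hz⟩
  choose g hg using h1
  refine ⟨g, ?_, hg⟩
  have h3 := hg o ho
  simp only [h0] at h3
  exact tendsto_nhds_unique h3 tendsto_const_nhds

theorem horo_basic {C : Set V} {D : V → V → ℝ} (hD : ConePlane C D) {f : V} (hf : f ∈ C)
    (r : ℝ) : Horo C D f (fun z => D f z - r) := by
  refine ⟨?_, ?_⟩
  · intro z hz w hw
    rw [abs_le]
    have h1 := hD.triangle f hf w hw z hz
    have h2 := hD.triangle f hf z hz w hw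
    have h3 := hD.symm z hz w hw
    constructor <;> simp only <;> linarith
  · intro z hz a b ha hb hy
    have h1 := hD.add z hz f hf a b ha hb
    have h2 := hD.symm z hz f hf
    have h3 := hD.symm _ hy f hf
    simp only
    linarith

theorem Qf_cont : Continuous (fun p : (Fin 6 → ℝ) × V => Qf p.1 p.2) := by
  unfold Qf
  fun_prop

theorem Qf_tendsto {ι : Type*} {l : Filter ι} {c : ι → Fin 6 → ℝ} {x : ι → V} {c₀ : Fin 6 → ℝ}
    {x₀ : V} (hc : Tendsto c l (𝓝 c₀)) (hx : Tendsto x l (𝓝 x₀)) :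
    Tendsto (fun n => Qf (c n) (x n)) l (𝓝 (Qf c₀ x₀)) := by
  have h1 : Tendsto (fun n => (c n, x n)) l (𝓝 (c₀, x₀)) := hc.prodMk_nhds hx
  have h2 := (Qf_cont.tendsto (c₀, x₀)).comp h1
  simp only [Function.comp_def] at h2
  exact h2

theorem sep_limit {C : Set V} {D : V → V → ℝ} (hD : ConePlane C D) (hE : EllSep C D)
    (U : Ultrafilter ℕ) {o v w : V} {f g : ℕ → V} (hf : ∀ n, f n ∈ C) (hg : ∀ n, g n ∈ C)
    (hfv : Tendsto f U (𝓝 v)) (hgw : Tendsto g U (𝓝 w)) {Hv Hw : V → ℝ}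
    (hHv : ∀ z ∈ C, Tendsto (fun n => D (f n) z - D (f n) o) U (𝓝 (Hv z)))
    (hHw : ∀ z ∈ C, Tendsto (fun n => D (g n) z - D (g n) o) U (𝓝 (Hw z))) :
    Sep C v w (fun z => Hv z + Hw z) := by
  classical
  intro z₀ hz₀ hli
  have hgood : ∀ᶠ n in (U : Filter ℕ), LinearIndependent ℝ ![z₀, f n, g n] := by
    have h1 : Tendsto (fun n => ![z₀, f n, g n]) U (𝓝 ![z₀, v, w]) := by
      rw [tendsto_pi_nhds]
      intro i
      fin_cases i
      · exact tendsto_const_nhds
      · exact hfv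
      · exact hgw
    exact h1.eventually hli.eventually
  have hlt : ∀ n, LinearIndependent ℝ ![z₀, f n, g n] →
      D (f n) (g n) < 2 * ((D (f n) z₀ + D z₀ (g n)) / 2) := by
    intro n hn
    have h1 : LinearIndependent ℝ ![f n, z₀, g n] := by
      have h2 := hn.comp (Equiv.swap (0 : Fin 3) 1) (Equiv.injective _)
      convert h2 using 1
      funext i
      fin_cases i <;> rfl
    have h3 := hD.strict _ (hf n) _ hz₀ _ (hg n) h1
    linarith
  have hex : ∀ n, ∃ c : Fin 6 → ℝ, ‖c‖ = 1 ∧ (LinearIndependent ℝ ![z₀, f n, g n] →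
      (∀ z ∈ C, D (f n) z + D z (g n) = 2 * ((D (f n) z₀ + D z₀ (g n)) / 2) →
        Qf c z = 0) ∧
      (∀ z ∈ C, D (f n) z + D z (g n) < 2 * ((D (f n) z₀ + D z₀ (g n)) / 2) →
        Qf c z < 0) ∧
      (∀ z ∈ C, 2 * ((D (f n) z₀ + D z₀ (g n)) / 2) < D (f n) z + D z (g n) →
        0 < Qf c z) ∧
      (∀ x, x ≠ 0 → x ∉ C → -x ∉ C → 0 < Qf c x)) := by
    intro n
    by_cases hn : LinearIndependent ℝ ![z₀, f n, g n]
    · have h1 : LinearIndependent ℝ ![f n, g n] := by
        have h2 := hn.comp (Fin.succ : Fin 2 → Fin 3) (Fin.succ_injective _)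
        convert h2 using 1
        funext i
        fin_cases i <;> rfl
      obtain ⟨c, hc1, hc2⟩ := hE _ (hf n) _ (hg n) h1 _ (hlt n hn)
      exact ⟨c, hc1, fun _ => hc2⟩
    · refine ⟨fun _ => 1, ?_, fun h => absurd h hn⟩
      rw [pi_norm_const, norm_one]
  choose c hc1 hc2 using hex
  obtain ⟨c₀, hc₀, hcl⟩ := (isCompact_sphere (0 : Fin 6 → ℝ) 1).ultrafilter_le_nhds (U.map c)
    (by
      rw [le_principal_iff, Ultrafilter.coe_map, Filter.mem_map]
      refine Filter.univ_mem' ?_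
      intro n
      simp [hc1])
  have hct : Tendsto c U (𝓝 c₀) := hcl
  have hQ : ∀ x : V, Tendsto (fun n => Qf (c n) x) U (𝓝 (Qf c₀ x)) := by
    intro x
    exact Qf_tendsto hct tendsto_const_nhds
  have hS : ∀ z ∈ C, Tendsto (fun n => (D (f n) z - D (f n) o) +
      (D (g n) z - D (g n) o)) U (𝓝 (Hv z + Hw z)) := by
    intro z hz
    exact (hHv z hz).add (hHw z hz)
  have hsymm : ∀ n, ∀ z ∈ C, D z (g n) = D (g n) z := fun n z hz => hD.symm z hz _ (hg n)
  refine ⟨c₀, by simpa using hc₀, ?_, ?_, ?_, ?_, ?_, ?_⟩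
  · refine tendsto_nhds_unique_of_eventuallyEq (hQ z₀) (tendsto_const_nhds (x := (0 : ℝ))) ?_
    filter_upwards [hgood] with n hn
    exact (hc2 n hn).1 z₀ hz₀ (by ring)
  · intro z hz hlt'
    refine le_of_tendsto (hQ z) ?_
    filter_upwards [hgood, (hS z hz).eventually_lt (hS z₀ hz₀) hlt'] with n hn h1
    refine ((hc2 n hn).2.1 z hz ?_).le
    rw [hsymm n z hz, hsymm n z₀ hz₀]
    linarith
  · intro z hz hlt'
    refine ge_of_tendsto (hQ z) ?_
    filter_upwards [hgood, (hS z₀ hz₀).eventually_lt (hS z hz) hlt'] with n hn h1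
    refine ((hc2 n hn).2.2.1 z hz ?_).le
    rw [hsymm n z hz, hsymm n z₀ hz₀]
    linarith
  · intro x hx hx'
    by_cases h0 : x = 0
    · subst h0
      simp [Qf]
    · refine ge_of_tendsto (hQ x) ?_
      filter_upwards [hgood] with n hn
      exact ((hc2 n hn).2.2.2 x h0 hx hx').le
  · have h1 : Tendsto (fun n => Qf (c n) (f n)) U (𝓝 (Qf c₀ v)) :=
      Qf_tendsto hct hfv
    refine le_of_tendsto h1 ?_
    filter_upwards [hgood] with n hn
    refine ((hc2 n hn).2.1 _ (hf n) ?_).le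
    rw [hD.self _ (hf n), zero_add]
    exact hlt n hn
  · have h1 : Tendsto (fun n => Qf (c n) (g n)) U (𝓝 (Qf c₀ w)) :=
      Qf_tendsto hct hgw
    refine le_of_tendsto h1 ?_
    filter_upwards [hgood] with n hn
    refine ((hc2 n hn).2.1 _ (hg n) ?_).le
    rw [hD.self _ (hg n), add_zero]
    exact hlt n hn

theorem horoFamily_of {C : Set V} {D : V → V → ℝ} (hD : ConePlane C D) (hE : EllSep C D) :
    ∃ H : V → V → ℝ, HoroFamily C D H := by
  classical
  obtain ⟨o, ho⟩ := hD.nonempty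
  have hseq : ∀ v : V, ∃ x : ℕ → V, (∀ n, x n ∈ C) ∧ (v ∈ closure C → Tendsto x atTop (𝓝 v)) := by
    intro v
    by_cases hv : v ∈ closure C
    · obtain ⟨x, hx, hx'⟩ := mem_closure_iff_seq_limit.1 hv
      exact ⟨x, hx, fun _ => hx'⟩
    · exact ⟨fun _ => o, fun _ => ho, fun h => absurd h hv⟩
  choose F hF hF' using hseq
  have hU : ((hyperfilter ℕ : Ultrafilter ℕ) : Filter ℕ) ≤ atTop := Nat.hyperfilter_le_atTop
  generalize (hyperfilter ℕ : Ultrafilter ℕ) = U at hU
  have hlimex : ∀ v : V, ∃ h₀ : V → ℝ, h₀ o = 0 ∧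
      ∀ z ∈ C, Tendsto (fun n => D (F v n) z - D (F v n) o) U (𝓝 (h₀ z)) := by
    intro v
    exact exists_limit hD U ho (h := fun n z => D (F v n) z - D (F v n) o)
      (fun n => sub_self _) (fun n => (horo_basic hD (hF v n) _).1)
  choose H hH0 hH using hlimex
  refine ⟨H, ⟨o, ho, hH0⟩, ?_, ?_⟩
  · intro v hv _
    exact horo_limit hD U (Eventually.of_forall fun n => horo_basic hD (hF v n) (D (F v n) o))
      ((hF' v hv).mono_left hU) (hH v)
  · intro v hv w hw _
    exact sep_limit hD hE U (hF v) (hF w) ((hF' v hv).mono_left hU) ((hF' w hw).mono_left hU)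
      (hH v) (hH w)


end JB

end Pool.Agent.Helper87.Conics
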