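import Pool.Agent.Helper87.ConicsDefs

set_option autoImplicit false

open Filter Topology

namespace Pool.Agent.Helper87.Conics

namespace JC

theorem cast_diag (n : ℕ) (hn : n = 3) (w : Fin n → ℝ) (e : V ≃ₗ[ℝ] (Fin n → ℝ)) (q : V → ℝ)
    (hw : ∀ i, w i = -1 ∨ w i = 0 ∨ w i = 1) (h : ∀ v, q v = ∑ i, w i * (e v i * e v i)) :
    ∃ (w' : Fin 3 → ℝ) (e' : V ≃ₗ[ℝ] V), (∀ i, w' i = -1 ∨ w' i = 0 ∨ w' i = 1) ∧
      ∀ v, q v = ∑ i, w' i * (e' v i * e' v i) := by
  subst hn
  exact ⟨w, e, hw, h⟩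

theorem diag (c : Fin 6 → ℝ) :
    ∃ (w' : Fin 3 → ℝ) (e' : V ≃ₗ[ℝ] V), (∀ i, w' i = -1 ∨ w' i = 0 ∨ w' i = 1) ∧
      ∀ v, Qf c v = ∑ i, w' i * (e' v i * e' v i) := by
  let p : Fin 3 → (V →ₗ[ℝ] ℝ) := fun i => LinearMap.proj i
  let Q : QuadraticForm ℝ V :=
    c 0 • QuadraticMap.linMulLin (p 0) (p 0) + c 1 • QuadraticMap.linMulLin (p 1) (p 1)
    + c 2 • QuadraticMap.linMulLin (p 2) (p 2) + c 3 • QuadraticMap.linMulLin (p 0) (p 1)
    + c 4 • QuadraticMap.linMulLin (p 0) (p 2) + c 5 • QuadraticMap.linMulLin (p 1) (p 2)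
  have hQ : ∀ v, Q v = Qf c v := by
    intro v
    simp only [Q, p, QuadraticMap.add_apply, QuadraticMap.smul_apply,
      QuadraticMap.linMulLin_apply, LinearMap.proj_apply, smul_eq_mul, Qf]
    ring
  obtain ⟨w, hw, ⟨e⟩⟩ := QuadraticForm.equivalent_one_zero_neg_one_weighted_sum_squared Q
  refine cast_diag _ (by simp) w e.toLinearEquiv (Qf c) hw (fun v => ?_)
  rw [← hQ, ← e.map_app v, QuadraticMap.weightedSumSquares_apply]
  simp only [smul_eq_mul]
  rfl

theorem Qf_zero (c : Fin 6 → ℝ) (h : ∀ v, Qf c v = 0) : c = 0 := by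
  have h0 := h ![1, 0, 0]
  have h1 := h ![0, 1, 0]
  have h2 := h ![0, 0, 1]
  have h3 := h ![1, 1, 0]
  have h4 := h ![1, 0, 1]
  have h5 := h ![0, 1, 1]
  simp [Qf] at h0 h1 h2 h3 h4 h5
  ext i
  fin_cases i
  · exact h0
  · exact h1
  · exact h2
  · simp only [Fin.reduceFinMk, Pi.zero_apply]; linarith
  · simp only [Fin.reduceFinMk, Pi.zero_apply]; linarith
  · simp only [Fin.reduceFinMk, Pi.zero_apply]; linarith

theorem limit_form {C : Set V} {D : V → V → ℝ} (hD : ConePlane C D) (hE : EllSep C D) :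
    ∃ c : Fin 6 → ℝ, c ≠ 0 ∧ (∀ z ∈ C, Qf c z ≤ 0) ∧ (∀ x, x ∉ C → -x ∉ C → 0 ≤ Qf c x) := by
  obtain ⟨φ, hφ⟩ := hD.chart
  obtain ⟨f, hf⟩ := hD.nonempty
  have hf0 : f ≠ 0 := by
    intro h
    have := hφ f hf
    rw [h, map_zero] at this
    exact lt_irrefl _ this
  obtain ⟨e, he⟩ := exists_linearIndependent_pair_of_one_lt_finrank
    (R := ℝ) (M := V) (by simp) hf0
  obtain ⟨s, hs, hg⟩ : ∃ s : ℝ, s ≠ 0 ∧ f + s • e ∈ C := by
    have hc : Continuous (fun s : ℝ => f + s • e) := by fun_prop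
    have h0 : (fun s : ℝ => f + s • e) 0 ∈ C := by simpa using hf
    have hn := hc.continuousAt.preimage_mem_nhds (hD.isOpen.mem_nhds h0)
    obtain ⟨δ, hδ, hball⟩ := Metric.mem_nhds_iff.mp hn
    refine ⟨δ / 2, by positivity, hball ?_⟩
    rw [Metric.mem_ball, Real.dist_eq, sub_zero, abs_of_pos (by positivity)]
    linarith
  set g := f + s • e with hgdef
  have hli : LinearIndependent ℝ ![f, g] := by
    rw [LinearIndependent.pair_iff] at he ⊢
    intro a b hab
    have h1 : (a + b) • f + (b * s) • e = 0 := by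
      rw [← hab, hgdef]; module
    obtain ⟨h2, h3⟩ := he _ _ h1
    have h4 : b = 0 := (mul_eq_zero.mp h3).resolve_right hs
    exact ⟨by rw [h4] at h2; linarith, h4⟩
  choose c hc1 hc2 hc3 hc4 hc5 using
    fun n : ℕ => hE f hf g hg hli (D f g / 2 + 1 + n) (by
      have : (0:ℝ) ≤ n := Nat.cast_nonneg n
      linarith)
  obtain ⟨c', hc', ψ, hψ, htend⟩ := (isCompact_sphere (0 : Fin 6 → ℝ) 1).tendsto_subseq
    (x := c) (fun n => by rw [mem_sphere_zero_iff_norm]; exact hc1 n)
  have hcont : ∀ v : V, Continuous (fun c : Fin 6 → ℝ => Qf c v) := by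
    intro v
    unfold Qf
    fun_prop
  refine ⟨c', ?_, ?_, ?_⟩
  · intro h
    rw [mem_sphere_zero_iff_norm, h, norm_zero] at hc'
    exact zero_ne_one hc'
  · intro z hz
    have ht := ((hcont z).tendsto c').comp htend
    refine le_of_tendsto ht ?_
    obtain ⟨N, hN⟩ := exists_nat_gt (D f z + D z g)
    filter_upwards [eventually_ge_atTop N] with n hn
    apply le_of_lt
    apply hc3
    · exact hz
    · have h1 : (N : ℝ) ≤ ψ n := by exact_mod_cast hn.trans (hψ.id_le n)
      have h2 : 0 ≤ D f g := by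
        have := hD.triangle f hf g hg f hf
        rw [hD.self f hf, hD.symm g hg f hf] at this
        linarith
      linarith
  · intro x hx hx'
    by_cases hx0 : x = 0
    · rw [hx0]
      simp [Qf]
    · have ht := ((hcont x).tendsto c').comp htend
      refine ge_of_tendsto' ht (fun n => ?_)
      exact (hc5 _ x hx0 hx hx').le

theorem shape_aux {C : Set V} {D : V → V → ℝ} (hD : ConePlane C D) (q : V → ℝ) (T : V ≃ₗ[ℝ] V)
    (ε1 ε2 : ℝ) (hε1 : 0 ≤ ε1) (hε2 : 0 ≤ ε2)
    (hq : ∀ v, q v = -(T v 0) ^ 2 + ε1 * (T v 1) ^ 2 + ε2 * (T v 2) ^ 2)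
    (hneg : ∀ v ∈ C, q v < 0) (hpos : ∀ x, x ∉ C → -x ∉ C → 0 ≤ q x) :
    ∃ T' : V ≃ₗ[ℝ] V, (∀ v, q v = -(T' v 0) ^ 2 + ε1 * (T' v 1) ^ 2 + ε2 * (T' v 2) ^ 2) ∧
      ∀ v, v ∈ C ↔ q v < 0 ∧ 0 < T' v 0 := by
  have hT0 : ∀ v ∈ C, T v 0 ≠ 0 := by
    intro v hv h0
    have h1 := hneg v hv
    rw [hq, h0] at h1
    have h2 : 0 ≤ ε1 * (T v 1) ^ 2 := by positivity
    have h3 : 0 ≤ ε2 * (T v 2) ^ 2 := by positivity
    simp at h1
    linarith
  have hsign : (∀ v ∈ C, 0 < T v 0) ∨ (∀ v ∈ C, T v 0 < 0) := by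
    by_contra hcon
    push Not at hcon
    obtain ⟨⟨v, hv, hv0⟩, ⟨w, hw, hw0⟩⟩ := hcon
    have hv1 : T v 0 < 0 := lt_of_le_of_ne hv0 (hT0 v hv)
    have hw1 : 0 < T w 0 := lt_of_le_of_ne hw0 (hT0 w hw).symm
    have hmem : (T w 0) • v + (-(T v 0)) • w ∈ C :=
      hD.add_mem _ (hD.smul_mem v hv _ hw1) _ (hD.smul_mem w hw _ (by linarith))
    apply hT0 _ hmem
    simp only [map_add, map_smul, Pi.add_apply, Pi.smul_apply, smul_eq_mul]
    ring
  have hmain : ∀ T' : V ≃ₗ[ℝ] V, (∀ v ∈ C, 0 < T' v 0) → ∀ v, v ∈ C ↔ q v < 0 ∧ 0 < T' v 0 := by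
    intro T' hT' v
    constructor
    · intro hv
      exact ⟨hneg v hv, hT' v hv⟩
    · rintro ⟨h1, h2⟩
      by_contra hv
      by_cases hv' : -v ∈ C
      · have := hT' _ hv'
        rw [map_neg, Pi.neg_apply] at this
        linarith
      · have := hpos v hv hv'
        linarith
  rcases hsign with h | h
  · exact ⟨T, hq, hmain T h⟩
  · refine ⟨T.trans (LinearEquiv.neg ℝ), ?_, hmain _ ?_⟩
    · intro v
      rw [hq]
      simp only [LinearEquiv.trans_apply, LinearEquiv.neg_apply, Pi.neg_apply]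
      ring
    · intro v hv
      simp only [LinearEquiv.trans_apply, LinearEquiv.neg_apply, Pi.neg_apply]
      have := h v hv
      linarith

theorem shape {C : Set V} {D : V → V → ℝ} (hD : ConePlane C D) (hE : EllSep C D) :
    ∃ T : V ≃ₗ[ℝ] V, (∀ v, v ∈ C ↔ 0 < T v 0) ∨ (∀ v, v ∈ C ↔ |T v 1| < T v 0) ∨
      (∀ v, v ∈ C ↔ 0 < T v 0 ∧ 0 < T v 0 ^ 2 - T v 1 ^ 2 - T v 2 ^ 2) := by
  obtain ⟨c, hc0, hA, hB⟩ := limit_form hD hE
  obtain ⟨w, e, hw, hq⟩ := diag c
  obtain ⟨φ, hφ⟩ := hD.chart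
  -- vectors in the kernel of φ
  have hker : ∀ x, φ x = 0 → 0 ≤ Qf c x := by
    intro x hx
    apply hB
    · intro h
      have := hφ x h
      rw [hx] at this
      exact lt_irrefl _ this
    · intro h
      have := hφ _ h
      rw [map_neg, hx, neg_zero] at this
      exact lt_irrefl _ this
  have hopen : ∀ v ∈ C, ∀ x : V, ∃ δ > 0, ∀ s : ℝ, |s| < δ → v + s • x ∈ C := by
    intro v hv x
    have hc : Continuous (fun s : ℝ => v + s • x) := by fun_prop
    have h0 : (fun s : ℝ => v + s • x) 0 ∈ C := by simpa using hv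
    have hn := hc.continuousAt.preimage_mem_nhds (hD.isOpen.mem_nhds h0)
    obtain ⟨δ, hδ, hball⟩ := Metric.mem_nhds_iff.mp hn
    exact ⟨δ, hδ, fun s hs => hball (by
      rw [Metric.mem_ball, Real.dist_eq, sub_zero]; exact hs)⟩
  -- at most one negative weight
  have hone : ∀ i j, i ≠ j → w i = -1 → w j = -1 → False := by
    intro i j hij hi hj
    set x1 := e.symm (Pi.single i 1) with hx1
    set x2 := e.symm (Pi.single j 1) with hx2
    obtain ⟨α, β, hαβ, hφ0⟩ : ∃ α β : ℝ, (α ≠ 0 ∨ β ≠ 0) ∧ φ (α • x1 + β • x2) = 0 := by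
      by_cases h1 : φ x1 = 0
      · exact ⟨1, 0, Or.inl one_ne_zero, by simp [h1]⟩
      · refine ⟨φ x2, -φ x1, Or.inr (neg_ne_zero.mpr h1), ?_⟩
        simp only [map_add, map_smul, smul_eq_mul]
        ring
    have h1 := hker _ hφ0
    rw [hq] at h1
    have h2 : ∀ k, e (α • x1 + β • x2) k = α * (Pi.single i (1:ℝ) : V) k
        + β * (Pi.single j (1:ℝ) : V) k := by
      intro k
      rw [map_add, map_smul, map_smul, hx1, hx2, LinearEquiv.apply_symm_apply,
        LinearEquiv.apply_symm_apply]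
      simp
    have h3 : ∑ k, w k * (e (α • x1 + β • x2) k * e (α • x1 + β • x2) k) = -α ^ 2 - β ^ 2 := by
      have h4 : ∀ k, w k * (e (α • x1 + β • x2) k * e (α • x1 + β • x2) k)
          = (if k = i then -α ^ 2 else 0) + (if k = j then -β ^ 2 else 0) := by
        intro k
        rw [h2]
        by_cases hki : k = i
        · subst hki
          rw [if_pos rfl, if_neg hij, hi]
          simp [Pi.single_eq_of_ne hij]
          ring
        · by_cases hkj : k = j
          · subst hkj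
            rw [if_neg hki, if_pos rfl, hj]
            simp [Pi.single_eq_of_ne hki]
            ring
          · rw [if_neg hki, if_neg hkj]
            simp [Pi.single_eq_of_ne hki, Pi.single_eq_of_ne hkj]
      rw [Finset.sum_congr rfl (fun k _ => h4 k), Finset.sum_add_distrib]
      simp
      ring
    rw [h3] at h1
    rcases hαβ with h | h
    · have : 0 < α ^ 2 := by positivity
      nlinarith [sq_nonneg β]
    · have : 0 < β ^ 2 := by positivity
      nlinarith [sq_nonneg α]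
  -- at least one negative weight
  have hex : ∃ i, w i = -1 := by
    by_contra hcon
    push Not at hcon
    have hw' : ∀ i, 0 ≤ w i := by
      intro i
      rcases hw i with h | h | h
      · exact absurd h (hcon i)
      · rw [h]
      · rw [h]; norm_num
    have hz : ∀ i, w i = 0 := by
      intro i
      by_contra hne
      have hi1 : w i = 1 := by
        rcases hw i with h | h | h
        · exact absurd h (hcon i)
        · exact absurd h hne
        · exact h
      have hz1 : ∀ v ∈ C, e v i = 0 := by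
        intro v hv
        have h1 := hA v hv
        rw [hq] at h1
        have h2 : w i * (e v i * e v i) ≤ ∑ k, w k * (e v k * e v k) :=
          Finset.single_le_sum (f := fun k => w k * (e v k * e v k))
            (fun k _ => mul_nonneg (hw' k) (mul_self_nonneg _)) (Finset.mem_univ i)
        rw [hi1, one_mul] at h2
        have h3 : e v i * e v i ≤ 0 := h2.trans h1
        have h4 : e v i * e v i = 0 := le_antisymm h3 (mul_self_nonneg _)
        exact mul_self_eq_zero.mp h4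
      obtain ⟨v, hv⟩ := hD.nonempty
      obtain ⟨δ, hδ, hs⟩ := hopen v hv (e.symm (Pi.single i 1))
      have h5 := hz1 _ (hs (δ / 2) (by rw [abs_of_pos (by positivity)]; linarith))
      rw [map_add, map_smul, LinearEquiv.apply_symm_apply, Pi.add_apply, hz1 v hv] at h5
      simp at h5
      exact hδ.ne' h5
    apply hc0
    apply Qf_zero
    intro v
    rw [hq]
    simp [hz]
  -- permute
  obtain ⟨σ, hσ0, hσ1, hσ2, hσ12⟩ : ∃ σ : Equiv.Perm (Fin 3), w (σ 0) = -1 ∧
      (w (σ 1) = 1 ∨ w (σ 1) = 0) ∧ (w (σ 2) = 1 ∨ w (σ 2) = 0) ∧ (w (σ 1) = 0 → w (σ 2) = 0) := by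
    set F : Fin 3 → ℕ := fun i => if w i = -1 then 0 else if w i = 1 then 1 else 2 with hF
    set σ := Tuple.sort F with hσ
    have hmono : Monotone (F ∘ σ) := Tuple.monotone_sort F
    obtain ⟨i, hi⟩ := hex
    have h0 : F (σ 0) = 0 := by
      have h1 : (F ∘ σ) 0 ≤ (F ∘ σ) (σ.symm i) := hmono (Fin.zero_le _)
      simp only [Function.comp, Equiv.apply_symm_apply] at h1
      have h2 : F i = 0 := by simp only [hF]; rw [if_pos hi]
      omega
    have hF0 : ∀ k, F k = 0 → w k = -1 := by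
      intro k hk
      simp only [hF] at hk
      by_contra hne
      rw [if_neg hne] at hk
      split_ifs at hk
    have hFi : ∀ k, F k ≠ 0 → w k = 1 ∨ w k = 0 := by
      intro k hk
      rcases hw k with h | h | h
      · exfalso; apply hk; simp only [hF]; rw [if_pos h]
      · right; exact h
      · left; exact h
    have hs0 := hF0 _ h0
    have h1 : F (σ 1) ≠ 0 := fun h =>
      hone (σ 0) (σ 1) (fun h' => absurd (σ.injective h') (by decide)) hs0 (hF0 _ h)
    have h2 : F (σ 2) ≠ 0 := fun h =>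
      hone (σ 0) (σ 2) (fun h' => absurd (σ.injective h') (by decide)) hs0 (hF0 _ h)
    refine ⟨σ, hs0, hFi _ h1, hFi _ h2, fun h3 => ?_⟩
    rcases hFi _ h2 with h4 | h4
    · exfalso
      have h5 : (F ∘ σ) 1 ≤ (F ∘ σ) 2 := hmono (by decide)
      simp only [Function.comp, hF] at h5
      rw [h3, h4] at h5
      norm_num at h5
    · exact h4
  set T : V ≃ₗ[ℝ] V := e.trans (LinearEquiv.funCongrLeft ℝ ℝ σ) with hT
  have hTv : ∀ v k, T v k = e v (σ k) := fun v k => rfl
  have hqT : ∀ v, Qf c v = -(T v 0) ^ 2 + w (σ 1) * (T v 1) ^ 2 + w (σ 2) * (T v 2) ^ 2 := by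
    intro v
    rw [hq, ← Equiv.sum_comp σ, Fin.sum_univ_three, hσ0, hTv, hTv, hTv]
    ring
  have hε1 : 0 ≤ w (σ 1) := by rcases hσ1 with h | h <;> rw [h]; norm_num
  have hε2 : 0 ≤ w (σ 2) := by rcases hσ2 with h | h <;> rw [h]; norm_num
  -- strictly negative on C
  have hneg : ∀ v ∈ C, Qf c v < 0 := by
    intro v hv
    refine lt_of_le_of_ne (hA v hv) (fun h0 => ?_)
    rcases hσ1 with h1 | h1
    · -- weight one
      obtain ⟨δ, hδ, hs⟩ := hopen v hv (T.symm (Pi.single 1 1))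
      obtain ⟨s, hs0, hsδ, hsT⟩ : ∃ s : ℝ, s ≠ 0 ∧ |s| < δ ∧ 0 ≤ s * T v 1 := by
        rcases le_total 0 (T v 1) with h | h
        · exact ⟨δ / 2, by positivity, by rw [abs_of_pos (by positivity)]; linarith, by positivity⟩
        · have hd2 : 0 < δ / 2 := by positivity
          refine ⟨-(δ / 2), neg_ne_zero.mpr hd2.ne', by
            rw [abs_neg, abs_of_pos (by positivity)]; linarith, ?_⟩
          nlinarith
      have h2 := hA _ (hs s hsδ)
      rw [hqT] at h2 h0
      have e0 : T (v + s • T.symm (Pi.single 1 1)) 0 = T v 0 := by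
        rw [map_add, map_smul, LinearEquiv.apply_symm_apply]; simp
      have e1 : T (v + s • T.symm (Pi.single 1 1)) 1 = T v 1 + s := by
        rw [map_add, map_smul, LinearEquiv.apply_symm_apply]; simp
      have e2 : T (v + s • T.symm (Pi.single 1 1)) 2 = T v 2 := by
        rw [map_add, map_smul, LinearEquiv.apply_symm_apply]; simp
      rw [e0, e1, e2, h1] at h2
      rw [h1] at h0
      have h3 : 0 < s ^ 2 := by positivity
      nlinarith
    · have h2 := hσ12 h1
      rw [hqT, h1, h2] at h0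
      have hT0 : T v 0 = 0 := by
        have : (T v 0) ^ 2 = 0 := by linarith
        exact pow_eq_zero_iff (two_ne_zero) |>.mp this
      have hφv := hφ v hv
      set y := T.symm (Pi.single 0 1) with hy
      have h3 := hker (y - (φ y / φ v) • v) (by
        rw [map_sub, map_smul, smul_eq_mul, div_mul_cancel₀ _ hφv.ne', sub_self])
      rw [hqT, h1, h2, map_sub, map_smul, hy, LinearEquiv.apply_symm_apply, Pi.sub_apply,
        Pi.smul_apply, hT0] at h3
      simp at h3
      linarith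
  obtain ⟨T', hq', hC⟩ := shape_aux hD (Qf c) T (w (σ 1)) (w (σ 2)) hε1 hε2 hqT hneg hB
  refine ⟨T', ?_⟩
  rcases hσ1 with h1 | h1
  · rcases hσ2 with h2 | h2
    · right; right
      intro v
      rw [hC, hq', h1, h2]
      constructor
      · rintro ⟨h3, h4⟩
        exact ⟨h4, by linarith⟩
      · rintro ⟨h3, h4⟩
        exact ⟨by linarith, h3⟩
    · right; left
      intro v
      rw [hC, hq', h1, h2]
      constructor
      · rintro ⟨h3, h4⟩
        apply abs_lt_of_sq_lt_sq _ h4.le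
        linarith
      · intro h3
        have h4 : 0 < T' v 0 := lt_of_le_of_lt (abs_nonneg _) h3
        have h5 : (T' v 1) ^ 2 < (T' v 0) ^ 2 := by
          rw [← sq_abs (T' v 1)]
          gcongr
        exact ⟨by linarith, h4⟩
  · left
    intro v
    rw [hC, hq', h1, hσ12 h1]
    constructor
    · rintro ⟨-, h4⟩
      exact h4
    · intro h4
      refine ⟨?_, h4⟩
      have : 0 < (T' v 0) ^ 2 := by positivity
      linarith


end JC

end Pool.Agent.Helper87.Conics
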