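import Pool.Agent.Helper87.ConicsDefs

set_option autoImplicit false

open Filter Topology

namespace Pool.Agent.Helper87.Conics

namespace JD1

section DOaux

/-- twice the polar form -/
def dopb (c : Fin 6 → ℝ) (v w : V) : ℝ := Qf c (v + w) - Qf c v - Qf c w

theorem do_comb (c : Fin 6 → ℝ) (u v w : V) (x y g : ℝ) :
    Qf c (x • u + y • v + g • w) = x ^ 2 * Qf c u + y ^ 2 * Qf c v + g ^ 2 * Qf c w +
      x * y * dopb c u v + x * g * dopb c u w + y * g * dopb c v w := by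
  simp only [dopb, Qf, Pi.add_apply, Pi.smul_apply, smul_eq_mul]
  ring

theorem do_line (c : Fin 6 → ℝ) (u w : V) (t : ℝ) :
    Qf c (u + t • w) = Qf c u + t * dopb c u w + t ^ 2 * Qf c w := by
  simp only [dopb, Qf, Pi.add_apply, Pi.smul_apply, smul_eq_mul]
  ring

theorem do_zero (c : Fin 6 → ℝ) (h : ∀ z, Qf c z = 0) : c = 0 := by
  have h0 := h ![1, 0, 0]
  have h1 := h ![0, 1, 0]
  have h2 := h ![0, 0, 1]
  have h3 := h ![1, 1, 0]
  have h4 := h ![1, 0, 1]
  have h5 := h ![0, 1, 1]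
  simp [Qf] at h0 h1 h2 h3 h4 h5
  funext i
  fin_cases i
  · simpa using h0
  · simpa using h1
  · simpa using h2
  · simp only [Pi.zero_apply]; show c 3 = 0; linarith
  · simp only [Pi.zero_apply]; show c 4 = 0; linarith
  · simp only [Pi.zero_apply]; show c 5 = 0; linarith

variable {a1 a2 b1 b2 : ℝ}

theorem do_TT (ha : a1 ^ 2 + a2 ^ 2 = 1) (hb : b1 ^ 2 + b2 ^ 2 = 1) :
    Lf ![a1 * b2 - a2 * b1, b2 - a2, a1 - b1] ![a1 * b2 - a2 * b1, b2 - a2, a1 - b1] =
      -(1 - a1 * b1 - a2 * b2) ^ 2 := by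
  simp only [Lf, Matrix.cons_val_zero, Matrix.cons_val_one, Matrix.cons_val]
  grind

theorem do_solve {l w x y t p q r : ℝ} (hl : l ≠ 0)
    (h : l ^ 2 * w = l * x * p + l * y * q - t * r) :
    w = x / l * p + y / l * q + -t / l ^ 2 * r := by
  field_simp
  linarith

theorem do_decomp (ha : a1 ^ 2 + a2 ^ 2 = 1) (hb : b1 ^ 2 + b2 ^ 2 = 1)
    (hl : 1 - a1 * b1 - a2 * b2 ≠ 0) (z : V) :
    z = (Lf z ![1, b1, b2] / (1 - a1 * b1 - a2 * b2)) • ![1, a1, a2] +
      (Lf z ![1, a1, a2] / (1 - a1 * b1 - a2 * b2)) • ![1, b1, b2] +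
      (-Lf z ![a1 * b2 - a2 * b1, b2 - a2, a1 - b1] / (1 - a1 * b1 - a2 * b2) ^ 2) •
        ![a1 * b2 - a2 * b1, b2 - a2, a1 - b1] := by
  funext i
  fin_cases i
  · simp only [Lf, Matrix.cons_val_zero, Matrix.cons_val_one, Matrix.cons_val, Pi.add_apply,
      Pi.smul_apply, smul_eq_mul, Fin.zero_eta]
    have h : (1 - a1*b1 - a2*b2)^2 * z 0 = (1 - a1*b1 - a2*b2) * (z 0 - z 1*b1 - z 2*b2) * 1 +
      (1 - a1*b1 - a2*b2) * (z 0 - z 1*a1-z 2*a2) * 1
      - (z 0*(a1*b2-a2*b1) - z 1*(b2-a2) - z 2*(a1-b1)) * (a1*b2-a2*b1) := by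
      grind
    refine do_solve hl ?_
    rw [mul_one (z 0)]
    exact h
  · simp only [Lf, Matrix.cons_val_zero, Matrix.cons_val_one, Matrix.cons_val, Pi.add_apply,
      Pi.smul_apply, smul_eq_mul, Fin.mk_one]
    have h : (1 - a1*b1 - a2*b2)^2 * z 1 = (1 - a1*b1 - a2*b2) * (z 0 - z 1*b1 - z 2*b2) * a1 +
      (1 - a1*b1 - a2*b2) * (z 0 - z 1*a1-z 2*a2) * b1
      - (z 0*(a1*b2-a2*b1) - z 1*(b2-a2) - z 2*(a1-b1)) * (b2-a2) := by
      grind
    refine do_solve hl ?_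
    rw [mul_one (z 0)]
    exact h
  · simp only [Lf, Matrix.cons_val_zero, Matrix.cons_val_one, Matrix.cons_val, Pi.add_apply,
      Pi.smul_apply, smul_eq_mul, Fin.reduceFinMk]
    have h : (1 - a1*b1 - a2*b2)^2 * z 2 = (1 - a1*b1 - a2*b2) * (z 0 - z 1*b1 - z 2*b2) * a2 +
      (1 - a1*b1 - a2*b2) * (z 0 - z 1*a1-z 2*a2) * b2
      - (z 0*(a1*b2-a2*b1) - z 1*(b2-a2) - z 2*(a1-b1)) * (a1-b1) := by
      grind
    refine do_solve hl ?_
    rw [mul_one (z 0)]
    exact h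

/-- A vector in the open light cone is positive on null vectors. -/
theorem do_pos (ha : a1 ^ 2 + a2 ^ 2 = 1) (z : V) (hz : z ∈ Disc) : 0 < Lf z ![1, a1, a2] := by
  obtain ⟨h0, h1⟩ := hz
  simp only [Lf, Matrix.cons_val_zero, Matrix.cons_val_one, Matrix.cons_val] at h1 ⊢
  have h2 : (z 1 * a1 + z 2 * a2) ^ 2 ≤ (z 1 ^ 2 + z 2 ^ 2) * (a1 ^ 2 + a2 ^ 2) := by
    nlinarith [sq_nonneg (z 1 * a2 - z 2 * a1)]
  rw [ha, mul_one] at h2
  have h3 : (z 1 * a1 + z 2 * a2) ^ 2 < z 0 ^ 2 := by nlinarith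
  have h4 := abs_lt_of_sq_lt_sq h3 h0.le
  have h5 := (abs_lt.1 h4).2
  linarith

end DOaux

/-- Conics adapted to two null vectors: order property. -/
theorem disc_order {θ θ' : ℝ} (hli : LinearIndependent ℝ ![nul θ, nul θ']) {S : V → ℝ}
    (hS : Sep Disc (nul θ) (nul θ') S) : DiscOrd θ θ' S := by
  classical
  obtain ⟨a1, ha1⟩ : ∃ a1, a1 = Real.cos θ := ⟨_, rfl⟩
  obtain ⟨a2, ha2⟩ : ∃ a2, a2 = Real.sin θ := ⟨_, rfl⟩
  obtain ⟨b1, hb1⟩ : ∃ b1, b1 = Real.cos θ' := ⟨_, rfl⟩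
  obtain ⟨b2, hb2⟩ : ∃ b2, b2 = Real.sin θ' := ⟨_, rfl⟩
  have ha : a1 ^ 2 + a2 ^ 2 = 1 := by rw [ha1, ha2]; exact Real.cos_sq_add_sin_sq θ
  have hb : b1 ^ 2 + b2 ^ 2 = 1 := by rw [hb1, hb2]; exact Real.cos_sq_add_sin_sq θ'
  have hA : nul θ = ![1, a1, a2] := by rw [nul, ha1, ha2]
  have hB : nul θ' = ![1, b1, b2] := by rw [nul, hb1, hb2]
  rw [hA, hB] at hli
  obtain ⟨lam, hlam⟩ : ∃ lam, lam = 1 - a1 * b1 - a2 * b2 := ⟨_, rfl⟩
  have hlpos : 0 < lam := by
    have h1 : 2 * lam = (a1 - b1) ^ 2 + (a2 - b2) ^ 2 := by rw [hlam]; grind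
    have h2 : 0 ≤ lam := by nlinarith [sq_nonneg (a1 - b1), sq_nonneg (a2 - b2)]
    rcases h2.lt_or_eq with h | h
    · exact h
    · exfalso
      rw [← h] at h1
      have e1 : a1 - b1 = 0 := by nlinarith [sq_nonneg (a1 - b1), sq_nonneg (a2 - b2)]
      have e2 : a2 - b2 = 0 := by nlinarith [sq_nonneg (a1 - b1), sq_nonneg (a2 - b2)]
      have e3 : a1 = b1 := by linarith
      have e4 : a2 = b2 := by linarith
      rw [LinearIndependent.pair_iff] at hli
      have := hli 1 (-1) (by rw [e3, e4]; simp)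
      exact one_ne_zero this.1
  obtain ⟨A, hAd⟩ : ∃ A : V, A = ![1, a1, a2] := ⟨_, rfl⟩
  obtain ⟨B, hBd⟩ : ∃ B : V, B = ![1, b1, b2] := ⟨_, rfl⟩
  obtain ⟨T, hTd⟩ : ∃ T : V, T = ![a1 * b2 - a2 * b1, b2 - a2, a1 - b1] := ⟨_, rfl⟩
  have hLAA : Lf A A = 0 := by
    rw [hAd]
    simp only [Lf, Matrix.cons_val_zero, Matrix.cons_val_one, Matrix.cons_val]
    linarith
  have hLBB : Lf B B = 0 := by
    rw [hBd]
    simp only [Lf, Matrix.cons_val_zero, Matrix.cons_val_one, Matrix.cons_val]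
    linarith
  have hLAB : Lf A B = lam := by
    rw [hAd, hBd, hlam]
    simp only [Lf, Matrix.cons_val_zero, Matrix.cons_val_one, Matrix.cons_val]
    ring
  have hLAT : Lf A T = 0 := by
    rw [hAd, hTd]
    simp only [Lf, Matrix.cons_val_zero, Matrix.cons_val_one, Matrix.cons_val]
    ring
  have hLBT : Lf B T = 0 := by
    rw [hBd, hTd]
    simp only [Lf, Matrix.cons_val_zero, Matrix.cons_val_one, Matrix.cons_val]
    ring
  have hLTT : Lf T T = -lam ^ 2 := by
    rw [hTd, hlam]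
    exact do_TT ha hb
  have hLcomb : ∀ x y g : ℝ, Lf (x • A + y • B + g • T) (x • A + y • B + g • T) =
      2 * x * y * lam - g ^ 2 * lam ^ 2 := by
    intro x y g
    have e : Lf (x • A + y • B + g • T) (x • A + y • B + g • T) =
        x ^ 2 * Lf A A + y ^ 2 * Lf B B + g ^ 2 * Lf T T + 2 * x * y * Lf A B +
        2 * x * g * Lf A T + 2 * y * g * Lf B T := by
      simp only [Lf, Pi.add_apply, Pi.smul_apply, smul_eq_mul]
      ring
    rw [e, hLAA, hLBB, hLTT, hLAB, hLAT, hLBT]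
    ring
  have hdec : ∀ z : V, z = (Lf z B / lam) • A + (Lf z A / lam) • B + (-Lf z T / lam ^ 2) • T := by
    intro z
    have := do_decomp ha hb (by rw [← hlam]; exact hlpos.ne') z
    rw [← hlam, ← hAd, ← hBd, ← hTd] at this
    exact this
  have hLzz : ∀ z : V, Lf z z = 2 * (Lf z B * Lf z A) / lam - (Lf z T / lam) ^ 2 := by
    intro z
    conv_lhs => rw [hdec z]
    rw [hLcomb]
    field_simp
  have hpA : ∀ z ∈ Disc, 0 < Lf z A := fun z hz => by rw [hAd]; exact do_pos ha z hz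
  have hpB : ∀ z ∈ Disc, 0 < Lf z B := fun z hz => by rw [hBd]; exact do_pos hb z hz
  -- the function `P`
  have hP : ∀ z ∈ Disc, pib θ z * pib θ' z = Lf z A * Lf z B / Lf z z := by
    intro z hz
    rw [pib, pib, hA, hB, ← hAd, ← hBd, div_mul_div_comm, Real.mul_self_sqrt hz.2.le]
  -- the key claim
  have key : ∀ z₀ ∈ Disc, LinearIndependent ℝ ![z₀, A, B] →
      (∀ z ∈ Disc, S z < S z₀ → Lf z A * Lf z B / Lf z z ≤ Lf z₀ A * Lf z₀ B / Lf z₀ z₀) ∧
      (∀ z ∈ Disc, S z₀ < S z → Lf z₀ A * Lf z₀ B / Lf z₀ z₀ ≤ Lf z A * Lf z B / Lf z z) := by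
    intro z₀ hz₀ hind
    obtain ⟨c, hc1, hcz, hc2, hc3, hc4, hc5, hc6⟩ := hS z₀ hz₀ (by
      rw [hA, hB, ← hAd, ← hBd]; exact hind)
    rw [hA, ← hAd] at hc5
    rw [hB, ← hBd] at hc6
    have hnD : ∀ v : V, Lf v v ≤ 0 → 0 ≤ Qf c v := by
      intro v hv
      refine hc4 v (fun h => absurd h.2 (not_lt.2 hv)) (fun h => ?_)
      have h2 := h.2
      have e : Lf (-v) (-v) = Lf v v := by
        simp only [Lf, Pi.neg_apply]; ring
      rw [e] at h2
      exact absurd h2 (not_lt.2 hv)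
    have qA : Qf c A = 0 := le_antisymm hc5 (hnD A hLAA.le)
    have qB : Qf c B = 0 := le_antisymm hc6 (hnD B hLBB.le)
    have qT : 0 ≤ Qf c T := hnD T (by rw [hLTT]; nlinarith [sq_nonneg lam])
    have hpol : ∀ u : V, Lf u u = 0 → Lf u T = 0 → Qf c u = 0 → dopb c u T = 0 := by
      intro u h1 h2 h3
      have h4 : ∀ t : ℝ, 0 ≤ t * dopb c u T + t ^ 2 * Qf c T := by
        intro t
        have h5 : Lf (u + t • T) (u + t • T) ≤ 0 := by
          have e : Lf (u + t • T) (u + t • T) = Lf u u + 2 * t * Lf u T + t ^ 2 * Lf T T := by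
            simp only [Lf, Pi.add_apply, Pi.smul_apply, smul_eq_mul]; ring
          rw [e, h1, h2, hLTT]
          nlinarith [mul_nonneg (sq_nonneg t) (sq_nonneg lam)]
        have h6 := hnD _ h5
        rw [do_line, h3] at h6
        linarith
      by_contra hne
      have hq : 0 ≤ Qf c T := qT
      -- choose t = - b / (2 (q + 1)) ...
      have h7 := h4 (-(dopb c u T) / (Qf c T + 1))
      have hq1 : 0 < Qf c T + 1 := by linarith
      have e : -(dopb c u T) / (Qf c T + 1) * dopb c u T +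
          (-(dopb c u T) / (Qf c T + 1)) ^ 2 * Qf c T =
          -(dopb c u T) ^ 2 / (Qf c T + 1) ^ 2 := by
        field_simp
        ring
      rw [e] at h7
      have h8 : 0 < (dopb c u T) ^ 2 := by positivity
      have h9 : -(dopb c u T) ^ 2 / (Qf c T + 1) ^ 2 < 0 :=
        div_neg_of_neg_of_pos (by linarith) (by positivity)
      linarith
    have hAT := hpol A hLAA hLAT qA
    have hBT := hpol B hLBB hLBT qB
    -- formula for q
    obtain ⟨κ, hκ⟩ : ∃ κ, κ = Qf c T / lam ^ 2 := ⟨_, rfl⟩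
    obtain ⟨α, hα⟩ : ∃ α, α = (dopb c A B + 2 * lam * κ) / lam ^ 2 := ⟨_, rfl⟩
    have hq : ∀ z : V, Qf c z = α * (Lf z A * Lf z B) - κ * Lf z z := by
      intro z
      have h1 : Qf c z = (-Lf z T / lam ^ 2) ^ 2 * Qf c T +
          (Lf z B / lam) * (Lf z A / lam) * dopb c A B := by
        conv_lhs => rw [hdec z]
        rw [do_comb, qA, qB, hAT, hBT]
        ring
      rw [h1, hLzz z, hα, hκ]
      field_simp
      ring
    have hκ0 : 0 ≤ κ := by rw [hκ]; positivity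
    have hz0 := hq z₀
    rw [hcz] at hz0
    have hPz0 : 0 < Lf z₀ A * Lf z₀ B := mul_pos (hpA z₀ hz₀) (hpB z₀ hz₀)
    have hκpos : 0 < κ := by
      rcases hκ0.lt_or_eq with h | h
      · exact h
      · exfalso
        rw [← h, zero_mul, sub_zero] at hz0
        have hα0 : α = 0 := by
          rcases mul_eq_zero.1 hz0.symm with h1 | h1
          · exact h1
          · exact absurd h1 hPz0.ne'
        have hc0 : c = 0 := do_zero c (fun z => by rw [hq z, hα0, ← h]; ring)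
        rw [hc0, norm_zero] at hc1
        exact zero_ne_one hc1
    have hLz0 : 0 < Lf z₀ z₀ := hz₀.2
    have hαpos : 0 < α := by
      have h1 : α * (Lf z₀ A * Lf z₀ B) = κ * Lf z₀ z₀ := by linarith
      have h2 : 0 < α * (Lf z₀ A * Lf z₀ B) := by rw [h1]; positivity
      exact (pos_iff_pos_of_mul_pos h2).2 hPz0
    have hP0 : Lf z₀ A * Lf z₀ B / Lf z₀ z₀ = κ / α := by
      rw [div_eq_div_iff hLz0.ne' hαpos.ne']
      linarith
    rw [hP0]
    constructor
    · intro z hz hSz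
      have h1 := hc2 z hz hSz
      rw [hq z] at h1
      rw [div_le_div_iff₀ hz.2 hαpos]
      linarith
    · intro z hz hSz
      have h1 := hc3 z hz hSz
      rw [hq z] at h1
      rw [div_le_div_iff₀ hαpos hz.2]
      linarith
  -- independence
  have hindep : ∀ z : V, Lf z T ≠ 0 → LinearIndependent ℝ ![z, A, B] := by
    intro z hz
    rw [← hAd, ← hBd] at hli
    have h2 : Function.Injective (![z, A, B] : Fin 3 → V) → True := fun _ => trivial
    rw [Fintype.linearIndependent_iff]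
    intro g hg
    rw [Fin.sum_univ_three] at hg
    simp only [Matrix.cons_val_zero, Matrix.cons_val_one, Matrix.cons_val] at hg
    have e : Lf (g 0 • z + g 1 • A + g 2 • B) T = g 0 * Lf z T + g 1 * Lf A T + g 2 * Lf B T := by
      simp only [Lf, Pi.add_apply, Pi.smul_apply, smul_eq_mul]; ring
    rw [hg, hLAT, hLBT] at e
    have e0 : Lf 0 T = 0 := by simp [Lf]
    rw [e0] at e
    have g0 : g 0 = 0 := by
      have : g 0 * Lf z T = 0 := by linarith
      rcases mul_eq_zero.1 this with h | h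
      · exact h
      · exact absurd h hz
    rw [g0, zero_smul, zero_add] at hg
    rw [LinearIndependent.pair_iff] at hli
    have := hli _ _ hg
    intro i
    fin_cases i
    · exact g0
    · exact this.1
    · exact this.2
  intro z hz w hw hzw
  rw [hP z hz, hP w hw]
  by_cases h1 : Lf w T = 0
  · by_cases h2 : Lf z T = 0
    · have e1 := hLzz z
      have e2 := hLzz w
      rw [h2] at e1
      rw [h1] at e2
      have f1 := hpA z hz
      have f2 := hpB z hz
      have f3 := hpA w hw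
      have f4 := hpB w hw
      have g1 : Lf z A * Lf z B / Lf z z = lam / 2 := by
        rw [e1]
        field_simp
        ring
      have g2 : Lf w A * Lf w B / Lf w w = lam / 2 := by
        rw [e2]
        field_simp
        ring
      rw [g1, g2]
    · exact (key z hz (hindep z h2)).2 w hw hzw
  · exact (key w hw (hindep w h1)).1 z hz hzw


end JD1

end Pool.Agent.Helper87.Conics
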