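import Pool.Agent.Helper87.ConicsDefs

set_option autoImplicit false

open Filter Topology

namespace Pool.Agent.Helper87.Conics

namespace JD2
/-- A family of horofunctions with the order property for all pairs of ideal points. The first
three hypotheses are lemmas proved elsewhere. -/
theorem disc_family
    (horo_limit : ∀ {C : Set V} {D : V → V → ℝ} (_ : ConePlane C D) (l : Filter ℕ) [l.NeBot]
      {v : ℕ → V} {h : ℕ → V → ℝ} {v₀ : V} {h₀ : V → ℝ}, (∀ᶠ n in l, Horo C D (v n) (h n)) →
      Tendsto v l (𝓝 v₀) → (∀ z ∈ C, Tendsto (fun n => h n z) l (𝓝 (h₀ z))) → Horo C D v₀ h₀)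
    (exists_limit : ∀ {C : Set V} {D : V → V → ℝ} (_ : ConePlane C D) (l : Ultrafilter ℕ)
      {o : V}, o ∈ C → ∀ {h : ℕ → V → ℝ}, (∀ n, h n o = 0) →
      (∀ n, ∀ z ∈ C, ∀ w ∈ C, |h n z - h n w| ≤ D z w) →
      ∃ h₀ : V → ℝ, h₀ o = 0 ∧ ∀ z ∈ C, Tendsto (fun n => h n z) l (𝓝 (h₀ z)))
    (disc_order : ∀ {θ θ' : ℝ}, LinearIndependent ℝ ![nul θ, nul θ'] → ∀ {S : V → ℝ},
      Sep Disc (nul θ) (nul θ') S → DiscOrd θ θ' S)
    {D : V → V → ℝ} (hD : ConePlane Disc D) {H : V → V → ℝ} (hH : HoroFamily Disc D H) :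
    ∃ h : ℝ → V → ℝ, (∀ θ, Horo Disc D (nul θ) (h θ)) ∧
      ∀ θ θ', DiscOrd θ θ' (fun z => h θ z + h θ' z) := by
  classical
  obtain ⟨⟨o, ho, hHo⟩, hHoro, hSep⟩ := hH
  -- null vectors are in the closure
  have hcl : ∀ θ, nul θ ∈ closure Disc := by
    intro θ
    rw [mem_closure_iff_seq_limit]
    refine ⟨fun n : ℕ => nul θ + (1 / ((n : ℝ) + 1)) • (![1, 0, 0] : V), ?_, ?_⟩
    · intro n
      have ht : (0 : ℝ) < 1 / ((n : ℝ) + 1) := by positivity
      have hsc := Real.sin_sq_add_cos_sq θ
      constructor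
      · simp [nul]
        positivity
      · simp [Lf, nul]
        have ht' : (0 : ℝ) < ((n : ℝ) + 1)⁻¹ := by positivity
        nlinarith
    · have h1 : Tendsto (fun n : ℕ => 1 / ((n : ℝ) + 1)) atTop (𝓝 0) :=
        tendsto_one_div_add_atTop_nhds_zero_nat
      have h2 := (tendsto_const_nhds (x := nul θ)).add (h1.smul_const (![1, 0, 0] : V))
      simpa using h2
  have hne : ∀ θ, nul θ ≠ 0 := by
    intro θ h
    have := congrFun h 0
    simp [nul] at this
  let ψ : ℝ → ℕ → ℝ := fun θ n => θ + 1 / ((n : ℝ) + 1)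
  let l : Ultrafilter ℕ := Filter.hyperfilter ℕ
  have hl : (l : Filter ℕ) ≤ cofinite := Filter.hyperfilter_le_cofinite
  have hl' : (l : Filter ℕ) ≤ atTop := by rw [← Nat.cofinite_eq_atTop]; exact hl
  have hψ : ∀ θ, Tendsto (ψ θ) (l : Filter ℕ) (𝓝 θ) := by
    intro θ
    have h1 : Tendsto (fun n : ℕ => 1 / ((n : ℝ) + 1)) atTop (𝓝 0) :=
      tendsto_one_div_add_atTop_nhds_zero_nat
    have h2 := (tendsto_const_nhds (x := θ)).add h1
    rw [add_zero] at h2
    exact h2.mono_left hl'
  have hnulc : Continuous nul := by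
    unfold nul
    refine continuous_pi ?_
    intro i
    fin_cases i
    · simp; exact continuous_const
    · simp; exact Real.continuous_cos
    · simp; exact Real.continuous_sin
  have hpibc : ∀ z, Continuous (fun θ => pib θ z) := by
    intro z
    unfold pib Lf
    have h1 : ∀ i, Continuous (fun θ => nul θ i) := fun i => (continuous_apply i).comp hnulc
    exact ((((continuous_const.mul (h1 0)).sub (continuous_const.mul (h1 1))).sub
      (continuous_const.mul (h1 2))).div_const _)
  have hex : ∀ θ, ∃ h₀ : V → ℝ, h₀ o = 0 ∧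
      ∀ z ∈ Disc, Tendsto (fun n => H (nul (ψ θ n)) z) l (𝓝 (h₀ z)) := by
    intro θ
    exact exists_limit hD l ho (h := fun n => H (nul (ψ θ n))) (fun n => hHo _)
      (fun n => (hHoro _ (hcl _) (hne _)).1)
  choose h h0 hlim using hex
  have hind : ∀ θ b, ∀ᶠ n in (l : Filter ℕ), LinearIndependent ℝ ![nul (ψ θ n), nul b] := by
    intro θ b
    have hfin : {n : ℕ | Real.cos (ψ θ n - b) = 1}.Subsingleton := by
      have key : ∀ n m : ℕ, n < m → Real.cos (ψ θ n - b) = 1 → Real.cos (ψ θ m - b) = 1 → False := by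
        intro n m hnm h1 h2
        rw [Real.cos_eq_one_iff] at h1 h2
        obtain ⟨k1, hk1⟩ := h1
        obtain ⟨k2, hk2⟩ := h2
        have hn : (0 : ℝ) < 1 / ((m : ℝ) + 1) := by positivity
        have hn2 : 1 / ((n : ℝ) + 1) ≤ 1 := by
          rw [div_le_one (by positivity)]
          have : (0 : ℝ) ≤ n := Nat.cast_nonneg n
          linarith
        have hlt : 1 / ((m : ℝ) + 1) < 1 / ((n : ℝ) + 1) := by
          apply one_div_lt_one_div_of_lt (by positivity)
          have : (n : ℝ) < m := by exact_mod_cast hnm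
          linarith
        have hd : ((k1 - k2 : ℤ) : ℝ) * (2 * Real.pi) = 1 / ((n : ℝ) + 1) - 1 / ((m : ℝ) + 1) := by
          push_cast
          rw [sub_mul, hk1, hk2]
          simp only [ψ]
          ring
        have hpi := Real.pi_gt_three
        have hpos : (0 : ℝ) < ((k1 - k2 : ℤ) : ℝ) := by
          by_contra hcon
          push Not at hcon
          have : ((k1 - k2 : ℤ) : ℝ) * (2 * Real.pi) ≤ 0 :=
            mul_nonpos_of_nonpos_of_nonneg hcon (by positivity)
          linarith
        have hge : (1 : ℝ) ≤ ((k1 - k2 : ℤ) : ℝ) := by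
          have : (0 : ℤ) < k1 - k2 := by exact_mod_cast hpos
          exact_mod_cast this
        have : 2 * Real.pi ≤ ((k1 - k2 : ℤ) : ℝ) * (2 * Real.pi) := by
          nlinarith
        linarith
      intro n hn m hm
      rcases lt_trichotomy n m with h | h | h
      · exact (key n m h hn hm).elim
      · exact h
      · exact (key m n h hm hn).elim
    have hev : ∀ᶠ n in (l : Filter ℕ), Real.cos (ψ θ n - b) ≠ 1 := by
      apply hl
      exact hfin.finite.compl_mem_cofinite
    filter_upwards [hev] with n hn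
    rw [LinearIndependent.pair_iff]
    intro s t hst
    have e0 := congrFun hst 0
    have e1 := congrFun hst 1
    have e2 := congrFun hst 2
    simp [nul] at e0 e1 e2
    have hts : t = -s := by linarith
    subst hts
    by_cases hs : s = 0
    · simp [hs]
    · exfalso
      apply hn
      have c1 : Real.cos (ψ θ n) = Real.cos b := by
        have : s * (Real.cos (ψ θ n) - Real.cos b) = 0 := by linarith
        rcases mul_eq_zero.1 this with h | h
        · exact absurd h hs
        · linarith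
      have c2 : Real.sin (ψ θ n) = Real.sin b := by
        have : s * (Real.sin (ψ θ n) - Real.sin b) = 0 := by linarith
        rcases mul_eq_zero.1 this with h | h
        · exact absurd h hs
        · linarith
      rw [Real.cos_sub, c1, c2]
      nlinarith [Real.sin_sq_add_cos_sq b]
  refine ⟨h, ?_, ?_⟩
  · intro θ
    exact horo_limit hD (l : Filter ℕ) (v := fun n => nul (ψ θ n))
      (h := fun n => H (nul (ψ θ n)))
      (Eventually.of_forall fun n => hHoro _ (hcl _) (hne _))
      ((hnulc.tendsto θ).comp (hψ θ)) (hlim θ)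
  · intro θ θ' z hz w hw hlt
    have hlt' : h θ z + h θ' z < h θ w + h θ' w := hlt
    have hm : ∀ᶠ m in (l : Filter ℕ),
        h θ z + H (nul (ψ θ' m)) z < h θ w + H (nul (ψ θ' m)) w :=
      ((tendsto_const_nhds.add (hlim θ' z hz)).eventually_lt
        (tendsto_const_nhds.add (hlim θ' w hw)) hlt')
    have hstep : ∀ᶠ m in (l : Filter ℕ),
        pib θ z * pib (ψ θ' m) z ≤ pib θ w * pib (ψ θ' m) w := by
      filter_upwards [hm] with m hm
      have hn : ∀ᶠ n in (l : Filter ℕ),
          H (nul (ψ θ n)) z + H (nul (ψ θ' m)) z < H (nul (ψ θ n)) w + H (nul (ψ θ' m)) w :=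
        (((hlim θ z hz).add tendsto_const_nhds).eventually_lt
          ((hlim θ w hw).add tendsto_const_nhds) hm)
      have hn2 : ∀ᶠ n in (l : Filter ℕ),
          pib (ψ θ n) z * pib (ψ θ' m) z ≤ pib (ψ θ n) w * pib (ψ θ' m) w := by
        filter_upwards [hn, hind θ (ψ θ' m)] with n h1 h2
        exact disc_order h2 (hSep _ (hcl _) _ (hcl _) h2) z hz w hw h1
      refine le_of_tendsto_of_tendsto (b := (l : Filter ℕ)) ?_ ?_ hn2
      · exact (((hpibc z).tendsto θ).comp (hψ θ)).mul tendsto_const_nhds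
      · exact (((hpibc w).tendsto θ).comp (hψ θ)).mul tendsto_const_nhds
    refine le_of_tendsto_of_tendsto (b := (l : Filter ℕ)) ?_ ?_ hstep
    · exact tendsto_const_nhds.mul (((hpibc z).tendsto θ').comp (hψ θ'))
    · exact tendsto_const_nhds.mul (((hpibc w).tendsto θ').comp (hψ θ'))


end JD2

end Pool.Agent.Helper87.Conics
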