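import Pool.Agent.Helper87.ConicsDefs

set_option autoImplicit false

open Filter Topology

namespace Pool.Agent.Helper87.Conics

namespace JD3
theorem dp_nul_pos {z : V} (hz : z ∈ Disc) (θ : ℝ) : 0 < Lf z (nul θ) := by
  obtain ⟨h0, hL⟩ := hz
  have h1 : (z 1 * Real.cos θ + z 2 * Real.sin θ) ^ 2 < (z 0) ^ 2 := by
    have hcs := Real.sin_sq_add_cos_sq θ
    simp only [Lf] at hL
    nlinarith [sq_nonneg (z 1 * Real.sin θ - z 2 * Real.cos θ)]
  have h2 := abs_lt_of_sq_lt_sq' h1 h0.le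
  simp only [Lf, nul, Matrix.cons_val_zero, Matrix.cons_val_one, Matrix.cons_val]
  linarith [h2.2]

theorem dp_pib_pos {z : V} (hz : z ∈ Disc) (θ : ℝ) : 0 < pib θ z :=
  div_pos (dp_nul_pos hz θ) (Real.sqrt_pos.mpr hz.2)

theorem dp_Lf_ray (z : V) (θ t : ℝ) :
    Lf (z + t • nul θ) (z + t • nul θ) = Lf z z + 2 * t * Lf z (nul θ) := by
  have hcs := Real.sin_sq_add_cos_sq θ
  simp only [Lf, nul, Pi.add_apply, Pi.smul_apply, smul_eq_mul, Matrix.cons_val_zero,
    Matrix.cons_val_one, Matrix.cons_val]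
  linear_combination (-t^2) * hcs

theorem dp_Lf_ray_nul (z : V) (θ t : ℝ) :
    Lf (z + t • nul θ) (nul θ) = Lf z (nul θ) := by
  have hcs := Real.sin_sq_add_cos_sq θ
  simp only [Lf, nul, Pi.add_apply, Pi.smul_apply, smul_eq_mul, Matrix.cons_val_zero,
    Matrix.cons_val_one, Matrix.cons_val]
  linear_combination (-t) * hcs

theorem dp_ray_mem {z : V} (hz : z ∈ Disc) (θ : ℝ) {t : ℝ} (ht : 0 ≤ t) :
    z + t • nul θ ∈ Disc := by
  refine ⟨?_, ?_⟩
  · have h0 := hz.1
    simp only [nul, Pi.add_apply, Pi.smul_apply, smul_eq_mul, Matrix.cons_val_zero]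
    linarith
  · rw [dp_Lf_ray]
    have := dp_nul_pos hz θ
    have := hz.2
    positivity

theorem dp_pib_ray_lt {z : V} (hz : z ∈ Disc) (θ : ℝ) {t : ℝ} (ht : 0 < t) :
    pib θ (z + t • nul θ) < pib θ z := by
  unfold pib
  rw [dp_Lf_ray, dp_Lf_ray_nul]
  have h1 := dp_nul_pos hz θ
  have h2 := hz.2
  apply div_lt_div_of_pos_left h1 (Real.sqrt_pos.mpr h2)
  apply Real.sqrt_lt_sqrt h2.le
  have : 0 < 2 * t * Lf z (nul θ) := by positivity
  linarith

theorem dp_cont {D : V → V → ℝ} (hD : ConePlane Disc D) {v : V} {h : V → ℝ}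
    (h1 : Horo Disc D v h) : ContinuousOn h Disc := by
  intro w hw
  have hc : Tendsto (fun z => D z w) (𝓝[Disc] w) (𝓝 (D w w)) := by
    have h2 : ContinuousWithinAt (fun p : V × V => D p.1 p.2) (Disc ×ˢ Disc) (w, w) :=
      hD.cont (w, w) ⟨hw, hw⟩
    have h3 : Tendsto (fun z : V => ((z, w) : V × V)) (𝓝[Disc] w) (𝓝[Disc ×ˢ Disc] (w, w)) := by
      apply tendsto_nhdsWithin_of_tendsto_nhds_of_eventually_within
      · exact (Continuous.prodMk continuous_id continuous_const).continuousAt.tendsto.mono_left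
          nhdsWithin_le_nhds
      · filter_upwards [self_mem_nhdsWithin] with z hz
        exact ⟨hz, hw⟩
    exact h2.tendsto.comp h3
  rw [hD.self w hw] at hc
  unfold ContinuousWithinAt
  rw [tendsto_iff_dist_tendsto_zero]
  apply squeeze_zero' (g := fun z => D z w)
  · filter_upwards with z using dist_nonneg
  · filter_upwards [self_mem_nhdsWithin] with z hz
    rw [Real.dist_eq]
    exact h1.1 z hz w hw
  · exact hc

/-- key monotonicity -/
theorem dp_key {D : V → V → ℝ} (hD : ConePlane Disc D) {h : ℝ → V → ℝ}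
    (h1 : ∀ θ, Horo Disc D (nul θ) (h θ)) (h2 : ∀ θ θ', DiscOrd θ θ' (fun z => h θ z + h θ' z))
    (θ : ℝ) {z w : V} (hz : z ∈ Disc) (hw : w ∈ Disc) (hzw : pib θ w ≤ pib θ z) :
    h θ w ≤ h θ z := by
  by_contra hcon
  push Not at hcon
  have hcont := dp_cont hD (h1 θ) w hw
  have hray : Tendsto (fun t : ℝ => w + t • nul θ) (𝓝[>] 0) (𝓝[Disc] w) := by
    apply tendsto_nhdsWithin_of_tendsto_nhds_of_eventually_within
    · have : Continuous (fun t : ℝ => w + t • nul θ) := by fun_prop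
      have h3 := this.tendsto 0
      simp only [zero_smul, add_zero] at h3
      exact h3.mono_left nhdsWithin_le_nhds
    · filter_upwards [self_mem_nhdsWithin] with t ht
      exact dp_ray_mem hw θ (le_of_lt ht)
  have h4 : Tendsto (fun t : ℝ => h θ (w + t • nul θ)) (𝓝[>] 0) (𝓝 (h θ w)) :=
    hcont.tendsto.comp hray
  have h5 : ∀ᶠ t in 𝓝[>] (0:ℝ), h θ z < h θ (w + t • nul θ) :=
    h4.eventually (lt_mem_nhds hcon)
  obtain ⟨t, ht1, ht2⟩ := (h5.and self_mem_nhdsWithin).exists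
  have ht2' : 0 < t := ht2
  have h6 := h2 θ θ z hz (w + t • nul θ) (dp_ray_mem hw θ ht2'.le) (by simp only; linarith)
  have h7 := dp_pib_ray_lt hw θ ht2'
  have h8 := dp_pib_pos (dp_ray_mem hw θ ht2'.le) θ
  have h9 := dp_pib_pos hz θ
  nlinarith

/-- explicit curve -/
noncomputable def dpZ (θ a : ℝ) : V :=
  (Real.exp a / 2) • nul (θ + Real.pi) + (Real.exp (-a) / 2) • nul θ

theorem dpZ_Lf (θ a : ℝ) : Lf (dpZ θ a) (dpZ θ a) = 1 := by
  have hcs := Real.sin_sq_add_cos_sq θ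
  have he : Real.exp a * Real.exp (-a) = 1 := by rw [← Real.exp_add]; simp
  simp only [Lf, dpZ, nul, Pi.add_apply, Pi.smul_apply, smul_eq_mul, Matrix.cons_val_zero,
    Matrix.cons_val_one, Matrix.cons_val, Real.cos_add_pi, Real.sin_add_pi]
  generalize Real.exp a = p at *
  generalize Real.exp (-a) = q at *
  linear_combination he + (-(p-q)^2/4) * hcs

theorem dpZ_nul (θ a : ℝ) : Lf (dpZ θ a) (nul θ) = Real.exp a := by
  have hcs := Real.sin_sq_add_cos_sq θ
  simp only [Lf, dpZ, nul, Pi.add_apply, Pi.smul_apply, smul_eq_mul, Matrix.cons_val_zero,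
    Matrix.cons_val_one, Matrix.cons_val, Real.cos_add_pi, Real.sin_add_pi]
  generalize Real.exp a = p at *
  generalize Real.exp (-a) = q at *
  linear_combination ((p-q)/2) * hcs

theorem dpZ_mem (θ a : ℝ) : dpZ θ a ∈ Disc := by
  refine ⟨?_, by rw [dpZ_Lf]; norm_num⟩
  simp only [dpZ, nul, Pi.add_apply, Pi.smul_apply, smul_eq_mul, Matrix.cons_val_zero]
  positivity

theorem dpZ_pib (θ a : ℝ) : pib θ (dpZ θ a) = Real.exp a := by
  unfold pib
  rw [dpZ_Lf, dpZ_nul]; simp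

theorem dpZ_cont (θ : ℝ) : Continuous (dpZ θ) := by
  unfold dpZ
  fun_prop

theorem dp_pair (θ θ' : ℝ) (hne : Real.cos (θ - θ') ≠ 1) (a b : ℝ)
    (hab : Real.log ((1 - Real.cos (θ - θ')) / 2) ≤ a + b) :
    ∃ z ∈ Disc, pib θ z = Real.exp a ∧ pib θ' z = Real.exp b := by
  have hlam : 0 < 1 - Real.cos (θ - θ') := by
    have := Real.cos_le_one (θ - θ')
    have := lt_of_le_of_ne this hne
    linarith
  obtain ⟨lam, hlamdef⟩ : ∃ lam, lam = 1 - Real.cos (θ - θ') := ⟨_, rfl⟩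
  rw [← hlamdef] at hlam hab
  have hexp : lam / 2 ≤ Real.exp a * Real.exp b := by
    rw [← Real.exp_add]
    rw [Real.log_le_iff_le_exp (by positivity)] at hab
    exact hab
  have hg : 0 ≤ 2 * (Real.exp a * Real.exp b) / lam - 1 := by
    rw [sub_nonneg, le_div_iff₀ hlam]
    linarith
  obtain ⟨g, hgdef⟩ : ∃ g, g = √(2 * (Real.exp a * Real.exp b) / lam - 1) := ⟨_, rfl⟩
  have hg2 : g ^ 2 = 2 * (Real.exp a * Real.exp b) / lam - 1 := by
    rw [hgdef, Real.sq_sqrt hg]
  have hcs := Real.sin_sq_add_cos_sq θ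
  have hcs' := Real.sin_sq_add_cos_sq θ'
  rw [Real.cos_sub] at hlamdef
  have hl : lam * lam⁻¹ = 1 := mul_inv_cancel₀ hlam.ne'
  have hea := Real.exp_pos a
  have heb := Real.exp_pos b
  set c := Real.cos θ with hc
  set s := Real.sin θ with hs
  set c' := Real.cos θ' with hc'
  set s' := Real.sin θ' with hs'
  obtain ⟨T, hT⟩ : ∃ T : V, T = ![(s' * c - c' * s) / lam, (s' - s) / lam, (c - c') / lam] :=
    ⟨_, rfl⟩
  obtain ⟨z, hz⟩ : ∃ z : V, z = (Real.exp b / lam) • nul θ + (Real.exp a / lam) • nul θ' + g • T :=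
    ⟨_, rfl⟩
  have hzz : Lf z z = 1 := by
    rw [hz, hT]
    simp only [Lf, nul, Pi.add_apply, Pi.smul_apply, smul_eq_mul, Matrix.cons_val_zero,
      Matrix.cons_val_one, Matrix.cons_val]
    rw [← hc, ← hs, ← hc', ← hs']
    generalize Real.exp a = p at *
    generalize Real.exp b = q at *
    linear_combination (-2*q*p*lam⁻¹^2 + g^2*lam⁻¹^2*(lam+(1-(c*c'+s*s')))) * hlamdef +
      (2*q*p*lam⁻¹ - g^2*(lam⁻¹*lam+1)) * hl + (-(q^2*lam⁻¹^2) + g^2*lam⁻¹^2*(s'^2+c'^2-1)) * hcs +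
      (-(p^2*lam⁻¹^2)) * hcs' - hg2
  have hzA : Lf z (nul θ) = Real.exp a := by
    rw [hz, hT]
    simp only [Lf, nul, Pi.add_apply, Pi.smul_apply, smul_eq_mul, Matrix.cons_val_zero,
      Matrix.cons_val_one, Matrix.cons_val]
    rw [← hc, ← hs, ← hc', ← hs']
    generalize Real.exp a = p at *
    generalize Real.exp b = q at *
    linear_combination (-lam⁻¹*q) * hcs + (-lam⁻¹*p) * hlamdef + p * hl
  have hzB : Lf z (nul θ') = Real.exp b := by
    rw [hz, hT]
    simp only [Lf, nul, Pi.add_apply, Pi.smul_apply, smul_eq_mul, Matrix.cons_val_zero,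
      Matrix.cons_val_one, Matrix.cons_val]
    rw [← hc, ← hs, ← hc', ← hs']
    generalize Real.exp a = p at *
    generalize Real.exp b = q at *
    linear_combination (-lam⁻¹*p) * hcs' + (-lam⁻¹*q) * hlamdef + q * hl
  refine ⟨z, ⟨?_, by rw [hzz]; norm_num⟩, ?_, ?_⟩
  · by_contra hneg
    push Not at hneg
    have hz0 : z 0 ≠ 0 := by
      intro h0
      have : Lf z z ≤ 0 := by
        simp only [Lf, h0]
        nlinarith [sq_nonneg (z 1), sq_nonneg (z 2)]
      linarith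
    have hz0' : z 0 < 0 := lt_of_le_of_ne hneg hz0
    have hmem : -z ∈ Disc := by
      refine ⟨by simpa using hz0', ?_⟩
      have : Lf (-z) (-z) = Lf z z := by simp [Lf]
      rw [this, hzz]; norm_num
    have h1 := dp_nul_pos hmem θ
    have h2 : Lf (-z) (nul θ) = - Lf z (nul θ) := by simp only [Lf, Pi.neg_apply]; ring
    rw [h2, hzA] at h1
    linarith
  · unfold pib; rw [hzz, hzA]; simp
  · unfold pib; rw [hzz, hzB]; simp

theorem dp_line {F G : ℝ → ℝ} (hG : Continuous G) {l : ℝ}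
    (hord : ∀ a b a' b', l ≤ a + b → l ≤ a' + b' → F a + G b < F a' + G b' → a + b ≤ a' + b')
    {a b a' b' : ℝ} (hab : l < a + b) (heq : a + b = a' + b') : F a + G b ≤ F a' + G b' := by
  by_contra hcon
  push Not at hcon
  -- F a' + G b' < F a + G b, decrease b
  have h1 : Tendsto (fun ε : ℝ => F a + G (b - ε)) (𝓝[>] 0) (𝓝 (F a + G b)) := by
    have hc : Continuous (fun ε : ℝ => F a + G (b - ε)) := by fun_prop
    have h3 := hc.tendsto 0
    simp only [sub_zero] at h3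
    exact h3.mono_left nhdsWithin_le_nhds
  have h2 : ∀ᶠ ε in 𝓝[>] (0:ℝ), F a' + G b' < F a + G (b - ε) :=
    h1.eventually (lt_mem_nhds hcon)
  have h3 : ∀ᶠ ε in 𝓝[>] (0:ℝ), ε < a + b - l :=
    nhdsWithin_le_nhds (Iio_mem_nhds (by linarith))
  obtain ⟨ε, he1, he2, he3⟩ := (h2.and (h3.and self_mem_nhdsWithin)).exists
  have he3' : 0 < ε := he3
  have := hord a' b' a (b - ε) (by linarith) (by linarith) he1
  linarith

theorem dp_affine {F G : ℝ → ℝ} (hF : Continuous F) (hG : Continuous G) {l : ℝ}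
    (hord : ∀ a b a' b', l ≤ a + b → l ≤ a' + b' → F a + G b < F a' + G b' → a + b ≤ a' + b') :
    (∀ a, F a = (F 1 - F 0) * a + F 0) ∧ (G 1 - G 0 = F 1 - F 0) := by
  have heq : ∀ a b e, l < a + b + e → F (a + e) - F a = G (b + e) - G b := by
    intro a b e h
    have h1 := dp_line hG hord (a := a + e) (b := b) (a' := a) (b' := b + e) (by linarith) (by ring)
    have h2 := dp_line hG hord (a := a) (b := b + e) (a' := a + e) (b' := b) (by linarith) (by ring)
    linarith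
  have hF2 : ∀ a a' e, F (a + e) - F a = F (a' + e) - F a' := by
    intro a a' e
    have h1 := heq a (|a| + |a'| + |e| + |l| + 1) e (by
      linarith [neg_abs_le a, neg_abs_le a', neg_abs_le e, le_abs_self l, abs_nonneg a', abs_nonneg a])
    have h2 := heq a' (|a| + |a'| + |e| + |l| + 1) e (by
      linarith [neg_abs_le a, neg_abs_le a', neg_abs_le e, le_abs_self l, abs_nonneg a', abs_nonneg a])
    linarith
  let f : ℝ →+ ℝ :=
    { toFun := fun x => F x - F 0
      map_zero' := by simp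
      map_add' := fun x y => by
        have := hF2 x 0 y
        simp only [zero_add] at this
        linarith }
  have hf : Continuous f := by
    change Continuous (fun x => F x - F 0)
    fun_prop
  refine ⟨?_, ?_⟩
  · intro a
    have h1 := map_real_smul f hf a 1
    have h2 : F (a • (1:ℝ)) - F 0 = a • (F 1 - F 0) := h1
    simp only [smul_eq_mul, mul_one] at h2
    linarith
  · have h1 := heq (|l| + 1) 0 1 (by linarith [le_abs_self l])
    have h2 := hF2 (|l| + 1) 0 1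
    simp only [zero_add] at h1 h2
    linarith

/-- All horofunctions are multiples of the hyperbolic Busemann functions, up to constants. -/
theorem disc_pexider {D : V → V → ℝ} (hD : ConePlane Disc D) {h : ℝ → V → ℝ}
    (h1 : ∀ θ, Horo Disc D (nul θ) (h θ)) (h2 : ∀ θ θ', DiscOrd θ θ' (fun z => h θ z + h θ' z)) :
    ∃ κ : ℝ, 0 < κ ∧ ∀ θ, ∃ k : ℝ, ∀ z ∈ Disc, h θ z = κ * Real.log (pib θ z) + k := by
  -- the functions F θ
  obtain ⟨F, hFdef⟩ : ∃ F : ℝ → ℝ → ℝ, ∀ θ a, F θ a = h θ (dpZ θ a) := ⟨fun θ a => h θ (dpZ θ a), fun _ _ => rfl⟩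
  have hFc : ∀ θ, Continuous (F θ) := by
    intro θ
    have : F θ = fun a => h θ (dpZ θ a) := funext (hFdef θ)
    rw [this]
    exact (dp_cont hD (h1 θ)).comp_continuous (dpZ_cont θ) (dpZ_mem θ)
  have hFh : ∀ θ, ∀ z ∈ Disc, h θ z = F θ (Real.log (pib θ z)) := by
    intro θ z hz
    rw [hFdef]
    have hp : pib θ (dpZ θ (Real.log (pib θ z))) = pib θ z := by
      rw [dpZ_pib, Real.exp_log (dp_pib_pos hz θ)]
    exact le_antisymm (dp_key hD h1 h2 θ (dpZ_mem _ _) hz hp.ge) (dp_key hD h1 h2 θ hz (dpZ_mem _ _) hp.le)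
  have hmain : ∀ θ θ', Real.cos (θ - θ') ≠ 1 →
      (∀ a, F θ a = (F θ 1 - F θ 0) * a + F θ 0) ∧ (F θ' 1 - F θ' 0 = F θ 1 - F θ 0) := by
    intro θ θ' hne
    apply dp_affine (hFc θ) (hFc θ') (l := Real.log ((1 - Real.cos (θ - θ')) / 2))
    intro a b a' b' hab hab' hlt
    obtain ⟨z, hz, hz1, hz2⟩ := dp_pair θ θ' hne a b hab
    obtain ⟨w, hw, hw1, hw2⟩ := dp_pair θ θ' hne a' b' hab'
    have h3 := h2 θ θ' z hz w hw (by
      simp only
      rw [hFh θ z hz, hFh θ' z hz, hFh θ w hw, hFh θ' w hw, hz1, hz2, hw1, hw2]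
      simpa only [Real.log_exp] using hlt)
    rw [hz1, hz2, hw1, hw2, ← Real.exp_add, ← Real.exp_add, Real.exp_le_exp] at h3
    exact h3
  have haff : ∀ θ a, F θ a = (F θ 1 - F θ 0) * a + F θ 0 := by
    intro θ
    refine (hmain θ (θ + Real.pi) ?_).1
    have : θ - (θ + Real.pi) = -Real.pi := by ring
    rw [this, Real.cos_neg, Real.cos_pi]; norm_num
  have hπ : F Real.pi 1 - F Real.pi 0 = F 0 1 - F 0 0 := by
    refine (hmain 0 Real.pi ?_).2
    rw [zero_sub, Real.cos_neg, Real.cos_pi]; norm_num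
  have hkap : ∀ θ, F θ 1 - F θ 0 = F 0 1 - F 0 0 := by
    intro θ
    by_cases hc : Real.cos θ = 1
    · rw [← hπ]
      refine (hmain Real.pi θ ?_).2
      have : Real.pi - θ = -(θ - Real.pi) := by ring
      rw [this, Real.cos_neg, Real.cos_sub_pi, hc]; norm_num
    · refine (hmain 0 θ ?_).2
      rw [zero_sub, Real.cos_neg]; exact hc
  refine ⟨F 0 1 - F 0 0, ?_, fun θ => ⟨F θ 0, fun z hz => ?_⟩⟩
  · have hz := dpZ_mem 0 0
    have hw := dp_ray_mem hz 0 (t := 1) (by norm_num)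
    have h3 := (h1 0).2 (dpZ 0 0) hz 1 1 one_pos one_pos (by simpa using hw)
    have h4 : (1:ℝ) • dpZ 0 0 + (1:ℝ) • nul 0 = dpZ 0 0 + (1:ℝ) • nul 0 := by rw [one_smul]
    rw [h4] at h3
    have h5 : 0 < D (dpZ 0 0) (dpZ 0 0 + (1:ℝ) • nul 0) := by
      apply hD.pos _ hz _ hw
      rw [LinearIndependent.pair_iff]
      intro s t hst
      have e1 : Lf (s • dpZ 0 0 + t • (dpZ 0 0 + (1:ℝ) • nul 0)) (nul 0) = (s + t) * Lf (dpZ 0 0) (nul 0) := by
        simp only [Lf, nul, Pi.add_apply, Pi.smul_apply, smul_eq_mul, Matrix.cons_val_zero,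
          Matrix.cons_val_one, Matrix.cons_val, Real.cos_zero, Real.sin_zero]
        ring
      rw [hst, dpZ_nul, Real.exp_zero, mul_one] at e1
      have e2 : s + t = 0 := by
        rw [← e1]; simp [Lf]
      have e3 : s • dpZ 0 0 + t • (dpZ 0 0 + (1:ℝ) • nul 0) = (s + t) • dpZ 0 0 + t • nul 0 := by
        module
      rw [hst, e2, zero_smul, zero_add] at e3
      have e4 := congrFun e3 0
      simp only [nul, Pi.smul_apply, Pi.zero_apply, smul_eq_mul, Matrix.cons_val_zero, mul_one] at e4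
      exact ⟨by linarith, e4.symm⟩
    rw [← h3, hFh 0 _ hz, hFh 0 _ hw, haff 0 (Real.log (pib 0 (dpZ 0 0))),
      haff 0 (Real.log (pib 0 (dpZ 0 0 + (1:ℝ) • nul 0)))] at h5
    have h6 := Real.log_lt_log (dp_pib_pos hw 0) (dp_pib_ray_lt hz 0 one_pos)
    by_contra hneg
    push Not at hneg
    nlinarith
  · rw [hFh θ z hz, haff θ, hkap θ]


end JD3

end Pool.Agent.Helper87.Conics
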