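import Pool.Agent.Helper87.ConicsDefs

set_option autoImplicit false

open Filter Topology

namespace Pool.Agent.Helper87.Conics

namespace JD4
/-- The metric is hyperbolic. -/
theorem disc_final {D : V → V → ℝ} (hD : ConePlane Disc D) {h : ℝ → V → ℝ}
    (h1 : ∀ θ, Horo Disc D (nul θ) (h θ)) {κ : ℝ} (hκ : 0 < κ)
    (h2 : ∀ θ, ∃ k : ℝ, ∀ z ∈ Disc, h θ z = κ * Real.log (pib θ z) + k) :
    ∀ z ∈ Disc, ∀ w ∈ Disc, Real.cosh (D z w / κ) = Lf z w / (√(Lf z z) * √(Lf w w)) := by
  intro z hz w hw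
  obtain ⟨hz0, hZ⟩ := hz
  obtain ⟨hw0, hW⟩ := hw
  have hzD : z ∈ Disc := ⟨hz0, hZ⟩
  have hwD : w ∈ Disc := ⟨hw0, hW⟩
  by_cases hdep : w = (w 0 / z 0) • z
  · set s := w 0 / z 0 with hs
    have hs0 : 0 < s := div_pos hw0 hz0
    have hD0 : D z w = 0 := by
      rw [hD.symm z hzD w hwD, hdep, hD.smul z hzD z hzD s hs0, hD.self z hzD]
    have hP : Lf z w = s * Lf z z := by
      rw [hdep]
      simp only [Lf, Pi.smul_apply, smul_eq_mul]
      ring
    have hWW : Lf w w = s ^ 2 * Lf z z := by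
      rw [hdep]
      simp only [Lf, Pi.smul_apply, smul_eq_mul]
      ring
    rw [hD0, zero_div, Real.cosh_zero, hP, hWW, Real.sqrt_mul (by positivity),
      Real.sqrt_sq hs0.le]
    have h3 : √(Lf z z) * √(Lf z z) = Lf z z := Real.mul_self_sqrt hZ.le
    have h4 : 0 < √(Lf z z) := Real.sqrt_pos.mpr hZ
    rw [eq_div_iff (by positivity)]
    calc 1 * (√(Lf z z) * (s * √(Lf z z))) = s * (√(Lf z z) * √(Lf z z)) := by ring
      _ = _ := by rw [h3]
  · set s := w 0 / z 0 with hs
    have hs0 : 0 < s := div_pos hw0 hz0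
    have hsz : s * z 0 = w 0 := div_mul_cancel₀ _ hz0.ne'
    have hzero : ∃ t ∈ Set.Ioo 0 s, Lf z z * t ^ 2 - 2 * Lf z w * t + Lf w w = 0 := by
      have hq0 : 0 < Lf z z * (0 : ℝ) ^ 2 - 2 * Lf z w * 0 + Lf w w := by simpa using hW
      have hqs : Lf z z * s ^ 2 - 2 * Lf z w * s + Lf w w < 0 := by
        have e : Lf z z * s ^ 2 - 2 * Lf z w * s + Lf w w =
            (w 0 - s * z 0) ^ 2 - (w 1 - s * z 1) ^ 2 - (w 2 - s * z 2) ^ 2 := by
          simp only [Lf]; ring
        rw [e, hsz, sub_self]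
        have hne : w 1 - s * z 1 ≠ 0 ∨ w 2 - s * z 2 ≠ 0 := by
          by_contra hcon
          push Not at hcon
          apply hdep
          funext i
          fin_cases i
          · simp [hsz]
          · simp only [Pi.smul_apply, smul_eq_mul]
            have := hcon.1
            show w 1 = s * z 1
            linarith
          · simp only [Pi.smul_apply, smul_eq_mul]
            have := hcon.2
            show w 2 = s * z 2
            linarith
        rcases hne with h | h
        · have h1 : 0 < (w 1 - s * z 1) ^ 2 := by positivity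
          have h2 : 0 ≤ (w 2 - s * z 2) ^ 2 := by positivity
          nlinarith
        · have h1 : 0 ≤ (w 1 - s * z 1) ^ 2 := by positivity
          have h2 : 0 < (w 2 - s * z 2) ^ 2 := by positivity
          nlinarith
      have hc : ContinuousOn (fun t : ℝ => Lf z z * t ^ 2 - 2 * Lf z w * t + Lf w w)
          (Set.Icc 0 s) := by fun_prop
      have := intermediate_value_Ioo' hs0.le hc
      obtain ⟨t, ht, hqt⟩ := this ⟨hqs, hq0⟩
      exact ⟨t, ht, hqt⟩
    obtain ⟨a, ⟨ha0, has⟩, hqa⟩ := hzero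
    set b := w 0 - a * z 0 with hb
    have hb0 : 0 < b := by
      have : a * z 0 < s * z 0 := mul_lt_mul_of_pos_right has hz0
      linarith
    have hnull : (w 1 - a * z 1) ^ 2 + (w 2 - a * z 2) ^ 2 = b ^ 2 := by
      simp only [Lf] at hqa
      rw [hb]
      linear_combination -hqa
    obtain ⟨θ, hc, hs'⟩ : ∃ θ : ℝ, b * Real.cos θ = w 1 - a * z 1 ∧ b * Real.sin θ = w 2 - a * z 2 := by
      set ζ : ℂ := ⟨w 1 - a * z 1, w 2 - a * z 2⟩ with hζ
      have hn : ‖ζ‖ = b := by
        have h1 : ‖ζ‖ ^ 2 = b ^ 2 := by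
          rw [← Complex.normSq_eq_norm_sq, Complex.normSq_apply, ← hnull]
          ring
        exact (pow_left_inj₀ (norm_nonneg _) hb0.le two_ne_zero).mp h1
      have hne : ζ ≠ 0 := by
        rw [← norm_pos_iff, hn]; exact hb0
      refine ⟨Complex.arg ζ, ?_, ?_⟩
      · rw [Complex.cos_arg hne, hn, mul_div_cancel₀ _ hb0.ne']
      · rw [Complex.sin_arg, hn, mul_div_cancel₀ _ hb0.ne']
    have hwdec : w = a • z + b • nul θ := by
      funext i
      fin_cases i
      · simp [nul, hb]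
      · simp [nul, hc]
      · simp [nul, hs']
    set p := Lf z (nul θ) with hp
    have hp' : p = z 0 - z 1 * Real.cos θ - z 2 * Real.sin θ := by
      rw [hp]; simp [Lf, nul]
    have hcs := Real.cos_sq_add_sin_sq θ
    have hppos : 0 < p := by
      rw [hp']
      have hZ' : 0 < z 0 * z 0 - z 1 * z 1 - z 2 * z 2 := hZ
      have h1 : (z 1 * Real.cos θ + z 2 * Real.sin θ) ^ 2 ≤ z 1 ^ 2 + z 2 ^ 2 := by
        have h2 : z 1 ^ 2 + z 2 ^ 2 - (z 1 * Real.cos θ + z 2 * Real.sin θ) ^ 2 =
            (z 1 * Real.sin θ - z 2 * Real.cos θ) ^ 2 +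
            (z 1 ^ 2 + z 2 ^ 2) * (1 - (Real.cos θ ^ 2 + Real.sin θ ^ 2)) := by ring
        rw [hcs] at h2
        nlinarith [sq_nonneg (z 1 * Real.sin θ - z 2 * Real.cos θ)]
      have h3 : (z 1 * Real.cos θ + z 2 * Real.sin θ) ^ 2 < z 0 ^ 2 := by nlinarith
      have h4 := abs_lt_of_sq_lt_sq h3 hz0.le
      have h5 := le_abs_self (z 1 * Real.cos θ + z 2 * Real.sin θ)
      rw [abs_lt] at h4
      linarith [h4.2]
    have hWf : Lf w w = a ^ 2 * Lf z z + 2 * a * b * p := by
      rw [hp']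
      conv_lhs => rw [hwdec]
      simp only [Lf, nul, Pi.add_apply, Pi.smul_apply, smul_eq_mul, Matrix.cons_val_zero,
        Matrix.cons_val_one, Matrix.cons_val]
      linear_combination -(b ^ 2) * hcs
    have hPf : Lf z w = a * Lf z z + b * p := by
      rw [hp']
      conv_lhs => rw [hwdec]
      simp only [Lf, nul, Pi.add_apply, Pi.smul_apply, smul_eq_mul, Matrix.cons_val_zero,
        Matrix.cons_val_one, Matrix.cons_val]
      ring
    have hNf : Lf w (nul θ) = a * p := by
      rw [hp']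
      conv_lhs => rw [hwdec]
      simp only [Lf, nul, Pi.add_apply, Pi.smul_apply, smul_eq_mul, Matrix.cons_val_zero,
        Matrix.cons_val_one, Matrix.cons_val]
      linear_combination -b * hcs
    have hsZ : 0 < √(Lf z z) := Real.sqrt_pos.mpr hZ
    have hsW : 0 < √(Lf w w) := Real.sqrt_pos.mpr hW
    have hpz : pib θ z = p / √(Lf z z) := rfl
    have hpw : pib θ w = a * p / √(Lf w w) := by unfold pib; rw [hNf]
    have hDf : D z w = κ * Real.log (√(Lf w w) / (a * √(Lf z z))) := by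
      obtain ⟨k, hk⟩ := h2 θ
      have h3 := (h1 θ).2 z hzD a b ha0 hb0 (by rw [← hwdec]; exact hwD)
      rw [← hwdec] at h3
      rw [← h3, hk z hzD, hk w hwD, hpz, hpw]
      have h4 : Real.log (p / √(Lf z z)) - Real.log (a * p / √(Lf w w)) =
          Real.log (√(Lf w w) / (a * √(Lf z z))) := by
        rw [← Real.log_div (by positivity) (by positivity)]
        congr 1
        field_simp
      rw [← h4]
      ring
    rw [hDf, mul_div_cancel_left₀ _ hκ.ne', Real.cosh_log (by positivity)]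
    have e1 : √(Lf z z) ^ 2 = Lf z z := Real.sq_sqrt hZ.le
    have e2 : √(Lf w w) ^ 2 = Lf w w := Real.sq_sqrt hW.le
    have e3 : √(Lf w w) / (a * √(Lf z z)) + (√(Lf w w) / (a * √(Lf z z)))⁻¹ =
        (√(Lf w w) ^ 2 + a ^ 2 * √(Lf z z) ^ 2) / (a * √(Lf z z) * √(Lf w w)) := by
      field_simp
    rw [e3, e1, e2]
    rw [div_div, div_eq_div_iff (by positivity) (by positivity)]
    rw [hPf]
    have h5 : Lf w w + a ^ 2 * Lf z z = 2 * a * (a * Lf z z + b * p) := by rw [hWf]; ring
    rw [h5]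
    ring


end JD4

end Pool.Agent.Helper87.Conics
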