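import Mathlib

set_option autoImplicit false

open Filter Topology

namespace Pool.Agent.Helper87.Conics

abbrev V := Fin 3 → ℝ

/-- Value at `v` of the quadratic form with coefficients `c`. -/
def Qf (c : Fin 6 → ℝ) (v : V) : ℝ :=
  c 0 * v 0 ^ 2 + c 1 * v 1 ^ 2 + c 2 * v 2 ^ 2 + c 3 * (v 0 * v 1) + c 4 * (v 0 * v 2) +
    c 5 * (v 1 * v 2)

/-- A projective-metric plane of straight type in homogeneous coordinates: the points are the
vectors of an open convex cone `C`, up to positive factors. -/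
structure ConePlane (C : Set V) (D : V → V → ℝ) : Prop where
  isOpen : IsOpen C
  nonempty : C.Nonempty
  chart : ∃ f : V →ₗ[ℝ] ℝ, ∀ v ∈ C, 0 < f v
  add_mem : ∀ v ∈ C, ∀ w ∈ C, v + w ∈ C
  smul_mem : ∀ v ∈ C, ∀ s : ℝ, 0 < s → s • v ∈ C
  smul : ∀ v ∈ C, ∀ w ∈ C, ∀ s : ℝ, 0 < s → D (s • v) w = D v w
  symm : ∀ v ∈ C, ∀ w ∈ C, D v w = D w v
  self : ∀ v ∈ C, D v v = 0
  pos : ∀ v ∈ C, ∀ w ∈ C, LinearIndependent ℝ ![v, w] → 0 < D v w
  triangle : ∀ u ∈ C, ∀ v ∈ C, ∀ w ∈ C, D u w ≤ D u v + D v w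
  cont : ContinuousOn (fun p : V × V => D p.1 p.2) (C ×ˢ C)
  add : ∀ v ∈ C, ∀ w ∈ C, ∀ a b : ℝ, 0 < a → 0 < b →
    D v (a • v + b • w) + D (a • v + b • w) w = D v w
  strict : ∀ u ∈ C, ∀ v ∈ C, ∀ w ∈ C, LinearIndependent ℝ ![u, v, w] → D u w < D u v + D v w
  unbounded : ∀ v ∈ C, ∀ w ∈ C, LinearIndependent ℝ ![v, w] → ∀ R : ℝ,
    ∃ t : ℝ, 0 < t ∧ w - t • v ∈ C ∧ R < D v (w - t • v)

/-- Every ellipse is contained in a conic. -/
def EllConics (C : Set V) (D : V → V → ℝ) : Prop :=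
  ∀ f ∈ C, ∀ g ∈ C, LinearIndependent ℝ ![f, g] → ∀ a : ℝ, D f g < 2 * a →
    ∃ c : Fin 6 → ℝ, c ≠ 0 ∧ ∀ z ∈ C, D f z + D z g = 2 * a → Qf c z = 0

/-- Ellipses bound conic regions: conclusion of the first lemma. -/
def EllSep (C : Set V) (D : V → V → ℝ) : Prop :=
  ∀ f ∈ C, ∀ g ∈ C, LinearIndependent ℝ ![f, g] → ∀ a : ℝ, D f g < 2 * a →
    ∃ c : Fin 6 → ℝ, ‖c‖ = 1 ∧
      (∀ z ∈ C, D f z + D z g = 2 * a → Qf c z = 0) ∧
      (∀ z ∈ C, D f z + D z g < 2 * a → Qf c z < 0) ∧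
      (∀ z ∈ C, 2 * a < D f z + D z g → 0 < Qf c z) ∧
      (∀ x, x ≠ 0 → x ∉ C → -x ∉ C → 0 < Qf c x)

/-- Generalised horofunctions with centre `v` (a point of the plane or an ideal point). -/
def Horo (C : Set V) (D : V → V → ℝ) (v : V) (h : V → ℝ) : Prop :=
  (∀ z ∈ C, ∀ w ∈ C, |h z - h w| ≤ D z w) ∧
  ∀ z ∈ C, ∀ a b : ℝ, 0 < a → 0 < b → a • z + b • v ∈ C →
    h z - h (a • z + b • v) = D z (a • z + b • v)

/-- The sublevel sets of `S` are separated by conics adapted to `v`, `w`. -/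
def Sep (C : Set V) (v w : V) (S : V → ℝ) : Prop :=
  ∀ z₀ ∈ C, LinearIndependent ℝ ![z₀, v, w] → ∃ c : Fin 6 → ℝ, ‖c‖ = 1 ∧ Qf c z₀ = 0 ∧
    (∀ z ∈ C, S z < S z₀ → Qf c z ≤ 0) ∧ (∀ z ∈ C, S z₀ < S z → 0 ≤ Qf c z) ∧
    (∀ x, x ∉ C → -x ∉ C → 0 ≤ Qf c x) ∧ Qf c v ≤ 0 ∧ Qf c w ≤ 0

/-- A family of horofunctions, one for every point of the closed cone. -/
def HoroFamily (C : Set V) (D : V → V → ℝ) (H : V → V → ℝ) : Prop :=
  (∃ o ∈ C, ∀ v, H v o = 0) ∧ (∀ v ∈ closure C, v ≠ 0 → Horo C D v (H v)) ∧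
  ∀ v ∈ closure C, ∀ w ∈ closure C, LinearIndependent ℝ ![v, w] →
    Sep C v w (fun z => H v z + H w z)

/-- The Lorentz form. -/
def Lf (v w : V) : ℝ := v 0 * w 0 - v 1 * w 1 - v 2 * w 2

/-- The open light cone. -/
def Disc : Set V := {v | 0 < v 0 ∧ 0 < Lf v v}

/-- The cone over a strip. -/
def Strip : Set V := {v | |v 1| < v 0}

/-- The cone over an affine plane. -/
def Plane : Set V := {v | 0 < v 0}

/-- Null vectors, the ideal points of the disc. -/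
noncomputable def nul (θ : ℝ) : V := ![1, Real.cos θ, Real.sin θ]

/-- Exponential of the hyperbolic Busemann function with centre `nul θ`. -/
noncomputable def pib (θ : ℝ) (z : V) : ℝ := Lf z (nul θ) / √(Lf z z)

/-- Directions, the ideal points of the plane. -/
noncomputable def dir (θ : ℝ) : V := ![0, Real.cos θ, Real.sin θ]

/-- `pib θ * pib θ'` is compatible with the order given by `h + h'`. -/
def DiscOrd (θ θ' : ℝ) (S : V → ℝ) : Prop :=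
  ∀ z ∈ Disc, ∀ w ∈ Disc, S z < S w → pib θ z * pib θ' z ≤ pib θ w * pib θ' w

end Pool.Agent.Helper87.Conics
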