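import Pool.Agent.Helper87.ThalesEllK4

set_option autoImplicit false

open Real Filter Topology

namespace Pool.Agent.Helper87.Elliptic

/-- Value at `v` of the quadratic form with coefficients `c`. -/
def Qe (c : Fin 6 → ℝ) (v : E3) : ℝ :=
  c 0 * v 0 ^ 2 + c 1 * v 1 ^ 2 + c 2 * v 2 ^ 2 + c 3 * (v 0 * v 1) + c 4 * (v 0 * v 2) +
    c 5 * (v 1 * v 2)

end Pool.Agent.Helper87.Elliptic
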