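import Pool.Agent.Helper87.ConicsDefs

set_option autoImplicit false

open Filter Topology

namespace Pool.Agent.Helper87.Conics

namespace JF
private theorem f_aux_zero {u α : ℝ} (h : ∀ r : ℝ, 0 ≤ r * u + α * r ^ 2) : u = 0 := by
  by_contra hu
  obtain ⟨M, hM⟩ : ∃ M : ℝ, M = |α| + 1 := ⟨_, rfl⟩
  have hM0 : 0 < M := by rw [hM]; positivity
  have hα : α ≤ M := by rw [hM]; linarith [le_abs_self α]
  have h1 := h (-u / (2 * M))
  have h2 : -u / (2 * M) * u + α * (-u / (2 * M)) ^ 2 = u ^ 2 / (4 * M ^ 2) * (α - 2 * M) := by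
    field_simp
    ring
  rw [h2] at h1
  have h3 : 0 < u ^ 2 / (4 * M ^ 2) := by positivity
  have h4 := mul_neg_of_pos_of_neg h3 (show α - 2 * M < 0 by linarith)
  linarith

private theorem f_aux_quad {α γ β s t : ℝ} (h : ∀ a b : ℝ, 0 ≤ α * a ^ 2 + γ * b ^ 2 + β * (a * b))
    (h0 : α * s ^ 2 + γ * t ^ 2 + β * (s * t) ≤ 0) :
    2 * α * s + β * t = 0 ∧ 2 * γ * t + β * s = 0 := by
  constructor
  · apply f_aux_zero (α := α)
    intro r
    have := h (s + r) t
    nlinarith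
  · apply f_aux_zero (α := γ)
    intro r
    have := h s (t + r)
    nlinarith

/-- normalised order function -/
private noncomputable def fG (s t : ℝ) (z : V) : ℝ := 2 * s * z 2 - t * (z 0 + z 1)

private noncomputable def fP (z : V) : ℝ := (z 0 - z 1) * (z 0 + z 1)

private noncomputable def fρ (s t : ℝ) (z : V) : ℝ := fG s t z ^ 2 / fP z

private theorem f_P_pos {z : V} (hz : z ∈ Strip) : 0 < fP z := by
  have h := abs_lt.1 (show |z 1| < z 0 from hz)
  exact mul_pos (by linarith) (by linarith)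

private theorem f_core {s t : ℝ} (hs : 0 < s) {S : V → ℝ}
    (hS : Sep Strip ![1, -1, 0] ![s, s, t] S) {z₀ : V} (hz₀ : z₀ ∈ Strip) (hg : fG s t z₀ ≠ 0) :
    (∀ z ∈ Strip, S z < S z₀ → fρ s t z ≤ fρ s t z₀) ∧
    (∀ z ∈ Strip, S z₀ < S z → fρ s t z₀ ≤ fρ s t z) := by
  have hLI : LinearIndependent ℝ ![z₀, ![1, -1, 0], ![s, s, t]] := by
    rw [Fintype.linearIndependent_iff]
    intro g hg'
    rw [Fin.sum_univ_three] at hg'
    have h0 : g 0 * z₀ 0 + g 1 * 1 + g 2 * s = 0 := congrFun hg' 0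
    have h1 : g 0 * z₀ 1 + g 1 * (-1) + g 2 * s = 0 := congrFun hg' 1
    have h2 : g 0 * z₀ 2 + g 1 * 0 + g 2 * t = 0 := congrFun hg' 2
    have hg0 : g 0 = 0 := by
      have h3 : g 0 * fG s t z₀ = 0 := by
        unfold fG
        linear_combination (2 * s) * h2 - t * h0 - t * h1
      exact (mul_eq_zero.1 h3).resolve_right hg
    have hg2 : g 2 = 0 := by
      have h3 : g 2 * s = 0 := by
        rw [hg0] at h0 h1
        linarith
      exact (mul_eq_zero.1 h3).resolve_right hs.ne'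
    have hg1 : g 1 = 0 := by
      rw [hg0, hg2] at h0
      linarith
    intro i
    fin_cases i
    · exact hg0
    · exact hg1
    · exact hg2
  obtain ⟨c, hc, hc0, hlt, hgt, hout, hA, hB⟩ := hS z₀ hz₀ hLI
  have hp1 : ∀ a b : ℝ, 0 ≤ (c 0 + c 1 - c 3) * a ^ 2 + c 2 * b ^ 2 + (c 4 - c 5) * (a * b) := by
    intro a b
    have h := hout ![a, -a, b] (by simp [Strip, le_abs_self]) (by simp [Strip, neg_le_abs])
    simp [Qf] at h
    nlinarith
  have hp2 : ∀ a b : ℝ, 0 ≤ (c 0 + c 1 + c 3) * a ^ 2 + c 2 * b ^ 2 + (c 4 + c 5) * (a * b) := by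
    intro a b
    have h := hout ![a, a, b] (by simp [Strip, le_abs_self]) (by simp [Strip, neg_le_abs])
    simp [Qf] at h
    nlinarith
  have hA' : (c 0 + c 1 - c 3) * 1 ^ 2 + c 2 * 0 ^ 2 + (c 4 - c 5) * (1 * 0) ≤ 0 := by
    simp [Qf] at hA
    nlinarith
  have hB' : (c 0 + c 1 + c 3) * s ^ 2 + c 2 * t ^ 2 + (c 4 + c 5) * (s * t) ≤ 0 := by
    simp [Qf] at hB
    nlinarith
  obtain ⟨e1, e2⟩ := f_aux_quad hp1 hA'
  obtain ⟨e3, e4⟩ := f_aux_quad hp2 hB'
  have E1 : c 3 = c 0 + c 1 := by linarith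
  have E2 : c 5 = c 4 := by linarith
  have E3 : s * c 4 + t * c 2 = 0 := by
    rw [E2] at e4; linarith
  have E4 : 2 * s ^ 2 * c 3 - c 2 * t ^ 2 = 0 := by
    have h5 : 2 * s * c 3 + c 4 * t = 0 := by
      rw [E2] at e3
      have : c 0 + c 1 + c 3 = 2 * c 3 := by linarith
      rw [this] at e3
      linarith
    linear_combination s * h5 - t * E3
  have hc2 : 0 ≤ c 2 := by
    have := hp1 0 1
    simpa using this
  have hid : ∀ z : V, 4 * s ^ 2 * Qf c z = 2 * s ^ 2 * (c 0 - c 1) * fP z + c 2 * fG s t z ^ 2 := by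
    intro z
    unfold Qf fP fG
    rw [E2]
    linear_combination (z 0 + z 1) ^ 2 * E4 + 4 * s * (z 2 * (z 0 + z 1)) * E3
      - (2 * s ^ 2 * (z 0 ^ 2 + z 1 ^ 2)) * E1
  have h0 : 2 * s ^ 2 * (c 0 - c 1) * fP z₀ + c 2 * fG s t z₀ ^ 2 = 0 := by
    rw [← hid, hc0, mul_zero]
  have hP0 := f_P_pos hz₀
  have hc2' : 0 < c 2 := by
    rcases hc2.eq_or_lt with h | h
    · exfalso
      rw [← h] at h0 E3 E4
      have k1 : c 0 - c 1 = 0 := by
        have h1 : (2 * s ^ 2 * fP z₀) * (c 0 - c 1) = 0 := by linarith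
        exact (mul_eq_zero.1 h1).resolve_left (by positivity)
      have k3 : c 3 = 0 := by
        have h1 : (2 * s ^ 2) * c 3 = 0 := by linarith
        exact (mul_eq_zero.1 h1).resolve_left (by positivity)
      have k4 : c 4 = 0 := by
        have h1 : s * c 4 = 0 := by linarith
        exact (mul_eq_zero.1 h1).resolve_left hs.ne'
      have hcz : c = 0 := by
        funext i
        fin_cases i
        · show c 0 = 0; linarith
        · show c 1 = 0; linarith
        · show c 2 = 0; linarith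
        · show c 3 = 0; linarith
        · show c 4 = 0; linarith
        · show c 5 = 0; linarith
      rw [hcz, norm_zero] at hc
      exact zero_ne_one hc
    · exact h
  have hκ : 2 * s ^ 2 * (c 0 - c 1) = - (c 2 * fρ s t z₀) := by
    unfold fρ
    field_simp
    linarith
  have hid2 : ∀ z ∈ Strip, 4 * s ^ 2 * Qf c z = fP z * c 2 * (fρ s t z - fρ s t z₀) := by
    intro z hz
    rw [hid, hκ]
    have hP := f_P_pos hz
    have : fG s t z ^ 2 = fρ s t z * fP z := by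
      unfold fρ
      field_simp
    rw [this]
    ring
  refine ⟨fun z hz h => ?_, fun z hz h => ?_⟩
  · have h1 := hlt z hz h
    have h2 := hid2 z hz
    have h3 : 0 < fP z * c 2 := mul_pos (f_P_pos hz) hc2'
    by_contra hcon
    push Not at hcon
    have h4 : 0 < fP z * c 2 * (fρ s t z - fρ s t z₀) := mul_pos h3 (by linarith)
    have h5 : 4 * s ^ 2 * Qf c z ≤ 0 := mul_nonpos_of_nonneg_of_nonpos (by positivity) h1
    linarith
  · have h1 := hgt z hz h
    have h2 := hid2 z hz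
    have h3 : 0 < fP z * c 2 := mul_pos (f_P_pos hz) hc2'
    by_contra hcon
    push Not at hcon
    have h4 : fP z * c 2 * (fρ s t z - fρ s t z₀) < 0 := mul_neg_of_pos_of_neg h3 (by linarith)
    have h5 : 0 ≤ 4 * s ^ 2 * Qf c z := by positivity
    linarith

private theorem f_order {s t : ℝ} (hs : 0 < s) {S : V → ℝ}
    (hS : Sep Strip ![1, -1, 0] ![s, s, t] S) {z w : V} (hz : z ∈ Strip) (hw : w ∈ Strip)
    (hlt : S z < S w) : fρ s t z ≤ fρ s t w := by
  by_cases hgw : fG s t w = 0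
  · by_cases hgz : fG s t z = 0
    · unfold fρ
      rw [hgw, hgz]
      simp
    · exact (f_core hs hS hz hgz).2 w hw hlt
  · exact (f_core hs hS hw hgw).1 z hz hlt

private theorem f_mem_closure {v : V} (hv : |v 1| ≤ v 0) : v ∈ closure Strip := by
  have h1 : Tendsto (fun n : ℕ => v + (1 / ((n : ℝ) + 1)) • (![1, 0, 0] : V)) atTop
      (𝓝 (v + (0 : ℝ) • (![1, 0, 0] : V))) :=
    tendsto_const_nhds.add (tendsto_one_div_add_atTop_nhds_zero_nat.smul_const _)
  rw [zero_smul, add_zero] at h1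
  refine mem_closure_of_tendsto h1 (Eventually.of_forall fun n => ?_)
  have hn : (0 : ℝ) < 1 / ((n : ℝ) + 1) := by positivity
  show |(v + (1 / ((n : ℝ) + 1)) • (![1, 0, 0] : V)) 1| < (v + (1 / ((n : ℝ) + 1)) • (![1, 0, 0] : V)) 0
  simp only [Pi.add_apply, Pi.smul_apply, smul_eq_mul, Matrix.cons_val_zero, Matrix.cons_val_one,
    mul_zero, add_zero, mul_one]
  linarith

private theorem f_open : IsOpen Strip := by
  have : Strip = {v : V | |v 1| < v 0} := rfl
  rw [this]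
  exact isOpen_lt (continuous_abs.comp (continuous_apply 1)) (continuous_apply 0)

/-- from the limit order to constancy on the level sets of `ρ` -/
private theorem f_const {D : V → V → ℝ} (hD : ConePlane Strip D) {S : V → ℝ}
    (hL : ∀ z ∈ Strip, ∀ w ∈ Strip, |S z - S w| ≤ 2 * D z w)
    (hO : ∀ z ∈ Strip, ∀ w ∈ Strip, S z < S w → (z 0 + z 1) / (z 0 - z 1) ≤ (w 0 + w 1) / (w 0 - w 1))
    {u v : V} (hu : u ∈ Strip) (hv : v ∈ Strip)
    (huv : (u 0 + u 1) / (u 0 - u 1) = (v 0 + v 1) / (v 0 - v 1)) : ¬ S u < S v := by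
  intro hlt
  have hcont : ContinuousAt (fun p : V × V => D p.1 p.2) (v, v) :=
    hD.cont.continuousAt ((f_open.prod f_open).mem_nhds ⟨hv, hv⟩)
  have hpath : Tendsto (fun ε : ℝ => v - ε • (![0, 1, 0] : V)) (𝓝 0) (𝓝 v) := by
    have h1 : Continuous fun ε : ℝ => v - ε • (![0, 1, 0] : V) :=
      continuous_const.sub (continuous_id.smul continuous_const)
    have h2 := h1.tendsto 0
    simpa using h2
  have h1 : Tendsto (fun ε : ℝ => D v (v - ε • (![0, 1, 0] : V))) (𝓝 0) (𝓝 (D v v)) := by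
    have h2 : Tendsto (fun ε : ℝ => (v, v - ε • (![0, 1, 0] : V))) (𝓝 0) (𝓝 (v, v)) :=
      tendsto_const_nhds.prodMk_nhds hpath
    exact hcont.tendsto.comp h2
  rw [hD.self v hv] at h1
  have h2 : ∀ᶠ ε : ℝ in 𝓝 0, D v (v - ε • (![0, 1, 0] : V)) < (S v - S u) / 2 :=
    h1.eventually (gt_mem_nhds (by linarith))
  have h3 : ∀ᶠ ε : ℝ in 𝓝 0, v - ε • (![0, 1, 0] : V) ∈ Strip :=
    hpath.eventually (f_open.mem_nhds hv)
  have h4 : ∀ᶠ ε : ℝ in 𝓝[>] 0, False := by
    filter_upwards [h2.filter_mono nhdsWithin_le_nhds, h3.filter_mono nhdsWithin_le_nhds,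
      self_mem_nhdsWithin] with ε e1 e2 e3
    have e3' : 0 < ε := e3
    have e4 := hL v hv _ e2
    have e5 := (abs_le.1 e4).2
    have e6 : S u < S (v - ε • (![0, 1, 0] : V)) := by linarith
    have e7 := hO u hu _ e2 e6
    rw [huv] at e7
    have hv' := abs_lt.1 (show |v 1| < v 0 from hv)
    simp only [Pi.sub_apply, Pi.smul_apply, smul_eq_mul, Matrix.cons_val_zero, Matrix.cons_val_one,
      mul_zero, sub_zero, mul_one] at e7
    rw [div_le_div_iff₀ (by linarith) (by linarith)] at e7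
    nlinarith
  exact h4.exists.choose_spec

private theorem f_lip {D : V → V → ℝ} {v w : V} {h h' : V → ℝ}
    (hh : Horo Strip D v h) (hh' : Horo Strip D w h') :
    ∀ z ∈ Strip, ∀ w ∈ Strip, |(fun z => h z + h' z) z - (fun z => h z + h' z) w| ≤ 2 * D z w := by
  intro z hz w hw
  have h1 := abs_le.1 (hh.1 z hz w hw)
  have h2 := abs_le.1 (hh'.1 z hz w hw)
  simp only
  rw [abs_le]
  constructor <;> linarith

private theorem f_limit
    (horo_limit : ∀ {C : Set V} {D : V → V → ℝ} (_ : ConePlane C D) (l : Filter ℕ) [l.NeBot]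
      {v : ℕ → V} {h : ℕ → V → ℝ} {v₀ : V} {h₀ : V → ℝ}, (∀ᶠ n in l, Horo C D (v n) (h n)) →
      Tendsto v l (𝓝 v₀) → (∀ z ∈ C, Tendsto (fun n => h n z) l (𝓝 (h₀ z))) → Horo C D v₀ h₀)
    (exists_limit : ∀ {C : Set V} {D : V → V → ℝ} (_ : ConePlane C D) (l : Ultrafilter ℕ)
      {o : V}, o ∈ C → ∀ {h : ℕ → V → ℝ}, (∀ n, h n o = 0) →
      (∀ n, ∀ z ∈ C, ∀ w ∈ C, |h n z - h n w| ≤ D z w) →
      ∃ h₀ : V → ℝ, h₀ o = 0 ∧ ∀ z ∈ C, Tendsto (fun n => h n z) l (𝓝 (h₀ z)))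
    {D : V → V → ℝ} (hD : ConePlane Strip D) {H : V → V → ℝ} (hH : HoroFamily Strip D H)
    {t : ℝ} (ht : t ^ 2 = 1) :
    ∃ hp : V → ℝ, Horo Strip D ![0, 0, t] hp ∧ ∀ z ∈ Strip, ∀ w ∈ Strip,
      (z 0 + z 1) / (z 0 - z 1) = (w 0 + w 1) / (w 0 - w 1) →
        H ![1, -1, 0] z + hp z = H ![1, -1, 0] w + hp w := by
  obtain ⟨⟨o, ho, hHo⟩, hHor, hSep⟩ := hH
  let s : ℕ → ℝ := fun n => 1 / ((n : ℝ) + 1)
  have hs : ∀ n, 0 < s n := fun n => by simp only [s]; positivity
  have ht0 : t ≠ 0 := by rintro rfl; norm_num at ht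
  have hA : (![1, -1, 0] : V) ∈ closure Strip := f_mem_closure (by simp)
  have hA0 : (![1, -1, 0] : V) ≠ 0 := by
    intro h
    have := congrFun h 0
    simp at this
  have hB : ∀ n, (![s n, s n, t] : V) ∈ closure Strip := fun n => f_mem_closure (by
    simp [abs_of_pos (hs n)])
  have hB0 : ∀ n, (![s n, s n, t] : V) ≠ 0 := by
    intro n h
    have := congrFun h 0
    simp at this
    exact (hs n).ne' this
  let l : Ultrafilter ℕ := hyperfilter ℕ
  have hl : (l : Filter ℕ) ≤ atTop := by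
    rw [← Nat.cofinite_eq_atTop]
    exact hyperfilter_le_cofinite
  obtain ⟨hp, -, hpt⟩ := exists_limit hD l ho (h := fun n => H ![s n, s n, t])
    (fun n => hHo _) (fun n => (hHor _ (hB n) (hB0 n)).1)
  have hst : Tendsto s l (𝓝 0) := tendsto_one_div_add_atTop_nhds_zero_nat.mono_left hl
  have hBt : Tendsto (fun n => (![s n, s n, t] : V)) l (𝓝 ![0, 0, t]) := by
    rw [tendsto_pi_nhds]
    intro i
    fin_cases i
    · simpa using hst
    · simpa using hst
    · simp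
  have hhoro : Horo Strip D ![0, 0, t] hp :=
    horo_limit hD l (Eventually.of_forall fun n => hHor _ (hB n) (hB0 n)) hBt hpt
  have hLI : ∀ n, LinearIndependent ℝ ![(![1, -1, 0] : V), ![s n, s n, t]] := by
    intro n
    rw [LinearIndependent.pair_iff]
    intro a b hab
    have h0 := congrFun hab 0
    have h1 := congrFun hab 1
    simp at h0 h1
    have hb : b = 0 := by
      have : b * s n = 0 := by linarith
      exact (mul_eq_zero.1 this).resolve_right (hs n).ne'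
    rw [hb] at h0
    exact ⟨by linarith, hb⟩
  have hlim : ∀ z ∈ Strip, Tendsto (fun n => fρ (s n) t z) l (𝓝 ((z 0 + z 1) / (z 0 - z 1))) := by
    intro z hz
    have hz' := abs_lt.1 (show |z 1| < z 0 from hz)
    have h1 : Tendsto (fun n => fG (s n) t z) l (𝓝 (2 * 0 * z 2 - t * (z 0 + z 1))) :=
      ((hst.const_mul 2).mul_const _).sub_const _
    have h2 := (h1.pow 2).div_const (fP z)
    have h3 : (2 * 0 * z 2 - t * (z 0 + z 1)) ^ 2 / fP z = (z 0 + z 1) / (z 0 - z 1) := by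
      unfold fP
      have e1 : z 0 - z 1 ≠ 0 := by linarith
      have e2 : z 0 + z 1 ≠ 0 := by linarith
      have e3 : (2 * 0 * z 2 - t * (z 0 + z 1)) ^ 2 = (z 0 + z 1) ^ 2 := by
        linear_combination (z 0 + z 1) ^ 2 * ht
      rw [e3]
      field_simp
    rw [h3] at h2
    exact h2
  have hO : ∀ z ∈ Strip, ∀ w ∈ Strip,
      (fun z => H ![1, -1, 0] z + hp z) z < (fun z => H ![1, -1, 0] z + hp z) w →
      (z 0 + z 1) / (z 0 - z 1) ≤ (w 0 + w 1) / (w 0 - w 1) := by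
    intro z hz w hw hlt
    refine le_of_tendsto_of_tendsto (hlim z hz) (hlim w hw) ?_
    have h1 := (hpt z hz).const_add (H ![1, -1, 0] z)
    have h2 := (hpt w hw).const_add (H ![1, -1, 0] w)
    filter_upwards [h1.eventually_lt h2 hlt] with n hn
    exact f_order (hs n) (hSep _ hA _ (hB n) (hLI n)) hz hw hn
  have hLip := f_lip (hHor _ hA hA0) hhoro
  refine ⟨hp, hhoro, fun z hz w hw hzw => ?_⟩
  have k1 : ¬ (H ![1, -1, 0] z + hp z < H ![1, -1, 0] w + hp w) := f_const hD hLip hO hz hw hzw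
  have k2 : ¬ (H ![1, -1, 0] w + hp w < H ![1, -1, 0] z + hp z) :=
    f_const hD hLip hO hw hz hzw.symm
  linarith

/-- The strip does not carry such a metric. The first two hypotheses are lemmas proved
elsewhere. -/
theorem strip_false
    (horo_limit : ∀ {C : Set V} {D : V → V → ℝ} (_ : ConePlane C D) (l : Filter ℕ) [l.NeBot]
      {v : ℕ → V} {h : ℕ → V → ℝ} {v₀ : V} {h₀ : V → ℝ}, (∀ᶠ n in l, Horo C D (v n) (h n)) →
      Tendsto v l (𝓝 v₀) → (∀ z ∈ C, Tendsto (fun n => h n z) l (𝓝 (h₀ z))) → Horo C D v₀ h₀)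
    (exists_limit : ∀ {C : Set V} {D : V → V → ℝ} (_ : ConePlane C D) (l : Ultrafilter ℕ)
      {o : V}, o ∈ C → ∀ {h : ℕ → V → ℝ}, (∀ n, h n o = 0) →
      (∀ n, ∀ z ∈ C, ∀ w ∈ C, |h n z - h n w| ≤ D z w) →
      ∃ h₀ : V → ℝ, h₀ o = 0 ∧ ∀ z ∈ C, Tendsto (fun n => h n z) l (𝓝 (h₀ z)))
    {D : V → V → ℝ} (hD : ConePlane Strip D) {H : V → V → ℝ} (hH : HoroFamily Strip D H) :
    False := by
  obtain ⟨hp, hpH, hpc⟩ := f_limit horo_limit exists_limit hD hH (t := 1) (by norm_num)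
  obtain ⟨hm, hmH, hmc⟩ := f_limit horo_limit exists_limit hD hH (t := -1) (by norm_num)
  have hz : (![1, 0, 0] : V) ∈ Strip := by simp [Strip]
  have hw : (![1, 0, 1] : V) ∈ Strip := by simp [Strip]
  have e1 : (1 : ℝ) • (![1, 0, 0] : V) + (1 : ℝ) • (![0, 0, 1] : V) = ![1, 0, 1] := by
    funext i; fin_cases i <;> simp
  have e2 : (1 : ℝ) • (![1, 0, 1] : V) + (1 : ℝ) • (![0, 0, -1] : V) = ![1, 0, 0] := by
    funext i; fin_cases i <;> simp
  have h1 := hpH.2 ![1, 0, 0] hz 1 1 one_pos one_pos (by rw [e1]; exact hw)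
  have h2 := hmH.2 ![1, 0, 1] hw 1 1 one_pos one_pos (by rw [e2]; exact hz)
  rw [e1] at h1
  rw [e2] at h2
  have h3 := hpc ![1, 0, 0] hz ![1, 0, 1] hw (by simp)
  have h4 := hmc ![1, 0, 0] hz ![1, 0, 1] hw (by simp)
  have h5 : 0 < D ![1, 0, 0] ![1, 0, 1] := by
    apply hD.pos _ hz _ hw
    rw [LinearIndependent.pair_iff]
    intro a b hab
    have k0 := congrFun hab 0
    have k2 := congrFun hab 2
    simp at k0 k2
    rw [k2] at k0
    exact ⟨by linarith, k2⟩
  have h6 := hD.symm _ hz _ hw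
  linarith


end JF

end Pool.Agent.Helper87.Conics
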