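import Pool.Agent.Helper87.ConicsMDefs

set_option autoImplicit false

open Filter Topology Set

namespace Pool.Agent.Helper87.Conics

namespace JHD
/-- Conversion to the hyperbolic model. -/
theorem klein_final {M : Set (ℝ × ℝ)} {d : ℝ × ℝ → ℝ × ℝ → ℝ} (T : V ≃ₗ[ℝ] V)
    (hT : ∀ v, v ∈ cone M ↔ T v ∈ Disc) {κ : ℝ} (hκ : 0 < κ)
    (hf : ∀ z ∈ Disc, ∀ w ∈ Disc, Real.cosh (coneDist d (T.symm z) (T.symm w) / κ) =
      Lf z w / (√(Lf z z) * √(Lf w w))) : HyperbolicModel M d := by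
  set b : Matrix (Fin 3) (Fin 3) ℝ := LinearMap.toMatrix' T.toLinearMap with hb
  have hhom : ∀ X : ℝ × ℝ, ∀ i, hom b X i = T ![1, X.1, X.2] i := by
    intro X i
    have h1 : b.mulVec ![1, X.1, X.2] = T ![1, X.1, X.2] := by
      rw [hb, LinearMap.toMatrix'_mulVec]
      rfl
    rw [← h1]
    simp only [hom, Matrix.mulVec, dotProduct, Fin.sum_univ_three]
    show _ = b i 0 * 1 + b i 1 * X.1 + b i 2 * X.2
    ring
  have hdet : b.det ≠ 0 := by
    rw [hb, LinearMap.det_toMatrix']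
    exact (LinearEquiv.isUnit_det' T).ne_zero
  have hmem : ∀ X : ℝ × ℝ, (![1, X.1, X.2] : V) ∈ cone M ↔ X ∈ M := by
    intro X
    simp only [cone, Set.mem_ofPred_eq, Matrix.cons_val_zero, Matrix.cons_val_one, Matrix.cons_val,
      div_one, zero_lt_one, true_and, Prod.mk.eta]
  have hD : ∀ X ∈ M, T ![1, X.1, X.2] ∈ Disc := fun X hX => (hT _).1 ((hmem X).2 hX)
  -- decomposition of the image
  have hdec : ∀ X ∈ M, ∀ i, T ![1, X.1, X.2] i =
      T ![1, X.1, X.2] 0 * (![1, (proj b X).1, (proj b X).2] : V) i := by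
    intro X hX i
    have h0 : (T ![1, X.1, X.2] 0) ≠ 0 := (hD X hX).1.ne'
    fin_cases i
    · show T ![1, X.1, X.2] 0 = T ![1, X.1, X.2] 0 * 1
      rw [mul_one]
    · show T ![1, X.1, X.2] 1 = T ![1, X.1, X.2] 0 * (hom b X 1 / hom b X 0)
      rw [hhom, hhom, mul_div_cancel₀ _ h0]
    · show T ![1, X.1, X.2] 2 = T ![1, X.1, X.2] 0 * (hom b X 2 / hom b X 0)
      rw [hhom, hhom, mul_div_cancel₀ _ h0]
  have hLf : ∀ X ∈ M, ∀ Y ∈ M, Lf (T ![1, X.1, X.2]) (T ![1, Y.1, Y.2]) =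
      T ![1, X.1, X.2] 0 * T ![1, Y.1, Y.2] 0 *
        (1 - ((proj b X).1 * (proj b Y).1 + (proj b X).2 * (proj b Y).2)) := by
    intro X hX Y hY
    unfold Lf
    have e1 := hdec X hX 1
    have e2 := hdec X hX 2
    have e3 := hdec Y hY 1
    have e4 := hdec Y hY 2
    simp only [Matrix.cons_val_one, Matrix.cons_val_zero, Matrix.cons_val] at e1 e2 e3 e4
    rw [e1, e2, e3, e4]
    ring
  have hnorm : ∀ X ∈ M, 0 < 1 - ((proj b X).1 ^ 2 + (proj b X).2 ^ 2) := by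
    intro X hX
    have h1 := (hD X hX).2
    rw [hLf X hX X hX] at h1
    have h2 := (hD X hX).1
    have h3 : 0 < T ![1, X.1, X.2] 0 * T ![1, X.1, X.2] 0 := mul_pos h2 h2
    have h4 := (mul_pos_iff_of_pos_left h3).1 h1
    have h5 : (proj b X).1 * (proj b X).1 + (proj b X).2 * (proj b X).2 =
      (proj b X).1 ^ 2 + (proj b X).2 ^ 2 := by ring
    rwa [h5] at h4
  refine ⟨κ, hκ, b, hdet, ?_, ⟨?_, ?_, ?_⟩, ?_⟩
  · intro X hX
    rw [hhom]
    exact (hD X hX).1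
  · -- maps to
    intro X hX
    have := hnorm X hX
    show (proj b X).1 ^ 2 + (proj b X).2 ^ 2 < 1
    linarith
  · -- injective
    intro X hX Y hY hXY
    have hs : T ![1, X.1, X.2] 0 ≠ 0 := (hD X hX).1.ne'
    have h1 : (T ![1, Y.1, Y.2] 0) • T ![1, X.1, X.2] = (T ![1, X.1, X.2] 0) • T ![1, Y.1, Y.2] := by
      funext i
      rw [Pi.smul_apply, Pi.smul_apply, smul_eq_mul, smul_eq_mul, hdec X hX i, hdec Y hY i, hXY]
      ring
    rw [← map_smul, ← map_smul] at h1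
    have h2 := T.injective h1
    have h3 := congrFun h2 0
    have h4 := congrFun h2 1
    have h5 := congrFun h2 2
    simp only [Pi.smul_apply, smul_eq_mul, Matrix.cons_val_zero, Matrix.cons_val_one,
      Matrix.cons_val, mul_one] at h3 h4 h5
    rw [h3] at h4 h5
    exact Prod.ext (mul_left_cancel₀ hs h4) (mul_left_cancel₀ hs h5)
  · -- surjective
    intro p hp
    have hz : (![1, p.1, p.2] : V) ∈ Disc := by
      have hp' : p.1 ^ 2 + p.2 ^ 2 < 1 := hp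
      refine ⟨?_, ?_⟩
      · show (0 : ℝ) < 1
        norm_num
      · show 0 < 1 * 1 - p.1 * p.1 - p.2 * p.2
        nlinarith
    set v : V := T.symm ![1, p.1, p.2] with hv
    have hTv : T v = ![1, p.1, p.2] := by rw [hv, LinearEquiv.apply_symm_apply]
    have hvc : v ∈ cone M := by
      rw [hT, hTv]
      exact hz
    have hv0 : v 0 ≠ 0 := hvc.1.ne'
    refine ⟨(v 1 / v 0, v 2 / v 0), hvc.2, ?_⟩
    have hX : (![1, v 1 / v 0, v 2 / v 0] : V) = (v 0)⁻¹ • v := by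
      funext i
      fin_cases i
      · show (1 : ℝ) = (v 0)⁻¹ * v 0
        rw [inv_mul_cancel₀ hv0]
      · show v 1 / v 0 = (v 0)⁻¹ * v 1
        rw [div_eq_inv_mul]
      · show v 2 / v 0 = (v 0)⁻¹ * v 2
        rw [div_eq_inv_mul]
    have hi : (v 0)⁻¹ ≠ 0 := inv_ne_zero hv0
    unfold proj
    rw [hhom, hhom, hhom]
    simp only
    rw [hX, map_smul, hTv]
    show ((v 0)⁻¹ * p.1 / ((v 0)⁻¹ * 1), (v 0)⁻¹ * p.2 / ((v 0)⁻¹ * 1)) = p
    rw [mul_div_mul_left _ _ hi, mul_div_mul_left _ _ hi, div_one, div_one]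
  · -- formula
    intro X hX Y hY
    have h1 := hf _ (hD X hX) _ (hD Y hY)
    rw [LinearEquiv.symm_apply_apply, LinearEquiv.symm_apply_apply] at h1
    have h2 : coneDist d ![1, X.1, X.2] ![1, Y.1, Y.2] = d X Y := by
      show d (X.1 / 1, X.2 / 1) (Y.1 / 1, Y.2 / 1) = d X Y
      rw [div_one, div_one, div_one, div_one]
    rw [h2, hLf X hX Y hY, hLf X hX X hX, hLf Y hY Y hY] at h1
    rw [h1]
    have hx0 := (hD X hX).1
    have hy0 := (hD Y hY).1
    have e : ∀ a b c : ℝ, 0 < a → a * a * (1 - (b * b + c * c)) = a ^ 2 * (1 - (b ^ 2 + c ^ 2)) := by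
      intro a b c _
      ring
    rw [e _ _ _ hx0, e _ _ _ hy0, Real.sqrt_mul (by positivity), Real.sqrt_mul (by positivity),
      Real.sqrt_sq hx0.le, Real.sqrt_sq hy0.le]
    have hsx := Real.sqrt_pos.2 (hnorm X hX)
    have hsy := Real.sqrt_pos.2 (hnorm Y hY)
    rw [show T ![1, X.1, X.2] 0 * √(1 - ((proj b X).1 ^ 2 + (proj b X).2 ^ 2)) *
      (T ![1, Y.1, Y.2] 0 * √(1 - ((proj b Y).1 ^ 2 + (proj b Y).2 ^ 2))) =
      (T ![1, X.1, X.2] 0 * T ![1, Y.1, Y.2] 0) *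
      (√(1 - ((proj b X).1 ^ 2 + (proj b X).2 ^ 2)) *
       √(1 - ((proj b Y).1 ^ 2 + (proj b Y).2 ^ 2))) by ring]
    exact mul_div_mul_left _ _ (mul_pos hx0 hy0).ne'


end JHD

end Pool.Agent.Helper87.Conics
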