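import Pool.Agent.Helper87.ConicsMDefs

set_option autoImplicit false

open Filter Topology Set

namespace Pool.Agent.Helper87.Conics

namespace JHP
/-- Conversion to the Euclidean model. -/
theorem euclid_final {M : Set (ℝ × ℝ)} (hM : M.Nonempty) {d : ℝ × ℝ → ℝ × ℝ → ℝ} (T : V ≃ₗ[ℝ] V)
    (hT : ∀ v, v ∈ cone M ↔ 0 < T v 0) (S : (ℝ × ℝ) ≃ₗ[ℝ] EuclideanSpace ℝ (Fin 2))
    (hS : ∀ X Y : ℝ × ℝ, coneDist d (T.symm ![1, X.1, X.2]) (T.symm ![1, Y.1, Y.2]) =
      ‖S (Y - X)‖) : M = univ ∧ EuclideanModel d := by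
  have h0 : ∀ x : V, x 0 = 0 → T x 0 = 0 := by
    intro x hx
    by_contra hne
    rcases lt_or_gt_of_ne hne with h | h
    · have h1 : 0 < T (-x) 0 := by rw [map_neg, Pi.neg_apply]; linarith
      have h2 := ((hT (-x)).2 h1).1
      rw [Pi.neg_apply, hx] at h2
      linarith
    · have h2 := ((hT x).2 h).1
      rw [hx] at h2
      exact lt_irrefl _ h2
  set k : ℝ := T ![1, 0, 0] 0 with hk
  have hTk : ∀ v : V, T v 0 = k * v 0 := by
    intro v
    have h1 : v = v 0 • ![1, 0, 0] + (v - v 0 • ![1, 0, 0]) := by abel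
    have h2 : T (v - v 0 • ![1, 0, 0]) 0 = 0 := by
      apply h0
      simp
    calc T v 0 = T (v 0 • ![1, 0, 0] + (v - v 0 • ![1, 0, 0])) 0 := by rw [← h1]
      _ = v 0 * k := by
        rw [map_add, Pi.add_apply, h2, map_smul, Pi.smul_apply, add_zero, smul_eq_mul]
      _ = k * v 0 := mul_comm _ _
  have hmem : ∀ X : ℝ × ℝ, (![1, X.1, X.2] : V) ∈ cone M ↔ X ∈ M := by
    intro X
    simp only [cone, Set.mem_ofPred_eq, Matrix.cons_val_zero, Matrix.cons_val_one, Matrix.cons_val,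
      div_one, zero_lt_one, true_and, Prod.mk.eta]
  have hkpos : 0 < k := by
    obtain ⟨X, hX⟩ := hM
    have h1 := (hT _).1 ((hmem X).2 hX)
    rw [hTk] at h1
    simpa using h1
  have huniv : M = univ := by
    apply Set.eq_univ_of_forall
    intro X
    rw [← hmem, hT, hTk]
    simpa using hkpos
  refine ⟨huniv, ?_⟩
  let ι : (ℝ × ℝ) →ₗ[ℝ] V :=
    { toFun := fun p => ![0, p.1, p.2]
      map_add' := by
        intro p q
        funext i
        fin_cases i <;> simp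
      map_smul' := by
        intro c p
        funext i
        fin_cases i <;> simp }
  let L : (ℝ × ℝ) →ₗ[ℝ] (ℝ × ℝ) :=
    { toFun := fun p => (T (ι p) 1 / k, T (ι p) 2 / k)
      map_add' := by
        intro p q
        simp only [map_add, Pi.add_apply, Prod.mk_add_mk, add_div]
      map_smul' := by
        intro c p
        simp only [map_smul, Pi.smul_apply, smul_eq_mul, RingHom.id_apply, Prod.smul_mk, mul_div_assoc] }
  have hL : ∀ p, L p = (T (ι p) 1 / k, T (ι p) 2 / k) := fun _ => rfl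
  have hinj : Function.Injective L := by
    rw [← LinearMap.ker_eq_bot, LinearMap.ker_eq_bot']
    intro p hp
    rw [hL, Prod.mk_eq_zero] at hp
    have h1 : T (ι p) 1 = 0 := by
      rcases div_eq_zero_iff.1 hp.1 with h | h
      · exact h
      · exact absurd h hkpos.ne'
    have h2 : T (ι p) 2 = 0 := by
      rcases div_eq_zero_iff.1 hp.2 with h | h
      · exact h
      · exact absurd h hkpos.ne'
    have h3 : T (ι p) 0 = 0 := h0 _ rfl
    have h4 : T (ι p) = 0 := by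
      funext i
      fin_cases i
      · exact h3
      · exact h1
      · exact h2
    have h5 : ι p = 0 := by
      have := congrArg T.symm h4
      simpa using this
    have h6 : p.1 = 0 := congrFun h5 1
    have h7 : p.2 = 0 := congrFun h5 2
    exact Prod.ext h6 h7
  let Le : (ℝ × ℝ) ≃ₗ[ℝ] (ℝ × ℝ) := LinearEquiv.ofInjectiveEndo L hinj
  have hLe : ∀ p, Le p = L p := fun p => rfl
  refine ⟨Le.trans S, ?_⟩
  intro X Y
  rw [LinearEquiv.trans_apply, LinearEquiv.trans_apply, hLe, hLe]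
  let A : ℝ × ℝ → ℝ × ℝ := fun X => (T ![1, X.1, X.2] 1 / k, T ![1, X.1, X.2] 2 / k)
  have hA : ∀ X : ℝ × ℝ, T.symm ![1, (A X).1, (A X).2] = k⁻¹ • (![1, X.1, X.2] : V) := by
    intro X
    rw [LinearEquiv.symm_apply_eq, map_smul]
    funext i
    fin_cases i
    · show (1 : ℝ) = k⁻¹ * T ![1, X.1, X.2] 0
      rw [hTk]
      simp [hkpos.ne']
    · show T ![1, X.1, X.2] 1 / k = k⁻¹ * T ![1, X.1, X.2] 1
      rw [div_eq_inv_mul]
    · show T ![1, X.1, X.2] 2 / k = k⁻¹ * T ![1, X.1, X.2] 2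
      rw [div_eq_inv_mul]
  have hcd : coneDist d (k⁻¹ • (![1, X.1, X.2] : V)) (k⁻¹ • (![1, Y.1, Y.2] : V)) = d X Y := by
    have hki : k⁻¹ ≠ 0 := inv_ne_zero hkpos.ne'
    have e : ∀ Z : ℝ × ℝ, ((k⁻¹ • (![1, Z.1, Z.2] : V)) 1 / (k⁻¹ • (![1, Z.1, Z.2] : V)) 0,
        (k⁻¹ • (![1, Z.1, Z.2] : V)) 2 / (k⁻¹ • (![1, Z.1, Z.2] : V)) 0) = Z := by
      intro Z
      show (k⁻¹ * Z.1 / (k⁻¹ * 1), k⁻¹ * Z.2 / (k⁻¹ * 1)) = Z
      rw [mul_div_mul_left _ _ hki, mul_div_mul_left _ _ hki, div_one, div_one]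
    unfold coneDist
    rw [e, e]
  have h1 := hS (A X) (A Y)
  rw [hA, hA, hcd] at h1
  have hdiff : A Y - A X = L (Y - X) := by
    rw [hL]
    have h2 : ι (Y - X) = ![1, Y.1, Y.2] - ![1, X.1, X.2] := by
      funext i
      fin_cases i
      · show (0 : ℝ) = 1 - 1
        norm_num
      · rfl
      · rfl
    rw [h2, map_sub]
    show ((T ![1, Y.1, Y.2] 1 / k - T ![1, X.1, X.2] 1 / k), (T ![1, Y.1, Y.2] 2 / k -
      T ![1, X.1, X.2] 2 / k)) = _
    rw [Pi.sub_apply, Pi.sub_apply, sub_div, sub_div]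
  rw [h1, hdiff, dist_eq_norm, ← map_sub, ← map_sub, map_sub L Y X, map_sub S,
    map_sub L X Y, map_sub S, norm_sub_rev]


end JHP

end Pool.Agent.Helper87.Conics
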