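import Pool.Agent.Helper87.ConicsEDefs

set_option autoImplicit false

open Real Filter Topology

namespace Pool.Agent.Helper87.Elliptic

namespace JI1
private theorem i1_surj {θ : ℝ → ℝ} (hc : Continuous θ) (hp : ∀ t, θ (t + π) = θ t + π) (y : ℝ) :
    ∃ s, θ s = y := by
  have hper : Function.Periodic (fun t => θ t - t) π := by
    intro t
    show θ (t + π) - (t + π) = θ t - t
    rw [hp]
    ring
  have hk : ∀ k : ℤ, θ (k * π) = k * π + θ 0 := by
    intro k
    have h1 : θ (k * π) - k * π = θ 0 - 0 := hper.int_mul_eq k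
    linarith
  refine mem_range_of_exists_le_of_exists_ge hc ⟨⌊(y - θ 0) / π⌋ * π, ?_⟩
    ⟨⌈(y - θ 0) / π⌉ * π, ?_⟩
  · rw [hk]
    have := Int.floor_le ((y - θ 0) / π)
    rw [le_div_iff₀ pi_pos] at this
    linarith
  · rw [hk]
    have := Int.le_ceil ((y - θ 0) / π)
    rw [div_le_iff₀ pi_pos] at this
    linarith

private theorem i1_li {d : E3 → E3 → ℝ} (hd : EllipticMetric d) {N z : E3} (hN : N ≠ 0)
    (hz : z ≠ 0) (hdz : d N z ≠ 0) : LinearIndependent ℝ ![N, z] := by
  rw [LinearIndependent.pair_iff' hN]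
  intro a ha
  have ha0 : a ≠ 0 := by
    rintro rfl
    rw [zero_smul] at ha
    exact hz ha.symm
  apply hdz
  rw [hd.symm N z hN hz, ← ha, hd.smul N N hN hN a ha0, hd.self N hN]

private theorem i1_curve {d : E3 → E3 → ℝ} (hd : EllipticMetric d) {N z : E3} (hN : N ≠ 0)
    (hz : z ≠ 0) {r : ℝ} (hr : 0 < r) (hdz : d N z = r) :
    ∃ η : ℝ → E3, Continuous η ∧ η 0 = N ∧ (∀ t, η t ≠ 0) ∧
      (∀ s t, |s - t| ≤ π / 2 → d (η s) (η t) = |s - t|) ∧ (z = η r ∨ z = -η r) := by
  have hLI : LinearIndependent ℝ ![N, z] := i1_li hd hN hz (by rw [hdz]; exact hr.ne')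
  obtain ⟨θ, hθc, hθm, hθp, hθd⟩ := hd.line N z hLI
  obtain ⟨s0, hs0⟩ := i1_surj hθc hθp 0
  obtain ⟨s1, hs1⟩ := i1_surj hθc hθp (π / 2)
  have hpi := pi_pos
  have h01 : s0 < s1 := hθm.lt_iff_lt.1 (by rw [hs0, hs1]; linarith)
  have h1p : s1 < s0 + π := hθm.lt_iff_lt.1 (by rw [hθp, hs0, hs1]; linarith)
  obtain ⟨γ, hγ⟩ : ∃ γ : ℝ → E3, γ = fun t => cos (θ (s0 + t)) • N + sin (θ (s0 + t)) • z :=
    ⟨_, rfl⟩
  have hγc : Continuous γ := by
    rw [hγ]
    have h1 : Continuous fun t => θ (s0 + t) := hθc.comp (continuous_const.add continuous_id)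
    exact ((continuous_cos.comp h1).smul continuous_const).add
      ((continuous_sin.comp h1).smul continuous_const)
  have hγ0 : γ 0 = N := by
    rw [hγ]
    simp [hs0]
  have hγ1 : γ (s1 - s0) = z := by
    rw [hγ]
    simp [hs1]
  have hγn : ∀ t, γ t ≠ 0 := by
    intro t h
    rw [hγ] at h
    obtain ⟨h1, h2⟩ := LinearIndependent.pair_iff.1 hLI _ _ h
    have := sin_sq_add_cos_sq (θ (s0 + t))
    rw [h1, h2] at this
    norm_num at this
  have hγd : ∀ s t, |s - t| ≤ π / 2 → d (γ s) (γ t) = |s - t| := by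
    intro s t hst
    have h1 := hθd (s0 + s) (s0 + t) (by
      have : s0 + s - (s0 + t) = s - t := by ring
      rw [this]; exact hst)
    rw [hγ]
    have : s0 + s - (s0 + t) = s - t := by ring
    rw [this] at h1
    exact h1
  have hγp : ∀ t, γ (t - π) = - γ t := by
    intro t
    have h1 : θ (s0 + (t - π)) = θ (s0 + t) - π := by
      have := hθp (s0 + (t - π))
      have h2 : s0 + (t - π) + π = s0 + t := by ring
      rw [h2] at this
      linarith
    rw [hγ]
    simp only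
    rw [h1, cos_sub_pi, sin_sub_pi]
    module
  by_cases hcase : s1 - s0 ≤ π / 2
  · have h1 : r = s1 - s0 := by
      have h2 := hγd 0 (s1 - s0) (by rw [zero_sub, abs_neg, abs_of_pos (by linarith)]; exact hcase)
      rw [hγ0, hγ1, hdz, zero_sub, abs_neg, abs_of_pos (by linarith)] at h2
      exact h2
    refine ⟨γ, hγc, hγ0, hγn, hγd, Or.inl ?_⟩
    rw [h1, hγ1]
  · push Not at hcase
    have h1 : r = π - (s1 - s0) := by
      have hle : |0 - (s1 - s0 - π)| ≤ π / 2 := by
        rw [zero_sub, abs_neg, abs_of_neg (by linarith)]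
        linarith
      have h2 := hγd 0 (s1 - s0 - π) hle
      rw [hγ0, hγp, hγ1] at h2
      have h3 : d N (-z) = d N z := by
        have h4 := hd.smul z N hz hN (-1) (by norm_num)
        rw [neg_one_smul] at h4
        rw [hd.symm N (-z) hN (neg_ne_zero.2 hz), h4, hd.symm z N hz hN]
      rw [h3, hdz, zero_sub, abs_neg, abs_of_neg (by linarith)] at h2
      linarith
    refine ⟨fun t => γ (-t), hγc.comp continuous_neg, by simp [hγ0], fun t => hγn _, ?_, Or.inr ?_⟩
    · intro s t hst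
      have h2 : |(-s) - (-t)| = |s - t| := by
        rw [← abs_neg]
        congr 1
        ring
      simp only
      rw [hγd _ _ (by rw [h2]; exact hst), h2]
    · simp only
      have h2 : -r = (s1 - s0) - π := by linarith
      rw [h2, hγp, hγ1, neg_neg]

private theorem i1_Qe_cont : Continuous fun p : (Fin 6 → ℝ) × E3 => Qe p.1 p.2 := by
  unfold Qe
  fun_prop

private theorem i1_Qe_neg (c : Fin 6 → ℝ) (v : E3) : Qe c (-v) = Qe c v := by
  unfold Qe
  simp

private theorem i1_Qe_smul (t : ℝ) (c : Fin 6 → ℝ) (v : E3) : Qe (t • c) v = t * Qe c v := by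
  unfold Qe
  simp only [Pi.smul_apply, smul_eq_mul]
  ring

/-- Circles are limits of ellipses, hence contained in conics. -/
theorem circle_conic {d : E3 → E3 → ℝ} (hd : EllipticMetric d)
    (hE : ∀ v w, LinearIndependent ℝ ![v, w] → ∀ s : ℝ, d v w < s → s + d v w < π →
      ∃ c : Fin 6 → ℝ, c ≠ 0 ∧ ∀ z, z ≠ 0 → d v z + d z w = s → Qe c z = 0) :
    ∀ N, N ≠ 0 → ∀ r, 0 < r → r < π / 2 →
      ∃ c : Fin 6 → ℝ, c ≠ 0 ∧ ∀ z, z ≠ 0 → d N z = r → Qe c z = 0 := by
  intro N hN r hr hr2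
  obtain ⟨e, he⟩ : ∃ e : E3, LinearIndependent ℝ ![N, e] :=
    exists_linearIndependent_pair_of_one_lt_finrank (by simp) hN
  obtain ⟨w, hw⟩ : ∃ w : ℕ → E3, w = fun n : ℕ => N + (1 / ((n : ℝ) + 1)) • e := ⟨_, rfl⟩
  have hLI : ∀ n, LinearIndependent ℝ ![N, w n] := by
    intro n
    have hn : (1 / ((n : ℝ) + 1)) ≠ 0 := by positivity
    rw [LinearIndependent.pair_iff] at he ⊢
    intro a b hab
    rw [hw] at hab
    have h1 : (a + b) • N + (b * (1 / ((n : ℝ) + 1))) • e = 0 := by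
      rw [← hab]
      module
    obtain ⟨h2, h3⟩ := he _ _ h1
    have hb : b = 0 := (mul_eq_zero.1 h3).resolve_right hn
    rw [hb, add_zero] at h2
    exact ⟨h2, hb⟩
  have hwn : ∀ n, w n ≠ 0 := fun n => (hLI n).ne_zero 1
  have hwt : Tendsto w atTop (𝓝 N) := by
    rw [hw]
    have h1 := (tendsto_one_div_add_atTop_nhds_zero_nat (𝕜 := ℝ)).smul_const e
    rw [zero_smul] at h1
    simpa using h1.const_add N
  have hopen : IsOpen {p : E3 × E3 | p.1 ≠ 0 ∧ p.2 ≠ 0} :=
    (isOpen_ne.preimage continuous_fst).inter (isOpen_ne.preimage continuous_snd)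
  have hδt : Tendsto (fun n => d N (w n)) atTop (𝓝 0) := by
    have h1 : ContinuousAt (fun p : E3 × E3 => d p.1 p.2) (N, N) :=
      hd.cont.continuousAt (hopen.mem_nhds ⟨hN, hN⟩)
    have h2 : Tendsto (fun n => (N, w n)) atTop (𝓝 (N, N)) := tendsto_const_nhds.prodMk_nhds hwt
    have h3 := h1.tendsto.comp h2
    simp only [Function.comp_def] at h3
    rwa [hd.self N hN] at h3
  have hδ0 : ∀ n, 0 < d N (w n) := fun n => hd.pos _ _ (hLI n)
  have hex : ∀ n, ∃ c : Fin 6 → ℝ, c ∈ Metric.sphere (0 : Fin 6 → ℝ) 1 ∧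
      (d N (w n) < 2 * r → 2 * r + d N (w n) < π →
        ∀ z, z ≠ 0 → d N z + d z (w n) = 2 * r → Qe c z = 0) := by
    intro n
    by_cases h : d N (w n) < 2 * r ∧ 2 * r + d N (w n) < π
    · obtain ⟨c, hc, hc'⟩ := hE N (w n) (hLI n) (2 * r) h.1 h.2
      refine ⟨‖c‖⁻¹ • c, ?_, fun _ _ z hz hz' => ?_⟩
      · rw [mem_sphere_zero_iff_norm, norm_smul, norm_inv, norm_norm,
          inv_mul_cancel₀ (norm_ne_zero_iff.2 hc)]
      · rw [i1_Qe_smul, hc' z hz hz', mul_zero]
    · refine ⟨fun _ => 1, ?_, fun h1 h2 => (h ⟨h1, h2⟩).elim⟩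
      rw [mem_sphere_zero_iff_norm, pi_norm_const, norm_one]
  choose c hcS hcQ using hex
  obtain ⟨a, haS, φ, hφ, hφt⟩ := (isCompact_sphere (0 : Fin 6 → ℝ) 1).tendsto_subseq hcS
  have ha0 : a ≠ 0 := by
    rintro rfl
    rw [mem_sphere_zero_iff_norm, norm_zero] at haS
    exact zero_ne_one haS
  refine ⟨a, ha0, fun z hz hzr => ?_⟩
  obtain ⟨η, hηc, hη0, hηn, hηd, hηz⟩ := i1_curve hd hN hz hr hzr
  have hNη : ∀ t, 0 ≤ t → t ≤ π / 2 → d N (η t) = t := by
    intro t ht0 ht1
    have h1 := hηd 0 t (by rw [zero_sub, abs_neg, abs_of_nonneg ht0]; exact ht1)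
    rwa [hη0, zero_sub, abs_neg, abs_of_nonneg ht0] at h1
  have hex2 : ∀ n, ∃ t : ℝ, |t - r| ≤ d N (w n) ∧ (d N (w n) < r → r + d N (w n) < π / 2 →
      d N (η t) + d (η t) (w n) = 2 * r) := by
    intro n
    by_cases h : d N (w n) < r ∧ r + d N (w n) < π / 2
    · obtain ⟨h1, h2⟩ := h
      have hcont : Continuous fun t => d N (η t) + d (η t) (w n) := by
        have k1 : Continuous fun t => d N (η t) :=
          hd.cont.comp_continuous (continuous_const.prodMk hηc) (fun t => ⟨hN, hηn t⟩)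
        have k2 : Continuous fun t => d (η t) (w n) :=
          hd.cont.comp_continuous (hηc.prodMk continuous_const) (fun t => ⟨hηn t, hwn n⟩)
        exact k1.add k2
      have hδ := hδ0 n
      have hlow : d N (η (r - d N (w n))) + d (η (r - d N (w n))) (w n) ≤ 2 * r := by
        have e1 := hNη (r - d N (w n)) (by linarith) (by linarith)
        have e2 := hd.triangle (η (r - d N (w n))) N (w n) (hηn _) hN (hwn n)
        rw [hd.symm _ N (hηn _) hN, e1] at e2
        rw [e1]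
        linarith
      have hup : 2 * r ≤ d N (η (r + d N (w n))) + d (η (r + d N (w n))) (w n) := by
        have e1 := hNη (r + d N (w n)) (by linarith) (by linarith)
        have e2 := hd.triangle N (w n) (η (r + d N (w n))) hN (hwn n) (hηn _)
        rw [hd.symm (w n) _ (hwn n) (hηn _), e1] at e2
        rw [e1]
        linarith
      obtain ⟨t, ht, ht'⟩ := intermediate_value_Icc (show r - d N (w n) ≤ r + d N (w n) by linarith)
        hcont.continuousOn ⟨hlow, hup⟩
      refine ⟨t, ?_, fun _ _ => ht'⟩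
      rw [abs_le]
      constructor <;> linarith [ht.1, ht.2]
    · exact ⟨r, by simpa using (hδ0 n).le, fun h1 h2 => (h ⟨h1, h2⟩).elim⟩
  choose t ht1 ht2 using hex2
  have htt : Tendsto t atTop (𝓝 r) := by
    rw [tendsto_iff_dist_tendsto_zero]
    exact squeeze_zero (fun n => dist_nonneg) (fun n => by rw [Real.dist_eq]; exact ht1 n) hδt
  have hzero : ∀ᶠ n in atTop, Qe (c n) (η (t n)) = 0 := by
    have e1 : ∀ᶠ n in atTop, d N (w n) < r := hδt.eventually (gt_mem_nhds hr)
    have e2 : ∀ᶠ n in atTop, d N (w n) < π / 2 - r := hδt.eventually (gt_mem_nhds (by linarith))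
    filter_upwards [e1, e2] with n h1 h2
    exact hcQ n (by linarith) (by linarith) _ (hηn _) (ht2 n h1 (by linarith))
  have hlim : Tendsto (fun n => Qe (c (φ n)) (η (t (φ n)))) atTop (𝓝 (Qe a (η r))) := by
    have h1 : Tendsto (fun n => (c (φ n), η (t (φ n)))) atTop (𝓝 (a, η r)) :=
      hφt.prodMk_nhds ((hηc.tendsto r).comp (htt.comp hφ.tendsto_atTop))
    exact (i1_Qe_cont.tendsto (a, η r)).comp h1
  have hlim0 : Tendsto (fun n => Qe (c (φ n)) (η (t (φ n)))) atTop (𝓝 0) := by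
    refine tendsto_const_nhds.congr' ?_
    filter_upwards [hφ.tendsto_atTop.eventually hzero] with n hn
    exact hn.symm
  have hfin : Qe a (η r) = 0 := tendsto_nhds_unique hlim hlim0
  rcases hηz with h | h
  · rw [h, hfin]
  · rw [h, i1_Qe_neg, hfin]


end JI1

end Pool.Agent.Helper87.Elliptic
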