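import Pool.Agent.Helper87.ConicsEDefs

set_option autoImplicit false

open Real Filter Topology

namespace Pool.Agent.Helper87.Elliptic

namespace JI2
private noncomputable def J1168_B (c : Fin 6 → ℝ) (v w : E3) : ℝ :=
  c 0 * (v 0 * w 0) + c 1 * (v 1 * w 1) + c 2 * (v 2 * w 2) + c 3 / 2 * (v 0 * w 1 + v 1 * w 0) +
    c 4 / 2 * (v 0 * w 2 + v 2 * w 0) + c 5 / 2 * (v 1 * w 2 + v 2 * w 1)

private theorem J1168_comb (c : Fin 6 → ℝ) (v w : E3) (a b : ℝ) :
    Qe c (a • v + b • w) = a ^ 2 * Qe c v + b ^ 2 * Qe c w + 2 * a * b * J1168_B c v w := by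
  simp only [Qe, J1168_B, PiLp.add_apply, PiLp.smul_apply, smul_eq_mul]
  ring

private theorem J1168_smul (c : Fin 6 → ℝ) (v : E3) (a : ℝ) : Qe c (a • v) = a ^ 2 * Qe c v := by
  simp only [Qe, PiLp.smul_apply, smul_eq_mul]
  ring

private theorem J1168_zero {c : Fin 6 → ℝ} (h : ∀ v : E3, Qe c v = 0) : c = 0 := by
  have h0 := h (EuclideanSpace.single 0 1)
  have h1 := h (EuclideanSpace.single 1 1)
  have h2 := h (EuclideanSpace.single 2 1)
  have h3 := h (EuclideanSpace.single 0 1 + EuclideanSpace.single 1 1)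
  have h4 := h (EuclideanSpace.single 0 1 + EuclideanSpace.single 2 1)
  have h5 := h (EuclideanSpace.single 1 1 + EuclideanSpace.single 2 1)
  simp [Qe] at h0 h1 h2 h3 h4 h5
  funext i
  fin_cases i <;> simp <;> linarith

/-- the parametrisation of the line through `N` and `x`, starting from `N` -/
private theorem J1168_line {d : E3 → E3 → ℝ} (hd : EllipticMetric d) {N x : E3}
    (hx : LinearIndependent ℝ ![N, x]) : ∃ σ : ℝ → ℝ, Continuous σ ∧ StrictMono σ ∧
      (∀ t, σ (t + π) = σ t + π) ∧ σ 0 = 0 ∧ ∀ t, |t| ≤ π / 2 →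
        d N (cos (σ t) • N + sin (σ t) • x) = |t| := by
  obtain ⟨θ, h1, h2, h3, h4⟩ := hd.line N x hx
  have h5 : ∀ (n : ℕ) (t : ℝ), θ (t + n * π) = θ t + n * π := by
    intro n
    induction n with
    | zero => intro t; simp
    | succ n ih =>
      intro t
      have : t + ((n + 1 : ℕ) : ℝ) * π = (t + n * π) + π := by push_cast; ring
      rw [this, h3, ih]
      push_cast; ring
  obtain ⟨s0, hs0⟩ : ∃ s0, θ s0 = 0 := by
    obtain ⟨n, hn⟩ := exists_nat_gt (|θ 0| / π)
    have hn' : |θ 0| < n * π := by
      rwa [div_lt_iff₀ pi_pos] at hn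
    have e1 : θ (n * π) = θ 0 + n * π := by simpa using h5 n 0
    have e2 : θ 0 = θ (-(n * π)) + n * π := by simpa using h5 n (-(n * π))
    have e3 := abs_lt.1 hn'
    have e4 : -(n * π) ≤ n * π := by
      have : 0 ≤ (n : ℝ) * π := by positivity
      linarith
    have := intermediate_value_Icc e4 h1.continuousOn
    obtain ⟨s, -, hs⟩ := this (show (0 : ℝ) ∈ Set.Icc (θ (-(n * π))) (θ (n * π)) from
      ⟨by linarith, by linarith⟩)
    exact ⟨s, hs⟩
  refine ⟨fun t => θ (s0 + t), by fun_prop, ?_, ?_, by simpa using hs0, ?_⟩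
  · intro a b hab
    exact h2 (by linarith)
  · intro t
    show θ (s0 + (t + π)) = θ (s0 + t) + π
    rw [← add_assoc, h3]
  · intro t ht
    have := h4 s0 (s0 + t) (by rw [show s0 - (s0 + t) = -t by ring, abs_neg]; exact ht)
    rw [hs0, cos_zero, sin_zero, one_smul, zero_smul, add_zero, show s0 - (s0 + t) = -t by ring,
      abs_neg] at this
    exact this

/-- sign rule on a line through `N` -/
private theorem J1168_sign {d : E3 → E3 → ℝ} (hd : EllipticMetric d) {N x : E3}
    (hx : LinearIndependent ℝ ![N, x]) {r : ℝ} (hr : 0 < r) (hr2 : r < π / 2) {c : Fin 6 → ℝ}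
    (hc : ∀ z, z ≠ 0 → d N z = r → Qe c z = 0) :
    (Qe c N = 0 → Qe c x = 0) ∧ (Qe c N < 0 →
      (d N x < r → Qe c x < 0) ∧ (d N x = r → Qe c x = 0) ∧ (r < d N x → 0 < Qe c x) ∧
      ∃ s u : ℝ, 0 < Qe c (s • N + u • x)) := by
  obtain ⟨σ, h1, h2, h3, h4, h5⟩ := J1168_line hd hx
  have hπ := pi_pos
  -- the two points at distance r
  set e : ℝ → E3 := fun φ => cos φ • N + sin φ • x with he
  have hne : ∀ φ, e φ ≠ 0 := by
    intro φ h
    have := LinearIndependent.pair_iff.1 hx (cos φ) (sin φ) h
    have h6 := sin_sq_add_cos_sq φ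
    rw [this.1, this.2] at h6
    norm_num at h6
  have hm : σ (-r) < 0 := by rw [← h4]; exact h2 (by linarith)
  have hp : 0 < σ r := by rw [← h4]; exact h2 (by linarith)
  have hpm : σ r - σ (-r) < π := by
    have : σ r < σ (-r + π) := h2 (by linarith)
    rw [h3] at this
    linarith
  have q1 : Qe c (e (σ r)) = 0 := by
    refine hc _ (hne _) ?_
    rw [he]
    show d N (cos (σ r) • N + sin (σ r) • x) = r
    rw [h5 r (by rw [abs_of_pos hr]; exact hr2.le), abs_of_pos hr]
  have q2 : Qe c (e (σ (-r))) = 0 := by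
    refine hc _ (hne _) ?_
    show d N (cos (σ (-r)) • N + sin (σ (-r)) • x) = r
    rw [h5 (-r) (by rw [abs_neg, abs_of_pos hr]; exact hr2.le), abs_neg, abs_of_pos hr]
  set D := sin (σ r - σ (-r)) with hD
  have hD0 : 0 < D := sin_pos_of_pos_of_lt_pi (by linarith) hpm
  set β := J1168_B c (e (σ r)) (e (σ (-r))) with hβ
  have key : ∀ φ, D ^ 2 * Qe c (e φ) = 2 * sin (φ - σ (-r)) * sin (σ r - φ) * β := by
    intro φ
    have e1 : D • e φ = sin (φ - σ (-r)) • e (σ r) + sin (σ r - φ) • e (σ (-r)) := by
      simp only [he, hD, smul_add, smul_smul]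
      have t1 : sin (φ - σ (-r)) * cos (σ r) + sin (σ r - φ) * cos (σ (-r)) =
          sin (σ r - σ (-r)) * cos φ := by
        rw [sin_sub, sin_sub, sin_sub]; ring
      have t2 : sin (φ - σ (-r)) * sin (σ r) + sin (σ r - φ) * sin (σ (-r)) =
          sin (σ r - σ (-r)) * sin φ := by
        rw [sin_sub, sin_sub, sin_sub]; ring
      rw [← t1, ← t2]
      module
    have e2 : Qe c (D • e φ) = D ^ 2 * Qe c (e φ) := J1168_smul _ _ _
    rw [← e2, e1, J1168_comb, q1, q2]
    ring
  have hN : e 0 = N := by simp [he]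
  have hX : e (π / 2) = x := by simp [he]
  have kN := key 0
  have kX := key (π / 2)
  rw [hN, zero_sub, sub_zero] at kN
  have s1 : 0 < sin (-σ (-r)) := sin_pos_of_pos_of_lt_pi (by linarith) (by linarith)
  have s2 : 0 < sin (σ r) := sin_pos_of_pos_of_lt_pi (by linarith) (by linarith)
  refine ⟨?_, ?_⟩
  · intro h0
    have hb : β = 0 := by
      rw [h0, mul_zero] at kN
      rcases mul_eq_zero.1 kN.symm with h | h
      · exfalso
        have : 0 < 2 * sin (-σ (-r)) * sin (σ r) := by positivity
        linarith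
      · exact h
    rw [hX, hb, mul_zero] at kX
    rcases mul_eq_zero.1 kX with h | h
    · exfalso; have : 0 < D ^ 2 := by positivity
      linarith
    · exact h
  · intro hN0
    have hb : β < 0 := by
      by_contra hcon
      push Not at hcon
      have : 0 ≤ 2 * sin (-σ (-r)) * sin (σ r) * β := by positivity
      have h' : D ^ 2 * Qe c N < 0 := mul_neg_of_pos_of_neg (by positivity) hN0
      linarith
    -- sign along the parametrisation
    have hneg : ∀ t, |t| < r → Qe c (e (σ t)) < 0 := by
      intro t ht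
      have ht' := abs_lt.1 ht
      have a1 : 0 < sin (σ t - σ (-r)) := by
        have b1 : σ (-r) < σ t := h2 ht'.1
        have b2 : σ t < σ (-r + π) := h2 (by linarith)
        rw [h3] at b2
        exact sin_pos_of_pos_of_lt_pi (by linarith) (by linarith)
      have a2 : 0 < sin (σ r - σ t) := by
        have b1 : σ t < σ r := h2 ht'.2
        have b2 : σ r < σ (t + π) := h2 (by linarith)
        rw [h3] at b2
        exact sin_pos_of_pos_of_lt_pi (by linarith) (by linarith)
      have k := key (σ t)
      have : 2 * sin (σ t - σ (-r)) * sin (σ r - σ t) * β < 0 :=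
        mul_neg_of_pos_of_neg (by positivity) hb
      by_contra hcon
      push Not at hcon
      have : 0 ≤ D ^ 2 * Qe c (e (σ t)) := by positivity
      linarith
    have hpos : ∀ t, r < |t| → |t| ≤ π / 2 → 0 < Qe c (e (σ t)) := by
      intro t ht ht2
      have hprod : sin (σ t - σ (-r)) * sin (σ r - σ t) < 0 := by
        rcases lt_or_ge 0 t with h | h
        · rw [abs_of_pos h] at ht ht2
          have a1 : 0 < sin (σ t - σ (-r)) := by
            have b1 : σ (-r) < σ t := h2 (by linarith)
            have b2 : σ t < σ (-r + π) := h2 (by linarith)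
            rw [h3] at b2
            exact sin_pos_of_pos_of_lt_pi (by linarith) (by linarith)
          have a2 : sin (σ r - σ t) < 0 := by
            have b1 : σ r < σ t := h2 (by linarith)
            have b2 : σ t < σ (r + π) := h2 (by linarith)
            rw [h3] at b2
            exact sin_neg_of_neg_of_neg_pi_lt (by linarith) (by linarith)
          exact mul_neg_of_pos_of_neg a1 a2
        · rw [abs_of_nonpos h] at ht ht2
          have a1 : sin (σ t - σ (-r)) < 0 := by
            have b1 : σ t < σ (-r) := h2 (by linarith)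
            have b2 : σ (-r) < σ (t + π) := h2 (by linarith)
            rw [h3] at b2
            exact sin_neg_of_neg_of_neg_pi_lt (by linarith) (by linarith)
          have a2 : 0 < sin (σ r - σ t) := by
            have b1 : σ t < σ r := h2 (by linarith)
            have b2 : σ r < σ (t + π) := h2 (by linarith)
            rw [h3] at b2
            exact sin_pos_of_pos_of_lt_pi (by linarith) (by linarith)
          exact mul_neg_of_neg_of_pos a1 a2
      have k := key (σ t)
      have : 0 < 2 * sin (σ t - σ (-r)) * sin (σ r - σ t) * β := by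
        have := mul_pos_of_neg_of_neg hprod hb
        nlinarith
      by_contra hcon
      push Not at hcon
      have : D ^ 2 * Qe c (e (σ t)) ≤ 0 := mul_nonpos_of_nonneg_of_nonpos (by positivity) hcon
      linarith
    -- x is a multiple of a point of the parametrisation
    obtain ⟨t, ht, ε, hε, hxe⟩ : ∃ t, |t| ≤ π / 2 ∧ ∃ ε : ℝ, (ε = 1 ∨ ε = -1) ∧
        e (σ t) = ε • x := by
      rcases le_or_gt (π / 2) (σ (π / 2)) with h | h
      · have := intermediate_value_Icc (show (0 : ℝ) ≤ π / 2 by linarith) h1.continuousOn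
        obtain ⟨t, ht, ht'⟩ := this (show π / 2 ∈ Set.Icc (σ 0) (σ (π / 2)) from
          ⟨by rw [h4]; linarith, h⟩)
        refine ⟨t, ?_, 1, Or.inl rfl, ?_⟩
        · rw [abs_of_nonneg ht.1]; exact ht.2
        · rw [ht', hX, one_smul]
      · have h6 : σ (-(π / 2)) < -(π / 2) := by
          have := h3 (-(π / 2))
          rw [show -(π / 2) + π = π / 2 by ring] at this
          linarith
        have := intermediate_value_Icc (show -(π / 2) ≤ (0 : ℝ) by linarith) h1.continuousOn
        obtain ⟨t, ht, ht'⟩ := this (show -(π / 2) ∈ Set.Icc (σ (-(π / 2))) (σ 0) from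
          ⟨h6.le, by rw [h4]; linarith⟩)
        refine ⟨t, ?_, -1, Or.inr rfl, ?_⟩
        · rw [abs_of_nonpos ht.2]; linarith [ht.1]
        · rw [ht']; simp [he]
    have hε2 : ε ^ 2 = 1 := by rcases hε with h | h <;> rw [h] <;> norm_num
    have hε0 : ε ≠ 0 := by rcases hε with h | h <;> rw [h] <;> norm_num
    have hQ : Qe c (e (σ t)) = Qe c x := by rw [hxe, J1168_smul, hε2, one_mul]
    have hN' : N ≠ 0 := hx.ne_zero 0
    have hx' : x ≠ 0 := hx.ne_zero 1
    have hdx : d N x = |t| := by
      have a1 : d N (e (σ t)) = |t| := h5 t ht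
      rw [hxe, hd.symm N (ε • x) hN' (smul_ne_zero hε0 hx'), hd.smul x N hx' hN' ε hε0,
        hd.symm x N hx' hN'] at a1
      exact a1
    refine ⟨?_, ?_, ?_, ?_⟩
    · intro h
      rw [← hQ]
      exact hneg t (by rw [← hdx]; exact h)
    · intro h
      exact hc x hx' h
    · intro h
      rw [← hQ]
      exact hpos t (by rw [← hdx]; exact h) ht
    · refine ⟨cos (σ (π / 2)), sin (σ (π / 2)), ?_⟩
      have a1 : |π / 2| = π / 2 := abs_of_pos (by linarith)
      exact hpos (π / 2) (by rw [a1]; exact hr2) (by rw [a1])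

/-- Conic circles are strictly convex. -/
theorem convex_of_conic {d : E3 → E3 → ℝ} (hd : EllipticMetric d)
    (hC : ∀ N, N ≠ 0 → ∀ r, 0 < r → r < π / 2 →
      ∃ c : Fin 6 → ℝ, c ≠ 0 ∧ ∀ z, z ≠ 0 → d N z = r → Qe c z = 0) : ConvexDiscs d := by
  intro N hN r hr hr2
  -- a conic with `Qe c N < 0`
  obtain ⟨c, hc, hcN⟩ : ∃ c : Fin 6 → ℝ, (∀ z, z ≠ 0 → d N z = r → Qe c z = 0) ∧ Qe c N < 0 := by
    obtain ⟨c, hc0, hc⟩ := hC N hN r hr hr2
    have hQN : Qe c N ≠ 0 := by
      intro h
      apply hc0
      apply J1168_zero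
      intro v
      by_cases hv : LinearIndependent ℝ ![N, v]
      · exact (J1168_sign hd hv hr hr2 hc).1 h
      · rw [LinearIndependent.pair_iff' hN] at hv
        push Not at hv
        obtain ⟨a, rfl⟩ := hv
        rw [J1168_smul, h, mul_zero]
    rcases lt_or_gt_of_ne hQN with h | h
    · exact ⟨c, hc, h⟩
    · have hneg : ∀ z, Qe (fun i => -c i) z = -Qe c z := by
        intro z; simp only [Qe]; ring
      refine ⟨fun i => -c i, ?_, ?_⟩
      · intro z hz hdz
        rw [hneg, hc z hz hdz, neg_zero]
      · rw [hneg]; linarith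
  -- sign rule
  have hsign : ∀ v, v ≠ 0 → (d N v ≤ r → Qe c v ≤ 0) ∧ (Qe c v < 0 → d N v < r) := by
    intro v hv
    by_cases hvi : LinearIndependent ℝ ![N, v]
    · obtain ⟨a1, a2, a3, -⟩ := (J1168_sign hd hvi hr hr2 hc).2 hcN
      refine ⟨?_, ?_⟩
      · intro h
        rcases lt_or_eq_of_le h with h | h
        · exact (a1 h).le
        · exact (a2 h).le
      · intro h
        by_contra hcon
        push Not at hcon
        rcases lt_or_eq_of_le hcon with h' | h'
        · linarith [a3 h']
        · linarith [a2 h'.symm]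
    · rw [LinearIndependent.pair_iff' hN] at hvi
      push Not at hvi
      obtain ⟨a, rfl⟩ := hvi
      have ha : a ≠ 0 := by rintro rfl; exact hv (zero_smul _ _)
      have hQ : Qe c (a • N) < 0 := by
        rw [J1168_smul]
        exact mul_neg_of_pos_of_neg (by positivity) hcN
      refine ⟨fun _ => hQ.le, fun _ => ?_⟩
      rw [hd.symm _ _ hN hv, hd.smul N N hN hN a ha, hd.self N hN]
      exact hr
  -- positivity on the complement
  have hpos : ∀ x, x ≠ 0 → J1168_B c N x = 0 → 0 < Qe c x := by
    intro x hx hB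
    have hxi : LinearIndependent ℝ ![N, x] := by
      rw [LinearIndependent.pair_iff' hN]
      rintro a rfl
      have ha : a ≠ 0 := by rintro rfl; exact hx (zero_smul _ _)
      have : J1168_B c N (a • N) = a * Qe c N := by
        simp only [Qe, J1168_B, PiLp.smul_apply, smul_eq_mul]
        ring
      rw [this] at hB
      rcases mul_eq_zero.1 hB with h | h
      · exact ha h
      · linarith
    obtain ⟨-, -, -, s, u, h⟩ := (J1168_sign hd hxi hr hr2 hc).2 hcN
    rw [J1168_comb, hB, mul_zero, add_zero] at h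
    have h1 : s ^ 2 * Qe c N ≤ 0 := mul_nonpos_of_nonneg_of_nonpos (by positivity) hcN.le
    by_contra hcon
    push Not at hcon
    have h2 : u ^ 2 * Qe c x ≤ 0 := mul_nonpos_of_nonneg_of_nonpos (by positivity) hcon
    linarith
  let f : E3 →ₗ[ℝ] ℝ :=
    { toFun := fun v => -J1168_B c N v
      map_add' := by
        intro v w
        simp only [J1168_B, PiLp.add_apply]
        ring
      map_smul' := by
        intro a v
        simp only [J1168_B, PiLp.smul_apply, smul_eq_mul, RingHom.id_apply]
        ring }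
  have hf : ∀ v, f v = -J1168_B c N v := fun v => rfl
  refine ⟨f, ?_, ?_⟩
  · intro v hv hdv h0
    have h1 := (hsign v hv).1 hdv
    have h2 := hpos v hv (by rw [hf] at h0; linarith)
    linarith
  · intro v w hvw hdv hdw hfv hfw a b ha hb
    have hv : v ≠ 0 := hvw.ne_zero 0
    have hw : w ≠ 0 := hvw.ne_zero 1
    have h1 := (hsign v hv).1 hdv
    have h2 := (hsign w hw).1 hdw
    have hz : f w • v + (-f v) • w ≠ 0 := by
      intro h
      have := LinearIndependent.pair_iff.1 hvw _ _ h
      linarith [this.1]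
    have hfz : J1168_B c N (f w • v + (-f v) • w) = 0 := by
      have : f (f w • v + (-f v) • w) = 0 := by
        rw [map_add, map_smul, map_smul, smul_eq_mul, smul_eq_mul]; ring
      rw [hf] at this
      linarith
    have h3 := hpos _ hz hfz
    rw [J1168_comb] at h3
    have h4 : J1168_B c v w < 0 := by
      by_contra hcon
      push Not at hcon
      have e1 : f w ^ 2 * Qe c v ≤ 0 := mul_nonpos_of_nonneg_of_nonpos (by positivity) h1
      have e2 : (-f v) ^ 2 * Qe c w ≤ 0 := mul_nonpos_of_nonneg_of_nonpos (by positivity) h2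
      have e3 : 0 ≤ f w * f v * J1168_B c v w := by positivity
      nlinarith
    have hne : a • v + b • w ≠ 0 := by
      intro h
      have := LinearIndependent.pair_iff.1 hvw _ _ h
      linarith [this.1]
    refine (hsign _ hne).2 ?_
    rw [J1168_comb]
    have e1 : a ^ 2 * Qe c v ≤ 0 := mul_nonpos_of_nonneg_of_nonpos (by positivity) h1
    have e2 : b ^ 2 * Qe c w ≤ 0 := mul_nonpos_of_nonneg_of_nonpos (by positivity) h2
    have e3 : a * b * J1168_B c v w < 0 := mul_neg_of_pos_of_neg (by positivity) h4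
    nlinarith


end JI2

end Pool.Agent.Helper87.Elliptic
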