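import Pool.Agent.Helper87.ConicsMDefs

set_option autoImplicit false

open Filter Topology

namespace Pool.Agent.Helper87.Conics



variable {M : Set (ℝ × ℝ)} {d : ℝ × ℝ → ℝ × ℝ → ℝ}

/-- the projection -/
noncomputable def prj (v : V) : ℝ × ℝ := (v 1 / v 0, v 2 / v 0)

lemma mem_cone_iff {v : V} : v ∈ cone M ↔ 0 < v 0 ∧ prj v ∈ M := Iff.rfl

lemma coneDist_eq (v w : V) : coneDist d v w = d (prj v) (prj w) := rfl

lemma prj_smul (v : V) {s : ℝ} (hs : s ≠ 0) : prj (s • v) = prj v := by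
  unfold prj
  simp only [Pi.smul_apply, smul_eq_mul]
  rw [mul_div_mul_left _ _ hs, mul_div_mul_left _ _ hs]

lemma ProjPlane.self (h : ProjPlane M d) {X : ℝ × ℝ} (hX : X ∈ M) : d X X = 0 :=
  (h.eq_zero X hX X hX).2 rfl

lemma ProjPlane.nonneg (h : ProjPlane M d) {X Y : ℝ × ℝ} (hX : X ∈ M) (hY : Y ∈ M) :
    0 ≤ d X Y := by
  have h1 := h.triangle X hX Y hY X hX
  rw [h.self hX, h.symm Y hY X hX] at h1
  linarith

lemma ProjPlane.pos (h : ProjPlane M d) {X Y : ℝ × ℝ} (hX : X ∈ M) (hY : Y ∈ M) (hne : X ≠ Y) :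
    0 < d X Y := by
  refine lt_of_le_of_ne (h.nonneg hX hY) fun h0 => hne ((h.eq_zero X hX Y hY).1 h0.symm)

lemma ProjPlane.cont (h : ProjPlane M d) :
    ContinuousOn (fun p : (ℝ × ℝ) × (ℝ × ℝ) => d p.1 p.2) (M ×ˢ M) := by
  intro p hp
  have key : ∀ u : ℕ → (ℝ × ℝ) × (ℝ × ℝ), Tendsto u atTop (𝓝[M ×ˢ M] p) →
      Tendsto (fun n => d (u n).1 (u n).2) atTop (𝓝 (d p.1 p.2)) := by
    intro u hu
    rw [tendsto_nhdsWithin_iff] at hu
    obtain ⟨hu1, hu2⟩ := hu
    obtain ⟨N, hN⟩ := eventually_atTop.1 hu2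
    rw [← tendsto_add_atTop_iff_nat N]
    have hN' : ∀ n, u (n + N) ∈ M ×ˢ M := fun n => hN _ (by omega)
    have hu1' := (tendsto_add_atTop_iff_nat N).2 hu1
    have ha : Tendsto (fun n => d p.1 (u (n + N)).1) atTop (𝓝 0) := by
      refine (h.topology p.1 hp.1 _ fun n => (hN' n).1).1 ?_
      exact (continuous_fst.tendsto p).comp hu1'
    have hb : Tendsto (fun n => d p.2 (u (n + N)).2) atTop (𝓝 0) := by
      refine (h.topology p.2 hp.2 _ fun n => (hN' n).2).1 ?_
      exact (continuous_snd.tendsto p).comp hu1'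
    rw [tendsto_iff_dist_tendsto_zero]
    refine squeeze_zero (fun n => dist_nonneg) (fun n => ?_)
      (by simpa using ha.add hb : Tendsto (fun n => d p.1 (u (n + N)).1 + d p.2 (u (n + N)).2)
        atTop (𝓝 0))
    have m1 := (hN' n).1
    have m2 := (hN' n).2
    have t1 := h.triangle _ m1 p.1 hp.1 _ m2
    have t2 := h.triangle p.1 hp.1 p.2 hp.2 _ m2
    have t3 := h.triangle p.1 hp.1 _ m1 p.2 hp.2
    have t4 := h.triangle _ m1 _ m2 p.2 hp.2
    have s1 := h.symm _ m1 p.1 hp.1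
    have s2 := h.symm _ m2 p.2 hp.2
    rw [Real.dist_eq, abs_le]
    constructor <;> linarith
  exact tendsto_of_seq_tendsto key

lemma li_pair_iff (v w : V) : LinearIndependent ℝ ![v, w] ↔
    ∀ a b : ℝ, a • v + b • w = 0 → a = 0 ∧ b = 0 :=
  LinearIndependent.pair_iff

lemma continuousOn_prj : ContinuousOn prj {v : V | 0 < v 0} := by
  unfold prj
  refine ContinuousOn.prodMk ?_ ?_
  · exact ContinuousOn.div (continuous_apply 1).continuousOn (continuous_apply 0).continuousOn
      fun v hv => ne_of_gt hv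
  · exact ContinuousOn.div (continuous_apply 2).continuousOn (continuous_apply 0).continuousOn
      fun v hv => ne_of_gt hv

lemma isOpen_pos0 : IsOpen {v : V | 0 < v 0} := isOpen_lt continuous_const (continuous_apply 0)

lemma isOpen_cone (h : IsOpen M) : IsOpen (cone M) := by
  have : cone M = {v : V | 0 < v 0} ∩ prj ⁻¹' M := by
    ext v; exact Iff.rfl
  rw [this]
  exact continuousOn_prj.isOpen_inter_preimage isOpen_pos0 h

lemma prj_add (v w : V) (hv : 0 < v 0) (hw : 0 < w 0) :
    prj (v + w) = (v 0 / (v 0 + w 0)) • prj v + (w 0 / (v 0 + w 0)) • prj w := by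
  have h1 : v 0 ≠ 0 := hv.ne'
  have h2 : w 0 ≠ 0 := hw.ne'
  have h3 : v 0 + w 0 ≠ 0 := by positivity
  unfold prj
  ext
  · simp only [Pi.add_apply, Prod.fst_add, Prod.smul_fst, smul_eq_mul]
    field_simp
  · simp only [Pi.add_apply, Prod.snd_add, Prod.smul_snd, smul_eq_mul]
    field_simp

lemma prj_add_mem_segment (v w : V) (hv : 0 < v 0) (hw : 0 < w 0) :
    prj (v + w) ∈ segment ℝ (prj v) (prj w) := by
  rw [prj_add v w hv hw]
  refine ⟨v 0 / (v 0 + w 0), w 0 / (v 0 + w 0), by positivity, by positivity, ?_, rfl⟩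
  field_simp

lemma cone_add_mem (h : Convex ℝ M) {v w : V} (hv : v ∈ cone M) (hw : w ∈ cone M) :
    v + w ∈ cone M := by
  refine ⟨by simpa using add_pos hv.1 hw.1, ?_⟩
  have := prj_add_mem_segment v w hv.1 hw.1
  exact h.segment_subset hv.2 hw.2 this

lemma cone_smul_mem {v : V} (hv : v ∈ cone M) {s : ℝ} (hs : 0 < s) : s • v ∈ cone M := by
  refine ⟨by simpa using mul_pos hs hv.1, ?_⟩
  have := prj_smul v hs.ne'
  unfold prj at this
  rw [this]
  exact hv.2

/-- if the projections agree the vectors are proportional -/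
lemma prop_of_prj_eq {v w : V} (hv : 0 < v 0) (hw : 0 < w 0) (h : prj v = prj w) :
    w 0 • v = v 0 • w := by
  unfold prj at h
  rw [Prod.mk.injEq] at h
  obtain ⟨h1, h2⟩ := h
  have e0 : v 0 ≠ 0 := hv.ne'
  have e1 : w 0 ≠ 0 := hw.ne'
  rw [div_eq_div_iff e0 e1] at h1 h2
  ext i
  fin_cases i
  · change w 0 * v 0 = v 0 * w 0
    ring
  · change w 0 * v 1 = v 0 * w 1
    linarith
  · change w 0 * v 2 = v 0 * w 2
    linarith

lemma prj_ne_of_li {v w : V} (hv : 0 < v 0) (hw : 0 < w 0) (h : LinearIndependent ℝ ![v, w]) :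
    prj v ≠ prj w := by
  intro he
  have h1 := prop_of_prj_eq hv hw he
  have h2 := (li_pair_iff v w).1 h (w 0) (-v 0) (by rw [h1, neg_smul, add_neg_cancel])
  exact hw.ne' h2.1

lemma coneDist_add (h : ProjPlane M d) {v w : V} (hv : v ∈ cone M) (hw : w ∈ cone M) {a b : ℝ}
    (ha : 0 < a) (hb : 0 < b) :
    coneDist d v (a • v + b • w) + coneDist d (a • v + b • w) w = coneDist d v w := by
  rw [coneDist_eq, coneDist_eq, coneDist_eq]
  have hav := cone_smul_mem hv ha
  have hbw := cone_smul_mem hw hb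
  have hm := cone_add_mem h.convex hav hbw
  refine (h.segment _ hv.2 _ hm.2 _ hw.2).2 ?_
  have := prj_add_mem_segment (a • v) (b • w) hav.1 hbw.1
  rwa [prj_smul v ha.ne', prj_smul w hb.ne'] at this

lemma strict_aux (h : ProjPlane M d) {u v w : V} (hu : u ∈ cone M) (hv : v ∈ cone M)
    (hw : w ∈ cone M) (hli : LinearIndependent ℝ ![u, v, w]) :
    coneDist d u w < coneDist d u v + coneDist d v w := by
  rw [coneDist_eq, coneDist_eq, coneDist_eq]
  refine lt_of_le_of_ne (h.triangle _ hu.2 _ hv.2 _ hw.2) fun he => ?_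
  obtain ⟨a, b, -, -, hab1, hab⟩ := (h.segment _ hu.2 _ hv.2 _ hw.2).1 he.symm
  have e0 : u 0 ≠ 0 := hu.1.ne'
  have e1 : v 0 ≠ 0 := hv.1.ne'
  have e2 : w 0 ≠ 0 := hw.1.ne'
  simp only [Prod.smul_mk, Prod.mk_add_mk, Prod.mk.injEq, smul_eq_mul] at hab
  obtain ⟨h1, h2⟩ := hab
  have hv1 : v 1 = v 0 * (a * (u 1 / u 0) + b * (w 1 / w 0)) := by
    rw [h1]; field_simp
  have hv2 : v 2 = v 0 * (a * (u 2 / u 0) + b * (w 2 / w 0)) := by
    rw [h2]; field_simp
  have hli' := Fintype.linearIndependent_iff.1 hli ![v 0 * a / u 0, -1, v 0 * b / w 0] ?_ 1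
  · simp at hli'
  · rw [Fin.sum_univ_three]
    ext i
    fin_cases i
    · change v 0 * a / u 0 * u 0 + -1 * v 0 + v 0 * b / w 0 * w 0 = 0
      field_simp
      have : a = 1 - b := by linarith
      rw [this]; ring
    · change v 0 * a / u 0 * u 1 + -1 * v 1 + v 0 * b / w 0 * w 1 = 0
      rw [hv1]; ring
    · change v 0 * a / u 0 * u 2 + -1 * v 2 + v 0 * b / w 0 * w 2 = 0
      rw [hv2]; ring

lemma unbounded_aux (h : ProjPlane M d) {v w : V} (hv : v ∈ cone M) (hw : w ∈ cone M)
    (hli : LinearIndependent ℝ ![v, w]) (R : ℝ) :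
    ∃ t : ℝ, 0 < t ∧ w - t • v ∈ cone M ∧ R < coneDist d v (w - t • v) := by
  by_contra hcon
  push Not at hcon
  set C := cone M with hC
  have hopenC : IsOpen C := isOpen_cone h.isOpen
  have hcontf : Continuous fun t : ℝ => w - t • v := by fun_prop
  set U : Set ℝ := (fun t : ℝ => w - t • v) ⁻¹' C with hU
  have hUo : IsOpen U := hopenC.preimage hcontf
  have h0U : (0 : ℝ) ∈ U := by
    change w - (0 : ℝ) • v ∈ C
    simpa using hw
  set I : Set ℝ := {t | 0 ≤ t ∧ t ∈ U} with hI
  have h0I : (0 : ℝ) ∈ I := ⟨le_rfl, h0U⟩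
  have hbdd : BddAbove I := by
    refine ⟨w 0 / v 0, fun t ht => ?_⟩
    have h1 : 0 < (w - t • v) 0 := ht.2.1
    have h2 : 0 < w 0 - t * v 0 := by simpa using h1
    rw [le_div_iff₀ hv.1]
    linarith
  set T := sSup I with hT
  have hlow : ∀ t, 0 ≤ t → t < T → t ∈ U := by
    intro t ht0 htT
    obtain ⟨t', ht', hlt⟩ := exists_lt_of_lt_csSup ⟨0, h0I⟩ htT
    have h1 : w - t • v = (w - t' • v) + (t' - t) • v := by
      rw [sub_smul]; abel
    change w - t • v ∈ C
    rw [h1]
    exact cone_add_mem h.convex ht'.2 (cone_smul_mem hv (by linarith))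
  have hext : ∀ t ∈ I, ∃ s ∈ I, t < s := by
    intro t ht
    obtain ⟨ε, hε, hball⟩ := Metric.isOpen_iff.1 hUo t ht.2
    refine ⟨t + ε / 2, ⟨by linarith [ht.1], hball ?_⟩, by linarith⟩
    rw [Metric.mem_ball, Real.dist_eq]
    rw [abs_of_pos (by linarith)]
    linarith
  have hTpos : 0 < T := by
    obtain ⟨s, hs, hlt⟩ := hext 0 h0I
    exact lt_of_lt_of_le hlt (le_csSup hbdd hs)
  have hTU : T ∉ U := by
    intro hTU
    obtain ⟨s, hs, hlt⟩ := hext T ⟨hTpos.le, hTU⟩
    exact absurd (le_csSup hbdd hs) (not_le.2 hlt)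
  -- the sequence
  set t : ℕ → ℝ := fun n => T * (1 - 1 / ((n : ℝ) + 2)) with ht
  have htpos : ∀ n, 0 < t n := by
    intro n
    have h1 : (0 : ℝ) < (n : ℝ) + 2 := by positivity
    have h2 : 1 / ((n : ℝ) + 2) < 1 := by
      rw [div_lt_one h1]
      have : (0 : ℝ) ≤ n := Nat.cast_nonneg n
      linarith
    exact mul_pos hTpos (by linarith)
  have htT : ∀ n, t n < T := by
    intro n
    have h1 : (0 : ℝ) < 1 / ((n : ℝ) + 2) := by positivity
    have : T * (1 - 1 / ((n : ℝ) + 2)) < T * 1 := mul_lt_mul_of_pos_left (by linarith) hTpos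
    rw [mul_one] at this
    exact this
  have htmono : ∀ m n, m < n → t m < t n := by
    intro m n hmn
    have h1 : (m : ℝ) < n := by exact_mod_cast hmn
    have h2 : 1 / ((n : ℝ) + 2) < 1 / ((m : ℝ) + 2) := by
      apply one_div_lt_one_div_of_lt
      · positivity
      · linarith
    exact mul_lt_mul_of_pos_left (by linarith) hTpos
  have htlim : Tendsto t atTop (𝓝 T) := by
    have h1 : Tendsto (fun n : ℕ => 1 / ((n : ℝ) + 2)) atTop (𝓝 0) := by
      have := (tendsto_add_atTop_iff_nat 2).2 (tendsto_one_div_atTop_nhds_zero_nat (𝕜 := ℝ))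
      simpa using this
    have h2 : Tendsto (fun n : ℕ => T * (1 - 1 / ((n : ℝ) + 2))) atTop (𝓝 (T * (1 - 0))) :=
      (tendsto_const_nhds.sub h1).const_mul T
    rw [sub_zero, mul_one] at h2
    exact h2
  set u : ℕ → V := fun n => w - t n • v with hu
  have huC : ∀ n, u n ∈ C := fun n => hlow _ (htpos n).le (htT n)
  have hadd : ∀ m n, m < n → coneDist d v (u m) + coneDist d (u m) (u n) = coneDist d v (u n) := by
    intro m n hmn
    have h1 : u m = (t n - t m) • v + (1 : ℝ) • u n := by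
      simp only [hu, sub_smul, one_smul]; abel
    have h2 := coneDist_add h hv (huC n) (sub_pos.2 (htmono m n hmn)) one_pos
    rw [← h1] at h2
    exact h2
  have hnn : ∀ m n, 0 ≤ coneDist d (u m) (u n) := fun m n => h.nonneg (huC m).2 (huC n).2
  set D : ℕ → ℝ := fun n => coneDist d v (u n) with hD
  have hDmono : Monotone D := by
    refine monotone_nat_of_le_succ fun n => ?_
    have h1 := hadd n (n + 1) (Nat.lt_succ_self n)
    have h2 := hnn n (n + 1)
    simp only [hD]
    linarith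
  have hDbdd : BddAbove (Set.range D) := by
    refine ⟨R, ?_⟩
    rintro _ ⟨n, rfl⟩
    exact hcon (t n) (htpos n) (huC n)
  have hDlim := tendsto_atTop_ciSup hDmono hDbdd
  have hDc : CauchySeq D := hDlim.cauchySeq
  have hdist : ∀ m n, coneDist d (u m) (u n) = |D m - D n| := by
    intro m n
    rcases lt_trichotomy m n with hmn | hmn | hmn
    · have h1 := hadd m n hmn
      have h2 := hnn m n
      have h3 : coneDist d (u m) (u n) = D n - D m := by simp only [hD]; linarith
      rw [abs_sub_comm, abs_of_nonneg (by linarith), h3]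
    · subst hmn
      rw [sub_self, abs_zero]
      exact h.self (huC m).2
    · have h1 := hadd n m hmn
      have h2 := hnn n m
      have h3 : coneDist d (u n) (u m) = D m - D n := by simp only [hD]; linarith
      have h4 : coneDist d (u m) (u n) = coneDist d (u n) (u m) := h.symm _ (huC m).2 _ (huC n).2
      rw [abs_of_nonneg (by linarith), h4, h3]
  obtain ⟨X, hXM, hX⟩ := h.complete (fun n => prj (u n)) (fun n => (huC n).2) (by
    intro ε hε
    obtain ⟨N, hN⟩ := Metric.cauchySeq_iff.1 hDc ε hε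
    refine ⟨N, fun m hm n hn => ?_⟩
    have h1 := hN m hm n hn
    rw [Real.dist_eq] at h1
    have h2 := hdist m n
    rw [coneDist_eq] at h2
    rw [h2]
    exact h1)
  have hXlim : Tendsto (fun n => prj (u n)) atTop (𝓝 X) :=
    (h.topology X hXM _ fun n => (huC n).2).2 hX
  set z : V := w - T • v with hz
  have huz : Tendsto u atTop (𝓝 z) := (hcontf.tendsto T).comp htlim
  have hu0 : Tendsto (fun n => u n 0) atTop (𝓝 (z 0)) := ((continuous_apply 0).tendsto z).comp huz
  have hu1 : Tendsto (fun n => u n 1) atTop (𝓝 (z 1)) := ((continuous_apply 1).tendsto z).comp huz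
  have hu2 : Tendsto (fun n => u n 2) atTop (𝓝 (z 2)) := ((continuous_apply 2).tendsto z).comp huz
  have hz0 : 0 ≤ z 0 := ge_of_tendsto' hu0 fun n => (huC n).1.le
  have hX1 : Tendsto (fun n => u n 0 * (prj (u n)).1) atTop (𝓝 (z 0 * X.1)) :=
    hu0.mul ((continuous_fst.tendsto X).comp hXlim)
  have hX2 : Tendsto (fun n => u n 0 * (prj (u n)).2) atTop (𝓝 (z 0 * X.2)) :=
    hu0.mul ((continuous_snd.tendsto X).comp hXlim)
  have e1 : z 1 = z 0 * X.1 := by
    refine tendsto_nhds_unique hu1 (hX1.congr fun n => ?_)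
    have : u n 0 ≠ 0 := (huC n).1.ne'
    simp only [prj]
    field_simp
  have e2 : z 2 = z 0 * X.2 := by
    refine tendsto_nhds_unique hu2 (hX2.congr fun n => ?_)
    have : u n 0 ≠ 0 := (huC n).1.ne'
    simp only [prj]
    field_simp
  rcases hz0.lt_or_eq with hpos | hzero
  · apply hTU
    change z ∈ C
    refine ⟨hpos, ?_⟩
    have : (z 1 / z 0, z 2 / z 0) = X := by
      rw [e1, e2]
      ext
      · simp only; field_simp
      · simp only; field_simp
    rw [this]
    exact hXM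
  · have hz' : z = 0 := by
      ext i
      fin_cases i
      · exact hzero.symm
      · change z 1 = 0
        rw [e1, ← hzero, zero_mul]
      · change z 2 = 0
        rw [e2, ← hzero, zero_mul]
    have h3 := (li_pair_iff v w).1 hli (-T) 1 (by
      rw [neg_smul, one_smul]
      have : w - T • v = 0 := hz'
      rw [← this]; abel)
    exact one_ne_zero h3.2

theorem conePlane_of {M : Set (ℝ × ℝ)} {d : ℝ × ℝ → ℝ × ℝ → ℝ} (h : ProjPlane M d) :
    ConePlane (cone M) (coneDist d) where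
  isOpen := isOpen_cone h.isOpen
  nonempty := by
    obtain ⟨X, hX⟩ := h.nonempty
    refine ⟨![1, X.1, X.2], ?_, ?_⟩
    · simp
    · simpa using hX
  chart := ⟨LinearMap.proj 0, fun v hv => hv.1⟩
  add_mem := fun v hv w hw => cone_add_mem h.convex hv hw
  smul_mem := fun v hv s hs => cone_smul_mem hv hs
  smul := fun v hv w hw s hs => by
    rw [coneDist_eq, coneDist_eq, prj_smul v hs.ne']
  symm := fun v hv w hw => h.symm _ hv.2 _ hw.2
  self := fun v hv => h.self hv.2
  pos := fun v hv w hw hli => h.pos hv.2 hw.2 (prj_ne_of_li hv.1 hw.1 hli)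
  triangle := fun u hu v hv w hw => h.triangle _ hu.2 _ hv.2 _ hw.2
  cont := by
    have hpc : ContinuousOn prj (cone M) := continuousOn_prj.mono fun v hv => hv.1
    have h1 : ContinuousOn (fun p : V × V => (prj p.1, prj p.2)) (cone M ×ˢ cone M) := by
      refine ContinuousOn.prodMk ?_ ?_
      · exact hpc.comp continuous_fst.continuousOn fun p hp => hp.1
      · exact hpc.comp continuous_snd.continuousOn fun p hp => hp.2
    exact h.cont.comp h1 fun p hp => ⟨hp.1.2, hp.2.2⟩
  add := fun v hv w hw a b ha hb => coneDist_add h hv hw ha hb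
  strict := fun u hu v hv w hw hli => strict_aux h hu hv hw hli
  unbounded := fun v hv w hw hli R => unbounded_aux h hv hw hli R



end Pool.Agent.Helper87.Conics
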