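import Pool.Agent.Helper87.ThalesEllDefs

set_option autoImplicit false

open Real Filter Topology

namespace Pool.Agent.Helper87.Elliptic

/-- The statement of the local fundamental theorem of projective geometry (proved elsewhere). -/
def ProjOfLines : Prop :=
  ∀ (M : Set (ℝ × ℝ)) (_ : IsOpen M) (_ : Convex ℝ M) (_ : M.Nonempty)
    (x : Fin 3 → ℝ × ℝ → ℝ) (_ : ∀ i, ContinuousOn (x i) M) (_ : ∀ X ∈ M, 0 < x 0 X)
    (_ : ∀ a : Fin 3 → ℝ, ∀ X ∈ M, ∀ Y ∈ M, X ≠ Y → (∑ i, a i * x i X = 0) →
      (∑ i, a i * x i Y = 0) → ∀ Z ∈ M, Z ∈ line[ℝ, X, Y] → ∑ i, a i * x i Z = 0)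
    (_ : ∀ a : Fin 3 → ℝ, (∀ X ∈ M, ∑ i, a i * x i X = 0) → a = 0),
    ∃ (b : Fin 3 → Fin 3 → ℝ) (ρ : ℝ × ℝ → ℝ), ∀ X ∈ M, 0 < ρ X ∧
      ∀ i, x i X = ρ X * (b i 0 + b i 1 * X.1 + b i 2 * X.2)


/-- polarity relation, with zero allowed -/
def Pp (L : E3 → E3 → ℝ) (X Y : E3) : Prop := X = 0 ∨ Y = 0 ∨ L X Y = π / 2

theorem Pp_symm {L : E3 → E3 → ℝ} (hL : EllipticPlane L) {X Y : E3} (h : Pp L X Y) :
    Pp L Y X := by
  by_cases hX : X = 0
  · exact Or.inr (Or.inl hX)
  by_cases hY : Y = 0
  · exact Or.inl hY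
  rcases h with h | h | h
  · exact absurd h hX
  · exact absurd h hY
  · exact Or.inr (Or.inr (by rw [hL.symm Y X hY hX]; exact h))

theorem Pp_get {L : E3 → E3 → ℝ} {X Y : E3} (h : Pp L X Y) (hX : X ≠ 0) (hY : Y ≠ 0) :
    L X Y = π / 2 := by
  rcases h with h | h | h
  · exact absurd h hX
  · exact absurd h hY
  · exact h

theorem Pp_lin {L : E3 → E3 → ℝ} (hP : PolarLin L) {N X Y : E3} (h1 : Pp L N X)
    (h2 : Pp L N Y) (a b : ℝ) : Pp L N (a • X + b • Y) := by
  by_cases hN : N = 0
  · exact Or.inl hN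
  by_cases h0 : a • X + b • Y = 0
  · exact Or.inr (Or.inl h0)
  refine Or.inr (Or.inr ?_)
  by_cases hX : X = 0
  · by_cases hY : Y = 0
    · exfalso; apply h0; simp [hX, hY]
    · have hy := Pp_get h2 hN hY
      have := hP N Y Y hN hY hY hy hy 0 b (by simpa [hX] using h0)
      simpa [hX] using this
  · have hx := Pp_get h1 hN hX
    by_cases hY : Y = 0
    · have := hP N X X hN hX hX hx hx a 0 (by simpa [hY] using h0)
      simpa [hY] using this
    · exact hP N X Y hN hX hY hx (Pp_get h2 hN hY) a b h0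

theorem Pp_self {L : E3 → E3 → ℝ} (hL : EllipticPlane L) {X : E3} (h : Pp L X X) : X = 0 := by
  by_contra hX
  have h1 := Pp_get h hX hX
  rw [hL.self X hX] at h1
  have := Real.pi_pos
  linarith

theorem Pp_smul {L : E3 → E3 → ℝ} (hP : PolarLin L) {N X : E3} (h : Pp L N X) (a : ℝ) :
    Pp L N (a • X) := by
  have := Pp_lin hP h h a 0
  simpa using this

theorem Pp_add {L : E3 → E3 → ℝ} (hP : PolarLin L) {N X Y : E3} (h1 : Pp L N X)
    (h2 : Pp L N Y) : Pp L N (X + Y) := by
  have := Pp_lin hP h1 h2 1 1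
  simpa using this

theorem Pp_sub {L : E3 → E3 → ℝ} (hP : PolarLin L) {N X Y : E3} (h1 : Pp L N X)
    (h2 : Pp L N Y) : Pp L N (X - Y) := by
  have := Pp_lin hP h1 h2 1 (-1)
  simpa [sub_eq_add_neg] using this

theorem Pp_of_smul {L : E3 → E3 → ℝ} (hP : PolarLin L) {N X : E3} {a : ℝ} (ha : a ≠ 0)
    (h : Pp L N (a • X)) : Pp L N X := by
  have := Pp_smul hP h a⁻¹
  rwa [smul_smul, inv_mul_cancel₀ ha, one_smul] at this

theorem decomp {L : E3 → E3 → ℝ} (hL : EllipticPlane L) (hP : PolarLin L) (hE : PolarEx L)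
    {v e : E3} (hv : ¬ Pp L v e) (u : E3) : ∃ t : ℝ, Pp L v (u - t • e) := by
  have hv0 : v ≠ 0 := fun h => hv (Or.inl h)
  obtain ⟨z, hz0, hz, -⟩ := hE v v hv0 hv0
  obtain ⟨Z, hZ0, hZ, hzZ⟩ := hE v z hv0 hz0
  have hz' : Pp L v z := Or.inr (Or.inr hz)
  have hZ' : Pp L v Z := Or.inr (Or.inr hZ)
  have hzZ' : Pp L z Z := Or.inr (Or.inr hzZ)
  have hli : LinearIndependent ℝ ![z, Z, e] := by
    rw [Fintype.linearIndependent_iff]
    intro g hg
    simp only [Fin.sum_univ_three, Matrix.cons_val_zero, Matrix.cons_val_one,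
      Matrix.cons_val_two, Matrix.head_cons, Matrix.tail_cons, Matrix.cons_val] at hg
    have h2 : g 2 = 0 := by
      by_contra hne
      apply hv
      apply Pp_of_smul hP hne
      have h3 : g 2 • e = (-g 0) • z + (-g 1) • Z := by
        have : g 2 • e = (g 0 • z + g 1 • Z + g 2 • e) + ((-g 0) • z + (-g 1) • Z) := by
          module
        rw [this, hg, zero_add]
      rw [h3]
      exact Pp_lin hP hz' hZ' _ _
    rw [h2, zero_smul, add_zero] at hg
    have h0 : g 0 = 0 := by
      by_contra hne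
      apply hz0
      apply Pp_self hL
      apply Pp_of_smul hP hne
      have h3 : g 0 • z = (-g 1) • Z := by
        have : g 0 • z = (g 0 • z + g 1 • Z) + ((-g 1) • Z) := by module
        rw [this, hg, zero_add]
      rw [h3]
      exact Pp_smul hP hzZ' _
    rw [h0, zero_smul, zero_add] at hg
    have h1 : g 1 = 0 := (smul_eq_zero.mp hg).resolve_right hZ0
    intro i
    fin_cases i
    · exact h0
    · exact h1
    · exact h2
  have htop := hli.span_eq_top_of_card_eq_finrank' (by simp)
  have hu : u ∈ Submodule.span ℝ (Set.range ![z, Z, e]) := by rw [htop]; trivial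
  rw [Submodule.mem_span_range_iff_exists_fun] at hu
  obtain ⟨c, hc⟩ := hu
  simp only [Fin.sum_univ_three, Matrix.cons_val_zero, Matrix.cons_val_one,
    Matrix.cons_val_two, Matrix.head_cons, Matrix.tail_cons, Matrix.cons_val] at hc
  refine ⟨c 2, ?_⟩
  have : u - c 2 • e = c 0 • z + c 1 • Z := by rw [← hc]; module
  rw [this]
  exact Pp_lin hP hz' hZ' _ _

theorem decomp_unique {L : E3 → E3 → ℝ} (hP : PolarLin L)
    {v e : E3} (hv : ¬ Pp L v e) {u : E3} {t t' : ℝ} (h : Pp L v (u - t • e))
    (h' : Pp L v (u - t' • e)) : t = t' := by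
  by_contra hne
  apply hv
  have h1 := Pp_sub hP h' h
  have h2 : (u - t' • e) - (u - t • e) = (t - t') • e := by module
  rw [h2] at h1
  exact Pp_of_smul hP (sub_ne_zero.mpr hne) h1

theorem smul_right' {L : E3 → E3 → ℝ} (hL : EllipticPlane L) {v w : E3} (hv : v ≠ 0)
    (hw : w ≠ 0) {a : ℝ} (ha : 0 < a) : L v (a • w) = L v w := by
  rw [hL.symm v (a • w) hv (smul_ne_zero ha.ne' hw), hL.smul w v hw hv a ha,
    hL.symm w v hw hv]

theorem signS {L : E3 → E3 → ℝ} (hL : EllipticPlane L) (hP : PolarLin L) {v w e : E3}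
    (hv : v ≠ 0) (hw : Pp L v w) (he0 : e ≠ 0) (he : L v e < π / 2) {c : ℝ} (hc : 0 < c) :
    L v (w + c • e) < π / 2 := by
  have hne : ¬ Pp L v e := by
    intro h
    have := Pp_get h hv he0
    linarith
  have hnz : ∀ s : ℝ, s • w + c • e ≠ 0 := by
    intro s h
    apply hne
    apply Pp_of_smul hP hc.ne'
    have : c • e = (-s) • w := by
      have h2 : c • e = (s • w + c • e) + (-s) • w := by module
      rw [h2, h, zero_add]
    rw [this]
    exact Pp_smul hP hw _
  by_contra hcon
  push Not at hcon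
  have hcont : Continuous (fun s : ℝ => L v (s • w + c • e)) := by
    have h1 : Continuous (fun s : ℝ => ((v, s • w + c • e) : E3 × E3)) := by fun_prop
    exact hL.cont.comp_continuous h1 (fun s => ⟨hv, hnz s⟩)
  have hiv := intermediate_value_Icc (zero_le_one (α := ℝ)) hcont.continuousOn
  have h0 : L v ((0:ℝ) • w + c • e) < π / 2 := by
    rw [zero_smul, zero_add, smul_right' hL hv he0 hc]; exact he
  have h1 : π / 2 ≤ L v ((1:ℝ) • w + c • e) := by rw [one_smul]; exact hcon
  obtain ⟨s, -, hs⟩ := hiv ⟨h0.le, h1⟩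
  apply hne
  have h2 : Pp L v (s • w + c • e) := Or.inr (Or.inr hs)
  have h3 := Pp_sub hP h2 (Pp_smul hP hw s)
  have h4 : s • w + c • e - s • w = c • e := by module
  rw [h4] at h3
  exact Pp_of_smul hP hc.ne' h3

theorem polarForm_of (L : E3 → E3 → ℝ) (hL : EllipticPlane L) (hT : TriL L) (hP : PolarLin L)
    (hD : PolarDim L) (hE : PolarEx L) (hB : ProjOfLines) : PolarForm L := by
  obtain ⟨e0, he0⟩ : ∃ e : E3, e ≠ 0 := exists_ne 0
  obtain ⟨e1, he1, h01, -⟩ := hE e0 e0 he0 he0
  obtain ⟨e2, he2, h02, h12⟩ := hE e0 e1 he0 he1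
  have p01 : Pp L e0 e1 := Or.inr (Or.inr h01)
  have p02 : Pp L e0 e2 := Or.inr (Or.inr h02)
  have p12 : Pp L e1 e2 := Or.inr (Or.inr h12)
  have p10 := Pp_symm hL p01
  have p20 := Pp_symm hL p02
  have p21 := Pp_symm hL p12
  have hli : LinearIndependent ℝ ![e0, e1, e2] := by
    rw [Fintype.linearIndependent_iff]
    intro g hg
    simp only [Fin.sum_univ_three, Matrix.cons_val_zero, Matrix.cons_val_one,
      Matrix.cons_val_two, Matrix.head_cons, Matrix.tail_cons, Matrix.cons_val] at hg
    have h0 : g 0 = 0 := by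
      by_contra hne
      apply he0
      apply Pp_self hL
      apply Pp_of_smul hP hne
      have h3 : g 0 • e0 = (-g 1) • e1 + (-g 2) • e2 := by
        have : g 0 • e0 = (g 0 • e0 + g 1 • e1 + g 2 • e2) + ((-g 1) • e1 + (-g 2) • e2) := by
          module
        rw [this, hg, zero_add]
      rw [h3]
      exact Pp_lin hP p01 p02 _ _
    have h1 : g 1 = 0 := by
      by_contra hne
      apply he1
      apply Pp_self hL
      apply Pp_of_smul hP hne
      have h3 : g 1 • e1 = (-g 0) • e0 + (-g 2) • e2 := by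
        have : g 1 • e1 = (g 0 • e0 + g 1 • e1 + g 2 • e2) + ((-g 0) • e0 + (-g 2) • e2) := by
          module
        rw [this, hg, zero_add]
      rw [h3]
      exact Pp_lin hP p10 p12 _ _
    have h2 : g 2 = 0 := by
      by_contra hne
      apply he2
      apply Pp_self hL
      apply Pp_of_smul hP hne
      have h3 : g 2 • e2 = (-g 0) • e0 + (-g 1) • e1 := by
        have : g 2 • e2 = (g 0 • e0 + g 1 • e1 + g 2 • e2) + ((-g 0) • e0 + (-g 1) • e1) := by
          module
        rw [this, hg, zero_add]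
      rw [h3]
      exact Pp_lin hP p20 p21 _ _
    intro i
    fin_cases i
    · exact h0
    · exact h1
    · exact h2
  set v : ℝ × ℝ → E3 := fun X => e0 + X.1 • e1 + X.2 • e2 with hvdef
  have hvn : ∀ X, ¬ Pp L (v X) e0 := by
    intro X h
    apply he0
    apply Pp_self hL
    have h1 := Pp_symm hL h
    have h2 := Pp_sub hP h1 (Pp_lin hP p01 p02 X.1 X.2)
    have h3 : v X - (X.1 • e1 + X.2 • e2) = e0 := by simp only [hvdef]; module
    rwa [h3] at h2
  have hv0 : ∀ X, v X ≠ 0 := fun X h => hvn X (Or.inl h)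
  -- the affine coordinates
  choose xf hxf using fun (u : E3) (X : ℝ × ℝ) => decomp hL hP hE (hvn X) u
  have hxu : ∀ (u : E3) (X : ℝ × ℝ) (t : ℝ), Pp L (v X) (u - t • e0) → xf u X = t :=
    fun u X t h => decomp_unique hP (hvn X) (hxf u X) h
  -- L v e0 < pi / 2
  have hlt : ∀ X, L (v X) e0 < π / 2 := by
    intro X
    by_cases hX : X.1 • e1 + X.2 • e2 = 0
    · have : v X = e0 := by simp only [hvdef, add_assoc, hX, add_zero]
      rw [this, hL.self e0 he0]
      have := Real.pi_pos
      linarith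
    · have hp : Pp L e0 (X.1 • e1 + X.2 • e2) := Pp_lin hP p01 p02 _ _
      have hp' := Pp_get hp he0 hX
      have hi : LinearIndependent ℝ ![e0, X.1 • e1 + X.2 • e2] := by
        rw [LinearIndependent.pair_iff]
        intro s t hst
        have hs : s = 0 := by
          by_contra hne
          apply he0
          apply Pp_self hL
          apply Pp_of_smul hP hne
          have h3 : s • e0 = (-t) • (X.1 • e1 + X.2 • e2) := by
            have : s • e0 = (s • e0 + t • (X.1 • e1 + X.2 • e2))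
              + (-t) • (X.1 • e1 + X.2 • e2) := by module
            rw [this, hst, zero_add]
          rw [h3]
          exact Pp_smul hP hp _
        rw [hs, zero_smul, zero_add] at hst
        exact ⟨hs, (smul_eq_zero.mp hst).resolve_right hX⟩
      have hadd := hL.add e0 (X.1 • e1 + X.2 • e2) hi 1 1 one_pos one_pos
      have hv' : (1:ℝ) • e0 + (1:ℝ) • (X.1 • e1 + X.2 • e2) = v X := by
        simp only [hvdef]; module
      rw [hv', hp'] at hadd
      have hpos : 0 < L (v X) (X.1 • e1 + X.2 • e2) := by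
        apply hL.pos _ _ (hv0 X) hX
        intro hsr
        obtain ⟨r1, r2, hr1, hr2, hr⟩ := hsr.exists_pos (hv0 X) hX
        rw [Fintype.linearIndependent_iff] at hli
        have := hli ![r1, (r1 - r2) * X.1, (r1 - r2) * X.2] (by
          simp only [Fin.sum_univ_three, Matrix.cons_val_zero, Matrix.cons_val_one,
            Matrix.cons_val_two, Matrix.head_cons, Matrix.tail_cons, Matrix.cons_val]
          have h5 : r1 • e0 + ((r1 - r2) * X.1) • e1 + ((r1 - r2) * X.2) • e2
            = r1 • v X - r2 • (X.1 • e1 + X.2 • e2) := by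
            simp only [hvdef]; module
          rw [h5, hr, sub_self]) 0
        simp at this
        exact hr1.ne' this
      rw [hL.symm (v X) e0 (hv0 X) he0]
      linarith
  -- continuity
  have hvc : Continuous v := by simp only [hvdef]; fun_prop
  have hxc : ∀ u : E3, (∀ t : ℝ, u - t • e0 ≠ 0) → Continuous (xf u) := by
    intro u hu
    have hF : Continuous (fun p : (ℝ × ℝ) × ℝ => L (v p.1) (u - p.2 • e0)) := by
      have h1 : Continuous (fun p : (ℝ × ℝ) × ℝ => ((v p.1, u - p.2 • e0) : E3 × E3)) := by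
        fun_prop
      exact hL.cont.comp_continuous h1 (fun p => ⟨hv0 p.1, hu p.2⟩)
    rw [continuous_iff_continuousAt]
    intro X0
    rw [Metric.continuousAt_iff']
    intro ε hε
    have hε2 : 0 < ε / 2 := by linarith
    set x0 := xf u X0 with hx0
    have hw : Pp L (v X0) (u - x0 • e0) := hxf u X0
    have hA : L (v X0) (u - (x0 - ε / 2) • e0) < π / 2 := by
      have := signS hL hP (hv0 X0) hw he0 (hlt X0) hε2
      have h2 : u - x0 • e0 + (ε / 2) • e0 = u - (x0 - ε / 2) • e0 := by module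
      rwa [h2] at this
    have hBB : π / 2 < L (v X0) (u - (x0 + ε / 2) • e0) := by
      have hw' : Pp L (v X0) (-(u - x0 • e0)) := by
        have := Pp_smul hP hw (-1)
        simpa using this
      have h3 := signS hL hP (hv0 X0) hw' he0 (hlt X0) hε2
      have h2 : -(u - x0 • e0) + (ε / 2) • e0 = -(u - (x0 + ε / 2) • e0) := by module
      rw [h2, hL.neg _ _ (hv0 X0) (hu _)] at h3
      linarith
    have cA : Continuous (fun X : ℝ × ℝ => L (v X) (u - (x0 - ε / 2) • e0)) :=
      hF.comp (by fun_prop : Continuous (fun X : ℝ × ℝ => (X, x0 - ε / 2)))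
    have cB : Continuous (fun X : ℝ × ℝ => L (v X) (u - (x0 + ε / 2) • e0)) :=
      hF.comp (by fun_prop : Continuous (fun X : ℝ × ℝ => (X, x0 + ε / 2)))
    have eA := cA.continuousAt.eventually (gt_mem_nhds hA)
    have eB := cB.continuousAt.eventually (lt_mem_nhds hBB)
    filter_upwards [eA, eB] with X hXA hXB
    have hc : Continuous (fun t : ℝ => L (v X) (u - t • e0)) :=
      hF.comp (by fun_prop : Continuous (fun t : ℝ => (X, t)))
    have hiv := intermediate_value_Icc (by linarith : x0 - ε / 2 ≤ x0 + ε / 2) hc.continuousOn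
    obtain ⟨t, ht, hts⟩ := hiv ⟨hXA.le, hXB.le⟩
    have hxt : xf u X = t := hxu u X t (Or.inr (Or.inr hts))
    rw [hxt, Real.dist_eq, abs_lt]
    constructor <;> linarith [ht.1, ht.2]
  have hne1 : ∀ t : ℝ, e1 - t • e0 ≠ 0 := by
    intro t h
    rw [Fintype.linearIndependent_iff] at hli
    have := hli ![-t, 1, 0] (by
      simp only [Fin.sum_univ_three, Matrix.cons_val_zero, Matrix.cons_val_one,
        Matrix.cons_val_two, Matrix.head_cons, Matrix.tail_cons, Matrix.cons_val]
      rw [← h]; module) 1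
    simp at this
  have hne2 : ∀ t : ℝ, e2 - t • e0 ≠ 0 := by
    intro t h
    rw [Fintype.linearIndependent_iff] at hli
    have := hli ![-t, 0, 1] (by
      simp only [Fin.sum_univ_three, Matrix.cons_val_zero, Matrix.cons_val_one,
        Matrix.cons_val_two, Matrix.head_cons, Matrix.tail_cons, Matrix.cons_val]
      rw [← h]; module) 2
    simp at this
  -- membership criterion
  have hcrit : ∀ (a0 a1 a2 : ℝ) (X : ℝ × ℝ),
      (Pp L (v X) (a0 • e0 + a1 • e1 + a2 • e2) ↔ a0 + a1 * xf e1 X + a2 * xf e2 X = 0) := by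
    intro a0 a1 a2 X
    have hsplit : a0 • e0 + a1 • e1 + a2 • e2 = (a0 + a1 * xf e1 X + a2 * xf e2 X) • e0
        + (a1 • (e1 - xf e1 X • e0) + a2 • (e2 - xf e2 X • e0)) := by module
    have hq : Pp L (v X) (a1 • (e1 - xf e1 X • e0) + a2 • (e2 - xf e2 X • e0)) :=
      Pp_lin hP (hxf e1 X) (hxf e2 X) _ _
    constructor
    · intro h
      by_contra hne
      apply hvn X
      apply Pp_of_smul hP hne
      have := Pp_sub hP h hq
      rw [hsplit, add_sub_cancel_right] at this
      exact this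
    · intro h
      rw [hsplit, h, zero_smul, zero_add]
      exact hq
  -- apply the fundamental theorem
  obtain ⟨b, ρ, hbρ⟩ := hB Set.univ isOpen_univ convex_univ Set.univ_nonempty
    (fun i X => (![1, xf e1 X, xf e2 X] : Fin 3 → ℝ) i)
    (by
      intro i
      fin_cases i
      · exact continuousOn_const
      · exact (hxc e1 hne1).continuousOn
      · exact (hxc e2 hne2).continuousOn)
    (by intro X _; simp)
    (by
      intro a X _ Y _ _ hX hY Z _ hZ
      simp only [Fin.sum_univ_three, Matrix.cons_val_zero, Matrix.cons_val_one,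
        Matrix.cons_val_two, Matrix.head_cons, Matrix.tail_cons, Matrix.cons_val, mul_one]
        at hX hY ⊢
      rw [← hcrit] at hX hY ⊢
      obtain ⟨t, rfl⟩ := mem_affineSpan_pair_iff_exists_lineMap_eq.mp hZ
      have h1 := Pp_symm hL hX
      have h2 := Pp_symm hL hY
      apply Pp_symm hL
      have h3 := Pp_lin hP h1 h2 (1 - t) t
      have h4 : (1 - t) • v X + t • v Y = v (AffineMap.lineMap X Y t) := by
        simp only [hvdef, AffineMap.lineMap_apply, vsub_eq_sub, vadd_eq_add, Prod.fst_add,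
          Prod.snd_add, Prod.smul_fst, Prod.smul_snd, Prod.fst_sub, Prod.snd_sub, smul_eq_mul]
        module
      rwa [h4] at h3)
    (by
      intro a ha
      have ha' : ∀ X, Pp L (v X) (a 0 • e0 + a 1 • e1 + a 2 • e2) := by
        intro X
        rw [hcrit]
        have := ha X (Set.mem_univ X)
        simpa [Fin.sum_univ_three] using this
      set A := a 0 • e0 + a 1 • e1 + a 2 • e2 with hA
      have q0 : Pp L A e0 := by
        have := Pp_symm hL (ha' (0, 0))
        simpa [hvdef] using this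
      have q1 : Pp L A e1 := by
        have := Pp_sub hP (Pp_symm hL (ha' (1, 0))) q0
        simpa [hvdef] using this
      have q2 : Pp L A e2 := by
        have := Pp_sub hP (Pp_symm hL (ha' (0, 1))) q0
        simpa [hvdef] using this
      have hA0 : A = 0 := by
        apply Pp_self hL
        have h1 := Pp_lin hP q0 q1 (a 0) (a 1)
        have h2 := Pp_lin hP h1 q2 1 (a 2)
        have h3 : (1:ℝ) • (a 0 • e0 + a 1 • e1) + a 2 • e2 = A := by rw [hA]; module
        rwa [h3] at h2
      rw [Fintype.linearIndependent_iff] at hli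
      have := hli a (by simpa [Fin.sum_univ_three] using hA0)
      ext i
      exact this i)
  -- shape of x_1, x_2
  have hρ0 : ∀ X, ρ X * (b 0 0 + b 0 1 * X.1 + b 0 2 * X.2) = 1 := by
    intro X
    have := (hbρ X (Set.mem_univ X)).2 0
    simpa using this.symm
  have hpos0 : ∀ X : ℝ × ℝ, 0 < b 0 0 + b 0 1 * X.1 + b 0 2 * X.2 := by
    intro X
    by_contra hcon
    push Not at hcon
    have h1 := (hbρ X (Set.mem_univ X)).1
    have h2 := hρ0 X
    nlinarith
  have hb01 : b 0 1 = 0 := by
    by_contra hne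
    have := hpos0 (-(b 0 0) / b 0 1, 0)
    have h2 : b 0 0 + b 0 1 * (-(b 0 0) / b 0 1) + b 0 2 * 0 = 0 := by
      field_simp; ring
    simp only at this
    linarith
  have hb02 : b 0 2 = 0 := by
    by_contra hne
    have := hpos0 (0, -(b 0 0) / b 0 2)
    have h2 : b 0 0 + b 0 1 * 0 + b 0 2 * (-(b 0 0) / b 0 2) = 0 := by
      field_simp; ring
    simp only at this
    linarith
  have hb00 : 0 < b 0 0 := by
    have := hpos0 (0, 0)
    simpa using this
  have hρc : ∀ X, ρ X = (b 0 0)⁻¹ := by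
    intro X
    have := hρ0 X
    rw [hb01, hb02] at this
    field_simp
    linarith
  have hx1 : ∀ X, xf e1 X = (b 0 0)⁻¹ * (b 1 0 + b 1 1 * X.1 + b 1 2 * X.2) := by
    intro X
    have := (hbρ X (Set.mem_univ X)).2 1
    rw [hρc] at this
    simpa using this
  have hx2 : ∀ X, xf e2 X = (b 0 0)⁻¹ * (b 2 0 + b 2 1 * X.1 + b 2 2 * X.2) := by
    intro X
    have := (hbρ X (Set.mem_univ X)).2 2
    rw [hρc] at this
    simpa using this
  have hx1z : ∀ y : ℝ, xf e1 (0, y) = 0 := by
    intro y
    apply hxu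
    rw [zero_smul, sub_zero]
    apply Pp_symm hL
    have := Pp_lin hP p10 p12 1 y
    simpa [hvdef] using this
  have hx2z : ∀ y : ℝ, xf e2 (y, 0) = 0 := by
    intro y
    apply hxu
    rw [zero_smul, sub_zero]
    apply Pp_symm hL
    have := Pp_lin hP p20 p21 1 y
    simpa [hvdef] using this
  obtain ⟨q, hq⟩ : ∃ q : ℝ, ∀ X : ℝ × ℝ, xf e1 X = q * X.1 := by
    refine ⟨(b 0 0)⁻¹ * b 1 1, fun X => ?_⟩
    have h1 := hx1z 0
    have h2 := hx1z 1
    rw [hx1] at h1 h2
    simp only [mul_zero, add_zero, mul_one] at h1 h2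
    rw [hx1]
    linear_combination h1 + X.2 * (h2 - h1)
  obtain ⟨r, hr⟩ : ∃ r : ℝ, ∀ X : ℝ × ℝ, xf e2 X = r * X.2 := by
    refine ⟨(b 0 0)⁻¹ * b 2 2, fun X => ?_⟩
    have h1 := hx2z 0
    have h2 := hx2z 1
    rw [hx2] at h1 h2
    simp only [mul_zero, add_zero, mul_one] at h1 h2
    rw [hx2]
    linear_combination h1 + X.1 * (h2 - h1)
  have hqpos : 0 < q := by
    by_contra hcon
    push Not at hcon
    rcases hcon.lt_or_eq with hlt' | h0
    · have hs : 0 < Real.sqrt (-q) := Real.sqrt_pos.mpr (by linarith)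
      have hs2 : Real.sqrt (-q) ^ 2 = -q := Real.sq_sqrt (by linarith)
      apply hv0 (1 / Real.sqrt (-q), 0)
      apply Pp_self hL
      have := (hcrit 1 (1 / Real.sqrt (-q)) 0 (1 / Real.sqrt (-q), 0)).2 (by
        rw [hq]
        simp only
        have : 1 / Real.sqrt (-q) * (q * (1 / Real.sqrt (-q))) = q / Real.sqrt (-q) ^ 2 := by
          field_simp
        rw [this, hs2]
        have hqn : q ≠ 0 := hlt'.ne
        field_simp
        ring)
      have h2 : (1:ℝ) • e0 + (1 / Real.sqrt (-q)) • e1 + (0:ℝ) • e2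
          = v (1 / Real.sqrt (-q), 0) := by simp [hvdef]
      rwa [h2] at this
    · apply he1
      apply Pp_self hL
      have := (hcrit 0 1 0 (1, 0)).2 (by rw [hq, h0]; ring)
      have h2 : Pp L e1 (v (1, 0)) := by
        have := Pp_symm hL this
        simpa using this
      have := Pp_sub hP h2 p10
      simpa [hvdef] using this
  have hrpos : 0 < r := by
    by_contra hcon
    push Not at hcon
    rcases hcon.lt_or_eq with hlt' | h0
    · have hs : 0 < Real.sqrt (-r) := Real.sqrt_pos.mpr (by linarith)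
      have hs2 : Real.sqrt (-r) ^ 2 = -r := Real.sq_sqrt (by linarith)
      apply hv0 (0, 1 / Real.sqrt (-r))
      apply Pp_self hL
      have := (hcrit 1 0 (1 / Real.sqrt (-r)) (0, 1 / Real.sqrt (-r))).2 (by
        rw [hr]
        simp only
        have : 1 / Real.sqrt (-r) * (r * (1 / Real.sqrt (-r))) = r / Real.sqrt (-r) ^ 2 := by
          field_simp
        rw [this, hs2]
        have hqn : r ≠ 0 := hlt'.ne
        field_simp
        ring)
      have h2 : (1:ℝ) • e0 + (0:ℝ) • e1 + (1 / Real.sqrt (-r)) • e2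
          = v (0, 1 / Real.sqrt (-r)) := by simp [hvdef]
      rwa [h2] at this
    · apply he2
      apply Pp_self hL
      have := (hcrit 0 0 1 (0, 1)).2 (by rw [hr, h0]; ring)
      have h2 : Pp L e2 (v (0, 1)) := by
        have := Pp_symm hL this
        simpa using this
      have := Pp_sub hP h2 p20
      simpa [hvdef] using this
  -- the form
  have hform0 : ∀ a0 a1 a2 c0 c1 c2 : ℝ, a0 ≠ 0 →
      (Pp L (a0 • e0 + a1 • e1 + a2 • e2) (c0 • e0 + c1 • e1 + c2 • e2) ↔
        a0 * c0 + q * (a1 * c1) + r * (a2 * c2) = 0) := by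
    intro a0 a1 a2 c0 c1 c2 ha
    have h1 : a0 • e0 + a1 • e1 + a2 • e2 = a0 • v (a1 / a0, a2 / a0) := by
      simp only [hvdef, smul_add, smul_smul]
      rw [mul_div_cancel₀ _ ha, mul_div_cancel₀ _ ha]
    have h2 : Pp L (a0 • e0 + a1 • e1 + a2 • e2) (c0 • e0 + c1 • e1 + c2 • e2) ↔
        Pp L (v (a1 / a0, a2 / a0)) (c0 • e0 + c1 • e1 + c2 • e2) := by
      rw [h1]
      constructor
      · intro h
        exact Pp_symm hL (Pp_of_smul hP ha (Pp_symm hL h))
      · intro h
        exact Pp_symm hL (Pp_smul hP (Pp_symm hL h) _)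
    rw [h2, hcrit, hq, hr]
    simp only
    constructor
    · intro h
      have : a0 * (c0 + c1 * (q * (a1 / a0)) + c2 * (r * (a2 / a0))) = 0 := by rw [h, mul_zero]
      field_simp at this
      linear_combination this
    · intro h
      have h3 : c0 + c1 * (q * (a1 / a0)) + c2 * (r * (a2 / a0))
        = (a0 * c0 + q * (a1 * c1) + r * (a2 * c2)) / a0 := by
        field_simp
      rw [h3, h, zero_div]
  have hform : ∀ a0 a1 a2 c0 c1 c2 : ℝ,
      (Pp L (a0 • e0 + a1 • e1 + a2 • e2) (c0 • e0 + c1 • e1 + c2 • e2) ↔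
        a0 * c0 + q * (a1 * c1) + r * (a2 * c2) = 0) := by
    intro a0 a1 a2 c0 c1 c2
    by_cases ha : a0 = 0
    · by_cases hc : c0 = 0
      · subst ha; subst hc
        have hsym : Pp L ((0:ℝ) • e0 + a1 • e1 + a2 • e2) ((0:ℝ) • e0 + c1 • e1 + c2 • e2) ↔
            Pp L ((1:ℝ) • e0 + c1 • e1 + c2 • e2) ((0:ℝ) • e0 + a1 • e1 + a2 • e2) := by
          have hv' : Pp L ((0:ℝ) • e0 + a1 • e1 + a2 • e2) e0 := by
            apply Pp_symm hL
            have := Pp_lin hP p01 p02 a1 a2
            simpa using this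
          constructor
          · intro h
            apply Pp_symm hL
            have := Pp_add hP hv' h
            have h5 : e0 + ((0:ℝ) • e0 + c1 • e1 + c2 • e2)
              = (1:ℝ) • e0 + c1 • e1 + c2 • e2 := by module
            rwa [h5] at this
          · intro h
            have := Pp_sub hP (Pp_symm hL h) hv'
            have h5 : (1:ℝ) • e0 + c1 • e1 + c2 • e2 - e0
              = (0:ℝ) • e0 + c1 • e1 + c2 • e2 := by module
            rwa [h5] at this
        rw [hsym, hform0 1 c1 c2 0 a1 a2 one_ne_zero]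
        constructor <;> intro h <;> linear_combination h
      · constructor
        · intro h
          have := (hform0 c0 c1 c2 a0 a1 a2 hc).1 (Pp_symm hL h)
          linear_combination this
        · intro h
          apply Pp_symm hL
          apply (hform0 c0 c1 c2 a0 a1 a2 hc).2
          linear_combination h
    · exact hform0 a0 a1 a2 c0 c1 c2 ha
  -- construct T
  set B := basisOfLinearIndependentOfCardEqFinrank hli (by simp) with hBdef
  have hBe : ∀ i, B i = ![e0, e1, e2] i := by
    intro i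
    rw [hBdef, coe_basisOfLinearIndependentOfCardEqFinrank]
  have hrep : ∀ w : E3, w = B.equivFun w 0 • e0 + B.equivFun w 1 • e1 + B.equivFun w 2 • e2 := by
    intro w
    have := B.sum_equivFun w
    rw [Fin.sum_univ_three, hBe, hBe, hBe] at this
    simpa using this.symm
  set s : Fin 3 → ℝ := ![1, Real.sqrt q, Real.sqrt r] with hs
  have hs0 : ∀ i, s i ≠ 0 := by
    intro i
    fin_cases i
    · simp [hs]
    · simpa [hs] using (Real.sqrt_pos.mpr hqpos).ne'
    · simpa [hs] using (Real.sqrt_pos.mpr hrpos).ne'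
  set T : E3 ≃ₗ[ℝ] E3 := (B.equivFun.trans (LinearEquiv.piCongrRight
    (fun i => LinearEquiv.smulOfNeZero ℝ ℝ (s i) (hs0 i)))).trans
    (WithLp.linearEquiv 2 ℝ (Fin 3 → ℝ)).symm with hTdef
  have hTi : ∀ (x : E3) (i : Fin 3), (T x) i = s i * B.equivFun x i := fun x i => rfl
  refine ⟨T, fun x y hx hy => ?_⟩
  have key : L x y = π / 2 ↔ Pp L x y := by
    constructor
    · intro h; exact Or.inr (Or.inr h)
    · intro h; exact Pp_get h hx hy
  rw [key]
  conv_lhs => rw [hrep x, hrep y]
  rw [hform]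
  have hq2 : Real.sqrt q * Real.sqrt q = q := Real.mul_self_sqrt hqpos.le
  have hr2 : Real.sqrt r * Real.sqrt r = r := Real.mul_self_sqrt hrpos.le
  rw [PiLp.inner_apply, Fin.sum_univ_three]
  simp only [hTi, RCLike.inner_apply, conj_trivial]
  have e1' : s 0 = 1 := rfl
  have e2' : s 1 = Real.sqrt q := rfl
  have e3' : s 2 = Real.sqrt r := rfl
  rw [e1', e2', e3']
  constructor
  · intro h
    linear_combination h + (B.equivFun x 1 * B.equivFun y 1) * hq2
      + (B.equivFun x 2 * B.equivFun y 2) * hr2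
  · intro h
    linear_combination h - (B.equivFun x 1 * B.equivFun y 1) * hq2
      - (B.equivFun x 2 * B.equivFun y 2) * hr2

end Pool.Agent.Helper87.Elliptic
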