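import Pool.Agent.Helper87.ThalesEllDefs

set_option autoImplicit false

open Real Filter Topology

namespace Pool.Agent.Helper87.Elliptic

theorem lin_pair (x y : E3) (hx : x ≠ 0) (hy : y ≠ 0) (hxy : inner ℝ x y = 0) :
    LinearIndependent ℝ ![x, y] := by
  rw [LinearIndependent.pair_iff]
  intro s t hst
  have hx2 : inner ℝ x x ≠ 0 := fun h => hx (inner_self_eq_zero.mp h)
  have hy2 : inner ℝ y y ≠ 0 := fun h => hy (inner_self_eq_zero.mp h)
  have h1 : inner ℝ x (s • x + t • y) = 0 := by rw [hst, inner_zero_right]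
  have h2 : inner ℝ y (s • x + t • y) = 0 := by rw [hst, inner_zero_right]
  rw [inner_add_right, inner_smul_right, inner_smul_right, hxy] at h1
  rw [inner_add_right, inner_smul_right, inner_smul_right, real_inner_comm, hxy] at h2
  constructor
  · have : s * inner ℝ x x = 0 := by linarith
    exact (mul_eq_zero.mp this).resolve_right hx2
  · have : t * inner ℝ y y = 0 := by linarith
    exact (mul_eq_zero.mp this).resolve_right hy2

theorem L_nonneg (L : E3 → E3 → ℝ) (hL : EllipticPlane L) (hT : TriL L) (v w : E3)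
    (hv : v ≠ 0) (hw : w ≠ 0) : 0 ≤ L v w := by
  have h1 := hT v w v hv hw hv
  rw [hL.self v hv, hL.symm w v hw hv] at h1
  linarith

theorem foot (L : E3 → E3 → ℝ) (hL : EllipticPlane L) (hT : TriL L)
    (hperp : ∀ v w, v ≠ 0 → w ≠ 0 → (L v w = π / 2 ↔ inner ℝ v w = 0))
    (N v u : E3) (hN : ‖N‖ = 1) (hNv : inner ℝ N v = 0) (hNu : inner ℝ N u = 0)
    (hvu : inner ℝ v u = 0) : L N (N + v) ≤ L N (N + v + u) := by
  have hNN : inner ℝ N N = (1 : ℝ) := by rw [real_inner_self_eq_norm_sq, hN]; norm_num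
  have hN0 : N ≠ 0 := by
    rintro rfl; simp at hN
  have hZ0 : N + v + u ≠ 0 := by
    intro h
    have : inner ℝ N (N + v + u) = (1 : ℝ) := by
      rw [inner_add_right, inner_add_right, hNN, hNv, hNu]; ring
    rw [h, inner_zero_right] at this
    exact zero_ne_one this
  by_cases hv : v = 0
  · subst hv
    rw [add_zero, hL.self N hN0]
    rw [add_zero] at hZ0
    exact L_nonneg L hL hT N _ hN0 hZ0
  have hvv : 0 < inner ℝ v v := real_inner_self_pos.mpr hv
  set c : ℝ := inner ℝ v v with hc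
  have hY0 : N + v ≠ 0 := by
    intro h
    have : inner ℝ N (N + v) = (1 : ℝ) := by
      rw [inner_add_right, hNN, hNv]; ring
    rw [h, inner_zero_right] at this
    exact zero_ne_one this
  have hvN : inner ℝ v N = (0 : ℝ) := by rw [real_inner_comm]; exact hNv
  have hM0 : c • N - v ≠ 0 := by
    intro h
    have : inner ℝ N (c • N - v) = c := by
      rw [inner_sub_right, inner_smul_right, hNN, hNv]; ring
    rw [h, inner_zero_right] at this
    linarith
  have hMY : inner ℝ (c • N - v) (N + v) = (0 : ℝ) := by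
    rw [inner_sub_left, inner_smul_left, inner_add_right, inner_add_right, hNN, hNv, hvN, ← hc]
    simp
  have hMu : inner ℝ (c • N - v) u = (0 : ℝ) := by
    rw [inner_sub_left, inner_smul_left, hNu, hvu]; simp
  have hMZ : inner ℝ (c • N - v) (N + v + u) = (0 : ℝ) := by
    rw [inner_add_right, hMY, hMu]; ring
  have e1 := (hperp _ _ hM0 hY0).mpr hMY
  have e2 := (hperp _ _ hM0 hZ0).mpr hMZ
  have hli := lin_pair _ _ hM0 hY0 hMY
  have h1c : (0 : ℝ) < 1 + c := by linarith
  have e3 := hL.add (c • N - v) (N + v) hli (1 / (1 + c)) (1 / (1 + c)) (by positivity)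
    (by positivity)
  have e4 : (1 / (1 + c)) • (c • N - v) + (1 / (1 + c)) • (N + v) = N := by
    rw [← smul_add]
    have : c • N - v + (N + v) = (1 + c) • N := by
      rw [add_smul, one_smul]; abel
    rw [this, smul_smul, one_div, inv_mul_cancel₀ h1c.ne', one_smul]
  rw [e4] at e3
  have e5 := hT (c • N - v) N (N + v + u) hM0 hN0 hZ0
  linarith

/-- the point of the circle -/
noncomputable def qq (f g : E3) (r t : ℝ) : E3 := (r * cos t) • f + (r * sin t) • g

theorem step (L : E3 → E3 → ℝ) (hL : EllipticPlane L) (hT : TriL L)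
    (hperp : ∀ v w, v ≠ 0 → w ≠ 0 → (L v w = π / 2 ↔ inner ℝ v w = 0))
    (N f g : E3) (hN : ‖N‖ = 1) (hNf : inner ℝ N f = 0) (hNg : inner ℝ N g = 0)
    (hfg : inner ℝ f g = 0) (hf : inner ℝ f f = (1 : ℝ)) (hg : inner ℝ g g = (1 : ℝ))
    (r t δ : ℝ) (hδ : cos δ ≠ 0) :
    L N (N + qq f g r t) ≤ L N (N + qq f g (r / cos δ) (t + δ)) := by
  have hgf : inner ℝ g f = (0 : ℝ) := by rw [real_inner_comm]; exact hfg
  have h1 := foot L hL hT hperp N (qq f g r t)
    ((r * (sin δ / cos δ)) • (- (sin t) • f + cos t • g)) hN ?_ ?_ ?_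
  · have e : N + qq f g (r / cos δ) (t + δ) = N + qq f g r t +
        (r * (sin δ / cos δ)) • (- (sin t) • f + cos t • g) := by
      rw [add_assoc]
      congr 1
      unfold qq
      rw [cos_add, sin_add]
      have e1 : r / cos δ * (cos t * cos δ - sin t * sin δ) =
          r * cos t + (r * (sin δ / cos δ)) * (- sin t) := by field_simp; ring
      have e2 : r / cos δ * (sin t * cos δ + cos t * sin δ) =
          r * sin t + (r * (sin δ / cos δ)) * (cos t) := by field_simp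
      rw [e1, e2]
      module
    rw [e]; exact h1
  · unfold qq
    rw [inner_add_right, inner_smul_right, inner_smul_right, hNf, hNg]; ring
  · rw [inner_smul_right, inner_add_right, inner_smul_right, inner_smul_right, hNf, hNg]; ring
  · unfold qq
    simp only [inner_smul_right, inner_add_right, inner_add_left, inner_smul_left, hfg, hgf, hf, hg,
      RCLike.conj_to_real]
    ring

theorem iter (L : E3 → E3 → ℝ) (hL : EllipticPlane L) (hT : TriL L)
    (hperp : ∀ v w, v ≠ 0 → w ≠ 0 → (L v w = π / 2 ↔ inner ℝ v w = 0))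
    (N f g : E3) (hN : ‖N‖ = 1) (hNf : inner ℝ N f = 0) (hNg : inner ℝ N g = 0)
    (hfg : inner ℝ f g = 0) (hf : inner ℝ f f = (1 : ℝ)) (hg : inner ℝ g g = (1 : ℝ))
    (r t δ : ℝ) (hδ : cos δ ≠ 0) (n : ℕ) :
    L N (N + qq f g r t) ≤ L N (N + qq f g (r / cos δ ^ n) (t + n * δ)) := by
  induction n with
  | zero => simp
  | succ n ih =>
    refine ih.trans ?_
    have := step L hL hT hperp N f g hN hNf hNg hfg hf hg (r / cos δ ^ n) (t + n * δ) δ hδ
    have e1 : r / cos δ ^ (n + 1) = r / cos δ ^ n / cos δ := by rw [pow_succ, div_div]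
    have e2 : t + ((n + 1 : ℕ) : ℝ) * δ = t + n * δ + δ := by push_cast; ring
    rw [e1, e2]; exact this

theorem tendsto_cos_pow (α : ℝ) :
    Tendsto (fun n : ℕ => cos (α / (n + 1 : ℕ)) ^ (n + 1)) atTop (𝓝 1) := by
  have hlow : ∀ᶠ n : ℕ in atTop, 1 - α ^ 2 / 2 * (1 / ((n : ℝ) + 1)) ≤
      cos (α / (n + 1 : ℕ)) ^ (n + 1) := by
    have h0 : Tendsto (fun n : ℕ => α ^ 2 / 2 * (1 / ((n : ℝ) + 1))) atTop (𝓝 0) := by
      simpa using (tendsto_one_div_add_atTop_nhds_zero_nat (𝕜 := ℝ)).const_mul (α ^ 2 / 2)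
    filter_upwards [h0.eventually (ge_mem_nhds (show (0 : ℝ) < 1 by norm_num))] with n hn
    have hn0 : (0 : ℝ) < (n : ℝ) + 1 := by positivity
    set x : ℝ := α / (n + 1 : ℕ) with hx
    have hx2 : x ^ 2 / 2 = α ^ 2 / 2 * (1 / ((n : ℝ) + 1)) * (1 / ((n : ℝ) + 1)) := by
      rw [hx]; push_cast; field_simp
    have h1 : (1 / ((n : ℝ) + 1)) ≤ 1 := by
      rw [div_le_one hn0]; have : (0 : ℝ) ≤ n := Nat.cast_nonneg n
      linarith
    have hpos : 0 ≤ α ^ 2 / 2 * (1 / ((n : ℝ) + 1)) := by positivity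
    have hx3 : x ^ 2 / 2 ≤ 1 := by
      rw [hx2]
      calc α ^ 2 / 2 * (1 / ((n : ℝ) + 1)) * (1 / ((n : ℝ) + 1)) ≤ 1 * 1 :=
            mul_le_mul hn h1 (by positivity) (by norm_num)
        _ = 1 := by norm_num
    have h2 := one_add_mul_le_pow (a := - (x ^ 2 / 2)) (by linarith) (n + 1)
    have h3 : (1 + - (x ^ 2 / 2)) ^ (n + 1) ≤ cos x ^ (n + 1) := by
      apply pow_le_pow_left₀ (by linarith)
      have := Real.one_sub_sq_div_two_le_cos (x := x)
      linarith
    refine le_trans ?_ (h2.trans h3)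
    push_cast
    rw [hx2]
    have : ((n : ℝ) + 1) * -(α ^ 2 / 2 * (1 / ((n : ℝ) + 1)) * (1 / ((n : ℝ) + 1))) =
        - (α ^ 2 / 2 * (1 / ((n : ℝ) + 1))) := by field_simp
    rw [this]; linarith
  have hhigh : ∀ᶠ n : ℕ in atTop, cos (α / (n + 1 : ℕ)) ^ (n + 1) ≤ 1 := by
    filter_upwards with n
    calc cos (α / (n + 1 : ℕ)) ^ (n + 1) ≤ |cos (α / (n + 1 : ℕ))| ^ (n + 1) := by
          rw [← abs_pow]; exact le_abs_self _
      _ ≤ 1 := pow_le_one₀ (abs_nonneg _) (Real.abs_cos_le_one _)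
  have h0 : Tendsto (fun n : ℕ => 1 - α ^ 2 / 2 * (1 / ((n : ℝ) + 1))) atTop (𝓝 1) := by
    simpa using ((tendsto_one_div_add_atTop_nhds_zero_nat (𝕜 := ℝ)).const_mul
      (α ^ 2 / 2)).const_sub 1
  exact tendsto_of_tendsto_of_tendsto_of_le_of_le' h0 tendsto_const_nhds hlow hhigh

theorem N_add_ne (N x : E3) (hN : ‖N‖ = 1) (hx : inner ℝ N x = 0) : N + x ≠ 0 := by
  intro h
  have : inner ℝ N (N + x) = (1 : ℝ) := by
    rw [inner_add_right, real_inner_self_eq_norm_sq, hN, hx]; norm_num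
  rw [h, inner_zero_right] at this
  exact zero_ne_one this

theorem inner_qq (N f g : E3) (hNf : inner ℝ N f = 0) (hNg : inner ℝ N g = 0) (r t : ℝ) :
    inner ℝ N (qq f g r t) = 0 := by
  unfold qq
  rw [inner_add_right, inner_smul_right, inner_smul_right, hNf, hNg]; ring

theorem rot_le (L : E3 → E3 → ℝ) (hL : EllipticPlane L) (hT : TriL L)
    (hperp : ∀ v w, v ≠ 0 → w ≠ 0 → (L v w = π / 2 ↔ inner ℝ v w = 0))
    (N f g : E3) (hN : ‖N‖ = 1) (hNf : inner ℝ N f = 0) (hNg : inner ℝ N g = 0)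
    (hfg : inner ℝ f g = 0) (hf : inner ℝ f f = (1 : ℝ)) (hg : inner ℝ g g = (1 : ℝ))
    (r t α : ℝ) :
    L N (N + qq f g r t) ≤ L N (N + qq f g r (t + α)) := by
  have hN0 : N ≠ 0 := by
    rintro rfl; simp at hN
  have hcont : ContinuousAt (fun s : ℝ => L N (N + qq f g s (t + α))) r := by
    have hopen : IsOpen {p : E3 × E3 | p.1 ≠ 0 ∧ p.2 ≠ 0} := by
      have h1 : IsOpen {p : E3 × E3 | p.1 ≠ 0} := isOpen_ne.preimage continuous_fst
      have h2 : IsOpen {p : E3 × E3 | p.2 ≠ 0} := isOpen_ne.preimage continuous_snd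
      exact h1.inter h2
    have h3 : ContinuousAt (fun p : E3 × E3 => L p.1 p.2) (N, N + qq f g r (t + α)) :=
      hL.cont.continuousAt (hopen.mem_nhds
        ⟨hN0, N_add_ne N _ hN (inner_qq N f g hNf hNg _ _)⟩)
    have h4 : ContinuousAt (fun s : ℝ => ((N, N + qq f g s (t + α)) : E3 × E3)) r := by
      unfold qq
      fun_prop
    exact ContinuousAt.comp (f := fun s : ℝ => ((N, N + qq f g s (t + α)) : E3 × E3)) h3 h4
  have hlim : Tendsto (fun n : ℕ => r / cos (α / (n + 1 : ℕ)) ^ (n + 1)) atTop (𝓝 r) := by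
    have := (tendsto_cos_pow α).inv₀ one_ne_zero
    have h2 := this.const_mul r
    simpa [div_eq_mul_inv] using h2
  have hlim2 := hcont.tendsto.comp hlim
  refine ge_of_tendsto hlim2 ?_
  have hne : ∀ᶠ n : ℕ in atTop, cos (α / (n + 1 : ℕ)) ^ (n + 1) ≠ 0 := by
    filter_upwards [(tendsto_cos_pow α).eventually_ne one_ne_zero] with n hn
    exact hn
  filter_upwards [hne] with n hn
  have hδ : cos (α / (n + 1 : ℕ)) ≠ 0 := fun h => hn (by rw [h]; exact zero_pow (by omega))
  have := iter L hL hT hperp N f g hN hNf hNg hfg hf hg r t (α / (n + 1 : ℕ)) hδ (n + 1)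
  have e : t + ((n + 1 : ℕ) : ℝ) * (α / (n + 1 : ℕ)) = t + α := by
    have : ((n + 1 : ℕ) : ℝ) ≠ 0 := by positivity
    field_simp
  rw [e] at this
  exact this

theorem rot_eq (L : E3 → E3 → ℝ) (hL : EllipticPlane L) (hT : TriL L)
    (hperp : ∀ v w, v ≠ 0 → w ≠ 0 → (L v w = π / 2 ↔ inner ℝ v w = 0))
    (N f g : E3) (hN : ‖N‖ = 1) (hNf : inner ℝ N f = 0) (hNg : inner ℝ N g = 0)
    (hfg : inner ℝ f g = 0) (hf : inner ℝ f f = (1 : ℝ)) (hg : inner ℝ g g = (1 : ℝ))
    (r t α : ℝ) :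
    L N (N + qq f g r t) = L N (N + qq f g r (t + α)) := by
  apply le_antisymm
  · exact rot_le L hL hT hperp N f g hN hNf hNg hfg hf hg r t α
  · have := rot_le L hL hT hperp N f g hN hNf hNg hfg hf hg r (t + α) (-α)
    rwa [add_neg_cancel_right] at this

theorem exists_unit_orth (N f : E3) : ∃ g : E3, inner ℝ g g = (1 : ℝ) ∧ inner ℝ N g = (0 : ℝ) ∧
    inner ℝ f g = (0 : ℝ) := by
  classical
  set K : Submodule ℝ E3 := Submodule.span ℝ {N, f} with hK
  have hKtop : K ≠ ⊤ := by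
    intro h
    have h1 : Module.finrank ℝ K ≤ 2 := by
      have h2 : ({N, f} : Set E3) = ((({N, f} : Finset E3)) : Set E3) := by simp
      rw [hK, h2]
      exact (finrank_span_finset_le_card _).trans Finset.card_le_two
    rw [h, finrank_top, finrank_euclideanSpace_fin] at h1
    omega
  have hKo : Kᗮ ≠ ⊥ := fun h => hKtop (Submodule.orthogonal_eq_bot_iff.mp h)
  obtain ⟨g, hg, hg0⟩ := Submodule.exists_mem_ne_zero_of_ne_bot hKo
  have hgn : ‖g‖ ≠ 0 := norm_ne_zero_iff.mpr hg0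
  refine ⟨‖g‖⁻¹ • g, ?_, ?_, ?_⟩
  · rw [inner_smul_left, inner_smul_right, real_inner_self_eq_norm_sq, RCLike.conj_to_real]
    field_simp
  · rw [inner_smul_right, (Submodule.mem_orthogonal K g).mp hg N
      (Submodule.subset_span (by simp)), mul_zero]
  · rw [inner_smul_right, (Submodule.mem_orthogonal K g).mp hg f
      (Submodule.subset_span (by simp)), mul_zero]

theorem rot_of (L : E3 → E3 → ℝ) (hL : EllipticPlane L) (hT : TriL L)
    (hperp : ∀ v w, v ≠ 0 → w ≠ 0 → (L v w = π / 2 ↔ inner ℝ v w = 0)) :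
    ∀ N v w : E3, ‖N‖ = 1 → inner ℝ N v = 0 → inner ℝ N w = 0 → ‖v‖ = ‖w‖ →
      L N (N + v) = L N (N + w) := by
  intro N v w hN hNv hNw hvw
  by_cases hv : v = 0
  · subst hv
    rw [norm_zero] at hvw
    have : w = 0 := norm_eq_zero.mp hvw.symm
    rw [this]
  have hr : ‖v‖ ≠ 0 := norm_ne_zero_iff.mpr hv
  set r : ℝ := ‖v‖ with hrdef
  set f : E3 := r⁻¹ • v with hf
  have hff : inner ℝ f f = (1 : ℝ) := by
    rw [hf, inner_smul_left, inner_smul_right, real_inner_self_eq_norm_sq, RCLike.conj_to_real,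
      ← hrdef]
    field_simp
  have hNf : inner ℝ N f = (0 : ℝ) := by rw [hf, inner_smul_right, hNv, mul_zero]
  have hvf : v = r • f := by rw [hf, smul_smul, mul_inv_cancel₀ hr, one_smul]
  have hfN : inner ℝ f N = (0 : ℝ) := by rw [real_inner_comm]; exact hNf
  -- decompose w
  obtain ⟨g, s, hg1, hg2, hg3, hw⟩ : ∃ (g : E3) (s : ℝ), inner ℝ g g = (1 : ℝ) ∧
      inner ℝ N g = (0 : ℝ) ∧ inner ℝ f g = (0 : ℝ) ∧ w = (inner ℝ f w : ℝ) • f + s • g := by
    by_cases hw' : w - (inner ℝ f w : ℝ) • f = 0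
    · obtain ⟨g, h1, h2, h3⟩ := exists_unit_orth N f
      refine ⟨g, 0, h1, h2, h3, ?_⟩
      rw [zero_smul, add_zero]
      exact sub_eq_zero.mp hw'
    · set w' : E3 := w - (inner ℝ f w : ℝ) • f with hw'def
      have hw'n : ‖w'‖ ≠ 0 := norm_ne_zero_iff.mpr hw'
      refine ⟨‖w'‖⁻¹ • w', ‖w'‖, ?_, ?_, ?_, ?_⟩
      · rw [inner_smul_left, inner_smul_right, real_inner_self_eq_norm_sq, RCLike.conj_to_real]
        field_simp
      · rw [inner_smul_right, hw'def, inner_sub_right, inner_smul_right, hNf, hNw]; ring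
      · rw [inner_smul_right, hw'def, inner_sub_right, inner_smul_right, hff]; ring
      · rw [smul_inv_smul₀ hw'n, hw'def]; abel
  have hgf : inner ℝ g f = (0 : ℝ) := by rw [real_inner_comm]; exact hg3
  set c : ℝ := inner ℝ f w with hc
  have hcs : c ^ 2 + s ^ 2 = r ^ 2 := by
    have h1 : inner ℝ w w = r ^ 2 := by rw [real_inner_self_eq_norm_sq, ← hvw]
    rw [← h1, hw]
    simp only [inner_smul_right, inner_add_right, inner_add_left, inner_smul_left, hg3, hgf, hff,
      hg1, RCLike.conj_to_real]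
    ring
  have hnorm : ‖(⟨c / r, s / r⟩ : ℂ)‖ = 1 := by
    rw [Complex.norm_eq_sqrt_sq_add_sq]
    simp only
    rw [div_pow, div_pow, ← add_div, hcs, div_self (pow_ne_zero 2 hr), Real.sqrt_one]
  obtain ⟨θ, hθ⟩ := (Complex.norm_eq_one_iff _).mp hnorm
  have hre : cos θ = c / r := by
    have := congrArg Complex.re hθ
    rwa [Complex.exp_ofReal_mul_I_re] at this
  have him : sin θ = s / r := by
    have := congrArg Complex.im hθ
    rwa [Complex.exp_ofReal_mul_I_im] at this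
  have e1 : v = qq f g r 0 := by
    unfold qq
    rw [cos_zero, sin_zero, mul_one, mul_zero, zero_smul, add_zero]; exact hvf
  have e2 : w = qq f g r (0 + θ) := by
    unfold qq
    rw [zero_add, hre, him, mul_div_cancel₀ _ hr, mul_div_cancel₀ _ hr]; exact hw
  rw [e1]
  conv_rhs => rw [e2]
  exact rot_eq L hL hT hperp N f g hN hNf hg2 hg3 hff hg1 r 0 θ

noncomputable def XX (N F : E3) (t : ℝ) : E3 := Real.cos t • N + Real.sin t • F

theorem XX_inner {N F : E3} (hN : ‖N‖ = 1) (hF : ‖F‖ = 1) (hNF : inner ℝ N F = 0) (a b : ℝ) :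
    inner ℝ (XX N F a) (XX N F b) = Real.cos (a - b) := by
  have hFN : inner ℝ F N = 0 := by rw [real_inner_comm]; exact hNF
  have h1 : inner ℝ N N = 1 := by rw [real_inner_self_eq_norm_sq, hN]; norm_num
  have h2 : inner ℝ F F = 1 := by rw [real_inner_self_eq_norm_sq, hF]; norm_num
  simp only [XX, inner_add_left, inner_add_right, real_inner_smul_left, real_inner_smul_right,
    h1, h2, hNF, hFN, Real.cos_sub]
  ring

theorem XX_norm {N F : E3} (hN : ‖N‖ = 1) (hF : ‖F‖ = 1) (hNF : inner ℝ N F = 0) (a : ℝ) :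
    ‖XX N F a‖ = 1 := by
  have h := XX_inner hN hF hNF a a
  rw [sub_self, Real.cos_zero, real_inner_self_eq_norm_sq] at h
  nlinarith [norm_nonneg (XX N F a)]

theorem XX_ne {N F : E3} (hN : ‖N‖ = 1) (hF : ‖F‖ = 1) (hNF : inner ℝ N F = 0) (a : ℝ) :
    XX N F a ≠ 0 := by
  intro h
  have := XX_norm hN hF hNF a
  rw [h, norm_zero] at this
  norm_num at this

theorem XX_add (N F : E3) (s t : ℝ) :
    XX N F (s + t) = Real.cos t • XX N F s + Real.sin t • XX N F (s + π / 2) := by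
  simp only [XX, Real.cos_add, Real.sin_add, Real.cos_pi_div_two, Real.sin_pi_div_two]
  module

theorem XX_comb (N F : E3) (s t u : ℝ) :
    Real.sin (t + u) • XX N F (s + t) = Real.sin u • XX N F s + Real.sin t • XX N F (s + t + u) := by
  have h1 := Real.sin_sq_add_cos_sq t
  simp only [XX, Real.cos_add, Real.sin_add]
  match_scalars
  · linear_combination (Real.sin u * Real.cos s) * h1
  · linear_combination (Real.sin u * Real.sin s) * h1

theorem XX_indep {N F : E3} (hN : ‖N‖ = 1) (hF : ‖F‖ = 1) (hNF : inner ℝ N F = 0) (s t : ℝ)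
    (ht : 0 < Real.sin t) : LinearIndependent ℝ ![XX N F s, XX N F (s + t)] := by
  rw [LinearIndependent.pair_iff]
  intro a b hab
  have h1 : inner ℝ (a • XX N F s + b • XX N F (s + t)) (XX N F (s + π / 2)) = 0 := by
    rw [hab, inner_zero_left]
  rw [inner_add_left, real_inner_smul_left, real_inner_smul_left, XX_inner hN hF hNF,
    XX_inner hN hF hNF] at h1
  have h2 : s - (s + π / 2) = -(π / 2) := by ring
  have h3 : s + t - (s + π / 2) = t - π / 2 := by ring
  rw [h2, h3, Real.cos_neg, Real.cos_pi_div_two, Real.cos_sub_pi_div_two, mul_zero, zero_add] at h1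
  have hb : b = 0 := by
    rcases mul_eq_zero.1 h1 with h | h
    · exact h
    · exact absurd h ht.ne'
  rw [hb, zero_smul, add_zero] at hab
  exact ⟨(smul_eq_zero.1 hab).resolve_right (XX_ne hN hF hNF s), hb⟩

theorem XX_stepA (L : E3 → E3 → ℝ) (hL : EllipticPlane L)
    (hrot : ∀ N v w : E3, ‖N‖ = 1 → inner ℝ N v = 0 → inner ℝ N w = 0 → ‖v‖ = ‖w‖ →
      L N (N + v) = L N (N + w))
    {N F : E3} (hN : ‖N‖ = 1) (hF : ‖F‖ = 1) (hNF : inner ℝ N F = 0) (s t : ℝ)
    (ht : 0 < t) (ht2 : t < π / 2) :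
    L (XX N F s) (XX N F (s + t)) = L (XX N F (s - t)) (XX N F s) := by
  have hc : 0 < Real.cos t := Real.cos_pos_of_mem_Ioo ⟨by linarith [Real.pi_pos], ht2⟩
  have hs := XX_ne hN hF hNF s
  have hin : inner ℝ (XX N F s) (XX N F (s + π / 2)) = 0 := by
    rw [XX_inner hN hF hNF]
    have h2 : s - (s + π / 2) = -(π / 2) := by ring
    rw [h2, Real.cos_neg, Real.cos_pi_div_two]
  have e1 : XX N F (s + t) = Real.cos t • (XX N F s + (Real.tan t) • XX N F (s + π / 2)) := by
    rw [XX_add, smul_add, smul_smul, Real.tan_eq_sin_div_cos, mul_div_cancel₀ _ hc.ne']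
  have e2 : XX N F (s - t) = Real.cos t • (XX N F s + (-Real.tan t) • XX N F (s + π / 2)) := by
    rw [sub_eq_add_neg, XX_add, smul_add, smul_smul, Real.tan_eq_sin_div_cos, mul_neg,
      mul_div_cancel₀ _ hc.ne', Real.cos_neg, Real.sin_neg]
  have h1 := XX_ne hN hF hNF (s + t)
  have h2 := XX_ne hN hF hNF (s - t)
  have n1 : XX N F s + (Real.tan t) • XX N F (s + π / 2) ≠ 0 := by
    intro h
    rw [h, smul_zero] at e1
    exact h1 e1
  have n2 : XX N F s + (-Real.tan t) • XX N F (s + π / 2) ≠ 0 := by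
    intro h
    rw [h, smul_zero] at e2
    exact h2 e2
  rw [hL.symm _ _ hs h1, e1, hL.smul _ _ n1 hs _ hc, e2, hL.smul _ _ n2 hs _ hc,
    hL.symm _ _ n1 hs, hL.symm _ _ n2 hs]
  refine hrot _ _ _ (XX_norm hN hF hNF s) ?_ ?_ ?_
  · rw [real_inner_smul_right, hin, mul_zero]
  · rw [real_inner_smul_right, hin, mul_zero]
  · rw [norm_smul, norm_smul, norm_neg]

theorem XX_stepB (L : E3 → E3 → ℝ) (hL : EllipticPlane L)
    {N F : E3} (hN : ‖N‖ = 1) (hF : ‖F‖ = 1) (hNF : inner ℝ N F = 0) (s t u : ℝ)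
    (ht : 0 < t) (hu : 0 < u) (htu : t + u < π) :
    L (XX N F s) (XX N F (s + t)) + L (XX N F (s + t)) (XX N F (s + t + u)) =
      L (XX N F s) (XX N F (s + t + u)) := by
  have h1 : 0 < Real.sin t := Real.sin_pos_of_pos_of_lt_pi ht (by linarith)
  have h2 : 0 < Real.sin u := Real.sin_pos_of_pos_of_lt_pi hu (by linarith)
  have h3 : 0 < Real.sin (t + u) := Real.sin_pos_of_pos_of_lt_pi (by linarith) htu
  have e : XX N F (s + t) = (Real.sin u / Real.sin (t + u)) • XX N F s +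
      (Real.sin t / Real.sin (t + u)) • XX N F (s + t + u) := by
    have := XX_comb N F s t u
    rw [← inv_smul_smul₀ h3.ne' (XX N F (s + t)), this, smul_add, smul_smul, smul_smul,
      div_eq_inv_mul, div_eq_inv_mul]
  have hind := XX_indep hN hF hNF s (t + u) h3
  rw [← add_assoc] at hind
  have := hL.add _ _ hind (Real.sin u / Real.sin (t + u)) (Real.sin t / Real.sin (t + u))
    (by positivity) (by positivity)
  rw [← e] at this
  exact this

theorem XX_main (L : E3 → E3 → ℝ) (hL : EllipticPlane L)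
    (hperp : ∀ v w, v ≠ 0 → w ≠ 0 → (L v w = π / 2 ↔ inner ℝ v w = 0))
    (hrot : ∀ N v w : E3, ‖N‖ = 1 → inner ℝ N v = 0 → inner ℝ N w = 0 → ‖v‖ = ‖w‖ →
      L N (N + v) = L N (N + w))
    {N F : E3} (hN : ‖N‖ = 1) (hF : ‖F‖ = 1) (hNF : inner ℝ N F = 0) (t : ℝ)
    (ht : t ∈ Set.Icc 0 π) : L (XX N F 0) (XX N F t) = t := by
  -- multiples of a small step
  have key : ∀ n : ℕ, 2 ≤ n → ∀ j : ℕ, 1 ≤ j → j < 2 * n →
      L (XX N F 0) (XX N F (j * (π / (2 * n)))) = j * (π / (2 * n)) := by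
    intro n hn
    have hn0 : (0 : ℝ) < n := by positivity
    set h : ℝ := π / (2 * n) with hh
    have hpos : 0 < h := by positivity
    have hlt : h < π / 2 := by
      rw [hh, div_lt_div_iff₀ (by positivity) (by norm_num)]
      have : (2 : ℝ) ≤ n := by exact_mod_cast hn
      nlinarith [Real.pi_pos]
    have hsame : ∀ j : ℕ, L (XX N F (j * h)) (XX N F (j * h + h)) = L (XX N F 0) (XX N F h) := by
      intro j
      induction j with
      | zero => simp
      | succ j ih =>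
        rw [XX_stepA L hL hrot hN hF hNF _ _ hpos hlt]
        push_cast
        have e1 : ((j : ℝ) + 1) * h - h = j * h := by ring
        have e2 : ((j : ℝ) + 1) * h = j * h + h := by ring
        rw [e1, e2, ih]
    have hmul : ∀ j : ℕ, 1 ≤ j → j < 2 * n →
        L (XX N F 0) (XX N F (j * h)) = j * L (XX N F 0) (XX N F h) := by
      intro j hj
      induction j, hj using Nat.le_induction with
      | base => intro _; simp
      | succ j hj ih =>
        intro hj2
        have hj0 : (0 : ℝ) < j := by exact_mod_cast hj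
        have hjn : (j : ℝ) + 1 < 2 * n := by exact_mod_cast hj2
        have := XX_stepB L hL hN hF hNF 0 (j * h) h (by positivity) hpos (by
          have : (j : ℝ) * h + h = ((j : ℝ) + 1) * h := by ring
          rw [this]
          calc ((j : ℝ) + 1) * h < (2 * n) * h := mul_lt_mul_of_pos_right hjn hpos
            _ = π := by rw [hh]; field_simp)
        rw [zero_add] at this
        push_cast
        have e2 : ((j : ℝ) + 1) * h = j * h + h := by ring
        rw [e2, ← this, ih (by omega), hsame j]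
        ring
    have hquarter : L (XX N F 0) (XX N F (n * h)) = π / 2 := by
      rw [hperp _ _ (XX_ne hN hF hNF _) (XX_ne hN hF hNF _), XX_inner hN hF hNF]
      have : (0 : ℝ) - n * h = -(π / 2) := by
        rw [hh]
        field_simp
        ring
      rw [this, Real.cos_neg, Real.cos_pi_div_two]
    have hh1 : L (XX N F 0) (XX N F h) = h := by
      rw [hmul n (by omega) (by omega)] at hquarter
      have : (n : ℝ) * h = π / 2 := by
        rw [hh]
        field_simp
      have h3 : (n : ℝ) * L (XX N F 0) (XX N F h) = n * h := by rw [hquarter, this]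
      exact mul_left_cancel₀ hn0.ne' h3
    intro j hj1 hj2
    rw [hmul j hj1 hj2, hh1]
  -- continuity
  have hXc : Continuous fun x : ℝ => XX N F (π * x) := by
    unfold XX
    fun_prop
  have hgc : Continuous fun x : ℝ => L (XX N F 0) (XX N F (π * x)) := by
    have h1 : Continuous fun x : ℝ => (XX N F 0, XX N F (π * x)) := continuous_const.prodMk hXc
    rw [← continuousOn_univ]
    exact hL.cont.comp h1.continuousOn
      (fun x _ => ⟨XX_ne hN hF hNF _, XX_ne hN hF hNF _⟩)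
  have hclosed : IsClosed {x : ℝ | L (XX N F 0) (XX N F (π * x)) = π * x} :=
    isClosed_eq hgc (continuous_const.mul continuous_id)
  have hrat : Set.Ioo (0 : ℝ) 1 ∩ Set.range ((↑) : ℚ → ℝ) ⊆
      {x : ℝ | L (XX N F 0) (XX N F (π * x)) = π * x} := by
    rintro _ ⟨⟨h0, h1⟩, ⟨r, rfl⟩⟩
    have hr0 : 0 < r := by exact_mod_cast h0
    have hr1 : r < 1 := by exact_mod_cast h1
    have hnum : 0 < r.num := Rat.num_pos.2 hr0
    obtain ⟨a, ha⟩ := Int.eq_ofNat_of_zero_le hnum.le
    have hden : 0 < r.den := r.den_pos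
    have hrr : (r : ℝ) = a / r.den := by
      have := Rat.num_div_den r
      conv_lhs => rw [← this]
      rw [ha]
      push_cast
      rfl
    have ha1 : 1 ≤ a := by omega
    have hab : a < r.den := by
      have h2 : (a : ℝ) / r.den < 1 := by rw [← hrr]; exact h1
      rw [div_lt_one (by exact_mod_cast hden)] at h2
      exact_mod_cast h2
    have hk := key (2 * r.den) (by omega) (4 * a) (by omega) (by omega)
    have e : ((4 * a : ℕ) : ℝ) * (π / (2 * ((2 * r.den : ℕ) : ℝ))) = π * r := by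
      rw [hrr]
      have : (r.den : ℝ) ≠ 0 := by exact_mod_cast hden.ne'
      push_cast
      field_simp
      norm_num
    rw [e] at hk
    exact hk
  have hsub : Set.Icc (0 : ℝ) 1 ⊆ {x : ℝ | L (XX N F 0) (XX N F (π * x)) = π * x} := by
    have h1 : Set.Ioo (0 : ℝ) 1 ⊆ closure (Set.Ioo (0 : ℝ) 1 ∩ Set.range ((↑) : ℚ → ℝ)) :=
      (Rat.denseRange_cast (𝕜 := ℝ)).open_subset_closure_inter isOpen_Ioo
    have h2 : closure (Set.Ioo (0 : ℝ) 1) = Set.Icc 0 1 := closure_Ioo (by norm_num)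
    rw [← h2]
    exact closure_minimal (h1.trans (closure_minimal hrat hclosed)) hclosed
  have hx : t / π ∈ Set.Icc (0 : ℝ) 1 :=
    ⟨div_nonneg ht.1 Real.pi_pos.le, (div_le_one Real.pi_pos).2 ht.2⟩
  have := hsub hx
  rw [Set.mem_ofPred_eq, mul_div_cancel₀ _ Real.pi_pos.ne'] at this
  exact this

theorem angle_of_unit (L : E3 → E3 → ℝ) (hL : EllipticPlane L)
    (hperp : ∀ v w, v ≠ 0 → w ≠ 0 → (L v w = π / 2 ↔ inner ℝ v w = 0))
    (hrot : ∀ N v w : E3, ‖N‖ = 1 → inner ℝ N v = 0 → inner ℝ N w = 0 → ‖v‖ = ‖w‖ →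
      L N (N + v) = L N (N + w)) (N Y : E3) (hN : ‖N‖ = 1) (hY : ‖Y‖ = 1) :
    L N Y = InnerProductGeometry.angle N Y := by
  have hN0 : N ≠ 0 := by
    intro h
    rw [h, norm_zero] at hN
    norm_num at hN
  set θ := InnerProductGeometry.angle N Y with hθ
  have hθ0 : 0 ≤ θ := InnerProductGeometry.angle_nonneg _ _
  have hθπ : θ ≤ π := InnerProductGeometry.angle_le_pi _ _
  have hcos : Real.cos θ = inner ℝ N Y := by
    rw [hθ, InnerProductGeometry.cos_angle, hN, hY, mul_one, div_one]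
  have hNN : inner ℝ N N = 1 := by rw [real_inner_self_eq_norm_sq, hN]; norm_num
  have hYY : inner ℝ Y Y = 1 := by rw [real_inner_self_eq_norm_sq, hY]; norm_num
  set R := Y - Real.cos θ • N with hR
  have hNR : inner ℝ N R = 0 := by
    rw [hR, inner_sub_right, real_inner_smul_right, hNN, ← hcos]
    ring
  have hRR : ‖R‖ ^ 2 = Real.sin θ ^ 2 := by
    rw [← real_inner_self_eq_norm_sq, hR, inner_sub_left, inner_sub_right, inner_sub_right,
      real_inner_smul_left, real_inner_smul_left, real_inner_smul_right, real_inner_smul_right,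
      hNN, hYY, real_inner_comm N Y, ← hcos]
    have := Real.sin_sq_add_cos_sq θ
    nlinarith
  have hsin : 0 ≤ Real.sin θ := Real.sin_nonneg_of_nonneg_of_le_pi hθ0 hθπ
  have hRn : ‖R‖ = Real.sin θ := by
    have := abs_eq_abs.2 (sq_eq_sq_iff_eq_or_eq_neg.1 hRR)
    rwa [abs_of_nonneg (norm_nonneg _), abs_of_nonneg hsin] at this
  by_cases hs : Real.sin θ = 0
  · have hR0 : R = 0 := by rw [← norm_eq_zero, hRn, hs]
    have hYN : Y = Real.cos θ • N := sub_eq_zero.1 hR0
    rcases hθ0.eq_or_lt with h | h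
    · rw [hYN, ← h, Real.cos_zero, one_smul]
      exact hL.self N hN0
    · rcases hθπ.eq_or_lt with h' | h'
      · rw [hYN, h', Real.cos_pi, neg_smul, one_smul, hL.neg N N hN0 hN0, hL.self N hN0, sub_zero]
      · exact absurd hs (Real.sin_pos_of_pos_of_lt_pi h h').ne'
  · have hs' : 0 < Real.sin θ := lt_of_le_of_ne hsin (Ne.symm hs)
    have hF : ‖(Real.sin θ)⁻¹ • R‖ = 1 := by
      rw [norm_smul, norm_inv, Real.norm_eq_abs, abs_of_nonneg hsin, hRn, inv_mul_cancel₀ hs]
    have hNF : inner ℝ N ((Real.sin θ)⁻¹ • R) = 0 := by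
      rw [real_inner_smul_right, hNR, mul_zero]
    have h := XX_main L hL hperp hrot hN hF hNF θ ⟨hθ0, hθπ⟩
    have e0 : XX N ((Real.sin θ)⁻¹ • R) 0 = N := by simp [XX]
    have e1 : XX N ((Real.sin θ)⁻¹ • R) θ = Y := by
      rw [XX, smul_inv_smul₀ hs, hR]
      abel
    rw [e0, e1] at h
    exact h

theorem angle_of (L : E3 → E3 → ℝ) (hL : EllipticPlane L) (hT : TriL L)
    (hperp : ∀ v w, v ≠ 0 → w ≠ 0 → (L v w = π / 2 ↔ inner ℝ v w = 0))
    (hrot : ∀ N v w : E3, ‖N‖ = 1 → inner ℝ N v = 0 → inner ℝ N w = 0 → ‖v‖ = ‖w‖ →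
      L N (N + v) = L N (N + w)) :
    ∀ v w, v ≠ 0 → w ≠ 0 → L v w = InnerProductGeometry.angle v w := by
  intro v w hv hw
  have hv' : 0 < ‖v‖ := norm_pos_iff.2 hv
  have hw' : 0 < ‖w‖ := norm_pos_iff.2 hw
  have hN : ‖(‖v‖)⁻¹ • v‖ = 1 := by
    rw [norm_smul, norm_inv, norm_norm, inv_mul_cancel₀ hv'.ne']
  have hY : ‖(‖w‖)⁻¹ • w‖ = 1 := by
    rw [norm_smul, norm_inv, norm_norm, inv_mul_cancel₀ hw'.ne']
  have h := angle_of_unit L hL hperp hrot _ _ hN hY
  have hv0 : (‖v‖)⁻¹ • v ≠ 0 := smul_ne_zero (inv_ne_zero hv'.ne') hv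
  have hw0 : (‖w‖)⁻¹ • w ≠ 0 := smul_ne_zero (inv_ne_zero hw'.ne') hw
  rw [InnerProductGeometry.angle_smul_left_of_pos _ _ (inv_pos.2 hv'),
    InnerProductGeometry.angle_smul_right_of_pos _ _ (inv_pos.2 hw'),
    hL.smul _ _ hv hw0 _ (inv_pos.2 hv'), hL.symm _ _ hv hw0,
    hL.smul _ _ hw hv _ (inv_pos.2 hw'), hL.symm _ _ hw hv] at h
  exact h

end Pool.Agent.Helper87.Elliptic
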