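import Pool.Agent.Helper87.ThalesEllDefs

set_option autoImplicit false

open Real Filter Topology

namespace Pool.Agent.Helper87.Elliptic

/-- A projective-metric plane of elliptic type in homogeneous coordinates: the points of the
projective plane are the nonzero vectors of `ℝ³` up to nonzero factors, `d` is a continuous metric
on it, and every projective line has an arc length parametrisation, of total length `π`. -/
structure EllipticMetric (d : E3 → E3 → ℝ) : Prop where
  smul : ∀ v w, v ≠ 0 → w ≠ 0 → ∀ a : ℝ, a ≠ 0 → d (a • v) w = d v w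
  symm : ∀ v w, v ≠ 0 → w ≠ 0 → d v w = d w v
  self : ∀ v, v ≠ 0 → d v v = 0
  pos : ∀ v w, LinearIndependent ℝ ![v, w] → 0 < d v w
  triangle : ∀ u v w, u ≠ 0 → v ≠ 0 → w ≠ 0 → d u w ≤ d u v + d v w
  cont : ContinuousOn (fun p : E3 × E3 => d p.1 p.2) {p | p.1 ≠ 0 ∧ p.2 ≠ 0}
  line : ∀ v w, LinearIndependent ℝ ![v, w] → ∃ θ : ℝ → ℝ, Continuous θ ∧ StrictMono θ ∧
    (∀ t, θ (t + π) = θ t + π) ∧ ∀ s t, |s - t| ≤ π / 2 →
      d (cos (θ s) • v + sin (θ s) • w) (cos (θ t) • v + sin (θ t) • w) = |s - t|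

/-- All circles of radius less than `π / 2` are strictly convex: the disc misses the projective
line `f = 0`, and in the affine plane `f ≠ 0` the points strictly between two points of the disc
have distance less than `r` from the centre. -/
def ConvexDiscs (d : E3 → E3 → ℝ) : Prop :=
  ∀ N, N ≠ 0 → ∀ r, 0 < r → r < π / 2 → ∃ f : E3 →ₗ[ℝ] ℝ,
    (∀ v, v ≠ 0 → d N v ≤ r → f v ≠ 0) ∧
    ∀ v w, LinearIndependent ℝ ![v, w] → d N v ≤ r → d N w ≤ r → 0 < f v → 0 < f w →
      ∀ a b : ℝ, 0 < a → 0 < b → d N (a • v + b • w) < r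


/-- A positive combination of two directions less than a half turn apart is a positive multiple
of a direction strictly between. -/
lemma combo_angle {α β a b : ℝ} (h1 : α < β) (h2 : β < α + π) (ha : 0 < a) (hb : 0 < b) :
    ∃ γ r : ℝ, α < γ ∧ γ < β ∧ 0 < r ∧ a * cos α + b * cos β = r * cos γ ∧
      a * sin α + b * sin β = r * sin γ := by
  obtain ⟨δ, hδ⟩ : ∃ δ, δ = β - α := ⟨_, rfl⟩
  have hδ0 : 0 < δ := by linarith
  have hδπ : δ < π := by linarith
  have hsδ : 0 < sin δ := sin_pos_of_pos_of_lt_pi hδ0 hδπ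
  obtain ⟨x, hx⟩ : ∃ x, x = a + b * cos δ := ⟨_, rfl⟩
  obtain ⟨y, hy⟩ : ∃ y, y = b * sin δ := ⟨_, rfl⟩
  have hy0 : 0 < y := by rw [hy]; positivity
  obtain ⟨ρ, hρ⟩ : ∃ ρ, ρ = Real.sqrt (x ^ 2 + y ^ 2) := ⟨_, rfl⟩
  have hxy : 0 < x ^ 2 + y ^ 2 := by positivity
  have hρ0 : 0 < ρ := by rw [hρ]; exact Real.sqrt_pos.2 hxy
  have hρ2 : ρ ^ 2 = x ^ 2 + y ^ 2 := by rw [hρ]; exact Real.sq_sqrt hxy.le
  obtain ⟨ε, hε⟩ : ∃ ε, ε = arccos (x / ρ) := ⟨_, rfl⟩
  have hx1 : |x / ρ| ≤ 1 := by
    rw [abs_div, abs_of_pos hρ0, div_le_one hρ0]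
    exact abs_le_of_sq_le_sq (by rw [hρ2]; nlinarith [sq_nonneg y]) hρ0.le
  rw [abs_le] at hx1
  have hcε : cos ε = x / ρ := by rw [hε]; exact cos_arccos hx1.1 hx1.2
  have hsε : sin ε = y / ρ := by
    rw [hε, sin_arccos]
    have : 1 - (x / ρ) ^ 2 = (y / ρ) ^ 2 := by
      field_simp
      linarith
    rw [this]
    exact Real.sqrt_sq (by positivity)
  have hε0 : 0 ≤ ε := by rw [hε]; exact arccos_nonneg _
  have hεπ : ε ≤ π := by rw [hε]; exact arccos_le_pi _
  have hsε0 : 0 < sin ε := by rw [hsε]; positivity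
  have hε1 : 0 < ε := by
    rcases hε0.eq_or_lt with h | h
    · rw [← h, sin_zero] at hsε0
      exact absurd hsε0 (lt_irrefl _)
    · exact h
  have hd : 0 < sin (δ - ε) := by
    rw [sin_sub, hcε, hsε, hx, hy]
    have : sin δ * ((a + b * cos δ) / ρ) - cos δ * (b * sin δ / ρ) = a * sin δ / ρ := by
      field_simp
      ring
    rw [this]
    positivity
  have hlt : ε < δ := by
    by_contra hcon
    push Not at hcon
    have : sin (δ - ε) ≤ 0 := sin_nonpos_of_nonpos_of_neg_pi_le (by linarith) (by linarith)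
    linarith
  refine ⟨α + ε, ρ, by linarith, by linarith, hρ0, ?_, ?_⟩
  · rw [cos_add, hcε, hsε, show β = α + δ by linarith, cos_add]
    have e1 : ρ * (cos α * (x / ρ) - sin α * (y / ρ)) = cos α * x - sin α * y := by
      field_simp
    rw [e1, hx, hy]
    ring
  · rw [sin_add, hcε, hsε, show β = α + δ by linarith, sin_add]
    have e1 : ρ * (sin α * (x / ρ) + cos α * (y / ρ)) = sin α * x + cos α * y := by
      field_simp
    rw [e1, hx, hy]
    ring

/-- The data of an arc length parametrisation of a line. -/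
structure Param (d : E3 → E3 → ℝ) (u : ℝ → E3) : Prop where
  ne : ∀ t, u t ≠ 0
  anti : ∀ t, u (t + π) = - u t
  dist : ∀ s t, |s - t| ≤ π / 2 → d (u s) (u t) = |s - t|
  combo : ∀ s t, s < t → t < s + π → ∀ a b : ℝ, 0 < a → 0 < b →
    ∃ z c : ℝ, s < z ∧ z < t ∧ 0 < c ∧ a • u s + b • u t = c • u z
  split : ∀ s z t, s < z → z < t → t < s + π → ∃ a b : ℝ, 0 < a ∧ 0 < b ∧
    u z = a • u s + b • u t

variable {d : E3 → E3 → ℝ}

lemma exists_param (hd : EllipticMetric d) {p q : E3} (hpq : LinearIndependent ℝ ![p, q]) :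
    ∃ u : ℝ → E3, Param d u ∧ ∃ s t, s < t ∧ t < s + π ∧ u s = p ∧ u t = q := by
  obtain ⟨θ, hθc, hθm, hθπ, hθd⟩ := hd.line p q hpq
  obtain ⟨u, hu⟩ : ∃ u : ℝ → E3, u = fun t => cos (θ t) • p + sin (θ t) • q := ⟨_, rfl⟩
  have hli := LinearIndependent.pair_iff.1 hpq
  have hper : Function.Periodic (fun t => θ t - t) π := by
    intro t
    simp only [hθπ]
    ring
  have hsurj : ∀ x, ∃ t, θ t = x := by
    intro x
    have hn : ∀ n : ℤ, θ (n * π) = n * π + θ 0 := by
      intro n
      have h := hper.int_mul n 0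
      simp only [zero_add, sub_zero] at h
      linarith
    obtain ⟨n, hn'⟩ : ∃ n : ℤ, n = ⌊(x - θ 0) / π⌋ := ⟨_, rfl⟩
    have h1 : (n : ℝ) ≤ (x - θ 0) / π := by rw [hn']; exact Int.floor_le _
    have h2 : (x - θ 0) / π < n + 1 := by rw [hn']; exact Int.lt_floor_add_one _
    rw [le_div_iff₀ pi_pos] at h1
    rw [div_lt_iff₀ pi_pos] at h2
    have h3 := hn n
    have h4 := hn (n + 1)
    push_cast at h4
    obtain ⟨t, ht⟩ := mem_range_of_exists_le_of_exists_ge hθc (c := x)
      ⟨n * π, by rw [h3]; linarith⟩ ⟨(n + 1) * π, by rw [h4]; linarith⟩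
    exact ⟨t, ht⟩
  have hcoef : ∀ x y : ℝ, x • p + y • q = 0 → x = 0 ∧ y = 0 := fun x y h => hli x y h
  refine ⟨u, ⟨?_, ?_, ?_, ?_, ?_⟩, ?_⟩
  · intro t h
    rw [hu] at h
    obtain ⟨h1, h2⟩ := hcoef _ _ h
    have := sin_sq_add_cos_sq (θ t)
    rw [h1, h2] at this
    norm_num at this
  · intro t
    rw [hu]
    simp only [hθπ, cos_add_pi, sin_add_pi]
    module
  · intro s t hst
    rw [hu]
    exact hθd s t hst
  · intro s t hst hts a b ha hb
    have h1 : θ s < θ t := hθm hst
    have h2 : θ t < θ s + π := by rw [← hθπ]; exact hθm hts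
    obtain ⟨γ, r, g1, g2, hr, e1, e2⟩ := combo_angle h1 h2 ha hb
    obtain ⟨z, hz⟩ := hsurj γ
    refine ⟨z, r, hθm.lt_iff_lt.1 (by rw [hz]; exact g1), hθm.lt_iff_lt.1 (by rw [hz]; exact g2),
      hr, ?_⟩
    rw [hu]
    simp only [hz]
    have : a • (cos (θ s) • p + sin (θ s) • q) + b • (cos (θ t) • p + sin (θ t) • q) =
        (a * cos (θ s) + b * cos (θ t)) • p + (a * sin (θ s) + b * sin (θ t)) • q := by module
    rw [this, e1, e2]
    module
  · intro s z t h1 h2 h3
    have g1 : θ s < θ z := hθm h1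
    have g2 : θ z < θ t := hθm h2
    have g3 : θ t < θ s + π := by rw [← hθπ]; exact hθm h3
    have s1 : 0 < sin (θ t - θ z) := sin_pos_of_pos_of_lt_pi (by linarith) (by linarith)
    have s2 : 0 < sin (θ z - θ s) := sin_pos_of_pos_of_lt_pi (by linarith) (by linarith)
    have s3 : 0 < sin (θ t - θ s) := sin_pos_of_pos_of_lt_pi (by linarith) (by linarith)
    refine ⟨sin (θ t - θ z) / sin (θ t - θ s), sin (θ z - θ s) / sin (θ t - θ s), by positivity,
      by positivity, ?_⟩
    rw [hu]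
    simp only
    have e1 : cos (θ z) = sin (θ t - θ z) / sin (θ t - θ s) * cos (θ s) +
        sin (θ z - θ s) / sin (θ t - θ s) * cos (θ t) := by
      field_simp
      rw [sin_sub, sin_sub, sin_sub]
      ring
    have e2 : sin (θ z) = sin (θ t - θ z) / sin (θ t - θ s) * sin (θ s) +
        sin (θ z - θ s) / sin (θ t - θ s) * sin (θ t) := by
      field_simp
      rw [sin_sub, sin_sub, sin_sub]
      ring
    rw [e1, e2]
    module
  · obtain ⟨s, hs⟩ := hsurj 0
    obtain ⟨t, ht⟩ := hsurj (π / 2)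
    refine ⟨s, t, hθm.lt_iff_lt.1 (by rw [hs, ht]; positivity),
      hθm.lt_iff_lt.1 (by rw [hθπ, hs, ht]; linarith [pi_pos]), ?_, ?_⟩
    · rw [hu]; simp [hs]
    · rw [hu]; simp [ht]

lemma Param.dist' (hd : EllipticMetric d) {u : ℝ → E3} (hu : Param d u) {s t : ℝ} (h1 : s ≤ t)
    (h2 : t ≤ s + π) : d (u s) (u t) = min (t - s) (π - (t - s)) := by
  by_cases h : t - s ≤ π / 2
  · rw [hu.dist s t (by rw [abs_sub_comm, abs_of_nonneg (by linarith)]; exact h), abs_sub_comm,
      abs_of_nonneg (by linarith), min_eq_left (by linarith)]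
  · push Not at h
    have e : u t = (-1 : ℝ) • u (t - π) := by
      have := hu.anti (t - π)
      rw [sub_add_cancel] at this
      rw [this]
      module
    rw [hd.symm _ _ (hu.ne s) (hu.ne t), e, hd.smul _ _ (hu.ne _) (hu.ne _) (-1) (by norm_num),
      hu.dist _ _ (by rw [abs_le]; constructor <;> linarith), abs_of_nonpos (by linarith),
      min_eq_right (by linarith)]
    ring

open Classical in
/-- The length of the segment of positive combinations. -/
noncomputable def seg (d : E3 → E3 → ℝ) (v w : E3) : ℝ :=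
  if SameRay ℝ v w then 0 else if SameRay ℝ v (-w) then π else
    if ∀ a b : ℝ, 0 < a → 0 < b → d v (a • v + b • w) + d (a • v + b • w) w = d v w then d v w
    else π - d v w

lemma li_of_rays {v w : E3} (h1 : ¬ SameRay ℝ v w) (h2 : ¬ SameRay ℝ v (-w)) :
    LinearIndependent ℝ ![v, w] := by
  rw [LinearIndependent.pair_iff]
  intro s t hst
  have hv : v ≠ 0 := by rintro rfl; exact h1 (SameRay.zero_left _)
  have hw : w ≠ 0 := by rintro rfl; exact h1 (SameRay.zero_right _)
  by_contra hne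
  have hs : s ≠ 0 := by
    rintro rfl
    rw [zero_smul, zero_add, smul_eq_zero] at hst
    exact hne ⟨rfl, hst.resolve_right hw⟩
  have ht : t ≠ 0 := by
    rintro rfl
    rw [zero_smul, add_zero, smul_eq_zero] at hst
    exact hne ⟨hst.resolve_right hv, rfl⟩
  have hvw : v = (-t / s) • w := by
    have : s • v = (-t) • w := by
      rw [eq_comm, neg_smul, neg_eq_iff_add_eq_zero, add_comm]
      exact hst
    rw [div_eq_inv_mul, mul_smul, ← this, smul_smul, inv_mul_cancel₀ hs, one_smul]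
  have hr : -t / s ≠ 0 := div_ne_zero (neg_ne_zero.2 ht) hs
  rcases lt_or_gt_of_ne hr with h | h
  · apply h2
    have e : v = (-(-t / s)) • (-w) := by rw [hvw]; module
    rw [e]
    exact SameRay.sameRay_pos_smul_left _ (by linarith)
  · apply h1
    rw [hvw]
    exact SameRay.sameRay_pos_smul_left _ h

lemma comb_ne {v w : E3} (h : LinearIndependent ℝ ![v, w]) {a b : ℝ} (ha : a ≠ 0) :
    a • v + b • w ≠ 0 := by
  intro h0
  exact ha ((LinearIndependent.pair_iff.1 h) a b h0).1

lemma rays_of_li {v w : E3} (h : LinearIndependent ℝ ![v, w]) :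
    ¬ SameRay ℝ v w ∧ ¬ SameRay ℝ v (-w) ∧ v ≠ 0 ∧ w ≠ 0 := by
  have hv : v ≠ 0 := by simpa using h.ne_zero 0
  have hw : w ≠ 0 := by simpa using h.ne_zero 1
  have hli := LinearIndependent.pair_iff.1 h
  refine ⟨fun hs => ?_, fun hs => ?_, hv, hw⟩
  · obtain ⟨r, hr, e⟩ := hs.exists_pos_left hv hw
    have := (hli r (-1) (by rw [e]; module)).2
    norm_num at this
  · obtain ⟨r, hr, e⟩ := hs.exists_pos_left hv (neg_ne_zero.2 hw)
    have := (hli r 1 (by rw [e]; module)).2
    norm_num at this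

lemma Param.smul_dist (hd : EllipticMetric d) {u : ℝ → E3} (hu : Param d u) {s t c : ℝ}
    (hc : c ≠ 0) : d (u s) (c • u t) = d (u s) (u t) := by
  rw [hd.symm _ _ (hu.ne s) (smul_ne_zero hc (hu.ne t)), hd.smul _ _ (hu.ne t) (hu.ne s) c hc,
    hd.symm _ _ (hu.ne t) (hu.ne s)]

lemma Param.li (hd : EllipticMetric d) {u : ℝ → E3} (hu : Param d u) {s t : ℝ} (h1 : s < t)
    (h2 : t < s + π) : LinearIndependent ℝ ![u s, u t] := by
  have hpos : 0 < d (u s) (u t) := by
    rw [hu.dist' hd h1.le h2.le]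
    exact lt_min (by linarith) (by linarith)
  have key : ∀ r : ℝ, u t = r • u s → False := by
    intro r hr
    have hr0 : r ≠ 0 := by
      rintro rfl
      rw [zero_smul] at hr
      exact hu.ne t hr
    rw [hr, hu.smul_dist hd hr0, hd.self _ (hu.ne s)] at hpos
    exact lt_irrefl _ hpos
  rw [LinearIndependent.pair_iff]
  intro x y hxy
  have hy : y = 0 := by
    by_contra hy
    apply key (-x / y)
    have : y • u t = (-x) • u s := by
      rw [eq_comm, neg_smul, neg_eq_iff_add_eq_zero]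
      exact hxy
    rw [div_eq_inv_mul, mul_smul, ← this, smul_smul, inv_mul_cancel₀ hy, one_smul]
  rw [hy, zero_smul, add_zero, smul_eq_zero] at hxy
  exact ⟨hxy.resolve_right (hu.ne s), hy⟩

/-- The length along a parametrisation. -/
lemma Param.seg (hd : EllipticMetric d) {u : ℝ → E3} (hu : Param d u) {s t : ℝ} (h1 : s < t)
    (h2 : t < s + π) : seg d (u s) (u t) = t - s := by
  have hli := hu.li hd h1 h2
  obtain ⟨n1, n2, -, -⟩ := rays_of_li hli
  have hdst := hu.dist' hd h1.le h2.le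
  rw [Elliptic.seg, if_neg n1, if_neg n2]
  have key : ∀ a b : ℝ, 0 < a → 0 < b → ∃ z, s < z ∧ z < t ∧
      d (u s) (a • u s + b • u t) + d (a • u s + b • u t) (u t) =
        min (z - s) (π - (z - s)) + min (t - z) (π - (t - z)) := by
    intro a b ha hb
    obtain ⟨z, c, hz1, hz2, hc, e⟩ := hu.combo s t h1 h2 a b ha hb
    refine ⟨z, hz1, hz2, ?_⟩
    rw [e, hu.smul_dist hd hc.ne', hd.smul _ _ (hu.ne z) (hu.ne t) c hc.ne',
      hu.dist' hd hz1.le (by linarith), hu.dist' hd hz2.le (by linarith)]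
  by_cases hle : t - s ≤ π / 2
  · rw [min_eq_left (by linarith)] at hdst
    rw [if_pos, hdst]
    intro a b ha hb
    obtain ⟨z, hz1, hz2, e⟩ := key a b ha hb
    rw [e, hdst, min_eq_left (by linarith), min_eq_left (by linarith)]
    ring
  · push Not at hle
    rw [min_eq_right (by linarith)] at hdst
    rw [if_neg, hdst]
    · ring
    · intro hall
      obtain ⟨z, hz1, hz2, e⟩ := key 1 1 one_pos one_pos
      have := hall 1 1 one_pos one_pos
      rw [e, hdst] at this
      rcases le_total (z - s) (π - (z - s)) with g1 | g1 <;>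
        rcases le_total (t - z) (π - (t - z)) with g2 | g2
      · rw [min_eq_left g1, min_eq_left g2] at this; linarith
      · rw [min_eq_left g1, min_eq_right g2] at this; linarith
      · rw [min_eq_right g1, min_eq_left g2] at this; linarith
      · rw [min_eq_right g1, min_eq_right g2] at this; linarith

lemma exists_param' (hd : EllipticMetric d) {v w : E3} (h : LinearIndependent ℝ ![v, w]) :
    ∃ u : ℝ → E3, Param d u ∧ ∃ s t, s < t ∧ t < s + π ∧ u s = v ∧ u t = w ∧
      seg d v w = t - s := by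
  obtain ⟨u, hu, s, t, h1, h2, e1, e2⟩ := exists_param hd h
  exact ⟨u, hu, s, t, h1, h2, e1, e2, by rw [← e1, ← e2]; exact hu.seg hd h1 h2⟩

lemma seg_same {v w : E3} (h : SameRay ℝ v w) : seg d v w = 0 := by
  rw [seg, if_pos h]

lemma seg_opp {v w : E3} (hv : v ≠ 0) (hw : w ≠ 0) (h : SameRay ℝ v (-w)) : seg d v w = π := by
  rw [seg, if_neg, if_pos h]
  intro h'
  obtain ⟨r, hr, e⟩ := h.exists_pos_left hv (neg_ne_zero.2 hw)
  obtain ⟨r', hr', e'⟩ := h'.exists_pos_left hv hw
  have : (r + r') • v = 0 := by rw [add_smul, e, e', neg_add_cancel]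
  rw [smul_eq_zero] at this
  rcases this with h | h
  · linarith
  · exact hv h

lemma seg_symm (hd : EllipticMetric d) {v w : E3} (hv : v ≠ 0) (hw : w ≠ 0) :
    seg d v w = seg d w v := by
  by_cases h1 : SameRay ℝ v w
  · rw [seg_same h1, seg_same h1.symm]
  by_cases h2 : SameRay ℝ v (-w)
  · rw [seg_opp hv hw h2, seg_opp hw hv]
    have := h2.symm.neg
    rwa [neg_neg] at this
  have hli := li_of_rays h1 h2
  have h3 : ¬ SameRay ℝ w v := fun h => h1 h.symm
  have h4 : ¬ SameRay ℝ w (-v) := by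
    intro h
    have := h.symm.neg
    rw [neg_neg] at this
    exact h2 this
  rw [seg, seg, if_neg h1, if_neg h2, if_neg h3, if_neg h4, hd.symm v w hv hw]
  have : (∀ a b : ℝ, 0 < a → 0 < b → d v (a • v + b • w) + d (a • v + b • w) w = d w v) ↔
      (∀ a b : ℝ, 0 < a → 0 < b → d w (a • w + b • v) + d (a • w + b • v) v = d w v) := by
    constructor
    · intro h a b ha hb
      have hne : b • v + a • w ≠ 0 := comb_ne hli hb.ne'
      have := h b a hb ha
      rw [add_comm (a • w), hd.symm w _ hw hne, hd.symm _ v hne hv, add_comm]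
      exact this
    · intro h a b ha hb
      have hne : a • v + b • w ≠ 0 := comb_ne hli ha.ne'
      have := h b a hb ha
      rw [add_comm (b • w), hd.symm w _ hw hne, hd.symm _ v hne hv, add_comm] at this
      exact this
  classical
  split_ifs with g1 g2 g2
  · rfl
  · exact absurd (this.1 g1) g2
  · exact absurd (this.2 g2) g1
  · rfl

lemma seg_smul (hd : EllipticMetric d) {v w : E3} (hv : v ≠ 0) (hw : w ≠ 0) {a : ℝ}
    (ha : 0 < a) : seg d (a • v) w = seg d v w := by
  by_cases h1 : SameRay ℝ v w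
  · rw [seg_same h1, seg_same (h1.pos_smul_left ha)]
  by_cases h2 : SameRay ℝ v (-w)
  · rw [seg_opp hv hw h2, seg_opp (smul_ne_zero ha.ne' hv) hw (h2.pos_smul_left ha)]
  have hli := li_of_rays h1 h2
  have h3 : ¬ SameRay ℝ (a • v) w := by
    intro h
    have := h.pos_smul_left (inv_pos.2 ha)
    rw [smul_smul, inv_mul_cancel₀ ha.ne', one_smul] at this
    exact h1 this
  have h4 : ¬ SameRay ℝ (a • v) (-w) := by
    intro h
    have := h.pos_smul_left (inv_pos.2 ha)
    rw [smul_smul, inv_mul_cancel₀ ha.ne', one_smul] at this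
    exact h2 this
  rw [seg, seg, if_neg h1, if_neg h2, if_neg h3, if_neg h4, hd.smul v w hv hw a ha.ne']
  have : (∀ x y : ℝ, 0 < x → 0 < y → d (a • v) (x • a • v + y • w) + d (x • a • v + y • w) w =
      d v w) ↔
      (∀ x y : ℝ, 0 < x → 0 < y → d v (x • v + y • w) + d (x • v + y • w) w = d v w) := by
    constructor
    · intro h x y hx hy
      have hne : x • v + y • w ≠ 0 := comb_ne hli hx.ne'
      have := h (x / a) y (by positivity) hy
      rw [smul_smul, div_mul_cancel₀ _ ha.ne', hd.smul v _ hv hne a ha.ne'] at this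
      exact this
    · intro h x y hx hy
      have hne : (x * a) • v + y • w ≠ 0 := comb_ne hli (by positivity)
      have := h (x * a) y (by positivity) hy
      rw [smul_smul, hd.smul v _ hv hne a ha.ne']
      exact this
  classical
  split_ifs with g1 g2 g2
  · rfl
  · exact absurd (this.1 g1) g2
  · exact absurd (this.2 g2) g1
  · rfl

lemma seg_smul' (hd : EllipticMetric d) {v w : E3} (hv : v ≠ 0) (hw : w ≠ 0) {a : ℝ}
    (ha : 0 < a) : seg d v (a • w) = seg d v w := by
  rw [seg_symm hd hv (smul_ne_zero ha.ne' hw), seg_smul hd hw hv ha, seg_symm hd hw hv]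

lemma seg_neg (hd : EllipticMetric d) {v w : E3} (hv : v ≠ 0) (hw : w ≠ 0) :
    seg d v (-w) = π - seg d v w := by
  by_cases h1 : SameRay ℝ v w
  · rw [seg_same h1, seg_opp hv (neg_ne_zero.2 hw) (by rwa [neg_neg]), sub_zero]
  by_cases h2 : SameRay ℝ v (-w)
  · rw [seg_same h2, seg_opp hv hw h2, sub_self]
  obtain ⟨u, hu, s, t, e1, e2, hs, ht, e⟩ := exists_param' hd (li_of_rays h1 h2)
  have h3 : -w = u (t - π) := by
    have := hu.anti (t - π)
    rw [sub_add_cancel, ht] at this
    rw [this, neg_neg]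
  rw [e, h3, ← hs, seg_symm hd (hu.ne _) (hu.ne _), hu.seg hd (by linarith) (by linarith)]
  ring

lemma dist_eq_seg (hd : EllipticMetric d) {v w : E3} (hv : v ≠ 0) (hw : w ≠ 0) :
    d v w = min (seg d v w) (π - seg d v w) := by
  by_cases h1 : SameRay ℝ v w
  · rw [seg_same h1, sub_zero, min_eq_left pi_pos.le]
    obtain ⟨r, hr, e⟩ := h1.exists_pos_left hv hw
    rw [← e, hd.symm v _ hv (by rw [e]; exact hw), hd.smul v v hv hv r hr.ne', hd.self v hv]
  by_cases h2 : SameRay ℝ v (-w)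
  · rw [seg_opp hv hw h2, sub_self, min_eq_right pi_pos.le]
    obtain ⟨r, hr, e⟩ := h2.exists_pos_left hv (neg_ne_zero.2 hw)
    have e' : w = (-r) • v := by rw [neg_smul, e, neg_neg]
    rw [e', hd.symm v _ hv (by rw [← e']; exact hw), hd.smul v v hv hv _ (by linarith),
      hd.self v hv]
  obtain ⟨u, hu, s, t, e1, e2, hs, ht, e⟩ := exists_param' hd (li_of_rays h1 h2)
  rw [e, ← hs, ← ht, hu.dist' hd e1.le e2.le]

lemma seg_nonneg (hd : EllipticMetric d) {v w : E3} (hv : v ≠ 0) (hw : w ≠ 0) :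
    0 ≤ seg d v w ∧ seg d v w ≤ π := by
  by_cases h1 : SameRay ℝ v w
  · rw [seg_same h1]; exact ⟨le_refl _, pi_pos.le⟩
  by_cases h2 : SameRay ℝ v (-w)
  · rw [seg_opp hv hw h2]; exact ⟨pi_pos.le, le_refl _⟩
  obtain ⟨u, hu, s, t, e1, e2, hs, ht, e⟩ := exists_param' hd (li_of_rays h1 h2)
  rw [e]
  constructor <;> linarith

/-- Points of the segment are not farther than its end. -/
lemma seg_mono (hd : EllipticMetric d) {v w : E3} (hv : v ≠ 0) (hw : w ≠ 0)
    (h2 : ¬ SameRay ℝ v (-w)) {x : ℝ} (hx0 : 0 ≤ x) (hx1 : x ≤ 1) :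
    (1 - x) • v + x • w ≠ 0 ∧ d v ((1 - x) • v + x • w) ≤ seg d v w := by
  have hnn := seg_nonneg hd hv hw
  rcases hx0.eq_or_lt with h0 | h0
  · rw [← h0]
    simp only [sub_zero, one_smul, zero_smul, add_zero]
    exact ⟨hv, by rw [hd.self v hv]; exact hnn.1⟩
  rcases hx1.eq_or_lt with h0' | h0'
  · rw [h0']
    simp only [sub_self, one_smul, zero_smul, zero_add]
    exact ⟨hw, by rw [dist_eq_seg hd hv hw]; exact min_le_left _ _⟩
  by_cases h1 : SameRay ℝ v w
  · obtain ⟨r, hr, e⟩ := h1.exists_pos_left hv hw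
    have e' : (1 - x) • v + x • w = ((1 - x) + x * r) • v := by rw [← e]; module
    have hp : 0 < (1 - x) + x * r := by
      have : 0 < x * r := by positivity
      linarith
    rw [e']
    refine ⟨smul_ne_zero hp.ne' hv, ?_⟩
    rw [hd.symm v _ hv (smul_ne_zero hp.ne' hv), hd.smul v v hv hv _ hp.ne', hd.self v hv]
    exact hnn.1
  obtain ⟨u, hu, s, t, e1, e2, hs, ht, e⟩ := exists_param' hd (li_of_rays h1 h2)
  refine ⟨comb_ne (li_of_rays h1 h2) (by linarith), ?_⟩
  obtain ⟨z, c, hz1, hz2, hc, e'⟩ := hu.combo s t e1 e2 (1 - x) x (by linarith) h0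
  rw [e, ← hs, ← ht, e', hu.smul_dist hd hc.ne', hu.dist' hd hz1.le (by linarith)]
  exact (min_le_left _ _).trans (by linarith)

/-- A long segment contains a point at distance `π / 2`, or zero. -/
lemma seg_long (hd : EllipticMetric d) {v w : E3} (hv : v ≠ 0) (hw : w ≠ 0)
    (h : π / 2 ≤ seg d v w) : ∃ x : ℝ, 0 ≤ x ∧ x ≤ 1 ∧ ((1 - x) • v + x • w = 0 ∨
      d v ((1 - x) • v + x • w) = π / 2) := by
  by_cases h1 : SameRay ℝ v w
  · rw [seg_same h1] at h
    linarith [pi_pos]
  by_cases h2 : SameRay ℝ v (-w)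
  · obtain ⟨r, hr, e⟩ := h2.exists_pos_left hv (neg_ne_zero.2 hw)
    have e' : w = (-r) • v := by rw [neg_smul, e, neg_neg]
    refine ⟨1 / (1 + r), by positivity, by rw [div_le_one (by linarith)]; linarith, Or.inl ?_⟩
    rw [e', smul_smul, ← add_smul]
    have : (1 - 1 / (1 + r)) + 1 / (1 + r) * -r = 0 := by field_simp; ring
    rw [this, zero_smul]
  obtain ⟨u, hu, s, t, e1, e2, hs, ht, e⟩ := exists_param' hd (li_of_rays h1 h2)
  rw [e] at h
  rcases h.eq_or_lt with h' | h'
  · refine ⟨1, zero_le_one, le_refl _, Or.inr ?_⟩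
    simp only [sub_self, one_smul, zero_smul, zero_add]
    rw [dist_eq_seg hd hv hw, e, ← h']
    rw [min_eq_left (by linarith)]
  · obtain ⟨a, b, ha, hb, e'⟩ := hu.split s (s + π / 2) t (by linarith [pi_pos]) (by linarith) e2
    refine ⟨b / (a + b), by positivity, by rw [div_le_one (by positivity)]; linarith, Or.inr ?_⟩
    have : (1 - b / (a + b)) • v + (b / (a + b)) • w = (1 / (a + b)) • u (s + π / 2) := by
      rw [e', hs, ht, smul_add, smul_smul, smul_smul]
      congr 2
      · field_simp; ring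
      · field_simp
    rw [this, ← hs, hu.smul_dist hd (by positivity),
      hu.dist' hd (by linarith [pi_pos]) (by linarith [pi_pos])]
    rw [add_sub_cancel_left]
    exact min_eq_left (by linarith)

lemma seg_lt_iff (hd : EllipticMetric d) {v w : E3} (hv : v ≠ 0) (hw : w ≠ 0) :
    seg d v w < π / 2 ↔ ∀ x ∈ Set.Icc (0 : ℝ) 1, (1 - x) • v + x • w ≠ 0 ∧
      d v ((1 - x) • v + x • w) < π / 2 := by
  constructor
  · intro h x hx
    have h2 : ¬ SameRay ℝ v (-w) := by
      intro h2
      rw [seg_opp hv hw h2] at h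
      linarith [pi_pos]
    obtain ⟨g1, g2⟩ := seg_mono hd hv hw h2 hx.1 hx.2
    exact ⟨g1, lt_of_le_of_lt g2 h⟩
  · intro h
    by_contra hcon
    push Not at hcon
    obtain ⟨x, hx0, hx1, g⟩ := seg_long hd hv hw hcon
    obtain ⟨g1, g2⟩ := h x ⟨hx0, hx1⟩
    rcases g with g | g
    · exact g1 g
    · linarith

lemma seg_open (hd : EllipticMetric d) {v w : E3} (hv : v ≠ 0) (hw : w ≠ 0)
    (h : seg d v w < π / 2) : ∀ᶠ p : E3 × E3 in 𝓝 (v, w), p.1 ≠ 0 ∧ p.2 ≠ 0 ∧
      seg d p.1 p.2 < π / 2 := by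
  have hop : IsOpen {p : E3 × E3 | p.1 ≠ 0 ∧ p.2 ≠ 0} :=
    (isOpen_ne_fun continuous_fst continuous_const).inter
      (isOpen_ne_fun continuous_snd continuous_const)
  have hnn : ∀ᶠ p : E3 × E3 in 𝓝 (v, w), p.1 ≠ 0 ∧ p.2 ≠ 0 := hop.mem_nhds ⟨hv, hw⟩
  rw [seg_lt_iff hd hv hw] at h
  have key : ∀ᶠ p : E3 × E3 in 𝓝 (v, w), ∀ x ∈ Set.Icc (0 : ℝ) 1,
      (1 - x) • p.1 + x • p.2 ≠ 0 ∧ d p.1 ((1 - x) • p.1 + x • p.2) < π / 2 := by
    apply isCompact_Icc.eventually_forall_of_forall_eventually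
    intro x hx
    obtain ⟨g1, g2⟩ := h x hx
    have c1 : Continuous (fun z : (E3 × E3) × ℝ => (1 - z.2) • z.1.1 + z.2 • z.1.2) := by
      fun_prop
    have c2 : Continuous (fun z : (E3 × E3) × ℝ =>
        (z.1.1, (1 - z.2) • z.1.1 + z.2 • z.1.2)) := by fun_prop
    have hmem : (v, (1 - x) • v + x • w) ∈ {p : E3 × E3 | p.1 ≠ 0 ∧ p.2 ≠ 0} := ⟨hv, g1⟩
    have c3 : ContinuousAt (fun p : E3 × E3 => d p.1 p.2) (v, (1 - x) • v + x • w) :=
      hd.cont.continuousAt (hop.mem_nhds hmem)
    have c4 : ContinuousAt (fun z : (E3 × E3) × ℝ => d z.1.1 ((1 - z.2) • z.1.1 + z.2 • z.1.2))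
        ((v, w), x) := by
      exact ContinuousAt.comp (f := fun z : (E3 × E3) × ℝ =>
        (z.1.1, (1 - z.2) • z.1.1 + z.2 • z.1.2)) (x := ((v, w), x)) c3 c2.continuousAt
    have e1 : ∀ᶠ z : (E3 × E3) × ℝ in 𝓝 ((v, w), x), (1 - z.2) • z.1.1 + z.2 • z.1.2 ≠ 0 :=
      c1.continuousAt.eventually_ne g1
    have e2 : ∀ᶠ z : (E3 × E3) × ℝ in 𝓝 ((v, w), x),
        d z.1.1 ((1 - z.2) • z.1.1 + z.2 • z.1.2) < π / 2 := c4.eventually_lt_const g2
    exact e1.and e2
  filter_upwards [hnn, key] with p hp hk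
  exact ⟨hp.1, hp.2, (seg_lt_iff hd hp.1 hp.2).2 hk⟩

lemma seg_cont (hd : EllipticMetric d) :
    ContinuousOn (fun p : E3 × E3 => seg d p.1 p.2) {p | p.1 ≠ 0 ∧ p.2 ≠ 0} := by
  have hop : IsOpen {p : E3 × E3 | p.1 ≠ 0 ∧ p.2 ≠ 0} :=
    (isOpen_ne_fun continuous_fst continuous_const).inter
      (isOpen_ne_fun continuous_snd continuous_const)
  rintro ⟨v, w⟩ ⟨hv, hw⟩
  simp only at hv hw
  apply ContinuousAt.continuousWithinAt
  have hdc : ContinuousAt (fun p : E3 × E3 => d p.1 p.2) (v, w) :=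
    hd.cont.continuousAt (hop.mem_nhds ⟨hv, hw⟩)
  have hnn : ∀ᶠ p : E3 × E3 in 𝓝 (v, w), p.1 ≠ 0 ∧ p.2 ≠ 0 := hop.mem_nhds ⟨hv, hw⟩
  rcases lt_trichotomy (seg d v w) (π / 2) with h | h | h
  · refine hdc.congr ?_
    filter_upwards [seg_open hd hv hw h] with p hp
    rw [dist_eq_seg hd hp.1 hp.2.1, min_eq_left (by linarith [hp.2.2])]
  · have hval : d v w = π / 2 := by
      rw [dist_eq_seg hd hv hw, h, min_eq_left (by linarith)]
    rw [ContinuousAt, h, tendsto_iff_norm_sub_tendsto_zero]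
    have h1 : Tendsto (fun p : E3 × E3 => π / 2 - d p.1 p.2) (𝓝 (v, w)) (𝓝 0) := by
      have : Tendsto (fun p : E3 × E3 => d p.1 p.2) (𝓝 (v, w)) (𝓝 (π / 2)) := by
        have := hdc.tendsto
        rwa [hval] at this
      have := (tendsto_const_nhds (x := π / 2)).sub this
      rwa [sub_self] at this
    refine squeeze_zero' (Eventually.of_forall fun p => norm_nonneg _) ?_ h1
    filter_upwards [hnn] with p hp
    rw [Real.norm_eq_abs, dist_eq_seg hd hp.1 hp.2]
    rcases le_total (seg d p.1 p.2) (π - seg d p.1 p.2) with g | g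
    · rw [min_eq_left g, abs_of_nonpos (by linarith)]
      linarith
    · rw [min_eq_right g, abs_of_nonneg (by linarith)]
      linarith
  · have h' : seg d v (-w) < π / 2 := by rw [seg_neg hd hv hw]; linarith
    have hev := seg_open hd hv (neg_ne_zero.2 hw) h'
    have hc : Tendsto (fun p : E3 × E3 => (p.1, -p.2)) (𝓝 (v, w)) (𝓝 (v, -w)) := by
      have : Continuous (fun p : E3 × E3 => (p.1, -p.2)) := by fun_prop
      exact this.tendsto (v, w)
    have hdc' : ContinuousAt (fun p : E3 × E3 => π - d p.1 p.2) (v, w) :=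
      continuousAt_const.sub hdc
    refine hdc'.congr ?_
    filter_upwards [hc.eventually hev] with p hp
    obtain ⟨p1, p2, p3⟩ := hp
    have p2' : p.2 ≠ 0 := neg_ne_zero.1 p2
    rw [seg_neg hd p1 p2'] at p3
    rw [dist_eq_seg hd p1 p2', min_eq_right (by linarith)]
    ring

lemma seg_plane (hd : EllipticMetric d) : EllipticPlane (seg d) := by
  refine ⟨fun v w hv hw => seg_symm hd hv hw, fun v w hv hw a ha => seg_smul hd hv hw ha,
    fun v w hv hw => seg_neg hd hv hw, fun v _ => seg_same (SameRay.refl v), ?_, ?_,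
    seg_cont hd, ?_⟩
  · intro v w hv hw h1
    by_cases h2 : SameRay ℝ v (-w)
    · rw [seg_opp hv hw h2]; exact pi_pos
    obtain ⟨u, hu, s, t, e1, e2, hs, ht, e⟩ := exists_param' hd (li_of_rays h1 h2)
    rw [e]; linarith
  · intro v w hli a b ha hb
    obtain ⟨u, hu, s, t, e1, e2, hs, ht, e⟩ := exists_param' hd hli
    obtain ⟨z, c, hz1, hz2, hc, e'⟩ := hu.combo s t e1 e2 a b ha hb
    rw [e, ← hs, ← ht, e', seg_smul' hd (hu.ne s) (hu.ne z) hc, seg_smul hd (hu.ne z) (hu.ne t) hc,
      hu.seg hd hz1 (by linarith), hu.seg hd hz2 (by linarith)]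
    ring
  · intro u v w hu hv hw
    have := hd.triangle u v w hu hv hw
    rw [dist_eq_seg hd hu hw, dist_eq_seg hd hu hv, dist_eq_seg hd hv hw] at this
    exact this

lemma seg_convex (hd : EllipticMetric d) (hc : ConvexDiscs d) : StrictlyConvexCircles (seg d) := by
  intro N hN r hr v w hli hv hw a b ha hb
  obtain ⟨n1, n2, hv0, hw0⟩ := rays_of_li hli
  have hr0 : 0 < r := by
    by_contra hneg
    push Not at hneg
    have e1 : SameRay ℝ N v := by
      by_contra hns
      have := (seg_plane hd).pos N v hN hv0 hns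
      linarith
    have e2 : SameRay ℝ N w := by
      by_contra hns
      have := (seg_plane hd).pos N w hN hw0 hns
      linarith
    exact n1 (e1.symm.trans e2 (fun h => absurd h hN))
  obtain ⟨f, hf1, hf2⟩ := hc N hN r hr0 hr
  -- the form has the sign of the centre on the disc
  have sgn : ∀ N' u : E3, N' ≠ 0 → u ≠ 0 → (∀ y, y ≠ 0 → d N' y = d N y) → seg d N' u ≤ r →
      0 < f N' * f u := by
    intro N' u hN' hu hdN hle
    have h2 : ¬ SameRay ℝ N' (-u) := by
      intro h2
      rw [seg_opp hN' hu h2] at hle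
      linarith [pi_pos]
    have hne : ∀ x : ℝ, 0 ≤ x → x ≤ 1 → f ((1 - x) • N' + x • u) ≠ 0 := by
      intro x hx0 hx1
      obtain ⟨g1, g2⟩ := seg_mono hd hN' hu h2 hx0 hx1
      apply hf1 _ g1
      rw [← hdN _ g1]
      exact g2.trans hle
    have hN0 : f N' ≠ 0 := by
      have := hne 0 le_rfl zero_le_one
      simpa using this
    have hu0 : f u ≠ 0 := by
      have := hne 1 zero_le_one le_rfl
      simpa using this
    by_contra hcon
    push Not at hcon
    have hlt : f N' * f u < 0 := lt_of_le_of_ne hcon (mul_ne_zero hN0 hu0)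
    have hsub : f N' - f u ≠ 0 := by
      intro h
      have : f N' = f u := by linarith
      rw [this] at hlt
      nlinarith [sq_nonneg (f u)]
    have hq : f N' / (f N' - f u) = (f N' * (f N' - f u)) / (f N' - f u) ^ 2 := by
      field_simp
    have hq' : 1 - f N' / (f N' - f u) = (-(f u) * (f N' - f u)) / (f N' - f u) ^ 2 := by
      field_simp
      ring
    have hs2 : 0 < (f N' - f u) ^ 2 := by positivity
    refine hne (f N' / (f N' - f u)) ?_ ?_ ?_
    · rw [hq]
      apply div_nonneg _ hs2.le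
      nlinarith [sq_nonneg (f N')]
    · have : 0 ≤ 1 - f N' / (f N' - f u) := by
        rw [hq']
        apply div_nonneg _ hs2.le
        nlinarith [sq_nonneg (f u)]
      linarith
    · rw [map_add, map_smul, map_smul, smul_eq_mul, smul_eq_mul]
      field_simp
      ring
  have dle : ∀ u : E3, u ≠ 0 → seg d N u ≤ r → d N u ≤ r := by
    intro u hu hle
    rw [dist_eq_seg hd hN hu]
    exact (min_le_left _ _).trans hle
  have hcomb : a • v + b • w ≠ 0 := comb_ne hli ha.ne'
  have sv := sgn N v hN hv0 (fun y _ => rfl) hv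
  have sw := sgn N w hN hw0 (fun y _ => rfl) hw
  have hdlt : d N (a • v + b • w) < r := by
    rcases lt_trichotomy (f N) 0 with h | h | h
    · have fv : f v < 0 := by
        by_contra hcon
        push Not at hcon
        nlinarith
      have fw : f w < 0 := by
        by_contra hcon
        push Not at hcon
        nlinarith
      have hli' : LinearIndependent ℝ ![-v, -w] := by
        rw [LinearIndependent.pair_iff] at hli ⊢
        intro s t hst
        have := hli (-s) (-t) (by rw [← hst]; module)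
        exact ⟨by linarith [this.1], by linarith [this.2]⟩
      have dneg : ∀ u : E3, u ≠ 0 → d N (-u) = d N u := by
        intro u hu
        rw [hd.symm N _ hN (neg_ne_zero.2 hu), hd.symm N u hN hu,
          show -u = (-1 : ℝ) • u by module, hd.smul u N hu hN (-1) (by norm_num)]
      have := hf2 (-v) (-w) hli' (by rw [dneg v hv0]; exact dle v hv0 hv)
        (by rw [dneg w hw0]; exact dle w hw0 hw) (by rw [map_neg]; linarith)
        (by rw [map_neg]; linarith) a b ha hb
      rw [show a • -v + b • -w = -(a • v + b • w) by module, dneg _ hcomb] at this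
      exact this
    · rw [h, zero_mul] at sv
      exact absurd sv (lt_irrefl _)
    · have fv : 0 < f v := by
        by_contra hcon
        push Not at hcon
        nlinarith
      have fw : 0 < f w := by
        by_contra hcon
        push Not at hcon
        nlinarith
      exact hf2 v w hli (dle v hv0 hv) (dle w hw0 hw) fv fw a b ha hb
  rw [dist_eq_seg hd hN hcomb] at hdlt
  rcases min_lt_iff.1 hdlt with h | h
  · exact h
  · exfalso
    have hN' : -N ≠ 0 := neg_ne_zero.2 hN
    have e1 : seg d (-N) (a • v + b • w) = π - seg d N (a • v + b • w) := by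
      rw [seg_symm hd hN' hcomb, seg_neg hd hcomb hN, seg_symm hd hcomb hN]
    have s3 := sgn (-N) (a • v + b • w) hN' hcomb (by
      intro y hy
      rw [show -N = (-1 : ℝ) • N by module, hd.smul N y hN hy (-1) (by norm_num)]) (by
      rw [e1]; linarith)
    rw [map_neg, map_add, map_smul, map_smul, smul_eq_mul, smul_eq_mul] at s3
    have t1 := mul_pos ha sv
    have t2 := mul_pos hb sw
    nlinarith

theorem bridge (d : E3 → E3 → ℝ) (hd : EllipticMetric d) :
    ∃ L : E3 → E3 → ℝ, EllipticPlane L ∧ (∀ v w, v ≠ 0 → w ≠ 0 → d v w = dE L v w) ∧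
      (ConvexDiscs d → StrictlyConvexCircles L) :=
  ⟨seg d, seg_plane hd, fun _ _ hv hw => dist_eq_seg hd hv hw, seg_convex hd⟩

end Pool.Agent.Helper87.Elliptic
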