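import Mathlib

set_option autoImplicit false

namespace Pool.Agent.Helper87.ThalesB

namespace J278

/-- affine point combination parametrisation -/
def lp (X Y : ℝ × ℝ) (t : ℝ) : ℝ × ℝ := (X.1 + t * (Y.1 - X.1), X.2 + t * (Y.2 - X.2))

/-- the one function two-point property -/
def TP (M : Set (ℝ × ℝ)) (F : ℝ × ℝ → ℝ) : Prop :=
  ∀ X ∈ M, ∀ Y ∈ M, X ≠ Y → F X = 0 → F Y = 0 → ∀ t : ℝ, lp X Y t ∈ M → F (lp X Y t) = 0

lemma conv_mem {M : Set (ℝ × ℝ)} (hc : Convex ℝ M) {A B : ℝ × ℝ} (hA : A ∈ M) (hB : B ∈ M)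
    {t : ℝ} (h0 : 0 ≤ t) (h1 : t ≤ 1) : lp A B t ∈ M := by
  have := hc hA hB (sub_nonneg.2 h1) h0 (by ring)
  convert this using 1
  ext <;> simp [lp] <;> ring

lemma nonvanish {M : Set (ℝ × ℝ)} (hc : Convex ℝ M) {F : ℝ × ℝ → ℝ} (hF : TP M F)
    {A B C : ℝ × ℝ} (hA : A ∈ M) (hB : B ∈ M) (hC : C ∈ M) (hBC : B ≠ C)
    (fA : 0 < F A) (fB : F B = 0) (fC : F C = 0)
    {β γ : ℝ} (hβ : 0 ≤ β) (hγ : 0 ≤ γ) (hs : β + γ < 1) {Z : ℝ × ℝ}
    (hZ : Z = ((1 - β - γ) * A.1 + β * B.1 + γ * C.1, (1 - β - γ) * A.2 + β * B.2 + γ * C.2))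
    (hZM : Z ∈ M) : F Z ≠ 0 := by
  intro h0
  rcases eq_or_lt_of_le (add_nonneg hβ hγ) with h | h
  · have hb : β = 0 := by linarith
    have hg : γ = 0 := by linarith
    subst hb hg
    have : Z = A := by rw [hZ]; ext <;> simp
    rw [this] at h0; linarith
  · set Y : ℝ × ℝ := lp B C (γ / (β + γ)) with hY
    have hYM : Y ∈ M := conv_mem hc hB hC (by positivity) (by rw [div_le_one h]; linarith)
    have fY : F Y = 0 := hF B hB C hC hBC fB fC _ hYM
    have hYA : Y ≠ Z := by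
      intro hYZ
      have : A = Z := by
        have e1 := congrArg Prod.fst hYZ
        have e2 := congrArg Prod.snd hYZ
        simp only [hY, hZ, lp] at e1 e2
        have hne : (β + γ) ≠ 0 := h.ne'
        have hne' : (1 - β - γ) ≠ 0 := by linarith
        rw [hZ]
        field_simp at e1 e2
        ext
        · simp only
          apply mul_left_cancel₀ hne'
          apply mul_left_cancel₀ hne
          linear_combination (-(β+γ)) * e1
        · simp only
          apply mul_left_cancel₀ hne'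
          apply mul_left_cancel₀ hne
          linear_combination (-(β+γ)) * e2
      rw [this] at fA; linarith
    have hAl : lp Y Z (1 / (1 - β - γ)) = A := by
      have hne : (β + γ) ≠ 0 := h.ne'
      have hne' : (1 - β - γ) ≠ 0 := by linarith
      ext
      · simp only [hY, hZ, lp]
        field_simp
        ring
      · simp only [hY, hZ, lp]
        field_simp
        ring
    have := hF Y hYM Z hZM hYA fY h0 (1 / (1 - β - γ)) (by rw [hAl]; exact hA)
    rw [hAl] at this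
    linarith


lemma lp_cont (A B : ℝ × ℝ) : Continuous (fun t => lp A B t) := by
  unfold lp; fun_prop

lemma positive {M : Set (ℝ × ℝ)} (hc : Convex ℝ M) {F : ℝ × ℝ → ℝ} (hF : TP M F)
    (hcont : ContinuousOn F M)
    {A B C : ℝ × ℝ} (hA : A ∈ M) (hB : B ∈ M) (hC : C ∈ M) (hBC : B ≠ C)
    (fA : 0 < F A) (fB : F B = 0) (fC : F C = 0)
    {β γ : ℝ} (hβ : 0 ≤ β) (hγ : 0 ≤ γ) (hs : β + γ < 1) {Z : ℝ × ℝ}
    (hZ : Z = ((1 - β - γ) * A.1 + β * B.1 + γ * C.1, (1 - β - γ) * A.2 + β * B.2 + γ * C.2))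
    (hZM : Z ∈ M) : 0 < F Z := by
  by_contra hneg
  push Not at hneg
  -- along the segment from A to Z
  have hmap : Set.MapsTo (fun t => lp A Z t) (Set.Icc 0 1) M := by
    intro t ht
    exact conv_mem hc hA hZM ht.1 ht.2
  have hco : ContinuousOn (fun t => F (lp A Z t)) (Set.Icc 0 1) :=
    hcont.comp (lp_cont A Z).continuousOn hmap
  have h01 : (0:ℝ) ≤ 1 := zero_le_one
  have hiv := intermediate_value_Icc' h01 hco
  have e0 : lp A Z 0 = A := by ext <;> simp [lp]
  have e1 : lp A Z 1 = Z := by ext <;> simp [lp]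
  simp only [e0, e1] at hiv
  obtain ⟨t, ht, ht0⟩ := hiv ⟨hneg, fA.le⟩
  refine nonvanish hc hF hA hB hC hBC fA fB fC (β := t * β) (γ := t * γ)
    (mul_nonneg ht.1 hβ) (mul_nonneg ht.1 hγ) ?_ (Z := lp A Z t) ?_ (hmap ht) ht0
  · have : t * (β + γ) < 1 := by
      calc t * (β + γ) ≤ 1 * (β + γ) := mul_le_mul_of_nonneg_right ht.2 (add_nonneg hβ hγ)
        _ < 1 := by linarith
    linarith [this, mul_add t β γ]
  · ext
    · simp only [lp, hZ]; ring
    · simp only [lp, hZ]; ring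


lemma small {p q : ℝ} (hp : 0 < p) (hq : 0 < q) (hpq : p + q < 1) (Z : ℝ × ℝ) :
    ∃ ε : ℝ, 0 < ε ∧ 0 < (lp (p, q) Z ε).1 ∧ 0 < (lp (p, q) Z ε).2 ∧
      (lp (p, q) Z ε).1 + (lp (p, q) Z ε).2 < 1 := by
  have hcont := lp_cont (p, q) Z
  have e1 : ∀ᶠ t in nhds (0:ℝ), 0 < (lp (p, q) Z t).1 := by
    apply (continuous_fst.comp hcont).continuousAt.eventually_const_lt
    simp [lp]; exact hp
  have e2 : ∀ᶠ t in nhds (0:ℝ), 0 < (lp (p, q) Z t).2 := by
    apply (continuous_snd.comp hcont).continuousAt.eventually_const_lt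
    simp [lp]; exact hq
  have e3 : ∀ᶠ t in nhds (0:ℝ), (lp (p, q) Z t).1 + (lp (p, q) Z t).2 < 1 := by
    apply ((continuous_fst.comp hcont).add (continuous_snd.comp hcont)).continuousAt.eventually_lt_const
    simp [lp]; exact hpq
  have h := (e1.and (e2.and e3)).filter_mono (nhdsWithin_le_nhds (s := Set.Ioi (0:ℝ)))
  have h' := h.and (eventually_nhdsWithin_of_forall (fun t ht => ht) :
    ∀ᶠ t in nhdsWithin (0:ℝ) (Set.Ioi 0), t ∈ Set.Ioi (0:ℝ))
  obtain ⟨t, ht, ht0⟩ := h'.exists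
  exact ⟨t, ht0, ht.1, ht.2.1, ht.2.2⟩

lemma lp_back {C Z : ℝ × ℝ} {ε : ℝ} (hε : 0 < ε) : lp C (lp C Z ε) (1 / ε) = Z := by
  ext
  · simp only [lp]; field_simp; ring
  · simp only [lp]; field_simp; ring

lemma lp_ne {C Z : ℝ × ℝ} {ε : ℝ} (hε : 0 < ε) (h : C ≠ Z) : C ≠ lp C Z ε := by
  intro h'
  apply h
  have h1 := congrArg Prod.fst h'
  have h2 := congrArg Prod.snd h'
  simp only [lp] at h1 h2
  have h1' : ε * (Z.1 - C.1) = 0 := by linarith
  have h2' : ε * (Z.2 - C.2) = 0 := by linarith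
  rcases mul_eq_zero.1 h1' with h | h <;> rcases mul_eq_zero.1 h2' with h'' | h''
  · exact absurd h hε.ne'
  · exact absurd h hε.ne'
  · exact absurd h'' hε.ne'
  · ext <;> linarith

lemma tri_mem {M : Set (ℝ × ℝ)} (hc : Convex ℝ M)
    (h3 : ((0:ℝ),(0:ℝ)) ∈ M) (h1 : ((1:ℝ),(0:ℝ)) ∈ M) (h2 : ((0:ℝ),(1:ℝ)) ∈ M)
    {x y : ℝ} (hx : 0 ≤ x) (hy : 0 ≤ y) (hxy : x + y ≤ 1) : (x, y) ∈ M := by
  have a1 : lp (0,0) (1,0) (x / (1 - y)) ∈ M ∨ y = 1 := by
    by_cases hy1 : y = 1
    · right; exact hy1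
    · left
      have : 0 < 1 - y := by
        rcases lt_or_eq_of_le (by linarith : y ≤ 1) with h | h
        · linarith
        · exact absurd h hy1
      exact conv_mem hc h3 h1 (by positivity) (by rw [div_le_one this]; linarith)
  rcases a1 with a1 | a1
  · by_cases hy1 : y = 1
    · have : x = 0 := by linarith
      rw [this, hy1]; exact h2
    · have hlt : 0 < 1 - y := by
        rcases lt_or_eq_of_le (by linarith : y ≤ 1) with h | h
        · linarith
        · exact absurd h hy1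
      have := conv_mem hc a1 h2 hy (by linarith : y ≤ 1)
      convert this using 1
      ext
      · simp only [lp]; field_simp; ring
      · simp only [lp]; ring
  · have : x = 0 := by linarith
    rw [this, a1]; exact h2

/-- function vanishing on the open standard triangle vanishes on `M` -/
lemma extend_zero {M : Set (ℝ × ℝ)} (hc : Convex ℝ M) {F : ℝ × ℝ → ℝ} (hF : TP M F)
    (h3 : ((0:ℝ),(0:ℝ)) ∈ M) (h1 : ((1:ℝ),(0:ℝ)) ∈ M) (h2 : ((0:ℝ),(1:ℝ)) ∈ M)
    (hT : ∀ x y : ℝ, 0 < x → 0 < y → x + y < 1 → F (x, y) = 0) :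
    ∀ Z ∈ M, F Z = 0 := by
  intro Z hZ
  by_cases hZC : ((1/4:ℝ),(1/4:ℝ)) = Z
  · rw [← hZC]; exact hT _ _ (by norm_num) (by norm_num) (by norm_num)
  obtain ⟨ε, hε, e1, e2, e3⟩ := small (p := 1/4) (q := 1/4) (by norm_num) (by norm_num) (by norm_num) Z
  have hC : ((1/4:ℝ),(1/4:ℝ)) ∈ M := tri_mem hc h3 h1 h2 (by norm_num) (by norm_num) (by norm_num)
  have hC' : lp (1/4,1/4) Z ε ∈ M := tri_mem hc h3 h1 h2 e1.le e2.le e3.le
  have := hF _ hC _ hC' (lp_ne hε hZC) (hT _ _ (by norm_num) (by norm_num) (by norm_num))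
    (hT _ _ e1 e2 e3) (1/ε) (by rw [lp_back hε]; exact hZ)
  rwa [lp_back hε] at this

lemma kernel {M : Set (ℝ × ℝ)} (hc : Convex ℝ M) {F : ℝ × ℝ → ℝ} (hF : TP M F)
    (h3 : ((0:ℝ),(0:ℝ)) ∈ M) (h1 : ((1:ℝ),(0:ℝ)) ∈ M) (h2 : ((0:ℝ),(1:ℝ)) ∈ M)
    (f3 : F (0,0) = 0) (f1 : F (1,0) = 0) (f2 : F (0,1) = 0) : ∀ Z ∈ M, F Z = 0 := by
  have hmem := fun {x y : ℝ} => tri_mem hc h3 h1 h2 (x := x) (y := y)
  apply extend_zero hc hF h3 h1 h2
  intro x y hx hy hxy
  have hA : F (0, y) = 0 := by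
    have e : lp (0,0) (0,1) y = (0, y) := by ext <;> simp [lp]
    have hm : lp (0,0) (0,1) y ∈ M := by rw [e]; exact hmem le_rfl hy.le (by linarith)
    have := hF _ h3 _ h2 (by simp) f3 f2 y hm
    rwa [e] at this
  have hB : F (1 - y, y) = 0 := by
    have e : lp (1,0) (0,1) y = (1 - y, y) := by ext <;> simp [lp]; ring
    have hm : lp (1,0) (0,1) y ∈ M := by rw [e]; exact hmem (by linarith) hy.le (by linarith)
    have := hF _ h1 _ h2 (by simp) f1 f2 y hm
    rwa [e] at this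
  have hy1 : 0 < 1 - y := by linarith
  have e : lp (0,y) (1-y,y) (x/(1-y)) = (x, y) := by
    ext
    · simp only [lp]; field_simp; ring
    · simp [lp]
  have hm : (x, y) ∈ M := hmem hx.le hy.le hxy.le
  have := hF (0, y) (hmem le_rfl hy.le (by linarith)) (1-y, y) (hmem hy1.le hy.le (by linarith))
    (by intro h; have := congrArg Prod.fst h; simp only at this; linarith) hA hB (x/(1-y)) (by rw [e]; exact hm)
  rwa [e] at this


/-- continuous multiplicative positive functions on `(0,∞)` are powers; the special values at `2`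
leave only the constant and the identity -/
lemma mult_cases (φ : ℝ → ℝ) (hpos : ∀ s, 0 < s → 0 < φ s)
    (hmul : ∀ s t, 0 < s → 0 < t → φ (s * t) = φ s * φ t)
    (hcont : ContinuousOn φ (Set.Ioi 0))
    (h2 : 2 * φ 2 = 1 + φ 3) (h3 : 2 * φ (3/2) = 1 + φ 2) :
    (∀ s, 0 < s → φ s = 1) ∨ (∀ s, 0 < s → φ s = s) := by
  have h1 : φ 1 = 1 := by
    have := hmul 1 1 one_pos one_pos
    rw [mul_one] at this
    have hp := hpos 1 one_pos
    have : φ 1 * (φ 1 - 1) = 0 := by linarith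
    rcases mul_eq_zero.1 this with h | h
    · linarith
    · linarith
  have hcc : Continuous (fun r => Real.log (φ (Real.exp r))) := by
    have : Continuous (fun r => φ (Real.exp r)) :=
      hcont.comp_continuous Real.continuous_exp (fun r => Real.exp_pos r)
    exact this.log (fun r => (hpos _ (Real.exp_pos r)).ne')
  let ψ : ℝ →+ ℝ :=
    { toFun := fun r => Real.log (φ (Real.exp r))
      map_zero' := by simp [h1]
      map_add' := by
        intro a b
        rw [Real.exp_add, hmul _ _ (Real.exp_pos a) (Real.exp_pos b),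
          Real.log_mul (hpos _ (Real.exp_pos a)).ne' (hpos _ (Real.exp_pos b)).ne'] }
  have hlin : ∀ r, ψ r = r * ψ 1 := by
    intro r
    have := (AddMonoidHom.toRealLinearMap ψ hcc).map_smul r 1
    simpa using this
  have hφ : ∀ s, 0 < s → φ s = Real.exp (Real.log s * ψ 1) := by
    intro s hs
    rw [← hlin (Real.log s)]
    show φ s = Real.exp (Real.log (φ (Real.exp (Real.log s))))
    rw [Real.exp_log hs, Real.exp_log (hpos s hs)]
  have h23 : φ 3 = φ 2 * φ (3/2) := by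
    rw [← hmul 2 (3/2) (by norm_num) (by norm_num)]; norm_num
  have hq : (φ 2 - 1) * (φ 2 - 2) = 0 := by
    have : 2 * φ 3 = φ 2 * (1 + φ 2) := by rw [h23, ← h3]; ring
    nlinarith
  have hlog2 : Real.log 2 ≠ 0 := (Real.log_pos (by norm_num)).ne'
  rcases mul_eq_zero.1 hq with h | h
  · left
    have e : φ 2 = 1 := by linarith
    rw [hφ 2 (by norm_num), Real.exp_eq_one_iff] at e
    have k0 : ψ 1 = 0 := by
      rcases mul_eq_zero.1 e with h | h
      · exact absurd h hlog2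
      · exact h
    intro s hs
    rw [hφ s hs, k0]; simp
  · right
    have e : φ 2 = 2 := by linarith
    rw [hφ 2 (by norm_num)] at e
    have e' : Real.log 2 * ψ 1 = Real.log 2 := by
      have := congrArg Real.log e
      rwa [Real.log_exp] at this
    have k1 : ψ 1 = 1 := by
      have : Real.log 2 * (ψ 1 - 1) = 0 := by linarith
      rcases mul_eq_zero.1 this with h | h
      · exact absurd h hlog2
      · linarith
    intro s hs
    rw [hφ s hs, k1, mul_one, Real.exp_log hs]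


/-- the point of the open triangle with homogeneous coordinates `(s : t : 1)` -/
noncomputable def Q (s t : ℝ) : ℝ × ℝ := (s / (1 + s + t), t / (1 + s + t))

structure Setup (M : Set (ℝ × ℝ)) (u v w : ℝ × ℝ → ℝ) : Prop where
  hc : Convex ℝ M
  h3 : ((0:ℝ),(0:ℝ)) ∈ M
  h1 : ((1:ℝ),(0:ℝ)) ∈ M
  h2 : ((0:ℝ),(1:ℝ)) ∈ M
  cu : ContinuousOn u M
  cv : ContinuousOn v M
  cw : ContinuousOn w M
  hL : ∀ a b c : ℝ, TP M (fun X => a * u X + b * v X + c * w X)
  u1 : u (1,0) = 1
  u2 : u (0,1) = 0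
  u3 : u (0,0) = 0
  v1 : v (1,0) = 0
  v2 : v (0,1) = 1
  v3 : v (0,0) = 0
  w1 : w (1,0) = 0
  w2 : w (0,1) = 0
  w3 : w (0,0) = 1

variable {M : Set (ℝ × ℝ)} {u v w : ℝ × ℝ → ℝ}

lemma Setup.tpu (S : Setup M u v w) : TP M u := by simpa using S.hL 1 0 0
lemma Setup.tpv (S : Setup M u v w) : TP M v := by simpa using S.hL 0 1 0
lemma Setup.tpw (S : Setup M u v w) : TP M w := by simpa using S.hL 0 0 1

lemma Setup.mem (S : Setup M u v w) {x y : ℝ} (hx : 0 ≤ x) (hy : 0 ≤ y) (h : x + y ≤ 1) :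
    (x, y) ∈ M := tri_mem S.hc S.h3 S.h1 S.h2 hx hy h

lemma Setup.upos (S : Setup M u v w) {x y : ℝ} (hx : 0 < x) (hy : 0 < y) (h : x + y < 1) :
    0 < u (x, y) := by
  apply positive S.hc S.tpu S.cu S.h1 S.h2 S.h3 (by simp) (by rw [S.u1]; norm_num) S.u2 S.u3
    (β := y) (γ := 1 - x - y) hy.le (by linarith) (by linarith) _ (S.mem hx.le hy.le h.le)
  ext <;> simp

lemma Setup.vpos (S : Setup M u v w) {x y : ℝ} (hx : 0 < x) (hy : 0 < y) (h : x + y < 1) :
    0 < v (x, y) := by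
  apply positive S.hc S.tpv S.cv S.h2 S.h1 S.h3 (by simp) (by rw [S.v2]; norm_num) S.v1 S.v3
    (β := x) (γ := 1 - x - y) hx.le (by linarith) (by linarith) _ (S.mem hx.le hy.le h.le)
  ext <;> simp

lemma Setup.wpos (S : Setup M u v w) {x y : ℝ} (hx : 0 < x) (hy : 0 < y) (h : x + y < 1) :
    0 < w (x, y) := by
  apply positive S.hc S.tpw S.cw S.h3 S.h1 S.h2 (by simp) (by rw [S.w3]; norm_num) S.w1 S.w2
    (β := x) (γ := y) hx.le hy.le (by linarith) _ (S.mem hx.le hy.le h.le)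
  ext <;> simp

lemma Q_tri {s t : ℝ} (hs : 0 < s) (ht : 0 < t) :
    0 < (Q s t).1 ∧ 0 < (Q s t).2 ∧ (Q s t).1 + (Q s t).2 < 1 := by
  have h : 0 < 1 + s + t := by positivity
  refine ⟨by simp only [Q]; positivity, by simp only [Q]; positivity, ?_⟩
  simp only [Q]
  rw [← add_div, div_lt_one h]; linarith

lemma Setup.Qmem (S : Setup M u v w) {s t : ℝ} (hs : 0 < s) (ht : 0 < t) : Q s t ∈ M := by
  obtain ⟨a, b, c⟩ := Q_tri hs ht
  exact S.mem a.le b.le c.le

lemma Setup.Qu (S : Setup M u v w) {s t : ℝ} (hs : 0 < s) (ht : 0 < t) : 0 < u (Q s t) := by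
  obtain ⟨a, b, c⟩ := Q_tri hs ht
  exact S.upos a b c
lemma Setup.Qv (S : Setup M u v w) {s t : ℝ} (hs : 0 < s) (ht : 0 < t) : 0 < v (Q s t) := by
  obtain ⟨a, b, c⟩ := Q_tri hs ht
  exact S.vpos a b c
lemma Setup.Qw (S : Setup M u v w) {s t : ℝ} (hs : 0 < s) (ht : 0 < t) : 0 < w (Q s t) := by
  obtain ⟨a, b, c⟩ := Q_tri hs ht
  exact S.wpos a b c

/-- `u/v` is constant on lines through the origin -/
lemma Setup.R12 (S : Setup M u v w) {s t s' t' : ℝ} (hs : 0 < s) (ht : 0 < t) (hs' : 0 < s')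
    (ht' : 0 < t') (h : s * t' = t * s') : u (Q s t) * v (Q s' t') = v (Q s t) * u (Q s' t') := by
  have e : lp (0,0) (Q s t) ((s'/(1+s'+t')) / (s / (1+s+t))) = Q s' t' := by
    ext
    · simp only [lp, Q]; field_simp; ring
    · simp only [lp, Q]; field_simp; linear_combination (-1) * h
  have hne : ((0:ℝ),(0:ℝ)) ≠ Q s t := by
    intro h'
    have := congrArg Prod.fst h'
    have := (Q_tri hs ht).1
    simp_all
  have := S.hL (v (Q s t)) (- u (Q s t)) 0 (0,0) S.h3 (Q s t) (S.Qmem hs ht) hne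
    (by simp [S.u3, S.v3]) (by simp; ring) _ (by rw [e]; exact S.Qmem hs' ht')
  rw [e] at this
  simp only at this
  linarith

/-- `u/w` is constant on lines through `(0,1)` -/
lemma Setup.R13 (S : Setup M u v w) {s t t' : ℝ} (hs : 0 < s) (ht : 0 < t)
    (ht' : 0 < t') : u (Q s t) * w (Q s t') = w (Q s t) * u (Q s t') := by
  have e : lp (0,1) (Q s t) ((1+s+t)/(1+s+t')) = Q s t' := by
    ext
    · simp only [lp, Q]; field_simp; ring
    · simp only [lp, Q]; field_simp; ring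
  have hne : ((0:ℝ),(1:ℝ)) ≠ Q s t := by
    intro h'
    have h1 := congrArg Prod.fst h'
    have := (Q_tri hs ht).1
    simp only at h1
    linarith
  have := S.hL (w (Q s t)) 0 (- u (Q s t)) (0,1) S.h2 (Q s t) (S.Qmem hs ht) hne
    (by simp [S.u2, S.w2]) (by simp; ring) _ (by rw [e]; exact S.Qmem hs ht')
  rw [e] at this
  simp only at this
  linarith

/-- `v/w` is constant on lines through `(1,0)` -/
lemma Setup.R23 (S : Setup M u v w) {s t s' : ℝ} (hs : 0 < s) (ht : 0 < t)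
    (hs' : 0 < s') : v (Q s t) * w (Q s' t) = w (Q s t) * v (Q s' t) := by
  have e : lp (1,0) (Q s t) ((1+s+t)/(1+s'+t)) = Q s' t := by
    ext
    · simp only [lp, Q]; field_simp; ring
    · simp only [lp, Q]; field_simp; ring
  have hne : ((1:ℝ),(0:ℝ)) ≠ Q s t := by
    intro h'
    have h1 := congrArg Prod.snd h'
    have := (Q_tri hs ht).2.1
    simp only at h1
    linarith
  have := S.hL 0 (w (Q s t)) (- v (Q s t)) (1,0) S.h1 (Q s t) (S.Qmem hs ht) hne
    (by simp [S.v1, S.w1]) (by simp; ring) _ (by rw [e]; exact S.Qmem hs' ht)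
  rw [e] at this
  simp only at this
  linarith


lemma Q_cont : ContinuousOn (fun s : ℝ => Q s 1) (Set.Ioi 0) := by
  unfold Q
  refine ContinuousOn.prodMk ?_ ?_
  · exact ContinuousOn.div (by fun_prop) (by fun_prop) (fun s hs => by
      have : (0:ℝ) < s := hs
      positivity)
  · exact ContinuousOn.div (by fun_prop) (by fun_prop) (fun s hs => by
      have : (0:ℝ) < s := hs
      positivity)

lemma Setup.ratio (S : Setup M u v w) : ∃ c1 c2 : ℝ, 0 < c1 ∧ 0 < c2 ∧
    ∀ s t : ℝ, 0 < s → 0 < t → u (Q s t) = c1 * s * w (Q s t) ∧ v (Q s t) = c2 * t * w (Q s t) := by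
  have o : (0:ℝ) < 1 := one_pos
  set h : ℝ → ℝ := fun s => u (Q s 1) / w (Q s 1) with hh
  set g : ℝ → ℝ := fun t => v (Q 1 t) / w (Q 1 t) with hg
  have hU : ∀ s t, 0 < s → 0 < t → u (Q s t) = h s * w (Q s t) := by
    intro s t hs ht
    have := S.R13 hs ht o
    have hw := S.Qw hs o
    simp only [hh]
    field_simp
    linarith
  have gV : ∀ s t, 0 < s → 0 < t → v (Q s t) = g t * w (Q s t) := by
    intro s t hs ht
    have := S.R23 hs ht o
    have hw := S.Qw o ht
    simp only [hg]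
    field_simp
    linarith
  have hpos : ∀ s, 0 < s → 0 < h s := fun s hs => div_pos (S.Qu hs o) (S.Qw hs o)
  have gpos : ∀ s, 0 < s → 0 < g s := fun s hs => div_pos (S.Qv o hs) (S.Qw o hs)
  have hgr : ∀ s t s' t', 0 < s → 0 < t → 0 < s' → 0 < t' → s * t' = t * s' →
      h s * g t' = g t * h s' := by
    intro s t s' t' hs ht hs' ht' e
    have := S.R12 hs ht hs' ht' e
    rw [hU s t hs ht, gV s t hs ht, hU s' t' hs' ht', gV s' t' hs' ht'] at this
    have w1 := S.Qw hs ht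
    have w2 := S.Qw hs' ht'
    have : (w (Q s t) * w (Q s' t')) * (h s * g t' - g t * h s') = 0 := by linarith
    rcases mul_eq_zero.1 this with h | h
    · exact absurd h (by positivity)
    · linarith
  have hφg : ∀ t, 0 < t → h t * g 1 = g t * h 1 := fun t ht => hgr t t 1 1 ht ht o o (by ring)
  have h1p := hpos 1 o
  have g1p := gpos 1 o
  set φ : ℝ → ℝ := fun s => h s / h 1 with hφ
  have φpos : ∀ s, 0 < s → 0 < φ s := fun s hs => div_pos (hpos s hs) h1p
  have hU' : ∀ s t, 0 < s → 0 < t → u (Q s t) = h 1 * φ s * w (Q s t) := by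
    intro s t hs ht
    rw [hU s t hs ht]; simp only [hφ]; field_simp
  have gV' : ∀ s t, 0 < s → 0 < t → v (Q s t) = g 1 * φ t * w (Q s t) := by
    intro s t hs ht
    rw [gV s t hs ht]; simp only [hφ]
    have := hφg t ht
    field_simp
    linear_combination (-1) * w (Q s t) * this
  have φmul : ∀ s t, 0 < s → 0 < t → φ (s * t) = φ s * φ t := by
    intro s t hs ht
    have := hgr (s * t) t s 1 (mul_pos hs ht) ht hs o (by ring)
    have h2 := hφg t ht
    simp only [hφ]
    field_simp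
    have h3 : g 1 * (h (s * t) * h 1 - h s * h t) = 0 := by
      linear_combination h 1 * this + (-1) * h s * h2
    rcases mul_eq_zero.1 h3 with h | h
    · exact absurd h g1p.ne'
    · linarith
  have φcont : ContinuousOn φ (Set.Ioi 0) := by
    have hm : Set.MapsTo (fun s : ℝ => Q s 1) (Set.Ioi 0) M := fun s hs => S.Qmem hs o
    have c1 : ContinuousOn (fun s : ℝ => u (Q s 1)) (Set.Ioi 0) := S.cu.comp Q_cont hm
    have c2 : ContinuousOn (fun s : ℝ => w (Q s 1)) (Set.Ioi 0) := S.cw.comp Q_cont hm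
    exact (c1.div c2 (fun s hs => (S.Qw hs o).ne')).div_const _
  have hline : ∀ a : ℝ, 0 < a → a ≠ 1 → 2 * φ ((1 + a) / 2) = 1 + φ a := by
    intro a ha ha1
    have h1' : φ 1 = 1 := by simp only [hφ]; field_simp
    have hm : 0 < (1 + a) / 2 := by positivity
    have hne : Q 1 a ≠ Q a 1 := by
      intro e
      have := congrArg Prod.fst e
      simp only [Q] at this
      field_simp at this
      apply ha1
      nlinarith
    have e : lp (Q 1 a) (Q a 1) (1/2) = Q ((1+a)/2) ((1+a)/2) := by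
      ext
      · simp only [lp, Q]; field_simp; ring
      · simp only [lp, Q]; field_simp; ring
    have key := S.hL (1 / h 1) (1 / g 1) (-(1 + φ a)) (Q 1 a) (S.Qmem o ha) (Q a 1) (S.Qmem ha o) hne
      (by simp only []; rw [hU' 1 a o ha, gV' 1 a o ha, h1']; field_simp; ring)
      (by simp only []; rw [hU' a 1 ha o, gV' a 1 ha o, h1']; field_simp; ring)
      (1/2) (by rw [e]; exact S.Qmem hm hm)
    rw [e] at key
    simp only [] at key
    rw [hU' _ _ hm hm, gV' _ _ hm hm] at key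
    have hw := S.Qw hm hm
    have : w (Q ((1+a)/2) ((1+a)/2)) * (2 * φ ((1+a)/2) - (1 + φ a)) = 0 := by
      field_simp at key
      linear_combination key
    rcases mul_eq_zero.1 this with h | h
    · exact absurd h hw.ne'
    · linarith
  have l3 : 2 * φ 2 = 1 + φ 3 := by
    have := hline 3 (by norm_num) (by norm_num)
    norm_num at this; exact this
  have l2 : 2 * φ (3/2) = 1 + φ 2 := by
    have := hline 2 (by norm_num) (by norm_num)
    norm_num at this; exact this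
  rcases mult_cases φ φpos φmul φcont l3 l2 with hcase | hcase
  · exfalso
    -- u = h 1 * w on the triangle
    have hz := extend_zero S.hc (S.hL 1 0 (- h 1)) S.h3 S.h1 S.h2 (by
      intro x y hx hy hxy
      have hz : 0 < 1 - x - y := by linarith
      have e : Q (x / (1-x-y)) (y/(1-x-y)) = (x, y) := by
        ext
        · simp only [Q]; field_simp; ring
        · simp only [Q]; field_simp; ring
      have := hU' (x / (1-x-y)) (y/(1-x-y)) (by positivity) (by positivity)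
      rw [e, hcase _ (by positivity)] at this
      show 1 * u (x, y) + 0 * v (x, y) + (- h 1) * w (x, y) = 0
      rw [this]; ring)
    have := hz _ S.h1
    simp only [S.u1, S.v1, S.w1] at this
    norm_num at this
  · refine ⟨h 1, g 1, h1p, g1p, ?_⟩
    intro s t hs ht
    refine ⟨?_, ?_⟩
    · rw [hU' s t hs ht, hcase s hs]
    · rw [gV' s t hs ht, hcase t ht]


lemma Setup.ratio' (S : Setup M u v w) : ∃ c1 c2 : ℝ, 0 < c1 ∧ 0 < c2 ∧
    ∀ x y : ℝ, 0 < x → 0 < y → x + y < 1 →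
      u (x, y) * (1 - x - y) = c1 * x * w (x, y) ∧ v (x, y) * (1 - x - y) = c2 * y * w (x, y) := by
  obtain ⟨c1, c2, h1, h2, h⟩ := S.ratio
  refine ⟨c1, c2, h1, h2, ?_⟩
  intro x y hx hy hxy
  have hz : 0 < 1 - x - y := by linarith
  have e : Q (x / (1-x-y)) (y/(1-x-y)) = (x, y) := by
    ext
    · simp only [Q]; field_simp; ring
    · simp only [Q]; field_simp; ring
  have := h (x / (1-x-y)) (y/(1-x-y)) (by positivity) (by positivity)
  rw [e] at this
  refine ⟨?_, ?_⟩
  · rw [this.1]; field_simp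
  · rw [this.2]; field_simp

lemma Setup.extend (S : Setup M u v w) : ∃ c1 c2 : ℝ, 0 < c1 ∧ 0 < c2 ∧ ∃ μ : ℝ × ℝ → ℝ,
    ∀ Z ∈ M, u Z = μ Z * (c1 * Z.1) ∧ v Z = μ Z * (c2 * Z.2) ∧ w Z = μ Z * (1 - Z.1 - Z.2) := by
  obtain ⟨c1, c2, h1, h2, h⟩ := S.ratio'
  refine ⟨c1, c2, h1, h2, fun Z => u Z / c1 + v Z / c2 + w Z, ?_⟩
  intro Z hZ
  -- determinant relation
  have det : ∀ p q : ℝ, 0 < p → 0 < q → p + q < 1 →
      (Z.2 * (1 - p - q) - (1 - Z.1 - Z.2) * q) * (u Z / c1)
      + ((1 - Z.1 - Z.2) * p - Z.1 * (1 - p - q)) * (v Z / c2)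
      + (Z.1 * q - Z.2 * p) * w Z = 0 := by
    intro p q hp hq hpq
    by_cases hZC : (p, q) = Z
    · have e1 : Z.1 = p := by rw [← hZC]
      have e2 : Z.2 = q := by rw [← hZC]
      rw [e1, e2]; ring
    obtain ⟨ε, hε, e1, e2, e3⟩ := small hp hq hpq Z
    set A := Z.2 * (1 - p - q) - (1 - Z.1 - Z.2) * q with hA
    set B := (1 - Z.1 - Z.2) * p - Z.1 * (1 - p - q) with hB
    set C := Z.1 * q - Z.2 * p with hC
    have zero : ∀ x y : ℝ, 0 < x → 0 < y → x + y < 1 →
        A * x + B * y + C * (1 - x - y) = 0 →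
        (A / c1) * u (x, y) + (B / c2) * v (x, y) + C * w (x, y) = 0 := by
      intro x y hx hy hxy h0
      obtain ⟨ha, hb⟩ := h x y hx hy hxy
      have hz : (1 - x - y) ≠ 0 := by linarith
      apply mul_left_cancel₀ hz
      rw [mul_zero]
      have hc1 := h1.ne'
      have hc2 := h2.ne'
      calc (1 - x - y) * ((A / c1) * u (x, y) + (B / c2) * v (x, y) + C * w (x, y))
          = (A / c1) * (u (x, y) * (1 - x - y)) + (B / c2) * (v (x, y) * (1 - x - y))
            + C * (1 - x - y) * w (x, y) := by ring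
        _ = (A / c1) * (c1 * x * w (x, y)) + (B / c2) * (c2 * y * w (x, y))
            + C * (1 - x - y) * w (x, y) := by rw [ha, hb]
        _ = (A * x + B * y + C * (1 - x - y)) * w (x, y) := by field_simp
        _ = 0 := by rw [h0, zero_mul]
    have z1 := zero p q hp hq hpq (by rw [hA, hB, hC]; ring)
    have z2 := zero (lp (p,q) Z ε).1 (lp (p,q) Z ε).2 e1 e2 e3
      (by rw [hA, hB, hC]; simp only [lp]; ring)
    have := S.hL (A / c1) (B / c2) C (p, q) (S.mem hp.le hq.le hpq.le) (lp (p,q) Z ε)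
      (S.mem e1.le e2.le e3.le) (lp_ne hε hZC) z1 z2 (1/ε) (by rw [lp_back hε]; exact hZ)
    rw [lp_back hε] at this
    simp only at this
    have e : A * (u Z / c1) + B * (v Z / c2) + C * w Z
      = A / c1 * u Z + B / c2 * v Z + C * w Z := by ring
    rw [e]; exact this
  have d1 := det (1/3) (1/3) (by norm_num) (by norm_num) (by norm_num)
  have d2 := det (1/2) (1/4) (by norm_num) (by norm_num) (by norm_num)
  have d3 := det (1/4) (1/2) (by norm_num) (by norm_num) (by norm_num)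
  set G1 := u Z / c1 with hG1
  set G2 := v Z / c2 with hG2
  have eu : u Z = c1 * G1 := by rw [hG1]; field_simp
  have ev : v Z = c2 * G2 := by rw [hG2]; field_simp
  set z1 := Z.1
  set z2 := Z.2
  have N1 : (1 - z1 - z2) * G2 = z2 * w Z := by linarith
  have N2 : z1 * w Z = (1 - z1 - z2) * G1 := by linarith
  have N3 : z2 * G1 = z1 * G2 := by linarith
  refine ⟨?_, ?_, ?_⟩
  · rw [eu]; linear_combination c1 * (N3 - N2)
  · rw [ev]; linear_combination c2 * (N1 - N3)
  · linear_combination N2 - N1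


/-- the case of a domain containing the standard triangle -/
lemma std (M : Set (ℝ × ℝ)) (hc : Convex ℝ M)
    (h3 : ((0:ℝ),(0:ℝ)) ∈ M) (h1 : ((1:ℝ),(0:ℝ)) ∈ M) (h2 : ((0:ℝ),(1:ℝ)) ∈ M)
    (x : Fin 3 → ℝ × ℝ → ℝ) (hcont : ∀ i, ContinuousOn (x i) M) (h0 : ∀ X ∈ M, 0 < x 0 X)
    (hline : ∀ a : Fin 3 → ℝ, TP M (fun X => ∑ i, a i * x i X))
    (hind : ∀ a : Fin 3 → ℝ, (∀ X ∈ M, ∑ i, a i * x i X = 0) → a = 0) :
    ∃ (b : Fin 3 → Fin 3 → ℝ) (ρ : ℝ × ℝ → ℝ), ∀ X ∈ M, 0 < ρ X ∧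
      ∀ i, x i X = ρ X * (b i 0 + b i 1 * X.1 + b i 2 * X.2) := by
  set P : Fin 3 → ℝ × ℝ := ![(1,0),(0,1),(0,0)] with hP
  set A : Matrix (Fin 3) (Fin 3) ℝ := Matrix.of (fun i j => x i (P j)) with hA
  have hdet : A.det ≠ 0 := by
    intro hdet
    obtain ⟨v, hv, hv0⟩ := Matrix.exists_vecMul_eq_zero_iff.2 hdet
    apply hv
    apply hind
    have hz : ∀ j, ∑ i, v i * x i (P j) = 0 := by
      intro j
      have := congrFun hv0 j
      simpa [Matrix.vecMul, dotProduct, hA] using this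
    apply kernel hc (hline v) h3 h1 h2
    · simpa [hP] using hz 2
    · simpa [hP] using hz 0
    · simpa [hP] using hz 1
  have hu : IsUnit A.det := isUnit_iff_ne_zero.2 hdet
  set B := A⁻¹ with hB
  have hBA : B * A = 1 := Matrix.nonsing_inv_mul A hu
  have hAB : A * B = 1 := Matrix.mul_nonsing_inv A hu
  set F : Fin 3 → ℝ × ℝ → ℝ := fun k X => ∑ i, B k i * x i X with hF
  have hFP : ∀ k j, F k (P j) = if k = j then 1 else 0 := by
    intro k j
    have := congrFun (congrFun hBA k) j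
    rw [Matrix.one_apply] at this
    rw [← this]
    simp [hF, Matrix.mul_apply, hA]
  have hxF : ∀ i X, x i X = ∑ k, A i k * F k X := by
    intro i X
    have e : ∑ k, A i k * F k X = ∑ j, (∑ k, A i k * B k j) * x j X := by
      simp only [hF, Finset.mul_sum, Finset.sum_mul]
      rw [Finset.sum_comm]
      refine Finset.sum_congr rfl (fun j _ => Finset.sum_congr rfl (fun k _ => by ring))
    rw [e]
    have e2 : ∀ j, ∑ k, A i k * B k j = (1 : Matrix (Fin 3) (Fin 3) ℝ) i j := by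
      intro j
      rw [← hAB, Matrix.mul_apply]
    simp [e2, Matrix.one_apply]
  have S : Setup M (F 0) (F 1) (F 2) :=
    { hc := hc, h3 := h3, h1 := h1, h2 := h2
      cu := by
        simp only [hF]; exact continuousOn_finsetSum _ (fun i _ => (hcont i).const_mul _)
      cv := by
        simp only [hF]; exact continuousOn_finsetSum _ (fun i _ => (hcont i).const_mul _)
      cw := by
        simp only [hF]; exact continuousOn_finsetSum _ (fun i _ => (hcont i).const_mul _)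
      hL := by
        intro a b c
        have := hline (fun i => a * B 0 i + b * B 1 i + c * B 2 i)
        convert this using 2
        rename_i X
        simp only [hF, Fin.sum_univ_three]; ring
      u1 := by simpa [hP] using hFP 0 0
      u2 := by simpa [hP] using hFP 0 1
      u3 := by simpa [hP] using hFP 0 2
      v1 := by simpa [hP] using hFP 1 0
      v2 := by simpa [hP] using hFP 1 1
      v3 := by simpa [hP] using hFP 1 2
      w1 := by simpa [hP] using hFP 2 0
      w2 := by simpa [hP] using hFP 2 1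
      w3 := by simpa [hP] using hFP 2 2 }
  obtain ⟨c1, c2, hc1, hc2, μ, hμ⟩ := S.extend
  set β : Fin 3 → ℝ × ℝ → ℝ := fun i X =>
    A i 2 + (A i 0 * c1 - A i 2) * X.1 + (A i 1 * c2 - A i 2) * X.2 with hβ
  have hxβ : ∀ X ∈ M, ∀ i, x i X = μ X * β i X := by
    intro X hX i
    obtain ⟨e1, e2, e3⟩ := hμ X hX
    rw [hxF i X, Fin.sum_univ_three, e1, e2, e3]
    simp only [hβ]; ring
  have hβ0 : ∀ X ∈ M, β 0 X ≠ 0 := by
    intro X hX h
    have := h0 X hX
    rw [hxβ X hX 0, h, mul_zero] at this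
    exact lt_irrefl _ this
  have hβc : Continuous (β 0) := by simp only [hβ]; fun_prop
  have hsign : (∀ X ∈ M, 0 < β 0 X) ∨ (∀ X ∈ M, β 0 X < 0) := by
    by_contra hcon
    push Not at hcon
    obtain ⟨⟨X, hX, hX0⟩, ⟨Y, hY, hY0⟩⟩ := hcon
    have hpre : IsPreconnected M := hc.isPreconnected
    obtain ⟨Z, hZ, hZ0⟩ := hpre.intermediate_value hX hY hβc.continuousOn ⟨hX0, hY0⟩
    exact hβ0 Z hZ hZ0
  rcases hsign with hs | hs
  · refine ⟨fun i => ![A i 2, A i 0 * c1 - A i 2, A i 1 * c2 - A i 2], μ, ?_⟩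
    intro X hX
    refine ⟨?_, ?_⟩
    · have h1 := h0 X hX
      rw [hxβ X hX 0] at h1
      exact (pos_iff_pos_of_mul_pos h1).2 (hs X hX)
    · intro i
      rw [hxβ X hX i]
      simp [hβ]
  · refine ⟨fun i => ![-A i 2, -(A i 0 * c1 - A i 2), -(A i 1 * c2 - A i 2)], fun X => - μ X, ?_⟩
    intro X hX
    refine ⟨?_, ?_⟩
    · have h1 := h0 X hX
      rw [hxβ X hX 0] at h1
      have h2 := hs X hX
      by_contra hcon
      have : 0 ≤ μ X := by linarith
      have := mul_nonneg this (by linarith : 0 ≤ - β 0 X)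
      linarith
    · intro i
      rw [hxβ X hX i]
      simp [hβ]; ring

end J278

/-- Local fundamental theorem of projective geometry, in the form used here: three functions on an
open convex set whose linear combinations have the two-point property on lines are, up to a common
positive factor, affine functions. -/
theorem projective_of_lines (M : Set (ℝ × ℝ)) (hM : IsOpen M) (hc : Convex ℝ M) (hne : M.Nonempty)
    (x : Fin 3 → ℝ × ℝ → ℝ) (hcont : ∀ i, ContinuousOn (x i) M) (h0 : ∀ X ∈ M, 0 < x 0 X)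
    (hline : ∀ a : Fin 3 → ℝ, ∀ X ∈ M, ∀ Y ∈ M, X ≠ Y → (∑ i, a i * x i X = 0) →
      (∑ i, a i * x i Y = 0) → ∀ Z ∈ M, Z ∈ line[ℝ, X, Y] → ∑ i, a i * x i Z = 0)
    (hind : ∀ a : Fin 3 → ℝ, (∀ X ∈ M, ∑ i, a i * x i X = 0) → a = 0) :
    ∃ (b : Fin 3 → Fin 3 → ℝ) (ρ : ℝ × ℝ → ℝ), ∀ X ∈ M, 0 < ρ X ∧
      ∀ i, x i X = ρ X * (b i 0 + b i 1 * X.1 + b i 2 * X.2) := by
  obtain ⟨X0, hX0⟩ := hne
  -- choose ε
  obtain ⟨ε, hε, hε1, hε2⟩ : ∃ ε : ℝ, 0 < ε ∧ (X0.1 + ε, X0.2) ∈ M ∧ (X0.1, X0.2 + ε) ∈ M := by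
    have c1 : Continuous (fun t : ℝ => (X0.1 + t, X0.2)) := by fun_prop
    have c2 : Continuous (fun t : ℝ => (X0.1, X0.2 + t)) := by fun_prop
    have e1 : ∀ᶠ t in nhds (0:ℝ), (X0.1 + t, X0.2) ∈ M :=
      c1.continuousAt.eventually_mem (by simpa using hM.mem_nhds hX0)
    have e2 : ∀ᶠ t in nhds (0:ℝ), (X0.1, X0.2 + t) ∈ M :=
      c2.continuousAt.eventually_mem (by simpa using hM.mem_nhds hX0)
    have h := (e1.and e2).filter_mono (nhdsWithin_le_nhds (s := Set.Ioi (0:ℝ)))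
    have h' := h.and (eventually_nhdsWithin_of_forall (fun t ht => ht) :
      ∀ᶠ t in nhdsWithin (0:ℝ) (Set.Ioi 0), t ∈ Set.Ioi (0:ℝ))
    obtain ⟨t, ht, ht0⟩ := h'.exists
    exact ⟨t, ht0, ht.1, ht.2⟩
  set τ : ℝ × ℝ → ℝ × ℝ := fun Y => (X0.1 + ε * Y.1, X0.2 + ε * Y.2) with hτ
  have hτc : Continuous τ := by simp only [hτ]; fun_prop
  set σ : ℝ × ℝ → ℝ × ℝ := fun X => ((X.1 - X0.1) / ε, (X.2 - X0.2) / ε) with hσ
  have hτσ : ∀ X, τ (σ X) = X := by
    intro X; ext
    · simp only [hτ, hσ]; field_simp; ring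
    · simp only [hτ, hσ]; field_simp; ring
  have hστ : ∀ X, σ (τ X) = X := by
    intro X; ext
    · simp only [hτ, hσ]; field_simp; ring
    · simp only [hτ, hσ]; field_simp; ring
  have key := J278.std (τ ⁻¹' M) (by
      intro X hX Y hY a b ha hb hab
      have := hc hX hY ha hb hab
      show τ (a • X + b • Y) ∈ M
      convert this using 1
      ext
      · simp only [hτ, Prod.fst_add, Prod.smul_fst, smul_eq_mul]; linear_combination (-1) * X0.1 * hab
      · simp only [hτ, Prod.snd_add, Prod.smul_snd, smul_eq_mul]; linear_combination (-1) * X0.2 * hab)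
    (by show τ (0,0) ∈ M; simpa [hτ] using hX0)
    (by show τ (1,0) ∈ M; simpa [hτ] using hε1)
    (by show τ (0,1) ∈ M; simpa [hτ] using hε2)
    (fun i => x i ∘ τ)
    (fun i => (hcont i).comp hτc.continuousOn (Set.mapsTo_preimage τ M))
    (fun X hX => h0 (τ X) hX)
    (by
      intro a X hX Y hY hXY h1 h2 t ht
      have hne : τ X ≠ τ Y := by
        intro e
        apply hXY
        rw [← hστ X, ← hστ Y, e]
      refine hline a (τ X) hX (τ Y) hY hne h1 h2 (τ (J278.lp X Y t)) ht ?_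
      have e : τ (J278.lp X Y t) = AffineMap.lineMap (τ X) (τ Y) t := by
        rw [AffineMap.lineMap_apply_module]
        ext
        · simp only [hτ, J278.lp, Prod.fst_add, Prod.smul_fst, smul_eq_mul]; ring
        · simp only [hτ, J278.lp, Prod.snd_add, Prod.smul_snd, smul_eq_mul]; ring
      rw [e]
      exact AffineMap.lineMap_mem_affineSpan_pair t _ _)
    (by
      intro a h
      apply hind
      intro X hX
      have := h (σ X) (by show τ (σ X) ∈ M; rw [hτσ]; exact hX)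
      simpa [hτσ] using this)
  obtain ⟨b, ρ, hb⟩ := key
  refine ⟨fun i => ![b i 0 - b i 1 * X0.1 / ε - b i 2 * X0.2 / ε, b i 1 / ε, b i 2 / ε],
    fun X => ρ (σ X), ?_⟩
  intro X hX
  obtain ⟨hpos, hx⟩ := hb (σ X) (by show τ (σ X) ∈ M; rw [hτσ]; exact hX)
  refine ⟨hpos, ?_⟩
  intro i
  have := hx i
  simp only [Function.comp, hτσ] at this
  rw [this]
  simp only [hσ, Matrix.cons_val_zero, Matrix.cons_val_one, Matrix.cons_val]
  congr 1
  ring

end Pool.Agent.Helper87.ThalesB
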