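import Pool.Agent.Helper87.ThalesEllJ
import Pool.Agent.Helper87.ThalesEllK1
import Pool.Agent.Helper87.ThalesEllK2
import Pool.Agent.Helper87.ThalesEllK4
import Pool.Agent.Helper87.ThalesProj

set_option autoImplicit false

open Real Filter Topology

namespace Pool.Agent.Helper87.Elliptic

/-- Change of coordinates. -/
lemma EllipticPlane.comp {L : E3 → E3 → ℝ} (hL : EllipticPlane L) (S : E3 ≃ₗ[ℝ] E3) :
    EllipticPlane (fun v w => L (S v) (S w)) := by
  have hS : ∀ v : E3, v ≠ 0 → S v ≠ 0 := fun v hv => by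
    rwa [Ne, LinearEquiv.map_eq_zero_iff]
  refine ⟨?_, ?_, ?_, ?_, ?_, ?_, ?_, ?_⟩
  · intro v w hv hw
    exact hL.symm _ _ (hS v hv) (hS w hw)
  · intro v w hv hw a ha
    simp only [map_smul]
    exact hL.smul _ _ (hS v hv) (hS w hw) a ha
  · intro v w hv hw
    simp only [map_neg]
    exact hL.neg _ _ (hS v hv) (hS w hw)
  · intro v hv
    exact hL.self _ (hS v hv)
  · intro v w hv hw hr
    refine hL.pos _ _ (hS v hv) (hS w hw) ?_
    rwa [SameRay.sameRay_map_iff]
  · intro v w hli a b ha hb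
    simp only [map_add, map_smul]
    refine hL.add _ _ ?_ a b ha hb
    rw [LinearIndependent.pair_iff] at hli ⊢
    intro s t hst
    apply hli s t
    apply S.injective
    rw [map_add, map_smul, map_smul, hst, map_zero]
  · have hc : Continuous (fun p : E3 × E3 => (S p.1, S p.2)) := by
      have := S.toContinuousLinearEquiv.continuous
      exact (this.comp continuous_fst).prodMk (this.comp continuous_snd)
    exact hL.cont.comp hc.continuousOn (fun p hp => ⟨hS _ hp.1, hS _ hp.2⟩)
  · intro u v w hu hv hw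
    exact hL.triangle _ _ _ (hS u hu) (hS v hv) (hS w hw)

lemma projOfLines : ProjOfLines :=
  fun M h1 h2 h3 x h4 h5 h6 h7 => ThalesB.projective_of_lines M h1 h2 h3 x h4 h5 h6 h7

/-- Elliptic type. -/
theorem elliptic_classical {d : E3 → E3 → ℝ} (hd : EllipticMetric d) (hc : ConvexDiscs d) :
    ∃ T : E3 ≃ₗ[ℝ] E3, ∀ v w, v ≠ 0 → w ≠ 0 → d v w =
      min (InnerProductGeometry.angle (T v) (T w))
        (π - InnerProductGeometry.angle (T v) (T w)) := by
  obtain ⟨L, hL, hdL, hS⟩ := bridge d hd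
  have hT := triL_of L hL
  obtain ⟨hP, hD, hE⟩ := polar_of L hL hT (hS hc)
  obtain ⟨T, hperp⟩ := polarForm_of L hL hT hP hD hE projOfLines
  have hL' := hL.comp T.symm
  have hT' := triL_of _ hL'
  have hTs : ∀ v : E3, v ≠ 0 → T.symm v ≠ 0 := fun v hv => by
    rwa [Ne, LinearEquiv.map_eq_zero_iff]
  have hperp' : ∀ v w : E3, v ≠ 0 → w ≠ 0 →
      ((fun v w => L (T.symm v) (T.symm w)) v w = π / 2 ↔ inner ℝ v w = 0) := by
    intro v w hv hw
    simp only
    rw [hperp _ _ (hTs v hv) (hTs w hw), LinearEquiv.apply_symm_apply,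
      LinearEquiv.apply_symm_apply]
  have hrot := rot_of _ hL' hT' hperp'
  have hangle := angle_of _ hL' hT' hperp' hrot
  refine ⟨T, fun v w hv hw => ?_⟩
  have hTv : T v ≠ 0 := by rwa [Ne, LinearEquiv.map_eq_zero_iff]
  have hTw : T w ≠ 0 := by rwa [Ne, LinearEquiv.map_eq_zero_iff]
  have h := hangle (T v) (T w) hTv hTw
  simp only [LinearEquiv.symm_apply_apply] at h
  rw [hdL v w hv hw, dE, h]

end Pool.Agent.Helper87.Elliptic
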