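import Pool.Agent.Helper87.ConicsMain
import Pool.Agent.Helper87.ConicsK
import Pool.Agent.Helper87.ConicsHP
import Pool.Agent.Helper87.ConicsHD
import Pool.Agent.Helper87.ConicsI1
import Pool.Agent.Helper87.ConicsI2
import Pool.Agent.Helper87.ThalesElliptic

set_option autoImplicit false

open Filter Topology

namespace Pool.Agent.Helper87.Conics

lemma ellConics_of {M : Set (ℝ × ℝ)} {d : ℝ × ℝ → ℝ × ℝ → ℝ}
    (hE : ∀ F ∈ M, ∀ G ∈ M, F ≠ G → ∀ a : ℝ, d F G < 2 * a → ∃ c : Fin 6 → ℝ, c ≠ 0 ∧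
      ∀ X ∈ M, d F X + d X G = 2 * a → Qf c ![1, X.1, X.2] = 0) :
    EllConics (cone M) (coneDist d) := by
  intro f hf g hg hfg a ha
  have hne : (f 1 / f 0, f 2 / f 0) ≠ (g 1 / g 0, g 2 / g 0) :=
    prj_ne_of_li hf.1 hg.1 hfg
  obtain ⟨c, hc0, hc⟩ := hE _ hf.2 _ hg.2 hne a ha
  refine ⟨c, hc0, fun z hz hsum => ?_⟩
  have h1 := hc _ hz.2 hsum
  have hz0 : z 0 ≠ 0 := hz.1.ne'
  simp only [Qf, Matrix.cons_val_zero, Matrix.cons_val_one, Matrix.cons_val] at h1 ⊢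
  field_simp at h1
  linarith

/-- Straight type: the plane is Euclidean or hyperbolic. -/
theorem straight_classical {M : Set (ℝ × ℝ)} {d : ℝ × ℝ → ℝ × ℝ → ℝ} (h : ProjPlane M d)
    (hE : ∀ F ∈ M, ∀ G ∈ M, F ≠ G → ∀ a : ℝ, d F G < 2 * a → ∃ c : Fin 6 → ℝ, c ≠ 0 ∧
      ∀ X ∈ M, d F X + d X G = 2 * a → Qf c ![1, X.1, X.2] = 0) :
    (M = Set.univ ∧ EuclideanModel d) ∨ HyperbolicModel M d := by
  have hD := conePlane_of h
  have hC := ellConics_of hE
  obtain ⟨T, hT⟩ := JC.shape hD (ellSep_of hD hC)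
  obtain ⟨hD', hC'⟩ := JT.transport hD hC T
  rcases hT with hT | hT | hT
  · left
    have e : {v | T.symm v ∈ cone M} = Plane := by
      ext v
      rw [Set.mem_setOf_eq, hT, LinearEquiv.apply_symm_apply]
      rfl
    rw [e] at hD' hC'
    obtain ⟨S, hS⟩ := plane_case hD' hC'
    exact JHP.euclid_final h.nonempty T hT S hS
  · exfalso
    have e : {v | T.symm v ∈ cone M} = Strip := by
      ext v
      rw [Set.mem_setOf_eq, hT, LinearEquiv.apply_symm_apply]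
      rfl
    rw [e] at hD' hC'
    exact strip_case hD' hC'
  · right
    have e1 : ∀ v, v ∈ cone M ↔ T v ∈ Disc := by
      intro v
      rw [hT]
      have : T v 0 ^ 2 - T v 1 ^ 2 - T v 2 ^ 2 = Lf (T v) (T v) := by simp only [Lf]; ring
      rw [this]
      rfl
    have e : {v | T.symm v ∈ cone M} = Disc := by
      ext v
      rw [Set.mem_setOf_eq, e1, LinearEquiv.apply_symm_apply]
    rw [e] at hD' hC'
    obtain ⟨κ, hκ, hf⟩ := disc_case hD' hC'
    exact JHD.klein_final T e1 hκ hf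

end Pool.Agent.Helper87.Conics

namespace Pool.Agent.Helper87.Elliptic

/-- Elliptic type, lines of length `π`. -/
theorem elliptic_conics {d : E3 → E3 → ℝ} (hd : EllipticMetric d)
    (hE : ∀ v w, LinearIndependent ℝ ![v, w] → ∀ s : ℝ, d v w < s → s + d v w < Real.pi →
      ∃ c : Fin 6 → ℝ, c ≠ 0 ∧ ∀ z, z ≠ 0 → d v z + d z w = s → Qe c z = 0) :
    ∃ T : E3 ≃ₗ[ℝ] E3, ∀ v w, v ≠ 0 → w ≠ 0 → d v w =
      min (InnerProductGeometry.angle (T v) (T w))
        (Real.pi - InnerProductGeometry.angle (T v) (T w)) :=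
  elliptic_classical hd (JI2.convex_of_conic hd (JI1.circle_conic hd hE))

end Pool.Agent.Helper87.Elliptic
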