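import Pool.Agent.Helper87.ConicsDefs

set_option autoImplicit false

open Filter Topology

namespace Pool.Agent.Helper87.Conics

namespace JG1
/-! ### helper lemmas for `plane_normal` -/

/-- homogeneous coordinates of an affine point -/
def pnHom (X : ℝ × ℝ) : V := ![1, X.1, X.2]

lemma pnHom_mem (X : ℝ × ℝ) : pnHom X ∈ Plane := by
  show (0 : ℝ) < pnHom X 0
  simp [pnHom]

lemma pnHom_cont : Continuous pnHom := by
  refine continuous_pi fun i => ?_
  fin_cases i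
  · show Continuous fun X : ℝ × ℝ => (1 : ℝ)
    exact continuous_const
  · show Continuous fun X : ℝ × ℝ => X.1
    exact continuous_fst
  · show Continuous fun X : ℝ × ℝ => X.2
    exact continuous_snd

lemma pn_homog {D : V → V → ℝ} (hD : ConePlane Plane D) {h : V → ℝ}
    (hL : ∀ z ∈ Plane, ∀ w ∈ Plane, |h z - h w| ≤ D z w) {z : V} (hz : z ∈ Plane) :
    h z = h (pnHom (z 1 / z 0, z 2 / z 0)) := by
  have hz0 : 0 < z 0 := hz
  have hs : z = z 0 • pnHom (z 1 / z 0, z 2 / z 0) := by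
    funext i
    fin_cases i
    · simp [pnHom]
    · simp [pnHom]
      field_simp
    · simp [pnHom]
      field_simp
  have hm := pnHom_mem (z 1 / z 0, z 2 / z 0)
  have h1 : D (z 0 • pnHom (z 1 / z 0, z 2 / z 0)) (pnHom (z 1 / z 0, z 2 / z 0)) = 0 := by
    rw [hD.smul _ hm _ hm _ hz0, hD.self _ hm]
  have h2 := hL (z 0 • pnHom (z 1 / z 0, z 2 / z 0)) (hD.smul_mem _ hm _ hz0) _ hm
  rw [h1, ← hs] at h2
  have h3 := abs_nonpos_iff.1 h2
  linarith

lemma pn_cont {D : V → V → ℝ} (hD : ConePlane Plane D) {h : V → ℝ}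
    (hL : ∀ z ∈ Plane, ∀ w ∈ Plane, |h z - h w| ≤ D z w) : Continuous fun X => h (pnHom X) := by
  rw [continuous_iff_continuousAt]
  intro X0
  have hc : Continuous fun X => D (pnHom X) (pnHom X0) := by
    have := hD.cont.comp_continuous (f := fun X : ℝ × ℝ => (pnHom X, pnHom X0))
      (pnHom_cont.prodMk continuous_const) (fun X => ⟨pnHom_mem X, pnHom_mem X0⟩)
    exact this
  have ht := hc.tendsto X0
  rw [hD.self _ (pnHom_mem X0)] at ht
  show Tendsto _ _ _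
  rw [tendsto_iff_norm_sub_tendsto_zero]
  refine squeeze_zero (fun X => norm_nonneg _) (fun X => ?_) ht
  rw [Real.norm_eq_abs]
  exact hL _ (pnHom_mem X) _ (pnHom_mem X0)

/-- `n` is a unit normal of the level set of `S` at `X₀` -/
def PnNrm (S : ℝ × ℝ → ℝ) (X₀ n : ℝ × ℝ) : Prop :=
  n.1 ^ 2 + n.2 ^ 2 = 1 ∧
  (∀ X, S X < S X₀ → n.1 * (X.1 - X₀.1) + n.2 * (X.2 - X₀.2) ≤ 0) ∧
  (∀ X, S X₀ < S X → 0 ≤ n.1 * (X.1 - X₀.1) + n.2 * (X.2 - X₀.2))

lemma pn_line {S : ℝ × ℝ → ℝ} (hS : Continuous S) {X₀ n : ℝ × ℝ} (hn : PnNrm S X₀ n) {X : ℝ × ℝ}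
    (hX : n.1 * (X.1 - X₀.1) + n.2 * (X.2 - X₀.2) = 0) : S X = S X₀ := by
  obtain ⟨h1, h2, h3⟩ := hn
  by_contra hne
  rcases lt_or_gt_of_ne hne with hlt | hgt
  · have hc : Continuous fun ε : ℝ => S (X.1 + ε * n.1, X.2 + ε * n.2) := by
      refine hS.comp ?_
      fun_prop
    have ht := hc.tendsto 0
    simp only [zero_mul, add_zero] at ht
    have he : ∀ᶠ ε : ℝ in 𝓝 0, S (X.1 + ε * n.1, X.2 + ε * n.2) < S X₀ :=
      ht.eventually (gt_mem_nhds hlt)
    obtain ⟨ε, hε1, hε2⟩ := ((he.filter_mono (nhdsWithin_le_nhds (s := Set.Ioi 0))).and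
      self_mem_nhdsWithin).exists
    have h4 := h2 _ hε1
    have hε2' : 0 < ε := hε2
    simp only at h4
    have h5 : n.1 * (X.1 + ε * n.1 - X₀.1) + n.2 * (X.2 + ε * n.2 - X₀.2) = ε := by
      linear_combination hX + ε * h1
    linarith
  · have hc : Continuous fun ε : ℝ => S (X.1 - ε * n.1, X.2 - ε * n.2) := by
      refine hS.comp ?_
      fun_prop
    have ht := hc.tendsto 0
    simp only [zero_mul, sub_zero] at ht
    have he : ∀ᶠ ε : ℝ in 𝓝 0, S X₀ < S (X.1 - ε * n.1, X.2 - ε * n.2) :=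
      ht.eventually (lt_mem_nhds hgt)
    obtain ⟨ε, hε1, hε2⟩ := ((he.filter_mono (nhdsWithin_le_nhds (s := Set.Ioi 0))).and
      self_mem_nhdsWithin).exists
    have h4 := h3 _ hε1
    have hε2' : 0 < ε := hε2
    simp only at h4
    have h5 : n.1 * (X.1 - ε * n.1 - X₀.1) + n.2 * (X.2 - ε * n.2 - X₀.2) = -ε := by
      linear_combination hX - ε * h1
    linarith

lemma pn_eq {S : ℝ × ℝ → ℝ} (hS : Continuous S) {X₀ X₁ n₀ n₁ : ℝ × ℝ} (h₀ : PnNrm S X₀ n₀)
    (h₁ : PnNrm S X₁ n₁) (hlt : S X₀ < S X₁) : n₀ = n₁ := by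
  have hcr : n₀.1 * n₁.2 - n₀.2 * n₁.1 = 0 := by
    by_contra hne
    set cr := n₀.1 * n₁.2 - n₀.2 * n₁.1 with hcr
    set t := -(n₁.1 * (X₀.1 - X₁.1) + n₁.2 * (X₀.2 - X₁.2)) / cr with ht
    have htc : t * cr = -(n₁.1 * (X₀.1 - X₁.1) + n₁.2 * (X₀.2 - X₁.2)) := by
      rw [ht]; field_simp
    have e0 := pn_line hS h₀ (X := (X₀.1 - t * n₀.2, X₀.2 + t * n₀.1)) (by simp only; ring)
    have e1 := pn_line hS h₁ (X := (X₀.1 - t * n₀.2, X₀.2 + t * n₀.1)) (by
      simp only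
      rw [hcr] at htc
      linear_combination htc)
    rw [e0] at e1
    exact hlt.ne e1
  have hd0 : 0 < n₀.1 * (X₁.1 - X₀.1) + n₀.2 * (X₁.2 - X₀.2) := by
    refine lt_of_le_of_ne (h₀.2.2 _ hlt) fun h => ?_
    exact hlt.ne (pn_line hS h₀ h.symm).symm
  have hd1 : n₁.1 * (X₀.1 - X₁.1) + n₁.2 * (X₀.2 - X₁.2) < 0 := by
    refine lt_of_le_of_ne (h₁.2.1 _ hlt) fun h => ?_
    exact hlt.ne (pn_line hS h₁ h)
  have u0 := h₀.1
  have u1 := h₁.1
  set s := n₀.1 * n₁.1 + n₀.2 * n₁.2 with hs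
  have e1 : n₁.1 = s * n₀.1 := by
    rw [hs]; linear_combination (-n₁.1) * u0 - n₀.2 * hcr
  have e2 : n₁.2 = s * n₀.2 := by
    rw [hs]; linear_combination (-n₁.2) * u0 + n₀.1 * hcr
  have hs2 : s ^ 2 = 1 := by
    rw [e1, e2] at u1
    linear_combination u1 - s ^ 2 * u0
  have hspos : 0 < s := by
    rw [e1, e2] at hd1
    have h3 : 0 < s * (n₀.1 * (X₁.1 - X₀.1) + n₀.2 * (X₁.2 - X₀.2)) := by linarith
    exact (pos_iff_pos_of_mul_pos h3).2 hd0
  have hs1 : s = 1 := by nlinarith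
  rw [hs1, one_mul] at e1 e2
  exact Prod.ext e1.symm e2.symm

lemma pn_det {θ θ' : ℝ} (hli : LinearIndependent ℝ ![dir θ, dir θ']) :
    Real.cos θ * Real.sin θ' - Real.sin θ * Real.cos θ' ≠ 0 := by
  intro h0
  rw [LinearIndependent.pair_iff] at hli
  have h1 := hli (Real.sin θ') (-Real.sin θ) (by
    funext i
    fin_cases i
    · simp [dir]
    · simp [dir]; linarith
    · simp [dir]; ring)
  have h2 := hli (Real.cos θ') (-Real.cos θ) (by
    funext i
    fin_cases i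
    · simp [dir]
    · simp [dir]; ring
    · simp [dir]; linarith)
  have h3 := Real.sin_sq_add_cos_sq θ'
  rw [h1.1, h2.1] at h3
  norm_num at h3

lemma pn_zero_of_psd {a b : ℝ} (hb : 0 ≤ b) (h : ∀ t : ℝ, 0 ≤ a * t + b * t ^ 2) : a = 0 := by
  have h1 := h (-a / (b + 1))
  have hb1 : 0 < b + 1 := by linarith
  have e : a * (-a / (b + 1)) + b * (-a / (b + 1)) ^ 2 = -(a ^ 2 / (b + 1) ^ 2) := by
    field_simp
    ring
  rw [e] at h1
  have h2 : 0 ≤ a ^ 2 / (b + 1) ^ 2 := by positivity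
  have h3 : a ^ 2 / (b + 1) ^ 2 = 0 := by linarith
  rcases div_eq_zero_iff.1 h3 with h4 | h4
  · exact pow_eq_zero_iff (two_ne_zero) |>.1 h4
  · exact absurd h4 (by positivity)

/-- a semidefinite binary form with two independent zeros vanishes -/
lemma pn_form {α β γ u1 u2 v1 v2 : ℝ} (hpsd : ∀ x y : ℝ, 0 ≤ α * x ^ 2 + β * y ^ 2 + γ * (x * y))
    (hu : α * u1 ^ 2 + β * u2 ^ 2 + γ * (u1 * u2) = 0)
    (hv : α * v1 ^ 2 + β * v2 ^ 2 + γ * (v1 * v2) = 0) (hd : u1 * v2 - u2 * v1 ≠ 0) :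
    α = 0 ∧ β = 0 ∧ γ = 0 := by
  have hα : 0 ≤ α := by simpa using hpsd 1 0
  have hβ : 0 ≤ β := by simpa using hpsd 0 1
  have key : ∀ a b : ℝ, α * a ^ 2 + β * b ^ 2 + γ * (a * b) = 0 →
      2 * α * a + γ * b = 0 ∧ 2 * β * b + γ * a = 0 := by
    intro a b hab
    constructor
    · refine pn_zero_of_psd hα fun t => ?_
      have := hpsd (a + t) b
      have e : α * (a + t) ^ 2 + β * b ^ 2 + γ * ((a + t) * b) =
          (2 * α * a + γ * b) * t + α * t ^ 2 := by linear_combination hab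
      rwa [e] at this
    · refine pn_zero_of_psd hβ fun t => ?_
      have := hpsd a (b + t)
      have e : α * a ^ 2 + β * (b + t) ^ 2 + γ * (a * (b + t)) =
          (2 * β * b + γ * a) * t + β * t ^ 2 := by linear_combination hab
      rwa [e] at this
  obtain ⟨k1, k2⟩ := key u1 u2 hu
  obtain ⟨k3, k4⟩ := key v1 v2 hv
  refine ⟨?_, ?_, ?_⟩
  · refine (mul_eq_zero.1 (?_ : α * (u1 * v2 - u2 * v1) = 0)).resolve_right hd
    linear_combination (v2 / 2) * k1 - (u2 / 2) * k3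
  · refine (mul_eq_zero.1 (?_ : β * (u1 * v2 - u2 * v1) = 0)).resolve_right hd
    linear_combination (-(v1 / 2)) * k2 + (u1 / 2) * k4
  · refine (mul_eq_zero.1 (?_ : γ * (u1 * v2 - u2 * v1) = 0)).resolve_right hd
    linear_combination (-v1) * k1 + u1 * k3

lemma pn_li3 {θ θ' : ℝ} (hli : LinearIndependent ℝ ![dir θ, dir θ']) (X : ℝ × ℝ) :
    LinearIndependent ℝ ![pnHom X, dir θ, dir θ'] := by
  have hd := pn_det hli
  rw [Fintype.linearIndependent_iff]
  intro g hg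
  rw [Fin.sum_univ_three] at hg
  have h0 := congrFun hg 0
  have h1 := congrFun hg 1
  have h2 := congrFun hg 2
  simp [pnHom, dir] at h0 h1 h2
  rw [h0] at h1 h2
  simp only [zero_mul, zero_add] at h1 h2
  have g1 : g 1 = 0 := by
    refine (mul_eq_zero.1 (?_ : g 1 * (Real.cos θ * Real.sin θ' - Real.sin θ * Real.cos θ') = 0)).resolve_right hd
    linear_combination Real.sin θ' * h1 - Real.cos θ' * h2
  have g2 : g 2 = 0 := by
    refine (mul_eq_zero.1 (?_ : g 2 * (Real.cos θ * Real.sin θ' - Real.sin θ * Real.cos θ') = 0)).resolve_right hd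
    linear_combination (-Real.sin θ) * h1 + Real.cos θ * h2
  intro i
  fin_cases i
  · exact h0
  · exact g1
  · exact g2

lemma pn_li3' {θ θ' : ℝ} (hli : LinearIndependent ℝ ![dir θ, dir θ']) :
    LinearIndependent ℝ ![(1 : ℝ) • pnHom 0 + (1 : ℝ) • dir θ, pnHom 0,
      (1 : ℝ) • pnHom 0 + (1 : ℝ) • dir θ'] := by
  have hd := pn_det hli
  rw [Fintype.linearIndependent_iff]
  intro g hg
  rw [Fin.sum_univ_three] at hg
  have h0 := congrFun hg 0
  have h1 := congrFun hg 1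
  have h2 := congrFun hg 2
  simp [pnHom, dir] at h0 h1 h2
  have g0 : g 0 = 0 := by
    refine (mul_eq_zero.1 (?_ : g 0 * (Real.cos θ * Real.sin θ' - Real.sin θ * Real.cos θ') = 0)).resolve_right hd
    linear_combination Real.sin θ' * h1 - Real.cos θ' * h2
  have g2 : g 2 = 0 := by
    refine (mul_eq_zero.1 (?_ : g 2 * (Real.cos θ * Real.sin θ' - Real.sin θ * Real.cos θ') = 0)).resolve_right hd
    linear_combination (-Real.sin θ) * h1 + Real.cos θ * h2
  have g1 : g 1 = 0 := by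
    rw [g0, g2] at h0; linarith
  intro i
  fin_cases i
  · exact g0
  · exact g1
  · exact g2

/-- existence of the unit normal -/
lemma pn_exists {D : V → V → ℝ} {θ θ' : ℝ}
    (hli : LinearIndependent ℝ ![dir θ, dir θ']) {h h' : V → ℝ}
    (hS : Sep Plane (dir θ) (dir θ') (fun z => h z + h' z)) (X₀ : ℝ × ℝ) :
    ∃ n, PnNrm (fun X => h (pnHom X) + h' (pnHom X)) X₀ n := by
  obtain ⟨c, hc, h0, hlt, hgt, hout, hv, hw⟩ := hS (pnHom X₀) (pnHom_mem X₀) (pn_li3 hli X₀)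
  have hd := pn_det hli
  have hpsd : ∀ x y : ℝ, 0 ≤ c 1 * x ^ 2 + c 2 * y ^ 2 + c 5 * (x * y) := by
    intro x y
    have := hout ![0, x, y] (by
      show ¬ (0 : ℝ) < _
      simp) (by
      show ¬ (0 : ℝ) < _
      simp)
    simpa [Qf] using this
  have hv' : Qf c (dir θ) = c 1 * Real.cos θ ^ 2 + c 2 * Real.sin θ ^ 2 +
      c 5 * (Real.cos θ * Real.sin θ) := by simp [Qf, dir]
  have hw' : Qf c (dir θ') = c 1 * Real.cos θ' ^ 2 + c 2 * Real.sin θ' ^ 2 +
      c 5 * (Real.cos θ' * Real.sin θ') := by simp [Qf, dir]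
  obtain ⟨c1, c2, c5⟩ := pn_form hpsd (le_antisymm (hv' ▸ hv) (hpsd _ _))
    (le_antisymm (hw' ▸ hw) (hpsd _ _)) hd
  have hq : ∀ X : ℝ × ℝ, Qf c (pnHom X) = c 0 + c 3 * X.1 + c 4 * X.2 := by
    intro X
    simp [Qf, pnHom, c1, c2, c5]
  rw [hq] at h0
  have hne : 0 < c 3 ^ 2 + c 4 ^ 2 := by
    by_contra hcon
    have h3 : c 3 = 0 := by nlinarith [sq_nonneg (c 3), sq_nonneg (c 4)]
    have h4 : c 4 = 0 := by nlinarith [sq_nonneg (c 3), sq_nonneg (c 4)]
    rw [h3, h4] at h0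
    have h00 : c 0 = 0 := by linarith
    have : c = 0 := by
      funext i
      fin_cases i
      · exact h00
      · exact c1
      · exact c2
      · exact h3
      · exact h4
      · exact c5
    rw [this, norm_zero] at hc
    exact zero_ne_one hc
  set r := √(c 3 ^ 2 + c 4 ^ 2) with hr
  have hrpos : 0 < r := Real.sqrt_pos.2 hne
  have hr2 : r ^ 2 = c 3 ^ 2 + c 4 ^ 2 := Real.sq_sqrt hne.le
  have key : ∀ X : ℝ × ℝ, c 3 / r * (X.1 - X₀.1) + c 4 / r * (X.2 - X₀.2) =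
      Qf c (pnHom X) / r := by
    intro X
    rw [hq]
    field_simp
    linear_combination -h0
  refine ⟨(c 3 / r, c 4 / r), ?_, ?_, ?_⟩
  · simp only
    rw [div_pow, div_pow, ← add_div, ← hr2, div_self (by positivity)]
  · intro X hX
    simp only
    rw [key]
    exact div_nonpos_of_nonpos_of_nonneg (hlt _ (pnHom_mem X) hX) hrpos.le
  · intro X hX
    simp only
    rw [key]
    exact div_nonneg (hgt _ (pnHom_mem X) hX) hrpos.le

lemma pn_nonconst {D : V → V → ℝ} (hD : ConePlane Plane D) {θ θ' : ℝ}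
    (hli : LinearIndependent ℝ ![dir θ, dir θ']) {h h' : V → ℝ} (hh : Horo Plane D (dir θ) h)
    (hh' : Horo Plane D (dir θ') h') :
    ∃ Xa Xb : ℝ × ℝ, h (pnHom Xa) + h' (pnHom Xa) < h (pnHom Xb) + h' (pnHom Xb) := by
  by_contra hcon
  push Not at hcon
  have hconst : ∀ X Y : ℝ × ℝ, h (pnHom X) + h' (pnHom X) = h (pnHom Y) + h' (pnHom Y) :=
    fun X Y => le_antisymm (hcon Y X) (hcon X Y)
  have hmem : ∀ τ : ℝ, (1 : ℝ) • pnHom 0 + (1 : ℝ) • dir τ ∈ Plane := by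
    intro τ
    show (0 : ℝ) < _
    simp [pnHom, dir]
  have hval : ∀ τ : ℝ, (1 : ℝ) • pnHom 0 + (1 : ℝ) • dir τ = pnHom (Real.cos τ, Real.sin τ) := by
    intro τ
    funext i
    fin_cases i <;> simp [pnHom, dir]
  have h0 := pnHom_mem 0
  set z := pnHom 0 with hz
  set zu := (1 : ℝ) • z + (1 : ℝ) • dir θ with hzu
  set zu' := (1 : ℝ) • z + (1 : ℝ) • dir θ' with hzu'
  have e1 : h z - h zu = D z zu := hh.2 z h0 1 1 one_pos one_pos (hmem θ)
  have e2 : h' z - h' zu' = D z zu' := hh'.2 z h0 1 1 one_pos one_pos (hmem θ')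
  have e3 : h z + h' z = h zu + h' zu := by
    have := hconst 0 (Real.cos θ, Real.sin θ)
    rw [← hval θ] at this
    exact this
  have e5 : D zu zu' < D zu z + D z zu' := hD.strict _ (hmem θ) _ h0 _ (hmem θ') (pn_li3' hli)
  have e6 := hh'.1 _ (hmem θ) _ (hmem θ')
  have e7 : D zu z = D z zu := hD.symm _ (hmem θ) _ h0
  have e8 := le_abs_self (h' zu - h' zu')
  change |h' zu - h' zu'| ≤ D zu zu' at e6
  linarith

/-- Level sets of the sum of two horofunctions with independent directions are parallel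
lines. -/
theorem plane_normal {D : V → V → ℝ} (hD : ConePlane Plane D) {θ θ' : ℝ}
    (hli : LinearIndependent ℝ ![dir θ, dir θ']) {h h' : V → ℝ} (hh : Horo Plane D (dir θ) h)
    (hh' : Horo Plane D (dir θ') h') (hS : Sep Plane (dir θ) (dir θ') (fun z => h z + h' z)) :
    ∃ n : ℝ × ℝ, n.1 ^ 2 + n.2 ^ 2 = 1 ∧ ∀ z ∈ Plane, ∀ w ∈ Plane, h z + h' z < h w + h' w →
      (n.1 * z 1 + n.2 * z 2) / z 0 ≤ (n.1 * w 1 + n.2 * w 2) / w 0 := by
  set S : ℝ × ℝ → ℝ := fun X => h (pnHom X) + h' (pnHom X) with hSdef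
  have hSc : Continuous S := (pn_cont hD hh.1).add (pn_cont hD hh'.1)
  have hex : ∀ X₀, ∃ n, PnNrm S X₀ n := fun X₀ => pn_exists (D := D) hli hS X₀
  obtain ⟨Xa, Xb, hab⟩ := pn_nonconst hD hli hh hh'
  change S Xa < S Xb at hab
  obtain ⟨n, hn⟩ := hex Xa
  obtain ⟨nb, hnb⟩ := hex Xb
  have hnn : n = nb := pn_eq hSc hn hnb hab
  have hall : ∀ X₀, PnNrm S X₀ n := by
    intro X₀
    obtain ⟨n0, h0⟩ := hex X₀
    have : n0 = n := by
      rcases lt_trichotomy (S X₀) (S Xa) with hlt | heq | hgt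
      · exact pn_eq hSc h0 hn hlt
      · rw [hnn]
        exact pn_eq hSc h0 hnb (heq ▸ hab)
      · exact (pn_eq hSc hn h0 hgt).symm
    rwa [← this]
  refine ⟨n, hn.1, fun z hz w hw hzw => ?_⟩
  have hz0 : 0 < z 0 := hz
  have hw0 : 0 < w 0 := hw
  have e1 := pn_homog hD hh.1 hz
  have e2 := pn_homog hD hh'.1 hz
  have e3 := pn_homog hD hh.1 hw
  have e4 := pn_homog hD hh'.1 hw
  rw [e1, e2, e3, e4] at hzw
  have := (hall (w 1 / w 0, w 2 / w 0)).2.1 (z 1 / z 0, z 2 / z 0) hzw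
  simp only at this
  have e5 : (n.1 * z 1 + n.2 * z 2) / z 0 = n.1 * (z 1 / z 0) + n.2 * (z 2 / z 0) := by ring
  have e6 : (n.1 * w 1 + n.2 * w 2) / w 0 = n.1 * (w 1 / w 0) + n.2 * (w 2 / w 0) := by ring
  rw [e5, e6]
  linarith


end JG1

end Pool.Agent.Helper87.Conics
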