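import Pool.Agent.Helper87.ConicsDefs

set_option autoImplicit false

open Filter Topology

namespace Pool.Agent.Helper87.Conics

namespace JG2

theorem g2_dir_closure (θ : ℝ) : dir θ ∈ closure Plane := by
  have h1 : Tendsto (fun n : ℕ => dir θ + (1 / ((n : ℝ) + 1)) • (![1, 0, 0] : V)) atTop
      (𝓝 (dir θ + (0:ℝ) • (![1, 0, 0] : V))) :=
    tendsto_const_nhds.add (tendsto_one_div_add_atTop_nhds_zero_nat.smul_const _)
  rw [zero_smul, add_zero] at h1
  refine mem_closure_of_tendsto h1 (Eventually.of_forall fun n => ?_)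
  change 0 < (dir θ + (1 / ((n : ℝ) + 1)) • (![1, 0, 0] : V)) 0
  simp only [dir, Pi.add_apply, Pi.smul_apply, Matrix.cons_val_zero, smul_eq_mul, mul_one, zero_add]
  positivity

theorem g2_dir_ne (θ : ℝ) : dir θ ≠ 0 := by
  intro h
  have h1 : Real.cos θ = 0 := congrFun h 1
  have h2 : Real.sin θ = 0 := congrFun h 2
  have := Real.sin_sq_add_cos_sq θ
  rw [h1, h2] at this
  norm_num at this

theorem g2_indep {a b : ℝ} (h : Real.sin (a - b) ≠ 0) : LinearIndependent ℝ ![dir a, dir b] := by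
  rw [LinearIndependent.pair_iff]
  intro s t hst
  have h1 : s * Real.cos a + t * Real.cos b = 0 := congrFun hst 1
  have h2 : s * Real.sin a + t * Real.sin b = 0 := congrFun hst 2
  rw [Real.sin_sub] at h
  constructor
  · have : s * (Real.sin a * Real.cos b - Real.cos a * Real.sin b) = 0 := by
      linear_combination h2 * Real.cos b - h1 * Real.sin b
    exact (mul_eq_zero.mp this).resolve_right h
  · have : t * (Real.sin a * Real.cos b - Real.cos a * Real.sin b) = 0 := by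
      linear_combination h1 * Real.sin a - h2 * Real.cos a
    exact (mul_eq_zero.mp this).resolve_right h

theorem g2_eventually (θ b : ℝ) :
    ∀ᶠ k : ℕ in (hyperfilter ℕ : Filter ℕ), Real.sin (θ + 1 / ((k : ℝ) + 1) - b) ≠ 0 := by
  have hfin : {k : ℕ | Real.sin (θ + 1 / ((k : ℝ) + 1) - b) = 0}.Finite := by
    apply Set.Subsingleton.finite
    intro k hk k' hk'
    simp only [Set.mem_ofPred_eq] at hk hk'
    set d : ℝ := 1 / ((k : ℝ) + 1) - 1 / ((k' : ℝ) + 1) with hd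
    have h1 : Real.sin d = 0 := by
      have : d = (θ + 1 / ((k : ℝ) + 1) - b) - (θ + 1 / ((k' : ℝ) + 1) - b) := by rw [hd]; ring
      rw [this, Real.sin_sub, hk, hk']; ring
    have hk1 : 0 < 1 / ((k : ℝ) + 1) := by positivity
    have hk1' : 0 < 1 / ((k' : ℝ) + 1) := by positivity
    have hk2 : 1 / ((k : ℝ) + 1) ≤ 1 := by
      rw [div_le_one (by positivity)]
      have : (0:ℝ) ≤ k := Nat.cast_nonneg k
      linarith
    have hk2' : 1 / ((k' : ℝ) + 1) ≤ 1 := by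
      rw [div_le_one (by positivity)]
      have : (0:ℝ) ≤ k' := Nat.cast_nonneg k'
      linarith
    have hpi := Real.pi_gt_three
    rw [Real.sin_eq_zero_iff_of_lt_of_lt (by linarith) (by linarith)] at h1
    have h2 : 1 / ((k : ℝ) + 1) = 1 / ((k' : ℝ) + 1) := by linarith
    rw [div_eq_div_iff (by positivity) (by positivity)] at h2
    have h3 : (k : ℝ) = k' := by linarith
    exact_mod_cast h3
  have h2 : {k : ℕ | Real.sin (θ + 1 / ((k : ℝ) + 1) - b) = 0}ᶜ ∈ (hyperfilter ℕ : Filter ℕ) :=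
    hfin.compl_mem_hyperfilter
  exact h2

/-- A family of horofunctions on the affine plane, with normals for all pairs. The first three
hypotheses are lemmas proved elsewhere. -/
theorem plane_family
    (horo_limit : ∀ {C : Set V} {D : V → V → ℝ} (_ : ConePlane C D) (l : Filter ℕ) [l.NeBot]
      {v : ℕ → V} {h : ℕ → V → ℝ} {v₀ : V} {h₀ : V → ℝ}, (∀ᶠ n in l, Horo C D (v n) (h n)) →
      Tendsto v l (𝓝 v₀) → (∀ z ∈ C, Tendsto (fun n => h n z) l (𝓝 (h₀ z))) → Horo C D v₀ h₀)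
    (exists_limit : ∀ {C : Set V} {D : V → V → ℝ} (_ : ConePlane C D) (l : Ultrafilter ℕ)
      {o : V}, o ∈ C → ∀ {h : ℕ → V → ℝ}, (∀ n, h n o = 0) →
      (∀ n, ∀ z ∈ C, ∀ w ∈ C, |h n z - h n w| ≤ D z w) →
      ∃ h₀ : V → ℝ, h₀ o = 0 ∧ ∀ z ∈ C, Tendsto (fun n => h n z) l (𝓝 (h₀ z)))
    (plane_normal : ∀ {D : V → V → ℝ}, ConePlane Plane D → ∀ {θ θ' : ℝ},
      LinearIndependent ℝ ![dir θ, dir θ'] → ∀ {h h' : V → ℝ}, Horo Plane D (dir θ) h →
      Horo Plane D (dir θ') h' → Sep Plane (dir θ) (dir θ') (fun z => h z + h' z) →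
      ∃ n : ℝ × ℝ, n.1 ^ 2 + n.2 ^ 2 = 1 ∧ ∀ z ∈ Plane, ∀ w ∈ Plane, h z + h' z < h w + h' w →
        (n.1 * z 1 + n.2 * z 2) / z 0 ≤ (n.1 * w 1 + n.2 * w 2) / w 0)
    {D : V → V → ℝ} (hD : ConePlane Plane D) {H : V → V → ℝ} (hH : HoroFamily Plane D H) :
    ∃ g : ℝ → ℝ × ℝ → ℝ,
      (∀ θ X Y, |g θ X - g θ Y| ≤ D ![1, X.1, X.2] ![1, Y.1, Y.2]) ∧
      (∀ θ X, ∀ t : ℝ, 0 < t → g θ X - g θ (X.1 + t * Real.cos θ, X.2 + t * Real.sin θ) =
        D ![1, X.1, X.2] ![1, X.1 + t * Real.cos θ, X.2 + t * Real.sin θ]) ∧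
      ∀ θ θ', ∃ n : ℝ × ℝ, n.1 ^ 2 + n.2 ^ 2 = 1 ∧ ∀ X Y, g θ X + g θ' X < g θ Y + g θ' Y →
        n.1 * X.1 + n.2 * X.2 ≤ n.1 * Y.1 + n.2 * Y.2 := by
  obtain ⟨⟨o, ho, hHo⟩, hHoro, hHsep⟩ := hH
  have hl : (hyperfilter ℕ : Filter ℕ) ≤ atTop := by
    rw [← Nat.cofinite_eq_atTop]; exact hyperfilter_le_cofinite
  set tk : ℝ → ℕ → ℝ := fun θ k => θ + 1 / ((k : ℝ) + 1) with htk
  have hex : ∀ θ : ℝ, ∃ h₀ : V → ℝ, h₀ o = 0 ∧
      ∀ z ∈ Plane, Tendsto (fun n => H (dir (tk θ n)) z) (hyperfilter ℕ) (𝓝 (h₀ z)) := by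
    intro θ
    exact exists_limit hD (hyperfilter ℕ) ho (h := fun n => H (dir (tk θ n))) (fun n => hHo _)
      (fun n z hz w hw => (hHoro _ (g2_dir_closure _) (g2_dir_ne _)).1 z hz w hw)
  choose hh _ hhlim using hex
  have hhoro : ∀ θ, Horo Plane D (dir θ) (hh θ) := by
    intro θ
    refine horo_limit hD (hyperfilter ℕ : Filter ℕ) (v := fun n => dir (tk θ n))
      (h := fun n => H (dir (tk θ n)))
      (Eventually.of_forall fun n => hHoro _ (g2_dir_closure _) (g2_dir_ne _)) ?_ (hhlim θ)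
    have h1 : Tendsto (fun n : ℕ => θ + 1 / ((n : ℝ) + 1)) atTop (𝓝 (θ + 0)) :=
      tendsto_const_nhds.add tendsto_one_div_add_atTop_nhds_zero_nat
    rw [add_zero] at h1
    have hcont : Continuous dir := by
      unfold dir
      refine continuous_pi fun i => ?_
      fin_cases i
      · exact continuous_const
      · exact Real.continuous_cos
      · exact Real.continuous_sin
    exact ((hcont.tendsto θ).comp h1).mono_left hl
  have hmem : ∀ X : ℝ × ℝ, (![1, X.1, X.2] : V) ∈ Plane := by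
    intro X
    change (0:ℝ) < 1
    norm_num
  refine ⟨fun θ X => hh θ ![1, X.1, X.2], ?_, ?_, ?_⟩
  · intro θ X Y
    exact (hhoro θ).1 _ (hmem X) _ (hmem Y)
  · intro θ X t ht
    have e : (1:ℝ) • (![1, X.1, X.2] : V) + t • dir θ =
        ![1, X.1 + t * Real.cos θ, X.2 + t * Real.sin θ] := by
      funext i
      fin_cases i <;> simp [dir]
    have h1 := (hhoro θ).2 _ (hmem X) 1 t one_pos ht (by
      rw [e]; exact hmem (X.1 + t * Real.cos θ, X.2 + t * Real.sin θ))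
    rw [e] at h1
    exact h1
  · intro θ θ'
    have hN : ∀ k m : ℕ, ∃ n : ℝ × ℝ, n.1 ^ 2 + n.2 ^ 2 = 1 ∧
        (Real.sin (tk θ k - tk θ' m) ≠ 0 → ∀ z ∈ Plane, ∀ w ∈ Plane,
          H (dir (tk θ k)) z + H (dir (tk θ' m)) z < H (dir (tk θ k)) w + H (dir (tk θ' m)) w →
          (n.1 * z 1 + n.2 * z 2) / z 0 ≤ (n.1 * w 1 + n.2 * w 2) / w 0) := by
      intro k m
      by_cases hc : Real.sin (tk θ k - tk θ' m) = 0
      · exact ⟨(1, 0), by norm_num, fun h => absurd hc h⟩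
      · obtain ⟨n, hn1, hn2⟩ := plane_normal hD (g2_indep hc)
          (hHoro _ (g2_dir_closure _) (g2_dir_ne _)) (hHoro _ (g2_dir_closure _) (g2_dir_ne _))
          (hHsep _ (g2_dir_closure _) _ (g2_dir_closure _) (g2_indep hc))
        exact ⟨n, hn1, fun _ => hn2⟩
    choose N hN1 hN2 using hN
    have hK : IsCompact {n : ℝ × ℝ | n.1 ^ 2 + n.2 ^ 2 = 1} := by
      apply Metric.isCompact_of_isClosed_isBounded
      · exact isClosed_eq (by fun_prop) continuous_const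
      · refine (Metric.isBounded_closedBall (x := (0 : ℝ × ℝ)) (r := 1)).subset ?_
        intro n hn
        simp only [Set.mem_ofPred_eq] at hn
        rw [mem_closedBall_zero_iff, Prod.norm_def, max_le_iff, Real.norm_eq_abs, Real.norm_eq_abs,
          abs_le_one_iff_mul_self_le_one, abs_le_one_iff_mul_self_le_one]
        constructor
        · nlinarith [sq_nonneg n.2]
        · nlinarith [sq_nonneg n.1]
    have hlimK : ∀ u : ℕ → ℝ × ℝ, (∀ k, (u k).1 ^ 2 + (u k).2 ^ 2 = 1) →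
        ∃ n : ℝ × ℝ, n.1 ^ 2 + n.2 ^ 2 = 1 ∧ Tendsto u (hyperfilter ℕ) (𝓝 n) := by
      intro u hu
      obtain ⟨n, hn, hn'⟩ := hK.ultrafilter_le_nhds' ((hyperfilter ℕ).map u)
        (by
          rw [Ultrafilter.mem_map]
          exact Filter.univ_mem' hu)
      exact ⟨n, hn, hn'⟩
    have hnm : ∀ m, ∃ n : ℝ × ℝ, n.1 ^ 2 + n.2 ^ 2 = 1 ∧
        Tendsto (fun k => N k m) (hyperfilter ℕ) (𝓝 n) := fun m => hlimK _ (fun k => hN1 k m)
    choose nm hnm1 hnm2 using hnm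
    obtain ⟨n, hn1, hn2⟩ := hlimK nm hnm1
    refine ⟨n, hn1, ?_⟩
    intro X Y hXY
    -- continuity of the functional
    have hcf : ∀ Z : ℝ × ℝ, Continuous (fun n : ℝ × ℝ => n.1 * Z.1 + n.2 * Z.2) := by
      intro Z; fun_prop
    have hz := hmem X
    have hw := hmem Y
    have hev1 : ∀ᶠ m in (hyperfilter ℕ : Filter ℕ),
        hh θ ![1, X.1, X.2] + H (dir (tk θ' m)) ![1, X.1, X.2] <
          hh θ ![1, Y.1, Y.2] + H (dir (tk θ' m)) ![1, Y.1, Y.2] :=
      (tendsto_const_nhds.add (hhlim θ' _ hz)).eventually_lt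
        (tendsto_const_nhds.add (hhlim θ' _ hw)) hXY
    have hev2 : ∀ᶠ m in (hyperfilter ℕ : Filter ℕ),
        (nm m).1 * X.1 + (nm m).2 * X.2 ≤ (nm m).1 * Y.1 + (nm m).2 * Y.2 := by
      filter_upwards [hev1] with m hm
      have hev3 : ∀ᶠ k in (hyperfilter ℕ : Filter ℕ),
          H (dir (tk θ k)) ![1, X.1, X.2] + H (dir (tk θ' m)) ![1, X.1, X.2] <
            H (dir (tk θ k)) ![1, Y.1, Y.2] + H (dir (tk θ' m)) ![1, Y.1, Y.2] :=
        ((hhlim θ _ hz).add tendsto_const_nhds).eventually_lt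
          ((hhlim θ _ hw).add tendsto_const_nhds) hm
      have hev4 : ∀ᶠ k in (hyperfilter ℕ : Filter ℕ),
          (N k m).1 * X.1 + (N k m).2 * X.2 ≤ (N k m).1 * Y.1 + (N k m).2 * Y.2 := by
        filter_upwards [hev3, g2_eventually θ (tk θ' m)] with k hk1 hk2
        have := hN2 k m hk2 _ hz _ hw hk1
        simpa using this
      exact le_of_tendsto_of_tendsto (((hcf X).tendsto _).comp (hnm2 m))
        (((hcf Y).tendsto _).comp (hnm2 m)) hev4
    exact le_of_tendsto_of_tendsto (((hcf X).tendsto _).comp hn2)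
      (((hcf Y).tendsto _).comp hn2) hev2


end JG2

end Pool.Agent.Helper87.Conics
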