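import Pool.Agent.Helper87.ConicsDefs

set_option autoImplicit false

open Filter Topology

namespace Pool.Agent.Helper87.Conics

namespace JG3


theorem exists_angle {a b : ℝ} (h : a ^ 2 + b ^ 2 = 1) : ∃ φ : ℝ, Real.cos φ = a ∧ Real.sin φ = b := by
  have hz : ‖(⟨a, b⟩ : ℂ)‖ = 1 := by
    rw [Complex.norm_def, Complex.normSq_mk]
    rw [show a * a + b * b = 1 by nlinarith]
    simp
  refine ⟨Complex.arg ⟨a, b⟩, ?_, ?_⟩
  · rw [Complex.cos_arg (by intro h0; rw [h0] at hz; simp at hz)]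
    rw [hz]; simp
  · rw [Complex.sin_arg, hz]; simp

/-- A continuous function whose strict growth is controlled by a unit vector. -/
theorem level {f : ℝ × ℝ → ℝ} (hf : Continuous f) {n : ℝ × ℝ} (hn : n.1 ^ 2 + n.2 ^ 2 = 1)
    (H : ∀ X Y, f X < f Y → n.1 * X.1 + n.2 * X.2 ≤ n.1 * Y.1 + n.2 * Y.2) :
    ∀ X Y : ℝ × ℝ, n.1 * X.1 + n.2 * X.2 = n.1 * Y.1 + n.2 * Y.2 → f X = f Y := by
  have key : ∀ X Y : ℝ × ℝ, n.1 * X.1 + n.2 * X.2 = n.1 * Y.1 + n.2 * Y.2 → ¬ f X < f Y := by
    intro X Y hXY hlt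
    have hc : Continuous (fun e : ℝ => f (Y.1 - e * n.1, Y.2 - e * n.2)) := by
      apply hf.comp
      fun_prop
    have h0 : f X < (fun e : ℝ => f (Y.1 - e * n.1, Y.2 - e * n.2)) 0 := by
      simpa using hlt
    have hev := (hc.tendsto 0).eventually (lt_mem_nhds h0)
    have hev2 : ∀ᶠ e : ℝ in 𝓝[>] 0, f X < f (Y.1 - e * n.1, Y.2 - e * n.2) :=
      hev.filter_mono nhdsWithin_le_nhds
    obtain ⟨e, he, hepos⟩ := (hev2.and self_mem_nhdsWithin).exists
    have := H X _ he
    have hepos' : (0 : ℝ) < e := hepos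
    have this' : n.1 * X.1 + n.2 * X.2 ≤ n.1 * (Y.1 - e * n.1) + n.2 * (Y.2 - e * n.2) := this
    nlinarith
  intro X Y hXY
  rcases lt_trichotomy (f X) (f Y) with h | h | h
  · exact absurd h (key X Y hXY)
  · exact h
  · exact absurd h (key Y X hXY.symm)

/-- Pexider type argument: the horofunctions are affine, and the metric is translation invariant
and homogeneous. -/
theorem plane_norm {δ : ℝ × ℝ → ℝ × ℝ → ℝ} (hpos : ∀ X Y, X ≠ Y → 0 < δ X Y)
    (hself : ∀ X, δ X X = 0) (hsymm : ∀ X Y, δ X Y = δ Y X)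
    (htri : ∀ X Y Z, δ X Z ≤ δ X Y + δ Y Z)
    (hcont : Continuous (fun p : (ℝ × ℝ) × (ℝ × ℝ) => δ p.1 p.2))
    {g : ℝ → ℝ × ℝ → ℝ} (h1 : ∀ θ X Y, |g θ X - g θ Y| ≤ δ X Y)
    (h2 : ∀ θ X, ∀ t : ℝ, 0 < t → g θ X - g θ (X.1 + t * Real.cos θ, X.2 + t * Real.sin θ) =
      δ X (X.1 + t * Real.cos θ, X.2 + t * Real.sin θ))
    (h3 : ∀ θ θ', ∃ n : ℝ × ℝ, n.1 ^ 2 + n.2 ^ 2 = 1 ∧ ∀ X Y, g θ X + g θ' X < g θ Y + g θ' Y →
      n.1 * X.1 + n.2 * X.2 ≤ n.1 * Y.1 + n.2 * Y.2) :
    (∀ X Y, δ X Y = δ 0 (Y - X)) ∧ ∀ t : ℝ, 0 ≤ t → ∀ X, δ 0 (t • X) = t * δ 0 X := by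
  classical
  -- continuity
  have hgc : ∀ θ, Continuous (g θ) := by
    intro θ
    rw [continuous_iff_continuousAt]
    intro X
    have hd : Tendsto (fun Y => δ Y X) (𝓝 X) (𝓝 0) := by
      have hc : Continuous (fun Y : ℝ × ℝ => δ Y X) :=
        hcont.comp (Continuous.prodMk continuous_id continuous_const)
      have := hc.tendsto X
      rwa [hself X] at this
    have : Tendsto (fun Y => g θ Y - g θ X) (𝓝 X) (𝓝 0) :=
      squeeze_zero_norm (fun Y => by simpa [Real.norm_eq_abs] using h1 θ Y X) hd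
    have h' := this.add_const (g θ X)
    simpa [ContinuousAt] using h'
  have hstep : ∀ θ X, ∀ t : ℝ, 0 < t →
      g θ (X.1 + t * Real.cos θ, X.2 + t * Real.sin θ) < g θ X := by
    intro θ X t ht
    have h := h2 θ X t ht
    have hne : X ≠ (X.1 + t * Real.cos θ, X.2 + t * Real.sin θ) := by
      intro h0
      have e1 : X.1 = X.1 + t * Real.cos θ := congrArg Prod.fst h0
      have e2 : X.2 = X.2 + t * Real.sin θ := congrArg Prod.snd h0
      have e3 : t * Real.cos θ = 0 := by linarith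
      have e4 : t * Real.sin θ = 0 := by linarith
      have c1 : Real.cos θ = 0 := by
        rcases mul_eq_zero.mp e3 with h | h
        · exact absurd h ht.ne'
        · exact h
      have c2 : Real.sin θ = 0 := by
        rcases mul_eq_zero.mp e4 with h | h
        · exact absurd h ht.ne'
        · exact h
      have := Real.sin_sq_add_cos_sq θ
      rw [c1, c2] at this
      norm_num at this
    have := hpos _ _ hne
    linarith
  -- directions
  have hdir : ∀ θ, ∃ n : ℝ × ℝ, n.1 ^ 2 + n.2 ^ 2 = 1 ∧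
      n.1 * Real.cos θ + n.2 * Real.sin θ < 0 ∧
      (∀ X Y : ℝ × ℝ, n.1 * X.1 + n.2 * X.2 = n.1 * Y.1 + n.2 * Y.2 → g θ X = g θ Y) := by
    intro θ
    obtain ⟨n, hn, H⟩ := h3 θ θ
    have H' : ∀ X Y, g θ X < g θ Y → n.1 * X.1 + n.2 * X.2 ≤ n.1 * Y.1 + n.2 * Y.2 :=
      fun X Y h => H X Y (by linarith)
    have hl := level (hgc θ) hn H'
    refine ⟨n, hn, ?_, hl⟩
    have hs := hstep θ 0 1 one_pos
    have h4 := H' _ _ hs
    simp only [Prod.fst_zero, Prod.snd_zero, zero_add, one_mul, mul_zero, add_zero] at h4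
    rcases lt_or_eq_of_le h4 with h5 | h5
    · exact h5
    · exfalso
      have := hl (((0 : ℝ × ℝ).1 + 1 * Real.cos θ, (0 : ℝ × ℝ).2 + 1 * Real.sin θ)) 0
        (by simpa using h5)
      rw [this] at hs
      exact lt_irrefl _ hs
  -- affine
  have haff : ∀ θ, ∃ p : ℝ × ℝ, ∀ X Y : ℝ × ℝ,
      g θ X - g θ Y = p.1 * (Y.1 - X.1) + p.2 * (Y.2 - X.2) := by
    intro θ
    obtain ⟨n, hn, hneg, hl⟩ := hdir θ
    obtain ⟨φ, hφ1, hφ2⟩ := exists_angle (a := -n.2) (b := n.1) (by nlinarith)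
    obtain ⟨m, hm, hmneg, hlm⟩ := hdir φ
    rw [hφ1, hφ2] at hmneg
    set D : ℝ := n.1 * m.2 - n.2 * m.1 with hD
    have hD0 : D ≠ 0 := by
      have : D < 0 := by rw [hD]; nlinarith
      exact this.ne
    obtain ⟨q, hq, HQ⟩ := h3 θ φ
    have hlq := level (f := fun X => g θ X + g φ X) ((hgc θ).add (hgc φ)) hq HQ
    -- coordinates
    let P : ℝ → ℝ → ℝ × ℝ := fun a b => ((a * m.2 - b * n.2) / D, (b * n.1 - a * m.1) / D)
    have hP1 : ∀ a b, n.1 * (P a b).1 + n.2 * (P a b).2 = a := by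
      intro a b
      simp only [P]
      field_simp
      rw [hD]; ring
    have hP2 : ∀ a b, m.1 * (P a b).1 + m.2 * (P a b).2 = b := by
      intro a b
      simp only [P]
      field_simp
      rw [hD]; ring
    let F : ℝ → ℝ := fun a => g θ (a * n.1, a * n.2)
    let G : ℝ → ℝ := fun b => g φ (b * m.1, b * m.2)
    have hF : ∀ X : ℝ × ℝ, g θ X = F (n.1 * X.1 + n.2 * X.2) := by
      intro X
      apply hl
      simp only
      linear_combination (-(n.1 * X.1 + n.2 * X.2)) * hn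
    have hG : ∀ X : ℝ × ℝ, g φ X = G (m.1 * X.1 + m.2 * X.2) := by
      intro X
      apply hlm
      simp only
      linear_combination (-(m.1 * X.1 + m.2 * X.2)) * hm
    -- coefficients of q
    set α : ℝ := (q.1 * m.2 - q.2 * m.1) / D with hα
    set β : ℝ := (n.1 * q.2 - n.2 * q.1) / D with hβ
    have hq1 : q.1 = α * n.1 + β * m.1 := by
      rw [hα, hβ]; field_simp; rw [hD]; ring
    have hq2 : q.2 = α * n.2 + β * m.2 := by
      rw [hα, hβ]; field_simp; rw [hD]; ring
    have hqP : ∀ a b, q.1 * (P a b).1 + q.2 * (P a b).2 = α * a + β * b := by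
      intro a b
      have e1 := hP1 a b
      have e2 := hP2 a b
      calc q.1 * (P a b).1 + q.2 * (P a b).2
          = α * (n.1 * (P a b).1 + n.2 * (P a b).2) + β * (m.1 * (P a b).1 + m.2 * (P a b).2) := by
            rw [hq1, hq2]; ring
        _ = α * a + β * b := by rw [e1, e2]
    have hFG : ∀ a b a' b', α * a + β * b = α * a' + β * b' → F a + G b = F a' + G b' := by
      intro a b a' b' h
      have := hlq (P a b) (P a' b') (by rw [hqP, hqP, h])
      simp only [hF, hG, hP1, hP2] at this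
      exact this
    -- non degeneracy
    have hFne : ∃ a a', F a ≠ F a' := by
      have hs := hstep θ 0 1 one_pos
      rw [hF, hF] at hs
      exact ⟨_, _, hs.ne⟩
    have hGne : ∃ a a', G a ≠ G a' := by
      have hs := hstep φ 0 1 one_pos
      rw [hG, hG] at hs
      exact ⟨_, _, hs.ne⟩
    have hβ0 : β ≠ 0 := by
      intro h0
      obtain ⟨b, b', hb⟩ := hGne
      have := hFG 0 b 0 b' (by rw [h0]; ring)
      apply hb; linarith
    have hα0 : α ≠ 0 := by
      intro h0
      obtain ⟨b, b', hb⟩ := hFne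
      have := hFG b 0 b' 0 (by rw [h0]; ring)
      apply hb; linarith
    have hadd : ∀ a s, F (a + s) = F a + F s - F 0 := by
      intro a s
      have e1 := hFG (a + s) 0 a (α * s / β) (by field_simp; ring)
      have e2 := hFG s 0 0 (α * s / β) (by field_simp; ring)
      linarith
    let ψ : ℝ →+ ℝ :=
      { toFun := fun a => F a - F 0
        map_zero' := by simp
        map_add' := fun a b => by simp only [hadd]; ring }
    have hFc : Continuous F := (hgc θ).comp (by fun_prop)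
    have hψc : Continuous ψ := hFc.sub continuous_const
    have hlin : ∀ a, F a = F 0 + a * (F 1 - F 0) := by
      intro a
      have := map_real_smul ψ hψc a 1
      simp only [smul_eq_mul, mul_one] at this
      have h5 : F a - F 0 = a * (F 1 - F 0) := this
      linarith
    refine ⟨(-(F 1 - F 0) * n.1, -(F 1 - F 0) * n.2), ?_⟩
    intro X Y
    rw [hF X, hF Y, hlin (n.1 * X.1 + n.2 * X.2), hlin (n.1 * Y.1 + n.2 * Y.2)]
    ring
  -- polar coordinates
  have hpolar : ∀ Z : ℝ × ℝ, Z ≠ 0 → ∃ t θ : ℝ, 0 < t ∧ Z = (t * Real.cos θ, t * Real.sin θ) := by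
    intro Z hZ
    have hne : (⟨Z.1, Z.2⟩ : ℂ) ≠ 0 := by
      intro h0
      apply hZ
      have e1 := congrArg Complex.re h0
      have e2 := congrArg Complex.im h0
      exact Prod.ext e1 e2
    refine ⟨‖(⟨Z.1, Z.2⟩ : ℂ)‖, Complex.arg ⟨Z.1, Z.2⟩, norm_pos_iff.mpr hne, ?_⟩
    have hn0 : ‖(⟨Z.1, Z.2⟩ : ℂ)‖ ≠ 0 := norm_ne_zero_iff.mpr hne
    apply Prod.ext
    · simp only
      rw [Complex.cos_arg hne]; field_simp
    · simp only
      rw [Complex.sin_arg]; field_simp
  constructor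
  · intro X Y
    by_cases hXY : Y - X = 0
    · rw [hXY]
      have : Y = X := sub_eq_zero.mp hXY
      rw [this, hself, hself]
    · obtain ⟨t, θ, ht, hZ⟩ := hpolar _ hXY
      obtain ⟨p, hp⟩ := haff θ
      have e1 := h2 θ X t ht
      have e2 := h2 θ 0 t ht
      have hY : Y = (X.1 + t * Real.cos θ, X.2 + t * Real.sin θ) := by
        have a1 := congrArg Prod.fst hZ
        have a2 := congrArg Prod.snd hZ
        simp only [Prod.fst_sub, Prod.snd_sub] at a1 a2
        apply Prod.ext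
        · simp only; linarith
        · simp only; linarith
      rw [hp] at e1 e2
      rw [hZ]
      simp only [Prod.fst_zero, Prod.snd_zero, zero_add] at e2
      rw [← e2]
      rw [← hY] at e1
      rw [← e1, hY]
      simp
  · intro t ht X
    by_cases hX : X = 0
    · subst hX
      simp [hself]
    rcases eq_or_lt_of_le ht with h0 | h0
    · subst h0
      simp [hself]
    · obtain ⟨s, θ, hs, hZ⟩ := hpolar _ hX
      obtain ⟨p, hp⟩ := haff θ
      have e1 := h2 θ 0 s hs
      have e2 := h2 θ 0 (t * s) (mul_pos h0 hs)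
      rw [hp] at e1 e2
      simp only [Prod.fst_zero, Prod.snd_zero, zero_add] at e1 e2
      have hX' : (s * Real.cos θ, s * Real.sin θ) = X := hZ.symm
      have hX2 : (t * s * Real.cos θ, t * s * Real.sin θ) = t • X := by
        rw [hZ]
        apply Prod.ext <;> simp [mul_assoc]
      rw [hX'] at e1
      rw [hX2] at e2
      rw [← e1, ← e2]
      ring


end JG3

end Pool.Agent.Helper87.Conics
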