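import Pool.Agent.Helper87.ConicsDefs

set_option autoImplicit false

open Filter Topology

namespace Pool.Agent.Helper87.Conics

namespace JG4




theorem Qf_expl (c : Fin 6 → ℝ) (x y : ℝ) :
    Qf c ![1, x, y] = c 0 + c 1 * x ^ 2 + c 2 * y ^ 2 + c 3 * x + c 4 * y + c 5 * (x * y) := by
  simp [Qf]

theorem Qf_smul (r : ℝ) (c : Fin 6 → ℝ) (v : V) : Qf (r • c) v = r * Qf c v := by
  simp [Qf]; ring

/-- Step 1: the limit conic. -/
theorem limit_conic {N : ℝ × ℝ → ℝ} (hpos : ∀ X, X ≠ 0 → 0 < N X)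
    (hsymm : ∀ X, N (-X) = N X) (hadd : ∀ X Y, N (X + Y) ≤ N X + N Y)
    (hsmul : ∀ t : ℝ, 0 ≤ t → ∀ X, N (t • X) = t * N X) (hcont : Continuous N)
    (hE : ∀ F G : ℝ × ℝ, F ≠ G → ∀ s : ℝ, N (G - F) < s → ∃ c : Fin 6 → ℝ, c ≠ 0 ∧
      ∀ X, N (X - F) + N (X - G) = s → Qf c ![1, X.1, X.2] = 0) :
    ∃ c : Fin 6 → ℝ, c ≠ 0 ∧ ∀ X, N X = 1 → Qf c ![1, X.1, X.2] = 0 := by
  have he1 : ((1 : ℝ), (0 : ℝ)) ≠ 0 := by
    intro h; simpa using congrArg Prod.fst h
  have hN1 : 0 < N (1, 0) := hpos _ he1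
  set e : ℝ × ℝ := (1 / (2 * N (1, 0))) • ((1 : ℝ), (0 : ℝ)) with he
  have hNe : N e = 1 / 2 := by
    rw [he, hsmul _ (by positivity)]
    field_simp
  have hene : e ≠ 0 := by
    intro h
    have h0 : N (0 : ℝ × ℝ) = 0 := by
      have := hsmul 0 le_rfl 0
      simpa using this
    rw [h, h0] at hNe
    norm_num at hNe
  let ε : ℕ → ℝ := fun k => 1 / ((k : ℝ) + 1)
  have hεpos : ∀ k, 0 < ε k := fun k => by positivity
  have hε1 : ∀ k, ε k ≤ 1 := by
    intro k
    have : (1 : ℝ) ≤ (k : ℝ) + 1 := by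
      have := (Nat.cast_nonneg k : (0 : ℝ) ≤ (k : ℝ)); linarith
    exact (div_le_one (by positivity)).mpr this
  have hεlim : Tendsto ε atTop (𝓝 0) := tendsto_one_div_add_atTop_nhds_zero_nat
  have hkey : ∀ k : ℕ, ∃ c : Fin 6 → ℝ, ‖c‖ = 1 ∧
      ∀ X, N (X + ε k • e) + N (X - ε k • e) = 2 → Qf c ![1, X.1, X.2] = 0 := by
    intro k
    have hne : -(ε k • e) ≠ ε k • e := by
      intro h
      have h2 : (2 * ε k) • e = 0 := by
        have : ε k • e + ε k • e = 0 := by
          nth_rewrite 1 [← h]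
          simp
        rw [two_mul, add_smul]; exact this
      rcases smul_eq_zero.mp h2 with h3 | h3
      · have := hεpos k
        linarith
      · exact hene h3
    have hlt : N (ε k • e - -(ε k • e)) < 2 := by
      have : ε k • e - -(ε k • e) = (2 * ε k) • e := by
        rw [two_mul, add_smul]; abel
      rw [this, hsmul _ (by have := hεpos k; positivity), hNe]
      have := hε1 k
      linarith
    obtain ⟨c, hc0, hc⟩ := hE (-(ε k • e)) (ε k • e) hne 2 hlt
    refine ⟨‖c‖⁻¹ • c, ?_, ?_⟩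
    · rw [norm_smul, norm_inv, norm_norm]
      exact inv_mul_cancel₀ (norm_ne_zero_iff.mpr hc0)
    · intro X hX
      rw [Qf_smul, hc X (by rw [sub_neg_eq_add]; exact hX), mul_zero]
  choose c hcn hcE using hkey
  obtain ⟨c₀, hc₀, φ, hφ, hlim⟩ :=
    (isCompact_sphere (0 : Fin 6 → ℝ) 1).tendsto_subseq (x := c)
      (fun k => by simp [hcn k])
  refine ⟨c₀, ?_, ?_⟩
  · intro h
    rw [h] at hc₀
    simp at hc₀
  · intro X hX
    -- choose t_k
    have ht : ∀ k : ℕ, ∃ t : ℝ, t ∈ Set.Icc (1 - ε k) (1 + ε k) ∧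
        N (t • X + ε k • e) + N (t • X - ε k • e) = 2 := by
      intro k
      have hcontf : Continuous (fun t : ℝ => N (t • X + ε k • e) + N (t • X - ε k • e)) := by
        fun_prop
      have hεe : N (ε k • e) = ε k / 2 := by
        rw [hsmul _ (hεpos k).le, hNe]; ring
      have hup : ∀ t : ℝ, 0 ≤ t → N (t • X + ε k • e) + N (t • X - ε k • e) ≤ 2 * t + ε k := by
        intro t ht0
        have h1 := hadd (t • X) (ε k • e)
        have h2 := hadd (t • X) (-(ε k • e))
        rw [hsymm, ← sub_eq_add_neg] at h2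
        rw [hsmul t ht0, hX, hεe] at h1 h2
        linarith
      have hlo : ∀ t : ℝ, 0 ≤ t → 2 * t - ε k ≤ N (t • X + ε k • e) + N (t • X - ε k • e) := by
        intro t ht0
        have h1 := hadd (t • X + ε k • e) (-(ε k • e))
        have h2 := hadd (t • X - ε k • e) (ε k • e)
        rw [add_neg_cancel_right, hsymm, hsmul t ht0, hX, hεe] at h1
        rw [sub_add_cancel, hsmul t ht0, hX, hεe] at h2
        linarith
      have hle : 1 - ε k ≤ 1 + ε k := by have := hεpos k; linarith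
      have hivt := intermediate_value_Icc hle hcontf.continuousOn
      have hmem : (2 : ℝ) ∈ Set.Icc
          (N ((1 - ε k) • X + ε k • e) + N ((1 - ε k) • X - ε k • e))
          (N ((1 + ε k) • X + ε k • e) + N ((1 + ε k) • X - ε k • e)) := by
        constructor
        · have := hup (1 - ε k) (by have := hε1 k; linarith)
          have := hεpos k
          linarith
        · have := hlo (1 + ε k) (by have := hεpos k; linarith)
          have := hεpos k
          linarith
      obtain ⟨t, htI, htv⟩ := hivt hmem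
      exact ⟨t, htI, htv⟩
    choose t htI htv using ht
    have htlim : Tendsto t atTop (𝓝 1) := by
      have h1 : Tendsto (fun k => 1 - ε k) atTop (𝓝 1) := by
        simpa using (tendsto_const_nhds (x := (1 : ℝ))).sub hεlim
      have h2 : Tendsto (fun k => 1 + ε k) atTop (𝓝 1) := by
        simpa using (tendsto_const_nhds (x := (1 : ℝ))).add hεlim
      exact tendsto_of_tendsto_of_tendsto_of_le_of_le h1 h2 (fun k => (htI k).1)
        (fun k => (htI k).2)
    have hzero : ∀ k, Qf (c k) ![1, t k * X.1, t k * X.2] = 0 := by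
      intro k
      have := hcE k (t k • X) (htv k)
      simpa using this
    have hcontQ : Continuous (fun p : (Fin 6 → ℝ) × ℝ =>
        p.1 0 + p.1 1 * (p.2 * X.1) ^ 2 + p.1 2 * (p.2 * X.2) ^ 2 + p.1 3 * (p.2 * X.1)
          + p.1 4 * (p.2 * X.2) + p.1 5 * ((p.2 * X.1) * (p.2 * X.2))) := by
      fun_prop
    have hlim2 : Tendsto (fun k => ((c (φ k), t (φ k)) : (Fin 6 → ℝ) × ℝ)) atTop
        (𝓝 (c₀, 1)) :=
      Tendsto.prodMk_nhds hlim (htlim.comp hφ.tendsto_atTop)
    have hlim3 := (hcontQ.tendsto (c₀, 1)).comp hlim2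
    have hz : (fun p : (Fin 6 → ℝ) × ℝ =>
        p.1 0 + p.1 1 * (p.2 * X.1) ^ 2 + p.1 2 * (p.2 * X.2) ^ 2 + p.1 3 * (p.2 * X.1)
          + p.1 4 * (p.2 * X.2) + p.1 5 * ((p.2 * X.1) * (p.2 * X.2))) ∘
        (fun k => ((c (φ k), t (φ k)) : (Fin 6 → ℝ) × ℝ)) = fun _ => 0 := by
      funext k
      have := hzero (φ k)
      rw [Qf_expl] at this
      simpa using this
    rw [hz] at hlim3
    have := tendsto_nhds_unique hlim3 tendsto_const_nhds
    rw [Qf_expl]
    simpa using this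

/-- A norm on the plane whose ellipses are contained in conics is Euclidean. -/
theorem norm_euclid {N : ℝ × ℝ → ℝ} (hpos : ∀ X, X ≠ 0 → 0 < N X)
    (hsymm : ∀ X, N (-X) = N X) (hadd : ∀ X Y, N (X + Y) ≤ N X + N Y)
    (hsmul : ∀ t : ℝ, 0 ≤ t → ∀ X, N (t • X) = t * N X) (hcont : Continuous N)
    (hE : ∀ F G : ℝ × ℝ, F ≠ G → ∀ s : ℝ, N (G - F) < s → ∃ c : Fin 6 → ℝ, c ≠ 0 ∧
      ∀ X, N (X - F) + N (X - G) = s → Qf c ![1, X.1, X.2] = 0) :
    ∃ T : (ℝ × ℝ) ≃ₗ[ℝ] EuclideanSpace ℝ (Fin 2), ∀ X, N X = ‖T X‖ := by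
  have hN0 : N (0 : ℝ × ℝ) = 0 := by
    have := hsmul 0 le_rfl 0
    simpa using this
  have hNnn : ∀ X, 0 ≤ N X := by
    intro X
    by_cases h : X = 0
    · rw [h, hN0]
    · exact (hpos X h).le
  obtain ⟨c, hc0, hc⟩ := limit_conic hpos hsymm hadd hsmul hcont hE
  -- unit vectors
  have hunit : ∀ X, X ≠ 0 → N ((N X)⁻¹ • X) = 1 := by
    intro X hX
    rw [hsmul _ (inv_nonneg.mpr (hNnn X))]
    exact inv_mul_cancel₀ (hpos X hX).ne'
  have hlin1 : ∀ X, N X = 1 → c 3 * X.1 + c 4 * X.2 = 0 ∧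
      c 0 + c 1 * X.1 ^ 2 + c 2 * X.2 ^ 2 + c 5 * (X.1 * X.2) = 0 := by
    intro X hX
    have h1 := hc X hX
    have h2 := hc (-X) (by rw [hsymm]; exact hX)
    rw [Qf_expl] at h1 h2
    simp only [Prod.fst_neg, Prod.snd_neg] at h2
    constructor
    · linear_combination (h1 - h2) / 2
    · linear_combination (h1 + h2) / 2
  have hQ : ∀ x y : ℝ, c 1 * x ^ 2 + c 2 * y ^ 2 + c 5 * (x * y) = - c 0 * N (x, y) ^ 2 ∧
      c 3 * x + c 4 * y = 0 := by
    intro x y
    by_cases hX : ((x, y) : ℝ × ℝ) = 0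
    · have hx : x = 0 := congrArg Prod.fst hX
      have hy : y = 0 := congrArg Prod.snd hX
      rw [hX, hN0, hx, hy]
      constructor <;> ring
    · have hp := hpos _ hX
      obtain ⟨h1, h2⟩ := hlin1 _ (hunit _ hX)
      simp only [Prod.smul_mk, smul_eq_mul] at h1 h2
      have hne := hp.ne'
      constructor
      · field_simp at h2
        linear_combination h2
      · field_simp at h1
        linear_combination h1
  have hc3 : c 3 = 0 := by
    have := (hQ 1 0).2
    simpa using this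
  have hc4 : c 4 = 0 := by
    have := (hQ 0 1).2
    simpa using this
  have hc00 : c 0 ≠ 0 := by
    intro h0
    apply hc0
    have h1 : c 1 = 0 := by
      have := (hQ 1 0).1
      rw [h0] at this
      simpa using this
    have h2 : c 2 = 0 := by
      have := (hQ 0 1).1
      rw [h0] at this
      simpa using this
    have h5 : c 5 = 0 := by
      have := (hQ 1 1).1
      rw [h0, h1, h2] at this
      simpa using this
    funext i
    fin_cases i <;> simp_all
  -- N² is a quadratic form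
  obtain ⟨a, ha⟩ : ∃ a, a = - c 1 / c 0 := ⟨_, rfl⟩
  obtain ⟨d, hd⟩ : ∃ d, d = - c 2 / c 0 := ⟨_, rfl⟩
  obtain ⟨b, hb⟩ : ∃ b, b = - c 5 / c 0 := ⟨_, rfl⟩
  have hN2 : ∀ x y : ℝ, N (x, y) ^ 2 = a * x ^ 2 + b * (x * y) + d * y ^ 2 := by
    intro x y
    have := (hQ x y).1
    rw [ha, hb, hd]
    field_simp
    linear_combination this
  have hapos : 0 < a := by
    have h := hN2 1 0
    have hp := hpos (1, 0) (by intro h; simpa using congrArg Prod.fst h)
    have : 0 < N (1, 0) ^ 2 := by positivity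
    rw [h] at this
    linarith
  have hdisc : 0 < d - b ^ 2 / (4 * a) := by
    have h := hN2 (-b) (2 * a)
    have hp := hpos (-b, 2 * a) (by
      intro h
      have : 2 * a = 0 := congrArg Prod.snd h
      linarith)
    have h3 : 0 < N (-b, 2 * a) ^ 2 := by positivity
    rw [h] at h3
    have h4 : a * (-b) ^ 2 + b * (-b * (2 * a)) + d * (2 * a) ^ 2
        = (4 * a ^ 2) * (d - b ^ 2 / (4 * a)) := by
      field_simp
      ring
    rw [h4] at h3
    exact (pos_iff_pos_of_mul_pos h3).mp (by positivity)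
  set p := Real.sqrt a with hp
  set q := Real.sqrt (d - b ^ 2 / (4 * a)) with hq
  have hppos : 0 < p := Real.sqrt_pos.mpr hapos
  have hqpos : 0 < q := Real.sqrt_pos.mpr hdisc
  have hp2 : p ^ 2 = a := Real.sq_sqrt hapos.le
  have hq2 : q ^ 2 = d - b ^ 2 / (4 * a) := Real.sq_sqrt hdisc.le
  let T₀ : (ℝ × ℝ) →ₗ[ℝ] EuclideanSpace ℝ (Fin 2) :=
    { toFun := fun X => !₂[p * X.1 + b / (2 * p) * X.2, q * X.2]
      map_add' := by
        intro X Y
        ext i
        fin_cases i
        · simp; ring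
        · simp; ring
      map_smul' := by
        intro r X
        ext i
        fin_cases i
        · simp; ring
        · simp; ring }
  have hT₀ : ∀ X, T₀ X = !₂[p * X.1 + b / (2 * p) * X.2, q * X.2] := fun X => rfl
  have hinj : Function.Injective T₀ := by
    rw [← LinearMap.ker_eq_bot, LinearMap.ker_eq_bot']
    intro X hX
    rw [hT₀] at hX
    have h0 : p * X.1 + b / (2 * p) * X.2 = 0 := by
      have := congrFun (congrArg (fun v : EuclideanSpace ℝ (Fin 2) => (v : Fin 2 → ℝ)) hX) 0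
      simpa using this
    have h1 : q * X.2 = 0 := by
      have := congrFun (congrArg (fun v : EuclideanSpace ℝ (Fin 2) => (v : Fin 2 → ℝ)) hX) 1
      simpa using this
    have h2 : X.2 = 0 := by
      rcases mul_eq_zero.mp h1 with h | h
      · exact absurd h hqpos.ne'
      · exact h
    have h3 : X.1 = 0 := by
      rw [h2] at h0
      simp only [mul_zero, add_zero] at h0
      rcases mul_eq_zero.mp h0 with h | h
      · exact absurd h hppos.ne'
      · exact h
    exact Prod.ext h3 h2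
  have hfr : Module.finrank ℝ (ℝ × ℝ) = Module.finrank ℝ (EuclideanSpace ℝ (Fin 2)) := by
    simp
  let T := LinearMap.linearEquivOfInjective T₀ hinj hfr
  refine ⟨T, ?_⟩
  intro X
  have hTX : T X = !₂[p * X.1 + b / (2 * p) * X.2, q * X.2] := by
    show (LinearMap.linearEquivOfInjective T₀ hinj hfr) X = _
    rw [LinearMap.linearEquivOfInjective_apply, hT₀]
  rw [hTX, EuclideanSpace.norm_eq, Fin.sum_univ_two]
  simp only [Real.norm_eq_abs, sq_abs]
  have hval : ∀ u v : ℝ, (![u, v] : Fin 2 → ℝ) 0 = u := fun u v => rfl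
  have hval1 : ∀ u v : ℝ, (![u, v] : Fin 2 → ℝ) 1 = v := fun u v => rfl
  simp only [hval, hval1]
  have hsum : (p * X.1 + b / (2 * p) * X.2) ^ 2 + (q * X.2) ^ 2 = N X ^ 2 := by
    have h := hN2 X.1 X.2
    rw [show ((X.1, X.2) : ℝ × ℝ) = X from rfl] at h
    rw [h, mul_pow q, hq2]
    have : (p * X.1 + b / (2 * p) * X.2) ^ 2 = p ^ 2 * X.1 ^ 2 + b * (X.1 * X.2)
        + b ^ 2 / (4 * p ^ 2) * X.2 ^ 2 := by
      field_simp
      ring
    rw [this, hp2]
    ring
  rw [hsum, Real.sqrt_sq (hNnn X)]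


end JG4

end Pool.Agent.Helper87.Conics
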