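import Pool.Agent.Helper87.ConicsMDefs

set_option autoImplicit false

open Filter Topology Set

namespace Pool.Agent.Helper87.Conics

namespace JJ1
/-- auxiliary: the quadratic polynomial. -/
theorem aux_quad (E K G f1 f2 g1 g2 s : ℝ) : ∃ c : Fin 6 → ℝ, ∀ x y : ℝ,
    Qf c ![1, x, y] = 4 * s ^ 2 * (E * (x - f1) ^ 2 + 2 * K * (x - f1) * (y - f2) + G * (y - f2) ^ 2)
      - (s ^ 2 + (E * (x - f1) ^ 2 + 2 * K * (x - f1) * (y - f2) + G * (y - f2) ^ 2)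
        - (E * (x - g1) ^ 2 + 2 * K * (x - g1) * (y - g2) + G * (y - g2) ^ 2)) ^ 2 := by
  let p0 := E * f1 ^ 2 + 2 * K * f1 * f2 + G * f2 ^ 2
  let p1 := -2 * E * f1 - 2 * K * f2
  let p2 := -2 * G * f2 - 2 * K * f1
  let q0 := E * g1 ^ 2 + 2 * K * g1 * g2 + G * g2 ^ 2
  let q1 := -2 * E * g1 - 2 * K * g2
  let q2 := -2 * G * g2 - 2 * K * g1
  let l0 := s ^ 2 + p0 - q0
  let l1 := p1 - q1
  let l2 := p2 - q2
  refine ⟨![4 * s ^ 2 * p0 - l0 ^ 2, 4 * s ^ 2 * E - l1 ^ 2, 4 * s ^ 2 * G - l2 ^ 2,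
    4 * s ^ 2 * p1 - 2 * l0 * l1, 4 * s ^ 2 * p2 - 2 * l0 * l2,
    8 * s ^ 2 * K - 2 * l1 * l2], fun x y => ?_⟩
  have h0 : (![1, x, y] : Fin 3 → ℝ) 0 = 1 := rfl
  have h1 : (![1, x, y] : Fin 3 → ℝ) 1 = x := rfl
  have h2 : (![1, x, y] : Fin 3 → ℝ) 2 = y := rfl
  unfold Qf
  rw [h0, h1, h2]
  simp only [Matrix.cons_val]
  simp only [l0, l1, l2, p0, p1, p2, q0, q1, q2]
  ring

/-- auxiliary: the equation of the ellipse. -/
theorem aux_iff {a b D s : ℝ} (ha : 0 ≤ a) (hb : 0 ≤ b) (hD : 0 ≤ D) (hDs : D < s)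
    (h1 : b ≤ a + D) (h2 : a ≤ b + D) :
    a + b = s ↔ 4 * s ^ 2 * a ^ 2 - (s ^ 2 + a ^ 2 - b ^ 2) ^ 2 = 0 := by
  constructor
  · intro h
    have : b = s - a := by linarith
    subst this
    ring
  · intro h
    have hs : 0 < s := lt_of_le_of_lt hD hDs
    have h' : (2 * s * a - (s ^ 2 + a ^ 2 - b ^ 2)) * (2 * s * a + (s ^ 2 + a ^ 2 - b ^ 2)) = 0 := by
      linarith [h, show (2 * s * a - (s ^ 2 + a ^ 2 - b ^ 2)) * (2 * s * a + (s ^ 2 + a ^ 2 - b ^ 2)) =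
        4 * s ^ 2 * a ^ 2 - (s ^ 2 + a ^ 2 - b ^ 2) ^ 2 by ring]
    have h3 : (b - (s - a)) * (b + (s - a)) * ((s + a - b) * (s + a + b)) = 0 := by
      linarith [h', show (b - (s - a)) * (b + (s - a)) * ((s + a - b) * (s + a + b)) =
        (2 * s * a - (s ^ 2 + a ^ 2 - b ^ 2)) * (2 * s * a + (s ^ 2 + a ^ 2 - b ^ 2)) by ring]
    rcases mul_eq_zero.1 h3 with h4 | h4
    · rcases mul_eq_zero.1 h4 with h5 | h5 <;> linarith
    · rcases mul_eq_zero.1 h4 with h5 | h5 <;> linarith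

/-- Ellipses of the Euclidean plane are conics. -/
theorem euclid_ellipse {d : ℝ × ℝ → ℝ × ℝ → ℝ} (h : EuclideanModel d) (F G : ℝ × ℝ) (s : ℝ)
    (hs : d F G < s) :
    ∃ c : Fin 6 → ℝ, c ≠ 0 ∧ {X | d F X + d X G = s} = {X : ℝ × ℝ | Qf c ![1, X.1, X.2] = 0} := by
  obtain ⟨T, hT⟩ := h
  let u := T (1, 0)
  let w := T (0, 1)
  have hTX : ∀ X : ℝ × ℝ, T X = X.1 • u + X.2 • w := by
    intro X
    have : X = X.1 • ((1 : ℝ), (0 : ℝ)) + X.2 • ((0 : ℝ), (1 : ℝ)) := by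
      ext <;> simp
    conv_lhs => rw [this]
    rw [map_add, map_smul, map_smul]
  let E := u 0 ^ 2 + u 1 ^ 2
  let K := u 0 * w 0 + u 1 * w 1
  let G' := w 0 ^ 2 + w 1 ^ 2
  have hsq : ∀ X Y : ℝ × ℝ, d Y X ^ 2 = E * (X.1 - Y.1) ^ 2 +
      2 * K * (X.1 - Y.1) * (X.2 - Y.2) + G' * (X.2 - Y.2) ^ 2 := by
    intro X Y
    rw [hT, EuclideanSpace.dist_eq, Real.sq_sqrt (by positivity), Fin.sum_univ_two, Real.dist_eq,
      Real.dist_eq, sq_abs, sq_abs, hTX, hTX]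
    simp only [PiLp.add_apply, PiLp.smul_apply, smul_eq_mul, E, K, G']
    ring
  obtain ⟨c, hc⟩ := aux_quad E K G' F.1 F.2 G.1 G.2 s
  have hnn : ∀ X Y, 0 ≤ d X Y := fun X Y => by rw [hT]; exact dist_nonneg
  have hsy : ∀ X Y, d X Y = d Y X := fun X Y => by rw [hT, hT]; exact dist_comm _ _
  have htr : ∀ X Y Z, d X Z ≤ d X Y + d Y Z := fun X Y Z => by
    rw [hT, hT, hT]; exact dist_triangle _ _ _
  have hc' : ∀ X : ℝ × ℝ, Qf c ![1, X.1, X.2] =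
      4 * s ^ 2 * d F X ^ 2 - (s ^ 2 + d F X ^ 2 - d X G ^ 2) ^ 2 := by
    intro X
    rw [hc, hsy X G, hsq, hsq]
  refine ⟨c, ?_, ?_⟩
  · intro h0
    have h1 := hc' F
    rw [h0] at h1
    have h2 : d F F = 0 := by rw [hT]; exact dist_self _
    have h3 : Qf 0 ![1, F.1, F.2] = 0 := by simp [Qf]
    rw [h3, h2] at h1
    have h4 : (s ^ 2 - d F G ^ 2) ^ 2 = 0 := by
      linarith [show (4 * s ^ 2 * (0 : ℝ) ^ 2 - (s ^ 2 + (0 : ℝ) ^ 2 - d F G ^ 2) ^ 2) =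
        - (s ^ 2 - d F G ^ 2) ^ 2 by ring]
    have h5 : s ^ 2 - d F G ^ 2 = 0 := by
      exact pow_eq_zero_iff (two_ne_zero) |>.1 h4
    nlinarith [hnn F G]
  · ext X
    simp only [mem_setOf_eq]
    rw [hc' X]
    refine aux_iff (hnn _ _) (hnn _ _) (hnn F G) hs ?_ ?_
    · have := htr X F G
      rw [hsy X F] at this
      exact this
    · have := htr F G X
      rw [hsy G X] at this
      linarith


end JJ1

end Pool.Agent.Helper87.Conics
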