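import Pool.Agent.Helper87.ConicsMDefs

set_option autoImplicit false

open Filter Topology Set

namespace Pool.Agent.Helper87.Conics

namespace JJ2
/-- auxiliary: functions given by quadratic forms. -/
def IsQuad (f : ℝ → ℝ → ℝ) : Prop := ∃ c : Fin 6 → ℝ, ∀ x y : ℝ, Qf c ![1, x, y] = f x y

theorem Qf_eq (c : Fin 6 → ℝ) (x y : ℝ) : Qf c ![1, x, y] =
    c 0 + c 1 * x ^ 2 + c 2 * y ^ 2 + c 3 * x + c 4 * y + c 5 * (x * y) := by
  have h0 : (![1, x, y] : Fin 3 → ℝ) 0 = 1 := rfl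
  have h1 : (![1, x, y] : Fin 3 → ℝ) 1 = x := rfl
  have h2 : (![1, x, y] : Fin 3 → ℝ) 2 = y := rfl
  unfold Qf
  rw [h0, h1, h2]
  ring

theorem IsQuad.mul (a0 a1 a2 b0 b1 b2 : ℝ) :
    IsQuad (fun x y => (a0 + a1 * x + a2 * y) * (b0 + b1 * x + b2 * y)) := by
  refine ⟨![a0 * b0, a1 * b1, a2 * b2, a0 * b1 + a1 * b0, a0 * b2 + a2 * b0,
    a1 * b2 + a2 * b1], fun x y => ?_⟩
  rw [Qf_eq]
  simp only [Matrix.cons_val]
  ring

theorem IsQuad.add {f g : ℝ → ℝ → ℝ} (hf : IsQuad f) (hg : IsQuad g) :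
    IsQuad (fun x y => f x y + g x y) := by
  obtain ⟨c, hc⟩ := hf
  obtain ⟨c', hc'⟩ := hg
  refine ⟨c + c', fun x y => ?_⟩
  show Qf (c + c') ![1, x, y] = f x y + g x y
  rw [← hc, ← hc', Qf_eq, Qf_eq, Qf_eq]
  simp only [Pi.add_apply]
  ring

theorem IsQuad.smul {f : ℝ → ℝ → ℝ} (t : ℝ) (hf : IsQuad f) :
    IsQuad (fun x y => t * f x y) := by
  obtain ⟨c, hc⟩ := hf
  refine ⟨t • c, fun x y => ?_⟩
  show Qf (t • c) ![1, x, y] = t * f x y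
  rw [← hc, Qf_eq, Qf_eq]
  simp only [Pi.smul_apply, smul_eq_mul]
  ring

theorem cosh_eq_abs {x y : ℝ} (h : Real.cosh x = Real.cosh y) : |x| = |y| := by
  rcases lt_trichotomy |x| |y| with h1 | h1 | h1
  · exact absurd h (Real.cosh_lt_cosh.2 h1).ne
  · exact h1
  · exact absurd h (Real.cosh_lt_cosh.2 h1).ne'

/-- auxiliary: the equation of the ellipse. -/
theorem aux_iff_h {a b D s : ℝ} (ha : 0 ≤ a) (hb : 0 ≤ b) (hD : 0 ≤ D) (hDs : D < s)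
    (h1 : b ≤ a + D) (h2 : a ≤ b + D) :
    a + b = s ↔ (Real.cosh s * Real.cosh a - Real.cosh b) ^ 2 -
      Real.sinh s ^ 2 * (Real.cosh a ^ 2 - 1) = 0 := by
  have key : (Real.cosh s * Real.cosh a - Real.cosh b) ^ 2 -
      Real.sinh s ^ 2 * (Real.cosh a ^ 2 - 1) =
      (Real.cosh (s - a) - Real.cosh b) * (Real.cosh (s + a) - Real.cosh b) := by
    rw [Real.cosh_sub, Real.cosh_add]
    have := Real.cosh_sq a
    rw [show Real.cosh a ^ 2 - 1 = Real.sinh a ^ 2 by linarith]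
    ring
  rw [key]
  constructor
  · intro h
    rw [show s - a = b by linarith, sub_self, zero_mul]
  · intro h
    rcases mul_eq_zero.1 h with h3 | h3
    · have h4 : Real.cosh (s - a) = Real.cosh b := by linarith
      replace h4 := cosh_eq_abs h4
      rcases abs_eq_abs.1 h4 with h5 | h5 <;> linarith
    · have h4 : Real.cosh (s + a) = Real.cosh b := by linarith
      replace h4 := cosh_eq_abs h4
      rcases abs_eq_abs.1 h4 with h5 | h5 <;> linarith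

/-- auxiliary: the hyperbolic distance in homogeneous coordinates. -/
theorem aux_cosh {y0 y1 y2 z0 z1 z2 : ℝ} (hy : 0 < y0) (hz : 0 < z0)
    (hn : 0 < y0 ^ 2 - y1 ^ 2 - y2 ^ 2) (hm : 0 < z0 ^ 2 - z1 ^ 2 - z2 ^ 2) :
    (1 - (y1 / y0 * (z1 / z0) + y2 / y0 * (z2 / z0))) /
        (Real.sqrt (1 - ((y1 / y0) ^ 2 + (y2 / y0) ^ 2)) *
          Real.sqrt (1 - ((z1 / z0) ^ 2 + (z2 / z0) ^ 2))) =
      (y0 * z0 - y1 * z1 - y2 * z2) / (Real.sqrt (y0 ^ 2 - y1 ^ 2 - y2 ^ 2) *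
        Real.sqrt (z0 ^ 2 - z1 ^ 2 - z2 ^ 2)) := by
  have e1 : Real.sqrt (1 - ((y1 / y0) ^ 2 + (y2 / y0) ^ 2)) =
      Real.sqrt (y0 ^ 2 - y1 ^ 2 - y2 ^ 2) / y0 := by
    rw [show 1 - ((y1 / y0) ^ 2 + (y2 / y0) ^ 2) = (y0 ^ 2 - y1 ^ 2 - y2 ^ 2) / y0 ^ 2 by
      field_simp; ring, Real.sqrt_div hn.le, Real.sqrt_sq hy.le]
  have e2 : Real.sqrt (1 - ((z1 / z0) ^ 2 + (z2 / z0) ^ 2)) =
      Real.sqrt (z0 ^ 2 - z1 ^ 2 - z2 ^ 2) / z0 := by
    rw [show 1 - ((z1 / z0) ^ 2 + (z2 / z0) ^ 2) = (z0 ^ 2 - z1 ^ 2 - z2 ^ 2) / z0 ^ 2 by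
      field_simp; ring, Real.sqrt_div hm.le, Real.sqrt_sq hz.le]
  rw [e1, e2]
  have p1 := Real.sqrt_pos.2 hn
  have p2 := Real.sqrt_pos.2 hm
  field_simp
  ring

/-- Ellipses of the hyperbolic plane are conics. -/
theorem klein_ellipse {M : Set (ℝ × ℝ)} {d : ℝ × ℝ → ℝ × ℝ → ℝ} (h : HyperbolicModel M d)
    (h0 : ∀ X ∈ M, ∀ Y ∈ M, 0 ≤ d X Y) (hsymm : ∀ X ∈ M, ∀ Y ∈ M, d X Y = d Y X)
    (htri : ∀ X ∈ M, ∀ Y ∈ M, ∀ Z ∈ M, d X Z ≤ d X Y + d Y Z)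
    {F G : ℝ × ℝ} (hF : F ∈ M) (hG : G ∈ M) {s : ℝ} (hs : d F G < s) :
    ∃ c : Fin 6 → ℝ, c ≠ 0 ∧ {X | X ∈ M ∧ d F X + d X G = s} =
      {X | X ∈ M ∧ Qf c ![1, X.1, X.2] = 0} := by
  obtain ⟨κ, hκ, b, hb, hpos, hbij, hd⟩ := h
  -- the norm form
  have hn : ∀ X ∈ M, 0 < hom b X 0 ^ 2 - hom b X 1 ^ 2 - hom b X 2 ^ 2 := by
    intro X hX
    have h1 : proj b X ∈ disc := hbij.mapsTo hX
    have h2 : (hom b X 1 / hom b X 0) ^ 2 + (hom b X 2 / hom b X 0) ^ 2 < 1 := h1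
    have h3 := hpos X hX
    rw [div_pow, div_pow, ← add_div, div_lt_one (by positivity)] at h2
    linarith
  have hd' : ∀ X ∈ M, ∀ Y ∈ M, Real.cosh (d X Y / κ) =
      (hom b X 0 * hom b Y 0 - hom b X 1 * hom b Y 1 - hom b X 2 * hom b Y 2) /
      (Real.sqrt (hom b X 0 ^ 2 - hom b X 1 ^ 2 - hom b X 2 ^ 2) *
        Real.sqrt (hom b Y 0 ^ 2 - hom b Y 1 ^ 2 - hom b Y 2 ^ 2)) := by
    intro X hX Y hY
    rw [hd X hX Y hY]
    exact aux_cosh (hpos X hX) (hpos Y hY) (hn X hX) (hn Y hY)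
  let f := Real.sqrt (hom b F 0 ^ 2 - hom b F 1 ^ 2 - hom b F 2 ^ 2)
  let g := Real.sqrt (hom b G 0 ^ 2 - hom b G 1 ^ 2 - hom b G 2 ^ 2)
  have hf : 0 < f := Real.sqrt_pos.2 (hn F hF)
  have hg : 0 < g := Real.sqrt_pos.2 (hn G hG)
  let A : ℝ → ℝ → ℝ := fun x y => f⁻¹ * (hom b F 0 * hom b (x, y) 0 - hom b F 1 * hom b (x, y) 1 -
    hom b F 2 * hom b (x, y) 2)
  let B : ℝ → ℝ → ℝ := fun x y => g⁻¹ * (hom b G 0 * hom b (x, y) 0 - hom b G 1 * hom b (x, y) 1 -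
    hom b G 2 * hom b (x, y) 2)
  let N : ℝ → ℝ → ℝ := fun x y => hom b (x, y) 0 ^ 2 - hom b (x, y) 1 ^ 2 - hom b (x, y) 2 ^ 2
  have hquad : IsQuad (fun x y => (Real.cosh (s / κ) * A x y - B x y) ^ 2 -
      Real.sinh (s / κ) ^ 2 * (A x y ^ 2 - N x y)) := by
    let α : Fin 3 → ℝ := fun j => f⁻¹ * (hom b F 0 * b 0 j - hom b F 1 * b 1 j - hom b F 2 * b 2 j)
    let β : Fin 3 → ℝ := fun j => g⁻¹ * (hom b G 0 * b 0 j - hom b G 1 * b 1 j - hom b G 2 * b 2 j)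
    let γ : Fin 3 → ℝ := fun j => Real.cosh (s / κ) * α j - β j
    have q1 := IsQuad.mul (γ 0) (γ 1) (γ 2) (γ 0) (γ 1) (γ 2)
    have q2 := (IsQuad.mul (α 0) (α 1) (α 2) (α 0) (α 1) (α 2)).smul (-(Real.sinh (s / κ) ^ 2))
    have q3 := (IsQuad.mul (b 0 0) (b 0 1) (b 0 2) (b 0 0) (b 0 1) (b 0 2)).smul
      (Real.sinh (s / κ) ^ 2)
    have q4 := (IsQuad.mul (b 1 0) (b 1 1) (b 1 2) (b 1 0) (b 1 1) (b 1 2)).smul
      (-(Real.sinh (s / κ) ^ 2))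
    have q5 := (IsQuad.mul (b 2 0) (b 2 1) (b 2 2) (b 2 0) (b 2 1) (b 2 2)).smul
      (-(Real.sinh (s / κ) ^ 2))
    obtain ⟨c, hc⟩ := (((q1.add q2).add q3).add q4).add q5
    refine ⟨c, fun x y => ?_⟩
    rw [hc]
    simp only [A, B, N, γ, α, β, hom]
    ring
  obtain ⟨c, hc⟩ := hquad
  have key : ∀ X ∈ M, Qf c ![1, X.1, X.2] = N X.1 X.2 *
      ((Real.cosh (s / κ) * Real.cosh (d F X / κ) - Real.cosh (d X G / κ)) ^ 2 -
      Real.sinh (s / κ) ^ 2 * (Real.cosh (d F X / κ) ^ 2 - 1)) := by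
    intro X hX
    have hNX : 0 < N X.1 X.2 := hn X hX
    have hs1 := Real.sqrt_pos.2 hNX
    have e1 : Real.cosh (d F X / κ) = A X.1 X.2 / Real.sqrt (N X.1 X.2) := by
      rw [hd' F hF X hX]
      simp only [A, N]
      change _ / (f * _) = _
      field_simp
    have e2 : Real.cosh (d X G / κ) = B X.1 X.2 / Real.sqrt (N X.1 X.2) := by
      rw [hsymm X hX G hG, hd' G hG X hX]
      simp only [B, N]
      change _ / (g * _) = _
      field_simp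
    rw [hc, e1, e2]
    have e3 : Real.sqrt (N X.1 X.2) ^ 2 = N X.1 X.2 := Real.sq_sqrt hNX.le
    generalize Real.sqrt (N X.1 X.2) = r at *
    show (Real.cosh (s / κ) * A X.1 X.2 - B X.1 X.2) ^ 2 -
      Real.sinh (s / κ) ^ 2 * (A X.1 X.2 ^ 2 - N X.1 X.2) = _
    rw [← e3]
    field_simp
  have hD : 0 ≤ d F G := h0 F hF G hG
  refine ⟨c, ?_, ?_⟩
  · intro hc0
    have h1 := key F hF
    have h3 : Qf c ![1, F.1, F.2] = 0 := by rw [hc0]; simp [Qf]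
    have hNF : 0 < N F.1 F.2 := hn F hF
    have h4 : Real.cosh (d F F / κ) = 1 := by
      rw [hd' F hF F hF, Real.mul_self_sqrt (hn F hF).le, div_eq_one_iff_eq (hn F hF).ne']
      ring
    rw [h3, h4] at h1
    have h5 : Real.cosh (d F G / κ) < Real.cosh (s / κ) := by
      rw [Real.cosh_lt_cosh, abs_of_nonneg (by positivity), abs_of_nonneg (by
        have : 0 < s := lt_of_le_of_lt hD hs
        positivity)]
      gcongr
    have h6 : 0 < N F.1 F.2 * ((Real.cosh (s / κ) * 1 - Real.cosh (d F G / κ)) ^ 2 -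
      Real.sinh (s / κ) ^ 2 * ((1 : ℝ) ^ 2 - 1)) := by
      have : 0 < Real.cosh (s / κ) - Real.cosh (d F G / κ) := by linarith
      have h7 : (Real.cosh (s / κ) * 1 - Real.cosh (d F G / κ)) ^ 2 -
        Real.sinh (s / κ) ^ 2 * ((1 : ℝ) ^ 2 - 1) =
        (Real.cosh (s / κ) - Real.cosh (d F G / κ)) ^ 2 := by ring
      rw [h7]
      positivity
    linarith
  · ext X
    simp only [mem_setOf_eq]
    refine and_congr_right fun hX => ?_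
    rw [key X hX, mul_eq_zero, or_iff_right (show N X.1 X.2 ≠ 0 from (hn X hX).ne')]
    rw [← aux_iff_h (a := d F X / κ) (b := d X G / κ) (D := d F G / κ) (s := s / κ)
      (div_nonneg (h0 _ hF _ hX) hκ.le) (div_nonneg (h0 _ hX _ hG) hκ.le)
      (div_nonneg hD hκ.le) (by gcongr) ?_ ?_]
    · rw [← add_div, div_left_inj' hκ.ne']
    · rw [← add_div]
      have := htri X hX F hF G hG
      rw [hsymm X hX F hF] at this
      gcongr
    · rw [← add_div]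
      have := htri F hF G hG X hX
      rw [hsymm G hG X hX] at this
      gcongr
      linarith


end JJ2

end Pool.Agent.Helper87.Conics
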