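import Pool.Agent.Helper87.ConicsEDefs

set_option autoImplicit false

open Real Filter Topology

namespace Pool.Agent.Helper87.Elliptic

namespace JJ3
theorem ell_real {a b D s : ℝ} (ha0 : 0 ≤ a) (ha : a ≤ π / 2) (hb0 : 0 ≤ b) (hb : b ≤ π)
    (hD0 : 0 ≤ D) (hDs : D < s) (hsD : s + D < π) (h1 : a ≤ D + b) (h2 : b ≤ D + a) :
    min a (π - a) + min b (π - b) = s ↔
      (cos (s - a) - cos b) * (cos (s + a) - cos b) = 0 := by
  have hma : min a (π - a) = a := min_eq_left (by linarith)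
  rw [hma]
  constructor
  · intro h
    rcases le_or_gt b (π / 2) with hb2 | hb2
    · rw [min_eq_left (by linarith)] at h
      have : s - a = b := by linarith
      rw [this]; simp
    · rw [min_eq_right (by linarith)] at h
      exfalso; linarith
  · intro h
    rcases mul_eq_zero.1 h with h | h
    · have h3 : cos |s - a| = cos b := by rw [cos_abs]; linarith
      have h4 : |s - a| = b := by
        apply injOn_cos _ ⟨hb0, hb⟩ h3
        refine ⟨abs_nonneg _, ?_⟩
        rw [abs_le]; constructor <;> linarith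
      rcases abs_cases (s - a) with ⟨h5, h6⟩ | ⟨h5, h6⟩
      · rcases le_or_gt b (π / 2) with hb2 | hb2
        · rw [min_eq_left (by linarith)]; linarith
        · exfalso; linarith
      · exfalso; linarith
    · have h3 : cos (s + a) = cos b := by linarith
      rcases le_or_gt (s + a) π with h4 | h4
      · have h5 : s + a = b := injOn_cos ⟨by linarith, h4⟩ ⟨hb0, hb⟩ h3
        exfalso; linarith
      · have h6 : cos (2 * π - (s + a)) = cos b := by
          rw [← h3, cos_two_pi_sub]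
        have h5 : 2 * π - (s + a) = b :=
          injOn_cos ⟨by linarith [pi_pos], by linarith⟩ ⟨hb0, hb⟩ h6
        exfalso; linarith

open InnerProductGeometry in
theorem ell_core {F G : E3} (hF : ‖F‖ = 1) (hG : ‖G‖ = 1) {D s : ℝ} (hD : angle F G = D)
    (hDs : D < s) (hsD : s + D < π) {z : E3} (hz : z ≠ 0) :
    min (angle F z) (π - angle F z) + min (angle G z) (π - angle G z) = s ↔
      inner ℝ F z ^ 2 + inner ℝ G z ^ 2 - 2 * cos s * (inner ℝ F z * inner ℝ G z) -
        sin s ^ 2 * inner ℝ z z = 0 := by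
  have hD0 : 0 ≤ D := by rw [← hD]; exact angle_nonneg _ _
  have key : ∀ z : E3, z ≠ 0 → angle F z ≤ π / 2 →
      (min (angle F z) (π - angle F z) + min (angle G z) (π - angle G z) = s ↔
      inner ℝ F z ^ 2 + inner ℝ G z ^ 2 - 2 * cos s * (inner ℝ F z * inner ℝ G z) -
        sin s ^ 2 * inner ℝ z z = 0) := by
    intro z hz hle
    have hn : 0 < ‖z‖ := norm_pos_iff.2 hz
    have e1 : inner ℝ F z = ‖z‖ * cos (angle F z) := by
      have := cos_angle_mul_norm_mul_norm F z
      rw [hF, one_mul] at this; linarith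
    have e2 : inner ℝ G z = ‖z‖ * cos (angle G z) := by
      have := cos_angle_mul_norm_mul_norm G z
      rw [hG, one_mul] at this; linarith
    have e3 : inner ℝ z z = ‖z‖ ^ 2 := real_inner_self_eq_norm_sq z
    have t1 : angle F z ≤ D + angle G z := by
      have := angle_le_angle_add_angle F G z
      rw [hD] at this; exact this
    have t2 : angle G z ≤ D + angle F z := by
      have := angle_le_angle_add_angle G F z
      rw [angle_comm G F, hD] at this; exact this
    rw [ell_real (angle_nonneg _ _) hle (angle_nonneg _ _) (angle_le_pi _ _) hD0 hDs hsD t1 t2]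
    have hsq : sin (angle F z) ^ 2 = 1 - cos (angle F z) ^ 2 := sin_sq _
    have e4 : inner ℝ F z ^ 2 + inner ℝ G z ^ 2 - 2 * cos s * (inner ℝ F z * inner ℝ G z) -
        sin s ^ 2 * inner ℝ z z = ‖z‖ ^ 2 * ((cos (s - angle F z) - cos (angle G z)) *
          (cos (s + angle F z) - cos (angle G z))) := by
      rw [e1, e2, e3, cos_sub, cos_add]
      have h5 : cos s ^ 2 = 1 - sin s ^ 2 := by rw [← sin_sq_add_cos_sq s]; ring
      have : (cos s * cos (angle F z) + sin s * sin (angle F z) - cos (angle G z)) *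
          (cos s * cos (angle F z) - sin s * sin (angle F z) - cos (angle G z)) =
          cos s ^ 2 * cos (angle F z) ^ 2 - sin s ^ 2 * sin (angle F z) ^ 2 -
            2 * cos (angle G z) * (cos s * cos (angle F z)) + cos (angle G z) ^ 2 := by ring
      rw [this, hsq, h5]
      ring
    rw [e4]
    constructor
    · intro h; rw [h, mul_zero]
    · intro h
      rcases mul_eq_zero.1 h with h | h
      · exact absurd h (by positivity)
      · exact h
  rcases le_or_gt (angle F z) (π / 2) with h | h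
  · exact key z hz h
  · have h3 := key (-z) (neg_ne_zero.2 hz) (by rw [angle_neg_right]; linarith)
    rw [angle_neg_right, angle_neg_right] at h3
    simp only [inner_neg_right, inner_neg_left, neg_neg, sub_sub_cancel, neg_sq, neg_mul_neg] at h3
    rw [min_comm (angle F z), min_comm (angle G z)]
    exact h3

open InnerProductGeometry in
/-- Ellipses of the elliptic plane are conics. -/
theorem elliptic_ellipse {κ : ℝ} (hκ : 0 < κ) (T : E3 ≃ₗ[ℝ] E3) {d : E3 → E3 → ℝ}
    (hd : ∀ v w, v ≠ 0 → w ≠ 0 → d v w = κ * min (InnerProductGeometry.angle (T v) (T w))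
      (π - InnerProductGeometry.angle (T v) (T w))) (f g : E3) (hf : f ≠ 0) (hg : g ≠ 0) (s : ℝ)
    (h1 : d f g < s) (h2 : s + d f g < κ * π) :
    ∃ c : Fin 6 → ℝ, c ≠ 0 ∧ {v | v ≠ 0 ∧ d f v + d v g = s} = {v | v ≠ 0 ∧ Qe c v = 0} := by
  have hT0 : ∀ v : E3, v ≠ 0 → T v ≠ 0 := fun v hv => by
    simpa using hv
  set F : E3 := (‖T f‖⁻¹) • T f with hFdef
  have hFpos : 0 < ‖T f‖⁻¹ := inv_pos.2 (norm_pos_iff.2 (hT0 f hf))
  have hGpos : 0 < ‖T g‖⁻¹ := inv_pos.2 (norm_pos_iff.2 (hT0 g hg))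
  have hF1 : ‖F‖ = 1 := by
    rw [hFdef, norm_smul, norm_inv, norm_norm]
    exact inv_mul_cancel₀ (norm_pos_iff.2 (hT0 f hf)).ne'
  have hFang : ∀ w : E3, angle F w = angle (T f) w := fun w => angle_smul_left_of_pos _ _ hFpos
  set D : ℝ := min (angle (T f) (T g)) (π - angle (T f) (T g)) with hDdef
  have hdfg : d f g = κ * D := hd f g hf hg
  set s' : ℝ := s / κ with hs'
  have hss : s = κ * s' := by rw [hs']; field_simp
  have hDs : D < s' := by
    rw [hdfg, hss] at h1
    exact lt_of_mul_lt_mul_left h1 hκ.le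
  have hsD : s' + D < π := by
    rw [hdfg, hss, ← mul_add] at h2
    exact lt_of_mul_lt_mul_left h2 hκ.le
  have hD0 : 0 ≤ D := le_min (angle_nonneg _ _) (by linarith [angle_le_pi (T f) (T g)])
  -- choice of the second unit vector
  obtain ⟨G, hG1, hFG, hGang⟩ : ∃ G : E3, ‖G‖ = 1 ∧ angle F G = D ∧
      ∀ w : E3, min (angle G w) (π - angle G w) = min (angle (T g) w) (π - angle (T g) w) := by
    have hn : ‖(‖T g‖⁻¹) • T g‖ = 1 := by
      rw [norm_smul, norm_inv, norm_norm]
      exact inv_mul_cancel₀ (norm_pos_iff.2 (hT0 g hg)).ne'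
    rcases le_total (angle (T f) (T g)) (π - angle (T f) (T g)) with h | h
    · refine ⟨(‖T g‖⁻¹) • T g, hn, ?_, ?_⟩
      · rw [angle_smul_right_of_pos _ _ hGpos, hFang, hDdef, min_eq_left h]
      · intro w
        rw [angle_smul_left_of_pos _ _ hGpos]
    · refine ⟨-((‖T g‖⁻¹) • T g), by rw [norm_neg]; exact hn, ?_, ?_⟩
      · rw [angle_neg_right, angle_smul_right_of_pos _ _ hGpos, hFang, hDdef, min_eq_right h]
      · intro w
        rw [angle_neg_left, angle_smul_left_of_pos _ _ hGpos, sub_sub_cancel, min_comm]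
  have hmain : ∀ v : E3, v ≠ 0 → (d f v + d v g = s ↔
      inner ℝ F (T v) ^ 2 + inner ℝ G (T v) ^ 2 - 2 * cos s' * (inner ℝ F (T v) * inner ℝ G (T v)) -
        sin s' ^ 2 * inner ℝ (T v) (T v) = 0) := by
    intro v hv
    rw [← ell_core hF1 hG1 hFG hDs hsD (hT0 v hv), hFang, hGang, hd f v hf hv, hd v g hv hg,
      angle_comm (T v) (T g), hss, ← mul_add]
    constructor
    · intro h; exact mul_left_cancel₀ hκ.ne' h
    · intro h; rw [h]
  -- coordinates
  set e : Fin 3 → E3 := fun i => T (EuclideanSpace.single i 1) with he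
  have hexp : ∀ v : E3, T v = v 0 • e 0 + v 1 • e 1 + v 2 • e 2 := by
    intro v
    have h1 : v = v 0 • EuclideanSpace.single 0 (1:ℝ) + v 1 • EuclideanSpace.single 1 (1:ℝ) +
        v 2 • EuclideanSpace.single 2 (1:ℝ) := by
      ext i; fin_cases i <;> simp
    conv_lhs => rw [h1]
    simp only [map_add, map_smul, he]
  set p : Fin 3 → ℝ := fun i => inner ℝ F (e i) with hp
  set r : Fin 3 → ℝ := fun i => inner ℝ G (e i) with hr
  set m : Fin 3 → Fin 3 → ℝ := fun i j => inner ℝ (e i) (e j) with hm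
  have hmc : ∀ i j, m i j = m j i := fun i j => real_inner_comm _ _
  have hFv : ∀ v : E3, inner ℝ F (T v) = v 0 * p 0 + v 1 * p 1 + v 2 * p 2 := by
    intro v
    rw [hexp v]
    simp only [inner_add_right, inner_smul_right, hp]
  have hGv : ∀ v : E3, inner ℝ G (T v) = v 0 * r 0 + v 1 * r 1 + v 2 * r 2 := by
    intro v
    rw [hexp v]
    simp only [inner_add_right, inner_smul_right, hr]
  have hvv : ∀ v : E3, inner ℝ (T v) (T v) = v 0 ^ 2 * m 0 0 + v 1 ^ 2 * m 1 1 + v 2 ^ 2 * m 2 2 +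
      2 * (v 0 * v 1) * m 0 1 + 2 * (v 0 * v 2) * m 0 2 + 2 * (v 1 * v 2) * m 1 2 := by
    intro v
    rw [hexp v]
    simp only [inner_add_right, inner_add_left, inner_smul_right, inner_smul_left, conj_trivial]
    have a1 : inner ℝ (e 1) (e 0) = m 0 1 := hmc 1 0
    have a2 : inner ℝ (e 2) (e 0) = m 0 2 := hmc 2 0
    have a3 : inner ℝ (e 2) (e 1) = m 1 2 := hmc 2 1
    rw [a1, a2, a3]
    simp only [hm]
    ring
  set c : Fin 6 → ℝ := ![
    p 0 ^ 2 + r 0 ^ 2 - 2 * cos s' * (p 0 * r 0) - sin s' ^ 2 * m 0 0,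
    p 1 ^ 2 + r 1 ^ 2 - 2 * cos s' * (p 1 * r 1) - sin s' ^ 2 * m 1 1,
    p 2 ^ 2 + r 2 ^ 2 - 2 * cos s' * (p 2 * r 2) - sin s' ^ 2 * m 2 2,
    2 * p 0 * p 1 + 2 * r 0 * r 1 - 2 * cos s' * (p 0 * r 1 + p 1 * r 0) - sin s' ^ 2 * (2 * m 0 1),
    2 * p 0 * p 2 + 2 * r 0 * r 2 - 2 * cos s' * (p 0 * r 2 + p 2 * r 0) - sin s' ^ 2 * (2 * m 0 2),
    2 * p 1 * p 2 + 2 * r 1 * r 2 - 2 * cos s' * (p 1 * r 2 + p 2 * r 1) - sin s' ^ 2 * (2 * m 1 2)]
    with hc
  have hQ : ∀ v : E3, Qe c v = inner ℝ F (T v) ^ 2 + inner ℝ G (T v) ^ 2 -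
      2 * cos s' * (inner ℝ F (T v) * inner ℝ G (T v)) - sin s' ^ 2 * inner ℝ (T v) (T v) := by
    intro v
    rw [hFv, hGv, hvv]
    simp only [hc, Qe, Matrix.cons_val]
    ring
  refine ⟨c, ?_, ?_⟩
  · intro h0
    have h3 := hQ f
    have hq0 : Qe c f = 0 := by rw [h0]; simp [Qe]
    rw [hq0] at h3
    have hn : 0 < ‖T f‖ := norm_pos_iff.2 (hT0 f hf)
    have e1 : inner ℝ F (T f) = ‖T f‖ := by
      rw [hFdef, inner_smul_left, conj_trivial, real_inner_self_eq_norm_sq]
      field_simp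
    have e2 : inner ℝ G (T f) = ‖T f‖ * cos D := by
      have h4 := cos_angle_mul_norm_mul_norm G (T f)
      have h5 : angle G (T f) = D := by
        rw [angle_comm, ← hFang, hFG]
      rw [h5, hG1, one_mul] at h4
      linarith
    rw [e1, e2, real_inner_self_eq_norm_sq] at h3
    have h6 : ‖T f‖ ^ 2 * (cos s' - cos D) ^ 2 = 0 := by
      have h5 : sin s' ^ 2 = 1 - cos s' ^ 2 := sin_sq _
      rw [h5] at h3
      nlinarith [h3]
    have h7 : cos s' < cos D := cos_lt_cos_of_nonneg_of_le_pi hD0 (by linarith) hDs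
    have h8 : 0 < ‖T f‖ ^ 2 * (cos s' - cos D) ^ 2 := by
      have : (cos s' - cos D) ≠ 0 := by linarith
      positivity
    linarith
  · ext v
    simp only [Set.mem_ofPred_eq]
    constructor
    · rintro ⟨hv, h⟩
      exact ⟨hv, by rw [hQ]; exact (hmain v hv).1 h⟩
    · rintro ⟨hv, h⟩
      exact ⟨hv, (hmain v hv).2 (by rw [← hQ]; exact h)⟩


end JJ3

end Pool.Agent.Helper87.Elliptic
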