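import Pool.Agent.Helper87.ConicsDefs

set_option autoImplicit false

open Filter Topology Set

namespace Pool.Agent.Helper87.Conics

/-- A complete projective-metric plane of straight type. -/
structure ProjPlane (M : Set (ℝ × ℝ)) (d : ℝ × ℝ → ℝ × ℝ → ℝ) : Prop where
  isOpen : IsOpen M
  convex : Convex ℝ M
  nonempty : M.Nonempty
  eq_zero : ∀ X ∈ M, ∀ Y ∈ M, (d X Y = 0 ↔ X = Y)
  symm : ∀ X ∈ M, ∀ Y ∈ M, d X Y = d Y X
  triangle : ∀ X ∈ M, ∀ Y ∈ M, ∀ Z ∈ M, d X Z ≤ d X Y + d Y Z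
  topology : ∀ X ∈ M, ∀ u : ℕ → ℝ × ℝ, (∀ n, u n ∈ M) →
    (Tendsto u atTop (𝓝 X) ↔ Tendsto (fun n => d X (u n)) atTop (𝓝 0))
  segment : ∀ X ∈ M, ∀ Y ∈ M, ∀ Z ∈ M, (d X Y + d Y Z = d X Z ↔ Y ∈ segment ℝ X Z)
  complete : ∀ u : ℕ → ℝ × ℝ, (∀ n, u n ∈ M) →
    (∀ ε > 0, ∃ N, ∀ m ≥ N, ∀ n ≥ N, d (u m) (u n) < ε) →
    ∃ X ∈ M, Tendsto (fun n => d X (u n)) atTop (𝓝 0)

/-- The cone over a subset of the affine plane. -/
def cone (M : Set (ℝ × ℝ)) : Set V := {v | 0 < v 0 ∧ (v 1 / v 0, v 2 / v 0) ∈ M}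

/-- The metric in homogeneous coordinates. -/
noncomputable def coneDist (d : ℝ × ℝ → ℝ × ℝ → ℝ) : V → V → ℝ :=
  fun v w => d (v 1 / v 0, v 2 / v 0) (w 1 / w 0, w 2 / w 0)

/-- Homogeneous coordinates of the image of the point `X` under the projective map with
matrix `b`. -/
def hom (b : Matrix (Fin 3) (Fin 3) ℝ) (X : ℝ × ℝ) (i : Fin 3) : ℝ :=
  b i 0 + b i 1 * X.1 + b i 2 * X.2

/-- The projective map with matrix `b`, in affine coordinates. -/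
noncomputable def proj (b : Matrix (Fin 3) (Fin 3) ℝ) (X : ℝ × ℝ) : ℝ × ℝ :=
  (hom b X 1 / hom b X 0, hom b X 2 / hom b X 0)

/-- The open unit disc. -/
def disc : Set (ℝ × ℝ) := {p | p.1 ^ 2 + p.2 ^ 2 < 1}

/-- The plane is the Beltrami-Cayley-Klein model of the hyperbolic plane, up to scaling: an
invertible projective map, defined on `M`, maps `M` bijectively onto the open unit disc and
carries `d` to a multiple of the hyperbolic distance. -/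
def HyperbolicModel (M : Set (ℝ × ℝ)) (d : ℝ × ℝ → ℝ × ℝ → ℝ) : Prop :=
  ∃ κ : ℝ, 0 < κ ∧ ∃ b : Matrix (Fin 3) (Fin 3) ℝ, b.det ≠ 0 ∧ (∀ X ∈ M, 0 < hom b X 0) ∧
    BijOn (proj b) M disc ∧
    ∀ X ∈ M, ∀ Y ∈ M, Real.cosh (d X Y / κ) =
      (1 - ((proj b X).1 * (proj b Y).1 + (proj b X).2 * (proj b Y).2)) /
        (Real.sqrt (1 - ((proj b X).1 ^ 2 + (proj b X).2 ^ 2)) *
          Real.sqrt (1 - ((proj b Y).1 ^ 2 + (proj b Y).2 ^ 2)))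

/-- The plane is the Euclidean plane: a linear bijection of `ℝ²` onto the Euclidean plane carries
`d` to the Euclidean distance. -/
def EuclideanModel (d : ℝ × ℝ → ℝ × ℝ → ℝ) : Prop :=
  ∃ T : (ℝ × ℝ) ≃ₗ[ℝ] EuclideanSpace ℝ (Fin 2), ∀ X Y, d X Y = dist (T X) (T Y)

end Pool.Agent.Helper87.Conics
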