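import Pool.Agent.Helper87.ConicsDefs

set_option autoImplicit false

open Filter Topology

namespace Pool.Agent.Helper87.Conics

namespace JT
theorem li_pair (T : V ≃ₗ[ℝ] V) {v w : V} (h : LinearIndependent ℝ ![v, w]) :
    LinearIndependent ℝ ![T.symm v, T.symm w] := by
  have h1 := h.map' T.symm.toLinearMap (LinearMap.ker_eq_bot.2 T.symm.injective)
  have h2 : (T.symm.toLinearMap ∘ ![v, w]) = ![T.symm v, T.symm w] := by
    funext i; fin_cases i <;> rfl
  rwa [h2] at h1

theorem li_triple (T : V ≃ₗ[ℝ] V) {u v w : V} (h : LinearIndependent ℝ ![u, v, w]) :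
    LinearIndependent ℝ ![T.symm u, T.symm v, T.symm w] := by
  have h1 := h.map' T.symm.toLinearMap (LinearMap.ker_eq_bot.2 T.symm.injective)
  have h2 : (T.symm.toLinearMap ∘ ![u, v, w]) = ![T.symm u, T.symm v, T.symm w] := by
    funext i; fin_cases i <;> rfl
  rwa [h2] at h1

theorem transport {C : Set V} {D : V → V → ℝ} (hD : ConePlane C D) (hE : EllConics C D)
    (T : V ≃ₗ[ℝ] V) :
    ConePlane {v | T.symm v ∈ C} (fun v w => D (T.symm v) (T.symm w)) ∧
      EllConics {v | T.symm v ∈ C} (fun v w => D (T.symm v) (T.symm w)) := by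
  have hTc : Continuous T.symm := LinearMap.continuous_of_finiteDimensional T.symm.toLinearMap
  refine ⟨{
    isOpen := hD.isOpen.preimage hTc
    nonempty := ?_
    chart := ?_
    add_mem := ?_
    smul_mem := ?_
    smul := ?_
    symm := fun v hv w hw => hD.symm _ hv _ hw
    self := fun v hv => hD.self _ hv
    pos := fun v hv w hw h => hD.pos _ hv _ hw (li_pair T h)
    triangle := fun u hu v hv w hw => hD.triangle _ hu _ hv _ hw
    cont := ?_
    add := ?_
    strict := fun u hu v hv w hw h => hD.strict _ hu _ hv _ hw (li_triple T h)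
    unbounded := ?_ }, ?_⟩
  · obtain ⟨v, hv⟩ := hD.nonempty
    exact ⟨T v, by show T.symm (T v) ∈ C; rwa [T.symm_apply_apply]⟩
  · obtain ⟨f, hf⟩ := hD.chart
    exact ⟨f.comp T.symm.toLinearMap, fun v hv => hf _ hv⟩
  · intro v hv w hw
    show T.symm (v + w) ∈ C
    rw [map_add]; exact hD.add_mem _ hv _ hw
  · intro v hv s hs
    show T.symm (s • v) ∈ C
    rw [map_smul]; exact hD.smul_mem _ hv s hs
  · intro v hv w hw s hs
    show D (T.symm (s • v)) (T.symm w) = D (T.symm v) (T.symm w)
    rw [map_smul]; exact hD.smul _ hv _ hw s hs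
  · have h1 : Continuous (fun p : V × V => (T.symm p.1, T.symm p.2)) :=
      (hTc.comp continuous_fst).prodMk (hTc.comp continuous_snd)
    exact hD.cont.comp h1.continuousOn (fun p hp => ⟨hp.1, hp.2⟩)
  · intro v hv w hw a b ha hb
    show D (T.symm v) (T.symm (a • v + b • w)) + D (T.symm (a • v + b • w)) (T.symm w) =
      D (T.symm v) (T.symm w)
    rw [map_add, map_smul, map_smul]
    exact hD.add _ hv _ hw a b ha hb
  · intro v hv w hw h R
    obtain ⟨t, ht, h1, h2⟩ := hD.unbounded _ hv _ hw (li_pair T h) R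
    refine ⟨t, ht, ?_, ?_⟩
    · show T.symm (w - t • v) ∈ C
      rw [map_sub, map_smul]; exact h1
    · show R < D (T.symm v) (T.symm (w - t • v))
      rw [map_sub, map_smul]; exact h2
  · intro f hf g hg h a ha
    obtain ⟨c, hc, hz⟩ := hE _ hf _ hg (li_pair T h) a ha
    set e : Fin 3 → V := fun j => T.symm (Pi.single j 1) with he
    have hexp : ∀ x : V, T.symm x = x 0 • e 0 + x 1 • e 1 + x 2 • e 2 := by
      intro x
      have h1 : x = x 0 • (Pi.single 0 1 : V) + x 1 • (Pi.single 1 1 : V) +
          x 2 • (Pi.single 2 1 : V) := by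
        funext i; fin_cases i <;> simp
      conv_lhs => rw [h1]
      simp only [map_add, map_smul, he]
    set c' : Fin 6 → ℝ := ![Qf c (e 0), Qf c (e 1), Qf c (e 2),
      Qf c (e 0 + e 1) - Qf c (e 0) - Qf c (e 1), Qf c (e 0 + e 2) - Qf c (e 0) - Qf c (e 2),
      Qf c (e 1 + e 2) - Qf c (e 1) - Qf c (e 2)] with hc'
    have hkey : ∀ x : V, Qf c' x = Qf c (T.symm x) := by
      intro x
      rw [hexp x]
      simp only [hc', Qf, Pi.add_apply, Pi.smul_apply, smul_eq_mul, Matrix.cons_val]
      ring
    refine ⟨c', ?_, ?_⟩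
    · intro h0
      apply hc
      have hall : ∀ y : V, Qf c y = 0 := by
        intro y
        have h1 := hkey (T y)
        rw [T.symm_apply_apply, h0] at h1
        rw [← h1]
        simp [Qf]
      have e0 := hall ![1, 0, 0]
      have e1 := hall ![0, 1, 0]
      have e2 := hall ![0, 0, 1]
      have e01 := hall ![1, 1, 0]
      have e02 := hall ![1, 0, 1]
      have e12 := hall ![0, 1, 1]
      simp [Qf] at e0 e1 e2 e01 e02 e12
      funext i
      fin_cases i
      · exact e0
      · exact e1
      · exact e2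
      · show c 3 = 0
        linarith
      · show c 4 = 0
        linarith
      · show c 5 = 0
        linarith
    · intro z hz1 hz2
      rw [hkey]
      exact hz _ hz1 hz2


end JT

end Pool.Agent.Helper87.Conics
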