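import Pool.Agent.Helper87.ConicsA
import Pool.Agent.Helper87.ConicsB
import Pool.Agent.Helper87.ConicsC
import Pool.Agent.Helper87.ConicsT
import Pool.Agent.Helper87.ConicsF
import Pool.Agent.Helper87.ConicsD1
import Pool.Agent.Helper87.ConicsD2
import Pool.Agent.Helper87.ConicsD3
import Pool.Agent.Helper87.ConicsD4
import Pool.Agent.Helper87.ConicsG1
import Pool.Agent.Helper87.ConicsG2
import Pool.Agent.Helper87.ConicsG3
import Pool.Agent.Helper87.ConicsG4

set_option autoImplicit false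

open Filter Topology

namespace Pool.Agent.Helper87.Conics

lemma horoFamily {C : Set V} {D : V → V → ℝ} (hD : ConePlane C D) (hE : EllConics C D) :
    ∃ H : V → V → ℝ, HoroFamily C D H :=
  JB.horoFamily_of hD (ellSep_of hD hE)

/-- The disc case. -/
theorem disc_case {D : V → V → ℝ} (hD : ConePlane Disc D) (hE : EllConics Disc D) :
    ∃ κ : ℝ, 0 < κ ∧ ∀ z ∈ Disc, ∀ w ∈ Disc,
      Real.cosh (D z w / κ) = Lf z w / (√(Lf z z) * √(Lf w w)) := by
  obtain ⟨H, hH⟩ := horoFamily hD hE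
  obtain ⟨h, h1, h2⟩ := JD2.disc_family JB.horo_limit JB.exists_limit
    JD1.disc_order hD hH
  obtain ⟨κ, hκ, h3⟩ := JD3.disc_pexider hD h1 h2
  exact ⟨κ, hκ, JD4.disc_final hD h1 hκ h3⟩

/-- The strip case does not occur. -/
theorem strip_case {D : V → V → ℝ} (hD : ConePlane Strip D) (hE : EllConics Strip D) : False := by
  obtain ⟨H, hH⟩ := horoFamily hD hE
  exact JF.strip_false JB.horo_limit JB.exists_limit hD hH

lemma hom_mem (X : ℝ × ℝ) : (![1, X.1, X.2] : V) ∈ Plane := by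
  simp [Plane]

lemma hom_li {X Y : ℝ × ℝ} (h : X ≠ Y) :
    LinearIndependent ℝ ![(![1, X.1, X.2] : V), ![1, Y.1, Y.2]] := by
  rw [LinearIndependent.pair_iff]
  intro s t hst
  have h0 := congrFun hst 0
  have h1 := congrFun hst 1
  have h2 := congrFun hst 2
  simp only [Pi.add_apply, Pi.smul_apply, smul_eq_mul, Matrix.cons_val_zero, Matrix.cons_val_one,
    Matrix.cons_val, Pi.zero_apply, mul_one] at h0 h1 h2
  have ht : t = -s := by linarith
  rw [ht] at h1 h2
  by_cases hs : s = 0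
  · exact ⟨hs, by rw [ht, hs, neg_zero]⟩
  · exfalso
    apply h
    apply Prod.ext
    · have : s * (X.1 - Y.1) = 0 := by linarith
      have := (mul_eq_zero.1 this).resolve_left hs
      linarith
    · have : s * (X.2 - Y.2) = 0 := by linarith
      have := (mul_eq_zero.1 this).resolve_left hs
      linarith

/-- The plane case. -/
theorem plane_case {D : V → V → ℝ} (hD : ConePlane Plane D) (hE : EllConics Plane D) :
    ∃ S : (ℝ × ℝ) ≃ₗ[ℝ] EuclideanSpace ℝ (Fin 2), ∀ X Y : ℝ × ℝ,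
      D ![1, X.1, X.2] ![1, Y.1, Y.2] = ‖S (Y - X)‖ := by
  obtain ⟨H, hH⟩ := horoFamily hD hE
  obtain ⟨g, g1, g2, g3⟩ := JG2.plane_family JB.horo_limit JB.exists_limit
    JG1.plane_normal hD hH
  obtain ⟨δ, hδ⟩ : ∃ δ : ℝ × ℝ → ℝ × ℝ → ℝ, ∀ X Y, δ X Y = D ![1, X.1, X.2] ![1, Y.1, Y.2] :=
    ⟨_, fun _ _ => rfl⟩
  have hpos : ∀ X Y, X ≠ Y → 0 < δ X Y := fun X Y h => by
    rw [hδ]; exact hD.pos _ (hom_mem X) _ (hom_mem Y) (hom_li h)
  have hself : ∀ X, δ X X = 0 := fun X => by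
    rw [hδ]; exact hD.self _ (hom_mem X)
  have hsymm : ∀ X Y, δ X Y = δ Y X := fun X Y => by
    rw [hδ, hδ]; exact hD.symm _ (hom_mem X) _ (hom_mem Y)
  have htri : ∀ X Y Z, δ X Z ≤ δ X Y + δ Y Z := fun X Y Z => by
    rw [hδ, hδ, hδ]; exact hD.triangle _ (hom_mem X) _ (hom_mem Y) _ (hom_mem Z)
  have hhom : Continuous (fun X : ℝ × ℝ => (![1, X.1, X.2] : V)) := by
    refine continuous_pi fun i => ?_
    fin_cases i
    · simpa using continuous_const
    · simpa using continuous_fst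
    · simpa using continuous_snd
  have hcont : Continuous (fun p : (ℝ × ℝ) × (ℝ × ℝ) => δ p.1 p.2) := by
    simp only [hδ]
    have hc : Continuous (fun p : (ℝ × ℝ) × (ℝ × ℝ) =>
        ((![1, p.1.1, p.1.2] : V), (![1, p.2.1, p.2.2] : V))) :=
      (hhom.comp continuous_fst).prodMk (hhom.comp continuous_snd)
    exact hD.cont.comp_continuous hc (fun p => ⟨hom_mem p.1, hom_mem p.2⟩)
  obtain ⟨t1, t2⟩ := JG3.plane_norm hpos hself hsymm htri hcont (g := g)
    (fun θ X Y => by rw [hδ]; exact g1 θ X Y)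
    (fun θ X t ht => by rw [hδ]; exact g2 θ X t ht) g3
  obtain ⟨N, hN⟩ : ∃ N : ℝ × ℝ → ℝ, ∀ X, N X = δ 0 X := ⟨_, fun _ => rfl⟩
  have hNδ : ∀ X Y, δ X Y = N (Y - X) := fun X Y => by rw [hN]; exact t1 X Y
  have hNcont : Continuous N := by
    have e : N = fun X => δ 0 X := funext hN
    rw [e]
    exact hcont.comp (continuous_const.prodMk continuous_id)
  obtain ⟨S, hS⟩ := JG4.norm_euclid (N := N)
    (fun X hX => by rw [hN]; exact hpos 0 X (Ne.symm hX))
    (fun X => by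
      have h1 := hNδ X 0
      have h2 := hNδ 0 X
      rw [zero_sub] at h1
      rw [sub_zero] at h2
      rw [← h1, ← h2, hsymm])
    (fun X Y => by
      have h1 := hNδ 0 X
      have h2 := hNδ X (X + Y)
      have h3 := hNδ 0 (X + Y)
      rw [sub_zero] at h1 h3
      rw [add_sub_cancel_left] at h2
      rw [← h1, ← h2, ← h3]
      exact htri 0 X (X + Y))
    (fun t ht X => by rw [hN, hN]; exact t2 t ht X) hNcont
    (fun F G hFG s hs => by
      obtain ⟨c, hc0, hc⟩ := hE _ (hom_mem F) _ (hom_mem G) (hom_li hFG) (s / 2) (by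
        rw [← hδ, hNδ]; linarith)
      refine ⟨c, hc0, fun X hX => hc _ (hom_mem X) ?_⟩
      rw [← hδ, ← hδ, hsymm X G, hNδ, hNδ, hX]
      ring)
  exact ⟨S, fun X Y => by rw [← hδ, hNδ, hS]⟩

end Pool.Agent.Helper87.Conics
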