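import Mathlib

set_option autoImplicit false

namespace Pool.Agent.Helper87.Thales

open Set

/-- A projective-metric plane of straight type (parabolic type if `M` is the whole affine plane,
hyperbolic type if `M` is a proper subset): `M` is a nonempty open convex subset of the affine
plane and `d` is a metric on `M`, continuous for the standard topology, whose geodesic lines
(isometric copies of the real line) are exactly the nonempty intersections of `M` with lines. -/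
structure StraightPlane (M : Set (ℝ × ℝ)) (d : ℝ × ℝ → ℝ × ℝ → ℝ) : Prop where
  isOpen : IsOpen M
  convex : Convex ℝ M
  nonempty : M.Nonempty
  self : ∀ X ∈ M, d X X = 0
  pos : ∀ X ∈ M, ∀ Y ∈ M, X ≠ Y → 0 < d X Y
  symm : ∀ X ∈ M, ∀ Y ∈ M, d X Y = d Y X
  triangle : ∀ X ∈ M, ∀ Y ∈ M, ∀ Z ∈ M, d X Z ≤ d X Y + d Y Z
  cont : ContinuousOn (fun p : (ℝ × ℝ) × (ℝ × ℝ) => d p.1 p.2) (M ×ˢ M)
  line : ∀ X ∈ M, ∀ Y ∈ M, X ≠ Y → ∃ γ : ℝ → ℝ × ℝ,
    (∀ s t, d (γ s) (γ t) = |s - t|) ∧ range γ = M ∩ line[ℝ, X, Y]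
  strict : ∀ X ∈ M, ∀ Y ∈ M, ∀ Z ∈ M, d X Y + d Y Z = d X Z → Y ∈ segment ℝ X Z

/-- The circle identity for every circle, with size function `σ`. -/
def CircleIdentity (σ : ℝ → ℝ) (M : Set (ℝ × ℝ)) (d : ℝ × ℝ → ℝ × ℝ → ℝ) : Prop :=
  ∀ O ∈ M, ∀ r : ℝ, 0 < r → ∀ A ∈ M, ∀ B ∈ M, ∀ P ∈ M, d O A = r → d O B = r →
    O ∈ openSegment ℝ A B → d O P = r → P ∉ line[ℝ, A, B] →
    σ (d A P / 2) ^ 2 + σ (d B P / 2) ^ 2 = σ r ^ 2

variable {M : Set (ℝ × ℝ)} {d : ℝ × ℝ → ℝ × ℝ → ℝ}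

/-- The two-point property of a function: if it vanishes at two points then it vanishes on the
line through them. -/
def TwoPoint (M : Set (ℝ × ℝ)) (F : ℝ × ℝ → ℝ) : Prop :=
  ∀ X ∈ M, ∀ Y ∈ M, X ≠ Y → F X = 0 → F Y = 0 → ∀ Z ∈ M, Z ∈ line[ℝ, X, Y] → F Z = 0

/-- A determinant that vanishes exactly for collinear triples. -/
def det3 (X Y Z : ℝ × ℝ) : ℝ := (Y.1 - X.1) * (Z.2 - X.2) - (Y.2 - X.2) * (Z.1 - X.1)

lemma mem_line_iff {X Y Z : ℝ × ℝ} : Z ∈ line[ℝ, X, Y] ↔ ∃ r : ℝ, Z = X + r • (Y - X) := by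
  rw [mem_affineSpan_pair_iff_exists_lineMap_eq]
  constructor
  · rintro ⟨r, rfl⟩
    exact ⟨r, by rw [AffineMap.lineMap_apply, vsub_eq_sub, vadd_eq_add, add_comm]⟩
  · rintro ⟨r, rfl⟩
    exact ⟨r, by rw [AffineMap.lineMap_apply, vsub_eq_sub, vadd_eq_add, add_comm]⟩

lemma det3_eq_zero_of_mem {X Y Z : ℝ × ℝ} (h : Z ∈ line[ℝ, X, Y]) : det3 X Y Z = 0 := by
  obtain ⟨r, rfl⟩ := mem_line_iff.1 h
  simp only [det3, Prod.fst_add, Prod.snd_add, Prod.smul_fst, Prod.smul_snd, Prod.fst_sub,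
    Prod.snd_sub, smul_eq_mul]
  ring

lemma mem_of_det3 {X Y Z : ℝ × ℝ} (hXY : X ≠ Y) (h : det3 X Y Z = 0) : Z ∈ line[ℝ, X, Y] := by
  rw [mem_line_iff]
  simp only [det3] at h
  have hne : (Y.1 - X.1) ^ 2 + (Y.2 - X.2) ^ 2 ≠ 0 := by
    intro h0
    apply hXY
    have h1 : Y.1 - X.1 = 0 := by nlinarith [sq_nonneg (Y.1 - X.1), sq_nonneg (Y.2 - X.2)]
    have h2 : Y.2 - X.2 = 0 := by nlinarith [sq_nonneg (Y.1 - X.1), sq_nonneg (Y.2 - X.2)]
    exact Prod.ext (by linarith) (by linarith)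
  refine ⟨((Y.1 - X.1) * (Z.1 - X.1) + (Y.2 - X.2) * (Z.2 - X.2)) /
    ((Y.1 - X.1) ^ 2 + (Y.2 - X.2) ^ 2), ?_⟩
  apply Prod.ext
  · simp only [Prod.fst_add, Prod.smul_fst, Prod.fst_sub, smul_eq_mul]
    field_simp
    linear_combination -(Y.2 - X.2) * h
  · simp only [Prod.snd_add, Prod.smul_snd, Prod.snd_sub, smul_eq_mul]
    field_simp
    linear_combination (Y.1 - X.1) * h

lemma kernel_aux (hc : Convex ℝ M) {F : ℝ × ℝ → ℝ} (hF : TwoPoint M F)
    {P Q R Z : ℝ × ℝ} (hP : P ∈ M) (hQ : Q ∈ M) (hR : R ∈ M) (hZ : Z ∈ M) (hdet : det3 P Q R ≠ 0)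
    (h1 : F P = 0) (h2 : F Q = 0) (h3 : F R = 0) {a b c : ℝ} (hs : a + b + c = 1)
    (hab : 0 < a * b) (hz : Z = a • P + b • Q + c • R) : F Z = 0 := by
  have hPQ : P ≠ Q := by
    rintro rfl
    apply hdet
    simp [det3]
  have hab0 : a + b ≠ 0 := by
    intro h
    have : b = -a := by linarith
    rw [this] at hab
    nlinarith [sq_nonneg a]
  obtain ⟨T, hT⟩ : ∃ T : ℝ × ℝ, T = P + (b / (a + b)) • (Q - P) := ⟨_, rfl⟩
  have hb0 : 0 < b / (a + b) := by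
    have e : b / (a + b) = (b * (a + b)) / (a + b) ^ 2 := by field_simp
    rw [e]
    have : 0 < b * (a + b) := by nlinarith [sq_nonneg b]
    positivity
  have hb1 : b / (a + b) < 1 := by
    have e : 1 - b / (a + b) = (a * (a + b)) / (a + b) ^ 2 := by field_simp; ring
    have : 0 < a * (a + b) := by nlinarith [sq_nonneg a]
    have : 0 < (a * (a + b)) / (a + b) ^ 2 := by positivity
    linarith
  have hTM : T ∈ M := by
    rw [hT]
    have := hc hP hQ (a := 1 - b / (a + b)) (b := b / (a + b)) (by linarith) hb0.le (by ring)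
    convert this using 1
    module
  have hFT : F T = 0 := hF P hP Q hQ hPQ h1 h2 T hTM (mem_line_iff.2 ⟨_, hT⟩)
  have hTR : T ≠ R := by
    rintro rfl
    exact hdet (det3_eq_zero_of_mem (mem_line_iff.2 ⟨_, hT⟩))
  refine hF T hTM R hR hTR hFT h3 Z hZ (mem_line_iff.2 ⟨c, ?_⟩)
  have hc1 : c = 1 - (a + b) := by linarith
  have e1 : (a + b) • T = a • P + b • Q := by
    rw [hT, smul_add, smul_smul, mul_div_cancel₀ _ hab0]
    module
  calc Z = (a • P + b • Q) + c • R := hz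
    _ = (a + b) • T + c • R := by rw [e1]
    _ = T + c • (R - T) := by rw [hc1]; module

lemma kernel_zero {F : ℝ × ℝ → ℝ} (hF : TwoPoint M F)
    {P Q Z : ℝ × ℝ} (hP : P ∈ M) (hQ : Q ∈ M) (hZ : Z ∈ M) (hPQ : P ≠ Q)
    (h1 : F P = 0) (h2 : F Q = 0) {a b : ℝ} (hs : a + b = 1)
    (hz : Z = a • P + b • Q) : F Z = 0 := by
  refine hF P hP Q hQ hPQ h1 h2 Z hZ (mem_line_iff.2 ⟨b, ?_⟩)
  have : a = 1 - b := by linarith
  rw [hz, this]
  module

/-- A function with the two-point property that vanishes at three non-collinear points is zero. -/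
lemma kernel (hc : Convex ℝ M) {F : ℝ × ℝ → ℝ} (hF : TwoPoint M F)
    {P Q R : ℝ × ℝ} (hP : P ∈ M) (hQ : Q ∈ M) (hR : R ∈ M) (hdet : det3 P Q R ≠ 0)
    (h1 : F P = 0) (h2 : F Q = 0) (h3 : F R = 0) : ∀ Z ∈ M, F Z = 0 := by
  intro Z hZ
  have hPQ : P ≠ Q := by rintro rfl; apply hdet; simp [det3]
  have hPR : P ≠ R := by rintro rfl; apply hdet; simp [det3]
  have hQR : Q ≠ R := by
    rintro rfl; apply hdet; simp only [det3]; ring
  obtain ⟨D, hD⟩ : ∃ D, D = det3 P Q R := ⟨_, rfl⟩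
  rw [← hD] at hdet
  obtain ⟨b, hb⟩ : ∃ b, b = det3 P Z R / D := ⟨_, rfl⟩
  obtain ⟨c, hcc⟩ : ∃ c, c = det3 P Q Z / D := ⟨_, rfl⟩
  obtain ⟨a, ha⟩ : ∃ a, a = 1 - b - c := ⟨_, rfl⟩
  have hz : Z = a • P + b • Q + c • R := by
    rw [ha, hb, hcc]
    apply Prod.ext
    · simp only [Prod.fst_add, Prod.smul_fst, smul_eq_mul]
      field_simp
      rw [hD]
      simp only [det3]
      ring
    · simp only [Prod.snd_add, Prod.smul_snd, smul_eq_mul]
      field_simp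
      rw [hD]
      simp only [det3]
      ring
  have hs : a + b + c = 1 := by rw [ha]; ring
  have hdet' : det3 P Q R ≠ 0 := by rw [← hD]; exact hdet
  by_cases ha0 : a = 0
  · exact kernel_zero hF hQ hR hZ hQR h2 h3 (a := b) (b := c) (by linarith)
      (by rw [hz, ha0, zero_smul, zero_add])
  by_cases hb0 : b = 0
  · exact kernel_zero hF hP hR hZ hPR h1 h3 (a := a) (b := c) (by linarith)
      (by rw [hz, hb0, zero_smul, add_zero])
  by_cases hc0 : c = 0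
  · exact kernel_zero hF hP hQ hZ hPQ h1 h2 (a := a) (b := b) (by linarith)
      (by rw [hz, hc0, zero_smul, add_zero])
  have key : 0 < a * b ∨ 0 < b * c ∨ 0 < a * c := by
    rcases lt_or_gt_of_ne ha0 with h | h <;> rcases lt_or_gt_of_ne hb0 with h' | h' <;>
      rcases lt_or_gt_of_ne hc0 with h'' | h''
    · left; exact mul_pos_of_neg_of_neg h h'
    · left; exact mul_pos_of_neg_of_neg h h'
    · right; right; exact mul_pos_of_neg_of_neg h h''
    · right; left; exact mul_pos h' h''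
    · right; left; exact mul_pos_of_neg_of_neg h' h''
    · right; right; exact mul_pos h h''
    · left; exact mul_pos h h'
    · left; exact mul_pos h h'
  rcases key with h | h | h
  · exact kernel_aux hc hF hP hQ hR hZ hdet' h1 h2 h3 hs h hz
  · refine kernel_aux hc hF hQ hR hP hZ ?_ h2 h3 h1 (a := b) (b := c) (c := a) (by linarith) h
      (by rw [hz]; abel)
    intro h0
    apply hdet'
    rw [← h0]
    simp only [det3]; ring
  · refine kernel_aux hc hF hP hR hQ hZ ?_ h1 h3 h2 (a := a) (b := c) (c := b) (by linarith) h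
      (by rw [hz]; abel)
    intro h0
    apply hdet'
    have : det3 P Q R = -det3 P R Q := by simp only [det3]; ring
    rw [this, h0, neg_zero]

/-- A unit speed parametrisation of a geodesic line. -/
def IsLine (M : Set (ℝ × ℝ)) (d : ℝ × ℝ → ℝ × ℝ → ℝ) (γ : ℝ → ℝ × ℝ) : Prop :=
  (∀ s t, d (γ s) (γ t) = |s - t|) ∧ ∃ X ∈ M, ∃ Y ∈ M, X ≠ Y ∧ range γ = M ∩ line[ℝ, X, Y]

lemma IsLine.mem {γ : ℝ → ℝ × ℝ} (h : IsLine M d γ) (u : ℝ) : γ u ∈ M := by
  obtain ⟨X, -, Y, -, -, hr⟩ := h.2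
  have : γ u ∈ range γ := ⟨u, rfl⟩
  rw [hr] at this
  exact this.1

lemma line_param (hd : StraightPlane M d) {X Y : ℝ × ℝ} (hX : X ∈ M) (hY : Y ∈ M) (hXY : X ≠ Y) :
    ∃ γ : ℝ → ℝ × ℝ, IsLine M d γ ∧ γ 0 = X ∧ γ (d X Y) = Y ∧ range γ = M ∩ line[ℝ, X, Y] := by
  obtain ⟨γ, h1, h2⟩ := hd.line X hX Y hY hXY
  have hXr : X ∈ range γ := by rw [h2]; exact ⟨hX, left_mem_affineSpan_pair ℝ X Y⟩
  have hYr : Y ∈ range γ := by rw [h2]; exact ⟨hY, right_mem_affineSpan_pair ℝ X Y⟩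
  obtain ⟨s, hs⟩ := hXr
  obtain ⟨t, ht⟩ := hYr
  have hdist : d X Y = |s - t| := by rw [← hs, ← ht, h1]
  rcases le_total s t with hst | hst
  · refine ⟨fun u => γ (s + u), ⟨?_, X, hX, Y, hY, hXY, ?_⟩, ?_, ?_, ?_⟩
    · intro u v
      rw [h1]
      congr 1
      ring
    · rw [← h2]
      ext Z
      constructor
      · rintro ⟨u, rfl⟩; exact ⟨s + u, rfl⟩
      · rintro ⟨u, rfl⟩; exact ⟨u - s, by simp⟩
    · simp [hs]
    · rw [hdist, abs_of_nonpos (by linarith)]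
      simp [ht]
    · rw [← h2]
      ext Z
      constructor
      · rintro ⟨u, rfl⟩; exact ⟨s + u, rfl⟩
      · rintro ⟨u, rfl⟩; exact ⟨u - s, by simp⟩
  · refine ⟨fun u => γ (s - u), ⟨?_, X, hX, Y, hY, hXY, ?_⟩, ?_, ?_, ?_⟩
    · intro u v
      rw [h1, abs_sub_comm]
      congr 1
      ring
    · rw [← h2]
      ext Z
      constructor
      · rintro ⟨u, rfl⟩; exact ⟨s - u, rfl⟩
      · rintro ⟨u, rfl⟩; exact ⟨s - u, by simp⟩
    · simp [hs]
    · rw [hdist, abs_of_nonneg (by linarith)]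
      simp [ht]
    · rw [← h2]
      ext Z
      constructor
      · rintro ⟨u, rfl⟩; exact ⟨s - u, rfl⟩
      · rintro ⟨u, rfl⟩; exact ⟨s - u, by simp⟩

/-- The three hypotheses on the distance function along a line, and the circle identity. -/
lemma line_facts (hd : StraightPlane M d) {γ : ℝ → ℝ × ℝ} (hγ : IsLine M d γ) {P : ℝ × ℝ}
    (hP : P ∈ M) (hPγ : P ∉ range γ) :
    (∀ u, 0 < d P (γ u)) ∧ (∀ u v, |d P (γ u) - d P (γ v)| ≤ |u - v|) ∧
    (∀ u v, |u - v| ≤ d P (γ u) + d P (γ v)) := by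
  refine ⟨?_, ?_, ?_⟩
  · intro u
    refine hd.pos P hP _ (hγ.mem u) ?_
    rintro rfl
    exact hPγ ⟨u, rfl⟩
  · intro u v
    have h1 := hd.triangle P hP _ (hγ.mem u) _ (hγ.mem v)
    have h2 := hd.triangle P hP _ (hγ.mem v) _ (hγ.mem u)
    rw [hγ.1] at h1 h2
    rw [abs_sub_comm v u] at h2
    rw [abs_le]
    constructor <;> linarith
  · intro u v
    have h1 := hd.triangle _ (hγ.mem u) P hP _ (hγ.mem v)
    rw [hγ.1, hd.symm _ (hγ.mem u) P hP] at h1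
    exact h1

lemma line_identity (hd : StraightPlane M d) {σ : ℝ → ℝ} (hσ : CircleIdentity σ M d)
    {γ : ℝ → ℝ × ℝ} (hγ : IsLine M d γ) {P : ℝ × ℝ} (hP : P ∈ M) (hPγ : P ∉ range γ) (c : ℝ) :
    σ (d P (γ (c + d P (γ c))) / 2) ^ 2 + σ (d P (γ (c - d P (γ c))) / 2) ^ 2 =
      σ (d P (γ c)) ^ 2 := by
  obtain ⟨hpos, -, -⟩ := line_facts hd hγ hP hPγ
  obtain ⟨r, hr⟩ : ∃ r, r = d P (γ c) := ⟨_, rfl⟩
  have hr0 : 0 < r := by rw [hr]; exact hpos c
  rw [← hr]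
  obtain ⟨X, hX, Y, hY, hXY, hrange⟩ := hγ.2
  have hA := hγ.mem (c + r)
  have hB := hγ.mem (c - r)
  have hO := hγ.mem c
  have e1 : d (γ c) (γ (c + r)) = r := by
    rw [hγ.1]
    rw [show c - (c + r) = -r by ring, abs_neg, abs_of_pos hr0]
  have e2 : d (γ c) (γ (c - r)) = r := by
    rw [hγ.1]
    rw [show c - (c - r) = r by ring, abs_of_pos hr0]
  have e3 : d (γ (c + r)) (γ (c - r)) = 2 * r := by
    rw [hγ.1]
    rw [show (c + r) - (c - r) = 2 * r by ring, abs_of_pos (by linarith)]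
  have hAB : γ (c + r) ≠ γ (c - r) := by
    intro h
    rw [h, hd.self _ hB] at e3
    linarith
  have hseg : γ c ∈ segment ℝ (γ (c + r)) (γ (c - r)) := by
    apply hd.strict _ hA _ hO _ hB
    rw [hd.symm _ hA _ hO, e1, e2, e3]
    ring
  have hOA : γ c ≠ γ (c + r) := by
    intro h
    rw [← h, hd.self _ hO] at e1
    linarith
  have hOB : γ c ≠ γ (c - r) := by
    intro h
    rw [← h, hd.self _ hO] at e2
    linarith
  have hopen : γ c ∈ openSegment ℝ (γ (c + r)) (γ (c - r)) :=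
    mem_openSegment_of_ne_left_right hOA.symm hOB.symm hseg
  have hline : P ∉ line[ℝ, γ (c + r), γ (c - r)] := by
    intro h
    apply hPγ
    rw [hrange]
    refine ⟨hP, ?_⟩
    have h1 : γ (c + r) ∈ line[ℝ, X, Y] := by
      have : γ (c + r) ∈ range γ := ⟨_, rfl⟩
      rw [hrange] at this
      exact this.2
    have h2 : γ (c - r) ∈ line[ℝ, X, Y] := by
      have : γ (c - r) ∈ range γ := ⟨_, rfl⟩
      rw [hrange] at this
      exact this.2
    exact (affineSpan_pair_le_of_mem_of_mem h1 h2) h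
  have := hσ (γ c) hO r hr0 _ hA _ hB P hP e1 e2 hopen (by rw [hd.symm _ hO _ hP, ← hr]) hline
  rw [hd.symm _ hA _ hP, hd.symm _ hB _ hP] at this
  exact this

end Pool.Agent.Helper87.Thales
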