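import Pool.Agent.Helper87.ConicsMDefs
import Pool.Agent.Helper87.ThalesStraight

set_option autoImplicit false

open Filter Topology Set

namespace Pool.Agent.Helper87.Conics

open Pool.Agent.Helper87.Thales (StraightPlane)

namespace JS1
lemma tendsto_d {M : Set (ℝ × ℝ)} {d : ℝ × ℝ → ℝ × ℝ → ℝ} (h : StraightPlane M d)
    {X Y : ℝ × ℝ} (hX : X ∈ M) (hY : Y ∈ M) {v : ℕ → ℝ × ℝ} (hv : ∀ᶠ n in atTop, v n ∈ M)
    (ht : Tendsto v atTop (𝓝 Y)) : Tendsto (fun n => d X (v n)) atTop (𝓝 (d X Y)) := by
  have hc := h.cont (X, Y) ⟨hX, hY⟩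
  have h1 : Tendsto (fun n => ((X, v n) : (ℝ × ℝ) × (ℝ × ℝ))) atTop (𝓝[M ×ˢ M] (X, Y)) := by
    refine tendsto_nhdsWithin_iff.2 ⟨(tendsto_const_nhds.prodMk_nhds ht), ?_⟩
    filter_upwards [hv] with n hn
    exact ⟨hX, hn⟩
  exact hc.tendsto.comp h1

lemma tendsto_of_d {M : Set (ℝ × ℝ)} {d : ℝ × ℝ → ℝ × ℝ → ℝ} (h : StraightPlane M d)
    (hp : ∀ X ∈ M, ∀ r : ℝ, ∃ K ⊆ M, IsCompact K ∧ ∀ Y ∈ M, d X Y ≤ r → Y ∈ K)
    {X : ℝ × ℝ} (hX : X ∈ M) {u : ℕ → ℝ × ℝ} (hu : ∀ n, u n ∈ M)
    (ht : Tendsto (fun n => d X (u n)) atTop (𝓝 0)) : Tendsto u atTop (𝓝 X) := by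
  obtain ⟨K, hKM, hK, hKX⟩ := hp X hX 1
  refine tendsto_of_subseq_tendsto fun ns hns => ?_
  have h1 : Tendsto (fun n => d X (u (ns n))) atTop (𝓝 0) := ht.comp hns
  have h2 : ∀ᶠ n in atTop, u (ns n) ∈ K := by
    filter_upwards [h1.eventually (gt_mem_nhds (zero_lt_one : (0:ℝ) < 1))] with n hn
    exact hKX _ (hu _) hn.le
  obtain ⟨Y, hYK, φ, hφ, hY⟩ := hK.tendsto_subseq' h2.frequently
  have hYM : Y ∈ M := hKM hYK
  have h3 : Tendsto (fun n => d X (u (ns (φ n)))) atTop (𝓝 (d X Y)) :=
    tendsto_d h hX hYM (Eventually.of_forall fun n => hu _) hY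
  have h4 : Tendsto (fun n => d X (u (ns (φ n)))) atTop (𝓝 0) := h1.comp hφ.tendsto_atTop
  have h5 : d X Y = 0 := tendsto_nhds_unique h3 h4
  have h6 : X = Y := by
    by_contra hne
    have := h.pos X hX Y hYM hne
    linarith
  refine ⟨φ, ?_⟩
  rw [h6]
  exact hY

/-- If moreover bounded sets are relatively compact, the plane is a complete projective-metric
plane. -/
theorem projPlane_of {M : Set (ℝ × ℝ)} {d : ℝ × ℝ → ℝ × ℝ → ℝ} (h : StraightPlane M d)
    (hp : ∀ X ∈ M, ∀ r : ℝ, ∃ K ⊆ M, IsCompact K ∧ ∀ Y ∈ M, d X Y ≤ r → Y ∈ K) :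
    ProjPlane M d := by
  refine ⟨h.isOpen, h.convex, h.nonempty, ?_, h.symm, h.triangle, ?_, ?_, ?_⟩
  · intro X hX Y hY
    constructor
    · intro h0
      by_contra hne
      have := h.pos X hX Y hY hne
      linarith
    · rintro rfl
      exact h.self X hX
  · intro X hX u hu
    constructor
    · intro ht
      have := tendsto_d h hX hX (Eventually.of_forall hu) ht
      rwa [h.self X hX] at this
    · intro ht
      exact tendsto_of_d h hp hX hu ht
  · intro X hX Y hY Z hZ
    constructor
    · exact h.strict X hX Y hY Z hZ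
    · intro hseg
      by_cases hXZ : X = Z
      · subst hXZ
        rw [segment_same] at hseg
        have : Y = X := hseg
        subst this
        rw [h.self _ hX]; simp
      · obtain ⟨γ, hγ, hrange⟩ := h.line X hX Z hZ hXZ
        have hX' : X ∈ range γ := by
          rw [hrange]; exact ⟨hX, left_mem_affineSpan_pair ℝ X Z⟩
        have hZ' : Z ∈ range γ := by
          rw [hrange]; exact ⟨hZ, right_mem_affineSpan_pair ℝ X Z⟩
        rw [segment_eq_image_lineMap] at hseg
        obtain ⟨r, hr, hrY⟩ := hseg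
        have hY' : Y ∈ range γ := by
          rw [hrange]; refine ⟨hY, ?_⟩
          rw [← hrY]
          exact AffineMap.lineMap_mem_affineSpan_pair r X Z
        obtain ⟨a, ha⟩ := hX'
        obtain ⟨c, hc⟩ := hZ'
        obtain ⟨b, hb⟩ := hY'
        have hγM : ∀ t, γ t ∈ M := by
          intro t
          have : γ t ∈ range γ := ⟨t, rfl⟩
          rw [hrange] at this
          exact this.1
        have hγc : Continuous γ := by
          refine continuous_iff_continuousAt.2 fun t => ?_
          refine tendsto_of_seq_tendsto fun v hv => ?_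
          refine tendsto_of_d h hp (hγM t) (fun n => hγM _) ?_
          have h1 : Tendsto (fun n => |t - v n|) atTop (𝓝 |t - t|) :=
            (tendsto_const_nhds.sub hv).abs
          simp only [sub_self, abs_zero] at h1
          refine h1.congr fun n => ?_
          show |t - v n| = d (γ t) (γ (v n))
          rw [hγ]
        set q : ℝ := (Z.1 - X.1) ^ 2 + (Z.2 - X.2) ^ 2 with hq
        have hq0 : q ≠ 0 := by
          intro h0
          apply hXZ
          have h1 : Z.1 - X.1 = 0 := by nlinarith [sq_nonneg (Z.1 - X.1), sq_nonneg (Z.2 - X.2)]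
          have h2 : Z.2 - X.2 = 0 := by nlinarith [sq_nonneg (Z.1 - X.1), sq_nonneg (Z.2 - X.2)]
          ext <;> linarith
        let φ : ℝ → ℝ := fun t => (((γ t).1 - X.1) * (Z.1 - X.1) + ((γ t).2 - X.2) * (Z.2 - X.2)) / q
        have hφc : Continuous φ := by
          have h1 : Continuous fun t => (γ t).1 := continuous_fst.comp hγc
          have h2 : Continuous fun t => (γ t).2 := continuous_snd.comp hγc
          simp only [φ]
          exact (((h1.sub continuous_const).mul continuous_const).add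
            ((h2.sub continuous_const).mul continuous_const)).div_const q
        have key : ∀ t s, γ t = AffineMap.lineMap X Z s → φ t = s := by
          intro t s hts
          simp only [φ]
          rw [hts, div_eq_iff hq0, hq]
          simp only [AffineMap.lineMap_apply, vsub_eq_sub, vadd_eq_add, Prod.fst_add, Prod.smul_fst,
            Prod.fst_sub, Prod.snd_add, Prod.smul_snd, Prod.snd_sub, smul_eq_mul]
          ring
        have hφ : ∀ t, γ t = AffineMap.lineMap X Z (φ t) := by
          intro t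
          have h1 : γ t ∈ range γ := ⟨t, rfl⟩
          rw [hrange] at h1
          obtain ⟨s, hs⟩ := mem_affineSpan_pair_iff_exists_lineMap_eq.1 h1.2
          rw [key t s hs.symm]
          exact hs.symm
        have hinj : Function.Injective φ := by
          intro s t hst
          have h1 : γ s = γ t := by rw [hφ s, hφ t, hst]
          have h2 : |s - t| = 0 := by
            rw [← hγ s t, h1]; exact h.self _ (hγM t)
          have := abs_eq_zero.1 h2
          linarith
        have φa : φ a = 0 := key a 0 (by rw [ha]; simp)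
        have φc : φ c = 1 := key c 1 (by rw [hc]; simp)
        have φb : φ b = r := key b r (by rw [hb, hrY])
        rw [← ha, ← hb, ← hc, hγ, hγ, hγ]
        rcases hφc.strictMono_of_inj hinj with hm | hm
        · have h1 : a ≤ b := hm.le_iff_le.1 (by rw [φa, φb]; exact hr.1)
          have h2 : b ≤ c := hm.le_iff_le.1 (by rw [φb, φc]; exact hr.2)
          rw [abs_of_nonpos (by linarith), abs_of_nonpos (by linarith),
            abs_of_nonpos (by linarith)]
          ring
        · have h1 : b ≤ a := hm.le_iff_ge.1 (by rw [φa, φb]; exact hr.1)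
          have h2 : c ≤ b := hm.le_iff_ge.1 (by rw [φb, φc]; exact hr.2)
          rw [abs_of_nonneg (by linarith), abs_of_nonneg (by linarith),
            abs_of_nonneg (by linarith)]
          ring
  · intro u hu hcau
    obtain ⟨N, hN⟩ := hcau 1 one_pos
    obtain ⟨K, hKM, hK, hKX⟩ := hp (u N) (hu N) 1
    have h2 : ∀ᶠ n in atTop, u n ∈ K := by
      filter_upwards [eventually_ge_atTop N] with n hn
      exact hKX _ (hu _) (hN N le_rfl n hn).le
    obtain ⟨X, hXK, φ, hφ, hX⟩ := hK.tendsto_subseq' h2.frequently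
    have hXM : X ∈ M := hKM hXK
    refine ⟨X, hXM, ?_⟩
    have h3 : Tendsto (fun n => d X (u (φ n))) atTop (𝓝 0) := by
      have := tendsto_d h hXM hXM (Eventually.of_forall fun n => hu (φ n)) hX
      rwa [h.self X hXM] at this
    rw [Metric.tendsto_atTop] at h3 ⊢
    intro ε hε
    obtain ⟨N1, hN1⟩ := hcau (ε / 2) (by linarith)
    obtain ⟨N2, hN2⟩ := h3 (ε / 2) (by linarith)
    refine ⟨N1, fun n hn => ?_⟩
    have hge : ∀ Y ∈ M, 0 ≤ d X Y := by
      intro Y hY
      by_cases hXY : X = Y
      · rw [← hXY, h.self X hXM]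
      · exact (h.pos X hXM Y hY hXY).le
    set k := max N1 N2 with hk
    have hk1 : N1 ≤ φ k := (le_max_left _ _).trans (hφ.id_le k)
    have h5 := hN2 k (le_max_right _ _)
    have h6 := hN1 (φ k) hk1 n hn
    have h7 := h.triangle X hXM (u (φ k)) (hu _) (u n) (hu _)
    rw [Real.dist_eq, sub_zero, abs_of_nonneg (hge _ (hu _))] at h5 ⊢
    linarith


end JS1

end Pool.Agent.Helper87.Conics
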