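import Pool.Agent.Helper87.ThalesSanityE
import Pool.Agent.Helper87.ConicsEDefs

set_option autoImplicit false

open Real

namespace Pool.Agent.Helper87.Elliptic

namespace JS4

lemma nrm (a b c : ℝ) (n : ℝ) (hn : 0 ≤ n) (h : a ^ 2 + b ^ 2 + c ^ 2 = n ^ 2) :
    ‖(!₂[a, b, c] : E3)‖ = n := by
  rw [EuclideanSpace.norm_eq, Fin.sum_univ_three]
  simp only [Real.norm_eq_abs, sq_abs]
  rw [← Real.sqrt_sq hn, ← h]
  simp

lemma inn (a b c a' b' c' : ℝ) :
    inner ℝ (!₂[a, b, c] : E3) (!₂[a', b', c'] : E3) = a * a' + b * b' + c * c' := by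
  simp [PiLp.inner_apply, Fin.sum_univ_three]
  ring

lemma sd (v w : E3) (θ : ℝ) (h0 : 0 ≤ θ) (h1 : θ ≤ π / 2)
    (h : inner ℝ v w / (‖v‖ * ‖w‖) = cos θ ∨ inner ℝ v w / (‖v‖ * ‖w‖) = - cos θ) :
    stdDist v w = θ := by
  have hp := Real.pi_pos
  unfold stdDist InnerProductGeometry.angle
  rcases h with h | h
  · rw [h, arccos_cos h0 (by linarith)]
    exact min_eq_left (by linarith)
  · rw [h, arccos_neg, arccos_cos h0 (by linarith)]
    rw [min_eq_right (by linarith)]
    ring

/-- A large ellipse of the elliptic plane that is not contained in a conic. -/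
theorem large_ellipse : ∃ f g : E3, LinearIndependent ℝ ![f, g] ∧ stdDist f g < 2 * (π / 3) ∧
    ∀ c : Fin 6 → ℝ, (∀ z : E3, z ≠ 0 → stdDist f z + stdDist z g = 2 * (π / 3) → Qe c z = 0) →
      c = 0 := by
  have hp := Real.pi_pos
  have nf : ‖(!₂[1, 0, 0] : E3)‖ = 1 := nrm _ _ _ _ (by norm_num) (by norm_num)
  have ng : ‖(!₂[0, 1, 0] : E3)‖ = 1 := nrm _ _ _ _ (by norm_num) (by norm_num)
  have s2 : √2 ^ 2 = (2:ℝ) := Real.sq_sqrt (by norm_num)
  have s3 : √3 ^ 2 = (3:ℝ) := Real.sq_sqrt (by norm_num)
  refine ⟨!₂[1, 0, 0], !₂[0, 1, 0], ?_, ?_, ?_⟩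
  · rw [LinearIndependent.pair_iff]
    intro s t hst
    have h0 := congrFun (congrArg (fun v : E3 => (v : Fin 3 → ℝ)) hst) 0
    have h1 := congrFun (congrArg (fun v : E3 => (v : Fin 3 → ℝ)) hst) 1
    simp at h0 h1
    exact ⟨h0, h1⟩
  · have : stdDist (!₂[1, 0, 0] : E3) !₂[0, 1, 0] = π / 2 := by
      apply sd _ _ _ (by positivity) le_rfl
      left
      rw [inn, nf, ng, cos_pi_div_two]
      norm_num
    rw [this]
    linarith
  · intro c hc
    have key : ∀ e1 e2 : ℝ, e1 ^ 2 = 1 → e2 ^ 2 = 1 →
        Qe c !₂[e1, e2, √2] = 0 := by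
      intro e1 e2 h1 h2
      have nz : ‖(!₂[e1, e2, √2] : E3)‖ = 2 := nrm _ _ _ _ (by norm_num) (by rw [h1, h2, s2]; norm_num)
      apply hc
      · intro h
        rw [h] at nz
        simp at nz
      · have e1' : e1 = 1 ∨ e1 = -1 := by
          have : (e1 - 1) * (e1 + 1) = 0 := by linear_combination h1
          rcases mul_eq_zero.mp this with h | h
          · left; linarith
          · right; linarith
        have e2' : e2 = 1 ∨ e2 = -1 := by
          have : (e2 - 1) * (e2 + 1) = 0 := by linear_combination h2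
          rcases mul_eq_zero.mp this with h | h
          · left; linarith
          · right; linarith
        have a1 : stdDist (!₂[1, 0, 0] : E3) !₂[e1, e2, √2] = π / 3 := by
          apply sd _ _ _ (by positivity) (by linarith)
          rw [inn, nf, nz, cos_pi_div_three]
          rcases e1' with rfl | rfl
          · left; norm_num
          · right; norm_num
        have a2 : stdDist (!₂[e1, e2, √2] : E3) !₂[0, 1, 0] = π / 3 := by
          apply sd _ _ _ (by positivity) (by linarith)
          rw [inn, ng, nz, cos_pi_div_three]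
          rcases e2' with rfl | rfl
          · left; norm_num
          · right; norm_num
        rw [a1, a2]
        ring
    have k1 : Qe c !₂[√3, 0, 1] = 0 := by
      have nz : ‖(!₂[√3, 0, 1] : E3)‖ = 2 := nrm _ _ _ _ (by norm_num) (by rw [s3]; norm_num)
      apply hc
      · intro h
        rw [h] at nz
        simp at nz
      · have a1 : stdDist (!₂[1, 0, 0] : E3) !₂[√3, 0, 1] = π / 6 := by
          apply sd _ _ _ (by positivity) (by linarith)
          rw [inn, nf, nz, cos_pi_div_six]
          left; norm_num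
        have a2 : stdDist (!₂[√3, 0, 1] : E3) !₂[0, 1, 0] = π / 2 := by
          apply sd _ _ _ (by positivity) (by linarith)
          rw [inn, ng, nz, cos_pi_div_two]
          left; norm_num
        rw [a1, a2]
        ring
    have k2 : Qe c !₂[0, √3, 1] = 0 := by
      have nz : ‖(!₂[0, √3, 1] : E3)‖ = 2 := nrm _ _ _ _ (by norm_num) (by rw [s3]; norm_num)
      apply hc
      · intro h
        rw [h] at nz
        simp at nz
      · have a1 : stdDist (!₂[1, 0, 0] : E3) !₂[0, √3, 1] = π / 2 := by
          apply sd _ _ _ (by positivity) (by linarith)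
          rw [inn, nf, nz, cos_pi_div_two]
          left; norm_num
        have a2 : stdDist (!₂[0, √3, 1] : E3) !₂[0, 1, 0] = π / 6 := by
          apply sd _ _ _ (by positivity) (by linarith)
          rw [inn, ng, nz, cos_pi_div_six]
          left; norm_num
        rw [a1, a2]
        ring
    have q1 := key 1 1 (by norm_num) (by norm_num)
    have q2 := key (-1) 1 (by norm_num) (by norm_num)
    have q3 := key 1 (-1) (by norm_num) (by norm_num)
    have q4 := key (-1) (-1) (by norm_num) (by norm_num)
    have hs2 : (0:ℝ) < √2 := by positivity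
    have hs3 : (0:ℝ) < √3 := by positivity
    simp only [Qe] at q1 q2 q3 q4 k1 k2
    simp at q1 q2 q3 q4 k1 k2
    have c3 : c 3 = 0 := by linarith
    have c4 : c 4 * √2 = 0 := by linarith
    have c5 : c 5 * √2 = 0 := by linarith
    have c4' : c 4 = 0 := by
      rcases mul_eq_zero.mp c4 with h | h
      · exact h
      · exact absurd h hs2.ne'
    have c5' : c 5 = 0 := by
      rcases mul_eq_zero.mp c5 with h | h
      · exact h
      · exact absurd h hs2.ne'
    rw [c4'] at k1
    rw [c5'] at k2
    rw [c3, c4', c5'] at q1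
    have c0 : c 0 = 0 := by linarith
    have c1 : c 1 = 0 := by linarith
    have c2 : c 2 = 0 := by linarith
    funext i
    fin_cases i <;> simp [c0, c1, c2, c3, c4', c5']


end JS4

end Pool.Agent.Helper87.Elliptic
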