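import Pool.Agent.Helper87.ThalesModel

set_option autoImplicit false

namespace Pool.Agent.Helper87.Thales.Klein

open Set


/-- The inverse of the hyperbolic cosine on `[1, ∞)`. -/
noncomputable def arc (x : ℝ) : ℝ := Real.log (x + Real.sqrt (x ^ 2 - 1))

/-- The distance of the Beltrami-Cayley-Klein model. -/
noncomputable def kleinDist (X Y : ℝ × ℝ) : ℝ :=
  arc ((1 - (X.1 * Y.1 + X.2 * Y.2)) /
    (Real.sqrt (1 - (X.1 ^ 2 + X.2 ^ 2)) * Real.sqrt (1 - (Y.1 ^ 2 + Y.2 ^ 2))))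

/-! ### hyperboloid -/

/-- Lorentz form -/
def lf (v w : ℝ × ℝ × ℝ) : ℝ := v.1 * w.1 - v.2.1 * w.2.1 - v.2.2 * w.2.2

theorem lf_comm (v w : ℝ × ℝ × ℝ) : lf v w = lf w v := by unfold lf; ring
theorem lf_add_left (v v' w : ℝ × ℝ × ℝ) : lf (v + v') w = lf v w + lf v' w := by
  unfold lf; simp only [Prod.fst_add, Prod.snd_add]; ring
theorem lf_sub_left (v v' w : ℝ × ℝ × ℝ) : lf (v - v') w = lf v w - lf v' w := by
  unfold lf; simp only [Prod.fst_sub, Prod.snd_sub]; ring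
theorem lf_smul_left (a : ℝ) (v w : ℝ × ℝ × ℝ) : lf (a • v) w = a * lf v w := by
  unfold lf; simp only [Prod.smul_fst, Prod.smul_snd, smul_eq_mul]; ring
theorem lf_add_right (v w w' : ℝ × ℝ × ℝ) : lf v (w + w') = lf v w + lf v w' := by
  rw [lf_comm, lf_add_left, lf_comm w, lf_comm w']
theorem lf_sub_right (v w w' : ℝ × ℝ × ℝ) : lf v (w - w') = lf v w - lf v w' := by
  rw [lf_comm, lf_sub_left, lf_comm w, lf_comm w']
theorem lf_smul_right (a : ℝ) (v w : ℝ × ℝ × ℝ) : lf v (a • w) = a * lf v w := by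
  rw [lf_comm, lf_smul_left, lf_comm]

/-- unit future vectors -/
def Hyp (v : ℝ × ℝ × ℝ) : Prop := lf v v = 1 ∧ 0 < v.1

theorem ext3 {v w : ℝ × ℝ × ℝ} (h0 : v.1 = w.1) (h1 : v.2.1 = w.2.1) (h2 : v.2.2 = w.2.2) :
    v = w := Prod.ext h0 (Prod.ext h1 h2)

theorem one_le_lf {v w : ℝ × ℝ × ℝ} (hv : Hyp v) (hw : Hyp w) : 1 ≤ lf v w := by
  obtain ⟨hv1, hv0⟩ := hv
  obtain ⟨hw1, hw0⟩ := hw
  unfold lf at *
  have h1 : (1 + (v.2.1 * w.2.1 + v.2.2 * w.2.2)) ^ 2 ≤ (v.1 * w.1) ^ 2 := by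
    have e1 : v.1 ^ 2 = 1 + v.2.1 ^ 2 + v.2.2 ^ 2 := by linarith
    have e2 : w.1 ^ 2 = 1 + w.2.1 ^ 2 + w.2.2 ^ 2 := by linarith
    have e3 : (v.1 * w.1) ^ 2 = v.1 ^ 2 * w.1 ^ 2 := by ring
    rw [e3, e1, e2]
    nlinarith [sq_nonneg (v.2.1 - w.2.1), sq_nonneg (v.2.2 - w.2.2),
      sq_nonneg (v.2.1 * w.2.2 - v.2.2 * w.2.1)]
  have h2 := abs_le_of_sq_le_sq' h1 (mul_pos hv0 hw0).le
  linarith [h2.2]

theorem eq_of_lf {v w : ℝ × ℝ × ℝ} (hv : Hyp v) (hw : Hyp w) (h : lf v w = 1) : v = w := by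
  obtain ⟨hv1, hv0⟩ := hv
  obtain ⟨hw1, hw0⟩ := hw
  unfold lf at *
  have e1 : v.1 ^ 2 = 1 + v.2.1 ^ 2 + v.2.2 ^ 2 := by linarith
  have e2 : w.1 ^ 2 = 1 + w.2.1 ^ 2 + w.2.2 ^ 2 := by linarith
  have h1 : (v.1 * w.1) ^ 2 = (1 + (v.2.1 * w.2.1 + v.2.2 * w.2.2)) ^ 2 := by
    have : v.1 * w.1 = 1 + (v.2.1 * w.2.1 + v.2.2 * w.2.2) := by linarith
    rw [this]
  have e3 : (v.1 * w.1) ^ 2 = v.1 ^ 2 * w.1 ^ 2 := by ring
  rw [e3, e1, e2] at h1
  have h2 : (v.2.1 - w.2.1) ^ 2 + (v.2.2 - w.2.2) ^ 2 + (v.2.1 * w.2.2 - v.2.2 * w.2.1) ^ 2 = 0 := by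
    nlinarith [h1]
  have h3 : v.2.1 - w.2.1 = 0 := by
    apply pow_eq_zero_iff (two_ne_zero) |>.mp
    nlinarith [sq_nonneg (v.2.1 - w.2.1), sq_nonneg (v.2.2 - w.2.2),
      sq_nonneg (v.2.1 * w.2.2 - v.2.2 * w.2.1)]
  have h4 : v.2.2 - w.2.2 = 0 := by
    apply pow_eq_zero_iff (two_ne_zero) |>.mp
    nlinarith [sq_nonneg (v.2.1 - w.2.1), sq_nonneg (v.2.2 - w.2.2),
      sq_nonneg (v.2.1 * w.2.2 - v.2.2 * w.2.1)]
  have h5 : v.2.1 = w.2.1 := by linarith
  have h6 : v.2.2 = w.2.2 := by linarith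
  refine ext3 ?_ h5 h6
  have h7 : v.1 ^ 2 = w.1 ^ 2 := by rw [e1, e2, h5, h6]
  exact (sq_eq_sq₀ hv0.le hw0.le).mp h7

/-- tangent vectors are spacelike -/
theorem tangent_neg {v t : ℝ × ℝ × ℝ} (hv : Hyp v) (ht : lf v t = 0) :
    (t.2.1 ^ 2 + t.2.2 ^ 2) ≤ -lf t t * v.1 ^ 2 := by
  obtain ⟨hv1, hv0⟩ := hv
  unfold lf at *
  have e1 : v.2.1 ^ 2 + v.2.2 ^ 2 = v.1 ^ 2 - 1 := by linarith
  have h1 : v.1 * t.1 = v.2.1 * t.2.1 + v.2.2 * t.2.2 := by linarith
  have h2 : (v.1 * t.1) ^ 2 ≤ (v.2.1 ^ 2 + v.2.2 ^ 2) * (t.2.1 ^ 2 + t.2.2 ^ 2) := by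
    rw [h1]
    nlinarith [sq_nonneg (v.2.1 * t.2.2 - v.2.2 * t.2.1)]
  rw [e1] at h2
  nlinarith [h2]

theorem tangent_nonneg {v t : ℝ × ℝ × ℝ} (hv : Hyp v) (ht : lf v t = 0) : 0 ≤ -lf t t := by
  have h1 := tangent_neg hv ht
  have h2 : 0 ≤ t.2.1 ^ 2 + t.2.2 ^ 2 := by positivity
  have h3 : 0 < v.1 ^ 2 := pow_pos hv.2 2
  by_contra hcon
  push Not at hcon
  nlinarith

theorem tangent_zero {v t : ℝ × ℝ × ℝ} (hv : Hyp v) (ht : lf v t = 0) (h0 : lf t t = 0) :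
    t = 0 := by
  have h1 := tangent_neg hv ht
  rw [h0, neg_zero, zero_mul] at h1
  have h2 : t.2.1 = 0 := by nlinarith [sq_nonneg t.2.1, sq_nonneg t.2.2]
  have h3 : t.2.2 = 0 := by nlinarith [sq_nonneg t.2.1, sq_nonneg t.2.2]
  refine ext3 ?_ h2 h3
  unfold lf at ht
  rw [h2, h3, mul_zero, mul_zero, sub_zero, sub_zero] at ht
  exact (mul_eq_zero.mp ht).resolve_left hv.2.ne'

/-- unit tangent vectors -/
def UT (v u : ℝ × ℝ × ℝ) : Prop := lf v u = 0 ∧ lf u u = -1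

theorem lf_le_one {v u u' : ℝ × ℝ × ℝ} (hv : Hyp v) (hu : UT v u) (hu' : UT v u') :
    lf u u' ≤ 1 := by
  have h1 : lf v (u + u') = 0 := by rw [lf_add_right, hu.1, hu'.1, add_zero]
  have h2 := tangent_nonneg hv h1
  rw [lf_add_left, lf_add_right, lf_add_right, hu.2, hu'.2, lf_comm u' u] at h2
  linarith

theorem eq_neg_of_lf {v u u' : ℝ × ℝ × ℝ} (hv : Hyp v) (hu : UT v u) (hu' : UT v u')
    (h : lf u u' = 1) : u' = -u := by
  have h1 : lf v (u + u') = 0 := by rw [lf_add_right, hu.1, hu'.1, add_zero]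
  have h2 : lf (u + u') (u + u') = 0 := by
    rw [lf_add_left, lf_add_right, lf_add_right, hu.2, hu'.2, lf_comm u' u, h]; ring
  have h3 := tangent_zero hv h1 h2
  exact eq_neg_of_add_eq_zero_right h3

theorem exp_pos_comb {v u : ℝ × ℝ × ℝ} (hv : Hyp v) (hu : UT v u) (t : ℝ) :
    Hyp (Real.cosh t • v + Real.sinh t • u) := by
  have hcs := Real.cosh_sq t
  constructor
  · rw [lf_add_left, lf_add_right, lf_add_right, lf_smul_left, lf_smul_left, lf_smul_left,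
      lf_smul_left, lf_smul_right, lf_smul_right, lf_smul_right, lf_smul_right, lf_comm u v,
      hu.1, hu.2, hv.1]
    nlinarith
  · have h1 : u.1 ^ 2 < v.1 ^ 2 := by
      have h2 := tangent_neg hv hu.1
      rw [hu.2] at h2
      have h3 := hu.2
      have h4 := hv.1
      unfold lf at h3 h4
      have h5 := hv.2
      nlinarith
    have h2 : |u.1| < v.1 := by
      have := sq_lt_sq.mp h1
      rwa [abs_of_pos hv.2] at this
    have h3 : |Real.sinh t| < Real.cosh t := by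
      rw [← abs_of_pos (Real.cosh_pos t)]
      apply sq_lt_sq.mp
      linarith
    show 0 < Real.cosh t * v.1 + Real.sinh t * u.1
    have h4 : |Real.sinh t * u.1| < Real.cosh t * v.1 := by
      rw [abs_mul]
      exact mul_lt_mul'' h3 h2 (abs_nonneg _) (abs_nonneg _)
    linarith [neg_abs_le (Real.sinh t * u.1)]

theorem exists_ut {v : ℝ × ℝ × ℝ} (hv : Hyp v) : ∃ u, UT v u := by
  -- rotate the spatial part or use a coordinate direction
  obtain ⟨hv1, hv0⟩ := hv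
  by_cases h : v.2.1 = 0 ∧ v.2.2 = 0
  · refine ⟨(0, 1, 0), ?_, ?_⟩
    · unfold lf; simp [h.1]
    · unfold lf; simp
  · have hpos : 0 < v.2.1 ^ 2 + v.2.2 ^ 2 := by
      by_contra hcon
      push Not at hcon
      apply h
      constructor <;> nlinarith [sq_nonneg v.2.1, sq_nonneg v.2.2]
    set n := Real.sqrt (v.2.1 ^ 2 + v.2.2 ^ 2) with hn
    have hn0 : 0 < n := Real.sqrt_pos.mpr hpos
    have hn2 : n ^ 2 = v.2.1 ^ 2 + v.2.2 ^ 2 := Real.sq_sqrt hpos.le
    refine ⟨(0, -v.2.2 / n, v.2.1 / n), ?_, ?_⟩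
    · unfold lf
      simp only
      field_simp
      ring
    · unfold lf
      simp only
      field_simp
      nlinarith

/-- polar coordinates -/
theorem polar {v w : ℝ × ℝ × ℝ} (hv : Hyp v) (hw : Hyp w) :
    ∃ u, UT v u ∧ w = Real.cosh (Real.arcosh (lf v w)) • v +
      Real.sinh (Real.arcosh (lf v w)) • u := by
  have h1 := one_le_lf hv hw
  by_cases h : lf v w = 1
  · obtain ⟨u, hu⟩ := exists_ut hv
    refine ⟨u, hu, ?_⟩
    rw [h, Real.arcosh_zero, Real.cosh_zero, Real.sinh_zero, one_smul, zero_smul, add_zero]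
    exact (eq_of_lf hv hw h).symm
  · have h2 : 1 < lf v w := lt_of_le_of_ne h1 (Ne.symm h)
    set a := Real.arcosh (lf v w) with ha
    have hca : Real.cosh a = lf v w := Real.cosh_arcosh h1
    have ha0 : 0 < a := Real.arcosh_pos h2
    have hs : 0 < Real.sinh a := Real.sinh_pos_iff.mpr ha0
    have hcs := Real.cosh_sq a
    refine ⟨(Real.sinh a)⁻¹ • (w - Real.cosh a • v), ⟨?_, ?_⟩, ?_⟩
    · rw [lf_smul_right, lf_sub_right, lf_smul_right, hv.1, hca]; ring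
    · rw [lf_smul_left, lf_smul_right, lf_sub_left, lf_sub_right, lf_sub_right, lf_smul_left,
        lf_smul_left, lf_smul_right, lf_smul_right, hv.1, hw.1, lf_comm w v, ← hca]
      field_simp
      nlinarith
    · rw [smul_smul, mul_inv_cancel₀ hs.ne', one_smul]
      abel

theorem lf_polar {v u u' : ℝ × ℝ × ℝ} (hv : Hyp v) (hu : UT v u) (hu' : UT v u') (a c : ℝ) :
    lf (Real.cosh a • v + Real.sinh a • u) (Real.cosh c • v + Real.sinh c • u') =
      Real.cosh a * Real.cosh c + Real.sinh a * Real.sinh c * lf u u' := by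
  rw [lf_add_left, lf_add_right, lf_add_right, lf_smul_left, lf_smul_left, lf_smul_left,
    lf_smul_left, lf_smul_right, lf_smul_right, lf_smul_right, lf_smul_right, lf_comm u v,
    hu.1, hu'.1, hv.1]
  ring

/-! ### the disc -/

/-- lift to the hyperboloid -/
noncomputable def lift (X : ℝ × ℝ) : ℝ × ℝ × ℝ :=
  (1 / Real.sqrt (1 - (X.1 ^ 2 + X.2 ^ 2)), X.1 / Real.sqrt (1 - (X.1 ^ 2 + X.2 ^ 2)),
    X.2 / Real.sqrt (1 - (X.1 ^ 2 + X.2 ^ 2)))

theorem sqrt_pos_of {X : ℝ × ℝ} (hX : X ∈ disc) : 0 < Real.sqrt (1 - (X.1 ^ 2 + X.2 ^ 2)) := by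
  have : X.1 ^ 2 + X.2 ^ 2 < 1 := hX
  exact Real.sqrt_pos.mpr (by linarith)

theorem sqrt_sq_of {X : ℝ × ℝ} (hX : X ∈ disc) :
    Real.sqrt (1 - (X.1 ^ 2 + X.2 ^ 2)) ^ 2 = 1 - (X.1 ^ 2 + X.2 ^ 2) := by
  have : X.1 ^ 2 + X.2 ^ 2 < 1 := hX
  exact Real.sq_sqrt (by linarith)

theorem lift_hyp {X : ℝ × ℝ} (hX : X ∈ disc) : Hyp (lift X) := by
  have h1 := sqrt_pos_of hX
  have h2 := sqrt_sq_of hX
  constructor
  · unfold lf lift
    simp only
    field_simp
    nlinarith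
  · unfold lift
    simp only
    positivity

theorem arc_eq (x : ℝ) : arc x = Real.arcosh x := rfl

theorem klein_eq (X Y : ℝ × ℝ) : kleinDist X Y = Real.arcosh (lf (lift X) (lift Y)) := by
  unfold kleinDist
  rw [arc_eq]
  congr 1
  unfold lf lift
  simp only
  by_cases h1 : Real.sqrt (1 - (X.1 ^ 2 + X.2 ^ 2)) = 0
  · rw [h1]; simp
  by_cases h2 : Real.sqrt (1 - (Y.1 ^ 2 + Y.2 ^ 2)) = 0
  · rw [h2]; simp
  field_simp
  ring

/-- projection to the disc -/
noncomputable def proj (v : ℝ × ℝ × ℝ) : ℝ × ℝ := (v.2.1 / v.1, v.2.2 / v.1)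

theorem proj_mem {v : ℝ × ℝ × ℝ} (hv : Hyp v) : proj v ∈ disc := by
  obtain ⟨h1, h0⟩ := hv
  show (v.2.1 / v.1) ^ 2 + (v.2.2 / v.1) ^ 2 < 1
  unfold lf at h1
  rw [div_pow, div_pow, ← add_div, div_lt_one (by positivity)]
  nlinarith

theorem lift_proj {v : ℝ × ℝ × ℝ} (hv : Hyp v) : lift (proj v) = v := by
  obtain ⟨h1, h0⟩ := hv
  unfold lf at h1
  have h2 : Real.sqrt (1 - ((v.2.1 / v.1) ^ 2 + (v.2.2 / v.1) ^ 2)) = 1 / v.1 := by
    have h3 : 1 - ((v.2.1 / v.1) ^ 2 + (v.2.2 / v.1) ^ 2) = (1 / v.1) ^ 2 := by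
      field_simp
      nlinarith
    rw [h3, Real.sqrt_sq (by positivity)]
  unfold lift proj
  simp only
  rw [h2]
  refine ext3 ?_ ?_ ?_ <;> simp only <;> field_simp

theorem proj_lift {X : ℝ × ℝ} (hX : X ∈ disc) : proj (lift X) = X := by
  have h1 := sqrt_pos_of hX
  unfold proj lift
  simp only
  refine Prod.ext ?_ ?_ <;> simp only <;> field_simp

theorem lift_injOn {X Y : ℝ × ℝ} (hX : X ∈ disc) (hY : Y ∈ disc) (h : lift X = lift Y) :
    X = Y := by
  rw [← proj_lift hX, ← proj_lift hY, h]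

/-- `lift X = s⁻¹ (1, X)` -/
theorem lift_eq_smul (X : ℝ × ℝ) :
    lift X = (Real.sqrt (1 - (X.1 ^ 2 + X.2 ^ 2)))⁻¹ • ((1 : ℝ), X.1, X.2) := by
  unfold lift
  refine ext3 ?_ ?_ ?_ <;> simp only [Prod.smul_fst, Prod.smul_snd, smul_eq_mul] <;> ring

/-- combinations of lifts project to affine combinations -/
theorem proj_comb {X Y : ℝ × ℝ} (p q : ℝ) (h : (p • lift X + q • lift Y).1 ≠ 0) :
    ∃ l m : ℝ, l + m = 1 ∧ proj (p • lift X + q • lift Y) = l • X + m • Y ∧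
      l = p * (lift X).1 / (p • lift X + q • lift Y).1 ∧
      m = q * (lift Y).1 / (p • lift X + q • lift Y).1 := by
  refine ⟨_, _, ?_, ?_, rfl, rfl⟩
  · rw [← add_div]
    exact div_self h
  · unfold proj
    have e1 : (lift X).2.1 = (lift X).1 * X.1 := by unfold lift; simp only; ring
    have e2 : (lift X).2.2 = (lift X).1 * X.2 := by unfold lift; simp only; ring
    have e3 : (lift Y).2.1 = (lift Y).1 * Y.1 := by unfold lift; simp only; ring
    have e4 : (lift Y).2.2 = (lift Y).1 * Y.2 := by unfold lift; simp only; ring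
    refine Prod.ext ?_ ?_
    · simp only [Prod.fst_add, Prod.snd_add, Prod.smul_fst, Prod.smul_snd, smul_eq_mul, e1, e3] at h ⊢
      field_simp
    · simp only [Prod.fst_add, Prod.snd_add, Prod.smul_fst, Prod.smul_snd, smul_eq_mul, e2, e4] at h ⊢
      field_simp

/-- affine combinations lift to combinations -/
theorem lift_comb {X Y Z : ℝ × ℝ} (hX : X ∈ disc) (hY : Y ∈ disc) {l m : ℝ}
    (hlm : l + m = 1) (hZ : Z = l • X + m • Y) :
    lift Z = ((Real.sqrt (1 - (Z.1 ^ 2 + Z.2 ^ 2)))⁻¹ * (l * Real.sqrt (1 - (X.1 ^ 2 + X.2 ^ 2)))) •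
        lift X +
      ((Real.sqrt (1 - (Z.1 ^ 2 + Z.2 ^ 2)))⁻¹ * (m * Real.sqrt (1 - (Y.1 ^ 2 + Y.2 ^ 2)))) •
        lift Y := by
  have h1 := (sqrt_pos_of hX).ne'
  have h2 := (sqrt_pos_of hY).ne'
  rw [lift_eq_smul Z, lift_eq_smul X, lift_eq_smul Y, smul_smul, smul_smul]
  have e1 : (Real.sqrt (1 - (Z.1 ^ 2 + Z.2 ^ 2)))⁻¹ * (l * Real.sqrt (1 - (X.1 ^ 2 + X.2 ^ 2))) *
      (Real.sqrt (1 - (X.1 ^ 2 + X.2 ^ 2)))⁻¹ = (Real.sqrt (1 - (Z.1 ^ 2 + Z.2 ^ 2)))⁻¹ * l := by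
    field_simp
  have e2 : (Real.sqrt (1 - (Z.1 ^ 2 + Z.2 ^ 2)))⁻¹ * (m * Real.sqrt (1 - (Y.1 ^ 2 + Y.2 ^ 2))) *
      (Real.sqrt (1 - (Y.1 ^ 2 + Y.2 ^ 2)))⁻¹ = (Real.sqrt (1 - (Z.1 ^ 2 + Z.2 ^ 2)))⁻¹ * m := by
    field_simp
  rw [e1, e2, mul_smul, mul_smul, ← smul_add]
  congr 1
  rw [hZ]
  refine ext3 ?_ ?_ ?_ <;>
    simp only [Prod.fst_add, Prod.snd_add, Prod.smul_fst, Prod.smul_snd, smul_eq_mul]
  rw [mul_one, mul_one, hlm]

theorem cosh_klein {X Y : ℝ × ℝ} (hX : X ∈ disc) (hY : Y ∈ disc) :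
    Real.cosh (kleinDist X Y) = lf (lift X) (lift Y) := by
  rw [klein_eq]
  exact Real.cosh_arcosh (one_le_lf (lift_hyp hX) (lift_hyp hY))

theorem klein_nonneg {X Y : ℝ × ℝ} (hX : X ∈ disc) (hY : Y ∈ disc) : 0 ≤ kleinDist X Y := by
  rw [klein_eq]
  exact Real.arcosh_nonneg (one_le_lf (lift_hyp hX) (lift_hyp hY))

theorem klein_symm (X Y : ℝ × ℝ) : kleinDist X Y = kleinDist Y X := by
  rw [klein_eq, klein_eq, lf_comm]

theorem klein_polar {X Y : ℝ × ℝ} (hX : X ∈ disc) (hY : Y ∈ disc) :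
    ∃ u, UT (lift X) u ∧ lift Y = Real.cosh (kleinDist X Y) • lift X +
      Real.sinh (kleinDist X Y) • u := by
  rw [klein_eq]
  exact polar (lift_hyp hX) (lift_hyp hY)

theorem klein_pos {X Y : ℝ × ℝ} (hX : X ∈ disc) (hY : Y ∈ disc) (h : X ≠ Y) :
    0 < kleinDist X Y := by
  rw [klein_eq]
  apply Real.arcosh_pos
  apply lt_of_le_of_ne (one_le_lf (lift_hyp hX) (lift_hyp hY))
  intro h1
  exact h (lift_injOn hX hY (eq_of_lf (lift_hyp hX) (lift_hyp hY) h1.symm))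

theorem klein_self {X : ℝ × ℝ} (hX : X ∈ disc) : kleinDist X X = 0 := by
  rw [klein_eq, (lift_hyp hX).1, Real.arcosh_zero]

theorem klein_triangle {X Y Z : ℝ × ℝ} (hX : X ∈ disc) (hY : Y ∈ disc) (hZ : Z ∈ disc) :
    kleinDist X Z ≤ kleinDist X Y + kleinDist Y Z ∧
    (kleinDist X Y + kleinDist Y Z = kleinDist X Z → Y ∈ segment ℝ X Z) := by
  obtain ⟨u, hu, hu'⟩ := klein_polar hY hX
  obtain ⟨w, hw, hw'⟩ := klein_polar hY hZ
  rw [klein_symm Y X] at hu'
  set a := kleinDist X Y with ha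
  set c := kleinDist Y Z with hc
  have ha0 : 0 ≤ a := klein_nonneg hX hY
  have hc0 : 0 ≤ c := klein_nonneg hY hZ
  have hsa : 0 ≤ Real.sinh a := Real.sinh_nonneg_iff.mpr ha0
  have hsc : 0 ≤ Real.sinh c := Real.sinh_nonneg_iff.mpr hc0
  have h1 : Real.cosh (kleinDist X Z) = Real.cosh a * Real.cosh c +
      Real.sinh a * Real.sinh c * lf u w := by
    rw [cosh_klein hX hZ]
    conv_lhs => rw [hu', hw']
    exact lf_polar (lift_hyp hY) hu hw a c
  have h2 := lf_le_one (lift_hyp hY) hu hw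
  have h3 := Real.cosh_add a c
  have h4 : Real.cosh (kleinDist X Z) ≤ Real.cosh (a + c) := by
    rw [h1, h3]
    nlinarith [mul_nonneg hsa hsc]
  refine ⟨?_, ?_⟩
  · have h5 := (Real.cosh_le_cosh).mp h4
    rwa [abs_of_nonneg (klein_nonneg hX hZ), abs_of_nonneg (add_nonneg ha0 hc0)] at h5
  · intro heq
    by_cases hXY : X = Y
    · rw [hXY]; exact left_mem_segment ℝ Y Z
    by_cases hYZ : Y = Z
    · rw [hYZ]; exact right_mem_segment ℝ X Z
    have ha1 : 0 < a := klein_pos hX hY hXY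
    have hc1 : 0 < c := klein_pos hY hZ hYZ
    have hsa1 : 0 < Real.sinh a := Real.sinh_pos_iff.mpr ha1
    have hsc1 : 0 < Real.sinh c := Real.sinh_pos_iff.mpr hc1
    rw [← heq, h3] at h1
    have h5 : lf u w = 1 := by
      have h6 : Real.sinh a * Real.sinh c * (lf u w - 1) = 0 := by linarith
      have h7 := (mul_eq_zero.mp h6).resolve_left (mul_pos hsa1 hsc1).ne'
      linarith
    have h6 := eq_neg_of_lf (lift_hyp hY) hu hw h5
    have hsac : 0 < Real.sinh (a + c) := Real.sinh_pos_iff.mpr (by linarith)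
    have h7 : lift Y = (Real.sinh c / Real.sinh (a + c)) • lift X +
        (Real.sinh a / Real.sinh (a + c)) • lift Z := by
      rw [hu', hw', h6]
      have e1 := Real.sinh_add a c
      rw [smul_add, smul_add, smul_smul, smul_smul, smul_smul, smul_smul, smul_neg]
      have e2 : Real.sinh c / Real.sinh (a + c) * Real.sinh a =
          Real.sinh a / Real.sinh (a + c) * Real.sinh c := by ring
      rw [e2]
      have e3 : (Real.sinh c / Real.sinh (a + c) * Real.cosh a) • lift Y +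
          (Real.sinh a / Real.sinh (a + c) * Real.sinh c) • u +
          ((Real.sinh a / Real.sinh (a + c) * Real.cosh c) • lift Y +
          -((Real.sinh a / Real.sinh (a + c) * Real.sinh c) • u)) =
          (Real.sinh c / Real.sinh (a + c) * Real.cosh a +
            Real.sinh a / Real.sinh (a + c) * Real.cosh c) • lift Y := by
        rw [add_smul]; abel
      rw [e3]
      have e4 : Real.sinh c / Real.sinh (a + c) * Real.cosh a +
            Real.sinh a / Real.sinh (a + c) * Real.cosh c = 1 := by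
        rw [e1]
        rw [e1] at hsac
        field_simp
        ring
      rw [e4, one_smul]
    have h8 := (lift_hyp hY).2
    have h9 : ((Real.sinh c / Real.sinh (a + c)) • lift X +
        (Real.sinh a / Real.sinh (a + c)) • lift Z).1 ≠ 0 := by
      rw [← h7]; exact h8.ne'
    obtain ⟨l, m, hlm, hproj, hl, hm⟩ := proj_comb _ _ h9
    rw [← h7, proj_lift hY] at hproj
    refine ⟨l, m, ?_, ?_, hlm, hproj.symm⟩
    · rw [hl, ← h7]
      have := (lift_hyp hX).2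
      positivity
    · rw [hm, ← h7]
      have := (lift_hyp hZ).2
      positivity

theorem arcosh_cosh' (x : ℝ) : Real.arcosh (Real.cosh x) = |x| := by
  rw [← Real.cosh_abs, Real.arcosh_cosh (abs_nonneg x)]

theorem klein_line {X Y : ℝ × ℝ} (hX : X ∈ disc) (hY : Y ∈ disc) (h : X ≠ Y) :
    ∃ γ : ℝ → ℝ × ℝ,
    (∀ s t, kleinDist (γ s) (γ t) = |s - t|) ∧ range γ = disc ∩ line[ℝ, X, Y] := by
  obtain ⟨u, hu, hu'⟩ := klein_polar hX hY
  set a := kleinDist X Y with ha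
  have ha1 : 0 < a := klein_pos hX hY h
  have hsa : 0 < Real.sinh a := Real.sinh_pos_iff.mpr ha1
  have hv := lift_hyp hX
  have hG := fun t => exp_pos_comb hv hu t
  refine ⟨fun t => proj (Real.cosh t • lift X + Real.sinh t • u), ?_, ?_⟩
  · intro s t
    rw [klein_eq, lift_proj (hG s), lift_proj (hG t), lf_polar hv hu hu, hu.2]
    have e1 : Real.cosh s * Real.cosh t + Real.sinh s * Real.sinh t * -1 = Real.cosh (s - t) := by
      rw [Real.cosh_sub]; ring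
    rw [e1, arcosh_cosh']
  · have hu2 : u = (Real.sinh a)⁻¹ • lift Y - (Real.sinh a)⁻¹ • (Real.cosh a • lift X) := by
      rw [hu', smul_add, smul_smul (Real.sinh a)⁻¹ (Real.sinh a) u, inv_mul_cancel₀ hsa.ne', one_smul]
      abel
    apply Set.Subset.antisymm
    · rintro _ ⟨t, rfl⟩
      refine ⟨proj_mem (hG t), ?_⟩
      have e1 : Real.cosh t • lift X + Real.sinh t • u =
          (Real.cosh t - Real.sinh t * (Real.sinh a)⁻¹ * Real.cosh a) • lift X +
          (Real.sinh t * (Real.sinh a)⁻¹) • lift Y := by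
        rw [hu2, smul_sub, smul_smul, smul_smul, smul_smul, sub_smul]
        abel
      have h9 := (hG t).2.ne'
      rw [e1] at h9
      obtain ⟨l, m, hlm, hproj, -, -⟩ := proj_comb _ _ h9
      show proj (Real.cosh t • lift X + Real.sinh t • u) ∈ line[ℝ, X, Y]
      rw [e1, hproj]
      have e2 : l • X + m • Y = AffineMap.lineMap X Y m := by
        rw [AffineMap.lineMap_apply_module]
        have : l = 1 - m := by linarith
        rw [this]
      rw [e2]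
      exact AffineMap.lineMap_mem_affineSpan_pair m X Y
    · rintro Z ⟨hZ, hZl⟩
      obtain ⟨m, hm⟩ := mem_affineSpan_pair_iff_exists_lineMap_eq.mp hZl
      rw [AffineMap.lineMap_apply_module] at hm
      have h1 := lift_comb hX hY (l := 1 - m) (m := m) (by ring) hm.symm
      set α := (Real.sqrt (1 - (Z.1 ^ 2 + Z.2 ^ 2)))⁻¹ *
        ((1 - m) * Real.sqrt (1 - (X.1 ^ 2 + X.2 ^ 2))) with hα
      set β := (Real.sqrt (1 - (Z.1 ^ 2 + Z.2 ^ 2)))⁻¹ *
        (m * Real.sqrt (1 - (Y.1 ^ 2 + Y.2 ^ 2))) with hβ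
      have h2 : lift Z = (α + β * Real.cosh a) • lift X + (β * Real.sinh a) • u := by
        rw [h1, hu', smul_add, smul_smul, smul_smul, add_smul]
        abel
      have hZH := lift_hyp hZ
      have h3 : 1 ≤ α + β * Real.cosh a := by
        have h4 := one_le_lf hv hZH
        rw [h2, lf_add_right, lf_smul_right, lf_smul_right, hv.1, hu.1] at h4
        linarith
      have h4 : (α + β * Real.cosh a) ^ 2 = 1 + (β * Real.sinh a) ^ 2 := by
        have h5 := hZH.1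
        rw [h2, lf_add_left, lf_add_right, lf_add_right, lf_smul_left, lf_smul_left, lf_smul_left,
          lf_smul_left, lf_smul_right, lf_smul_right, lf_smul_right, lf_smul_right, lf_comm u,
          hu.1, hu.2, hv.1] at h5
        linarith
      refine ⟨Real.arsinh (β * Real.sinh a), ?_⟩
      have h5 : Real.cosh (Real.arsinh (β * Real.sinh a)) = α + β * Real.cosh a := by
        rw [Real.cosh_arsinh, ← h4, Real.sqrt_sq (by linarith)]
      show proj _ = Z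
      rw [h5, Real.sinh_arsinh, ← h2, proj_lift hZ]

theorem klein_plane : StraightPlane disc kleinDist := by
  refine ⟨?_, ?_, ?_, fun X hX => klein_self hX, fun X hX Y hY h => klein_pos hX hY h,
    fun X _ Y _ => klein_symm X Y, fun X hX Y hY Z hZ => (klein_triangle hX hY hZ).1, ?_,
    fun X hX Y hY h => klein_line hX hY h, fun X hX Y hY Z hZ => (klein_triangle hX hY hZ).2⟩
  · exact isOpen_lt (by fun_prop) continuous_const
  · intro X hX Y hY a b ha hb hab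
    have h1 : X.1 ^ 2 + X.2 ^ 2 < 1 := hX
    have h2 : Y.1 ^ 2 + Y.2 ^ 2 < 1 := hY
    show (a * X.1 + b * Y.1) ^ 2 + (a * X.2 + b * Y.2) ^ 2 < 1
    have hb' : b = 1 - a := by linarith
    subst hb'
    have h3 : (a * X.1 + (1 - a) * Y.1) ^ 2 + (a * X.2 + (1 - a) * Y.2) ^ 2 =
        a * (X.1 ^ 2 + X.2 ^ 2) + (1 - a) * (Y.1 ^ 2 + Y.2 ^ 2) -
        a * (1 - a) * ((X.1 - Y.1) ^ 2 + (X.2 - Y.2) ^ 2) := by ring
    rw [h3]
    have h4 : 0 ≤ a * (1 - a) * ((X.1 - Y.1) ^ 2 + (X.2 - Y.2) ^ 2) := by positivity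
    rcases ha.eq_or_lt with h5 | h5
    · subst h5; simp only [zero_mul, sub_zero, one_mul, zero_add]; exact h2
    · nlinarith
  · exact ⟨(0, 0), by show (0 : ℝ) ^ 2 + 0 ^ 2 < 1; norm_num⟩
  · have h1 : (fun p : (ℝ × ℝ) × (ℝ × ℝ) => kleinDist p.1 p.2) = fun p => Real.arcosh
        ((1 - (p.1.1 * p.2.1 + p.1.2 * p.2.2)) /
        (Real.sqrt (1 - (p.1.1 ^ 2 + p.1.2 ^ 2)) * Real.sqrt (1 - (p.2.1 ^ 2 + p.2.2 ^ 2)))) := rfl
    rw [h1]
    apply Real.continuousOn_arcosh.comp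
    · apply ContinuousOn.div
      · fun_prop
      · fun_prop
      · rintro ⟨X, Y⟩ ⟨hX, hY⟩
        exact (mul_pos (sqrt_pos_of hX) (sqrt_pos_of hY)).ne'
    · rintro ⟨X, Y⟩ ⟨hX, hY⟩
      have h2 := one_le_lf (lift_hyp hX) (lift_hyp hY)
      have h3 : lf (lift X) (lift Y) = (1 - (X.1 * Y.1 + X.2 * Y.2)) /
        (Real.sqrt (1 - (X.1 ^ 2 + X.2 ^ 2)) * Real.sqrt (1 - (Y.1 ^ 2 + Y.2 ^ 2))) := by
        have h4 := sqrt_pos_of hX
        have h5 := sqrt_pos_of hY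
        unfold lf lift
        simp only
        field_simp
        ring
      rw [h3] at h2
      exact h2

theorem sinh_half_sq (x : ℝ) : Real.sinh (x / 2) ^ 2 = (Real.cosh x - 1) / 2 := by
  have h1 := Real.cosh_two_mul (x / 2)
  have h2 := Real.cosh_sq (x / 2)
  have h3 : 2 * (x / 2) = x := by ring
  rw [h3] at h1
  linarith

theorem klein_identity : CircleIdentity Real.sinh disc kleinDist := by
  intro O hO r hr A hA B hB P hP hOA hOB hOAB hOP _
  obtain ⟨u, hu, hu'⟩ := klein_polar hO hA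
  obtain ⟨w, hw, hw'⟩ := klein_polar hO hB
  rw [hOA] at hu'
  rw [hOB] at hw'
  have hv := lift_hyp hO
  have hsr : 0 < Real.sinh r := Real.sinh_pos_iff.mpr hr
  obtain ⟨l, m, hl, hm, hlm, hO'⟩ := hOAB
  have h1 := lift_comb hA hB hlm hO'.symm
  have hsO := sqrt_pos_of hO
  have hsA := sqrt_pos_of hA
  have hsB := sqrt_pos_of hB
  set p := (Real.sqrt (1 - (O.1 ^ 2 + O.2 ^ 2)))⁻¹ * (l * Real.sqrt (1 - (A.1 ^ 2 + A.2 ^ 2))) with hp
  set q := (Real.sqrt (1 - (O.1 ^ 2 + O.2 ^ 2)))⁻¹ * (m * Real.sqrt (1 - (B.1 ^ 2 + B.2 ^ 2))) with hq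
  have hp0 : 0 < p := by positivity
  have hq0 : 0 < q := by positivity
  -- p u + q w = 0
  have h2 : lift O = (p * Real.cosh r + q * Real.cosh r) • lift O + (Real.sinh r) • (p • u + q • w) := by
    conv_lhs => rw [h1, hu', hw']
    rw [smul_add, smul_add, smul_smul, smul_smul, smul_smul, smul_smul, add_smul, smul_add,
      smul_smul, smul_smul, mul_comm (Real.sinh r) p, mul_comm (Real.sinh r) q]
    abel
  have h3 : p * Real.cosh r + q * Real.cosh r = 1 := by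
    have h4 := congrArg (lf (lift O)) h2
    rw [lf_add_right, lf_smul_right, lf_smul_right, lf_add_right, lf_smul_right, lf_smul_right,
      hu.1, hw.1, hv.1] at h4
    linarith
  rw [h3, one_smul] at h2
  have h4 : Real.sinh r • (p • u + q • w) = 0 := by
    have := h2
    exact (left_eq_add.mp this)
  have h5 : p • u + q • w = 0 := (smul_eq_zero.mp h4).resolve_left hsr.ne'
  have h6 : p = q := by
    have h7 := congrArg (lf u) h5
    have h8 := congrArg (lf w) h5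
    have h0 : ∀ x, lf x 0 = 0 := by intro x; unfold lf; simp
    rw [lf_add_right, lf_smul_right, lf_smul_right, hu.2, h0] at h7
    rw [lf_add_right, lf_smul_right, lf_smul_right, hw.2, h0, lf_comm w u] at h8
    have h9 : p ^ 2 = q ^ 2 := by nlinarith
    exact (sq_eq_sq₀ hp0.le hq0.le).mp h9
  have h7 : w = -u := by
    rw [← h6, ← smul_add] at h5
    exact eq_neg_of_add_eq_zero_right ((smul_eq_zero.mp h5).resolve_left hp0.ne')
  rw [sinh_half_sq, sinh_half_sq, cosh_klein hA hP, cosh_klein hB hP]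
  have h8 : lf (lift A) (lift P) + lf (lift B) (lift P) = 2 * Real.cosh r * Real.cosh r := by
    rw [← lf_add_left, hu', hw', h7]
    have e1 : Real.cosh r • lift O + Real.sinh r • u + (Real.cosh r • lift O + Real.sinh r • -u) =
        (2 * Real.cosh r) • lift O := by
      rw [smul_neg, two_mul, add_smul]; abel
    rw [e1, lf_smul_left, ← cosh_klein hO hP, hOP]
  have h9 := Real.cosh_sq r
  have e2 : (lf (lift A) (lift P) - 1) / 2 + (lf (lift B) (lift P) - 1) / 2 =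
    (lf (lift A) (lift P) + lf (lift B) (lift P) - 2) / 2 := by ring
  rw [e2, h8]
  nlinarith

end Pool.Agent.Helper87.Thales.Klein
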