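import Pool.Agent.Helper87.ThalesSanity
import Pool.Agent.Helper87.ThalesSanityK

set_option autoImplicit false

open Filter Topology Set

namespace Pool.Agent.Helper87.Conics

open Pool.Agent.Helper87.Thales

theorem euclid_proper : ∀ X ∈ (univ : Set (ℝ × ℝ)), ∀ r : ℝ, ∃ K ⊆ (univ : Set (ℝ × ℝ)),
    IsCompact K ∧ ∀ Y ∈ (univ : Set (ℝ × ℝ)), euclidDist X Y ≤ r → Y ∈ K := by
  intro X _ r
  refine ⟨Metric.closedBall X r, subset_univ _, isCompact_closedBall X r, fun Y _ hY => ?_⟩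
  rw [Metric.mem_closedBall, Prod.dist_eq, Real.dist_eq, Real.dist_eq]
  have h : ∀ a b : ℝ, |a| ≤ Real.sqrt (a ^ 2 + b ^ 2) := fun a b => by
    rw [← Real.sqrt_sq_eq_abs]
    exact Real.sqrt_le_sqrt (by nlinarith [sq_nonneg b])
  have h1 := h (X.1 - Y.1) (X.2 - Y.2)
  have h2 := h (X.2 - Y.2) (X.1 - Y.1)
  rw [add_comm ((X.2 - Y.2) ^ 2)] at h2
  have e : euclidDist X Y = Real.sqrt ((X.1 - Y.1) ^ 2 + (X.2 - Y.2) ^ 2) := rfl
  rw [e] at hY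
  rw [abs_sub_comm Y.1, abs_sub_comm Y.2]
  exact max_le (h1.trans hY) (h2.trans hY)

theorem klein_proper : ∀ X ∈ disc, ∀ r : ℝ, ∃ K ⊆ disc,
    IsCompact K ∧ ∀ Y ∈ disc, Klein.kleinDist X Y ≤ r → Y ∈ K := by
  intro X hX r
  have hO : ((0, 0) : ℝ × ℝ) ∈ disc := by simp [disc]
  obtain ⟨R, hR⟩ : ∃ R, R = Klein.kleinDist (0, 0) X + |r| := ⟨_, rfl⟩
  have hR0 : 0 ≤ R := by
    rw [hR]
    exact add_nonneg (Klein.klein_nonneg hO hX) (abs_nonneg r)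
  obtain ⟨ρ, hρ⟩ : ∃ ρ, ρ = 1 - 1 / Real.cosh R ^ 2 := ⟨_, rfl⟩
  have hc := Real.cosh_pos R
  refine ⟨{Y : ℝ × ℝ | Y.1 ^ 2 + Y.2 ^ 2 ≤ ρ}, ?_, ?_, ?_⟩
  · intro Y hY
    have hY' : Y.1 ^ 2 + Y.2 ^ 2 ≤ ρ := hY
    show Y.1 ^ 2 + Y.2 ^ 2 < 1
    have : 0 < 1 / Real.cosh R ^ 2 := by positivity
    linarith
  · apply Metric.isCompact_of_isClosed_isBounded
    · exact isClosed_le (by fun_prop) continuous_const
    · rw [isBounded_iff_forall_norm_le]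
      refine ⟨1, fun Y hY => ?_⟩
      have hY' : Y.1 ^ 2 + Y.2 ^ 2 ≤ ρ := hY
      have : 0 < 1 / Real.cosh R ^ 2 := by positivity
      have h1 : Y.1 ^ 2 ≤ 1 := by nlinarith [sq_nonneg Y.2]
      have h2 : Y.2 ^ 2 ≤ 1 := by nlinarith [sq_nonneg Y.1]
      rw [Prod.norm_def, Real.norm_eq_abs, Real.norm_eq_abs]
      exact max_le (abs_le_one_iff_mul_self_le_one.2 (by nlinarith))
        (abs_le_one_iff_mul_self_le_one.2 (by nlinarith))
  · intro Y hY hd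
    have h1 : Klein.kleinDist (0, 0) Y ≤ R := by
      rw [hR]
      have := Klein.klein_triangle hO hX hY
      have := le_abs_self r
      linarith
    have h2 := Klein.cosh_klein hO hY
    have h4 : Klein.lf (Klein.lift (0, 0)) (Klein.lift Y) =
        1 / Real.sqrt (1 - (Y.1 ^ 2 + Y.2 ^ 2)) := by
      simp [Klein.lf, Klein.lift]
    have hs := Klein.sqrt_pos_of hY
    have hs2 := Klein.sqrt_sq_of hY
    have h3 : Real.cosh (Klein.kleinDist (0, 0) Y) ≤ Real.cosh R :=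
      Real.cosh_le_cosh.2 (by rw [abs_of_nonneg (Klein.klein_nonneg hO hY), abs_of_nonneg hR0]; exact h1)
    rw [h2, h4, div_le_iff₀ hs] at h3
    show Y.1 ^ 2 + Y.2 ^ 2 ≤ ρ
    rw [hρ]
    have h5 : 1 ≤ Real.cosh R ^ 2 * (1 - (Y.1 ^ 2 + Y.2 ^ 2)) := by
      rw [← hs2]
      nlinarith
    have h6 : 1 / Real.cosh R ^ 2 ≤ 1 - (Y.1 ^ 2 + Y.2 ^ 2) := by
      rw [div_le_iff₀ (by positivity)]
      linarith
    linarith

end Pool.Agent.Helper87.Conics
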