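import Mathlib

set_option autoImplicit false

namespace Pool.Agent.Helper87.Erdos

/-- A Hilbert domain: a nonempty open convex proper subset of the plane whose closure is strictly
convex (no segment in the boundary); it may be unbounded. -/
structure IsHilbertDomain (M : Set (ℝ × ℝ)) : Prop where
  isOpen : IsOpen M
  convex : Convex ℝ M
  nonempty : M.Nonempty
  ne_univ : M ≠ Set.univ
  strict : StrictConvex ℝ (closure M)

/-- The Hilbert distance. `gauge (M - X) v` is `1 / t` where `X + t v` is the end of `M` on the ray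
from `X` in the direction `v`, and it is `0` if the whole ray lies in `M` (end at infinity). With
`v = Y - X` and chord ends `A = X - s v`, `B = X + t v` this is
`(1/2) log ((1 + 1/s) / (1 - 1/t)) = (1/2) log (|AY||XB| / (|AX||YB|))`. -/
noncomputable def hdist (M : Set (ℝ × ℝ)) (X Y : ℝ × ℝ) : ℝ :=
  (1 / 2) * Real.log ((1 + gauge ((fun z => z - X) '' M) (X - Y)) /
    (1 - gauge ((fun z => z - X) '' M) (Y - X)))

/-- `F` is a foot of `O` on the line `BC`: a point of the line inside `M` nearest to `O`. -/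
def IsFoot (M : Set (ℝ × ℝ)) (O B C F : ℝ × ℝ) : Prop :=
  F ∈ affineSpan ℝ ({B, C} : Set (ℝ × ℝ)) ∧ F ∈ M ∧
    ∀ X ∈ affineSpan ℝ ({B, C} : Set (ℝ × ℝ)), X ∈ M → hdist M O F ≤ hdist M O X

/-- A configuration: a triangle `ABC` in `M`, a point `O` inside it (positive barycentric
coordinates), and feet `P`, `Q`, `R` of `O` on `BC`, `CA`, `AB`. -/
def IsConfig (M : Set (ℝ × ℝ)) (A B C O P Q R : ℝ × ℝ) : Prop :=
  A ∈ M ∧ B ∈ M ∧ C ∈ M ∧ ¬ Collinear ℝ {A, B, C} ∧
    (∃ α β γ : ℝ, 0 < α ∧ 0 < β ∧ 0 < γ ∧ α + β + γ = 1 ∧ O = α • A + β • B + γ • C) ∧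
    IsFoot M O B C P ∧ IsFoot M O C A Q ∧ IsFoot M O A B R

/-- The ratio of a configuration. -/
noncomputable def configRatio (M : Set (ℝ × ℝ)) (A B C O P Q R : ℝ × ℝ) : ℝ :=
  (Real.tanh (hdist M O A) + Real.tanh (hdist M O B) + Real.tanh (hdist M O C)) /
    (Real.tanh (hdist M O P) + Real.tanh (hdist M O Q) + Real.tanh (hdist M O R))

/-- The Erdős ratio of `M`: the infimum of the ratios of all configurations. -/
noncomputable def erdosRatio (M : Set (ℝ × ℝ)) : ℝ :=
  sInf {ϱ : ℝ | ∃ A B C O P Q R : ℝ × ℝ, IsConfig M A B C O P Q R ∧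
    ϱ = configRatio M A B C O P Q R}

/-- The domain of the Cayley-Klein model of the hyperbolic plane. -/
def unitDisc : Set (ℝ × ℝ) := {p | p.1 ^ 2 + p.2 ^ 2 < 1}

end Pool.Agent.Helper87.Erdos
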