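import Pool.Agent.Helper87.ErdosUpper2

set_option autoImplicit false

namespace Pool.Agent.Helper87.Erdos

open Set Filter Topology ComplexConjugate

/-- Erdős–Mordell inequality for three complex numbers around the origin -/
lemma em_complex (a b c : ℂ) (hab : 0 < (conj a * b).im) (hbc : 0 < (conj b * c).im)
    (hca : 0 < (conj c * a).im) :
    2 * ((conj a * b).im / ‖a - b‖ + (conj b * c).im / ‖b - c‖ + (conj c * a).im / ‖c - a‖)
      ≤ ‖a‖ + ‖b‖ + ‖c‖ := by
  obtain ⟨A, hA⟩ := IsAlgClosed.exists_pow_nat_eq a (n := 2) (by norm_num)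
  -- choose signs
  obtain ⟨B, hB, hxre⟩ : ∃ B : ℂ, B^2 = b ∧ 0 ≤ (conj A * B).re := by
    obtain ⟨B, hB⟩ := IsAlgClosed.exists_pow_nat_eq b (n := 2) (by norm_num)
    rcases le_total 0 (conj A * B).re with h | h
    · exact ⟨B, hB, h⟩
    · refine ⟨-B, by rw [neg_sq, hB], ?_⟩
      rw [mul_neg, Complex.neg_re]; linarith
  obtain ⟨C, hC, hyre⟩ : ∃ C : ℂ, C^2 = c ∧ 0 ≤ (conj B * C).re := by
    obtain ⟨C, hC⟩ := IsAlgClosed.exists_pow_nat_eq c (n := 2) (by norm_num)
    rcases le_total 0 (conj B * C).re with h | h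
    · exact ⟨C, hC, h⟩
    · refine ⟨-C, by rw [neg_sq, hC], ?_⟩
      rw [mul_neg, Complex.neg_re]; linarith
  subst hA hB hC
  obtain ⟨a1, a2⟩ := A
  obtain ⟨b1, b2⟩ := B
  obtain ⟨c1, c2⟩ := C
  -- general facts
  have hsq : ∀ X Y : ℂ, (conj (X^2) * Y^2).im = 2 * (conj X * Y).re * (conj X * Y).im := by
    intro X Y
    have : conj (X^2) * Y^2 = (conj X * Y)^2 := by rw [map_pow, mul_pow]
    rw [this, sq, Complex.mul_im]; ring
  have hnorm : ∀ X Y : ℂ, 2 * |(conj X * Y).im| ≤ ‖X^2 - Y^2‖ := by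
    intro X Y
    apply abs_le_of_sq_le_sq' _ (norm_nonneg _) |>.2
    rw [← Complex.normSq_eq_norm_sq, Complex.normSq_apply]
    have e : (2 * |(conj X * Y).im|)^2 = 4 * ((conj X * Y).im)^2 := by
      rw [mul_pow, sq_abs]; ring
    rw [e]
    simp only [sq, Complex.sub_re, Complex.sub_im, Complex.mul_re, Complex.mul_im,
      Complex.conj_re, Complex.conj_im]
    nlinarith [sq_nonneg (X.re * X.re + X.im * X.im - (Y.re * Y.re + Y.im * Y.im))]
  have hterm : ∀ X Y : ℂ, 0 < (conj (X^2) * Y^2).im →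
      (conj (X^2) * Y^2).im / ‖X^2 - Y^2‖ ≤ |(conj X * Y).re| := by
    intro X Y h
    rw [hsq] at h ⊢
    have him : 0 < |(conj X * Y).im| := by
      rw [abs_pos]; intro h0; rw [h0, mul_zero] at h; exact lt_irrefl _ h
    have hn := hnorm X Y
    rw [div_le_iff₀ (by linarith)]
    calc 2 * (conj X * Y).re * (conj X * Y).im ≤ |2 * (conj X * Y).re * (conj X * Y).im| := le_abs_self _
      _ = |(conj X * Y).re| * (2 * |(conj X * Y).im|) := by
          rw [abs_mul, abs_mul, abs_two]; ring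
      _ ≤ _ := by gcongr
  have t1 := hterm _ _ hab
  have t2 := hterm _ _ hbc
  have t3 := hterm _ _ hca
  rw [hsq] at hab hbc hca
  rw [abs_of_nonneg hxre] at t1
  rw [abs_of_nonneg hyre] at t2
  have hn : ∀ X : ℂ, ‖X^2‖ = X.re^2 + X.im^2 := by
    intro X
    rw [norm_pow, ← Complex.normSq_eq_norm_sq, Complex.normSq_apply]; ring
  rw [hn, hn, hn]
  have hz : (conj (⟨c1, c2⟩ : ℂ) * ⟨a1, a2⟩).re < 0 := by
    by_contra hge
    push Not at hge
    simp only [Complex.mul_re, Complex.mul_im, Complex.conj_re, Complex.conj_im] at *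
    obtain ⟨xr, hxr⟩ : ∃ r, r = a1 * b1 - -a2 * b2 := ⟨_, rfl⟩
    obtain ⟨xi, hxi⟩ : ∃ r, r = a1 * b2 + -a2 * b1 := ⟨_, rfl⟩
    obtain ⟨yr, hyr⟩ : ∃ r, r = b1 * c1 - -b2 * c2 := ⟨_, rfl⟩
    obtain ⟨yi, hyi⟩ : ∃ r, r = b1 * c2 + -b2 * c1 := ⟨_, rfl⟩
    obtain ⟨zr, hzr⟩ : ∃ r, r = c1 * a1 - -c2 * a2 := ⟨_, rfl⟩
    obtain ⟨zi, hzi⟩ : ∃ r, r = c1 * a2 + -c2 * a1 := ⟨_, rfl⟩
    rw [← hxr, ← hxi] at hab
    rw [← hyr, ← hyi] at hbc
    rw [← hzr, ← hzi] at hca
    rw [← hxr] at hxre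
    rw [← hyr] at hyre
    rw [← hzr] at hge
    have px : 0 < xr ∧ 0 < xi := by
      have h1 : xr ≠ 0 := by intro h; rw [h] at hab; simp at hab
      have h2 : 0 < xr := lt_of_le_of_ne hxre (Ne.symm h1)
      refine ⟨h2, ?_⟩
      exact (pos_iff_pos_of_mul_pos hab).1 (by linarith)
    have py : 0 < yr ∧ 0 < yi := by
      have h1 : yr ≠ 0 := by intro h; rw [h] at hbc; simp at hbc
      have h2 : 0 < yr := lt_of_le_of_ne hyre (Ne.symm h1)
      refine ⟨h2, ?_⟩
      exact (pos_iff_pos_of_mul_pos hbc).1 (by linarith)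
    have pz : 0 < zr ∧ 0 < zi := by
      have h1 : zr ≠ 0 := by intro h; rw [h] at hca; simp at hca
      have h2 : 0 < zr := lt_of_le_of_ne hge (Ne.symm h1)
      refine ⟨h2, ?_⟩
      exact (pos_iff_pos_of_mul_pos hca).1 (by linarith)
    -- product of the three is a positive real
    have him : (xr * yr - xi * yi) * zi + (xr * yi + xi * yr) * zr = 0 := by
      rw [hxr, hxi, hyr, hyi, hzr, hzi]; ring
    have hre : 0 ≤ (xr * yr - xi * yi) * zr - (xr * yi + xi * yr) * zi := by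
      have : (xr * yr - xi * yi) * zr - (xr * yi + xi * yr) * zi
          = (a1^2 + a2^2) * (b1^2 + b2^2) * (c1^2 + c2^2) := by
        rw [hxr, hxi, hyr, hyi, hzr, hzi]; ring
      rw [this]; positivity
    obtain ⟨px1, px2⟩ := px
    obtain ⟨py1, py2⟩ := py
    obtain ⟨pz1, pz2⟩ := pz
    have hs : 0 < xr * yi + xi * yr := by positivity
    have h1 : xr * yr - xi * yi < 0 := by
      by_contra hh
      push Not at hh
      have : 0 ≤ (xr * yr - xi * yi) * zi := mul_nonneg hh pz2.le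
      have : 0 < (xr * yi + xi * yr) * zr := mul_pos hs pz1
      linarith
    have h2 : (xr * yr - xi * yi) * zr < 0 := mul_neg_of_neg_of_pos h1 pz1
    have h3 : 0 < (xr * yi + xi * yr) * zi := mul_pos hs pz2
    linarith
  rw [abs_of_neg hz] at t3
  have hfin : 0 ≤ (a1 - b1 + c1)^2 + (a2 - b2 + c2)^2 := by positivity
  simp only [Complex.mul_re, Complex.conj_re, Complex.conj_im] at t1 t2 t3 ⊢
  nlinarith

/-- quadratic form of the tangent norm of the disc at `O` -/
def qf (O v : ℝ × ℝ) : ℝ :=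
  (O.1 * v.1 + O.2 * v.2)^2 + (v.1^2 + v.2^2) * (1 - O.1^2 - O.2^2)

def dot (O v : ℝ × ℝ) : ℝ := O.1 * v.1 + O.2 * v.2

lemma mem_unitDisc (p : ℝ × ℝ) : p ∈ unitDisc ↔ p.1^2 + p.2^2 < 1 := Iff.rfl

lemma isOpen_unitDisc : IsOpen unitDisc := by
  have : Continuous (fun p : ℝ × ℝ => p.1^2 + p.2^2) := by fun_prop
  exact isOpen_lt this continuous_const

lemma convex_unitDisc : Convex ℝ unitDisc := by
  intro x hx y hy a b ha hb hab
  rw [mem_unitDisc] at *
  simp only [Prod.fst_add, Prod.snd_add, Prod.smul_fst, Prod.smul_snd, smul_eq_mul]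
  have hb' : b = 1 - a := by linarith
  subst hb'
  have e : (a * x.1 + (1 - a) * y.1)^2 + (a * x.2 + (1 - a) * y.2)^2
      = a * (x.1^2 + x.2^2) + (1 - a) * (y.1^2 + y.2^2)
        - a * (1 - a) * ((x.1 - y.1)^2 + (x.2 - y.2)^2) := by ring
  rw [e]
  have h1 : 0 ≤ a * (1 - a) * ((x.1 - y.1)^2 + (x.2 - y.2)^2) := by positivity
  rcases eq_or_lt_of_le ha with h | h
  · rw [← h] at h1 ⊢; linarith
  · have : a * (x.1^2 + x.2^2) < a * 1 := by gcongr
    have : (1 - a) * (y.1^2 + y.2^2) ≤ (1 - a) * 1 := by gcongr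
    linarith

lemma isHilbertDomain_unitDisc : IsHilbertDomain unitDisc := by
  refine ⟨isOpen_unitDisc, convex_unitDisc, ⟨(0, 0), by rw [mem_unitDisc]; norm_num⟩, ?_, ?_⟩
  · intro h
    have : ((2, 0) : ℝ × ℝ) ∈ unitDisc := by rw [h]; trivial
    rw [mem_unitDisc] at this
    norm_num at this
  · have hcl : ∀ p ∈ closure unitDisc, p.1^2 + p.2^2 ≤ 1 := by
      intro p hp
      have hc : IsClosed {p : ℝ × ℝ | p.1^2 + p.2^2 ≤ 1} :=
        isClosed_le (by fun_prop) continuous_const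
      have hsub : unitDisc ⊆ {p : ℝ × ℝ | p.1^2 + p.2^2 ≤ 1} := by
        intro q hq
        rw [mem_unitDisc] at hq
        exact hq.le
      exact closure_minimal hsub hc hp
    intro x hx y hy hxy a b ha hb hab
    have hx' := hcl x hx
    have hy' := hcl y hy
    have hsub : unitDisc ⊆ interior (closure unitDisc) :=
      isOpen_unitDisc.subset_interior_iff.2 subset_closure
    apply hsub
    rw [mem_unitDisc]
    simp only [Prod.fst_add, Prod.snd_add, Prod.smul_fst, Prod.smul_snd, smul_eq_mul]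
    have hb' : b = 1 - a := by linarith
    subst hb'
    have e : (a * x.1 + (1 - a) * y.1)^2 + (a * x.2 + (1 - a) * y.2)^2
        = a * (x.1^2 + x.2^2) + (1 - a) * (y.1^2 + y.2^2)
          - a * (1 - a) * ((x.1 - y.1)^2 + (x.2 - y.2)^2) := by ring
    rw [e]
    have hd : 0 < (x.1 - y.1)^2 + (x.2 - y.2)^2 := by
      by_contra hh
      push Not at hh
      apply hxy
      have h1 : x.1 - y.1 = 0 := by nlinarith [sq_nonneg (x.1 - y.1), sq_nonneg (x.2 - y.2)]
      have h2 : x.2 - y.2 = 0 := by nlinarith [sq_nonneg (x.1 - y.1), sq_nonneg (x.2 - y.2)]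
      exact Prod.ext (by linarith) (by linarith)
    have h1 : 0 < a * (1 - a) * ((x.1 - y.1)^2 + (x.2 - y.2)^2) := by positivity
    have h2 : a * (x.1^2 + x.2^2) ≤ a * 1 := by gcongr
    have h3 : (1 - a) * (y.1^2 + y.2^2) ≤ (1 - a) * 1 := by gcongr
    linarith

lemma qf_nonneg {O : ℝ × ℝ} (hO : O ∈ unitDisc) (v : ℝ × ℝ) : 0 ≤ qf O v := by
  rw [mem_unitDisc] at hO
  unfold qf
  have : 0 ≤ (v.1^2 + v.2^2) * (1 - O.1^2 - O.2^2) := mul_nonneg (by positivity) (by linarith)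
  positivity

lemma qf_pos {O : ℝ × ℝ} (hO : O ∈ unitDisc) {v : ℝ × ℝ} (hv : v ≠ 0) : 0 < qf O v := by
  rw [mem_unitDisc] at hO
  unfold qf
  have hv' : 0 < v.1^2 + v.2^2 := by
    by_contra hh
    push Not at hh
    apply hv
    have h1 : v.1 = 0 := by nlinarith [sq_nonneg v.1, sq_nonneg v.2]
    have h2 : v.2 = 0 := by nlinarith [sq_nonneg v.1, sq_nonneg v.2]
    exact Prod.ext h1 h2
  have : 0 < (v.1^2 + v.2^2) * (1 - O.1^2 - O.2^2) := mul_pos hv' (by linarith)
  positivity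

lemma gg_disc {O : ℝ × ℝ} (hO : O ∈ unitDisc) (v : ℝ × ℝ) :
    gg unitDisc O v = (dot O v + Real.sqrt (qf O v)) / (1 - O.1^2 - O.2^2) := by
  have hO' := hO
  rw [mem_unitDisc] at hO'
  obtain ⟨κ, hκ⟩ : ∃ κ, κ = 1 - O.1^2 - O.2^2 := ⟨_, rfl⟩
  have hκ0 : 0 < κ := by linarith
  obtain ⟨S, hS⟩ : ∃ S, S = Real.sqrt (qf O v) := ⟨_, rfl⟩
  have hS0 : 0 ≤ S := by rw [hS]; exact Real.sqrt_nonneg _
  have hS2 : S^2 = (dot O v)^2 + (v.1^2 + v.2^2) * κ := by
    rw [hS, Real.sq_sqrt (qf_nonneg hO v), hκ]; rfl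
  have hSd : |dot O v| ≤ S := by
    apply abs_le_of_sq_le_sq _ hS0
    rw [hS2]
    have : 0 ≤ (v.1^2 + v.2^2) * κ := by positivity
    linarith
  obtain ⟨h1, h2⟩ := abs_le.1 hSd
  have hu : 0 ≤ (dot O v + S) / κ := div_nonneg (by linarith) hκ0.le
  unfold gg
  rw [gauge_def', ← hκ, ← hS]
  have hset : {r ∈ Ioi (0:ℝ) | r⁻¹ • v ∈ (fun z => z - O) '' unitDisc} = Ioi ((dot O v + S) / κ) := by
    ext r
    have hmem : r⁻¹ • v ∈ (fun z => z - O) '' unitDisc ↔ O + r⁻¹ • v ∈ unitDisc := by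
      constructor
      · rintro ⟨y, hy, hyv⟩
        have : O + r⁻¹ • v = y := by rw [← hyv]; simp
        rwa [this]
      · intro h; exact ⟨_, h, by simp⟩
    constructor
    · rintro ⟨hr, hlt⟩
      replace hr : 0 < r := hr
      replace hlt : r⁻¹ • v ∈ (fun z => z - O) '' unitDisc := hlt
      rw [hmem, mem_unitDisc] at hlt
      simp only [Prod.fst_add, Prod.snd_add, Prod.smul_fst, Prod.smul_snd, smul_eq_mul] at hlt
      rw [mem_Ioi]
      have h3 : 0 < κ * r^2 - 2 * dot O v * r - (v.1^2 + v.2^2) := by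
        have e : (O.1 + r⁻¹ * v.1)^2 + (O.2 + r⁻¹ * v.2)^2
            = 1 - (κ * r^2 - 2 * dot O v * r - (v.1^2 + v.2^2)) / r^2 := by
          rw [hκ]; unfold dot; field_simp; ring
        rw [e] at hlt
        have : 0 < (κ * r^2 - 2 * dot O v * r - (v.1^2 + v.2^2)) / r^2 := by linarith
        exact (div_pos_iff_of_pos_right (by positivity)).1 this
      rw [div_lt_iff₀ hκ0]
      have h4 : 0 < (r * κ - dot O v - S) * (r * κ - dot O v + S) := by
        have : (r * κ - dot O v - S) * (r * κ - dot O v + S)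
            = κ * (κ * r^2 - 2 * dot O v * r - (v.1^2 + v.2^2)) := by
          linear_combination -hS2
        rw [this]; positivity
      by_contra hh
      push Not at hh
      have h5 : r * κ - dot O v - S ≤ 0 := by linarith
      have h6 : 0 < r * κ - dot O v + S ∨ r * κ - dot O v + S ≤ 0 := lt_or_ge _ _
      rcases h6 with h6 | h6
      · have := mul_nonpos_of_nonpos_of_nonneg h5 h6.le
        linarith
      · have : 0 < r * κ := mul_pos hr hκ0
        linarith
    · intro hr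
      rw [mem_Ioi] at hr
      have hr0 : 0 < r := lt_of_le_of_lt hu hr
      refine ⟨hr0, ?_⟩
      rw [hmem, mem_unitDisc]
      simp only [Prod.fst_add, Prod.snd_add, Prod.smul_fst, Prod.smul_snd, smul_eq_mul]
      rw [div_lt_iff₀ hκ0] at hr
      have h5 : 0 < r * κ - dot O v - S := by linarith
      have h6 : 0 < r * κ - dot O v + S := by linarith
      have h4 := mul_pos h5 h6
      have h7 : (r * κ - dot O v - S) * (r * κ - dot O v + S)
            = κ * (κ * r^2 - 2 * dot O v * r - (v.1^2 + v.2^2)) := by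
          linear_combination -hS2
      rw [h7] at h4
      have h3 : 0 < κ * r^2 - 2 * dot O v * r - (v.1^2 + v.2^2) :=
        (pos_iff_pos_of_mul_pos h4).1 hκ0
      have e : (O.1 + r⁻¹ * v.1)^2 + (O.2 + r⁻¹ * v.2)^2
            = 1 - (κ * r^2 - 2 * dot O v * r - (v.1^2 + v.2^2)) / r^2 := by
          rw [hκ]; unfold dot; field_simp; ring
      rw [e]
      have : 0 < (κ * r^2 - 2 * dot O v * r - (v.1^2 + v.2^2)) / r^2 := by positivity
      linarith
  rw [hset, csInf_Ioi]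

lemma dot_neg (O v : ℝ × ℝ) : dot O (-v) = - dot O v := by
  simp only [dot, Prod.fst_neg, Prod.snd_neg]; ring

lemma qf_neg (O v : ℝ × ℝ) : qf O (-v) = qf O v := by
  simp only [qf, Prod.fst_neg, Prod.snd_neg]; ring

/-- the distance in the disc model -/
lemma tanh_disc {O X : ℝ × ℝ} (hO : O ∈ unitDisc) (hX : X ∈ unitDisc) :
    0 < 1 - dot O X ∧
    Real.tanh (hdist unitDisc O X) = Real.sqrt (qf O (X - O)) / (1 - dot O X) := by
  have hO' := hO
  have hX' := hX
  rw [mem_unitDisc] at hO' hX'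
  have hpos : 0 < 1 - dot O X := by
    unfold dot
    nlinarith [sq_nonneg (O.1 - X.1), sq_nonneg (O.2 - X.2)]
  refine ⟨hpos, ?_⟩
  have hv : O + (X - O) ∈ unitDisc := by rwa [add_sub_cancel]
  have := tanh_hdist isOpen_unitDisc convex_unitDisc hO hv
  rw [add_sub_cancel] at this
  rw [this]
  unfold nn
  rw [gg_disc hO, gg_disc hO, dot_neg, qf_neg]
  have hκ0 : 0 < 1 - O.1^2 - O.2^2 := by linarith
  have e1 : dot O (X - O) = dot O X - (O.1^2 + O.2^2) := by
    simp only [dot, Prod.fst_sub, Prod.snd_sub]; ring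
  rw [e1]
  have e2 : ((dot O X - (O.1^2 + O.2^2) + Real.sqrt (qf O (X - O))) / (1 - O.1^2 - O.2^2)
      + (-(dot O X - (O.1^2 + O.2^2)) + Real.sqrt (qf O (X - O))) / (1 - O.1^2 - O.2^2)) / 2
      = Real.sqrt (qf O (X - O)) / (1 - O.1^2 - O.2^2) := by field_simp; ring
  have e3 : 1 + ((-(dot O X - (O.1^2 + O.2^2)) + Real.sqrt (qf O (X - O))) / (1 - O.1^2 - O.2^2)
      - (dot O X - (O.1^2 + O.2^2) + Real.sqrt (qf O (X - O))) / (1 - O.1^2 - O.2^2)) / 2
      = (1 - dot O X) / (1 - O.1^2 - O.2^2) := by field_simp; ring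
  rw [e2, e3, div_div_div_cancel_right₀ hκ0.ne']

lemma tanh_mono {x y : ℝ} (h : x ≤ y) : Real.tanh x ≤ Real.tanh y := by
  by_contra hlt
  push Not at hlt
  have hx : Real.tanh x ∈ Ioo (-1 : ℝ) 1 := Real.tanh_bijOn.mapsTo trivial
  have hy : Real.tanh y ∈ Ioo (-1 : ℝ) 1 := Real.tanh_bijOn.mapsTo trivial
  have := Real.artanh_lt_artanh hy.1 hx.2 hlt
  rw [Real.artanh_tanh, Real.artanh_tanh] at this
  linarith

/-- linear isometry from the tangent norm at `O` to the complex plane -/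
noncomputable def LL (O v : ℝ × ℝ) : ℂ :=
  ⟨Real.sqrt (1 - O.2^2) * v.1 + O.1 * O.2 / Real.sqrt (1 - O.2^2) * v.2,
    Real.sqrt ((1 - O.1^2 - O.2^2) / (1 - O.2^2)) * v.2⟩

lemma LL_add (O v w : ℝ × ℝ) : LL O (v + w) = LL O v + LL O w := by
  apply Complex.ext
  · simp only [LL, Complex.add_re, Prod.fst_add, Prod.snd_add]; ring
  · simp only [LL, Complex.add_im, Prod.snd_add]; ring

lemma LL_smul (O v : ℝ × ℝ) (c : ℝ) : LL O (c • v) = (c : ℂ) * LL O v := by
  apply Complex.ext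
  · simp only [LL, Complex.mul_re, Complex.ofReal_re, Complex.ofReal_im, Prod.smul_fst,
      Prod.smul_snd, smul_eq_mul]; ring
  · simp only [LL, Complex.mul_im, Complex.ofReal_re, Complex.ofReal_im, Prod.smul_snd,
      smul_eq_mul]; ring

lemma LL_norm {O : ℝ × ℝ} (hO : O ∈ unitDisc) (v : ℝ × ℝ) : ‖LL O v‖ = Real.sqrt (qf O v) := by
  rw [mem_unitDisc] at hO
  have hE : 0 < 1 - O.2^2 := by nlinarith [sq_nonneg O.1]
  have hκ : 0 < 1 - O.1^2 - O.2^2 := by linarith
  rw [Complex.norm_def, Complex.normSq_apply]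
  congr 1
  obtain ⟨s, hs⟩ : ∃ s, s = Real.sqrt (1 - O.2^2) := ⟨_, rfl⟩
  obtain ⟨t, ht⟩ : ∃ t, t = Real.sqrt ((1 - O.1^2 - O.2^2) / (1 - O.2^2)) := ⟨_, rfl⟩
  have hs0 : 0 < s := by rw [hs]; positivity
  have hs2 : s^2 = 1 - O.2^2 := by rw [hs, Real.sq_sqrt hE.le]
  have ht2 : t^2 * s^2 = 1 - O.1^2 - O.2^2 := by
    rw [ht, Real.sq_sqrt (by positivity), hs2]; field_simp
  simp only [LL]
  rw [← hs, ← ht]
  unfold qf
  have h1 : s^2 * ((s * v.1 + O.1 * O.2 / s * v.2) * (s * v.1 + O.1 * O.2 / s * v.2)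
      + t * v.2 * (t * v.2)) = s^2 * ((O.1 * v.1 + O.2 * v.2)^2
        + (v.1^2 + v.2^2) * (1 - O.1^2 - O.2^2)) := by
    have h2 : s^2 * ((s * v.1 + O.1 * O.2 / s * v.2) * (s * v.1 + O.1 * O.2 / s * v.2)
      + t * v.2 * (t * v.2)) = (s^2 * v.1 + O.1 * O.2 * v.2)^2 + (t^2 * s^2) * v.2^2 := by
      field_simp
    rw [h2, ht2, hs2]; ring
  exact mul_left_cancel₀ (by positivity) h1

lemma LL_im {O : ℝ × ℝ} (hO : O ∈ unitDisc) (v w : ℝ × ℝ) :
    (conj (LL O v) * LL O w).im = Real.sqrt (1 - O.1^2 - O.2^2) * cr v w := by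
  rw [mem_unitDisc] at hO
  have hE : 0 < 1 - O.2^2 := by nlinarith [sq_nonneg O.1]
  have hκ : 0 < 1 - O.1^2 - O.2^2 := by linarith
  have hprod : Real.sqrt (1 - O.2^2) * Real.sqrt ((1 - O.1^2 - O.2^2) / (1 - O.2^2))
      = Real.sqrt (1 - O.1^2 - O.2^2) := by
    rw [← Real.sqrt_mul hE.le]
    congr 1
    field_simp
  rw [← hprod]
  simp only [LL, Complex.mul_im, Complex.conj_re, Complex.conj_im, cr]
  ring

/-- central projection from `O` -/
noncomputable def ph (O X : ℝ × ℝ) : ℝ × ℝ := (1 / (1 - dot O X)) • (X - O)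

lemma tanh_disc' {O X : ℝ × ℝ} (hO : O ∈ unitDisc) (hX : X ∈ unitDisc) :
    Real.tanh (hdist unitDisc O X) = ‖LL O (ph O X)‖ := by
  obtain ⟨h1, h2⟩ := tanh_disc hO hX
  rw [h2, ph, LL_smul, norm_mul, LL_norm hO, Complex.norm_real, Real.norm_eq_abs,
    abs_of_pos (by positivity)]
  ring

lemma qf_ph_lt {O X : ℝ × ℝ} (hO : O ∈ unitDisc) (hX : X ∈ unitDisc) : ‖LL O (ph O X)‖ < 1 := by
  obtain ⟨h1, -⟩ := tanh_disc hO hX
  rw [ph, LL_smul, norm_mul, LL_norm hO, Complex.norm_real, Real.norm_eq_abs,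
    abs_of_pos (by positivity), one_div, inv_mul_lt_iff₀ h1, mul_one]
  rw [Real.sqrt_lt' h1]
  rw [mem_unitDisc] at hO hX
  have : 0 < (1 - O.1^2 - O.2^2) * (1 - X.1^2 - X.2^2) := mul_pos (by linarith) (by linarith)
  have e : (1 - dot O X)^2 - qf O (X - O) = (1 - O.1^2 - O.2^2) * (1 - X.1^2 - X.2^2) := by
    simp only [dot, qf, Prod.fst_sub, Prod.snd_sub]; ring
  linarith

/-- a foot is at least as near as the Euclidean foot in the centred picture -/
lemma foot_disc {O B C F : ℝ × ℝ} (hO : O ∈ unitDisc) (hB : B ∈ unitDisc) (hC : C ∈ unitDisc)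
    (hcr : 0 < (conj (LL O (ph O B)) * LL O (ph O C)).im) (hF : IsFoot unitDisc O B C F) :
    Real.tanh (hdist unitDisc O F) ≤
      (conj (LL O (ph O B)) * LL O (ph O C)).im / ‖LL O (ph O B) - LL O (ph O C)‖ := by
  obtain ⟨kB, -⟩ := tanh_disc hO hB
  obtain ⟨kC, -⟩ := tanh_disc hO hC
  obtain ⟨b, hb⟩ : ∃ b, b = LL O (ph O B) := ⟨_, rfl⟩
  obtain ⟨c, hc⟩ : ∃ c, c = LL O (ph O C) := ⟨_, rfl⟩
  rw [← hb, ← hc] at hcr ⊢
  have hb1 : ‖b‖ < 1 := by rw [hb]; exact qf_ph_lt hO hB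
  have hbc : b ≠ c := by
    rintro rfl
    have : (conj b * b).im = 0 := by
      rw [Complex.conj_mul']
      norm_cast
    rw [this] at hcr
    exact lt_irrefl _ hcr
  have hD : 0 < ‖b - c‖ := norm_pos_iff.2 (sub_ne_zero.2 hbc)
  obtain ⟨s, hs⟩ : ∃ s : ℝ, s = (conj b * (b - c)).re / ‖b - c‖^2 := ⟨_, rfl⟩
  obtain ⟨z, hz⟩ : ∃ z : ℂ, z = b + s * (c - b) := ⟨_, rfl⟩
  have hz2 : ‖z‖^2 * ‖b - c‖^2 = ((conj b * c).im)^2 := by
    have hs' : s * ‖b - c‖^2 = (conj b * (b - c)).re := by rw [hs]; field_simp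
    rw [hz]
    rw [← Complex.normSq_eq_norm_sq, ← Complex.normSq_eq_norm_sq] at *
    simp only [Complex.normSq_apply, Complex.add_re, Complex.add_im, Complex.mul_re,
      Complex.mul_im, Complex.ofReal_re, Complex.ofReal_im, Complex.sub_re, Complex.sub_im,
      Complex.conj_re, Complex.conj_im] at hs' ⊢
    ring_nf at hs' ⊢
    nlinarith [hs', congrArg (fun t => s * t) hs', congrArg (fun t => s * s * t) hs']
  have him : (conj b * c).im = (conj b * (c - b)).im := by
    simp only [Complex.mul_im, Complex.conj_re, Complex.conj_im, Complex.sub_re, Complex.sub_im]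
    ring
  have hz1 : ‖z‖ * ‖b - c‖ = (conj b * c).im := by
    have h1 : 0 ≤ ‖z‖ * ‖b - c‖ := by positivity
    have h2 : (‖z‖ * ‖b - c‖)^2 = ((conj b * c).im)^2 := by rw [mul_pow]; exact hz2
    exact (sq_eq_sq₀ h1 hcr.le).1 h2
  have hzb : ‖z‖ < 1 := by
    have h1 : (conj b * (c - b)).im ≤ ‖b‖ * ‖b - c‖ := by
      calc (conj b * (c - b)).im ≤ |(conj b * (c - b)).im| := le_abs_self _
        _ ≤ ‖conj b * (c - b)‖ := Complex.abs_im_le_norm _
        _ = ‖b‖ * ‖b - c‖ := by rw [norm_mul, Complex.norm_conj, norm_sub_rev]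
    rw [← him, ← hz1] at h1
    have := le_of_mul_le_mul_right h1 hD
    linarith
  -- the corresponding point of the disc
  obtain ⟨κB, hκB⟩ : ∃ k, k = 1 - dot O B := ⟨_, rfl⟩
  obtain ⟨κC, hκC⟩ : ∃ k, k = 1 - dot O C := ⟨_, rfl⟩
  rw [← hκB] at kB
  rw [← hκC] at kC
  obtain ⟨p, hp⟩ : ∃ p, p = (1 - s) / κB := ⟨_, rfl⟩
  obtain ⟨q, hq⟩ : ∃ q, q = s / κC := ⟨_, rfl⟩
  have hpq : p * κB + q * κC = 1 := by rw [hp, hq]; field_simp; ring
  obtain ⟨Z, hZ⟩ : ∃ Z : ℝ × ℝ, Z = p • (B - O) + q • (C - O) := ⟨_, rfl⟩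
  have hLZ : LL O Z = z := by
    rw [hZ, LL_add, LL_smul, LL_smul, hz, hb, hc, ph, ph, LL_smul, LL_smul, ← hκB, ← hκC, hp, hq]
    push_cast
    ring
  have hO' := hO
  rw [mem_unitDisc] at hO'
  have hsum : 1 + dot O Z = (p + q) * (1 - O.1^2 - O.2^2) := by
    have : dot O Z = p * (dot O B - (O.1^2 + O.2^2)) + q * (dot O C - (O.1^2 + O.2^2)) := by
      rw [hZ]
      simp only [dot, Prod.fst_add, Prod.snd_add, Prod.smul_fst, Prod.smul_snd, smul_eq_mul,
        Prod.fst_sub, Prod.snd_sub]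
      ring
    rw [this]
    rw [hκB, hκC] at hpq
    linear_combination (-1) * hpq
  have hqz : Real.sqrt (qf O Z) = ‖z‖ := by rw [← LL_norm hO, hLZ]
  have hdotZ : |dot O Z| < 1 := by
    have h1 : |dot O Z| ≤ Real.sqrt (qf O Z) := by
      apply Real.le_sqrt_of_sq_le
      rw [sq_abs]
      unfold qf dot
      have : 0 ≤ (Z.1^2 + Z.2^2) * (1 - O.1^2 - O.2^2) := mul_nonneg (by positivity) (by linarith)
      linarith
    rw [hqz] at h1
    linarith
  have hpq0 : 0 < p + q := by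
    have h1 : 0 < (p + q) * (1 - O.1^2 - O.2^2) := by
      rw [← hsum]; linarith [(abs_lt.1 hdotZ).1]
    exact (pos_iff_pos_of_mul_pos h1).2 (by linarith)
  obtain ⟨X, hX⟩ : ∃ X : ℝ × ℝ, X = O + (1 / (p + q)) • Z := ⟨_, rfl⟩
  have hXO : X - O = (1 / (p + q)) • Z := by rw [hX]; simp
  have hdotX : 1 - dot O X = 1 / (p + q) := by
    have : dot O X = (O.1^2 + O.2^2) + (1 / (p + q)) * dot O Z := by
      rw [hX]
      simp only [dot, Prod.fst_add, Prod.snd_add, Prod.smul_fst, Prod.smul_snd, smul_eq_mul]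
      ring
    rw [this]
    have h2 : dot O Z = (p + q) * (1 - O.1^2 - O.2^2) - 1 := by linarith
    rw [h2]; field_simp; ring
  have hphX : ph O X = Z := by
    rw [ph, hdotX, hXO, smul_smul]
    have : 1 / (1 / (p + q)) * (1 / (p + q)) = 1 := by field_simp
    rw [this, one_smul]
  have hqfX : qf O (X - O) = (1 / (p + q))^2 * qf O Z := by
    rw [hXO]
    simp only [qf, Prod.smul_fst, Prod.smul_snd, smul_eq_mul]; ring
  have hXD : X ∈ unitDisc := by
    rw [mem_unitDisc]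
    have e : (1 - dot O X)^2 - qf O (X - O) = (1 - O.1^2 - O.2^2) * (1 - X.1^2 - X.2^2) := by
      simp only [dot, qf, Prod.fst_sub, Prod.snd_sub]; ring
    have h1 : qf O Z < 1 := by
      have := Real.sq_sqrt (qf_nonneg hO Z)
      rw [hqz] at this
      rw [← this]
      have h0 : 0 ≤ ‖z‖ := norm_nonneg z
      nlinarith
    have h2 : 0 < (1 - dot O X)^2 - qf O (X - O) := by
      rw [hdotX, hqfX]
      have : 0 < (1 / (p + q))^2 := by positivity
      nlinarith
    rw [e] at h2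
    have := (pos_iff_pos_of_mul_pos h2).1 (by linarith)
    linarith
  have hXl : X ∈ affineSpan ℝ ({B, C} : Set (ℝ × ℝ)) := by
    rw [mem_affineSpan_pair_iff_exists_lineMap_eq]
    refine ⟨q / (p + q), ?_⟩
    rw [AffineMap.lineMap_apply, vsub_eq_sub, vadd_eq_add, hX, hZ]
    have hne : p + q ≠ 0 := hpq0.ne'
    ext
    · simp only [Prod.fst_add, Prod.smul_fst, Prod.fst_sub, smul_eq_mul]
      field_simp; ring
    · simp only [Prod.snd_add, Prod.smul_snd, Prod.snd_sub, smul_eq_mul]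
      field_simp; ring
  have hle := tanh_mono (hF.2.2 X hXl hXD)
  rw [tanh_disc' hO hXD, hphX, hLZ] at hle
  rw [le_div_iff₀ hD, ← hz1]
  exact mul_le_mul_of_nonneg_right hle hD.le

lemma cr_ph (O B C : ℝ × ℝ) : cr (ph O B) (ph O C)
    = (1 / (1 - dot O B)) * (1 / (1 - dot O C)) * cr (B - O) (C - O) := by
  simp only [ph, cr, Prod.smul_fst, Prod.smul_snd, smul_eq_mul]; ring

lemma isFoot_symm {M : Set (ℝ × ℝ)} {O B C F : ℝ × ℝ} (h : IsFoot M O B C F) :
    IsFoot M O C B F := by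
  unfold IsFoot at *
  rwa [Set.pair_comm C B]

/-- the distance from an interior point to a side is positive -/
lemma tanh_foot_pos {O B C F : ℝ × ℝ} (hO : O ∈ unitDisc) (hcr : cr (B - O) (C - O) ≠ 0)
    (hF : IsFoot unitDisc O B C F) : 0 < Real.tanh (hdist unitDisc O F) := by
  obtain ⟨h1, h2⟩ := tanh_disc hO hF.2.1
  rw [h2]
  have hFO : F - O ≠ 0 := by
    intro h
    apply hcr
    have hl := hF.1
    rw [mem_affineSpan_pair_iff_exists_lineMap_eq] at hl
    obtain ⟨u, hu⟩ := hl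
    rw [AffineMap.lineMap_apply, vsub_eq_sub, vadd_eq_add] at hu
    have hO' : O = u • (C - B) + B := by rw [hu]; exact (sub_eq_zero.1 h).symm
    rw [hO']
    simp only [cr, Prod.fst_sub, Prod.snd_sub, Prod.fst_add, Prod.snd_add, Prod.smul_fst,
      Prod.smul_snd, smul_eq_mul]
    ring
  have := qf_pos hO hFO
  positivity

theorem em_disc_pos {A B C O P Q R : ℝ × ℝ} (h : IsConfig unitDisc A B C O P Q R)
    (hS : 0 < cr (B - A) (C - A)) :
    2 * (Real.tanh (hdist unitDisc O P) + Real.tanh (hdist unitDisc O Q)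
      + Real.tanh (hdist unitDisc O R)) ≤
    Real.tanh (hdist unitDisc O A) + Real.tanh (hdist unitDisc O B)
      + Real.tanh (hdist unitDisc O C) := by
  obtain ⟨hA, hB, hC, -, ⟨α, β, γ, hα, hβ, hγ, hsum, hOe⟩, hP, hQ, hR⟩ := h
  have hO : O ∈ unitDisc := by
    rw [hOe]
    have h1 : α • A + β • B + γ • C = (α + β) • ((α/(α+β)) • A + (β/(α+β)) • B) + γ • C := by
      rw [smul_add, smul_smul, smul_smul, mul_div_cancel₀ _ (by positivity),
        mul_div_cancel₀ _ (by positivity)]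
    rw [h1]
    apply convex_unitDisc _ hC (by positivity) hγ.le hsum
    apply convex_unitDisc hA hB (by positivity) (by positivity)
    field_simp
  have hγ' : γ = 1 - α - β := by linarith
  have c1 : cr (B - O) (C - O) = α * cr (B - A) (C - A) := by
    rw [hOe, hγ']
    simp only [cr, Prod.fst_sub, Prod.snd_sub, Prod.fst_add, Prod.snd_add, Prod.smul_fst,
      Prod.smul_snd, smul_eq_mul]
    ring
  have c2 : cr (C - O) (A - O) = β * cr (B - A) (C - A) := by
    rw [hOe, hγ']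
    simp only [cr, Prod.fst_sub, Prod.snd_sub, Prod.fst_add, Prod.snd_add, Prod.smul_fst,
      Prod.smul_snd, smul_eq_mul]
    ring
  have c3 : cr (A - O) (B - O) = γ * cr (B - A) (C - A) := by
    rw [hOe, hγ']
    simp only [cr, Prod.fst_sub, Prod.snd_sub, Prod.fst_add, Prod.snd_add, Prod.smul_fst,
      Prod.smul_snd, smul_eq_mul]
    ring
  obtain ⟨kA, -⟩ := tanh_disc hO hA
  obtain ⟨kB, -⟩ := tanh_disc hO hB
  obtain ⟨kC, -⟩ := tanh_disc hO hC
  have hO' := hO
  rw [mem_unitDisc] at hO'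
  have hsq : 0 < Real.sqrt (1 - O.1^2 - O.2^2) := Real.sqrt_pos.2 (by linarith)
  have i1 : 0 < (conj (LL O (ph O B)) * LL O (ph O C)).im := by
    rw [LL_im hO, cr_ph, c1]; positivity
  have i2 : 0 < (conj (LL O (ph O C)) * LL O (ph O A)).im := by
    rw [LL_im hO, cr_ph, c2]; positivity
  have i3 : 0 < (conj (LL O (ph O A)) * LL O (ph O B)).im := by
    rw [LL_im hO, cr_ph, c3]; positivity
  have f1 := foot_disc hO hB hC i1 hP
  have f2 := foot_disc hO hC hA i2 hQ
  have f3 := foot_disc hO hA hB i3 hR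
  have em := em_complex _ _ _ i3 i1 i2
  rw [tanh_disc' hO hA, tanh_disc' hO hB, tanh_disc' hO hC]
  linarith

theorem em_disc {A B C O P Q R : ℝ × ℝ} (h : IsConfig unitDisc A B C O P Q R) :
    2 ≤ configRatio unitDisc A B C O P Q R := by
  have hnc := h.2.2.2.1
  have hS : cr (B - A) (C - A) ≠ 0 := by
    intro h0
    apply hnc
    rw [collinear_iff_of_mem (p₀ := A) (by simp)]
    by_cases hBA : B - A = 0
    · refine ⟨C - A, ?_⟩
      intro p hp
      simp only [mem_insert_iff, mem_singleton_iff] at hp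
      rcases hp with rfl | rfl | rfl
      · exact ⟨0, by simp⟩
      · exact ⟨0, by rw [sub_eq_zero] at hBA; simp [hBA]⟩
      · exact ⟨1, by simp⟩
    · refine ⟨B - A, ?_⟩
      intro p hp
      simp only [mem_insert_iff, mem_singleton_iff] at hp
      rcases hp with rfl | rfl | rfl
      · exact ⟨0, by simp⟩
      · exact ⟨1, by simp⟩
      · have hN : 0 < (B - A).1^2 + (B - A).2^2 := by
          by_contra hh
          push Not at hh
          apply hBA
          have h1 : (B - A).1 = 0 := by nlinarith [sq_nonneg (B - A).1, sq_nonneg (B - A).2]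
          have h2 : (B - A).2 = 0 := by nlinarith [sq_nonneg (B - A).1, sq_nonneg (B - A).2]
          exact Prod.ext h1 h2
        refine ⟨((p - A).1 * (B - A).1 + (p - A).2 * (B - A).2) / ((B - A).1^2 + (B - A).2^2), ?_⟩
        have e : p = (p - A) + A := by simp
        rw [vadd_eq_add]
        conv_lhs => rw [e]
        congr 1
        unfold cr at h0
        ext
        · simp only [Prod.smul_fst, smul_eq_mul]
          rw [div_mul_eq_mul_div, eq_div_iff hN.ne']
          linear_combination (-(B - A).2) * h0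
        · simp only [Prod.smul_snd, smul_eq_mul]
          rw [div_mul_eq_mul_div, eq_div_iff hN.ne']
          linear_combination (B - A).1 * h0
  -- O in the disc
  have h' := h
  obtain ⟨hA, hB, hC, -, ⟨α, β, γ, hα, hβ, hγ, hsum, hOe⟩, hP, hQ, hR⟩ := h'
  have hO : O ∈ unitDisc := by
    rw [hOe]
    have h1 : α • A + β • B + γ • C = (α + β) • ((α/(α+β)) • A + (β/(α+β)) • B) + γ • C := by
      rw [smul_add, smul_smul, smul_smul, mul_div_cancel₀ _ (by positivity),
        mul_div_cancel₀ _ (by positivity)]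
    rw [h1]
    apply convex_unitDisc _ hC (by positivity) hγ.le hsum
    apply convex_unitDisc hA hB (by positivity) (by positivity)
    field_simp
  have hγ' : γ = 1 - α - β := by linarith
  have c1 : cr (B - O) (C - O) ≠ 0 := by
    have : cr (B - O) (C - O) = α * cr (B - A) (C - A) := by
      rw [hOe, hγ']
      simp only [cr, Prod.fst_sub, Prod.snd_sub, Prod.fst_add, Prod.snd_add, Prod.smul_fst,
        Prod.smul_snd, smul_eq_mul]
      ring
    rw [this]; exact mul_ne_zero hα.ne' hS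
  have c2 : cr (C - O) (A - O) ≠ 0 := by
    have : cr (C - O) (A - O) = β * cr (B - A) (C - A) := by
      rw [hOe, hγ']
      simp only [cr, Prod.fst_sub, Prod.snd_sub, Prod.fst_add, Prod.snd_add, Prod.smul_fst,
        Prod.smul_snd, smul_eq_mul]
      ring
    rw [this]; exact mul_ne_zero hβ.ne' hS
  have c3 : cr (A - O) (B - O) ≠ 0 := by
    have : cr (A - O) (B - O) = γ * cr (B - A) (C - A) := by
      rw [hOe, hγ']
      simp only [cr, Prod.fst_sub, Prod.snd_sub, Prod.fst_add, Prod.snd_add, Prod.smul_fst,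
        Prod.smul_snd, smul_eq_mul]
      ring
    rw [this]; exact mul_ne_zero hγ.ne' hS
  have pP := tanh_foot_pos hO c1 hP
  have pQ := tanh_foot_pos hO c2 hQ
  have pR := tanh_foot_pos hO c3 hR
  unfold configRatio
  rw [le_div_iff₀ (by linarith)]
  rcases lt_or_gt_of_ne hS with hneg | hpos
  · have hsw : IsConfig unitDisc A C B O P R Q := by
      refine ⟨hA, hC, hB, ?_, ⟨α, γ, β, hα, hγ, hβ, by linarith, ?_⟩, isFoot_symm hP,
        isFoot_symm hR, isFoot_symm hQ⟩
      · rwa [Set.pair_comm C B]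
      · rw [hOe]; abel
    have hS' : 0 < cr (C - A) (B - A) := by
      have : cr (C - A) (B - A) = - cr (B - A) (C - A) := by simp only [cr]; ring
      rw [this]; linarith
    have := em_disc_pos hsw hS'
    linarith
  · exact em_disc_pos h hpos

/-- the Erdős ratio of the hyperbolic plane -/
theorem erdosRatio_unitDisc : erdosRatio unitDisc = 2 := by
  apply le_antisymm
  · apply le_of_forall_pos_le_add
    intro δ hδ
    obtain ⟨A, B, C, O, P, Q, R, h, hlt⟩ := exists_config_lt isHilbertDomain_unitDisc hδ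
    have hb : BddBelow {ϱ : ℝ | ∃ A B C O P Q R : ℝ × ℝ, IsConfig unitDisc A B C O P Q R ∧
        ϱ = configRatio unitDisc A B C O P Q R} := by
      refine ⟨2, ?_⟩
      rintro _ ⟨A, B, C, O, P, Q, R, h, rfl⟩
      exact em_disc h
    exact (csInf_le hb ⟨A, B, C, O, P, Q, R, h, rfl⟩).trans hlt.le
  · apply le_csInf
    · obtain ⟨A, B, C, O, P, Q, R, h, -⟩ := exists_config_lt isHilbertDomain_unitDisc one_pos
      exact ⟨_, A, B, C, O, P, Q, R, h, rfl⟩
    · rintro _ ⟨A, B, C, O, P, Q, R, h, rfl⟩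
      exact em_disc h

end Pool.Agent.Helper87.Erdos
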