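import Mathlib

set_option autoImplicit false

namespace Pool.Agent.Helper87.Erdos

open Set Filter Topology

/-- area form -/
def cr (A B : ℝ × ℝ) : ℝ := A.1 * B.2 - A.2 * B.1

lemma cr_le (A B : ℝ × ℝ) : cr A B ≤ 2 * (‖A‖ * ‖B‖) := by
  have a1 : |A.1| ≤ ‖A‖ := norm_fst_le A
  have a2 : |A.2| ≤ ‖A‖ := norm_snd_le A
  have b1 : |B.1| ≤ ‖B‖ := norm_fst_le B
  have b2 : |B.2| ≤ ‖B‖ := norm_snd_le B
  have h1 : A.1 * B.2 ≤ ‖A‖ * ‖B‖ := by
    calc A.1 * B.2 ≤ |A.1 * B.2| := le_abs_self _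
      _ = |A.1| * |B.2| := abs_mul _ _
      _ ≤ _ := by gcongr
  have h2 : -(A.2 * B.1) ≤ ‖A‖ * ‖B‖ := by
    calc -(A.2 * B.1) ≤ |A.2 * B.1| := neg_le_abs _
      _ = |A.2| * |B.1| := abs_mul _ _
      _ ≤ _ := by gcongr
  unfold cr; linarith

section norm

variable {N : ℝ × ℝ → ℝ}

lemma support_of_min (hadd : ∀ x y, N (x + y) ≤ N x + N y)
    (hsmul : ∀ (c : ℝ) x, N (c • x) = |c| * N x) (hnn : ∀ x, 0 ≤ N x) {A B : ℝ × ℝ}
    (hmin : ∀ u : ℝ, 0 < u → N (A + B) ≤ N (u • A + u⁻¹ • B)) (s : ℝ) :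
    N (A + B) ≤ N (A + B + s • (A - B)) := by
  by_contra hlt
  push Not at hlt
  obtain ⟨n, hn⟩ : ∃ n, n = N (A + B) := ⟨_, rfl⟩
  obtain ⟨δ, hδ⟩ : ∃ δ, δ = n - N (A + B + s • (A - B)) := ⟨_, rfl⟩
  have hδ0 : 0 < δ := by rw [hδ, hn]; linarith
  have hn0 : 0 ≤ n := by rw [hn]; exact hnn _
  obtain ⟨l, hl0, hl1, hl2, hl3⟩ : ∃ l : ℝ, 0 < l ∧ l < 1 ∧ l * |s| < 1 ∧ l * (s^2 * n) < δ := by
    have hD : 0 < 1 + |s| + s^2 * n / δ := by positivity
    refine ⟨1 / (2 * (1 + |s| + s^2 * n / δ)), by positivity, ?_, ?_, ?_⟩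
    · rw [div_lt_one (by positivity)]
      have : 0 ≤ |s| := abs_nonneg s
      have : 0 ≤ s^2 * n / δ := by positivity
      linarith
    · rw [div_mul_eq_mul_div, one_mul, div_lt_one (by positivity)]
      have : 0 ≤ |s| := abs_nonneg s
      have : 0 ≤ s^2 * n / δ := by positivity
      linarith
    · rw [div_mul_eq_mul_div, one_mul, div_lt_iff₀ (by positivity)]
      have h1 : δ * (s^2 * n / δ) = s^2 * n := by field_simp
      have : 0 ≤ δ * |s| := by positivity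
      have : 0 ≤ s^2 * n := by positivity
      have e : δ * (2 * (1 + |s| + s^2 * n / δ)) = 2 * δ + 2 * (δ * |s|) + 2 * (δ * (s^2 * n / δ)) := by ring
      rw [e, h1]; linarith
  have hls : |l * s| < 1 := by rw [abs_mul, abs_of_pos hl0]; exact hl2
  obtain ⟨hls1, hls2⟩ := abs_lt.1 hls
  have hp : 0 < 1 + l * s := by linarith
  have hq : 0 < 1 - l * s := by linarith
  -- upper bound
  have hz1 : N (A + B + (l * s) • (A - B)) ≤ n - l * δ := by
    have e : A + B + (l * s) • (A - B) = (1 - l) • (A + B) + l • (A + B + s • (A - B)) := by module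
    rw [e]
    refine (hadd _ _).trans ?_
    rw [hsmul, hsmul, abs_of_pos hl0, abs_of_pos (by linarith : 0 < 1 - l), ← hn]
    have : N (A + B + s • (A - B)) = n - δ := by rw [hδ]; ring
    rw [this]; linarith
  -- lower bound
  obtain ⟨u, hu⟩ : ∃ u, u = Real.sqrt ((1 + l * s) / (1 - l * s)) := ⟨_, rfl⟩
  have hu0 : 0 < u := by rw [hu]; positivity
  obtain ⟨r, hr⟩ : ∃ r, r = (1 - l * s) * u := ⟨_, rfl⟩
  have hr0 : 0 < r := by rw [hr]; positivity
  have hu2 : u^2 = (1 + l * s) / (1 - l * s) := by rw [hu, Real.sq_sqrt (by positivity)]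
  have hru : r * u = 1 + l * s := by
    have : r * u = (1 - l * s) * u^2 := by rw [hr]; ring
    rw [this, hu2]; field_simp
  have hru' : r * u⁻¹ = 1 - l * s := by rw [hr]; field_simp
  have hz2 : r * n ≤ N (A + B + (l * s) • (A - B)) := by
    have e : A + B + (l * s) • (A - B) = r • (u • A + u⁻¹ • B) := by
      rw [smul_add, smul_smul, smul_smul, hru, hru']; module
    rw [e, hsmul, abs_of_pos hr0]
    have := hmin u hu0
    rw [← hn] at this
    exact mul_le_mul_of_nonneg_left this hr0.le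
  have hr2 : r^2 = 1 - (l * s)^2 := by
    have : r^2 = (r * u) * (r * u⁻¹) := by field_simp
    rw [this, hru, hru']; ring
  have hr1 : r ≤ 1 := by
    have : r^2 ≤ 1 := by rw [hr2]; nlinarith [sq_nonneg (l * s)]
    nlinarith
  have hrr : 1 - (l * s)^2 ≤ r := by rw [← hr2]; nlinarith
  have h1 : (1 - (l * s)^2) * n ≤ n - l * δ := by
    calc (1 - (l * s)^2) * n ≤ r * n := by gcongr
      _ ≤ _ := hz2.trans hz1
  have h2 : l * δ ≤ l * (l * (s^2 * n)) := by nlinarith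
  have h3 := le_of_mul_le_mul_left h2 hl0
  linarith

lemma exists_lower (hcont : Continuous N) (hsmul : ∀ (c : ℝ) x, N (c • x) = |c| * N x)
    (hpos : ∀ x, x ≠ 0 → 0 < N x) : ∃ c : ℝ, 0 < c ∧ ∀ x, c * ‖x‖ ≤ N x := by
  have hK : IsCompact (Metric.sphere (0 : ℝ × ℝ) 1) := isCompact_sphere _ _
  have hne : (Metric.sphere (0 : ℝ × ℝ) 1).Nonempty := by
    refine ⟨(1, 0), ?_⟩
    simp [Prod.norm_def]
  obtain ⟨x0, hx0, hmin⟩ := hK.exists_isMinOn hne hcont.continuousOn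
  have hx0' : x0 ≠ 0 := by
    intro h
    rw [h] at hx0
    simp at hx0
  refine ⟨N x0, hpos x0 hx0', ?_⟩
  intro x
  by_cases hx : x = 0
  · subst hx
    have h0 : N ((0:ℝ) • (0 : ℝ × ℝ)) = |(0:ℝ)| * N 0 := hsmul 0 0
    rw [smul_zero, abs_zero, zero_mul] at h0
    rw [h0, norm_zero, mul_zero]
  · have hxn : 0 < ‖x‖ := norm_pos_iff.2 hx
    have hmem : (‖x‖⁻¹ • x) ∈ Metric.sphere (0 : ℝ × ℝ) 1 := by
      rw [mem_sphere_zero_iff_norm, norm_smul, norm_inv, norm_norm, inv_mul_cancel₀ hxn.ne']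
    have h1 : N x0 ≤ N (‖x‖⁻¹ • x) := hmin hmem
    rw [hsmul, abs_of_pos (inv_pos.2 hxn)] at h1
    calc N x0 * ‖x‖ ≤ (‖x‖⁻¹ * N x) * ‖x‖ := by gcongr
      _ = N x := by field_simp

/-- in every normed plane there are three vectors with sum zero such that each is orthogonal
(in the sense of Birkhoff) to the difference of the two others -/
theorem exists_triple (hcont : Continuous N) (hadd : ∀ x y, N (x + y) ≤ N x + N y)
    (hsmul : ∀ (c : ℝ) x, N (c • x) = |c| * N x) (hpos : ∀ x, x ≠ 0 → 0 < N x) :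
    ∃ A B C : ℝ × ℝ, A + B + C = 0 ∧ cr A B = 1 ∧
      (∀ s : ℝ, N (A + B) ≤ N (A + B + s • (A - B))) ∧
      (∀ s : ℝ, N (B + C) ≤ N (B + C + s • (B - C))) ∧
      (∀ s : ℝ, N (C + A) ≤ N (C + A + s • (C - A))) := by
  have hN0 : N 0 = 0 := by
    have h0 : N ((0:ℝ) • (0 : ℝ × ℝ)) = |(0:ℝ)| * N 0 := hsmul 0 0
    rwa [smul_zero, abs_zero, zero_mul] at h0
  have hnn : ∀ x, 0 ≤ N x := by
    intro x
    by_cases hx : x = 0
    · rw [hx, hN0]
    · exact (hpos x hx).le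
  have hneg : ∀ x, N (-x) = N x := by
    intro x
    have := hsmul (-1) x
    rw [neg_one_smul, abs_neg, abs_one, one_mul] at this
    exact this
  obtain ⟨c, hc, hlow⟩ := exists_lower hcont hsmul hpos
  -- the function to minimise
  let G : (ℝ × ℝ) × (ℝ × ℝ) → ℝ := fun q => N q.1 * N q.2 * N (q.1 + q.2)
  have hG : Continuous G := by
    simp only [G]
    have h1 : Continuous (fun q : (ℝ × ℝ) × (ℝ × ℝ) => N q.1) := hcont.comp continuous_fst
    have h2 : Continuous (fun q : (ℝ × ℝ) × (ℝ × ℝ) => N q.2) := hcont.comp continuous_snd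
    have h3 : Continuous (fun q : (ℝ × ℝ) × (ℝ × ℝ) => N (q.1 + q.2)) :=
      hcont.comp (continuous_fst.add continuous_snd)
    exact (h1.mul h2).mul h3
  have hcrc : Continuous (fun q : (ℝ × ℝ) × (ℝ × ℝ) => cr q.1 q.2) := by
    unfold cr; fun_prop
  let S : Set ((ℝ × ℝ) × (ℝ × ℝ)) := {q | cr q.1 q.2 = 1}
  have hS : IsClosed S := isClosed_eq hcrc continuous_const
  -- lower bound on S
  have hlowS : ∀ q ∈ S, c^3 / 4 * ‖q.1‖ ≤ G q ∧ c^3 / 4 * ‖q.2‖ ≤ G q := by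
    rintro ⟨A, B⟩ hq
    have hq' : cr A B = 1 := hq
    have e1 : cr A (A + B) = 1 := by
      rw [← hq']; simp only [cr, Prod.fst_add, Prod.snd_add]; ring
    have e2 : cr (A + B) B = 1 := by
      rw [← hq']; simp only [cr, Prod.fst_add, Prod.snd_add]; ring
    have f1 := cr_le A (A + B)
    have f2 := cr_le (A + B) B
    rw [e1] at f1
    rw [e2] at f2
    have l1 := hlow A
    have l2 := hlow B
    have l3 := hlow (A + B)
    have hprod : (c * ‖A‖) * (c * ‖B‖) * (c * ‖A + B‖) ≤ G (A, B) := by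
      simp only [G]
      have n1 := hnn A
      have n2 := hnn B
      have n3 := hnn (A + B)
      have : 0 ≤ c * ‖A‖ := by positivity
      have : 0 ≤ c * ‖B‖ := by positivity
      have : 0 ≤ c * ‖A + B‖ := by positivity
      gcongr
    constructor
    · refine le_trans ?_ hprod
      have : c^3 / 4 * ‖A‖ ≤ (c^3 * ‖A‖) * (‖A + B‖ * ‖B‖) := by
        have hcA : 0 ≤ c^3 * ‖A‖ := by positivity
        nlinarith
      calc c^3 / 4 * ‖(A, B).1‖ ≤ (c^3 * ‖A‖) * (‖A + B‖ * ‖B‖) := this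
        _ = _ := by ring
    · refine le_trans ?_ hprod
      have : c^3 / 4 * ‖B‖ ≤ (c^3 * ‖B‖) * (‖A‖ * ‖A + B‖) := by
        have hcA : 0 ≤ c^3 * ‖B‖ := by positivity
        nlinarith
      calc c^3 / 4 * ‖(A, B).2‖ ≤ (c^3 * ‖B‖) * (‖A‖ * ‖A + B‖) := this
        _ = _ := by ring
  -- a reference point
  let q0 : (ℝ × ℝ) × (ℝ × ℝ) := ((1, 0), (0, 1))
  have hq0 : q0 ∈ S := by simp [S, q0, cr]
  let R : ℝ := 4 * G q0 / c^3
  have hc3 : 0 < c^3 := by positivity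
  have hG0 : 0 ≤ G q0 := by simp only [G]; exact mul_nonneg (mul_nonneg (hnn _) (hnn _)) (hnn _)
  let K : Set ((ℝ × ℝ) × (ℝ × ℝ)) := S ∩ Metric.closedBall 0 R
  have hK : IsCompact K := (isCompact_closedBall _ _).inter_left hS
  have hin : ∀ q ∈ S, G q ≤ G q0 → q ∈ K := by
    intro q hq hle
    refine ⟨hq, ?_⟩
    obtain ⟨h1, h2⟩ := hlowS q hq
    rw [mem_closedBall_zero_iff, Prod.norm_def]
    apply max_le
    · rw [le_div_iff₀ hc3]; linarith
    · rw [le_div_iff₀ hc3]; linarith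
  obtain ⟨q, hqK, hmin⟩ := hK.exists_isMinOn ⟨q0, hin q0 hq0 le_rfl⟩ hG.continuousOn
  have hminS : ∀ p ∈ S, G q ≤ G p := by
    intro p hp
    by_cases h : G p ≤ G q0
    · exact hmin (hin p hp h)
    · push Not at h
      exact (hmin (hin q0 hq0 le_rfl)).trans h.le
  obtain ⟨A, B⟩ := q
  have hAB : cr A B = 1 := hqK.1
  have hminS' : ∀ X Y : ℝ × ℝ, cr X Y = 1 → N A * N B * N (A + B) ≤ N X * N Y * N (X + Y) :=
    fun X Y h => hminS (X, Y) h
  have nz : ∀ X Y : ℝ × ℝ, cr X Y = 1 → X ≠ 0 ∧ Y ≠ 0 := by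
    intro X Y h
    constructor
    · rintro rfl; simp [cr] at h
    · rintro rfl; simp [cr] at h
  -- consequence for any pair with the same value of the functional
  have hpair : ∀ X Y : ℝ × ℝ, cr X Y = 1 → N X * N Y * N (X + Y) = N A * N B * N (A + B) →
      ∀ s : ℝ, N (X + Y) ≤ N (X + Y + s • (X - Y)) := by
    intro X Y hXY hval
    apply support_of_min hadd hsmul hnn
    intro u hu
    have h1 : cr (u • X) (u⁻¹ • Y) = 1 := by
      rw [← hXY]
      simp only [cr, Prod.smul_fst, Prod.smul_snd, smul_eq_mul]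
      field_simp
    have h2 := hminS' _ _ h1
    rw [← hval, hsmul, hsmul, abs_of_pos hu, abs_of_pos (inv_pos.2 hu)] at h2
    obtain ⟨nX, nY⟩ := nz X Y hXY
    have hX := hpos X nX
    have hY := hpos Y nY
    have h3 : (N X * N Y) * N (X + Y) ≤ (N X * N Y) * N (u • X + u⁻¹ • Y) := by
      calc (N X * N Y) * N (X + Y) ≤ u * N X * (u⁻¹ * N Y) * N (u • X + u⁻¹ • Y) := h2
        _ = _ := by field_simp
    exact le_of_mul_le_mul_left h3 (mul_pos hX hY)
  refine ⟨A, B, -(A + B), by abel, hAB, hpair A B hAB rfl, ?_, ?_⟩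
  · apply hpair
    · rw [← hAB]; simp only [cr, Prod.fst_neg, Prod.snd_neg, Prod.fst_add, Prod.snd_add]; ring
    · have e : B + -(A + B) = -A := by abel
      rw [e, hneg, hneg]; ring
  · apply hpair
    · rw [← hAB]; simp only [cr, Prod.fst_neg, Prod.snd_neg, Prod.fst_add, Prod.snd_add]; ring
    · have e : -(A + B) + A = -B := by abel
      rw [e, hneg, hneg]; ring

end norm

end Pool.Agent.Helper87.Erdos
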