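import Pool.Agent.Helper87.ErdosDefs
import Pool.Agent.Helper87.ErdosNorm

set_option autoImplicit false

namespace Pool.Agent.Helper87.Erdos

open Set Filter Topology

/-- `tanh` of half a logarithm -/
lemma tanh_half_log {E : ℝ} (hE : 0 < E) : Real.tanh ((1 / 2) * Real.log E) = (E - 1) / (E + 1) := by
  rw [Real.tanh_eq_sinh_div_cosh, Real.sinh_eq, Real.cosh_eq]
  obtain ⟨w, hw⟩ : ∃ w, w = Real.exp ((1 / 2) * Real.log E) := ⟨_, rfl⟩
  have hw0 : 0 < w := by rw [hw]; exact Real.exp_pos _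
  have hw2 : w * w = E := by
    rw [hw, ← Real.exp_add]
    have : 1 / 2 * Real.log E + 1 / 2 * Real.log E = Real.log E := by ring
    rw [this, Real.exp_log hE]
  rw [Real.exp_neg, ← hw, ← hw2]
  have : 0 < w * w + 1 := by positivity
  field_simp

section

variable {M : Set (ℝ × ℝ)} {O : ℝ × ℝ}

lemma shift_open (hM : IsOpen M) (O : ℝ × ℝ) : IsOpen ((fun z => z - O) '' M) := by
  have : (fun z : ℝ × ℝ => z - O) '' M = (fun z => z + O) ⁻¹' M := by
    ext z
    constructor
    · rintro ⟨y, hy, rfl⟩; simpa using hy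
    · intro hz; exact ⟨z + O, hz, by simp⟩
  rw [this]
  exact hM.preimage (by fun_prop)

lemma shift_convex (hM : Convex ℝ M) (O : ℝ × ℝ) : Convex ℝ ((fun z => z - O) '' M) := by
  have : (fun z : ℝ × ℝ => z - O) '' M = (fun z => z + O) ⁻¹' M := by
    ext z
    constructor
    · rintro ⟨y, hy, rfl⟩; simpa using hy
    · intro hz; exact ⟨z + O, hz, by simp⟩
  rw [this]
  exact hM.translate_preimage_left O

lemma shift_zero (hO : O ∈ M) : (0 : ℝ × ℝ) ∈ ((fun z => z - O) '' M) := ⟨O, hO, by simp⟩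

lemma shift_nhds (hM : IsOpen M) (hO : O ∈ M) : ((fun z => z - O) '' M) ∈ 𝓝 (0 : ℝ × ℝ) :=
  (shift_open hM O).mem_nhds (shift_zero hO)

/-- directional function at `O` -/
noncomputable def gg (M : Set (ℝ × ℝ)) (O v : ℝ × ℝ) : ℝ := gauge ((fun z => z - O) '' M) v

/-- twice the infinitesimal norm -/
noncomputable def nn (M : Set (ℝ × ℝ)) (O v : ℝ × ℝ) : ℝ := (gg M O v + gg M O (-v)) / 2

lemma gg_nonneg (v : ℝ × ℝ) : 0 ≤ gg M O v := gauge_nonneg _

lemma gg_smul {c : ℝ} (hc : 0 ≤ c) (v : ℝ × ℝ) : gg M O (c • v) = c * gg M O v := by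
  unfold gg
  rw [gauge_smul_of_nonneg hc, smul_eq_mul]

lemma gg_add (hM : IsOpen M) (hc : Convex ℝ M) (hO : O ∈ M) (v w : ℝ × ℝ) :
    gg M O (v + w) ≤ gg M O v + gg M O w :=
  gauge_add_le (shift_convex hc O) (absorbent_nhds_zero (shift_nhds hM hO)) v w

lemma gg_continuous (hM : IsOpen M) (hc : Convex ℝ M) (hO : O ∈ M) : Continuous (gg M O) :=
  continuous_gauge (shift_convex hc O) (shift_nhds hM hO)

lemma gg_lt_one_iff (hM : IsOpen M) (hc : Convex ℝ M) (hO : O ∈ M) (v : ℝ × ℝ) :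
    gg M O v < 1 ↔ O + v ∈ M := by
  unfold gg
  rw [gauge_lt_one_iff_mem_interior (shift_convex hc O) (shift_nhds hM hO),
    (shift_open hM O).interior_eq]
  constructor
  · rintro ⟨y, hy, rfl⟩; simpa using hy
  · intro h; exact ⟨O + v, h, by simp⟩

lemma nn_continuous (hM : IsOpen M) (hc : Convex ℝ M) (hO : O ∈ M) : Continuous (nn M O) := by
  unfold nn
  have := gg_continuous hM hc hO
  fun_prop

lemma nn_add (hM : IsOpen M) (hc : Convex ℝ M) (hO : O ∈ M) (v w : ℝ × ℝ) :
    nn M O (v + w) ≤ nn M O v + nn M O w := by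
  unfold nn
  have h1 := gg_add hM hc hO v w
  have h2 := gg_add hM hc hO (-v) (-w)
  rw [neg_add]
  linarith

lemma nn_smul (c : ℝ) (v : ℝ × ℝ) : nn M O (c • v) = |c| * nn M O v := by
  unfold nn
  rcases le_total 0 c with h | h
  · rw [abs_of_nonneg h, gg_smul h, ← smul_neg, gg_smul h]; ring
  · rw [abs_of_nonpos h]
    have e1 : c • v = (-c) • (-v) := by simp
    have e2 : -(c • v) = (-c) • v := by simp
    rw [e1, gg_smul (by linarith)]
    have e3 : -((-c) • (-v)) = (-c) • v := by simp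
    rw [e3, gg_smul (by linarith)]; ring

/-- strict convexity of the closure excludes full lines -/
lemma nn_pos (hM : IsHilbertDomain M) (hO : O ∈ M) {v : ℝ × ℝ} (hv : v ≠ 0) : 0 < nn M O v := by
  obtain ⟨hMo, hc, -, hne, hst⟩ := hM
  by_contra hle
  have hle' : nn M O v ≤ 0 := not_lt.1 hle
  unfold nn at hle'
  have h1 : gg M O v = 0 := by linarith [gg_nonneg (M := M) (O := O) v, gg_nonneg (M := M) (O := O) (-v)]
  have h2 : gg M O (-v) = 0 := by linarith [gg_nonneg (M := M) (O := O) v, gg_nonneg (M := M) (O := O) (-v)]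
  have hline : ∀ t : ℝ, O + t • v ∈ M := by
    intro t
    rw [← gg_lt_one_iff hMo hc hO]
    rcases le_total 0 t with h | h
    · rw [gg_smul h, h1]; simp
    · have e1 : t • v = (-t) • (-v) := by simp
      rw [e1, gg_smul (by linarith), h2]; simp
  -- a point outside
  obtain ⟨P, hP⟩ : ∃ P, P ∉ M := by
    by_contra hh
    push Not at hh
    exact hne (eq_univ_of_forall hh)
  -- boundary point on the segment from O to P
  have hOP : gg M O (P - O) ≥ 1 := by
    by_contra hh
    push Not at hh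
    rw [gg_lt_one_iff hMo hc hO] at hh
    apply hP
    simpa using hh
  obtain ⟨γ, hγ⟩ : ∃ γ, γ = gg M O (P - O) := ⟨_, rfl⟩
  rw [← hγ] at hOP
  have hγ0 : 0 < γ := by linarith
  obtain ⟨Z, hZ⟩ : ∃ Z, Z = O + γ⁻¹ • (P - O) := ⟨_, rfl⟩
  have hZn : Z ∉ M := by
    rw [hZ, ← gg_lt_one_iff hMo hc hO, gg_smul (inv_nonneg.2 hγ0.le), ← hγ, inv_mul_cancel₀ hγ0.ne']
    exact lt_irrefl _
  -- Z + t v is in the closure for all t
  have hcl : ∀ t : ℝ, Z + t • v ∈ closure M := by
    intro t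
    have hlim : Tendsto (fun n : ℕ => O + (1 - 1/((n:ℝ)+1)) • (Z - O) + t • v) atTop
        (𝓝 (O + (1 - 0 : ℝ) • (Z - O) + t • v)) := by
      have h3 : Tendsto (fun n : ℕ => 1/((n:ℝ)+1)) atTop (𝓝 0) := tendsto_one_div_add_atTop_nhds_zero_nat
      exact ((tendsto_const_nhds.add ((tendsto_const_nhds.sub h3).smul_const _)).add
        tendsto_const_nhds)
    have e : O + (1 - 0 : ℝ) • (Z - O) + t • v = Z + t • v := by module
    rw [e] at hlim
    refine mem_closure_of_tendsto hlim (Eventually.of_forall fun n => ?_)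
    have hn : (0:ℝ) < (n:ℝ) + 1 := by positivity
    have hn0 : 0 ≤ 1 - 1/((n:ℝ)+1) := by
      rw [sub_nonneg, div_le_one hn]
      have : (0:ℝ) ≤ n := Nat.cast_nonneg n
      linarith
    have hn1 : 0 < 1/((n:ℝ)+1) := by positivity
    have hin : O + (1 - 1/((n:ℝ)+1)) • (Z - O) + t • v ∈ M := by
      have e2 : O + (1 - 1/((n:ℝ)+1)) • (Z - O) + t • v
          = O + ((1 - 1/((n:ℝ)+1)) • (Z - O) + t • v) := by rw [add_assoc]
      rw [e2, ← gg_lt_one_iff hMo hc hO]
      refine (gg_add hMo hc hO _ _).trans_lt ?_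
      have h4 : gg M O (t • v) = 0 := by
        rcases le_total 0 t with h | h
        · rw [gg_smul h, h1]; simp
        · have e1 : t • v = (-t) • (-v) := by simp
          rw [e1, gg_smul (by linarith), h2]; simp
      rw [h4, add_zero, gg_smul hn0]
      have e5 : Z - O = γ⁻¹ • (P - O) := by rw [hZ]; simp
      rw [e5, gg_smul (inv_nonneg.2 hγ0.le), ← hγ, inv_mul_cancel₀ hγ0.ne']
      linarith
    exact hin
  have hint := hst (hcl 1) (hcl (-1)) (by
    intro h
    have : (2:ℝ) • v = 0 := by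
      have := sub_eq_zero.2 h
      have e : Z + (1:ℝ) • v - (Z + (-1:ℝ) • v) = (2:ℝ) • v := by module
      rwa [e] at this
    rcases smul_eq_zero.1 this with h' | h'
    · norm_num at h'
    · exact hv h') (a := 1/2) (b := 1/2) (by norm_num) (by norm_num) (by norm_num)
  have e : (1/2 : ℝ) • (Z + (1:ℝ) • v) + (1/2 : ℝ) • (Z + (-1:ℝ) • v) = Z := by module
  rw [e, hc.interior_closure_eq_interior_of_nonempty_interior ⟨O, by rwa [hMo.interior_eq]⟩,
    hMo.interior_eq] at hint
  exact hZn hint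

lemma tanh_hdist (hM : IsOpen M) (hc : Convex ℝ M) (hO : O ∈ M) {v : ℝ × ℝ} (hv : O + v ∈ M) :
    Real.tanh (hdist M O (O + v)) = nn M O v / (1 + (gg M O (-v) - gg M O v) / 2) := by
  have h1 : gg M O v < 1 := (gg_lt_one_iff hM hc hO v).2 hv
  have h0 := gg_nonneg (M := M) (O := O) v
  have h0' := gg_nonneg (M := M) (O := O) (-v)
  have e1 : O - (O + v) = -v := by abel
  have e2 : O + v - O = v := by abel
  unfold hdist
  rw [e1, e2]
  have hE : 0 < (1 + gauge ((fun z => z - O) '' M) (-v)) / (1 - gauge ((fun z => z - O) '' M) v) := by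
    apply div_pos
    · have := h0'; unfold gg at this; linarith
    · have := h1; unfold gg at this; linarith
  rw [tanh_half_log hE]
  unfold nn
  change ((1 + gg M O (-v)) / (1 - gg M O v) - 1) / ((1 + gg M O (-v)) / (1 - gg M O v) + 1) = _
  have h2 : 1 - gg M O v ≠ 0 := by
    intro h; linarith
  have i1 : (1 + gg M O (-v)) / (1 - gg M O v) - 1
      = (gg M O v + gg M O (-v)) / (1 - gg M O v) := by field_simp; ring
  have i2 : (1 + gg M O (-v)) / (1 - gg M O v) + 1
      = (2 + gg M O (-v) - gg M O v) / (1 - gg M O v) := by field_simp; ring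
  have i3 : 1 + (gg M O (-v) - gg M O v) / 2 = (2 + gg M O (-v) - gg M O v) / 2 := by ring
  rw [i1, i2, i3, div_div_div_cancel_right₀ h2, div_div_div_cancel_right₀ two_ne_zero]

lemma hdist_eq_log (v : ℝ × ℝ) :
    hdist M O (O + v) = (1/2) * Real.log ((1 + gg M O (-v)) / (1 - gg M O v)) := by
  have e1 : O - (O + v) = -v := by abel
  have e2 : O + v - O = v := by abel
  unfold hdist gg
  rw [e1, e2]

/-- existence of feet -/
lemma exists_foot (hM : IsHilbertDomain M) (hO : O ∈ M) {B C : ℝ × ℝ} (hB : B ∈ M) (hBC : B ≠ C) :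
    ∃ F, IsFoot M O B C F := by
  have hMo := hM.isOpen
  have hc := hM.convex
  have hgc := gg_continuous hMo hc hO
  have hnc := nn_continuous hMo hc hO
  obtain ⟨c, hc0, hlow⟩ := exists_lower hnc nn_smul (fun x hx => nn_pos hM hO hx)
  -- parametrisation
  let w : ℝ → ℝ × ℝ := fun u => B - O + u • (C - B)
  have hw : Continuous w := by simp only [w]; fun_prop
  let E0 : ℝ := (1 + gg M O (-(B - O))) / (1 - gg M O (B - O))
  have hB' : gg M O (B - O) < 1 := by
    rw [gg_lt_one_iff hMo hc hO]; simpa using hB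
  have hE0 : 0 < 1 - gg M O (B - O) := by linarith
  have hE1 : 1 ≤ E0 := by
    simp only [E0]
    rw [one_le_div hE0]
    linarith [gg_nonneg (M := M) (O := O) (B - O), gg_nonneg (M := M) (O := O) (-(B - O))]
  let K : Set ℝ := {u | 1 + gg M O (-(w u)) ≤ E0 * (1 - gg M O (w u))}
  have hKc : IsClosed K := by
    apply isClosed_le
    · exact continuous_const.add (hgc.comp hw.neg)
    · exact continuous_const.mul (continuous_const.sub (hgc.comp hw))
  have h0K : (0:ℝ) ∈ K := by
    have e : w 0 = B - O := by simp [w]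
    change 1 + gg M O (-(w 0)) ≤ E0 * (1 - gg M O (w 0))
    rw [e]
    simp only [E0]
    rw [div_mul_cancel₀ _ hE0.ne']
  have hKb : K ⊆ Metric.closedBall 0 ((E0 / c + ‖B - O‖) / ‖C - B‖) := by
    intro u hu
    have hu' : 1 + gg M O (-(w u)) ≤ E0 * (1 - gg M O (w u)) := hu
    have hCB : 0 < ‖C - B‖ := norm_pos_iff.2 (sub_ne_zero.2 hBC.symm)
    rw [mem_closedBall_zero_iff, Real.norm_eq_abs, le_div_iff₀ hCB]
    have h1 : nn M O (w u) ≤ E0 := by
      unfold nn
      have := gg_nonneg (M := M) (O := O) (w u)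
      have := gg_nonneg (M := M) (O := O) (-(w u))
      nlinarith
    have h2 : c * ‖w u‖ ≤ E0 := (hlow _).trans h1
    have h3 : ‖w u‖ ≤ E0 / c := by rw [le_div_iff₀ hc0]; linarith
    have h4 : ‖u • (C - B)‖ ≤ ‖w u‖ + ‖B - O‖ := by
      have : u • (C - B) = w u - (B - O) := by simp [w]
      rw [this]; exact norm_sub_le _ _
    rw [norm_smul, Real.norm_eq_abs] at h4
    linarith
  have hKcomp : IsCompact K := (isCompact_closedBall _ _).of_isClosed_subset hKc hKb
  have hpos : ∀ u ∈ K, 0 < 1 - gg M O (w u) := by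
    intro u hu
    have hu' : 1 + gg M O (-(w u)) ≤ E0 * (1 - gg M O (w u)) := hu
    by_contra hh
    push Not at hh
    have : E0 * (1 - gg M O (w u)) ≤ 0 := mul_nonpos_of_nonneg_of_nonpos (by linarith) hh
    linarith [gg_nonneg (M := M) (O := O) (-(w u))]
  let h : ℝ → ℝ := fun u => (1 + gg M O (-(w u))) / (1 - gg M O (w u))
  have hh : ContinuousOn h K := by
    apply ContinuousOn.div
    · exact (continuous_const.add (hgc.comp hw.neg)).continuousOn
    · exact (continuous_const.sub (hgc.comp hw)).continuousOn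
    · intro u hu; exact (hpos u hu).ne'
  obtain ⟨u0, hu0, hmin⟩ := hKcomp.exists_isMinOn ⟨0, h0K⟩ hh
  have hfm : O + w u0 ∈ M := by
    rw [← gg_lt_one_iff hMo hc hO]; linarith [hpos u0 hu0]
  have hmem : ∀ u, O + w u ∈ affineSpan ℝ ({B, C} : Set (ℝ × ℝ)) := by
    intro u
    rw [mem_affineSpan_pair_iff_exists_lineMap_eq]
    refine ⟨u, ?_⟩
    rw [AffineMap.lineMap_apply, vsub_eq_sub, vadd_eq_add]
    simp only [w]; abel
  refine ⟨O + w u0, hmem u0, hfm, ?_⟩
  intro X hX hXM
  rw [mem_affineSpan_pair_iff_exists_lineMap_eq] at hX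
  obtain ⟨u, rfl⟩ := hX
  have e : AffineMap.lineMap B C u = O + w u := by
    rw [AffineMap.lineMap_apply, vsub_eq_sub, vadd_eq_add]
    simp only [w]; abel
  rw [e] at hXM ⊢
  rw [hdist_eq_log, hdist_eq_log]
  have hu1 : 0 < 1 - gg M O (w u) := by linarith [(gg_lt_one_iff hMo hc hO _).2 hXM]
  have key : h u0 ≤ h u := by
    by_cases hu : u ∈ K
    · exact hmin hu
    · have hu' : ¬ (1 + gg M O (-(w u)) ≤ E0 * (1 - gg M O (w u))) := hu
      push Not at hu'
      have h1 : E0 < h u := by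
        simp only [h]
        rw [lt_div_iff₀ hu1]; exact hu'
      have h2 : h u0 ≤ E0 := by
        have := hu0
        have hu0' : 1 + gg M O (-(w u0)) ≤ E0 * (1 - gg M O (w u0)) := hu0
        simp only [h]
        rw [div_le_iff₀ (hpos u0 hu0)]; exact hu0'
      linarith
  have hp : 0 < h u0 := by
    simp only [h]
    apply div_pos _ (hpos u0 hu0)
    linarith [gg_nonneg (M := M) (O := O) (-(w u0))]
  have := Real.log_le_log hp key
  simp only [h] at this
  linarith

end

end Pool.Agent.Helper87.Erdos
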