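import Pool.Agent.Helper87.ErdosUpper

set_option autoImplicit false

namespace Pool.Agent.Helper87.Erdos

open Set Filter Topology

section

variable {M : Set (ℝ × ℝ)} {O : ℝ × ℝ}

lemma not_collinear_of_cr {P Q R : ℝ × ℝ} (h : cr (Q - P) (R - P) ≠ 0) :
    ¬ Collinear ℝ {P, Q, R} := by
  intro hc
  rw [collinear_iff_of_mem (p₀ := P) (by simp)] at hc
  obtain ⟨v, hv⟩ := hc
  obtain ⟨r1, h1⟩ := hv Q (by simp)
  obtain ⟨r2, h2⟩ := hv R (by simp)
  apply h
  have e1 : Q - P = r1 • v := by rw [h1]; simp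
  have e2 : R - P = r2 • v := by rw [h2]; simp
  rw [e1, e2]
  simp only [cr, Prod.smul_fst, Prod.smul_snd, smul_eq_mul]
  ring

lemma nn_neg (v : ℝ × ℝ) : nn M O (-v) = nn M O v := by
  have := nn_smul (M := M) (O := O) (-1) v
  rw [neg_one_smul, abs_neg, abs_one, one_mul] at this
  exact this

lemma gg_le_nn (v : ℝ × ℝ) : gg M O v ≤ 2 * nn M O v := by
  unfold nn
  linarith [gg_nonneg (M := M) (O := O) (-v)]

lemma nn_nonneg (v : ℝ × ℝ) : 0 ≤ nn M O v := by
  unfold nn
  linarith [gg_nonneg (M := M) (O := O) (-v), gg_nonneg (M := M) (O := O) v]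

/-- upper bound for the distance to a vertex -/
lemma tanh_upper (hM : IsOpen M) (hc : Convex ℝ M) (hO : O ∈ M) {v : ℝ × ℝ} {x : ℝ}
    (hx : nn M O v ≤ x) (hx1 : 2 * x < 1) :
    O + v ∈ M ∧ Real.tanh (hdist M O (O + v)) ≤ nn M O v / (1 - x) := by
  have h1 := gg_le_nn (M := M) (O := O) v
  have hv : O + v ∈ M := by
    rw [← gg_lt_one_iff hM hc hO]; linarith
  refine ⟨hv, ?_⟩
  rw [tanh_hdist hM hc hO hv]
  have h0 := nn_nonneg (M := M) (O := O) v
  apply div_le_div_of_nonneg_left h0 (by linarith)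
  linarith [gg_nonneg (M := M) (O := O) (-v)]

/-- lower bound for the distance to a foot -/
lemma tanh_lower (hM : IsOpen M) (hc : Convex ℝ M) (hO : O ∈ M) {v : ℝ × ℝ} {y x : ℝ}
    (hv : O + v ∈ M) (hy : y ≤ nn M O v) (hy0 : 0 < y) (hyx : y ≤ x) :
    y / (1 + x) ≤ Real.tanh (hdist M O (O + v)) := by
  rw [tanh_hdist hM hc hO hv]
  have h1 : gg M O v < 1 := (gg_lt_one_iff hM hc hO v).2 hv
  have h2 : 1 + (gg M O (-v) - gg M O v) / 2 ≤ 1 + nn M O v := by
    unfold nn
    linarith [gg_nonneg (M := M) (O := O) v]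
  have h3 : 0 < 1 + (gg M O (-v) - gg M O v) / 2 := by
    linarith [gg_nonneg (M := M) (O := O) (-v)]
  calc y / (1 + x) ≤ y / (1 + y) := by
        apply div_le_div_of_nonneg_left hy0.le (by linarith); linarith
    _ ≤ nn M O v / (1 + nn M O v) := by
        rw [div_le_div_iff₀ (by linarith) (by linarith)]; nlinarith
    _ ≤ _ := by
        apply div_le_div_of_nonneg_left (by linarith) h3 h2

/-- a foot on a small side: its tangent norm is at least half of that of the opposite vertex -/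
lemma foot_lower (hM : IsOpen M) (hc : Convex ℝ M) (hO : O ∈ M) {a b c : ℝ × ℝ}
    (habc : a + b + c = 0) (hsup : ∀ s : ℝ, nn M O (b + c) ≤ nn M O (b + c + s • (b - c)))
    {ε x : ℝ} (hε : 0 < ε) (ha : 0 < nn M O a) (hx : ε * nn M O a ≤ x) {F : ℝ × ℝ}
    (hF : IsFoot M O (O + ε • b) (O + ε • c) F) :
    (ε * nn M O a / 2) / (1 + x) ≤ Real.tanh (hdist M O F) := by
  obtain ⟨hFl, hFM, -⟩ := hF
  rw [mem_affineSpan_pair_iff_exists_lineMap_eq] at hFl
  obtain ⟨u, rfl⟩ := hFl
  have e : AffineMap.lineMap (O + ε • b) (O + ε • c) u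
      = O + ε • ((1/2 : ℝ) • (b + c + (1 - 2 * u) • (b - c))) := by
    rw [AffineMap.lineMap_apply, vsub_eq_sub, vadd_eq_add]
    module
  rw [e] at hFM ⊢
  have ea : b + c = -a := by
    have : a + (b + c) = 0 := by rw [← add_assoc]; exact habc
    exact (neg_eq_of_add_eq_zero_right this).symm
  have h1 := hsup (1 - 2 * u)
  have h2 : nn M O (b + c) = nn M O a := by rw [ea, nn_neg]
  have hεa : 0 < ε * nn M O a := mul_pos hε ha
  apply tanh_lower hM hc hO hFM
  · rw [nn_smul, nn_smul, abs_of_pos hε, abs_of_pos (by norm_num : (0:ℝ) < 1/2)]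
    rw [h2] at h1
    nlinarith
  · linarith
  · linarith

theorem exists_config_lt (hM : IsHilbertDomain M) {δ : ℝ} (hδ : 0 < δ) :
    ∃ A B C O P Q R : ℝ × ℝ, IsConfig M A B C O P Q R ∧ configRatio M A B C O P Q R < 2 + δ := by
  have hMo := hM.isOpen
  have hc := hM.convex
  obtain ⟨O, hO⟩ := hM.nonempty
  obtain ⟨a, b, c, habc, hcr, hab, hbc, hca⟩ := exists_triple (nn_continuous hMo hc hO)
    (nn_add hMo hc hO) nn_smul (fun x hx => nn_pos hM hO hx)
  have ha0 : a ≠ 0 := by rintro rfl; simp [cr] at hcr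
  have hb0 : b ≠ 0 := by rintro rfl; simp [cr] at hcr
  have hce : c = -(a + b) := by
    exact (neg_eq_of_add_eq_zero_right habc).symm
  have hc0 : c ≠ 0 := by
    intro h
    rw [h, eq_comm, neg_eq_zero] at hce
    have : b = -a := (neg_eq_of_add_eq_zero_right hce).symm
    rw [this] at hcr
    simp only [cr, Prod.fst_neg, Prod.snd_neg] at hcr
    linarith
  have na := nn_pos hM hO ha0
  have nb := nn_pos hM hO hb0
  have nc := nn_pos hM hO hc0
  obtain ⟨L, hL⟩ : ∃ L, L = nn M O a + nn M O b + nn M O c := ⟨_, rfl⟩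
  have hL0 : 0 < L := by rw [hL]; linarith
  obtain ⟨x, hx⟩ : ∃ x, x = δ / (2 * (4 + δ)) := ⟨_, rfl⟩
  have hx0 : 0 < x := by rw [hx]; positivity
  have hx1 : 2 * x < 1 := by rw [hx, ← mul_div_assoc, div_lt_one (by positivity)]; linarith
  have hx2 : x * (4 + δ) < δ := by
    rw [hx]; field_simp; linarith
  obtain ⟨ε, hε⟩ : ∃ ε, ε = x / L := ⟨_, rfl⟩
  have hε0 : 0 < ε := by rw [hε]; positivity
  have hεL : ε * L = x := by rw [hε]; field_simp
  have ea : ε * nn M O a ≤ x := by rw [← hεL]; gcongr; linarith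
  have eb : ε * nn M O b ≤ x := by rw [← hεL]; gcongr; linarith
  have ec : ε * nn M O c ≤ x := by rw [← hεL]; gcongr; linarith
  have sm : ∀ v, nn M O (ε • v) = ε * nn M O v := fun v => by rw [nn_smul, abs_of_pos hε0]
  obtain ⟨hA, uA⟩ := tanh_upper hMo hc hO (v := ε • a) (by rw [sm]; exact ea) hx1
  obtain ⟨hB, uB⟩ := tanh_upper hMo hc hO (v := ε • b) (by rw [sm]; exact eb) hx1
  obtain ⟨hC, uC⟩ := tanh_upper hMo hc hO (v := ε • c) (by rw [sm]; exact ec) hx1
  rw [sm] at uA uB uC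
  -- non-collinearity
  have hcrn : cr ((O + ε • b) - (O + ε • a)) ((O + ε • c) - (O + ε • a)) ≠ 0 := by
    have : cr ((O + ε • b) - (O + ε • a)) ((O + ε • c) - (O + ε • a)) = 3 * ε^2 * cr a b := by
      rw [hce]
      simp only [cr, Prod.fst_sub, Prod.snd_sub, Prod.fst_add, Prod.snd_add, Prod.smul_fst,
        Prod.smul_snd, smul_eq_mul, Prod.fst_neg, Prod.snd_neg]
      ring
    rw [this, hcr]; positivity
  have hnc := not_collinear_of_cr hcrn
  have hne1 : O + ε • b ≠ O + ε • c := by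
    intro h
    apply hcrn
    rw [h]; simp only [cr]; ring
  have hne2 : O + ε • c ≠ O + ε • a := by
    intro h
    apply hcrn
    rw [h]; simp only [cr, Prod.fst_sub, Prod.snd_sub]; ring
  have hne3 : O + ε • a ≠ O + ε • b := by
    intro h
    apply hcrn
    rw [h]; simp only [cr, Prod.fst_sub, Prod.snd_sub]; ring
  obtain ⟨P, hP⟩ := exists_foot hM hO hB hne1
  obtain ⟨Q, hQ⟩ := exists_foot hM hO hC hne2
  obtain ⟨R, hR⟩ := exists_foot hM hO hA hne3
  have lP := foot_lower hMo hc hO habc hbc hε0 na ea hP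
  have lQ := foot_lower hMo hc hO (a := b) (b := c) (c := a) (by rw [← habc]; abel) hca hε0 nb eb hQ
  have lR := foot_lower hMo hc hO (a := c) (b := a) (c := b) (by rw [← habc]; abel) hab hε0 nc ec hR
  refine ⟨O + ε • a, O + ε • b, O + ε • c, O, P, Q, R, ⟨hA, hB, hC, hnc,
    ⟨1/3, 1/3, 1/3, by norm_num, by norm_num, by norm_num, by norm_num, ?_⟩, hP, hQ, hR⟩, ?_⟩
  · rw [hce]; module
  · unfold configRatio
    have hnum : Real.tanh (hdist M O (O + ε • a)) + Real.tanh (hdist M O (O + ε • b))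
        + Real.tanh (hdist M O (O + ε • c)) ≤ x / (1 - x) := by
      calc _ ≤ ε * nn M O a / (1 - x) + ε * nn M O b / (1 - x) + ε * nn M O c / (1 - x) := by
            linarith
        _ = (ε * L) / (1 - x) := by rw [hL]; ring
        _ = _ := by rw [hεL]
    have hden : (x / 2) / (1 + x) ≤ Real.tanh (hdist M O P) + Real.tanh (hdist M O Q)
        + Real.tanh (hdist M O R) := by
      calc (x / 2) / (1 + x) = (ε * L / 2) / (1 + x) := by rw [hεL]
        _ = (ε * nn M O a / 2) / (1 + x) + (ε * nn M O b / 2) / (1 + x)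
            + (ε * nn M O c / 2) / (1 + x) := by rw [hL]; ring
        _ ≤ _ := by linarith
    have hdpos : 0 < (x / 2) / (1 + x) := by positivity
    rw [div_lt_iff₀ (by linarith)]
    have h1x : 0 < 1 - x := by linarith
    calc _ ≤ x / (1 - x) := hnum
      _ < (2 + δ) * ((x / 2) / (1 + x)) := by
        rw [← mul_div_assoc, div_lt_div_iff₀ h1x (by linarith)]
        have : 0 < x * (δ - x * (4 + δ)) := mul_pos hx0 (by linarith)
        nlinarith
      _ ≤ _ := by gcongr

end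

end Pool.Agent.Helper87.Erdos
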