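import Mathlib

set_option autoImplicit false

namespace Pool.Agent.Helper87.HilbertPlane

open Set Filter Topology

/-- value at `z` of the affine functional with coefficients `f = (c, u, v)` -/
def ev (f : ℝ × ℝ × ℝ) (z : ℝ × ℝ) : ℝ := f.1 + f.2.1 * z.1 + f.2.2 * z.2

/-- linear part -/
def lin (f : ℝ × ℝ × ℝ) (w : ℝ × ℝ) : ℝ := f.2.1 * w.1 + f.2.2 * w.2

lemma ev_add_smul (f : ℝ × ℝ × ℝ) (x w : ℝ × ℝ) (t : ℝ) :
    ev f (x + t • w) = ev f x + t * lin f w := by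
  simp only [ev, lin, Prod.fst_add, Prod.snd_add, Prod.smul_fst, Prod.smul_snd, smul_eq_mul]; ring

lemma lin_sub (f : ℝ × ℝ × ℝ) (x y : ℝ × ℝ) : lin f (x - y) = ev f x - ev f y := by
  simp only [ev, lin, Prod.fst_sub, Prod.snd_sub]; ring

lemma ev_add_smul_sub (f : ℝ × ℝ × ℝ) (x y z : ℝ × ℝ) (t : ℝ) :
    ev f (x + t • (y - z)) = ev f x + t * (ev f y - ev f z) := by
  rw [ev_add_smul, lin_sub]

lemma ev_sub_smul_sub (f : ℝ × ℝ × ℝ) (x y z : ℝ × ℝ) (t : ℝ) :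
    ev f (x - t • (y - z)) = ev f x - t * (ev f y - ev f z) := by
  have : x - t • (y - z) = x + (-t) • (y - z) := by rw [neg_smul, sub_eq_add_neg]
  rw [this, ev_add_smul_sub]; ring

lemma continuous_ev : Continuous (fun q : (ℝ × ℝ × ℝ) × (ℝ × ℝ) => ev q.1 q.2) := by
  unfold ev; fun_prop

lemma continuous_ev_right (f : ℝ × ℝ × ℝ) : Continuous (fun z => ev f z) := by
  unfold ev; fun_prop

lemma continuous_ev_left (z : ℝ × ℝ) : Continuous (fun f : ℝ × ℝ × ℝ => ev f z) := by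
  unfold ev; fun_prop

lemma continuous_lin_left (z : ℝ × ℝ) : Continuous (fun f : ℝ × ℝ × ℝ => lin f z) := by
  unfold lin; fun_prop

/-- nonnegative affine functionals on `Ω` normalised at `O` -/
def Pol (Ω : Set (ℝ × ℝ)) (O : ℝ × ℝ) : Set (ℝ × ℝ × ℝ) :=
  {f | ev f O = 1 ∧ ∀ z ∈ Ω, 0 ≤ ev f z}

section basics

variable {Ω : Set (ℝ × ℝ)} {O : ℝ × ℝ}

lemma Pol_pos (hΩ : IsOpen Ω) {f : ℝ × ℝ × ℝ} (hf : f ∈ Pol Ω O) {z : ℝ × ℝ} (hz : z ∈ Ω) :
    0 < ev f z := by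
  rcases (hf.2 z hz).lt_or_eq with h | h
  · exact h
  exfalso
  have hc : Continuous (fun δ : ℝ => z + δ • (z - O)) := by fun_prop
  have h0 : (0:ℝ) ∈ (fun δ : ℝ => z + δ • (z - O)) ⁻¹' Ω := by simpa using hz
  have hopen := hΩ.preimage hc
  obtain ⟨ε, hε, hball⟩ := Metric.isOpen_iff.1 hopen 0 h0
  have hm : (ε/2) ∈ Metric.ball (0:ℝ) ε := by
    rw [Metric.mem_ball, Real.dist_eq, sub_zero, abs_of_pos (by linarith)]; linarith
  have := hf.2 _ (hball hm)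
  rw [ev_add_smul_sub, ← h, hf.1] at this
  linarith

lemma Pol_nonneg_closure {f : ℝ × ℝ × ℝ} (hf : f ∈ Pol Ω O) {z : ℝ × ℝ} (hz : z ∈ closure Ω) :
    0 ≤ ev f z := by
  have hcl : IsClosed {z | 0 ≤ ev f z} := isClosed_le continuous_const (continuous_ev_right f)
  exact closure_minimal (fun z hz => hf.2 z hz) hcl hz

lemma isClosed_Pol : IsClosed (Pol Ω O) := by
  have : Pol Ω O = {f | ev f O = 1} ∩ ⋂ z ∈ Ω, {f | 0 ≤ ev f z} := by
    ext f; simp [Pol]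
  rw [this]
  refine IsClosed.inter (isClosed_eq (continuous_ev_left O) continuous_const) ?_
  exact isClosed_biInter (fun z _ => isClosed_le continuous_const (continuous_ev_left z))

lemma isCompact_Pol (hΩ : IsOpen Ω) (hO : O ∈ Ω) : IsCompact (Pol Ω O) := by
  refine Metric.isCompact_of_isClosed_isBounded isClosed_Pol ?_
  obtain ⟨ε, hε, hball⟩ := Metric.isOpen_iff.1 hΩ O hO
  have key : ∀ f ∈ Pol Ω O, |f.2.1| ≤ 2/ε ∧ |f.2.2| ≤ 2/ε := by
    intro f hf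
    have m1 : ∀ s : ℝ, |s| < ε → (O + s • ((1:ℝ),(0:ℝ))) ∈ Ω := by
      intro s hs
      apply hball
      rw [Metric.mem_ball, dist_eq_norm]
      simpa [Prod.norm_def, hε] using hs
    have m2 : ∀ s : ℝ, |s| < ε → (O + s • ((0:ℝ),(1:ℝ))) ∈ Ω := by
      intro s hs
      apply hball
      rw [Metric.mem_ball, dist_eq_norm]
      simpa [Prod.norm_def, hε] using hs
    have hh : |ε/2| < ε := by rw [abs_of_pos (by linarith)]; linarith
    have hh' : |-(ε/2)| < ε := by rw [abs_neg]; exact hh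
    have a1 := hf.2 _ (m1 _ hh)
    have a2 := hf.2 _ (m1 _ hh')
    have a3 := hf.2 _ (m2 _ hh)
    have a4 := hf.2 _ (m2 _ hh')
    rw [ev_add_smul, hf.1] at a1 a2 a3 a4
    simp only [lin, mul_one, mul_zero, add_zero, zero_add] at a1 a2 a3 a4
    constructor
    · rw [abs_le, le_div_iff₀ hε, ← neg_div, div_le_iff₀ hε]; constructor <;> linarith
    · rw [abs_le, le_div_iff₀ hε, ← neg_div, div_le_iff₀ hε]; constructor <;> linarith
  rw [isBounded_iff_forall_norm_le]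
  refine ⟨1 + 2/ε * |O.1| + 2/ε*|O.2| + 2/ε, ?_⟩
  intro f hf
  obtain ⟨k1, k2⟩ := key f hf
  have hf1 : f.1 = 1 - f.2.1 * O.1 - f.2.2 * O.2 := by
    have := hf.1; unfold ev at this; linarith
  have e0 : 0 < 2/ε := by positivity
  have n1 : |f.1| ≤ 1 + 2/ε * |O.1| + 2/ε*|O.2| := by
    rw [hf1]
    calc |1 - f.2.1 * O.1 - f.2.2 * O.2| ≤ |1 - f.2.1 * O.1| + |f.2.2 * O.2| := abs_sub _ _
      _ ≤ |1| + |f.2.1 * O.1| + |f.2.2 * O.2| := by gcongr; exact abs_sub _ _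
      _ = 1 + |f.2.1| * |O.1| + |f.2.2| * |O.2| := by rw [abs_one, abs_mul, abs_mul]
      _ ≤ _ := by gcongr
  have p1 : 0 ≤ 2/ε * |O.1| := by positivity
  have p2 : 0 ≤ 2/ε * |O.2| := by positivity
  rw [Prod.norm_def, Prod.norm_def]
  simp only [Real.norm_eq_abs]
  refine max_le (by linarith) (max_le (by linarith) (by linarith))

lemma exists_support (hΩ : IsOpen Ω) (hc : Convex ℝ Ω) (hO : O ∈ Ω) {I : ℝ × ℝ} (hI : I ∉ Ω) :
    ∃ f ∈ Pol Ω O, ev f I ≤ 0 := by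
  obtain ⟨φ, hφ⟩ := geometric_hahn_banach_open_point hc hΩ hI
  have hrep : ∀ z : ℝ × ℝ, φ z = φ (1,0) * z.1 + φ (0,1) * z.2 := by
    intro z
    have : z = z.1 • ((1:ℝ),(0:ℝ)) + z.2 • ((0:ℝ),(1:ℝ)) := by ext <;> simp
    conv_lhs => rw [this]
    rw [map_add, map_smul, map_smul, smul_eq_mul, smul_eq_mul]; ring
  have hd : 0 < φ I - φ O := by linarith [hφ O hO]
  refine ⟨(φ I / (φ I - φ O), -φ (1,0)/(φ I - φ O), -φ (0,1)/(φ I - φ O)), ⟨?_, ?_⟩, ?_⟩
  · simp only [ev]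
    field_simp
    linarith [hrep O]
  · intro z hz
    have h1 := hφ z hz
    have : ev (φ I / (φ I - φ O), -φ (1,0)/(φ I - φ O), -φ (0,1)/(φ I - φ O)) z
        = (φ I - φ z)/(φ I - φ O) := by
      simp only [ev]
      rw [hrep z]; field_simp; ring
    rw [this]; apply div_nonneg <;> linarith
  · have : ev (φ I / (φ I - φ O), -φ (1,0)/(φ I - φ O), -φ (0,1)/(φ I - φ O)) I
        = (φ I - φ I)/(φ I - φ O) := by
      simp only [ev]
      rw [hrep I]; field_simp; ring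
    rw [this]; simp

lemma exists_support' (hΩ : IsOpen Ω) (hc : Convex ℝ Ω) (hO : O ∈ Ω) {I : ℝ × ℝ} (hI : I ∉ Ω)
    (hI' : I ∈ closure Ω) : ∃ f ∈ Pol Ω O, ev f I = 0 := by
  obtain ⟨f, hf, h⟩ := exists_support hΩ hc hO hI
  exact ⟨f, hf, le_antisymm h (Pol_nonneg_closure hf hI')⟩

lemma exists_ray (hΩ : IsOpen Ω) (hc : Convex ℝ Ω) (hb : Bornology.IsBounded Ω)
    {x v : ℝ × ℝ} (hx : x ∈ Ω) (hv : v ≠ 0) :
    ∃ T : ℝ, 0 < T ∧ {t : ℝ | 0 ≤ t ∧ x + t • v ∈ Ω} = Ico 0 T ∧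
      x + T • v ∈ closure Ω ∧ x + T • v ∉ Ω := by
  have hcont : Continuous (fun t : ℝ => x + t • v) := by fun_prop
  set S := {t : ℝ | 0 ≤ t ∧ x + t • v ∈ Ω} with hS
  have h0 : (0:ℝ) ∈ S := by simp [hS, hx]
  obtain ⟨R, hR⟩ := (isBounded_iff_forall_norm_le).1 hb
  have hvn : 0 < ‖v‖ := norm_pos_iff.2 hv
  have hbdd : BddAbove S := by
    refine ⟨(R + ‖x‖)/‖v‖, ?_⟩
    rintro t ⟨ht0, ht⟩
    rw [le_div_iff₀ hvn]
    have h1 := hR _ ht
    have h2 : ‖t • v‖ ≤ ‖x + t • v‖ + ‖x‖ := by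
      have : t • v = (x + t • v) - x := by abel
      calc ‖t • v‖ = ‖(x + t • v) - x‖ := by rw [← this]
        _ ≤ _ := norm_sub_le _ _
    rw [norm_smul, Real.norm_eq_abs, abs_of_nonneg ht0] at h2
    linarith
  have hmem : ∀ t t' : ℝ, 0 ≤ t → t ≤ t' → t' ∈ S → t ∈ S := by
    intro t t' h0t htt' ht'
    refine ⟨h0t, ?_⟩
    rcases eq_or_lt_of_le (h0t.trans htt') with h | h
    · have : t = 0 := le_antisymm (htt'.trans h.symm.le) h0t
      rw [this]; simpa using hx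
    · have : x + t • v = (1 - t/t') • x + (t/t') • (x + t' • v) := by
        rw [smul_add, smul_smul, div_mul_cancel₀ _ h.ne', sub_smul, one_smul]; abel
      rw [this]
      apply hc hx ht'.2
      · rw [sub_nonneg, div_le_one h]; exact htt'
      · positivity
      · ring
  set T := sSup S with hT
  have hTle : ∀ t ∈ S, t ≤ T := fun t ht => le_csSup hbdd ht
  have hopen : ∀ t : ℝ, x + t • v ∈ Ω → ∃ ε > 0, ∀ s, |s - t| < ε → x + s • v ∈ Ω := by
    intro t ht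
    obtain ⟨ε, hε, hball⟩ := Metric.isOpen_iff.1 (hΩ.preimage hcont) t ht
    exact ⟨ε, hε, fun s hs => hball (by rwa [Metric.mem_ball, Real.dist_eq])⟩
  have hTpos : 0 < T := by
    obtain ⟨ε, hε, h⟩ := hopen 0 (by simpa using hx)
    have : ε/2 ∈ S := ⟨by linarith, h _ (by rw [sub_zero, abs_of_pos (by linarith)]; linarith)⟩
    linarith [hTle _ this]
  have hTnot : x + T • v ∉ Ω := by
    intro h
    obtain ⟨ε, hε, h'⟩ := hopen T h
    have : T + ε/2 ∈ S := ⟨by linarith, h' _ (by rw [add_sub_cancel_left, abs_of_pos (by linarith)]; linarith)⟩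
    linarith [hTle _ this]
  have hSI : S = Ico 0 T := by
    ext t
    constructor
    · intro ht
      refine ⟨ht.1, lt_of_le_of_ne (hTle t ht) ?_⟩
      rintro rfl
      exact hTnot ht.2
    · rintro ⟨h1, h2⟩
      obtain ⟨t', ht', htt'⟩ := exists_lt_of_lt_csSup ⟨0, h0⟩ h2
      exact hmem t t' h1 htt'.le ht'
  refine ⟨T, hTpos, hSI, ?_, hTnot⟩
  have hT' : T ∈ closure (Ico (0:ℝ) T) := by
    rw [closure_Ico hTpos.ne]; exact ⟨hTpos.le, le_rfl⟩
  have himg : (fun t : ℝ => x + t • v) '' (Ico 0 T) ⊆ Ω := by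
    rintro _ ⟨t, ht, rfl⟩
    rw [← hSI] at ht
    exact ht.2
  have := image_closure_subset_closure_image hcont (s := Ico (0:ℝ) T) ⟨T, hT', rfl⟩
  exact closure_mono himg this

lemma ray_unique (hΩ : IsOpen Ω) (hc : Convex ℝ Ω)
    {x v : ℝ × ℝ} (hx : x ∈ Ω) {σ : ℝ} (hσ : 0 < σ)
    (h1 : x + σ • v ∈ closure Ω) (h2 : x + σ • v ∉ Ω) :
    {t : ℝ | 0 ≤ t ∧ x + t • v ∈ Ω} = Ico 0 σ := by
  ext t
  constructor
  · rintro ⟨ht0, ht⟩
    refine ⟨ht0, ?_⟩
    by_contra hlt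
    push Not at hlt
    apply h2
    rcases eq_or_lt_of_le hlt with h | h
    · rw [h]; exact ht
    · have htp : 0 < t := hσ.trans h
      have : x + σ • v = (1 - σ/t) • x + (σ/t) • (x + t • v) := by
        rw [smul_add, smul_smul, div_mul_cancel₀ _ htp.ne', sub_smul, one_smul]; abel
      rw [this]
      apply hc hx ht
      · rw [sub_nonneg, div_le_one htp]; exact h.le
      · positivity
      · ring
  · rintro ⟨ht0, ht⟩
    refine ⟨ht0, ?_⟩
    rcases eq_or_lt_of_le ht0 with h | h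
    · rw [← h]; simpa using hx
    have hx' : x ∈ interior Ω := by rwa [hΩ.interior_eq]
    have := hc.openSegment_interior_closure_subset_interior hx' h1
    rw [hΩ.interior_eq] at this
    apply this
    refine ⟨1 - t/σ, t/σ, ?_, by positivity, by ring, ?_⟩
    · rw [sub_pos, div_lt_one hσ]; exact ht
    · rw [smul_add, smul_smul, div_mul_cancel₀ _ hσ.ne', sub_smul, one_smul]; abel

/-- the Hilbert distance, with the boundary points found by suprema along the chord -/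
noncomputable def hd (Ω : Set (ℝ × ℝ)) (x y : ℝ × ℝ) : ℝ :=
  (1 / 2) * Real.log
        (((1 + sSup {s : ℝ | 0 ≤ s ∧ x - s • (y - x) ∈ Ω}) *
            sSup {t : ℝ | 0 ≤ t ∧ x + t • (y - x) ∈ Ω}) /
          (sSup {s : ℝ | 0 ≤ s ∧ x - s • (y - x) ∈ Ω} *
            (sSup {t : ℝ | 0 ≤ t ∧ x + t • (y - x) ∈ Ω} - 1)))

/-- the exponential of twice the distance -/
noncomputable def HE (Ω : Set (ℝ × ℝ)) (x y : ℝ × ℝ) : ℝ :=
        (((1 + sSup {s : ℝ | 0 ≤ s ∧ x - s • (y - x) ∈ Ω}) *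
            sSup {t : ℝ | 0 ≤ t ∧ x + t • (y - x) ∈ Ω}) /
          (sSup {s : ℝ | 0 ≤ s ∧ x - s • (y - x) ∈ Ω} *
            (sSup {t : ℝ | 0 ≤ t ∧ x + t • (y - x) ∈ Ω} - 1)))

lemma hd_eq_log (x y : ℝ × ℝ) : hd Ω x y = (1/2) * Real.log (HE Ω x y) := rfl

lemma hd_self (x : ℝ × ℝ) : hd Ω x x = 0 := by
  have h3 : sSup {s : ℝ | 0 ≤ s ∧ x - s • (x - x) ∈ Ω} = 0 := by
    by_cases h : x ∈ Ω
    · have : {s : ℝ | 0 ≤ s ∧ x - s • (x - x) ∈ Ω} = Ici 0 := by ext s; simp [h]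
      rw [this]
      exact Real.sSup_of_not_bddAbove (not_bddAbove_Ici 0)
    · have : {s : ℝ | 0 ≤ s ∧ x - s • (x - x) ∈ Ω} = ∅ := by ext s; simp [h]
      rw [this]
      exact Real.sSup_empty
  unfold hd
  rw [h3]
  simp

/-- chord data: for distinct points of `Ω` -/
lemma HE_chord (hΩ : IsOpen Ω) (hc : Convex ℝ Ω) (hb : Bornology.IsBounded Ω)
    {x y : ℝ × ℝ} (hx : x ∈ Ω) (hy : y ∈ Ω) (hxy : x ≠ y) :
    ∃ s t : ℝ, 0 < s ∧ 1 < t ∧ x + s • (x - y) ∈ closure Ω ∧ x + s • (x - y) ∉ Ω ∧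
      x + t • (y - x) ∈ closure Ω ∧ x + t • (y - x) ∉ Ω ∧
      HE Ω x y = ((1 + s) * t) / (s * (t - 1)) := by
  obtain ⟨s, hs, hs1, hs2, hs3⟩ := exists_ray hΩ hc hb hx (v := x - y) (sub_ne_zero.2 hxy)
  obtain ⟨t, ht, ht1, ht2, ht3⟩ := exists_ray hΩ hc hb hx (v := y - x) (sub_ne_zero.2 hxy.symm)
  have ht' : 1 < t := by
    have : (1:ℝ) ∈ {t : ℝ | 0 ≤ t ∧ x + t • (y - x) ∈ Ω} := by simp [hy]
    rw [ht1] at this
    exact this.2
  refine ⟨s, t, hs, ht', hs2, hs3, ht2, ht3, ?_⟩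
  have e1 : {s : ℝ | 0 ≤ s ∧ x - s • (y - x) ∈ Ω} = {s : ℝ | 0 ≤ s ∧ x + s • (x - y) ∈ Ω} := by
    ext r
    have : x - r • (y - x) = x + r • (x - y) := by rw [← neg_sub x y, smul_neg, sub_neg_eq_add]
    simp only [mem_ofPred_eq, this]
  unfold HE
  rw [e1, hs1, ht1, csSup_Ico hs, csSup_Ico (by linarith : (0:ℝ) < t)]

lemma HE_ge (hΩ : IsOpen Ω) (hc : Convex ℝ Ω) (hb : Bornology.IsBounded Ω)
    {x y : ℝ × ℝ} (hx : x ∈ Ω) (hy : y ∈ Ω) (hxy : x ≠ y)
    {f g : ℝ × ℝ × ℝ} (hf : f ∈ Pol Ω O) (hg : g ∈ Pol Ω O) :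
    ev f y * ev g x ≤ HE Ω x y * (ev f x * ev g y) := by
  obtain ⟨s, t, hs, ht, h1, -, h2, -, h3⟩ := HE_chord hΩ hc hb hx hy hxy
  have fx := Pol_pos hΩ hf hx
  have fy := Pol_pos hΩ hf hy
  have gx := Pol_pos hΩ hg hx
  have gy := Pol_pos hΩ hg hy
  have a1 := Pol_nonneg_closure hf h1
  have a2 := Pol_nonneg_closure hg h2
  rw [ev_add_smul_sub] at a1 a2
  have b1 : s * ev f y ≤ (1 + s) * ev f x := by linarith
  have b2 : (t - 1) * ev g x ≤ t * ev g y := by linarith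
  rw [h3, div_mul_eq_mul_div, le_div_iff₀ (mul_pos hs (by linarith))]
  calc ev f y * ev g x * (s * (t - 1)) = (s * ev f y) * ((t - 1) * ev g x) := by ring
    _ ≤ ((1 + s) * ev f x) * (t * ev g y) := by
        apply mul_le_mul b1 b2
        · exact mul_nonneg (by linarith) gx.le
        · positivity
    _ = _ := by ring

lemma HE_one_le (hΩ : IsOpen Ω) (hc : Convex ℝ Ω) (hb : Bornology.IsBounded Ω)
    {x y : ℝ × ℝ} (hx : x ∈ Ω) (hy : y ∈ Ω) (hxy : x ≠ y) : 1 < HE Ω x y := by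
  obtain ⟨s, t, hs, ht, h1, -, h2, -, h3⟩ := HE_chord hΩ hc hb hx hy hxy
  rw [h3, lt_div_iff₀ (mul_pos hs (by linarith))]
  nlinarith

/-- exact value of `HE` from supporting functionals at the ends of the chord -/
lemma HE_eq (hΩ : IsOpen Ω) (hc : Convex ℝ Ω) (hb : Bornology.IsBounded Ω)
    {x y : ℝ × ℝ} (hx : x ∈ Ω) (hy : y ∈ Ω) (hxy : x ≠ y)
    {f g : ℝ × ℝ × ℝ} (hf : f ∈ Pol Ω O) (hg : g ∈ Pol Ω O) {σ τ : ℝ}
    (hσ : 0 < σ) (hτ : 0 < τ)
    (hI : x + σ • (x - y) ∈ closure Ω) (hJ : x + τ • (y - x) ∈ closure Ω)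
    (hfI : ev f (x + σ • (x - y)) = 0) (hgJ : ev g (x + τ • (y - x)) = 0) :
    HE Ω x y * (ev f x * ev g y) = ev f y * ev g x := by
  obtain ⟨s, t, hs, ht, h1, h1', h2, h2', h3⟩ := HE_chord hΩ hc hb hx hy hxy
  have hI' : x + σ • (x - y) ∉ Ω := fun h => (Pol_pos hΩ hf h).ne' hfI
  have hJ' : x + τ • (y - x) ∉ Ω := fun h => (Pol_pos hΩ hg h).ne' hgJ
  have es : s = σ := by
    have e1 := ray_unique hΩ hc hx hσ hI hI'
    have e2 := ray_unique hΩ hc hx hs h1 h1'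
    rw [e1] at e2
    have := congrArg sSup e2
    rwa [csSup_Ico hσ, csSup_Ico hs, eq_comm] at this
  have et : t = τ := by
    have e1 := ray_unique hΩ hc hx hτ hJ hJ'
    have e2 := ray_unique hΩ hc hx (by linarith : 0 < t) h2 h2'
    rw [e1] at e2
    have := congrArg sSup e2
    rwa [csSup_Ico hτ, csSup_Ico (by linarith : 0 < t), eq_comm] at this
  subst es et
  rw [ev_add_smul_sub] at hfI hgJ
  rw [h3, div_mul_eq_mul_div, div_eq_iff (mul_pos hs (by linarith)).ne']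
  have b1 : s * ev f y = (1 + s) * ev f x := by linarith
  have b2 : (t - 1) * ev g x = t * ev g y := by linarith
  calc (1 + s) * t * (ev f x * ev g y) = ((1 + s) * ev f x) * (t * ev g y) := by ring
    _ = (s * ev f y) * ((t - 1) * ev g x) := by rw [b1, b2]
    _ = _ := by ring

lemma hd_le_iff (hΩ : IsOpen Ω) (hc : Convex ℝ Ω) (hb : Bornology.IsBounded Ω)
    {x y z w : ℝ × ℝ} (hx : x ∈ Ω) (hy : y ∈ Ω) (hxy : x ≠ y)
    (hz : z ∈ Ω) (hw : w ∈ Ω) (hzw : z ≠ w) :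
    hd Ω x y ≤ hd Ω z w ↔ HE Ω x y ≤ HE Ω z w := by
  have h1 := HE_one_le hΩ hc hb hx hy hxy
  have h2 := HE_one_le hΩ hc hb hz hw hzw
  rw [hd_eq_log, hd_eq_log, mul_le_mul_iff_right₀ (by norm_num), Real.log_le_log_iff (by linarith) (by linarith)]

lemma hd_nonneg (hΩ : IsOpen Ω) (hc : Convex ℝ Ω) (hb : Bornology.IsBounded Ω)
    {x y : ℝ × ℝ} (hx : x ∈ Ω) (hy : y ∈ Ω) : 0 ≤ hd Ω x y := by
  by_cases hxy : x = y
  · subst hxy; rw [hd_self]
  · rw [hd_eq_log]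
    have := Real.log_nonneg (HE_one_le hΩ hc hb hx hy hxy).le
    linarith

lemma hd_pos (hΩ : IsOpen Ω) (hc : Convex ℝ Ω) (hb : Bornology.IsBounded Ω)
    {x y : ℝ × ℝ} (hx : x ∈ Ω) (hy : y ∈ Ω) (hxy : x ≠ y) : 0 < hd Ω x y := by
  rw [hd_eq_log]
  have := Real.log_pos (HE_one_le hΩ hc hb hx hy hxy)
  linarith

/-- `p` is a boundary point with exactly one normalised supporting functional `t` -/
def Smooth (Ω : Set (ℝ × ℝ)) (O p : ℝ × ℝ) (t : ℝ × ℝ × ℝ) : Prop :=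
  p ∈ closure Ω ∧ t ∈ Pol Ω O ∧ ev t p = 0 ∧ ∀ f ∈ Pol Ω O, ev f p = 0 → f = t

lemma Smooth.not_mem (hΩ : IsOpen Ω) {p : ℝ × ℝ} {t : ℝ × ℝ × ℝ} (h : Smooth Ω O p t) : p ∉ Ω :=
  fun hp => (Pol_pos hΩ h.2.1 hp).ne' h.2.2.1

/-- squared Euclidean length -/
def nsq (v : ℝ × ℝ) : ℝ := v.1 ^ 2 + v.2 ^ 2

lemma smooth_dense (hΩ : IsOpen Ω) (hc : Convex ℝ Ω) (hb : Bornology.IsBounded Ω) (hO : O ∈ Ω)
    {z : ℝ × ℝ} (hz : z ∈ closure Ω) (hz' : z ∉ Ω) {ε : ℝ} (hε : 0 < ε) :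
    ∃ p t, Smooth Ω O p t ∧ dist p z < ε := by
  obtain ⟨x, hx, hxz⟩ := Metric.mem_closure_iff.1 hz (ε/3) (by positivity)
  have hcpt : IsCompact (closure Ω \ Ω) := by
    have h1 : IsCompact (closure Ω) := hb.isCompact_closure
    exact h1.diff hΩ
  have hcont : Continuous (fun p : ℝ × ℝ => nsq (p - x)) := by unfold nsq; fun_prop
  obtain ⟨p, hp, hmin⟩ := hcpt.exists_isMinOn ⟨z, hz, hz'⟩ hcont.continuousOn
  have hmin' : ∀ y ∈ closure Ω \ Ω, nsq (p - x) ≤ nsq (y - x) := fun y hy => hmin hy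
  have hball : ∀ y, nsq (y - x) < nsq (p - x) → y ∈ Ω := by
    intro y hy
    by_contra hyn
    have hyx : y - x ≠ 0 := by
      intro h
      rw [sub_eq_zero] at h
      rw [h] at hyn
      exact hyn hx
    obtain ⟨T, hT, hT1, hT2, hT3⟩ := exists_ray hΩ hc hb hx hyx
    have hT' : T ≤ 1 := by
      by_contra hlt
      push Not at hlt
      have : (1:ℝ) ∈ Ico (0:ℝ) T := ⟨by norm_num, hlt⟩
      rw [← hT1] at this
      apply hyn
      simpa using this.2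
    have := hmin' _ ⟨hT2, hT3⟩
    have e : nsq (x + T • (y - x) - x) = T^2 * nsq (y - x) := by
      simp only [nsq, add_sub_cancel_left, Prod.smul_fst, Prod.smul_snd, smul_eq_mul]; ring
    rw [e] at this
    have hn : 0 ≤ nsq (y - x) := by unfold nsq; positivity
    have : T^2 * nsq (y - x) ≤ 1 * nsq (y - x) := by
      gcongr
      nlinarith
    linarith
  -- any functional of the polar set vanishing at p has gradient parallel to x - p
  have hpar : ∀ f ∈ Pol Ω O, ev f p = 0 → f.2.1 * (x - p).2 - f.2.2 * (x - p).1 = 0 := by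
    intro f hf hfp
    by_contra hne
    have hfx : lin f (x - p) = ev f x := by rw [lin_sub, hfp, sub_zero]
    have hfx' : 0 < ev f x := Pol_pos hΩ hf hx
    set u1 := f.2.1
    set u2 := f.2.2
    set n1 := (x - p).1
    set n2 := (x - p).2
    have hun : 0 < u1 * n1 + u2 * n2 := by rw [← hfx] at hfx'; exact hfx'
    have hNu : 0 < u1^2 + u2^2 := by
      by_contra h
      push Not at h
      have h1 : u1 = 0 := by nlinarith [sq_nonneg u1, sq_nonneg u2]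
      have h2 : u2 = 0 := by nlinarith [sq_nonneg u1, sq_nonneg u2]
      apply hne; rw [h1, h2]; ring
    have hlt : (u1 * n1 + u2 * n2)^2 < (u1^2+u2^2) * (n1^2+n2^2) := by
      have : 0 < (u1 * n2 - u2 * n1)^2 := by positivity
      nlinarith
    have hs0 : (u1 * n1 + u2 * n2)/(u1^2+u2^2) < Real.sqrt ((n1^2+n2^2)/(u1^2+u2^2)) := by
      apply Real.lt_sqrt_of_sq_lt
      rw [div_pow, div_lt_div_iff₀ (by positivity) hNu]
      nlinarith
    obtain ⟨s, hs1, hs2⟩ := exists_between hs0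
    have hspos : 0 < s := lt_trans (by positivity) hs1
    rw [Real.lt_sqrt hspos.le, lt_div_iff₀ hNu] at hs2
    rw [div_lt_iff₀ hNu] at hs1
    have hy : (x + s • ((-u1), (-u2))) ∈ Ω := by
      apply hball
      have e1 : nsq (x + s • ((-u1), (-u2)) - x) = s^2 * (u1^2+u2^2) := by
        simp only [nsq, add_sub_cancel_left, Prod.smul_fst, Prod.smul_snd, smul_eq_mul]; ring
      have e2 : nsq (p - x) = n1^2+n2^2 := by
        simp only [nsq, n1, n2, Prod.fst_sub, Prod.snd_sub]; ring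
      rw [e1, e2]; exact hs2
    have := hf.2 _ hy
    rw [ev_add_smul, ← hfx] at this
    simp only [lin] at this
    have h3 : 0 ≤ (u1 * n1 + u2 * n2) + s * (u1 * (-u1) + u2 * (-u2)) := this
    nlinarith
  obtain ⟨t, ht, htp⟩ := exists_support' hΩ hc hO hp.2 hp.1
  have huniq : ∀ f ∈ Pol Ω O, ev f p = 0 → f = t := by
    intro f hf hfp
    have h1 := hpar f hf hfp
    have h2 := hpar t ht htp
    have hfO : lin f (O - p) = 1 := by rw [lin_sub, hfp, hf.1]; ring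
    have htO : lin t (O - p) = 1 := by rw [lin_sub, htp, ht.1]; ring
    have hfx : lin f (x - p) = ev f x := by rw [lin_sub, hfp, sub_zero]
    have hfx' : 0 < ev f x := Pol_pos hΩ hf hx
    simp only [lin] at hfO htO hfx
    set n1 := (x - p).1
    set n2 := (x - p).2
    set o1 := (O - p).1
    set o2 := (O - p).2
    have hN : 0 < n1^2 + n2^2 := by
      by_contra h
      push Not at h
      have h1 : n1 = 0 := by nlinarith [sq_nonneg n1, sq_nonneg n2]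
      have h2 : n2 = 0 := by nlinarith [sq_nonneg n1, sq_nonneg n2]
      rw [h1, h2] at hfx; simp at hfx; linarith
    -- f.2 = lambda n with lambda * (n . o) = 1
    have lf : ∃ l, f.2.1 = l * n1 ∧ f.2.2 = l * n2 := by
      refine ⟨(f.2.1 * n1 + f.2.2 * n2)/(n1^2+n2^2), ?_, ?_⟩
      · field_simp; linear_combination n2 * h1
      · field_simp; linear_combination -n1 * h1
    have lt : ∃ l, t.2.1 = l * n1 ∧ t.2.2 = l * n2 := by
      refine ⟨(t.2.1 * n1 + t.2.2 * n2)/(n1^2+n2^2), ?_, ?_⟩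
      · field_simp; linear_combination n2 * h2
      · field_simp; linear_combination -n1 * h2
    obtain ⟨l, l1, l2⟩ := lf
    obtain ⟨k, k1, k2⟩ := lt
    have e1 : l * (n1 * o1 + n2 * o2) = 1 := by rw [← hfO, l1, l2]; ring
    have e2 : k * (n1 * o1 + n2 * o2) = 1 := by rw [← htO, k1, k2]; ring
    have hlk : l = k := by
      have hne : n1 * o1 + n2 * o2 ≠ 0 := by
        intro h; rw [h] at e1; simp at e1
      exact mul_right_cancel₀ hne (e1.trans e2.symm)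
    have c1 : f.2.1 = t.2.1 := by rw [l1, k1, hlk]
    have c2 : f.2.2 = t.2.2 := by rw [l2, k2, hlk]
    have c0 : f.1 = t.1 := by
      simp only [ev] at hfp htp
      rw [c1, c2] at hfp
      linarith
    exact Prod.ext c0 (Prod.ext c1 c2)
  refine ⟨p, t, ⟨hp.1, ht, htp, huniq⟩, ?_⟩
  -- distance estimate
  have hpz := hmin' z ⟨hz, hz'⟩
  have hx1 : |(z - x).1| < ε/3 := by
    have := (norm_fst_le (z - x)).trans_lt (by rw [← dist_eq_norm]; exact hxz)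
    simpa using this
  have hx2 : |(z - x).2| < ε/3 := by
    have := (norm_snd_le (z - x)).trans_lt (by rw [← dist_eq_norm]; exact hxz)
    simpa using this
  have hzx : nsq (z - x) ≤ 2 * (ε/3)^2 := by
    unfold nsq
    have := sq_le_sq' (by linarith [(abs_lt.1 hx1).1]) (abs_lt.1 hx1).2.le
    have := sq_le_sq' (by linarith [(abs_lt.1 hx2).1]) (abs_lt.1 hx2).2.le
    linarith
  have hp1 : |(p - x).1| < 2 * (ε/3) := by
    apply abs_lt_of_sq_lt_sq _ (by positivity)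
    have : (p - x).1^2 ≤ nsq (p - x) := by unfold nsq; nlinarith [sq_nonneg (p - x).2]
    nlinarith
  have hp2 : |(p - x).2| < 2 * (ε/3) := by
    apply abs_lt_of_sq_lt_sq _ (by positivity)
    have : (p - x).2^2 ≤ nsq (p - x) := by unfold nsq; nlinarith [sq_nonneg (p - x).1]
    nlinarith
  have hpx : dist p x < 2 * (ε/3) := by
    rw [dist_eq_norm, Prod.norm_def]
    exact max_lt hp1 hp2
  calc dist p z ≤ dist p x + dist x z := dist_triangle _ _ _
    _ < 2 * (ε/3) + ε/3 := by rw [dist_comm x z]; linarith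
    _ = ε := by ring

/-- comparison along a chord: `f` vanishes at the end beyond `x`, `t` is nonnegative there -/
lemma ratio_ineq {f t : ℝ × ℝ × ℝ} {x y : ℝ × ℝ} {σ : ℝ} (hσ : 0 < σ)
    (hf : ev f (x + σ • (x - y)) = 0) (ht : 0 ≤ ev t (x + σ • (x - y))) (hfy : 0 ≤ ev f y) :
    ev f x * ev t y ≤ ev f y * ev t x := by
  rw [ev_add_smul_sub] at hf ht
  have h1 : (1 + σ) * ev f x = σ * ev f y := by linarith
  have h2 : σ * ev t y ≤ (1 + σ) * ev t x := by linarith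
  have h3 : (1 + σ) * (ev f x * ev t y) ≤ (1 + σ) * (ev f y * ev t x) := by
    calc (1 + σ) * (ev f x * ev t y) = (σ * ev f y) * ev t y := by rw [← h1]; ring
      _ = ev f y * (σ * ev t y) := by ring
      _ ≤ ev f y * ((1 + σ) * ev t x) := by gcongr
      _ = _ := by ring
  exact le_of_mul_le_mul_left h3 (by linarith)

/-- push a point towards `O` -/
def toward (O : ℝ × ℝ) (e : ℝ) (p : ℝ × ℝ) : ℝ × ℝ := p + e • (O - p)

lemma ev_toward {f : ℝ × ℝ × ℝ} (hf : ev f O = 1) (e : ℝ) (p : ℝ × ℝ) :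
    ev f (toward O e p) = (1 - e) * ev f p + e := by
  unfold toward; rw [ev_add_smul_sub, hf]; ring

lemma toward_mem (hΩ : IsOpen Ω) (hc : Convex ℝ Ω) (hO : O ∈ Ω) {p : ℝ × ℝ} (hp : p ∈ closure Ω)
    {e : ℝ} (he0 : 0 < e) (he1 : e < 1) : toward O e p ∈ Ω := by
  have hO' : O ∈ interior Ω := by rwa [hΩ.interior_eq]
  have := hc.openSegment_interior_closure_subset_interior hO' hp
  rw [hΩ.interior_eq] at this
  apply this
  refine ⟨e, 1 - e, he0, by linarith, by ring, ?_⟩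
  unfold toward
  rw [smul_sub, sub_smul, one_smul]; abel

lemma pol_ultra (hΩ : IsOpen Ω) (hO : O ∈ Ω) (U : Ultrafilter ℕ) (f : ℕ → ℝ × ℝ × ℝ)
    (hf : ∀ n, f n ∈ Pol Ω O) : ∃ g ∈ Pol Ω O, Tendsto f U (𝓝 g) := by
  obtain ⟨g, hg, hg'⟩ := (isCompact_Pol hΩ hO).ultrafilter_le_nhds (U.map f)
    (by
      rw [le_principal_iff]
      exact Filter.mem_map.2 (Filter.univ_mem' (fun n => hf n)))
  exact ⟨g, hg, hg'⟩

lemma tendsto_ev {U : Filter ℕ} {f : ℕ → ℝ × ℝ × ℝ} {z : ℕ → ℝ × ℝ} {g : ℝ × ℝ × ℝ} {w : ℝ × ℝ}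
    (hf : Tendsto f U (𝓝 g)) (hz : Tendsto z U (𝓝 w)) :
    Tendsto (fun n => ev (f n) (z n)) U (𝓝 (ev g w)) := by
  have := (continuous_ev.tendsto (g, w)).comp (hf.prodMk_nhds hz)
  exact this

lemma tendsto_toward {U : Filter ℕ} {e : ℕ → ℝ} (he : Tendsto e U (𝓝 0)) (p : ℝ × ℝ) :
    Tendsto (fun n => toward O (e n) p) U (𝓝 p) := by
  have hc : Continuous (fun t : ℝ => toward O t p) := by unfold toward; fun_prop
  have := (hc.tendsto 0).comp he
  have e0 : toward O 0 p = p := by simp [toward]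
  rw [e0] at this
  exact this

lemma pair_limit (hΩ : IsOpen Ω) (hO : O ∈ Ω) {U : Ultrafilter ℕ}
    {p q : ℝ × ℝ} {t : ℝ × ℝ × ℝ} (hp : Smooth Ω O p t) (hq : q ∈ closure Ω) (htq : 0 < ev t q)
    {e : ℕ → ℝ} (he0 : ∀ n, 0 < e n) (he1 : ∀ n, e n < 1) (he : Tendsto e U (𝓝 0))
    {f : ℕ → ℝ × ℝ × ℝ} (hf : ∀ n, f n ∈ Pol Ω O) {σ : ℕ → ℝ} (hσ : ∀ n, 0 < σ n)
    (hI : ∀ n, toward O (e n) p + σ n • (toward O (e n) p - toward O (e n) q) ∈ closure Ω)
    (hfI : ∀ n, ev (f n) (toward O (e n) p + σ n • (toward O (e n) p - toward O (e n) q)) = 0) :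
    Tendsto f U (𝓝 t) ∧
      Tendsto (fun n => ev (f n) (toward O (e n) p) / e n) U (𝓝 1) := by
  obtain ⟨g, hg, hgt⟩ := pol_ultra hΩ hO U f hf
  have hfq : ∀ n, 0 ≤ ev (f n) (toward O (e n) q) := by
    intro n
    rw [ev_toward (hf n).1]
    have h1 := Pol_nonneg_closure (hf n) hq
    have := he0 n
    have := he1 n
    have : 0 ≤ (1 - e n) * ev (f n) q := mul_nonneg (by linarith) h1
    linarith
  have hfp : ∀ n, 0 ≤ ev (f n) p := fun n => Pol_nonneg_closure (hf n) hp.1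
  have key : ∀ n, ev (f n) (toward O (e n) p) * ev t (toward O (e n) q)
      ≤ ev (f n) (toward O (e n) q) * e n := by
    intro n
    have h1 := ratio_ineq (hσ n) (hfI n) (Pol_nonneg_closure hp.2.1 (hI n)) (hfq n)
    have h2 : ev t (toward O (e n) p) = e n := by
      rw [ev_toward hp.2.1.1, hp.2.2.1]; ring
    rwa [h2] at h1
  have htp := tendsto_toward (O := O) he p
  have htq' := tendsto_toward (O := O) he q
  have l1 := tendsto_ev hgt htp
  have l2 := tendsto_ev (tendsto_const_nhds (x := t)) htq'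
  have l3 := tendsto_ev hgt htq'
  have h0 := le_of_tendsto_of_tendsto' (l1.mul l2) (l3.mul he) key
  have hgp : ev g p = 0 := by
    apply le_antisymm _ (Pol_nonneg_closure hg hp.1)
    rw [mul_zero] at h0
    by_contra h
    push Not at h
    have := mul_pos h htq
    linarith
  have hgt' : g = t := hp.2.2.2 g hg hgp
  rw [hgt'] at hgt l3
  refine ⟨hgt, ?_⟩
  have lower : ∀ n, 1 ≤ ev (f n) (toward O (e n) p) / e n := by
    intro n
    rw [le_div_iff₀ (he0 n), ev_toward (hf n).1]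
    have : 0 ≤ (1 - e n) * ev (f n) p := mul_nonneg (by linarith [he1 n]) (hfp n)
    linarith
  have htqpos : ∀ n, 0 < ev t (toward O (e n) q) := by
    intro n
    rw [ev_toward hp.2.1.1]
    have : 0 ≤ (1 - e n) * ev t q := mul_nonneg (by linarith [he1 n]) htq.le
    linarith [he0 n]
  have upper : ∀ n, ev (f n) (toward O (e n) p) / e n
      ≤ ev (f n) (toward O (e n) q) / ev t (toward O (e n) q) := by
    intro n
    rw [div_le_div_iff₀ (he0 n) (htqpos n)]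
    exact key n
  have lu : Tendsto (fun n => ev (f n) (toward O (e n) q) / ev t (toward O (e n) q)) U (𝓝 1) := by
    have := l3.div l2 htq.ne'
    rwa [div_self htq.ne'] at this
  exact tendsto_of_tendsto_of_tendsto_of_le_of_le tendsto_const_nhds lu lower upper

/-- determinant of three functionals -/
def det3 (f g h : ℝ × ℝ × ℝ) : ℝ :=
  f.1 * (g.2.1 * h.2.2 - g.2.2 * h.2.1) - f.2.1 * (g.1 * h.2.2 - g.2.2 * h.1)
    + f.2.2 * (g.1 * h.2.1 - g.2.1 * h.1)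

/-- orientation determinant of three points -/
def detP (P Q R : ℝ × ℝ) : ℝ :=
  (Q.1 - P.1) * (R.2 - P.2) - (Q.2 - P.2) * (R.1 - P.1)

lemma det3_mul_detP (f g h : ℝ × ℝ × ℝ) (P Q R : ℝ × ℝ) :
    det3 f g h * detP P Q R =
      ev f P * (ev g Q * ev h R - ev g R * ev h Q) - ev f Q * (ev g P * ev h R - ev g R * ev h P)
        + ev f R * (ev g P * ev h Q - ev g Q * ev h P) := by
  simp only [det3, detP, ev]; ring

/-- the functional vanishing at `c` and at the common zero of `f` and `g` -/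
def row (f g : ℝ × ℝ × ℝ) (a b : ℝ) : ℝ × ℝ × ℝ := a • f - b • g

lemma det3_row (f g h : ℝ × ℝ × ℝ) (a1 b1 a2 b2 a3 b3 : ℝ) :
    det3 (row f g a1 b1) (row g h a2 b2) (row h f a3 b3) =
      (a1 * a2 * a3 - b1 * b2 * b3) * det3 f g h := by
  simp only [det3, row, Prod.fst_sub, Prod.snd_sub, Prod.smul_fst, Prod.smul_snd, smul_eq_mul]
  ring

lemma ev_row (f g : ℝ × ℝ × ℝ) (a b : ℝ) (z : ℝ × ℝ) :
    ev (row f g a b) z = a * ev f z - b * ev g z := by
  simp only [ev, row, Prod.fst_sub, Prod.snd_sub, Prod.smul_fst, Prod.smul_snd, smul_eq_mul]; ring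

lemma lin_row (f g : ℝ × ℝ × ℝ) (a b : ℝ) (z : ℝ × ℝ) :
    lin (row f g a b) z = a * lin f z - b * lin g z := by
  simp only [lin, row, Prod.fst_sub, Prod.snd_sub, Prod.smul_fst, Prod.smul_snd, smul_eq_mul]; ring

lemma det3_eq_zero_of_common {f g h : ℝ × ℝ × ℝ} {z : ℝ × ℝ}
    (h1 : ev f z = 0) (h2 : ev g z = 0) (h3 : ev h z = 0) : det3 f g h = 0 := by
  simp only [ev] at h1 h2 h3
  simp only [det3]
  linear_combination (g.2.1 * h.2.2 - g.2.2 * h.2.1) * h1 - (f.2.1 * h.2.2 - f.2.2 * h.2.1) * h2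
    + (f.2.1 * g.2.2 - f.2.2 * g.2.1) * h3

lemma det3_eq_zero_of_parallel {f g h : ℝ × ℝ × ℝ} {w : ℝ × ℝ} (hw : w ≠ 0)
    (h1 : lin f w = 0) (h2 : lin g w = 0) (h3 : lin h w = 0) : det3 f g h = 0 := by
  simp only [lin] at h1 h2 h3
  simp only [det3]
  have hw' : w.1 ≠ 0 ∨ w.2 ≠ 0 := by
    by_contra hh
    push Not at hh
    exact hw (Prod.ext hh.1 hh.2)
  rcases hw' with hw' | hw'
  · apply mul_left_cancel₀ hw'
    rw [mul_zero]
    linear_combination (-(g.1 * h.2.2 - g.2.2 * h.1)) * h1 + (f.1 * h.2.2 - f.2.2 * h.1) * h2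
      - (f.1 * g.2.2 - f.2.2 * g.1) * h3
  · apply mul_left_cancel₀ hw'
    rw [mul_zero]
    linear_combination (g.1 * h.2.1 - g.2.1 * h.1) * h1 - (f.1 * h.2.1 - f.2.1 * h.1) * h2
      + (f.1 * g.2.1 - f.2.1 * g.1) * h3

lemma det3_ne_zero {tp tq tr : ℝ × ℝ × ℝ} {p q r : ℝ × ℝ}
    (hpp : ev tp p = 0) (hqq : ev tq q = 0) (hrr : ev tr r = 0)
    (hpq : 0 < ev tp q) (hqp : 0 < ev tq p) (hpr : 0 < ev tp r) (hrp : 0 < ev tr p)
    (hqr : 0 < ev tq r) (hrq : 0 < ev tr q) : det3 tp tq tr ≠ 0 ∧ detP p q r ≠ 0 := by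
  have h := det3_mul_detP tp tq tr p q r
  rw [hpp, hqq, hrr] at h
  have h' : det3 tp tq tr * detP p q r = ev tp q * ev tq r * ev tr p + ev tp r * ev tq p * ev tr q := by
    rw [h]; ring
  have hpos : 0 < det3 tp tq tr * detP p q r := by rw [h']; positivity
  exact ⟨fun h => by rw [h] at hpos; simp at hpos, fun h => by rw [h] at hpos; simp at hpos⟩

lemma continuous_det3 : Continuous (fun q : (ℝ × ℝ × ℝ) × (ℝ × ℝ × ℝ) × (ℝ × ℝ × ℝ) =>
    det3 q.1 q.2.1 q.2.2) := by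
  unfold det3; fun_prop

lemma tendsto_row {U : Filter ℕ} {f g : ℕ → ℝ × ℝ × ℝ} {a b : ℕ → ℝ} {f' g' : ℝ × ℝ × ℝ} {a' b' : ℝ}
    (hf : Tendsto f U (𝓝 f')) (hg : Tendsto g U (𝓝 g')) (ha : Tendsto a U (𝓝 a'))
    (hb : Tendsto b U (𝓝 b')) :
    Tendsto (fun n => row (f n) (g n) (a n) (b n)) U (𝓝 (row f' g' a' b')) := by
  unfold row
  exact (ha.smul hf).sub (hb.smul hg)

lemma tendsto_det3 {U : Filter ℕ} {f g h : ℕ → ℝ × ℝ × ℝ} {f' g' h' : ℝ × ℝ × ℝ}
    (hf : Tendsto f U (𝓝 f')) (hg : Tendsto g U (𝓝 g')) (hh : Tendsto h U (𝓝 h')) :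
    Tendsto (fun n => det3 (f n) (g n) (h n)) U (𝓝 (det3 f' g' h')) := by
  have := (continuous_det3.tendsto (f', g', h')).comp (hf.prodMk_nhds (hg.prodMk_nhds hh))
  exact this

lemma not_collinear_of_detP {P Q R : ℝ × ℝ} (h : detP P Q R ≠ 0) : ¬ Collinear ℝ {P, Q, R} := by
  intro hc
  rw [collinear_iff_of_mem (p₀ := P) (by simp)] at hc
  obtain ⟨v, hv⟩ := hc
  obtain ⟨r1, h1⟩ := hv Q (by simp)
  obtain ⟨r2, h2⟩ := hv R (by simp)
  apply h
  simp only [detP, h1, h2, vadd_eq_add, Prod.fst_add, Prod.snd_add, Prod.smul_fst, Prod.smul_snd,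
    smul_eq_mul]
  ring

lemma detP_toward (O P Q R : ℝ × ℝ) (e : ℝ) :
    detP (toward O e P) (toward O e Q) (toward O e R) = (1 - e)^2 * detP P Q R := by
  simp only [detP, toward, Prod.fst_add, Prod.snd_add, Prod.smul_fst, Prod.smul_snd, smul_eq_mul,
    Prod.fst_sub, Prod.snd_sub]
  ring

end basics

end Pool.Agent.Helper87.HilbertPlane
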