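import Pool.Agent.Helper87.Perp

set_option autoImplicit false

namespace Pool.Agent.Helper87.HilbertPlane

open Set Filter Topology

section

variable {Ω : Set (ℝ × ℝ)} {O : ℝ × ℝ}

lemma ratio_ineq2 {f t : ℝ × ℝ × ℝ} {x y : ℝ × ℝ} {τ : ℝ} (hτ : 0 < τ)
    (hf : ev f (x + τ • (y - x)) = 0) (ht : 0 ≤ ev t (x + τ • (y - x))) (hfx : 0 ≤ ev f x) :
    ev f y * ev t x ≤ ev f x * ev t y := by
  rw [ev_add_smul_sub] at hf ht
  have h1 : τ * ev f y = (τ - 1) * ev f x := by linarith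
  have h2 : (τ - 1) * ev t x ≤ τ * ev t y := by linarith
  have h3 : τ * (ev f y * ev t x) ≤ τ * (ev f x * ev t y) := by
    calc τ * (ev f y * ev t x) = (τ * ev f y) * ev t x := by ring
      _ = ev f x * ((τ - 1) * ev t x) := by rw [h1]; ring
      _ ≤ ev f x * (τ * ev t y) := by gcongr
      _ = _ := by ring
  exact le_of_mul_le_mul_left h3 hτ

lemma one_sided (hΩ : IsOpen Ω) (hc : Convex ℝ Ω) (hb : Bornology.IsBounded Ω) (hO : O ∈ Ω)
    {a b : ℝ × ℝ} (ha : a ∈ Ω) {σ τ : ℝ} (hσ : 0 < σ) (hτ : 0 < τ)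
    (hI : a + σ • (a - b) ∈ closure Ω) (hI' : a + σ • (a - b) ∉ Ω)
    (hJ : a + τ • (b - a) ∈ closure Ω) (hJ' : a + τ • (b - a) ∉ Ω)
    {φ : ℝ} (hF : a + φ • (b - a) ∈ Ω) (w : ℝ × ℝ)
    (hyp : ∀ θ s : ℝ, a + θ • (b - a) ∈ Ω → a + φ • (b - a) + s • w ∈ Ω →
      hd Ω (a + θ • (b - a)) (a + φ • (b - a)) ≤
        hd Ω (a + θ • (b - a)) (a + φ • (b - a) + s • w))
    {ε : ℝ} (hε : ε ≠ 0) :
    ∃ f ∈ Pol Ω O, ∃ g ∈ Pol Ω O, ev f (a + σ • (a - b)) = 0 ∧ ev g (a + τ • (b - a)) = 0 ∧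
      ε * (ev g (a + φ • (b - a)) * lin f w - ev f (a + φ • (b - a)) * lin g w) ≤ 0 := by
  obtain ⟨tI, htI, htI0⟩ := exists_support' hΩ hc hO hI' hI
  obtain ⟨tJ, htJ, htJ0⟩ := exists_support' hΩ hc hO hJ' hJ
  have tIa := Pol_pos hΩ htI ha
  have tJa := Pol_pos hΩ htJ ha
  have tIF := Pol_pos hΩ htI hF
  have tJF := Pol_pos hΩ htJ hF
  have htI1 := htI0
  have htJ1 := htJ0
  rw [ev_add_smul_sub] at htI1 htJ1 tIF tJF
  have hα : 0 < ev tI b - ev tI a := by
    by_contra hh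
    push Not at hh
    nlinarith [mul_nonneg hσ.le (sub_nonneg.2 hh)]
  have hβ : 0 < ev tJ a - ev tJ b := by
    by_contra hh
    push Not at hh
    nlinarith [mul_nonneg hτ.le (sub_nonneg.2 hh)]
  have hφτ : φ < τ := by
    have : 0 < (τ - φ) * (ev tJ a - ev tJ b) := by linarith
    have := (pos_iff_pos_of_mul_pos this).2 hβ
    linarith
  have hφσ : 0 < σ + φ := by
    have : 0 < (σ + φ) * (ev tI b - ev tI a) := by linarith
    exact (pos_iff_pos_of_mul_pos this).2 hα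
  obtain ⟨θ, hθ⟩ : ∃ θ : ℝ, θ = (φ + τ)/2 := ⟨_, rfl⟩
  have hθ1 : φ < θ := by rw [hθ]; linarith
  have hX : a + θ • (b - a) ∈ Ω := by
    have hF' : a + φ • (b - a) ∈ interior Ω := by rwa [hΩ.interior_eq]
    have := hc.openSegment_interior_closure_subset_interior hF' hJ
    rw [hΩ.interior_eq] at this
    apply this
    refine ⟨1/2, 1/2, by norm_num, by norm_num, by norm_num, ?_⟩
    rw [hθ]
    module
  -- neighbourhood
  obtain ⟨F, hFdef⟩ : ∃ F, F = a + φ • (b - a) := ⟨_, rfl⟩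
  obtain ⟨X, hXdef⟩ : ∃ X, X = a + θ • (b - a) := ⟨_, rfl⟩
  have hba : b - a ≠ 0 := by
    intro h
    rw [sub_eq_zero] at h
    rw [h] at hα
    linarith
  have hXF : F ≠ X := by
    intro h
    rw [hFdef, hXdef] at h
    have h1 : (θ - φ) • (b - a) = 0 := by
      rw [sub_smul, sub_eq_zero]
      exact (add_left_cancel h).symm
    rcases smul_eq_zero.1 h1 with h2 | h2
    · linarith
    · exact hba h2
  have hcont : Continuous (fun s : ℝ => F + s • w) := by fun_prop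
  have hopen : IsOpen {s : ℝ | F + s • w ∈ Ω ∧ F + s • w ≠ X} := by
    apply IsOpen.inter (hΩ.preimage hcont)
    exact (isOpen_compl_singleton.preimage hcont)
  have h0 : (0:ℝ) ∈ {s : ℝ | F + s • w ∈ Ω ∧ F + s • w ≠ X} := by
    refine ⟨?_, ?_⟩
    · rw [zero_smul, add_zero, hFdef]; exact hF
    · rw [zero_smul, add_zero]; exact hXF
  obtain ⟨δ, hδ, hball⟩ := Metric.isOpen_iff.1 hopen 0 h0
  obtain ⟨c, hc0, hcδ⟩ : ∃ c : ℝ, 0 < c ∧ c * |ε| < δ := by
    have hεp : 0 < |ε| := abs_pos.2 hε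
    refine ⟨δ / (2 * |ε|), by positivity, ?_⟩
    field_simp
    linarith
  let s : ℕ → ℝ := fun n => (c / ((n:ℝ) + 1)) * ε
  have hs : ∀ n, F + s n • w ∈ Ω ∧ F + s n • w ≠ X := by
    intro n
    apply hball
    rw [Metric.mem_ball, Real.dist_eq, sub_zero]
    simp only [s]
    rw [abs_mul, abs_of_pos (by positivity)]
    calc c / ((n:ℝ) + 1) * |ε| ≤ c * |ε| := by
          gcongr
          apply div_le_self hc0.le
          have : (0:ℝ) ≤ n := Nat.cast_nonneg n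
          linarith
      _ < δ := hcδ
  let U : Ultrafilter ℕ := Filter.hyperfilter ℕ
  have hU : (U : Filter ℕ) ≤ atTop := by
    rw [← Nat.cofinite_eq_atTop]; exact Filter.hyperfilter_le_cofinite
  have hs0 : Tendsto s U (𝓝 0) := by
    have h2 : Tendsto (fun n : ℕ => ((n:ℝ) + 1)) atTop atTop :=
      tendsto_atTop_add_const_right _ _ tendsto_natCast_atTop_atTop
    have h3 := (h2.const_div_atTop c).mul_const ε
    rw [zero_mul] at h3
    exact h3.mono_left hU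
  -- chords from X through F + s n w
  have hch := fun n => exists_chord hΩ hc hb hO (a := X) (b := F + s n • w) (by rw [hXdef]; exact hX)
    (hs n).2.symm
  choose σ' hσ' τ' hτ' gn hgn fn hfn hJn hIn hgn0 hfn0 using hch
  have hXΩ : X ∈ Ω := by rw [hXdef]; exact hX
  have hFΩ : F ∈ Ω := by rw [hFdef]; exact hF
  have hineq : ∀ n, ε * (ev (gn n) F * lin (fn n) w - ev (fn n) F * lin (gn n) w) ≤ 0 := by
    intro n
    obtain ⟨hY, hYX⟩ := hs n
    have e1 := HE_eq hΩ hc hb hXΩ hY hYX.symm (hgn n) (hfn n) (hσ' n) (hτ' n) (hJn n) (hIn n)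
      (hgn0 n) (hfn0 n)
    have e2 := HE_ge hΩ hc hb hXΩ hFΩ hXF.symm (hgn n) (hfn n)
    have e3 : HE Ω X F ≤ HE Ω X (F + s n • w) := by
      rw [← hd_le_iff hΩ hc hb hXΩ hFΩ hXF.symm hXΩ hY hYX.symm]
      have := hyp θ (s n) hX (by rw [← hFdef]; exact hY)
      rwa [← hFdef, ← hXdef] at this
    have gX := Pol_pos hΩ (hgn n) hXΩ
    have fX := Pol_pos hΩ (hfn n) hXΩ
    have gF := Pol_pos hΩ (hgn n) hFΩ
    have fF := Pol_pos hΩ (hfn n) hFΩ
    have gY := Pol_pos hΩ (hgn n) hY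
    have fY := Pol_pos hΩ (hfn n) hY
    have e4 : (ev (gn n) F * ev (fn n) (F + s n • w)) * ev (fn n) X ≤
        (ev (gn n) (F + s n • w) * ev (fn n) F) * ev (fn n) X := by
      calc (ev (gn n) F * ev (fn n) (F + s n • w)) * ev (fn n) X
          = (ev (gn n) F * ev (fn n) X) * ev (fn n) (F + s n • w) := by ring
        _ ≤ (HE Ω X F * (ev (gn n) X * ev (fn n) F)) * ev (fn n) (F + s n • w) := by gcongr
        _ = HE Ω X F * (ev (gn n) X * ev (fn n) F * ev (fn n) (F + s n • w)) := by ring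
        _ ≤ HE Ω X (F + s n • w) * (ev (gn n) X * ev (fn n) F * ev (fn n) (F + s n • w)) := by
            gcongr
        _ = (HE Ω X (F + s n • w) * (ev (gn n) X * ev (fn n) (F + s n • w))) * ev (fn n) F := by
            ring
        _ = _ := by rw [e1]; ring
    have e5 := le_of_mul_le_mul_right e4 fX
    rw [ev_add_smul, ev_add_smul] at e5
    have e6 : (c / ((n:ℝ) + 1)) *
        (ε * (ev (gn n) F * lin (fn n) w - ev (fn n) F * lin (gn n) w)) ≤ 0 := by
      simp only [s] at e5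
      linarith
    have hcn : 0 < c / ((n:ℝ) + 1) := by positivity
    by_contra hh
    push Not at hh
    have := mul_pos hcn hh
    linarith
  have hr1 : ∀ n, ev (fn n) (F + s n • w) * ev tI X ≤ ev (fn n) X * ev tI (F + s n • w) := by
    intro n
    exact ratio_ineq2 (hτ' n) (hfn0 n) (Pol_nonneg_closure htI (hIn n))
      (Pol_pos hΩ (hfn n) hXΩ).le
  have hr2 : ∀ n, ev (gn n) X * ev tJ (F + s n • w) ≤ ev (gn n) (F + s n • w) * ev tJ X := by
    intro n
    exact ratio_ineq (hσ' n) (hgn0 n) (Pol_nonneg_closure htJ (hJn n))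
      (Pol_pos hΩ (hgn n) (hs n).1).le
  obtain ⟨f, hf, lf⟩ := pol_ultra hΩ hO U fn hfn
  obtain ⟨g, hg, lg⟩ := pol_ultra hΩ hO U gn hgn
  have lY : Tendsto (fun n => F + s n • w) U (𝓝 F) := by
    have := (hcont.tendsto 0).comp hs0
    rw [zero_smul, add_zero] at this
    exact this
  have lX : Tendsto (fun _ : ℕ => X) U (𝓝 X) := tendsto_const_nhds
  have lF : Tendsto (fun _ : ℕ => F) U (𝓝 F) := tendsto_const_nhds
  have r1 := le_of_tendsto_of_tendsto' ((tendsto_ev lf lY).mul (tendsto_const_nhds (x := ev tI X)))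
    ((tendsto_ev lf lX).mul (tendsto_ev (tendsto_const_nhds (x := tI)) lY)) hr1
  have r2 := le_of_tendsto_of_tendsto' ((tendsto_ev lg lX).mul
    (tendsto_ev (tendsto_const_nhds (x := tJ)) lY))
    ((tendsto_ev lg lY).mul (tendsto_const_nhds (x := ev tJ X))) hr2
  have hlin : ∀ (h : ℕ → ℝ × ℝ × ℝ) (k : ℝ × ℝ × ℝ), Tendsto h U (𝓝 k) →
      Tendsto (fun n => lin (h n) w) U (𝓝 (lin k w)) := by
    intro h k hk
    exact ((continuous_lin_left w).tendsto k).comp hk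
  have r3 := le_of_tendsto' ((tendsto_const_nhds (x := ε)).mul
    (((tendsto_ev lg lF).mul (hlin fn f lf)).sub ((tendsto_ev lf lF).mul (hlin gn g lg)))) hineq
  refine ⟨f, hf, g, hg, ?_, ?_, ?_⟩
  · apply le_antisymm _ (Pol_nonneg_closure hf hI)
    rw [hFdef, hXdef] at r1
    rw [ev_add_smul_sub, ev_add_smul_sub, ev_add_smul_sub, ev_add_smul_sub] at r1
    rw [ev_add_smul_sub]
    have h1 : ∀ u, ev tI a + u * (ev tI b - ev tI a) = (σ + u) * (ev tI b - ev tI a) := by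
      intro u; linarith
    rw [h1, h1] at r1
    have h2 : ((θ - φ) * (ev tI b - ev tI a)) * (ev f a + σ * (ev f a - ev f b)) ≤ 0 := by
      linarith
    have h3 : 0 < (θ - φ) * (ev tI b - ev tI a) := mul_pos (by linarith) hα
    by_contra hh
    push Not at hh
    have := mul_pos h3 hh
    linarith
  · apply le_antisymm _ (Pol_nonneg_closure hg hJ)
    rw [hFdef, hXdef] at r2
    rw [ev_add_smul_sub, ev_add_smul_sub, ev_add_smul_sub, ev_add_smul_sub] at r2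
    rw [ev_add_smul_sub]
    have h1 : ∀ u, ev tJ a + u * (ev tJ b - ev tJ a) = (τ - u) * (ev tJ a - ev tJ b) := by
      intro u; linarith
    rw [h1, h1] at r2
    have h2 : ((θ - φ) * (ev tJ a - ev tJ b)) * (ev g a + τ * (ev g b - ev g a)) ≤ 0 := by
      linarith
    have h3 : 0 < (θ - φ) * (ev tJ a - ev tJ b) := mul_pos (by linarith) hβ
    by_contra hh
    push Not at hh
    have := mul_pos h3 hh
    linarith
  · rw [← hFdef]; exact r3

/-- necessary condition for perpendicularity: the line through `F` with direction `w` passes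
through the intersection of two supporting lines at the ends of the chord -/
lemma necessity (hΩ : IsOpen Ω) (hc : Convex ℝ Ω) (hb : Bornology.IsBounded Ω) (hO : O ∈ Ω)
    {a b : ℝ × ℝ} (ha : a ∈ Ω) {σ τ : ℝ} (hσ : 0 < σ) (hτ : 0 < τ)
    (hI : a + σ • (a - b) ∈ closure Ω) (hI' : a + σ • (a - b) ∉ Ω)
    (hJ : a + τ • (b - a) ∈ closure Ω) (hJ' : a + τ • (b - a) ∉ Ω)
    {φ : ℝ} (hF : a + φ • (b - a) ∈ Ω) (w : ℝ × ℝ)
    (hyp : ∀ θ s : ℝ, a + θ • (b - a) ∈ Ω → a + φ • (b - a) + s • w ∈ Ω →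
      hd Ω (a + θ • (b - a)) (a + φ • (b - a)) ≤
        hd Ω (a + θ • (b - a)) (a + φ • (b - a) + s • w)) :
    ∃ f ∈ Pol Ω O, ∃ g ∈ Pol Ω O, ev f (a + σ • (a - b)) = 0 ∧ ev g (a + τ • (b - a)) = 0 ∧
      ev g (a + φ • (b - a)) * lin f w = ev f (a + φ • (b - a)) * lin g w := by
  obtain ⟨f1, hf1, g1, hg1, zf1, zg1, h1⟩ := one_sided hΩ hc hb hO ha hσ hτ hI hI' hJ hJ' hF w hyp
    (ε := 1) (by norm_num)
  obtain ⟨f2, hf2, g2, hg2, zf2, zg2, h2⟩ := one_sided hΩ hc hb hO ha hσ hτ hI hI' hJ hJ' hF w hyp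
    (ε := -1) (by norm_num)
  set I := a + σ • (a - b)
  set J := a + τ • (b - a)
  set F := a + φ • (b - a)
  have p1 := Pol_pos hΩ hf1 hF
  have p2 := Pol_pos hΩ hf2 hF
  have q1 := Pol_pos hΩ hg1 hF
  have q2 := Pol_pos hΩ hg2 hF
  -- slopes
  obtain ⟨u1, hu1⟩ : ∃ u, u = lin f1 w / ev f1 F - lin g1 w / ev g1 F := ⟨_, rfl⟩
  obtain ⟨u2, hu2⟩ : ∃ u, u = lin f2 w / ev f2 F - lin g2 w / ev g2 F := ⟨_, rfl⟩
  have s1 : u1 ≤ 0 := by
    rw [hu1, sub_nonpos, div_le_div_iff₀ p1 q1]; linarith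
  have s2 : 0 ≤ u2 := by
    rw [hu2, sub_nonneg, div_le_div_iff₀ q2 p2]; linarith
  -- convex combination
  obtain ⟨l, hl0, hl1, hl⟩ : ∃ l : ℝ, 0 ≤ l ∧ l ≤ 1 ∧ (1 - l) * u1 + l * u2 = 0 := by
    rcases eq_or_lt_of_le s2 with h | h
    · exact ⟨1, zero_le_one, le_rfl, by rw [← h]; ring⟩
    · have hd : 0 < u2 - u1 := by linarith
      refine ⟨-u1 / (u2 - u1), div_nonneg (by linarith) hd.le, ?_, ?_⟩
      · rw [div_le_one hd]; linarith
      · field_simp; ring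
  -- combine functionals
  have comb : ∀ (h1 h2 : ℝ × ℝ × ℝ), h1 ∈ Pol Ω O → h2 ∈ Pol Ω O →
      ∃ h ∈ Pol Ω O, ∃ c : ℝ, 0 < c ∧
        (∀ z, ev h z = c * ((1 - l) * (ev h1 z / ev h1 F) + l * (ev h2 z / ev h2 F))) ∧
        (∀ z, lin h z = c * ((1 - l) * (lin h1 z / ev h1 F) + l * (lin h2 z / ev h2 F))) := by
    intro h1 h2 hh1 hh2
    have r1 := Pol_pos hΩ hh1 hF
    have r2 := Pol_pos hΩ hh2 hF
    have hk : 0 < (1 - l) * (1 / ev h1 F) + l * (1 / ev h2 F) := by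
      rcases eq_or_lt_of_le hl0 with h | h
      · rw [← h]; simp; exact r1
      · have : 0 ≤ (1 - l) * (1 / ev h1 F) := mul_nonneg (by linarith) (by positivity)
        have : 0 < l * (1 / ev h2 F) := by positivity
        linarith
    obtain ⟨c, hc⟩ : ∃ c, c = 1 / ((1 - l) * (1 / ev h1 F) + l * (1 / ev h2 F)) := ⟨_, rfl⟩
    have hcpos : 0 < c := by rw [hc]; positivity
    have hev : ∀ z, ev ((c * (1 - l) / ev h1 F) • h1 + (c * l / ev h2 F) • h2) z
        = c * ((1 - l) * (ev h1 z / ev h1 F) + l * (ev h2 z / ev h2 F)) := by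
      intro z
      simp only [ev, Prod.fst_add, Prod.snd_add, Prod.smul_fst, Prod.smul_snd, smul_eq_mul]
      ring
    have hlin : ∀ z, lin ((c * (1 - l) / ev h1 F) • h1 + (c * l / ev h2 F) • h2) z
        = c * ((1 - l) * (lin h1 z / ev h1 F) + l * (lin h2 z / ev h2 F)) := by
      intro z
      simp only [lin, Prod.snd_add, Prod.fst_add, Prod.smul_fst, Prod.smul_snd, smul_eq_mul]
      ring
    refine ⟨(c * (1 - l) / ev h1 F) • h1 + (c * l / ev h2 F) • h2, ⟨?_, ?_⟩, c, hcpos, hev, hlin⟩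
    · rw [hev, hh1.1, hh2.1, hc]
      rw [one_div, inv_mul_cancel₀ hk.ne']
    · intro z hz
      rw [hev]
      have n1 := hh1.2 z hz
      have n2 := hh2.2 z hz
      have m1 : 0 ≤ (1 - l) * (ev h1 z / ev h1 F) := mul_nonneg (by linarith) (by positivity)
      have m2 : 0 ≤ l * (ev h2 z / ev h2 F) := mul_nonneg hl0 (by positivity)
      exact mul_nonneg hcpos.le (by linarith)
  obtain ⟨f, hf, c, hc, hfe, hfl⟩ := comb f1 f2 hf1 hf2
  obtain ⟨g, hg, d, hd', hge, hgl⟩ := comb g1 g2 hg1 hg2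
  refine ⟨f, hf, g, hg, ?_, ?_, ?_⟩
  · rw [hfe, zf1, zf2]; simp
  · rw [hge, zg1, zg2]; simp
  · have e1 : ev f F = c := by
      rw [hfe, div_self p1.ne', div_self p2.ne']; ring
    have e2 : ev g F = d := by
      rw [hge, div_self q1.ne', div_self q2.ne']; ring
    rw [e1, e2, hfl, hgl]
    rw [hu1, hu2] at hl
    linear_combination (c * d) * hl

end

end Pool.Agent.Helper87.HilbertPlane
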