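import Pool.Agent.Helper87.Conic

set_option autoImplicit false

namespace Pool.Agent.Helper87.HilbertPlane

open Set Filter Topology

section

variable {Ω : Set (ℝ × ℝ)} {O : ℝ × ℝ}

/-- value of `HE` for two ordered points of a chord -/
lemma HE_on_chord (hΩ : IsOpen Ω) (hc : Convex ℝ Ω) (hb : Bornology.IsBounded Ω)
    {a b : ℝ × ℝ} {f g : ℝ × ℝ × ℝ} (hf : f ∈ Pol Ω O) (hg : g ∈ Pol Ω O) {σ τ : ℝ}
    (hσ : 0 < σ) (hτ : 0 < τ) (ha : a ∈ Ω)
    (hI : a + σ • (a - b) ∈ closure Ω) (hJ : a + τ • (b - a) ∈ closure Ω)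
    (hfI : ev f (a + σ • (a - b)) = 0) (hgJ : ev g (a + τ • (b - a)) = 0)
    {θ φ : ℝ} (hx : a + θ • (b - a) ∈ Ω) (hF : a + φ • (b - a) ∈ Ω) (h : θ < φ) :
    HE Ω (a + θ • (b - a)) (a + φ • (b - a)) *
        (ev f (a + θ • (b - a)) * ev g (a + φ • (b - a)))
      = ev f (a + φ • (b - a)) * ev g (a + θ • (b - a)) ∧
    HE Ω (a + φ • (b - a)) (a + θ • (b - a)) *
        (ev f (a + θ • (b - a)) * ev g (a + φ • (b - a)))
      = ev f (a + φ • (b - a)) * ev g (a + θ • (b - a)) ∧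
    ev f (a + θ • (b - a)) < ev f (a + φ • (b - a)) ∧
    ev g (a + φ • (b - a)) < ev g (a + θ • (b - a)) := by
  have fa := Pol_pos hΩ hf ha
  have ga := Pol_pos hΩ hg ha
  have fx := Pol_pos hΩ hf hx
  have gx := Pol_pos hΩ hg hx
  have fF := Pol_pos hΩ hf hF
  have gF := Pol_pos hΩ hg hF
  have hfI' := hfI
  have hgJ' := hgJ
  rw [ev_add_smul_sub] at hfI' hgJ' fx gx fF gF
  have hα : 0 < ev f b - ev f a := by
    by_contra hh
    push Not at hh
    nlinarith [mul_nonneg hσ.le (sub_nonneg.2 hh)]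
  have hβ : 0 < ev g a - ev g b := by
    by_contra hh
    push Not at hh
    nlinarith [mul_nonneg hτ.le (sub_nonneg.2 hh)]
  have h1 : ∀ s, ev f a + s * (ev f b - ev f a) = (σ + s) * (ev f b - ev f a) := by
    intro s; linarith
  have h2 : ∀ s, ev g a + s * (ev g b - ev g a) = (τ - s) * (ev g a - ev g b) := by
    intro s; linarith
  rw [h1] at fx fF
  rw [h2] at gx gF
  have p1 : 0 < σ + θ := (pos_iff_pos_of_mul_pos fx).2 hα
  have p2 : 0 < τ - θ := (pos_iff_pos_of_mul_pos gx).2 hβ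
  have p3 : 0 < σ + φ := (pos_iff_pos_of_mul_pos fF).2 hα
  have p4 : 0 < τ - φ := (pos_iff_pos_of_mul_pos gF).2 hβ
  have hθφ : 0 < φ - θ := sub_pos.2 h
  have hdiff : ev f (a + φ • (b - a)) ≠ ev f (a + θ • (b - a)) := by
    rw [ev_add_smul_sub, ev_add_smul_sub, h1, h1]
    intro hh
    have := mul_right_cancel₀ hα.ne' hh
    linarith
  have hne : a + θ • (b - a) ≠ a + φ • (b - a) := fun hh => hdiff (by rw [hh])
  refine ⟨?_, ?_, ?_, ?_⟩
  · have e1 : a + θ • (b - a) + ((σ + θ)/(φ - θ)) • (a + θ • (b - a) - (a + φ • (b - a)))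
        = a + σ • (a - b) := by
      have hr : (σ + θ) / (φ - θ) * (θ - φ) = -(σ + θ) := by field_simp; ring
      have : a + θ • (b - a) - (a + φ • (b - a)) = (θ - φ) • (b - a) := by rw [sub_smul]; abel
      rw [this, smul_smul, hr]
      rw [neg_smul, add_smul, ← neg_sub b a, smul_neg]; abel
    have e2 : a + θ • (b - a) + ((τ - θ)/(φ - θ)) • (a + φ • (b - a) - (a + θ • (b - a)))
        = a + τ • (b - a) := by
      have hr : (τ - θ) / (φ - θ) * (φ - θ) = (τ - θ) := by field_simp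
      have : a + φ • (b - a) - (a + θ • (b - a)) = (φ - θ) • (b - a) := by rw [sub_smul]; abel
      rw [this, smul_smul, hr, sub_smul]; abel
    refine HE_eq hΩ hc hb hx hF hne hf hg (div_pos p1 hθφ) (div_pos p2 hθφ) ?_ ?_ ?_ ?_
    · rw [e1]; exact hI
    · rw [e2]; exact hJ
    · rw [e1]; exact hfI
    · rw [e2]; exact hgJ
  · have e1 : a + φ • (b - a) + ((τ - φ)/(φ - θ)) • (a + φ • (b - a) - (a + θ • (b - a)))
        = a + τ • (b - a) := by
      have hr : (τ - φ) / (φ - θ) * (φ - θ) = (τ - φ) := by field_simp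
      have : a + φ • (b - a) - (a + θ • (b - a)) = (φ - θ) • (b - a) := by rw [sub_smul]; abel
      rw [this, smul_smul, hr, sub_smul]; abel
    have e2 : a + φ • (b - a) + ((σ + φ)/(φ - θ)) • (a + θ • (b - a) - (a + φ • (b - a)))
        = a + σ • (a - b) := by
      have hr : (σ + φ) / (φ - θ) * (θ - φ) = -(σ + φ) := by field_simp; ring
      have : a + θ • (b - a) - (a + φ • (b - a)) = (θ - φ) • (b - a) := by rw [sub_smul]; abel
      rw [this, smul_smul, hr]
      rw [neg_smul, add_smul, ← neg_sub b a, smul_neg]; abel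
    have := HE_eq hΩ hc hb hF hx hne.symm hg hf (div_pos p4 hθφ) (div_pos p3 hθφ)
      (by rw [e1]; exact hJ) (by rw [e2]; exact hI) (by rw [e1]; exact hgJ) (by rw [e2]; exact hfI)
    linarith
  · rw [ev_add_smul_sub, ev_add_smul_sub, h1, h1]
    apply mul_lt_mul_of_pos_right _ hα; linarith
  · rw [ev_add_smul_sub, ev_add_smul_sub, h2, h2]
    apply mul_lt_mul_of_pos_right _ hβ; linarith

/-- a line through `F` and the common point of two supporting lines at the ends of the chord: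
`F` is nearest among the points of that line to every point of the chord -/
lemma foot_le (hΩ : IsOpen Ω) (hc : Convex ℝ Ω) (hb : Bornology.IsBounded Ω)
    {a b : ℝ × ℝ} {f g : ℝ × ℝ × ℝ} (hf : f ∈ Pol Ω O) (hg : g ∈ Pol Ω O) {σ τ : ℝ}
    (hσ : 0 < σ) (hτ : 0 < τ) (ha : a ∈ Ω)
    (hI : a + σ • (a - b) ∈ closure Ω) (hJ : a + τ • (b - a) ∈ closure Ω)
    (hfI : ev f (a + σ • (a - b)) = 0) (hgJ : ev g (a + τ • (b - a)) = 0)
    {θ φ : ℝ} (hx : a + θ • (b - a) ∈ Ω) (hF : a + φ • (b - a) ∈ Ω) {z : ℝ × ℝ} (hz : z ∈ Ω)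
    (hzF : ev g (a + φ • (b - a)) * ev f z = ev f (a + φ • (b - a)) * ev g z) :
    hd Ω (a + θ • (b - a)) (a + φ • (b - a)) ≤ hd Ω (a + θ • (b - a)) z := by
  have fx := Pol_pos hΩ hf hx
  have gx := Pol_pos hΩ hg hx
  have fF := Pol_pos hΩ hf hF
  have gF := Pol_pos hΩ hg hF
  have fz := Pol_pos hΩ hf hz
  have gz := Pol_pos hΩ hg hz
  rcases lt_trichotomy θ φ with h | h | h
  · obtain ⟨e1, -, e3, e4⟩ := HE_on_chord hΩ hc hb hf hg hσ hτ ha hI hJ hfI hgJ hx hF h
    set x := a + θ • (b - a)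
    set F := a + φ • (b - a)
    have hxF : x ≠ F := fun hh => by rw [hh] at e3; exact lt_irrefl _ e3
    have hxz : x ≠ z := by
      intro hh
      rw [← hh] at hzF
      have : ev g F * ev f x < ev f F * ev g x := by
        calc ev g F * ev f x < ev g x * ev f x := by gcongr
          _ < ev g x * ev f F := by gcongr
          _ = _ := by ring
      linarith
    rw [hd_le_iff hΩ hc hb hx hF hxF hx hz hxz]
    have h2 := HE_ge hΩ hc hb hx hz hxz hf hg
    have h3 : HE Ω x F * (ev f x * ev g F * ev g z) ≤ HE Ω x z * (ev f x * ev g F * ev g z) := by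
      calc HE Ω x F * (ev f x * ev g F * ev g z) = (HE Ω x F * (ev f x * ev g F)) * ev g z := by ring
        _ = (ev f F * ev g z) * ev g x := by rw [e1]; ring
        _ = ev g F * (ev f z * ev g x) := by rw [← hzF]; ring
        _ ≤ ev g F * (HE Ω x z * (ev f x * ev g z)) := by gcongr
        _ = _ := by ring
    exact le_of_mul_le_mul_right h3 (by positivity)
  · rw [h, hd_self]
    exact hd_nonneg hΩ hc hb hF hz
  · obtain ⟨-, e1, e3, e4⟩ := HE_on_chord hΩ hc hb hf hg hσ hτ ha hI hJ hfI hgJ hF hx h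
    set x := a + θ • (b - a)
    set F := a + φ • (b - a)
    have hxF : x ≠ F := fun hh => by rw [hh] at e3; exact lt_irrefl _ e3
    have hxz : x ≠ z := by
      intro hh
      rw [← hh] at hzF
      have : ev f F * ev g x < ev g F * ev f x := by
        calc ev f F * ev g x < ev f x * ev g x := by gcongr
          _ < ev f x * ev g F := by gcongr
          _ = _ := by ring
      linarith
    rw [hd_le_iff hΩ hc hb hx hF hxF hx hz hxz]
    have h2 := HE_ge hΩ hc hb hx hz hxz hg hf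
    have h3 : HE Ω x F * (ev g x * ev f F * ev f z) ≤ HE Ω x z * (ev g x * ev f F * ev f z) := by
      calc HE Ω x F * (ev g x * ev f F * ev f z) = (HE Ω x F * (ev f F * ev g x)) * ev f z := by ring
        _ = (ev g F * ev f z) * ev f x := by rw [e1]; ring
        _ = ev f F * (ev g z * ev f x) := by rw [hzF]; ring
        _ ≤ ev f F * (HE Ω x z * (ev g x * ev f z)) := by gcongr
        _ = _ := by ring
    exact le_of_mul_le_mul_right h3 (by positivity)

/-- the chord through two distinct points with supporting functionals at its ends -/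
lemma exists_chord (hΩ : IsOpen Ω) (hc : Convex ℝ Ω) (hb : Bornology.IsBounded Ω) (hO : O ∈ Ω)
    {a b : ℝ × ℝ} (ha : a ∈ Ω) (hab : a ≠ b) :
    ∃ σ : ℝ, 0 < σ ∧ ∃ τ : ℝ, 0 < τ ∧ ∃ f ∈ Pol Ω O, ∃ g ∈ Pol Ω O,
      a + σ • (a - b) ∈ closure Ω ∧ a + τ • (b - a) ∈ closure Ω ∧
      ev f (a + σ • (a - b)) = 0 ∧ ev g (a + τ • (b - a)) = 0 := by
  obtain ⟨σ, hσ, -, h2, h3⟩ := exists_ray hΩ hc hb ha (sub_ne_zero.2 hab)
  obtain ⟨τ, hτ, -, h5, h6⟩ := exists_ray hΩ hc hb ha (sub_ne_zero.2 hab.symm)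
  obtain ⟨f, hf, hf'⟩ := exists_support' hΩ hc hO h3 h2
  obtain ⟨g, hg, hg'⟩ := exists_support' hΩ hc hO h6 h5
  exact ⟨σ, hσ, τ, hτ, f, hf, g, hg, h2, h5, hf', hg'⟩

/-- the metric midpoint in terms of supporting functionals -/
lemma exists_midpoint (hΩ : IsOpen Ω) (hc : Convex ℝ Ω) (hb : Bornology.IsBounded Ω)
    {a b : ℝ × ℝ} {f g : ℝ × ℝ × ℝ} (hf : f ∈ Pol Ω O) (hg : g ∈ Pol Ω O) {σ τ : ℝ}
    (hσ : 0 < σ) (hτ : 0 < τ) (ha : a ∈ Ω) (hbb : b ∈ Ω)
    (hI : a + σ • (a - b) ∈ closure Ω) (hJ : a + τ • (b - a) ∈ closure Ω)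
    (hfI : ev f (a + σ • (a - b)) = 0) (hgJ : ev g (a + τ • (b - a)) = 0) :
    ∃ μ : ℝ, 0 ≤ μ ∧ μ ≤ 1 ∧ a + μ • (b - a) ∈ Ω ∧
      hd Ω a (a + μ • (b - a)) = hd Ω (a + μ • (b - a)) b ∧
      (ev f (a + μ • (b - a)))^2 * (ev g a * ev g b)
        = (ev g (a + μ • (b - a)))^2 * (ev f a * ev f b) := by
  have fa := Pol_pos hΩ hf ha
  have ga := Pol_pos hΩ hg ha
  have fb := Pol_pos hΩ hf hbb
  have gb := Pol_pos hΩ hg hbb
  have ha0 : a + (0:ℝ) • (b - a) = a := by simp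
  have hb1 : a + (1:ℝ) • (b - a) = b := by simp
  obtain ⟨-, -, fab, gba⟩ := HE_on_chord hΩ hc hb hf hg hσ hτ ha hI hJ hfI hgJ
    (θ := 0) (φ := 1) (by rw [ha0]; exact ha) (by rw [hb1]; exact hbb) one_pos
  rw [ha0, hb1] at fab gba
  -- the ratio
  obtain ⟨ρ, hρ, hρ2⟩ : ∃ ρ : ℝ, 0 < ρ ∧ ρ^2 * (ev g a * ev g b) = ev f a * ev f b := by
    refine ⟨Real.sqrt (ev f a * ev f b / (ev g a * ev g b)), by positivity, ?_⟩
    rw [Real.sq_sqrt (by positivity)]; field_simp
  have hlow : ev f a < ρ * ev g a := by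
    by_contra hh
    push Not at hh
    have h1 : ρ * ev g b < ev f b := by
      calc ρ * ev g b < ρ * ev g a := by gcongr
        _ ≤ ev f a := hh
        _ < ev f b := fab
    have : ρ^2 * (ev g a * ev g b) < ev f a * ev f b := by
      calc ρ^2 * (ev g a * ev g b) = (ρ * ev g a) * (ρ * ev g b) := by ring
        _ ≤ ev f a * (ρ * ev g b) := by gcongr
        _ < ev f a * ev f b := by gcongr
    linarith
  have hup : ρ * ev g b < ev f b := by
    by_contra hh
    push Not at hh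
    have : ev f a * ev f b < ρ^2 * (ev g a * ev g b) := by
      calc ev f a * ev f b ≤ ev f a * (ρ * ev g b) := by gcongr
        _ < (ρ * ev g a) * (ρ * ev g b) := by gcongr
        _ = _ := by ring
    linarith
  have hden : 0 < (ev f b - ev f a) + ρ * (ev g a - ev g b) := by
    have : 0 < ρ * (ev g a - ev g b) := mul_pos hρ (by linarith)
    linarith
  obtain ⟨μ, hμ⟩ : ∃ μ : ℝ, μ = (ρ * ev g a - ev f a) / ((ev f b - ev f a) + ρ * (ev g a - ev g b)) :=
    ⟨_, rfl⟩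
  have hμ0 : 0 < μ := by rw [hμ]; exact div_pos (by linarith) hden
  have hμ1 : μ < 1 := by rw [hμ, div_lt_one hden]; linarith
  have hμ' : μ * ((ev f b - ev f a) + ρ * (ev g a - ev g b)) = ρ * ev g a - ev f a := by
    rw [hμ]; field_simp
  have hm : a + μ • (b - a) ∈ Ω := by
    have := hc ha hbb (a := 1 - μ) (b := μ) (by linarith) hμ0.le (by ring)
    have e : (1 - μ) • a + μ • b = a + μ • (b - a) := by
      rw [smul_sub, sub_smul, one_smul]; abel
    rwa [e] at this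
  have hfm : ev f (a + μ • (b - a)) = ρ * ev g (a + μ • (b - a)) := by
    rw [ev_add_smul_sub, ev_add_smul_sub]; linarith
  have fm := Pol_pos hΩ hf hm
  have gm := Pol_pos hΩ hg hm
  have hrel : (ev f (a + μ • (b - a)))^2 * (ev g a * ev g b)
        = (ev g (a + μ • (b - a)))^2 * (ev f a * ev f b) := by
    rw [hfm, ← hρ2]; ring
  refine ⟨μ, hμ0.le, hμ1.le, hm, ?_, hrel⟩
  obtain ⟨e1, -, -, -⟩ := HE_on_chord hΩ hc hb hf hg hσ hτ ha hI hJ hfI hgJ
    (θ := 0) (φ := μ) (by rw [ha0]; exact ha) hm hμ0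
  obtain ⟨e2, -, -, -⟩ := HE_on_chord hΩ hc hb hf hg hσ hτ ha hI hJ hfI hgJ
    (θ := μ) (φ := 1) hm (by rw [hb1]; exact hbb) hμ1
  rw [ha0] at e1
  rw [hb1] at e2
  rw [hd_eq_log, hd_eq_log]
  congr 2
  set m := a + μ • (b - a)
  have h1 : HE Ω a m = ev f m * ev g a / (ev f a * ev g m) := by
    rw [eq_div_iff (by positivity)]; exact e1
  have h2 : HE Ω m b = ev f b * ev g m / (ev f m * ev g b) := by
    rw [eq_div_iff (by positivity)]; exact e2
  rw [h1, h2, div_eq_div_iff (by positivity) (by positivity)]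
  linear_combination hrel

end

end Pool.Agent.Helper87.HilbertPlane
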