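import Mathlib

set_option autoImplicit false

open Real Filter Topology

namespace Pool.Agent.Helper87.Elliptic

abbrev E3 := EuclideanSpace ℝ (Fin 3)

/-- The distance of two points of the projective plane, given by nonzero vectors; `L v w` is the
length of the segment consisting of the points `a v + b w` with `a, b ≥ 0`, and `π - L v w` is the
length of the complementary segment. -/
noncomputable def dE (L : E3 → E3 → ℝ) (v w : E3) : ℝ := min (L v w) (π - L v w)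

/-- A projective-metric plane of elliptic type, given by the lengths `L` of its segments. -/
structure EllipticPlane (L : E3 → E3 → ℝ) : Prop where
  symm : ∀ v w, v ≠ 0 → w ≠ 0 → L v w = L w v
  smul : ∀ v w, v ≠ 0 → w ≠ 0 → ∀ a : ℝ, 0 < a → L (a • v) w = L v w
  neg : ∀ v w, v ≠ 0 → w ≠ 0 → L v (-w) = π - L v w
  self : ∀ v, v ≠ 0 → L v v = 0
  pos : ∀ v w, v ≠ 0 → w ≠ 0 → ¬ SameRay ℝ v w → 0 < L v w
  add : ∀ v w, LinearIndependent ℝ ![v, w] → ∀ a b : ℝ, 0 < a → 0 < b →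
    L v (a • v + b • w) + L (a • v + b • w) w = L v w
  cont : ContinuousOn (fun p : E3 × E3 => L p.1 p.2) {p | p.1 ≠ 0 ∧ p.2 ≠ 0}
  triangle : ∀ u v w, u ≠ 0 → v ≠ 0 → w ≠ 0 → dE L u w ≤ dE L u v + dE L v w

/-- All circles of radius less than `π / 2` are strictly convex. -/
def StrictlyConvexCircles (L : E3 → E3 → ℝ) : Prop :=
  ∀ N, N ≠ 0 → ∀ r < π / 2, ∀ v w, LinearIndependent ℝ ![v, w] → L N v ≤ r → L N w ≤ r →
    ∀ a b : ℝ, 0 < a → 0 < b → L N (a • v + b • w) < r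

/-- Triangle inequality for `L`. -/
def TriL (L : E3 → E3 → ℝ) : Prop :=
  ∀ u v w, u ≠ 0 → v ≠ 0 → w ≠ 0 → L u w ≤ L u v + L v w

/-- The vectors at distance `π / 2` from `N`, with zero, form a linear subspace. -/
def PolarLin (L : E3 → E3 → ℝ) : Prop :=
  ∀ N X Y, N ≠ 0 → X ≠ 0 → Y ≠ 0 → L N X = π / 2 → L N Y = π / 2 →
    ∀ a b : ℝ, a • X + b • Y ≠ 0 → L N (a • X + b • Y) = π / 2

/-- This subspace has dimension at most two. -/
def PolarDim (L : E3 → E3 → ℝ) : Prop :=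
  ∀ N A B C, N ≠ 0 → A ≠ 0 → B ≠ 0 → C ≠ 0 → L N A = π / 2 → L N B = π / 2 → L N C = π / 2 →
    LinearIndependent ℝ ![A, B] → C ∈ Submodule.span ℝ {A, B}

/-- Two points have a common perpendicular. -/
def PolarEx (L : E3 → E3 → ℝ) : Prop :=
  ∀ X Y, X ≠ 0 → Y ≠ 0 → ∃ Z, Z ≠ 0 ∧ L X Z = π / 2 ∧ L Y Z = π / 2

/-- Perpendicularity is given by an inner product. -/
def PolarForm (L : E3 → E3 → ℝ) : Prop :=
  ∃ T : E3 ≃ₗ[ℝ] E3, ∀ v w, v ≠ 0 → w ≠ 0 → (L v w = π / 2 ↔ inner ℝ (T v) (T w) = 0)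

end Pool.Agent.Helper87.Elliptic
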