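import Pool.Agent.Helper87.ThalesEllDefs

set_option autoImplicit false

open Real Filter Topology

namespace Pool.Agent.Helper87.Elliptic

theorem triL_of (L : E3 → E3 → ℝ) (hL : EllipticPlane L) : TriL L := by
  have hsame : ∀ v w, v ≠ 0 → w ≠ 0 → SameRay ℝ v w → L v w = 0 := by
    intro v w hv hw h
    obtain ⟨r, hr, hrw⟩ := h.exists_pos_left hv hw
    rw [← hrw, hL.symm v (r • v) hv (smul_ne_zero hr.ne' hv), hL.smul v v hv hv r hr, hL.self v hv]
  have hnn : ∀ v w, v ≠ 0 → w ≠ 0 → 0 ≤ L v w := by
    intro v w hv hw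
    by_cases h : SameRay ℝ v w
    · rw [hsame v w hv hw h]
    · exact (hL.pos v w hv hw h).le
  have hle : ∀ v w, v ≠ 0 → w ≠ 0 → L v w ≤ π := by
    intro v w hv hw
    have h1 := hnn v (-w) hv (neg_ne_zero.mpr hw)
    rw [hL.neg v w hv hw] at h1
    linarith
  -- the case of a long second side
  have case2 : ∀ u v w, u ≠ 0 → v ≠ 0 → w ≠ 0 → π / 2 ≤ L v w → L u w ≤ L u v + L v w := by
    intro u v w hu hv hw hb
    have hw' : -w ≠ 0 := neg_ne_zero.mpr hw
    have h1 := hL.triangle v u (-w) hv hu hw'
    have h2 : dE L v (-w) = π - L v w := by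
      unfold dE
      rw [hL.neg v w hv hw, min_eq_left]
      linarith
    have h3 : dE L v u ≤ L u v := by
      unfold dE
      rw [hL.symm v u hv hu]
      exact min_le_left _ _
    have h4 : dE L u (-w) ≤ π - L u w := by
      unfold dE
      rw [hL.neg u w hu hw]
      exact min_le_left _ _
    linarith
  intro u v w hu hv hw
  by_cases hc : L u w ≤ π / 2
  · have h1 := hL.triangle u v w hu hv hw
    have h2 : dE L u w = L u w := by
      unfold dE
      rw [min_eq_left]
      linarith
    have h3 : dE L u v ≤ L u v := min_le_left _ _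
    have h4 : dE L v w ≤ L v w := min_le_left _ _
    linarith
  push Not at hc
  by_cases hb : π / 2 ≤ L v w
  · exact case2 u v w hu hv hw hb
  by_cases ha : π / 2 ≤ L u v
  · have h1 := case2 w v u hw hv hu (by rw [hL.symm v u hv hu]; exact ha)
    rw [hL.symm w u hw hu, hL.symm w v hw hv, hL.symm v u hv hu] at h1
    linarith
  push Not at hb ha
  by_cases hli : LinearIndependent ℝ ![v, w]
  · have hq0 : ∀ t : ℝ, (1 - t) • v + t • w ≠ 0 := by
      intro t h
      rw [LinearIndependent.pair_iff] at hli
      obtain ⟨h1, h2⟩ := hli (1 - t) t h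
      linarith
    have hcont : Continuous (fun t : ℝ => L u ((1 - t) • v + t • w)) := by
      have h1 : Continuous (fun t : ℝ => ((u, (1 - t) • v + t • w) : E3 × E3)) := by
        fun_prop
      have h2 := hL.cont.comp_continuous h1 (fun t => ⟨hu, hq0 t⟩)
      exact h2
    have hivt := intermediate_value_Ioo (zero_le_one' ℝ) hcont.continuousOn
    have hmem : π / 2 ∈ Set.Ioo (L u ((1 - (0:ℝ)) • v + (0:ℝ) • w)) (L u ((1 - (1:ℝ)) • v + (1:ℝ) • w)) := by
      constructor
      · simpa using ha
      · simpa using hc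
    obtain ⟨t, ⟨ht0, ht1⟩, htq⟩ := hivt hmem
    have htq : L u ((1 - t) • v + t • w) = π / 2 := htq
    have hadd := hL.add v w hli (1 - t) t (by linarith) ht0
    have hq := hq0 t
    set q := (1 - t) • v + t • w with hqdef
    have hu' : -u ≠ 0 := neg_ne_zero.mpr hu
    have h1 := hL.triangle u v q hu hv hq
    have h2 := hL.triangle q w (-u) hq hw hu'
    have h3 : dE L u q = π / 2 := by
      unfold dE
      rw [htq, min_eq_left]
      linarith
    have h4 : dE L q (-u) = π / 2 := by
      unfold dE
      rw [hL.neg q u hq hu, hL.symm q u hq hu, htq, min_eq_left]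
      · ring
      · linarith
    have h5 : dE L u v ≤ L u v := min_le_left _ _
    have h6 : dE L v q ≤ L v q := min_le_left _ _
    have h7 : dE L q w ≤ L q w := min_le_left _ _
    have h8 : dE L w (-u) ≤ π - L u w := by
      unfold dE
      rw [hL.neg w u hw hu, hL.symm w u hw hu]
      exact min_le_left _ _
    linarith
  · -- dependent case
    rw [LinearIndependent.pair_iff' hv] at hli
    push Not at hli
    obtain ⟨r, hr⟩ := hli
    have hr0 : r ≠ 0 := by
      rintro rfl
      apply hw
      rw [← hr, zero_smul]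
    rcases lt_or_gt_of_ne hr0 with hneg | hpos
    · exfalso
      have h1 : SameRay ℝ v (-w) := by
        rw [← hr, ← neg_smul]
        exact SameRay.sameRay_nonneg_smul_right v (by linarith)
      have h2 := hsame v (-w) hv (neg_ne_zero.mpr hw) h1
      rw [hL.neg v w hv hw] at h2
      have := Real.pi_pos
      linarith
    · have h1 : L u w = L u v := by
        rw [← hr, hL.symm u (r • v) hu (smul_ne_zero hr0 hv), hL.smul v u hv hu r hpos,
          hL.symm v u hv hu]
      have h2 := hnn v w hv hw
      linarith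

section J2

variable {L : E3 → E3 → ℝ}

lemma EllipticPlane.smul_right (hL : EllipticPlane L) {v w : E3} (hv : v ≠ 0) (hw : w ≠ 0)
    {a : ℝ} (ha : 0 < a) : L v (a • w) = L v w := by
  rw [hL.symm v _ hv (smul_ne_zero ha.ne' hw), hL.smul w v hw hv a ha, hL.symm w v hw hv]

lemma EllipticPlane.neg_left (hL : EllipticPlane L) {v w : E3} (hv : v ≠ 0) (hw : w ≠ 0) :
    L (-v) w = π - L v w := by
  rw [hL.symm _ w (neg_ne_zero.mpr hv) hw, hL.neg w v hw hv, hL.symm w v hw hv]

lemma EllipticPlane.right_mul (hL : EllipticPlane L) {v w : E3} (hv : v ≠ 0) (hw : w ≠ 0)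
    (h : L v w = π / 2) {a : ℝ} (ha : a ≠ 0) : L v (a • w) = π / 2 := by
  rcases lt_or_gt_of_ne ha with h1 | h1
  · have : a • w = -((-a) • w) := by simp
    rw [this, hL.neg v _ hv (smul_ne_zero (by linarith) hw), hL.smul_right hv hw (by linarith), h]
    ring
  · rw [hL.smul_right hv hw h1, h]

lemma EllipticPlane.li_of (hL : EllipticPlane L) {v w : E3} (hv : v ≠ 0) (hw : w ≠ 0)
    (h : L v w = π / 2) : LinearIndependent ℝ ![v, w] := by
  rw [LinearIndependent.pair_iff' hv]
  intro a ha
  have hpi := Real.pi_pos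
  have ha0 : a ≠ 0 := by rintro rfl; exact hw (by simpa using ha.symm)
  rcases lt_or_gt_of_ne ha0 with h1 | h1
  · have : w = -((-a) • v) := by rw [← ha]; simp
    rw [this, hL.neg v _ hv (smul_ne_zero (by linarith) hv), hL.smul_right hv hv (by linarith),
      hL.self v hv] at h
    linarith
  · rw [← ha, hL.smul_right hv hv h1, hL.self v hv] at h
    linarith

lemma EllipticPlane.pos' (hL : EllipticPlane L) {v w : E3}
    (h : LinearIndependent ℝ ![v, w]) : 0 < L v w := by
  have hv : v ≠ 0 := by simpa using h.ne_zero 0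
  have hw : w ≠ 0 := by simpa using h.ne_zero 1
  exact hL.pos v w hv hw fun h1 =>
    (sameRay_or_sameRay_neg_iff_not_linearIndependent.mp (Or.inl h1)) h

lemma li_symm {v w : E3} (h : LinearIndependent ℝ ![v, w]) : LinearIndependent ℝ ![w, v] :=
  LinearIndependent.pair_symm_iff.mp h

/-- A positive combination is not parallel to an end point. -/
lemma li_comb {v w : E3} (h : LinearIndependent ℝ ![v, w]) {a b : ℝ} (hb : b ≠ 0) :
    LinearIndependent ℝ ![v, a • v + b • w] := by
  rw [LinearIndependent.pair_iff] at h ⊢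
  intro s t hst
  have h1 : (s + t * a) • v + (t * b) • w = 0 := by
    rw [← hst]; module
  obtain ⟨h2, h3⟩ := h _ _ h1
  have ht : t = 0 := by
    rcases mul_eq_zero.mp h3 with h4 | h4
    · exact h4
    · exact absurd h4 hb
  subst ht
  exact ⟨by simpa using h2, rfl⟩

lemma EllipticPlane.uniq (hL : EllipticPlane L) {N X : E3} (hN : N ≠ 0) (hX : X ≠ 0)
    (h : L N X = π / 2) {a b : ℝ} (hY : a • N + b • X ≠ 0) (h' : L N (a • N + b • X) = π / 2) :
    a = 0 := by
  have hli := hL.li_of hN hX h
  have hb : b ≠ 0 := by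
    rintro rfl
    have h0 : a • N + (0 : ℝ) • X = a • N := by simp
    rw [h0] at hY h'
    have hli' := hL.li_of hN hY h'
    rw [LinearIndependent.pair_iff' hN] at hli'
    exact hli' a rfl
  -- the case `b > 0`
  have key : ∀ a b : ℝ, 0 < b → L N (a • N + b • X) = π / 2 → a = 0 := by
    intro a b hb h'
    have hli2 : LinearIndependent ℝ ![N, a • N + b • X] := li_comb hli hb.ne'
    have hli3 : a ≠ 0 → LinearIndependent ℝ ![X, a • N + b • X] := by
      intro ha
      have := li_comb (li_symm hli) (a := b) (b := a) ha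
      rwa [add_comm] at this
    by_contra ha
    rcases lt_or_gt_of_ne ha with h1 | h1
    · have e := hL.add N (a • N + b • X) hli2 (-a / b) (1 / b)
        (div_pos (by linarith) hb) (by positivity)
      have e1 : (-a / b) • N + (1 / b) • (a • N + b • X) = X := by
        rw [smul_add, smul_smul, smul_smul, one_div, inv_mul_cancel₀ hb.ne']
        rw [← add_assoc, ← add_smul]
        have : -a / b + b⁻¹ * a = 0 := by field_simp; ring
        rw [this]; simp
      rw [e1, h, h'] at e
      have := hL.pos' (hli3 ha)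
      linarith
    · have e := hL.add N X hli a b h1 hb
      rw [h, h'] at e
      have := hL.pos' (li_symm (hli3 ha))
      linarith
  rcases lt_or_gt_of_ne hb with h1 | h1
  · have := key (-a) (-b) (by linarith) (by
      have e : (-a) • N + (-b) • X = -(a • N + b • X) := by module
      rw [e, hL.neg N _ hN hY, h']; ring)
    linarith
  · exact key a b h1 h'

lemma EllipticPlane.not_mem (hL : EllipticPlane L) {N X Y : E3} (hN : N ≠ 0) (hX : X ≠ 0)
    (hY : Y ≠ 0) (h1 : L N X = π / 2) (h2 : L N Y = π / 2) (c d : ℝ) : N ≠ c • X + d • Y := by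
  intro h
  have hli := hL.li_of hN hX h1
  have hd : d ≠ 0 := by
    rintro rfl
    have h' : c • X = N := by rw [h]; simp
    have := (LinearIndependent.pair_iff' hX).mp (li_symm hli) c
    exact this h'
  have e : Y = (1 / d) • N + (-c / d) • X := by
    have : (1 / d) • N = (c / d) • X + Y := by
      rw [h, smul_add, smul_smul, smul_smul]
      have e1 : 1 / d * d = 1 := by field_simp
      have e2 : 1 / d * c = c / d := by ring
      rw [e1, e2, one_smul]
    rw [this, neg_div, neg_smul]; abel
  have := hL.uniq hN hX h1 (a := 1 / d) (b := -c / d) (by rw [← e]; exact hY) (by rw [← e]; exact h2)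
  rw [one_div, inv_eq_zero] at this
  exact hd this

lemma EllipticPlane.cont_left (hL : EllipticPlane L) {N : E3} (hN : N ≠ 0) {X : Type*}
    [TopologicalSpace X] (g : X → E3) (hg : Continuous g) (h0 : ∀ t, g t ≠ 0) :
    Continuous fun t => L N (g t) := by
  have := hL.cont.comp_continuous (f := fun t : X => (N, g t)) (by fun_prop)
    (fun t => ⟨hN, h0 t⟩)
  exact this

lemma EllipticPlane.half (hL : EllipticPlane L) (hS : StrictlyConvexCircles L) {N X Y : E3}
    (hN : N ≠ 0) (h1 : L N X = π / 2) (h2 : L N Y = π / 2)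
    (hXY : LinearIndependent ℝ ![X, Y]) {a b : ℝ} (ha : 0 < a) (hb : 0 < b) :
    L N (a • X + b • Y) ≤ π / 2 := by
  have hX : X ≠ 0 := by simpa using hXY.ne_zero 0
  have hY : Y ≠ 0 := by simpa using hXY.ne_zero 1
  have hnm := hL.not_mem hN hX hY h1 h2
  have hli : ∀ s t : ℝ, s • X + t • Y = 0 → s = 0 ∧ t = 0 := LinearIndependent.pair_iff.mp hXY
  have hne : ∀ s : ℝ, (a • X + b • Y) + s • N ≠ 0 := by
    intro s hs
    by_cases h0 : s = 0
    · subst h0
      rw [zero_smul, add_zero] at hs
      exact ha.ne' (hli a b hs).1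
    · apply hnm (-a / s) (-b / s)
      have : s • N = -(a • X + b • Y) := eq_neg_of_add_eq_zero_right hs
      have e : N = (1 / s) • (s • N) := by rw [smul_smul, one_div, inv_mul_cancel₀ h0, one_smul]
      rw [e, this, smul_neg, smul_add, smul_smul, smul_smul, neg_add, ← neg_smul, ← neg_smul]
      congr 2 <;> ring
  have hpos : ∀ s : ℝ, 0 < s → L N ((a • X + b • Y) + s • N) < π / 2 := by
    intro s hs
    set t := s / (a + b) with ht
    have ht0 : 0 < t := by positivity
    have e : (a • X + b • Y) + s • N = a • (X + t • N) + b • (Y + t • N) := by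
      have : s = (a + b) * t := by rw [ht]; field_simp
      rw [this]; module
    have hlit : LinearIndependent ℝ ![X + t • N, Y + t • N] := by
      rw [LinearIndependent.pair_iff]
      intro α β hαβ
      have e1 : (α • X + β • Y) + ((α + β) * t) • N = 0 := by rw [← hαβ]; module
      by_cases h0 : (α + β) * t = 0
      · rw [h0, zero_smul, add_zero] at e1
        exact hli _ _ e1
      · exfalso
        apply hnm (-α / ((α + β) * t)) (-β / ((α + β) * t))
        have : ((α + β) * t) • N = -(α • X + β • Y) := eq_neg_of_add_eq_zero_right e1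
        have e : N = (1 / ((α + β) * t)) • (((α + β) * t) • N) := by
          rw [smul_smul, one_div, inv_mul_cancel₀ h0, one_smul]
        rw [e, this, smul_neg, smul_add, smul_smul, smul_smul, neg_add, ← neg_smul, ← neg_smul]
        congr 2 <;> ring
    have aux : ∀ X : E3, X ≠ 0 → L N X = π / 2 → L N (X + t • N) < π / 2 := by
      intro X hX h1
      have hli := hL.li_of hN hX h1
      have e := hL.add N X hli t 1 ht0 one_pos
      rw [one_smul, add_comm (t • N), h1] at e
      have hli2 : LinearIndependent ℝ ![X, X + t • N] := by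
        have := li_comb (li_symm hli) (a := 1) (b := t) ht0.ne'
        rwa [one_smul] at this
      have := hL.pos' (li_symm hli2)
      linarith
    rw [e]
    exact (hS N hN (max (L N (X + t • N)) (L N (Y + t • N)))
      (max_lt (aux X hX h1) (aux Y hY h2)) _ _ hlit (le_max_left _ _) (le_max_right _ _)
      a b ha hb).trans (max_lt (aux X hX h1) (aux Y hY h2))
  have hc : Continuous fun s : ℝ => L N ((a • X + b • Y) + s • N) :=
    hL.cont_left hN _ (by fun_prop) hne
  have ht : Tendsto (fun s : ℝ => L N ((a • X + b • Y) + s • N)) (𝓝[>] 0)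
      (𝓝 (L N ((a • X + b • Y) + (0 : ℝ) • N))) :=
    tendsto_nhdsWithin_of_tendsto_nhds (hc.tendsto 0)
  have := le_of_tendsto ht (by
    filter_upwards [self_mem_nhdsWithin] with s hs
    exact (hpos s hs).le)
  simpa using this

lemma EllipticPlane.half' (hL : EllipticPlane L) (hS : StrictlyConvexCircles L) {N X Y : E3}
    (hN : N ≠ 0) (h1 : L N X = π / 2) (h2 : L N Y = π / 2)
    (hXY : LinearIndependent ℝ ![X, Y]) {a b : ℝ} (ha : 0 < a) (hb : 0 < b) :
    L N (a • X + b • Y) = π / 2 := by
  have hX : X ≠ 0 := by simpa using hXY.ne_zero 0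
  have hY : Y ≠ 0 := by simpa using hXY.ne_zero 1
  have hne : a • X + b • Y ≠ 0 := by
    intro h
    exact ha.ne' (LinearIndependent.pair_iff.mp hXY a b h).1
  have e1 := hL.half hS hN h1 h2 hXY ha hb
  have e2 := hL.half hS (neg_ne_zero.mpr hN) (by rw [hL.neg_left hN hX, h1]; ring)
    (by rw [hL.neg_left hN hY, h2]; ring) hXY ha hb
  rw [hL.neg_left hN hne] at e2
  linarith

theorem polarLin_of (hL : EllipticPlane L) (hS : StrictlyConvexCircles L) : PolarLin L := by
  intro N X Y hN hX hY h1 h2 a b hab
  by_cases hli : LinearIndependent ℝ ![X, Y]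
  · by_cases ha : a = 0
    · subst ha
      rw [zero_smul, zero_add] at hab ⊢
      exact hL.right_mul hN hY h2 (by rintro rfl; exact hab (zero_smul _ _))
    by_cases hb : b = 0
    · subst hb
      rw [zero_smul, add_zero] at hab ⊢
      exact hL.right_mul hN hX h1 (by rintro rfl; exact hab (zero_smul _ _))
    have hmX : L N (-X) = π / 2 := by rw [hL.neg N X hN hX, h1]; ring
    have hmY : L N (-Y) = π / 2 := by rw [hL.neg N Y hN hY, h2]; ring
    have hli' := LinearIndependent.pair_iff.mp hli
    rcases lt_or_gt_of_ne ha with ha' | ha' <;> rcases lt_or_gt_of_ne hb with hb' | hb'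
    · have := hL.half' hS hN hmX hmY (by
        rw [LinearIndependent.pair_iff]
        intro s t hst
        have := hli' (-s) (-t) (by rw [← hst]; module)
        exact ⟨by linarith [this.1], by linarith [this.2]⟩) (a := -a) (b := -b)
          (by linarith) (by linarith)
      simpa using this
    · have := hL.half' hS hN hmX h2 (by
        rw [LinearIndependent.pair_iff]
        intro s t hst
        have := hli' (-s) t (by rw [← hst]; module)
        exact ⟨by linarith [this.1], this.2⟩) (a := -a) (b := b)
          (by linarith) hb'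
      simpa using this
    · have := hL.half' hS hN h1 hmY (by
        rw [LinearIndependent.pair_iff]
        intro s t hst
        have := hli' s (-t) (by rw [← hst]; module)
        exact ⟨this.1, by linarith [this.2]⟩) (a := a) (b := -b)
          ha' (by linarith)
      simpa using this
    · exact hL.half' hS hN h1 h2 hli ha' hb'
  · rw [LinearIndependent.pair_iff' hX] at hli
    push Not at hli
    obtain ⟨c, hc⟩ := hli
    have e : a • X + b • Y = (a + b * c) • X := by rw [← hc]; module
    rw [e] at hab ⊢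
    exact hL.right_mul hN hX h1 (by intro h0; rw [h0, zero_smul] at hab; exact hab rfl)

/-- The polar subspace. -/
def polarSub (hL : EllipticPlane L) (hP : PolarLin L) (N : E3) (hN : N ≠ 0) : Submodule ℝ E3 where
  carrier := {X | X = 0 ∨ L N X = π / 2}
  zero_mem' := Or.inl rfl
  add_mem' := by
    rintro X Y hX hY
    by_cases hX0 : X = 0
    · subst hX0; rwa [zero_add]
    by_cases hY0 : Y = 0
    · subst hY0; rwa [add_zero]
    rcases hX with hX | hX
    · exact absurd hX hX0
    rcases hY with hY | hY
    · exact absurd hY hY0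
    by_cases h : X + Y = 0
    · exact Or.inl h
    · right
      have := hP N X Y hN hX0 hY0 hX hY 1 1 (by simpa using h)
      simpa using this
  smul_mem' := by
    rintro c X hX
    by_cases hX0 : X = 0
    · subst hX0; left; simp
    rcases hX with hX | hX
    · exact absurd hX hX0
    by_cases hc : c = 0
    · subst hc; left; simp
    right
    exact hL.right_mul hN hX0 hX hc

lemma polarSub_not_mem (hL : EllipticPlane L) (hP : PolarLin L) (N : E3) (hN : N ≠ 0) :
    N ∉ polarSub hL hP N hN := by
  rintro (h | h)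
  · exact hN h
  · rw [hL.self N hN] at h
    have := Real.pi_pos
    linarith

lemma polarSub_mem (hL : EllipticPlane L) (hP : PolarLin L) (N : E3) (hN : N ≠ 0) {X : E3}
    (h : L N X = π / 2) : X ∈ polarSub hL hP N hN := Or.inr h

lemma exists_foot (hL : EllipticPlane L) {N V : E3} (hli : LinearIndependent ℝ ![N, V]) :
    ∃ t : ℝ, L N (V + t • N) = π / 2 := by
  have hN : N ≠ 0 := by simpa using hli.ne_zero 0
  have hV : V ≠ 0 := by simpa using hli.ne_zero 1
  have hne : ∀ a b : ℝ, (a ≠ 0 ∨ b ≠ 0) → a • V + b • N ≠ 0 := by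
    intro a b hab h
    have := LinearIndependent.pair_iff.mp (li_symm hli) a b h
    rcases hab with h1 | h1
    · exact h1 this.1
    · exact h1 this.2
  have hc : Continuous fun t : ℝ => L N (V + t • N) := by
    refine hL.cont_left hN _ (by fun_prop) fun t => ?_
    have := hne 1 t (Or.inl one_ne_zero)
    rwa [one_smul] at this
  have hpi := Real.pi_pos
  -- near `N`
  have c1 : ContinuousAt (fun e : ℝ => L N (e • V + N)) 0 := by
    have h0 : (N, (0 : ℝ) • V + N) ∈ {p : E3 × E3 | p.1 ≠ 0 ∧ p.2 ≠ 0} := by
      simpa using hN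
    have hopen : IsOpen {p : E3 × E3 | p.1 ≠ 0 ∧ p.2 ≠ 0} :=
      (isOpen_ne_fun continuous_fst continuous_const).inter
        (isOpen_ne_fun continuous_snd continuous_const)
    have := hL.cont.continuousAt (hopen.mem_nhds h0)
    exact ContinuousAt.comp (f := fun e : ℝ => (N, e • V + N)) (x := 0) this (by fun_prop)
  have c2 : ContinuousAt (fun e : ℝ => L N (e • V + -N)) 0 := by
    have h0 : (N, (0 : ℝ) • V + -N) ∈ {p : E3 × E3 | p.1 ≠ 0 ∧ p.2 ≠ 0} := by
      simpa using hN
    have hopen : IsOpen {p : E3 × E3 | p.1 ≠ 0 ∧ p.2 ≠ 0} :=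
      (isOpen_ne_fun continuous_fst continuous_const).inter
        (isOpen_ne_fun continuous_snd continuous_const)
    have := hL.cont.continuousAt (hopen.mem_nhds h0)
    exact ContinuousAt.comp (f := fun e : ℝ => (N, e • V + -N)) (x := 0) this (by fun_prop)
  have t1 : ∃ e : ℝ, 0 < e ∧ L N (e • V + N) < π / 2 := by
    have h1 : Tendsto (fun e : ℝ => L N (e • V + N)) (𝓝[>] 0) (𝓝 (L N ((0 : ℝ) • V + N))) :=
      tendsto_nhdsWithin_of_tendsto_nhds c1
    rw [zero_smul, zero_add, hL.self N hN] at h1
    have h2 := (h1.eventually (gt_mem_nhds (show (0 : ℝ) < π / 2 by linarith))).and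
      self_mem_nhdsWithin
    obtain ⟨e, he1, he2⟩ := h2.exists
    exact ⟨e, he2, he1⟩
  have t2 : ∃ e : ℝ, 0 < e ∧ π / 2 < L N (e • V + -N) := by
    have h1 : Tendsto (fun e : ℝ => L N (e • V + -N)) (𝓝[>] 0) (𝓝 (L N ((0 : ℝ) • V + -N))) :=
      tendsto_nhdsWithin_of_tendsto_nhds c2
    rw [zero_smul, zero_add, hL.neg N N hN hN, hL.self N hN] at h1
    have h2 := (h1.eventually (lt_mem_nhds (show π / 2 < π - 0 by linarith))).and
      self_mem_nhdsWithin
    obtain ⟨e, he1, he2⟩ := h2.exists
    exact ⟨e, he2, he1⟩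
  obtain ⟨e1, he1, h1⟩ := t1
  obtain ⟨e2, he2, h2⟩ := t2
  have g1 : L N (V + (1 / e1) • N) < π / 2 := by
    have : e1 • V + N = e1 • (V + (1 / e1) • N) := by
      rw [smul_add, smul_smul]
      have : e1 * (1 / e1) = 1 := by field_simp
      rw [this, one_smul]
    rw [this, hL.smul_right hN (by
      have := hne 1 (1 / e1) (Or.inl one_ne_zero); rwa [one_smul] at this) he1] at h1
    exact h1
  have g2 : π / 2 < L N (V + (-(1 / e2)) • N) := by
    have : e2 • V + -N = e2 • (V + (-(1 / e2)) • N) := by
      rw [smul_add, smul_smul]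
      have : e2 * (-(1 / e2)) = -1 := by field_simp
      rw [this, neg_one_smul]
    rw [this, hL.smul_right hN (by
      have := hne 1 (-(1 / e2)) (Or.inl one_ne_zero); rwa [one_smul] at this) he2] at h2
    exact h2
  obtain ⟨t, ht⟩ := mem_range_of_exists_le_of_exists_ge hc ⟨_, g1.le⟩ ⟨_, g2.le⟩
  exact ⟨t, ht⟩

lemma two_le_finrank (hL : EllipticPlane L) (hP : PolarLin L) (N : E3) (hN : N ≠ 0) :
    2 ≤ Module.finrank ℝ (polarSub hL hP N hN) := by
  have htop : Submodule.span ℝ {N} ⊔ polarSub hL hP N hN = ⊤ := by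
    rw [eq_top_iff]
    intro V _
    by_cases hli : LinearIndependent ℝ ![N, V]
    · obtain ⟨t, ht⟩ := exists_foot hL hli
      rw [Submodule.mem_sup]
      exact ⟨(-t) • N, Submodule.smul_mem _ _ (Submodule.mem_span_singleton_self N),
        V + t • N, polarSub_mem hL hP N hN ht, by module⟩
    · rw [LinearIndependent.pair_iff' hN] at hli
      push Not at hli
      obtain ⟨c, hc⟩ := hli
      rw [← hc]
      exact Submodule.mem_sup_left (Submodule.smul_mem _ _ (Submodule.mem_span_singleton_self N))
  have h1 := Submodule.finrank_add_le_finrank_add_finrank (Submodule.span ℝ {N})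
    (polarSub hL hP N hN)
  rw [htop, finrank_top, finrank_span_singleton hN] at h1
  have h3 : Module.finrank ℝ E3 = 3 := by simp
  omega

theorem polar_of (L : E3 → E3 → ℝ) (hL : EllipticPlane L) (hT : TriL L)
    (hS : StrictlyConvexCircles L) : PolarLin L ∧ PolarDim L ∧ PolarEx L := by
  have hP := polarLin_of hL hS
  refine ⟨hP, ?_, ?_⟩
  · intro N A B C hN hA hB hC h1 h2 h3 hAB
    by_contra hC'
    have hli : LinearIndependent ℝ ![C, A, B] := by
      have h := (linearIndependent_finCons (K := ℝ) (x := C) (v := ![A, B])).mpr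
        ⟨hAB, by rw [Set.pair_comm] at hC'; simpa [Matrix.range_cons] using hC'⟩
      exact h
    have hspan := hli.span_eq_top_of_card_eq_finrank (by simp)
    have hle : Submodule.span ℝ (Set.range ![C, A, B]) ≤ polarSub hL hP N hN := by
      rw [Submodule.span_le]
      rintro _ ⟨i, rfl⟩
      fin_cases i
      · exact polarSub_mem hL hP N hN h3
      · exact polarSub_mem hL hP N hN h1
      · exact polarSub_mem hL hP N hN h2
    rw [hspan] at hle
    exact polarSub_not_mem hL hP N hN (hle Submodule.mem_top)
  · intro X Y hX hY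
    have hx := two_le_finrank hL hP X hX
    have hy := two_le_finrank hL hP Y hY
    have h1 := Submodule.finrank_sup_add_finrank_inf_eq (polarSub hL hP X hX) (polarSub hL hP Y hY)
    have h2 : Module.finrank ℝ ↥(polarSub hL hP X hX ⊔ polarSub hL hP Y hY) ≤ 3 := by
      have := Submodule.finrank_le (polarSub hL hP X hX ⊔ polarSub hL hP Y hY)
      simpa using this
    have h3 : polarSub hL hP X hX ⊓ polarSub hL hP Y hY ≠ ⊥ := by
      intro h
      rw [h, finrank_bot] at h1
      omega
    obtain ⟨Z, hZ, hZ0⟩ := Submodule.exists_mem_ne_zero_of_ne_bot h3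
    refine ⟨Z, hZ0, ?_, ?_⟩
    · rcases hZ.1 with h | h
      · exact absurd h hZ0
      · exact h
    · rcases hZ.2 with h | h
      · exact absurd h hZ0
      · exact h

end J2

end Pool.Agent.Helper87.Elliptic
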