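import Pool.Agent.Helper87.ThalesStraight

set_option autoImplicit false

namespace Pool.Agent.Helper87.Thales

open Set

variable {M : Set (ℝ × ℝ)} {d : ℝ × ℝ → ℝ × ℝ → ℝ}

/-- Functions which along every line are combinations of `exp u` and `exp (-u)`. -/
def ExpLin (M : Set (ℝ × ℝ)) (d : ℝ × ℝ → ℝ × ℝ → ℝ) (F : ℝ × ℝ → ℝ) : Prop :=
  ∀ γ, IsLine M d γ → ∃ α β : ℝ, ∀ u, F (γ u) = α * Real.exp u + β * Real.exp (-u)

lemma ExpLin.add {F G : ℝ × ℝ → ℝ} (hF : ExpLin M d F) (hG : ExpLin M d G) :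
    ExpLin M d (fun X => F X + G X) := by
  intro γ hγ
  obtain ⟨a, b, h⟩ := hF γ hγ
  obtain ⟨a', b', h'⟩ := hG γ hγ
  exact ⟨a + a', b + b', fun u => by simp only [h, h']; ring⟩

lemma ExpLin.smul {F : ℝ × ℝ → ℝ} (hF : ExpLin M d F) (c : ℝ) :
    ExpLin M d (fun X => c * F X) := by
  intro γ hγ
  obtain ⟨a, b, h⟩ := hF γ hγ
  exact ⟨c * a, c * b, fun u => by simp only [h]; ring⟩

lemma exp_comb_zero {α β s t : ℝ} (hst : s ≠ t) (h1 : α * Real.exp s + β * Real.exp (-s) = 0)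
    (h2 : α * Real.exp t + β * Real.exp (-t) = 0) : α = 0 ∧ β = 0 := by
  have e1 : Real.exp s * Real.exp (-s) = 1 := by rw [← Real.exp_add]; simp
  have e2 : Real.exp t * Real.exp (-t) = 1 := by rw [← Real.exp_add]; simp
  have p1 := Real.exp_pos s
  have p2 := Real.exp_pos t
  have q1 := Real.exp_pos (-s)
  have q2 := Real.exp_pos (-t)
  have h3 : α * Real.exp s ^ 2 + β = 0 := by
    have := congrArg (· * Real.exp s) h1
    linear_combination this - β * e1
  have h4 : α * Real.exp t ^ 2 + β = 0 := by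
    have := congrArg (· * Real.exp t) h2
    linear_combination this - β * e2
  have h5 : α * ((Real.exp s - Real.exp t) * (Real.exp s + Real.exp t)) = 0 := by
    linear_combination h3 - h4
  have h6 : Real.exp s - Real.exp t ≠ 0 := by
    intro h
    exact hst (Real.exp_injective (sub_eq_zero.1 h))
  have h7 : Real.exp s + Real.exp t ≠ 0 := by positivity
  have hα : α = 0 := by
    rcases mul_eq_zero.1 h5 with h | h
    · exact h
    · exact absurd h (mul_ne_zero h6 h7)
  refine ⟨hα, ?_⟩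
  rw [hα] at h3
  linarith

lemma ExpLin.twoPoint (hd : StraightPlane M d) {F : ℝ × ℝ → ℝ} (hF : ExpLin M d F) :
    TwoPoint M F := by
  intro X hX Y hY hXY h1 h2 Z hZ hZl
  obtain ⟨γ, hγ, g0, g1, hr⟩ := line_param hd hX hY hXY
  obtain ⟨α, β, h⟩ := hF γ hγ
  have hZr : Z ∈ range γ := by rw [hr]; exact ⟨hZ, hZl⟩
  obtain ⟨u, rfl⟩ := hZr
  have hne : (0 : ℝ) ≠ d X Y := (hd.pos X hX Y hY hXY).ne
  have h3 := h 0
  rw [g0, h1] at h3
  have h4 := h (d X Y)
  rw [g1, h2] at h4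
  obtain ⟨ha, hb⟩ := exp_comb_zero hne h3.symm h4.symm
  rw [h u, ha, hb]; ring

/-- A nonempty open set of the plane contains three non-collinear points. -/
lemma exists_triple (hd : StraightPlane M d) : ∃ O ∈ M, ∃ E ∈ M, ∃ G ∈ M, det3 O E G ≠ 0 := by
  obtain ⟨O, hO⟩ := hd.nonempty
  obtain ⟨ε, hε, hball⟩ := Metric.isOpen_iff.1 hd.isOpen O hO
  refine ⟨O, hO, O + (ε / 2, 0), hball ?_, O + (0, ε / 2), hball ?_, ?_⟩
  · rw [Metric.mem_ball, dist_eq_norm, add_sub_cancel_left, Prod.norm_def]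
    simp only [norm_zero, Real.norm_eq_abs, abs_of_pos (half_pos hε)]
    rw [max_eq_left (by positivity)]
    linarith
  · rw [Metric.mem_ball, dist_eq_norm, add_sub_cancel_left, Prod.norm_def]
    simp only [norm_zero, Real.norm_eq_abs, abs_of_pos (half_pos hε)]
    rw [max_eq_right (by positivity)]
    linarith
  · simp only [det3, Prod.fst_add, Prod.snd_add]
    have : ε ≠ 0 := hε.ne'
    ring_nf
    positivity

/-- The strict triangle inequality. -/
lemma strict_triangle (hd : StraightPlane M d) {X Y Z : ℝ × ℝ} (hX : X ∈ M) (hY : Y ∈ M)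
    (hZ : Z ∈ M) (hdet : det3 X Y Z ≠ 0) : d X Z < d X Y + d Y Z := by
  refine lt_of_le_of_ne (hd.triangle X hX Y hY Z hZ) ?_
  intro h
  have h1 := hd.strict X hX Y hY Z hZ h.symm
  apply hdet
  have h2 : Y ∈ line[ℝ, X, Z] := by
    exact (mem_segment_iff_wbtw.1 h1).mem_affineSpan
  have h3 := det3_eq_zero_of_mem h2
  have : det3 X Y Z = -det3 X Z Y := by simp only [det3]; ring
  rw [this, h3, neg_zero]

/-- The Lorentz coordinates built from three points. -/
noncomputable def lx (d : ℝ × ℝ → ℝ × ℝ → ℝ) (O E G : ℝ × ℝ) : Fin 3 → ℝ × ℝ → ℝ :=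
  ![fun X => Real.cosh (d O X),
    fun X => (Real.cosh (d O E) * Real.cosh (d O X) - Real.cosh (d E X)) / Real.sinh (d O E),
    fun X =>
      (Real.cosh (d O X) * Real.cosh (d O G) -
        ((Real.cosh (d O E) * Real.cosh (d O X) - Real.cosh (d E X)) / Real.sinh (d O E)) *
          ((Real.cosh (d O E) * Real.cosh (d O G) - Real.cosh (d E G)) / Real.sinh (d O E)) -
        Real.cosh (d G X)) /
      Real.sqrt (Real.sinh (d O G) ^ 2 -
        ((Real.cosh (d O E) * Real.cosh (d O G) - Real.cosh (d E G)) / Real.sinh (d O E)) ^ 2)]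

lemma gram_pos {a b c : ℝ} (ha : 0 < a) (hb : 0 < b) (h1 : c < a + b) (h2 : a < b + c)
    (h3 : b < a + c) :
    0 < Real.sinh b ^ 2 -
      ((Real.cosh a * Real.cosh b - Real.cosh c) / Real.sinh a) ^ 2 := by
  have hsa : 0 < Real.sinh a := Real.sinh_pos_iff.2 ha
  have hsb : 0 < Real.sinh b := Real.sinh_pos_iff.2 hb
  have hc : 0 < c := by
    by_contra h
    push Not at h
    linarith
  have h4 : Real.cosh c < Real.cosh (a + b) := by
    rw [Real.cosh_lt_cosh, abs_of_pos hc, abs_of_pos (by linarith)]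
    exact h1
  have h5 : Real.cosh (a - b) < Real.cosh c := by
    rw [Real.cosh_lt_cosh, abs_of_pos hc, abs_lt]
    constructor <;> linarith
  rw [Real.cosh_add] at h4
  rw [Real.cosh_sub] at h5
  have h6 : (Real.cosh a * Real.cosh b - Real.cosh c) ^ 2 < (Real.sinh a * Real.sinh b) ^ 2 := by
    rw [sq_lt_sq, abs_of_pos (mul_pos hsa hsb), abs_lt]
    constructor <;> linarith
  rw [div_pow, sub_pos, div_lt_iff₀ (by positivity)]
  linarith

variable (hd : StraightPlane M d)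
  (hform : ∀ P ∈ M, ExpLin M d (fun X => Real.cosh (d P X)))

include hform in
lemma lx_expLin {O E G : ℝ × ℝ} (hO : O ∈ M) (hE : E ∈ M) (hG : G ∈ M) (i : Fin 3) :
    ExpLin M d (lx d O E G i) := by
  have h0 : ExpLin M d (lx d O E G 0) := hform O hO
  have h1 : ExpLin M d (lx d O E G 1) := by
    have := ((hform O hO).smul (Real.cosh (d O E) / Real.sinh (d O E))).add
      ((hform E hE).smul (-1 / Real.sinh (d O E)))
    convert this using 1
    funext X
    simp only [lx, Matrix.cons_val_one, Matrix.cons_val_zero]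
    ring
  have h2 : ExpLin M d (lx d O E G 2) := by
    have := ((((hform O hO).smul (Real.cosh (d O G))).add
      (h1.smul (-((Real.cosh (d O E) * Real.cosh (d O G) - Real.cosh (d E G)) /
        Real.sinh (d O E))))).add
      ((hform G hG).smul (-1))).smul (1 / Real.sqrt (Real.sinh (d O G) ^ 2 -
        ((Real.cosh (d O E) * Real.cosh (d O G) - Real.cosh (d E G)) / Real.sinh (d O E)) ^ 2))
    convert this using 1
    funext X
    simp only [lx, Matrix.cons_val_one, Matrix.cons_val_zero, Matrix.cons_val]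
    ring
  fin_cases i
  · exact h0
  · exact h1
  · exact h2

include hd hform in
/-- The Lorentz form of the coordinates gives the distance. -/
lemma lorentz {O E G : ℝ × ℝ} (hO : O ∈ M) (hE : E ∈ M) (hG : G ∈ M) (hdet : det3 O E G ≠ 0) :
    (∀ X ∈ M, ∀ Y ∈ M, Real.cosh (d X Y) =
      lx d O E G 0 X * lx d O E G 0 Y - lx d O E G 1 X * lx d O E G 1 Y -
        lx d O E G 2 X * lx d O E G 2 Y) ∧
    (lx d O E G 0 O = 1 ∧ lx d O E G 1 O = 0 ∧ lx d O E G 2 O = 0) ∧
    (0 < lx d O E G 1 E ∧ lx d O E G 2 E = 0) ∧ 0 < lx d O E G 2 G := by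
  have hOE : O ≠ E := by rintro rfl; apply hdet; simp [det3]
  have hOG : O ≠ G := by rintro rfl; apply hdet; simp [det3]
  have ha := hd.pos O hO E hE hOE
  have hb := hd.pos O hO G hG hOG
  have hsa : 0 < Real.sinh (d O E) := Real.sinh_pos_iff.2 ha
  have t1 : d E G < d O E + d O G := by
    have := strict_triangle hd hE hO hG (by
      intro h; apply hdet
      have : det3 O E G = -det3 E O G := by simp only [det3]; ring
      rw [this, h, neg_zero])
    rwa [hd.symm E hE O hO] at this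
  have t2 : d O E < d O G + d E G := by
    have := strict_triangle hd hO hG hE (by
      intro h; apply hdet
      have : det3 O E G = -det3 O G E := by simp only [det3]; ring
      rw [this, h, neg_zero])
    rwa [hd.symm G hG E hE] at this
  have t3 : d O G < d O E + d E G := strict_triangle hd hO hE hG hdet
  have hgram := gram_pos ha hb t1 t2 t3
  obtain ⟨S, hS⟩ : ∃ S, S = Real.sqrt (Real.sinh (d O G) ^ 2 -
        ((Real.cosh (d O E) * Real.cosh (d O G) - Real.cosh (d E G)) / Real.sinh (d O E)) ^ 2) :=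
    ⟨_, rfl⟩
  have hSpos : 0 < S := by rw [hS]; exact Real.sqrt_pos.2 hgram
  have hSsq : S ^ 2 = Real.sinh (d O G) ^ 2 -
        ((Real.cosh (d O E) * Real.cosh (d O G) - Real.cosh (d E G)) / Real.sinh (d O E)) ^ 2 := by
    rw [hS]; exact Real.sq_sqrt hgram.le
  have e0 : ∀ X, lx d O E G 0 X = Real.cosh (d O X) := fun X => rfl
  have e1 : ∀ X, lx d O E G 1 X =
      (Real.cosh (d O E) * Real.cosh (d O X) - Real.cosh (d E X)) / Real.sinh (d O E) :=
    fun X => rfl
  have e2 : ∀ X, lx d O E G 2 X =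
      (Real.cosh (d O X) * Real.cosh (d O G) -
        ((Real.cosh (d O E) * Real.cosh (d O X) - Real.cosh (d E X)) / Real.sinh (d O E)) *
          ((Real.cosh (d O E) * Real.cosh (d O G) - Real.cosh (d E G)) / Real.sinh (d O E)) -
        Real.cosh (d G X)) / S := fun X => by rw [hS]; rfl
  have cO : Real.cosh (d O O) = 1 := by rw [hd.self O hO]; exact Real.cosh_zero
  have cE : Real.cosh (d E E) = 1 := by rw [hd.self E hE]; exact Real.cosh_zero
  have cG : Real.cosh (d G G) = 1 := by rw [hd.self G hG]; exact Real.cosh_zero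
  have sEO : d E O = d O E := hd.symm E hE O hO
  have sGO : d G O = d O G := hd.symm G hG O hO
  have sGE : d G E = d E G := hd.symm G hG E hE
  have ch1 : Real.cosh (d O E) ^ 2 = Real.sinh (d O E) ^ 2 + 1 := Real.cosh_sq _
  have ch2 : Real.cosh (d O G) ^ 2 = Real.sinh (d O G) ^ 2 + 1 := Real.cosh_sq _
  obtain ⟨k, hk⟩ : ∃ k, k = (Real.cosh (d O E) * Real.cosh (d O G) - Real.cosh (d E G)) /
      Real.sinh (d O E) := ⟨_, rfl⟩
  rw [← hk] at hSsq
  have d1 : ∀ Y, lx d O E G 1 Y * Real.sinh (d O E) =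
      Real.cosh (d O E) * lx d O E G 0 Y - Real.cosh (d E Y) := by
    intro Y
    rw [e1, e0]
    field_simp
  have d2 : ∀ Y, lx d O E G 2 Y * S =
      lx d O E G 0 Y * Real.cosh (d O G) - lx d O E G 1 Y * k - Real.cosh (d G Y) := by
    intro Y
    rw [e2, e1, e0, hk]
    field_simp
  have v0O : lx d O E G 0 O = 1 := by rw [e0, cO]
  have v1O : lx d O E G 1 O = 0 := by
    have := d1 O
    rw [v0O, sEO] at this
    have h : lx d O E G 1 O * Real.sinh (d O E) = 0 := by linarith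
    exact (mul_eq_zero.1 h).resolve_right hsa.ne'
  have v2O : lx d O E G 2 O = 0 := by
    have := d2 O
    rw [v0O, v1O, sGO] at this
    have h : lx d O E G 2 O * S = 0 := by linarith
    exact (mul_eq_zero.1 h).resolve_right hSpos.ne'
  have v0E : lx d O E G 0 E = Real.cosh (d O E) := e0 E
  have v1E : lx d O E G 1 E = Real.sinh (d O E) := by
    have := d1 E
    rw [v0E, cE] at this
    have h : (lx d O E G 1 E - Real.sinh (d O E)) * Real.sinh (d O E) = 0 := by
      linear_combination this + ch1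
    have := (mul_eq_zero.1 h).resolve_right hsa.ne'
    linarith
  have v2E : lx d O E G 2 E = 0 := by
    have := d2 E
    rw [v0E, v1E, sGE] at this
    have hk2 : Real.sinh (d O E) * k =
        Real.cosh (d O E) * Real.cosh (d O G) - Real.cosh (d E G) := by
      rw [hk]; field_simp
    have h : lx d O E G 2 E * S = 0 := by linarith
    exact (mul_eq_zero.1 h).resolve_right hSpos.ne'
  have v0G : lx d O E G 0 G = Real.cosh (d O G) := e0 G
  have v1G : lx d O E G 1 G = k := by rw [e1, hk]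
  have v2G : lx d O E G 2 G = S := by
    have := d2 G
    rw [v0G, v1G, cG] at this
    have h : (lx d O E G 2 G - S) * S = 0 := by
      linear_combination this + ch2 - hSsq
    have := (mul_eq_zero.1 h).resolve_right hSpos.ne'
    linarith
  refine ⟨?_, ⟨v0O, v1O, v2O⟩, ⟨by rw [v1E]; exact hsa, v2E⟩, by rw [v2G]; exact hSpos⟩
  intro X hX Y hY
  have hF : ExpLin M d (fun Z => lx d O E G 0 Y * lx d O E G 0 Z +
      (-lx d O E G 1 Y) * lx d O E G 1 Z + (-lx d O E G 2 Y) * lx d O E G 2 Z +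
      (-1) * Real.cosh (d Y Z)) :=
    ((((lx_expLin hform hO hE hG 0).smul _).add ((lx_expLin hform hO hE hG 1).smul _)).add
      ((lx_expLin hform hO hE hG 2).smul _)).add ((hform Y hY).smul _)
  have hker := kernel hd.convex (hF.twoPoint hd) hO hE hG hdet ?_ ?_ ?_ X hX
  · rw [hd.symm Y hY X hX] at hker
    linarith
  · rw [v0O, v1O, v2O, hd.symm Y hY O hO, e0]
    ring
  · rw [v0E, v1E, v2E, hd.symm Y hY E hE]
    linear_combination -d1 Y
  · rw [v0G, v1G, v2G, hd.symm Y hY G hG]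
    linear_combination -d2 Y

/-- The Lorentz form. -/
def Lf (v w : Fin 3 → ℝ) : ℝ := v 0 * w 0 - v 1 * w 1 - v 2 * w 2

lemma lx_cont (hd : StraightPlane M d) {O E G : ℝ × ℝ} (hO : O ∈ M) (hE : E ∈ M) (hG : G ∈ M)
    (i : Fin 3) : ContinuousOn (lx d O E G i) M := by
  have hc : ∀ P ∈ M, ContinuousOn (fun X => Real.cosh (d P X)) M := by
    intro P hP
    apply Real.continuous_cosh.comp_continuousOn
    have h1 : ContinuousOn (fun X : ℝ × ℝ => (P, X)) M := by fun_prop
    exact hd.cont.comp h1 (fun X hX => ⟨hP, hX⟩)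
  have h0 := hc O hO
  have h1 := hc E hE
  have h2 := hc G hG
  fin_cases i
  · exact h0
  · change ContinuousOn (fun X =>
      (Real.cosh (d O E) * Real.cosh (d O X) - Real.cosh (d E X)) / Real.sinh (d O E)) M
    exact ((continuousOn_const.mul h0).sub h1).div_const _
  · change ContinuousOn (fun X =>
      (Real.cosh (d O X) * Real.cosh (d O G) -
        ((Real.cosh (d O E) * Real.cosh (d O X) - Real.cosh (d E X)) / Real.sinh (d O E)) *
          ((Real.cosh (d O E) * Real.cosh (d O G) - Real.cosh (d E G)) / Real.sinh (d O E)) -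
        Real.cosh (d G X)) /
      Real.sqrt (Real.sinh (d O G) ^ 2 -
        ((Real.cosh (d O E) * Real.cosh (d O G) - Real.cosh (d E G)) / Real.sinh (d O E)) ^ 2)) M
    exact (((h0.mul continuousOn_const).sub
      ((((continuousOn_const.mul h0).sub h1).div_const _).mul continuousOn_const)).sub h2).div_const _

/-- The package of Lorentz coordinates. -/
structure LorentzChart (M : Set (ℝ × ℝ)) (d : ℝ × ℝ → ℝ × ℝ → ℝ) (x : ℝ × ℝ → Fin 3 → ℝ) :
    Prop where
  explin : ∀ i, ExpLin M d (fun X => x X i)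
  cosh : ∀ X ∈ M, ∀ Y ∈ M, Real.cosh (d X Y) = Lf (x X) (x Y)
  pos : ∀ X ∈ M, 0 < x X 0
  cont : ∀ i, ContinuousOn (fun X => x X i) M
  base : ∃ O ∈ M, ∃ E ∈ M, ∃ G ∈ M, O ≠ E ∧ O ≠ G ∧ x O = ![1, 0, 0] ∧ 0 < x E 1 ∧ x E 2 = 0 ∧
    0 < x G 2

include hd hform in
lemma exists_chart : ∃ x, LorentzChart M d x := by
  obtain ⟨O, hO, E, hE, G, hG, hdet⟩ := exists_triple hd
  obtain ⟨h1, ⟨h2, h3, h4⟩, ⟨h5, h6⟩, h7⟩ := lorentz hd hform hO hE hG hdet
  have hOE : O ≠ E := by rintro rfl; apply hdet; simp [det3]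
  have hOG : O ≠ G := by rintro rfl; apply hdet; simp [det3]
  refine ⟨fun X i => lx d O E G i X, ⟨fun i => lx_expLin hform hO hE hG i, h1, fun X _ => ?_,
    fun i => lx_cont hd hO hE hG i, O, hO, E, hE, G, hG, hOE, hOG, ?_, h5, h6, h7⟩⟩
  · exact Real.cosh_pos _
  · funext i
    fin_cases i
    · exact h2
    · exact h3
    · exact h4

lemma null_coeffs {a b c : ℝ} (h : ∀ u : ℝ, a * Real.exp (2 * u) + b * Real.exp (-(2 * u)) + 2 * c = 1) :
    a = 0 ∧ b = 0 ∧ c = 1 / 2 := by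
  have h0 := h 0
  have h1 := h (1 / 2)
  have h2 := h (-(1 / 2))
  simp only [mul_zero, neg_zero, Real.exp_zero, mul_one] at h0
  rw [show (2 : ℝ) * (1 / 2) = 1 by norm_num] at h1
  rw [show (2 : ℝ) * (-(1 / 2)) = -1 by norm_num, neg_neg] at h2
  have e : Real.exp 1 * Real.exp (-1) = 1 := by rw [← Real.exp_add]; simp
  have p1 : 1 < Real.exp 1 := by
    have := Real.add_one_lt_exp (one_ne_zero)
    linarith
  have p2 : 0 < Real.exp (-1) := Real.exp_pos _
  have p3 : Real.exp (-1) < 1 := by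
    have := Real.exp_lt_exp.2 (show (-1 : ℝ) < 0 by norm_num)
    rwa [Real.exp_zero] at this
  have hab : a = b := by
    have : (a - b) * (Real.exp 1 - Real.exp (-1)) = 0 := by linear_combination h1 - h2
    rcases mul_eq_zero.1 this with h | h
    · linarith
    · linarith
  have ha : a = 0 := by
    rw [← hab] at h1 h0
    have : a * ((Real.exp 1 - 1) * (1 - Real.exp (-1))) = 0 := by
      linear_combination h1 - h0 - a * e
    rcases mul_eq_zero.1 this with h | h
    · exact h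
    · exfalso
      have : 0 < (Real.exp 1 - 1) * (1 - Real.exp (-1)) :=
        mul_pos (by linarith) (by linarith)
      linarith
  refine ⟨ha, by rw [← hab, ha], ?_⟩
  rw [← hab, ha] at h0
  linarith

lemma coeff_pos {a b : ℝ} (h : ∀ u : ℝ, 0 < a * Real.exp u + b * Real.exp (-u)) : 0 ≤ a := by
  by_contra hneg
  push Not at hneg
  obtain ⟨t, ht⟩ : ∃ t : ℝ, t = |b| / (-a) + 1 := ⟨_, rfl⟩
  have ht1 : 1 ≤ t := by
    rw [ht]
    have : 0 ≤ |b| / (-a) := div_nonneg (abs_nonneg _) (by linarith)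
    linarith
  have hab : a * t + |b| < 0 := by
    rw [ht]
    have hane : a ≠ 0 := hneg.ne
    have : a * (|b| / (-a)) = -|b| := by field_simp
    linarith
  have h1 := h (Real.log t)
  rw [Real.exp_neg, Real.exp_log (by linarith)] at h1
  have h2 : b * t⁻¹ ≤ |b| := by
    calc b * t⁻¹ ≤ |b| * t⁻¹ := by gcongr; exact le_abs_self b
      _ ≤ |b| * 1 := by gcongr; exact inv_le_one_of_one_le₀ ht1
      _ = |b| := mul_one _
  linarith

/-- Every future unit vector in the span of two points comes from a point of the line. -/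
lemma chart_span (hd : StraightPlane M d) {x : ℝ × ℝ → Fin 3 → ℝ} (hx : LorentzChart M d x)
    {X Y : ℝ × ℝ} (hX : X ∈ M) (hY : Y ∈ M) (hXY : X ≠ Y) {ξ : Fin 3 → ℝ} {s t : ℝ}
    (hξ : ∀ i, ξ i = s * x X i + t * x Y i) (h1 : Lf ξ ξ = 1) (h0 : 0 < ξ 0) :
    ∃ Z ∈ M, ∀ i, x Z i = ξ i := by
  obtain ⟨γ, hγ, g0, g1, hr⟩ := line_param hd hX hY hXY
  have hex : ∀ i, ∃ α β : ℝ, ∀ u, x (γ u) i = α * Real.exp u + β * Real.exp (-u) :=
    fun i => hx.explin i γ hγ
  choose α β hαβ using hex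
  have hL : ∀ u : ℝ, Lf α α * Real.exp (2 * u) + Lf β β * Real.exp (-(2 * u)) + 2 * Lf α β = 1 := by
    intro u
    have h2 := hx.cosh _ (hγ.mem u) _ (hγ.mem u)
    rw [hγ.1, sub_self, abs_zero, Real.cosh_zero] at h2
    have e1 : Real.exp (2 * u) = Real.exp u * Real.exp u := by rw [← Real.exp_add]; ring_nf
    have e2 : Real.exp (-(2 * u)) = Real.exp (-u) * Real.exp (-u) := by
      rw [← Real.exp_add]; ring_nf
    have e3 : Real.exp u * Real.exp (-u) = 1 := by rw [← Real.exp_add]; simp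
    simp only [Lf, hαβ] at h2
    rw [e1, e2]
    simp only [Lf]
    linear_combination -h2 + (-2 * (α 0 * β 0 - α 1 * β 1 - α 2 * β 2)) * e3
  obtain ⟨n1, n2, n3⟩ := null_coeffs hL
  have ha0 : 0 ≤ α 0 := coeff_pos (b := β 0) (fun u => by rw [← hαβ 0 u]; exact hx.pos _ (hγ.mem u))
  have hb0 : 0 ≤ β 0 := coeff_pos (b := α 0) (fun u => by
    have := hx.pos _ (hγ.mem (-u))
    rw [hαβ 0 (-u), neg_neg] at this
    linarith)
  obtain ⟨D, hD⟩ : ∃ D, D = d X Y := ⟨_, rfl⟩
  rw [← hD] at g1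
  obtain ⟨p, hp⟩ : ∃ p, p = s + t * Real.exp D := ⟨_, rfl⟩
  obtain ⟨q, hq⟩ : ∃ q, q = s + t * Real.exp (-D) := ⟨_, rfl⟩
  have hξ' : ∀ i, ξ i = p * α i + q * β i := by
    intro i
    have e1 := hαβ i 0
    have e2 := hαβ i D
    rw [g0, neg_zero, Real.exp_zero] at e1
    rw [g1] at e2
    rw [hξ, e1, e2, hp, hq]
    ring
  have hpq : p * q = 1 := by
    simp only [Lf] at h1 n1 n2 n3
    rw [hξ' 0, hξ' 1, hξ' 2] at h1
    linear_combination h1 - p ^ 2 * n1 - q ^ 2 * n2 - 2 * p * q * n3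
  have hp0 : 0 < p := by
    by_contra hneg
    push Not at hneg
    have hpne : p ≠ 0 := by rintro h; rw [h, zero_mul] at hpq; exact zero_ne_one hpq
    have hplt : p < 0 := lt_of_le_of_ne hneg hpne
    have hqlt : q < 0 := by
      by_contra hq0
      push Not at hq0
      nlinarith
    have := hξ' 0
    nlinarith
  refine ⟨γ (Real.log p), hγ.mem _, fun i => ?_⟩
  rw [hαβ, hξ', Real.exp_neg, Real.exp_log hp0]
  have : p⁻¹ = q := by
    field_simp
    linarith
  rw [this]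
  ring

lemma Lf_smul_smul (a b : ℝ) (v w : Fin 3 → ℝ) :
    Lf (fun i => a * v i) (fun i => b * w i) = a * b * Lf v w := by
  simp only [Lf]; ring

/-- Every future unit vector is attained by the chart. -/
lemma chart_surj (hd : StraightPlane M d) {x : ℝ × ℝ → Fin 3 → ℝ} (hx : LorentzChart M d x)
    {ξ : Fin 3 → ℝ} (h1 : Lf ξ ξ = 1) (h0 : 0 < ξ 0) : ∃ Z ∈ M, ∀ i, x Z i = ξ i := by
  obtain ⟨O, hO, E, hE, G, hG, hOE, hOG, vO, vE1, vE2, vG2⟩ := hx.base
  have vO0 : x O 0 = 1 := by rw [vO]; rfl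
  have vO1 : x O 1 = 0 := by rw [vO]; rfl
  have vO2 : x O 2 = 0 := by rw [vO]; rfl
  -- coordinates in the basis
  obtain ⟨c2, hc2⟩ : ∃ c, c = ξ 2 / x G 2 := ⟨_, rfl⟩
  obtain ⟨c1, hc1⟩ : ∃ c, c = (ξ 1 - c2 * x G 1) / x E 1 := ⟨_, rfl⟩
  obtain ⟨c0, hc0⟩ : ∃ c, c = ξ 0 - c1 * x E 0 - c2 * x G 0 := ⟨_, rfl⟩
  have hb : ∀ i, ξ i = c0 * x O i + c1 * x E i + c2 * x G i := by
    intro i
    fin_cases i
    · change ξ 0 = c0 * x O 0 + c1 * x E 0 + c2 * x G 0
      rw [vO0, hc0]; ring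
    · change ξ 1 = c0 * x O 1 + c1 * x E 1 + c2 * x G 1
      rw [vO1, hc1]; field_simp; ring
    · change ξ 2 = c0 * x O 2 + c1 * x E 2 + c2 * x G 2
      rw [vO2, vE2, hc2]; field_simp; ring
  by_cases h2z : c2 = 0
  · exact chart_span hd hx hO hE hOE (s := c0) (t := c1) (fun i => by rw [hb i, h2z]; ring) h1 h0
  by_cases h1z : c1 = 0
  · exact chart_span hd hx hO hG hOG (s := c0) (t := c2) (fun i => by rw [hb i, h1z]; ring) h1 h0
  obtain ⟨m, hm⟩ : ∃ m, m = |c0| + 2 * |c1| * x E 0 + 2 * |c2| * x G 0 + 1 := ⟨_, rfl⟩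
  have pE := hx.pos E hE
  have pG := hx.pos G hG
  have LEE : Lf (x E) (x E) = 1 := by
    rw [← hx.cosh E hE E hE, hd.self E hE, Real.cosh_zero]
  have LGG : Lf (x G) (x G) = 1 := by
    rw [← hx.cosh G hG G hG, hd.self G hG, Real.cosh_zero]
  obtain ⟨η, hη⟩ : ∃ η : Fin 3 → ℝ, η = fun i => m * x O i + c1 * x E i := ⟨_, rfl⟩
  obtain ⟨ζ, hζ⟩ : ∃ ζ : Fin 3 → ℝ, ζ = fun i => (m - c0) * x O i + (-c2) * x G i := ⟨_, rfl⟩
  have a0 := abs_nonneg c0
  have a1 := abs_nonneg c1
  have a2 := abs_nonneg c2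
  have l0 := le_abs_self c0
  have l0' := neg_abs_le c0
  have l1 := le_abs_self c1
  have l1' := neg_abs_le c1
  have l2 := le_abs_self c2
  have l2' := neg_abs_le c2
  have hm1 : 2 * |c1| * x E 0 + 1 ≤ m := by
    rw [hm]; have := mul_nonneg (mul_nonneg (by norm_num : (0:ℝ) ≤ 2) a2) pG.le; linarith
  have hm2 : 2 * |c2| * x G 0 + 1 ≤ m - c0 := by
    rw [hm]; have := mul_nonneg (mul_nonneg (by norm_num : (0:ℝ) ≤ 2) a1) pE.le; linarith
  have b1 : -(|c1| * x E 0) ≤ c1 * x E 0 := by nlinarith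
  have b2 : -(|c2| * x G 0) ≤ -c2 * x G 0 := by nlinarith
  have b1' := mul_nonneg a1 pE.le
  have b2' := mul_nonneg a2 pG.le
  have hη0 : 0 < η 0 := by
    rw [hη]; simp only [vO0]
    linarith
  have hζ0 : 0 < ζ 0 := by
    rw [hζ]; simp only [vO0]
    linarith
  have hηη : 0 < Lf η η := by
    have e : Lf η η = m ^ 2 + 2 * m * (c1 * x E 0) + c1 ^ 2 := by
      simp only [Lf] at LEE
      rw [hη]; simp only [Lf, vO0, vO1, vO2]
      linear_combination c1 ^ 2 * LEE
    rw [e]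
    have h3 : 0 < m := by linarith
    have h4 : 0 < m + 2 * (c1 * x E 0) := by linarith
    nlinarith [sq_nonneg c1, mul_pos h3 h4]
  have hζζ : 0 < Lf ζ ζ := by
    have e : Lf ζ ζ = (m - c0) ^ 2 + 2 * (m - c0) * (-c2 * x G 0) + c2 ^ 2 := by
      simp only [Lf] at LGG
      rw [hζ]; simp only [Lf, vO0, vO1, vO2]
      linear_combination c2 ^ 2 * LGG
    rw [e]
    have h3 : 0 < m - c0 := by linarith
    have h4 : 0 < (m - c0) + 2 * (-c2 * x G 0) := by linarith
    nlinarith [sq_nonneg c2, mul_pos h3 h4]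
  obtain ⟨r1, hr1⟩ : ∃ r, r = Real.sqrt (Lf η η) := ⟨_, rfl⟩
  obtain ⟨r2, hr2⟩ : ∃ r, r = Real.sqrt (Lf ζ ζ) := ⟨_, rfl⟩
  have r1p : 0 < r1 := by rw [hr1]; exact Real.sqrt_pos.2 hηη
  have r2p : 0 < r2 := by rw [hr2]; exact Real.sqrt_pos.2 hζζ
  have r1s : r1 ^ 2 = Lf η η := by rw [hr1]; exact Real.sq_sqrt hηη.le
  have r2s : r2 ^ 2 = Lf ζ ζ := by rw [hr2]; exact Real.sq_sqrt hζζ.le
  obtain ⟨Q1, hQ1, q1⟩ := chart_span hd hx hO hE hOE (ξ := fun i => (1 / r1) * η i)
    (s := (1 / r1) * m) (t := (1 / r1) * c1) (fun i => by rw [hη]; ring)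
    (by rw [Lf_smul_smul, ← r1s]; field_simp) (by positivity)
  obtain ⟨Q2, hQ2, q2⟩ := chart_span hd hx hO hG hOG (ξ := fun i => (1 / r2) * ζ i)
    (s := (1 / r2) * (m - c0)) (t := (1 / r2) * (-c2)) (fun i => by rw [hζ]; ring)
    (by rw [Lf_smul_smul, ← r2s]; field_simp) (by positivity)
  have hQ : Q1 ≠ Q2 := by
    rintro rfl
    have e1 : (1 / r1) * η 2 = (1 / r2) * ζ 2 := by rw [← q1 2, ← q2 2]
    rw [hη, hζ] at e1
    simp only [vO2, vE2, mul_zero, add_zero, zero_add] at e1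
    have : (1 / r2) * (-c2 * x G 2) ≠ 0 := by
      apply mul_ne_zero (by positivity)
      exact mul_ne_zero (neg_ne_zero.2 h2z) vG2.ne'
    exact this e1.symm
  refine chart_span hd hx hQ1 hQ2 hQ (s := r1) (t := -r2) (fun i => ?_) h1 h0
  rw [q1, q2, hη, hζ, hb i]
  field_simp
  ring

end Pool.Agent.Helper87.Thales
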