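import Mathlib

set_option autoImplicit false

namespace Pool.Agent.Helper87.ThalesA

section A1

open Filter Topology in
theorem hyp_line_max (D W : ℝ → ℝ) (hpos : ∀ u, 0 < D u) (hW : Continuous W)
    (h1 : Tendsto W atTop (𝓝 0)) (h2 : Tendsto W atBot (𝓝 0))
    (hmean : ∀ c, ∃ p q : ℝ, 0 < p ∧ 0 < q ∧ p + q = 1 ∧
      W c = p * W (c + D c) + q * W (c - D c)) : ∀ u, W u ≤ 0 := by
  intro u0
  by_contra hcon
  push Not at hcon
  have hev : ∀ᶠ x in cocompact ℝ, W x < W u0 := by
    rw [cocompact_eq_atBot_atTop, eventually_sup]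
    exact ⟨h2.eventually (gt_mem_nhds hcon), h1.eventually (gt_mem_nhds hcon)⟩
  obtain ⟨x1, hx1⟩ := hW.exists_forall_ge' u0 (hev.mono (fun x hx => hx.le))
  have hev2 : {x | W x < W u0} ∈ cocompact ℝ := hev
  obtain ⟨t, ht, hsub⟩ := mem_cocompact'.mp hev2
  have hSclosed : IsClosed {u | W u = W x1} := isClosed_eq hW continuous_const
  have hSsub : {u | W u = W x1} ⊆ t := by
    intro u hu
    apply hsub
    intro hlt
    have a1 : W u = W x1 := hu
    have a2 : W u < W u0 := hlt
    have a3 := hx1 u0
    linarith
  have hScomp : IsCompact {u | W u = W x1} := ht.of_isClosed_subset hSclosed hSsub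
  obtain ⟨c, hc1, hc2⟩ := hScomp.exists_isGreatest ⟨x1, rfl⟩
  have hc : W c = W x1 := hc1
  obtain ⟨p, q, hp, hq, hpq, hm⟩ := hmean c
  have b1 := hx1 (c + D c)
  have b2 := hx1 (c - D c)
  have b3 : W (c + D c) = W x1 := by
    apply le_antisymm b1
    by_contra hlt
    push Not at hlt
    have : p * W (c + D c) + q * W (c - D c) < p * W x1 + q * W x1 := by
      have := mul_lt_mul_of_pos_left hlt hp
      have := mul_le_mul_of_nonneg_left b2 hq.le
      linarith
    rw [← hm, ← add_mul, hpq, one_mul, hc] at this
    exact lt_irrefl _ this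
  have b4 := hc2 (show c + D c ∈ {u | W u = W x1} from b3)
  have := hpos c
  linarith

open Filter Topology in
/-- Single line rigidity, hyperbolic type. -/
theorem hyp_line (D : ℝ → ℝ) (hpos : ∀ u, 0 < D u) (hlip : ∀ u v, |D u - D v| ≤ |u - v|)
    (hbig : ∀ u v, |u - v| ≤ D u + D v)
    (heq : ∀ c, Real.cosh (D (c + D c)) + Real.cosh (D (c - D c)) = 2 * Real.cosh (D c) ^ 2) :
    ∃ α β : ℝ, ∀ u, Real.cosh (D u) = α * Real.exp u + β * Real.exp (-u) := by
  have hcont : Continuous D := by
    have : LipschitzWith 1 D := LipschitzWith.of_dist_le_mul (fun x y => by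
      rw [Real.dist_eq, Real.dist_eq]
      simpa using hlip x y)
    exact this.continuous
  have hm1 : Monotone (fun u => u - D u) := by
    intro u v huv
    have h1 := hlip u v
    have h2 := neg_abs_le (D u - D v)
    rw [abs_of_nonpos (by linarith : u - v ≤ 0)] at h1
    simp only
    linarith
  have hm2 : Monotone (fun u => u + D u) := by
    intro u v huv
    have h1 := hlip u v
    have h2 := le_abs_self (D u - D v)
    rw [abs_of_nonpos (by linarith : u - v ≤ 0)] at h1
    simp only
    linarith
  have hb1 : BddAbove (Set.range (fun u => u - D u)) := by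
    refine ⟨D 0, ?_⟩
    rintro _ ⟨u, rfl⟩
    have h1 := hbig u 0
    have h2 := le_abs_self (u - 0)
    simp only
    linarith
  have hb2 : BddBelow (Set.range (fun u => u + D u)) := by
    refine ⟨-D 0, ?_⟩
    rintro _ ⟨u, rfl⟩
    have h1 := hbig u 0
    have h2 := neg_abs_le (u - 0)
    simp only
    linarith
  have hlim1 := tendsto_atTop_ciSup hm1 hb1
  have hlim2 := tendsto_atBot_ciInf hm2 hb2
  set hp := ⨆ u, (u - D u) with hhp
  set hm := ⨅ u, (u + D u) with hhm
  set f : ℝ → ℝ := fun u => (Real.exp (u - hp) + Real.exp (hm - u)) / 2 with hf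
  have hfpos : ∀ u, 0 < f u := fun u => by
    simp only [hf]
    positivity
  have hfid : ∀ c r, f (c + r) + f (c - r) = 2 * Real.cosh r * f c := by
    intro c r
    simp only [hf, Real.cosh_eq]
    have e1 : Real.exp (c + r - hp) = Real.exp (c - hp) * Real.exp r := by
      rw [← Real.exp_add]; congr 1; ring
    have e2 : Real.exp (c - r - hp) = Real.exp (c - hp) * Real.exp (-r) := by
      rw [← Real.exp_add]; congr 1; ring
    have e3 : Real.exp (hm - (c + r)) = Real.exp (hm - c) * Real.exp (-r) := by
      rw [← Real.exp_add]; congr 1; ring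
    have e4 : Real.exp (hm - (c - r)) = Real.exp (hm - c) * Real.exp r := by
      rw [← Real.exp_add]; congr 1; ring
    rw [e1, e2, e3, e4]
    ring
  set V : ℝ → ℝ := fun u => Real.cosh (D u) / f u with hV
  have hVcont : Continuous V := by
    apply Continuous.div
    · exact Real.continuous_cosh.comp hcont
    · simp only [hf]
      fun_prop
    · intro u; exact (hfpos u).ne'
  have hV1 : Tendsto V atTop (𝓝 1) := by
    have hform : ∀ u, V u = (Real.exp (hp - (u - D u)) + Real.exp (-(D u + u) + hp)) /
        (1 + Real.exp (hm + hp - 2 * u)) := by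
      intro u
      simp only [hV, hf, Real.cosh_eq]
      have e0 : 0 < Real.exp (u - hp) := Real.exp_pos _
      rw [div_div_div_cancel_right₀ (by norm_num : (2 : ℝ) ≠ 0)]
      rw [div_eq_div_iff (by positivity) (by positivity)]
      have e1 : Real.exp (D u) = Real.exp (hp - (u - D u)) * Real.exp (u - hp) := by
        rw [← Real.exp_add]; congr 1; ring
      have e2 : Real.exp (-D u) = Real.exp (-(D u + u) + hp) * Real.exp (u - hp) := by
        rw [← Real.exp_add]; congr 1; ring
      have e3 : Real.exp (hm - u) = Real.exp (hm + hp - 2 * u) * Real.exp (u - hp) := by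
        rw [← Real.exp_add]; congr 1; ring
      rw [e1, e2, e3]
      ring
    have t1 : Tendsto (fun u => Real.exp (hp - (u - D u))) atTop (𝓝 1) := by
      have := (Real.continuous_exp.tendsto _).comp ((tendsto_const_nhds (x := hp)).sub hlim1)
      rw [sub_self, Real.exp_zero] at this
      exact this
    have t2 : Tendsto (fun u => Real.exp (-(D u + u) + hp)) atTop (𝓝 0) := by
      apply Real.tendsto_exp_atBot.comp
      apply tendsto_atBot_add_const_right
      apply tendsto_neg_atTop_atBot.comp
      apply tendsto_atTop_mono (f := fun u => u) _ tendsto_id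
      intro u
      have := hpos u
      linarith
    have t3 : Tendsto (fun u : ℝ => Real.exp (hm + hp - 2 * u)) atTop (𝓝 0) := by
      apply Real.tendsto_exp_atBot.comp
      have : Tendsto (fun u : ℝ => 2 * u) atTop atTop := tendsto_id.const_mul_atTop (by norm_num)
      have h3 := tendsto_atBot_add_const_left atTop (hm + hp) (tendsto_neg_atTop_atBot.comp this)
      refine h3.congr (fun u => ?_)
      simp only [Function.comp]
      ring
    have t4 := (t1.add t2).div ((tendsto_const_nhds (x := (1 : ℝ))).add t3) (by norm_num)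
    simp only [add_zero, div_one] at t4
    exact t4.congr (fun u => (hform u).symm)
  have hV2 : Tendsto V atBot (𝓝 1) := by
    have hform : ∀ u, V u = (Real.exp ((u + D u) - hm) + Real.exp (-(D u - u) - hm)) /
        (Real.exp (2 * u - hp - hm) + 1) := by
      intro u
      simp only [hV, hf, Real.cosh_eq]
      have e0 : 0 < Real.exp (hm - u) := Real.exp_pos _
      rw [div_div_div_cancel_right₀ (by norm_num : (2 : ℝ) ≠ 0)]
      rw [div_eq_div_iff (by positivity) (by positivity)]
      have e1 : Real.exp (D u) = Real.exp ((u + D u) - hm) * Real.exp (hm - u) := by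
        rw [← Real.exp_add]; congr 1; ring
      have e2 : Real.exp (-D u) = Real.exp (-(D u - u) - hm) * Real.exp (hm - u) := by
        rw [← Real.exp_add]; congr 1; ring
      have e3 : Real.exp (u - hp) = Real.exp (2 * u - hp - hm) * Real.exp (hm - u) := by
        rw [← Real.exp_add]; congr 1; ring
      rw [e1, e2, e3]
      ring
    have t1 : Tendsto (fun u => Real.exp ((u + D u) - hm)) atBot (𝓝 1) := by
      have := (Real.continuous_exp.tendsto _).comp (hlim2.sub (tendsto_const_nhds (x := hm)))
      rw [sub_self, Real.exp_zero] at this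
      exact this
    have t2 : Tendsto (fun u => Real.exp (-(D u - u) - hm)) atBot (𝓝 0) := by
      apply Real.tendsto_exp_atBot.comp
      have : Tendsto (fun u => -(D u - u)) atBot atBot :=
        tendsto_atBot_mono (fun u => by have := hpos u; simp only [id]; linarith) tendsto_id
      exact tendsto_atBot_add_const_right atBot (-hm) this
    have t3 : Tendsto (fun u : ℝ => Real.exp (2 * u - hp - hm)) atBot (𝓝 0) := by
      apply Real.tendsto_exp_atBot.comp
      have : Tendsto (fun u : ℝ => 2 * u) atBot atBot := tendsto_id.const_mul_atBot (by norm_num)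
      have h3 := tendsto_atBot_add_const_right atBot (-hp - hm) this
      refine h3.congr (fun u => ?_)
      ring
    have t4 := (t1.add t2).div (t3.add (tendsto_const_nhds (x := (1 : ℝ)))) (by norm_num)
    simp only [add_zero, zero_add, div_one] at t4
    exact t4.congr (fun u => (hform u).symm)
  have hmeanV : ∀ c, ∃ p q : ℝ, 0 < p ∧ 0 < q ∧ p + q = 1 ∧
      V c = p * V (c + D c) + q * V (c - D c) := by
    intro c
    have hch := Real.cosh_pos (D c)
    have hfc := hfpos c
    refine ⟨f (c + D c) / (2 * Real.cosh (D c) * f c), f (c - D c) / (2 * Real.cosh (D c) * f c),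
      ?_, ?_, ?_, ?_⟩
    · have := hfpos (c + D c)
      positivity
    · have := hfpos (c - D c)
      positivity
    · rw [← add_div, hfid, div_self (by positivity)]
    · have e1 : f (c + D c) * V (c + D c) = Real.cosh (D (c + D c)) := by
        simp only [hV]
        rw [mul_div_cancel₀]
        exact (hfpos _).ne'
      have e2 : f (c - D c) * V (c - D c) = Real.cosh (D (c - D c)) := by
        simp only [hV]
        rw [mul_div_cancel₀]
        exact (hfpos _).ne'
      have e3 : f (c + D c) / (2 * Real.cosh (D c) * f c) * V (c + D c) +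
          f (c - D c) / (2 * Real.cosh (D c) * f c) * V (c - D c) =
          (f (c + D c) * V (c + D c) + f (c - D c) * V (c - D c)) /
            (2 * Real.cosh (D c) * f c) := by ring
      rw [e3, e1, e2, heq]
      have e4 : V c = Real.cosh (D c) / f c := rfl
      rw [e4, div_eq_div_iff hfc.ne' (by positivity)]
      ring
  have hle : ∀ u, V u - 1 ≤ 0 := by
    apply hyp_line_max D (fun u => V u - 1) hpos (hVcont.sub continuous_const)
    · have := hV1.sub (tendsto_const_nhds (x := (1 : ℝ)))
      rwa [sub_self] at this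
    · have := hV2.sub (tendsto_const_nhds (x := (1 : ℝ)))
      rwa [sub_self] at this
    · intro c
      obtain ⟨p, q, h1, h2, h3, h4⟩ := hmeanV c
      refine ⟨p, q, h1, h2, h3, ?_⟩
      rw [h4]
      linear_combination h3
  have hge : ∀ u, 1 - V u ≤ 0 := by
    apply hyp_line_max D (fun u => 1 - V u) hpos (continuous_const.sub hVcont)
    · have := (tendsto_const_nhds (x := (1 : ℝ))).sub hV1
      rwa [sub_self] at this
    · have := (tendsto_const_nhds (x := (1 : ℝ))).sub hV2
      rwa [sub_self] at this
    · intro c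
      obtain ⟨p, q, h1, h2, h3, h4⟩ := hmeanV c
      refine ⟨p, q, h1, h2, h3, ?_⟩
      rw [h4]
      linear_combination -h3
  refine ⟨Real.exp (-hp) / 2, Real.exp hm / 2, fun u => ?_⟩
  have hVu : V u = 1 := le_antisymm (by linarith [hle u]) (by linarith [hge u])
  have : Real.cosh (D u) = f u := by
    have h5 : Real.cosh (D u) / f u = 1 := hVu
    rwa [div_eq_one_iff_eq (hfpos u).ne'] at h5
  rw [this]
  simp only [hf]
  rw [sub_eq_add_neg, Real.exp_add, sub_eq_add_neg, Real.exp_add]
  ring

end A1

section A2

open Filter Topology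

/-- A continuous function with the mean property whose lower limits at both ends are nonnegative
is nonnegative. -/
theorem par_min (D j : ℝ → ℝ) (hpos : ∀ u, 0 < D u) (hj : Continuous j)
    (hmean : ∀ c, j (c + D c) + j (c - D c) = 2 * j c)
    (htop : ∀ ε > 0, ∀ᶠ u in atTop, -ε < j u)
    (hbot : ∀ ε > 0, ∀ᶠ u in atBot, -ε < j u) : ∀ u, 0 ≤ j u := by
  by_contra hcon
  push Not at hcon
  obtain ⟨x0, hx0⟩ := hcon
  -- the sublevel set is compact
  have hK : ∀ m < 0, IsCompact {u : ℝ | j u ≤ m} := by
    intro m hm
    obtain ⟨a, ha⟩ := eventually_atTop.1 (htop (-m) (by linarith))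
    obtain ⟨b, hb⟩ := eventually_atBot.1 (hbot (-m) (by linarith))
    refine (isCompact_Icc (a := b) (b := a)).of_isClosed_subset (isClosed_le hj continuous_const) ?_
    intro u hu
    simp only [Set.mem_ofPred_eq] at hu
    constructor
    · by_contra h
      have := hb u (by linarith)
      linarith
    · by_contra h
      have := ha u (by linarith)
      linarith
  obtain ⟨c0, hc0, hmin⟩ := (hK (j x0) hx0).exists_isMinOn ⟨x0, le_refl (j x0)⟩ hj.continuousOn
  have hglob : ∀ u, j c0 ≤ j u := by
    intro u
    by_cases h : j u ≤ j x0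
    · exact hmin h
    · have : j c0 ≤ j x0 := hc0
      linarith
  have hneg : j c0 < 0 := lt_of_le_of_lt hc0 hx0
  obtain ⟨c, hc⟩ := (hK (j c0) hneg).exists_isGreatest ⟨c0, le_refl (j c0)⟩
  have h1 : j c ≤ j c0 := hc.1
  have h2 : c + D c ∈ {u : ℝ | j u ≤ j c0} := by
    simp only [Set.mem_ofPred_eq]
    have := hmean c
    have := hglob (c - D c)
    linarith
  have := hc.2 h2
  have := hpos c
  linarith

theorem par_claim (D : ℝ → ℝ) (hpos : ∀ u, 0 < D u) (hlip : ∀ u v, |D u - D v| ≤ |u - v|)
    (hbig : ∀ u v, |u - v| ≤ D u + D v)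
    (heq : ∀ c, D (c + D c) ^ 2 + D (c - D c) ^ 2 = 4 * D c ^ 2) :
    ∃ h : ℝ, (∀ u, u - D u ≤ h) ∧ Tendsto (fun u => u - D u) atTop (𝓝 h) ∧
      Tendsto (fun u => D u ^ 2 - (u - h) ^ 2 - D h ^ 2) atTop (𝓝 0) := by
  have hcont : Continuous D := by
    have : LipschitzWith 1 D := LipschitzWith.of_dist_le_mul (by
      intro x y
      simpa [Real.dist_eq] using hlip x y)
    exact this.continuous
  have hmono : Monotone (fun u => u - D u) := by
    intro u v huv
    have h1 := hlip v u
    rw [abs_of_nonneg (by linarith : (0:ℝ) ≤ v - u)] at h1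
    have := le_abs_self (D v - D u)
    simp only
    linarith
  have hbdd : BddAbove (Set.range (fun u => u - D u)) := by
    refine ⟨D 0, ?_⟩
    rintro _ ⟨u, rfl⟩
    have h1 := hbig u 0
    have := le_abs_self (u - 0)
    simp only
    linarith
  set h : ℝ := ⨆ u, (u - D u) with hh
  have hle : ∀ u, u - D u ≤ h := fun u => le_ciSup hbdd u
  have hlim : Tendsto (fun u => u - D u) atTop (𝓝 h) := tendsto_atTop_ciSup hmono hbdd
  refine ⟨h, hle, hlim, ?_⟩
  -- e u = h - (u - D u)
  set j : ℝ → ℝ := fun u => D u ^ 2 - (u - h) ^ 2 - D h ^ 2 with hjdef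
  have hjc : Continuous j := by fun_prop
  have hmean : ∀ c, j (c + D c) + j (c - D c) = 2 * j c := by
    intro c
    simp only [hjdef]
    linarith [heq c, (by ring : (c + D c - h) ^ 2 + (c - D c - h) ^ 2 = 2 * (c - h) ^ 2 + 2 * D c ^ 2)]
  have hjh : j h = 0 := by simp [hjdef]
  -- little o
  have he0 : Tendsto (fun u => h - (u - D u)) atTop (𝓝 0) := by
    have := (tendsto_const_nhds (x := h) (f := (atTop : Filter ℝ))).sub hlim
    simpa using this
  have hsmall : ∀ δ > 0, ∀ᶠ u in atTop, |j u| ≤ δ * (u - h) := by
    intro δ hδ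
    have h1 : ∀ᶠ u in atTop, h - (u - D u) < δ / 4 := he0.eventually_lt_const (by positivity)
    have h2 : ∀ᶠ u in atTop, h - (u - D u) < 1 := he0.eventually_lt_const (by positivity)
    filter_upwards [h1, h2, eventually_ge_atTop (h + 1), eventually_ge_atTop (h + (2 / δ) * (1 + D h ^ 2))] with u hu1 hu2 hu3 hu4
    have e0 : 0 ≤ h - (u - D u) := by linarith [hle u]
    have hju : j u = (h - (u - D u)) * (2 * (u - h) + (h - (u - D u))) - D h ^ 2 := by
      simp only [hjdef]; ring
    have hb : (1 + D h ^ 2) ≤ δ / 2 * (u - h) := by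
      have : (2 / δ) * (1 + D h ^ 2) ≤ u - h := by linarith
      calc (1 + D h ^ 2) = δ / 2 * ((2 / δ) * (1 + D h ^ 2)) := by field_simp
        _ ≤ δ / 2 * (u - h) := by
          apply mul_le_mul_of_nonneg_left this (by positivity)
    set e := h - (u - D u) with he
    have hD2 : 0 ≤ D h ^ 2 := by positivity
    rw [abs_le, hju]
    have hub : e * (2 * (u - h) + e) ≤ δ / 2 * (u - h) + 1 := by
      have : e * (u - h) ≤ δ / 4 * (u - h) := mul_le_mul_of_nonneg_right hu1.le (by linarith)
      nlinarith
    have hlb : 0 ≤ e * (2 * (u - h) + e) := by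
      apply mul_nonneg e0; linarith
    constructor
    · have : 0 ≤ u - h := by linarith
      nlinarith
    · have : 0 ≤ u - h := by linarith
      nlinarith
  have hback : Tendsto (fun c => j (c - D c)) atTop (𝓝 0) := by
    rw [← hjh]
    exact (hjc.tendsto h).comp hlim
  rw [Metric.tendsto_atTop]
  intro ε hε
  have h1 : ∀ᶠ c in atTop, |j (c - D c)| < ε / 2 := by
    have := (Metric.tendsto_nhds.1 hback) (ε / 2) (by positivity)
    simpa [Real.dist_eq] using this
  have h2 : ∀ᶠ u in atTop, h - (u - D u) < 1 := he0.eventually_lt_const (by positivity)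
  obtain ⟨K, hK⟩ := eventually_atTop.1 (h1.and (h2.and (eventually_ge_atTop (h + 1))))
  refine ⟨K, fun c hc => ?_⟩
  rw [Real.dist_eq, sub_zero]
  -- iterate
  set s : ℕ → ℝ := fun n => (fun x => x + D x)^[n] c with hs
  have hs0 : s 0 = c := rfl
  have hsS : ∀ n, s (n + 1) = s n + D (s n) := by
    intro n
    simp only [hs, Function.iterate_succ_apply']
  have hsge : ∀ n, K ≤ s n := by
    intro n
    induction n with
    | zero => exact hc
    | succ n ih => rw [hsS]; linarith [hpos (s n)]
  have hsh : ∀ n, s (n + 1) - h = 2 * (s n - h) + (h - (s n - D (s n))) := by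
    intro n; rw [hsS]; ring
  have hup : ∀ n : ℕ, s n - h + 1 ≤ 2 ^ n * (c - h + 1) := by
    intro n
    induction n with
    | zero => rw [hs0]; simp
    | succ n ih =>
      have := (hK (s n) (hsge n)).2.1
      rw [pow_succ]
      linarith [hsh n]
  have hlow : ∀ n : ℕ, 2 ^ n * (c - h) ≤ s n - h := by
    intro n
    induction n with
    | zero => rw [hs0]; simp
    | succ n ih =>
      have := hle (s n)
      rw [pow_succ]
      linarith [hsh n]
  have hch : 1 ≤ c - h := by linarith [(hK c hc).2.2]
  have hjn : ∀ n : ℕ, |j c| ≤ |j (s n)| / 2 ^ n + ε / 2 * (1 - 1 / 2 ^ n) := by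
    intro n
    induction n with
    | zero => rw [hs0]; simp
    | succ n ih =>
      have h3 := hmean (s n)
      rw [← hsS] at h3
      have h4 := (hK (s n) (hsge n)).1
      have h5 : |j (s n)| ≤ (|j (s (n + 1))| + ε / 2) / 2 := by
        have h6 : j (s n) = (j (s (n + 1)) + j (s n - D (s n))) / 2 := by linarith
        rw [h6, abs_div, abs_two]
        have := abs_add_le (j (s (n + 1))) (j (s n - D (s n)))
        linarith
      have h7 : |j (s n)| / 2 ^ n ≤ ((|j (s (n + 1))| + ε / 2) / 2) / 2 ^ n := by
        apply div_le_div_of_nonneg_right h5 (by positivity)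
      calc |j c| ≤ |j (s n)| / 2 ^ n + ε / 2 * (1 - 1 / 2 ^ n) := ih
        _ ≤ ((|j (s (n + 1))| + ε / 2) / 2) / 2 ^ n + ε / 2 * (1 - 1 / 2 ^ n) := by linarith
        _ = _ := by rw [pow_succ]; field_simp; ring
  have hstop : Tendsto s atTop atTop := by
    have h8 : Tendsto (fun n : ℕ => (2:ℝ) ^ n + h) atTop atTop :=
      (tendsto_pow_atTop_atTop_of_one_lt (by norm_num)).atTop_add tendsto_const_nhds
    refine tendsto_atTop_mono (fun n => ?_) h8
    have := hlow n
    have h9 : (2:ℝ) ^ n * 1 ≤ 2 ^ n * (c - h) := mul_le_mul_of_nonneg_left hch (by positivity)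
    linarith
  have hfin : ∀ δ > 0, |j c| ≤ δ * (c - h + 1) + ε / 2 := by
    intro δ hδ
    obtain ⟨n, hn⟩ := (hstop.eventually (hsmall δ hδ)).exists
    have h10 := hjn n
    have h11 : |j (s n)| / 2 ^ n ≤ δ * (c - h + 1) := by
      rw [div_le_iff₀ (by positivity)]
      have : δ * (s n - h) ≤ δ * (2 ^ n * (c - h + 1)) := by
        apply mul_le_mul_of_nonneg_left _ hδ.le
        linarith [hup n]
      nlinarith
    have h12 : ε / 2 * (1 - 1 / 2 ^ n) ≤ ε / 2 := by
      have : (0:ℝ) < 1 / 2 ^ n := by positivity
      nlinarith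
    linarith
  have hfin2 := hfin (ε / 4 / (c - h + 1)) (by apply div_pos (by linarith) (by linarith))
  rw [div_mul_cancel₀ _ (by linarith : c - h + 1 ≠ 0)] at hfin2
  linarith

/-- Single line rigidity, parabolic type. -/
theorem par_line (D : ℝ → ℝ) (hpos : ∀ u, 0 < D u) (hlip : ∀ u v, |D u - D v| ≤ |u - v|)
    (hbig : ∀ u v, |u - v| ≤ D u + D v)
    (heq : ∀ c, D (c + D c) ^ 2 + D (c - D c) ^ 2 = 4 * D c ^ 2) :
    ∃ a b : ℝ, ∀ u, D u ^ 2 = u ^ 2 + a * u + b := by
  have hcont : Continuous D := by
    have : LipschitzWith 1 D := LipschitzWith.of_dist_le_mul (by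
      intro x y
      simpa [Real.dist_eq] using hlip x y)
    exact this.continuous
  obtain ⟨p, hp1, hp2, hp3⟩ := par_claim D hpos hlip hbig heq
  obtain ⟨k, hk1, hk2, hk3⟩ := par_claim (fun u => D (-u)) (fun u => hpos _)
    (fun u v => by
      have := hlip (-u) (-v)
      rwa [show -u - -v = -(u - v) by ring, abs_neg] at this)
    (fun u v => by
      have := hbig (-u) (-v)
      rwa [show -u - -v = -(u - v) by ring, abs_neg] at this)
    (fun c => by
      have := heq (-c)
      rw [show -(c + D (-c)) = -c - D (-c) by ring, show -(c - D (-c)) = -c + D (-c) by ring]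
      linarith)
  -- p ≤ -k
  have hpk : p ≤ -k := by
    have h1 : ∀ v, p ≤ v + D v := by
      intro v
      refine le_of_tendsto hp2 (Eventually.of_forall fun u => ?_)
      have := hbig u v
      have := le_abs_self (u - v)
      linarith
    have h2 : k ≤ -p := by
      refine le_of_tendsto hk2 (Eventually.of_forall fun u => ?_)
      have := h1 (-u)
      linarith
    linarith
  set j : ℝ → ℝ := fun u => D u ^ 2 - (u - p) ^ 2 - D p ^ 2 with hjdef
  have hjc : Continuous j := by fun_prop
  have hmean : ∀ c, j (c + D c) + j (c - D c) = 2 * j c := by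
    intro c
    simp only [hjdef]
    linarith [heq c, (by ring : (c + D c - p) ^ 2 + (c - D c - p) ^ 2 = 2 * (c - p) ^ 2 + 2 * D c ^ 2)]
  have hjp : j p = 0 := by simp [hjdef]
  have hk4 : Tendsto (fun u => D u ^ 2 - (u + k) ^ 2 - D (-k) ^ 2) atBot (𝓝 0) := by
    have := hk3.comp tendsto_neg_atBot_atTop
    refine this.congr fun u => ?_
    simp only [Function.comp, neg_neg]
    ring
  rcases eq_or_lt_of_le hpk with hpk | hpk
  · -- equality
    have hbot : Tendsto j atBot (𝓝 0) := by
      refine hk4.congr fun u => ?_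
      simp only [hjdef, hpk]
      ring
    have hge := par_min D j hpos hjc hmean
      (fun ε hε => hp3.eventually_const_lt (by linarith : -ε < 0))
      (fun ε hε => hbot.eventually_const_lt (by linarith : -ε < 0))
    have hle := par_min D (fun u => - j u) hpos hjc.neg (fun c => by linarith [hmean c])
      (fun ε hε => by
        filter_upwards [hp3.eventually_lt_const hε] with u hu
        simp only [hjdef] at hu ⊢
        linarith)
      (fun ε hε => by
        filter_upwards [hbot.eventually_lt_const hε] with u hu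
        linarith)
    refine ⟨-2 * p, p ^ 2 + D p ^ 2, fun u => ?_⟩
    have h1 := hge u
    have h2 := hle u
    have h3 : j u = 0 := by linarith
    simp only [hjdef] at h3
    linarith [(by ring : (u - p) ^ 2 = u ^ 2 + (-2 * p) * u + p ^ 2)]
  · exfalso
    have hbot : Tendsto j atBot atTop := by
      have h1 : Tendsto (fun u : ℝ => (-2 * (-k - p)) * u) atBot atTop :=
        tendsto_id.const_mul_atBot_of_neg (by linarith)
      have h2 := (h1.atTop_add (tendsto_const_nhds (x := k ^ 2 - p ^ 2 + D (-k) ^ 2 - D p ^ 2))).atTop_add hk4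
      refine h2.congr fun u => ?_
      simp only [hjdef]
      ring
    have hge := par_min D j hpos hjc hmean
      (fun ε hε => hp3.eventually_const_lt (by linarith : -ε < 0))
      (fun ε hε => by
        filter_upwards [hbot.eventually_gt_atTop 0] with u hu
        linarith)
    obtain ⟨b, hb⟩ := eventually_atBot.1 (hbot.eventually_gt_atTop 0)
    set S : Set ℝ := {u | j u ≤ 0} with hS
    have hSc : IsClosed S := isClosed_le hjc continuous_const
    have hSne : S.Nonempty := ⟨p, by simp [hS, hjp]⟩
    have hSb : BddBelow S := ⟨b, fun u hu => by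
      by_contra h
      have h1 := hb u (by linarith)
      have h2 : j u ≤ 0 := hu
      linarith⟩
    have hmem := hSc.csInf_mem hSne hSb
    set c := sInf S with hc
    have h1 : j c ≤ 0 := hmem
    have h2 : c - D c ∈ S := by
      simp only [hS, Set.mem_ofPred_eq]
      have := hmean c
      have := hge (c + D c)
      linarith
    have := csInf_le hSb h2
    have := hpos c
    linarith

end A2

end Pool.Agent.Helper87.ThalesA
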