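import Pool.Agent.Helper87.ThalesPar
import Pool.Agent.Helper87.ThalesLine
import Pool.Agent.Helper87.ThalesProj

set_option autoImplicit false

namespace Pool.Agent.Helper87.Thales

open Set

variable {M : Set (ℝ × ℝ)} {d : ℝ × ℝ → ℝ × ℝ → ℝ}

lemma sinh_half_sq (x : ℝ) : Real.sinh (x / 2) ^ 2 = (Real.cosh x - 1) / 2 := by
  have h := Real.cosh_sq (x / 2)
  have h2 := Real.cosh_two_mul (x / 2)
  rw [show 2 * (x / 2) = x by ring] at h2
  linarith

/-- The distance from a point along a line, hyperbolic type. -/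
lemma hyp_form (hd : StraightPlane M d) (hσ : CircleIdentity Real.sinh M d) :
    ∀ P ∈ M, ExpLin M d (fun X => Real.cosh (d P X)) := by
  intro P hP γ hγ
  by_cases hPγ : P ∈ range γ
  · obtain ⟨s, rfl⟩ := hPγ
    refine ⟨Real.exp (-s) / 2, Real.exp s / 2, fun u => ?_⟩
    simp only
    rw [hγ.1, Real.cosh_abs, Real.cosh_eq, show s - u = s + -u by ring, Real.exp_add,
      show -(s + -u) = -s + u by ring, Real.exp_add]
    ring
  · obtain ⟨h1, h2, h3⟩ := line_facts hd hγ hP hPγ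
    refine ThalesA.hyp_line (fun u => d P (γ u)) h1 h2 h3 ?_
    intro c
    have h := line_identity hd hσ hγ hP hPγ c
    rw [sinh_half_sq, sinh_half_sq] at h
    have h4 := Real.cosh_sq (d P (γ c))
    linarith

/-- The distance from a point along a line, parabolic type. -/
lemma par_form (hd : StraightPlane M d) (hσ : CircleIdentity id M d) :
    ∀ P ∈ M, ∀ γ, IsLine M d γ → ∃ a b : ℝ, ∀ u, d P (γ u) ^ 2 = u ^ 2 + a * u + b := by
  intro P hP γ hγ
  by_cases hPγ : P ∈ range γ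
  · obtain ⟨s, rfl⟩ := hPγ
    refine ⟨-2 * s, s ^ 2, fun u => ?_⟩
    rw [hγ.1, sq_abs]
    ring
  · obtain ⟨h1, h2, h3⟩ := line_facts hd hγ hP hPγ
    refine ThalesA.par_line (fun u => d P (γ u)) h1 h2 h3 ?_
    intro c
    have h := line_identity hd hσ hγ hP hPγ c
    simp only [id] at h
    linarith

/-- Homogeneous coordinates of the image of a point under the projective map with matrix `b`. -/
def hom (b : Matrix (Fin 3) (Fin 3) ℝ) (X : ℝ × ℝ) (i : Fin 3) : ℝ :=
  b i 0 + b i 1 * X.1 + b i 2 * X.2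

/-- The projective map with matrix `b`, in affine coordinates. -/
noncomputable def proj (b : Matrix (Fin 3) (Fin 3) ℝ) (X : ℝ × ℝ) : ℝ × ℝ :=
  (hom b X 1 / hom b X 0, hom b X 2 / hom b X 0)

/-- The open unit disc. -/
def disc : Set (ℝ × ℝ) := {p | p.1 ^ 2 + p.2 ^ 2 < 1}

/-- The plane is the Beltrami-Cayley-Klein model of the hyperbolic plane, up to a projective
map. -/
def KleinModel (M : Set (ℝ × ℝ)) (d : ℝ × ℝ → ℝ × ℝ → ℝ) : Prop :=
  ∃ b : Matrix (Fin 3) (Fin 3) ℝ, b.det ≠ 0 ∧ (∀ X ∈ M, 0 < hom b X 0) ∧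
    BijOn (proj b) M disc ∧
    ∀ X ∈ M, ∀ Y ∈ M, Real.cosh (d X Y) =
      (1 - ((proj b X).1 * (proj b Y).1 + (proj b X).2 * (proj b Y).2)) /
        (Real.sqrt (1 - ((proj b X).1 ^ 2 + (proj b X).2 ^ 2)) *
          Real.sqrt (1 - ((proj b Y).1 ^ 2 + (proj b Y).2 ^ 2)))

/-- The plane is the Euclidean plane, up to a linear map. -/
def EuclideanModel (d : ℝ × ℝ → ℝ × ℝ → ℝ) : Prop :=
  ∃ T : (ℝ × ℝ) ≃ₗ[ℝ] EuclideanSpace ℝ (Fin 2), ∀ X Y, d X Y = dist (T X) (T Y)

lemma sum_expLin {x : ℝ × ℝ → Fin 3 → ℝ} (hx : ∀ i, ExpLin M d (fun X => x X i))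
    (a : Fin 3 → ℝ) : ExpLin M d (fun X => ∑ i, a i * x X i) := by
  have h := (((hx 0).smul (a 0)).add ((hx 1).smul (a 1))).add ((hx 2).smul (a 2))
  convert h using 1
  funext X
  rw [Fin.sum_univ_three]

lemma sum_affLin {x : ℝ × ℝ → Fin 3 → ℝ} (hx : ∀ i, AffLin M d (fun X => x X i))
    (a : Fin 3 → ℝ) : AffLin M d (fun X => ∑ i, a i * x X i) := by
  have h := (((hx 0).smul (a 0)).add ((hx 1).smul (a 1))).add ((hx 2).smul (a 2))
  convert h using 1
  funext X
  rw [Fin.sum_univ_three]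

lemma base_ind {x : ℝ × ℝ → Fin 3 → ℝ}
    (hb : ∃ O ∈ M, ∃ E ∈ M, ∃ G ∈ M, x O = ![1, 0, 0] ∧ 0 < x E 1 ∧ x E 2 = 0 ∧ 0 < x G 2)
    (a : Fin 3 → ℝ) (h : ∀ X ∈ M, ∑ i, a i * x X i = 0) : a = 0 := by
  obtain ⟨O, hO, E, hE, G, hG, vO, vE1, vE2, vG2⟩ := hb
  have h0 := h O hO
  have h1 := h E hE
  have h2 := h G hG
  rw [Fin.sum_univ_three] at h0 h1 h2
  rw [vO] at h0
  simp only [Matrix.cons_val_zero, Matrix.cons_val_one, Matrix.cons_val, mul_one, mul_zero,
    add_zero] at h0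
  rw [h0, vE2] at h1
  have a1 : a 1 = 0 := by
    have : a 1 * x E 1 = 0 := by linarith
    exact (mul_eq_zero.1 this).resolve_right vE1.ne'
  rw [h0, a1] at h2
  have a2 : a 2 = 0 := by
    have : a 2 * x G 2 = 0 := by linarith
    exact (mul_eq_zero.1 this).resolve_right vG2.ne'
  funext i
  fin_cases i
  · exact h0
  · exact a1
  · exact a2

lemma det_ne_zero_of {x : ℝ × ℝ → Fin 3 → ℝ} {b : Matrix (Fin 3) (Fin 3) ℝ} {ρ : ℝ × ℝ → ℝ}
    (hind : ∀ a : Fin 3 → ℝ, (∀ X ∈ M, ∑ i, a i * x X i = 0) → a = 0)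
    (hρ : ∀ X ∈ M, ∀ i, x X i = ρ X * hom b X i) : b.det ≠ 0 := by
  intro hdet
  obtain ⟨v, hv, hvb⟩ := Matrix.exists_vecMul_eq_zero_iff.2 hdet
  apply hv
  apply hind
  intro X hX
  have h0 := congrFun hvb 0
  have h1 := congrFun hvb 1
  have h2 := congrFun hvb 2
  simp only [Matrix.vecMul, dotProduct, Fin.sum_univ_three, Pi.zero_apply] at h0 h1 h2
  rw [Fin.sum_univ_three, hρ X hX 0, hρ X hX 1, hρ X hX 2]
  simp only [hom]
  linear_combination (ρ X) * h0 + (ρ X) * X.1 * h1 + (ρ X) * X.2 * h2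

lemma hom_inj {b : Matrix (Fin 3) (Fin 3) ℝ} (hb : b.det ≠ 0) {X Y : ℝ × ℝ} {c : ℝ}
    (h : ∀ i, hom b X i = c * hom b Y i) : X = Y := by
  have hz : b.mulVec ![1 - c, X.1 - c * Y.1, X.2 - c * Y.2] = 0 := by
    funext i
    have := h i
    simp only [hom] at this
    simp only [Matrix.mulVec, dotProduct, Fin.sum_univ_three, Matrix.cons_val_zero,
      Matrix.cons_val_one, Matrix.cons_val, Pi.zero_apply]
    linear_combination this
  have h0 := Matrix.eq_zero_of_mulVec_eq_zero hb hz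
  have e0 := congrFun h0 0
  have e1 := congrFun h0 1
  have e2 := congrFun h0 2
  simp only [Matrix.cons_val_zero, Matrix.cons_val_one, Matrix.cons_val, Pi.zero_apply] at e0 e1 e2
  have hc : c = 1 := by linarith
  rw [hc] at e1 e2
  exact Prod.ext (by linarith) (by linarith)

/-- The hyperbolic type. -/
theorem klein_of_identity (hd : StraightPlane M d) (hσ : CircleIdentity Real.sinh M d) :
    KleinModel M d := by
  obtain ⟨x, hx⟩ := exists_chart hd (hyp_form hd hσ)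
  have hind : ∀ a : Fin 3 → ℝ, (∀ X ∈ M, ∑ i, a i * x X i = 0) → a = 0 := by
    obtain ⟨O, hO, E, hE, G, hG, -, -, vO, vE1, vE2, vG2⟩ := hx.base
    exact base_ind ⟨O, hO, E, hE, G, hG, vO, vE1, vE2, vG2⟩
  obtain ⟨b, ρ, hbρ⟩ := ThalesB.projective_of_lines M hd.isOpen hd.convex hd.nonempty
    (fun i X => x X i) hx.cont hx.pos
    (fun a X hX Y hY hXY h1 h2 Z hZ hl =>
      (sum_expLin hx.explin a).twoPoint hd X hX Y hY hXY h1 h2 Z hZ hl) hind
  obtain ⟨B, hB⟩ : ∃ B : Matrix (Fin 3) (Fin 3) ℝ, B = b := ⟨_, rfl⟩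
  have hρ : ∀ X ∈ M, ∀ i, x X i = ρ X * hom B X i := by
    intro X hX i
    rw [hB]
    exact (hbρ X hX).2 i
  have hpos : ∀ X ∈ M, 0 < ρ X := fun X hX => (hbρ X hX).1
  have hdet : B.det ≠ 0 := det_ne_zero_of hind hρ
  have hw0 : ∀ X ∈ M, 0 < hom B X 0 := by
    intro X hX
    have h1 := hx.pos X hX
    rw [hρ X hX 0] at h1
    exact (pos_iff_pos_of_mul_pos h1).1 (hpos X hX)
  have hself : ∀ X ∈ M, ρ X ^ 2 * (hom B X 0 ^ 2 - hom B X 1 ^ 2 - hom B X 2 ^ 2) = 1 := by
    intro X hX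
    have h1 := hx.cosh X hX X hX
    rw [hd.self X hX, Real.cosh_zero] at h1
    simp only [Lf] at h1
    rw [hρ X hX 0, hρ X hX 1, hρ X hX 2] at h1
    linear_combination -h1
  have hq : ∀ X ∈ M, (1 - ((proj B X).1 ^ 2 + (proj B X).2 ^ 2)) = (1 / (ρ X * hom B X 0)) ^ 2 := by
    intro X hX
    have h1 := hself X hX
    have h2 := (hw0 X hX).ne'
    have h3 := (hpos X hX).ne'
    simp only [proj]
    field_simp
    linear_combination h1
  have hsq : ∀ X ∈ M, Real.sqrt (1 - ((proj B X).1 ^ 2 + (proj B X).2 ^ 2)) =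
      1 / (ρ X * hom B X 0) := by
    intro X hX
    rw [hq X hX]
    apply Real.sqrt_sq
    have h2 := hw0 X hX
    have h3 := hpos X hX
    positivity
  refine ⟨B, hdet, hw0, ⟨?_, ?_, ?_⟩, ?_⟩
  · intro X hX
    have h1 := hq X hX
    have h2 := hw0 X hX
    have h3 := hpos X hX
    have h4 : 0 < (1 / (ρ X * hom B X 0)) ^ 2 := by positivity
    show (proj B X).1 ^ 2 + (proj B X).2 ^ 2 < 1
    linarith
  · intro X hX Y hY hXY
    have e1 := congrArg Prod.fst hXY
    have e2 := congrArg Prod.snd hXY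
    simp only [proj] at e1 e2
    have h1 := (hw0 X hX).ne'
    have h2 := (hw0 Y hY).ne'
    refine hom_inj hdet (c := hom B X 0 / hom B Y 0) ?_
    intro i
    fin_cases i
    · simp only [Fin.zero_eta]
      field_simp
    · simp only [Fin.mk_one]
      field_simp at e1 ⊢
      linear_combination e1
    · simp only [Fin.reduceFinMk]
      field_simp at e2 ⊢
      linear_combination e2
  · intro p hp
    have hp' : p.1 ^ 2 + p.2 ^ 2 < 1 := hp
    obtain ⟨s, hs⟩ : ∃ s, s = Real.sqrt (1 - (p.1 ^ 2 + p.2 ^ 2)) := ⟨_, rfl⟩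
    have hs0 : 0 < s := by rw [hs]; exact Real.sqrt_pos.2 (by linarith)
    have hs2 : s ^ 2 = 1 - (p.1 ^ 2 + p.2 ^ 2) := by rw [hs]; exact Real.sq_sqrt (by linarith)
    obtain ⟨Z, hZ, hZx⟩ := chart_surj hd hx (ξ := ![1 / s, p.1 / s, p.2 / s]) (by
      simp only [Lf, Matrix.cons_val_zero, Matrix.cons_val_one, Matrix.cons_val]
      field_simp
      linear_combination -hs2) (by
      simp only [Matrix.cons_val_zero]
      positivity)
    refine ⟨Z, hZ, ?_⟩
    have e0 := hZx 0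
    have e1 := hZx 1
    have e2 := hZx 2
    rw [hρ Z hZ] at e0 e1 e2
    simp only [Matrix.cons_val_zero, Matrix.cons_val_one, Matrix.cons_val] at e0 e1 e2
    have h1 := (hpos Z hZ).ne'
    have h2 := (hw0 Z hZ).ne'
    have e0' : ρ Z * hom B Z 0 * s = 1 := by rw [e0]; field_simp
    have e1' : ρ Z * hom B Z 1 * s = p.1 := by rw [e1]; field_simp
    have e2' : ρ Z * hom B Z 2 * s = p.2 := by rw [e2]; field_simp
    apply Prod.ext
    · simp only [proj]
      rw [div_eq_iff h2]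
      have : (hom B Z 1 - p.1 * hom B Z 0) * (ρ Z * s) = 0 := by
        linear_combination e1' - p.1 * e0'
      have h3 := (mul_eq_zero.1 this).resolve_right (mul_ne_zero h1 hs0.ne')
      linarith
    · simp only [proj]
      rw [div_eq_iff h2]
      have : (hom B Z 2 - p.2 * hom B Z 0) * (ρ Z * s) = 0 := by
        linear_combination e2' - p.2 * e0'
      have h3 := (mul_eq_zero.1 this).resolve_right (mul_ne_zero h1 hs0.ne')
      linarith
  · intro X hX Y hY
    rw [hx.cosh X hX Y hY, hsq X hX, hsq Y hY]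
    simp only [Lf]
    rw [hρ X hX 0, hρ X hX 1, hρ X hX 2, hρ Y hY 0, hρ Y hY 1, hρ Y hY 2]
    simp only [proj]
    have h1 := (hpos X hX).ne'
    have h2 := (hw0 X hX).ne'
    have h3 := (hpos Y hY).ne'
    have h4 := (hw0 Y hY).ne'
    field_simp
    ring

/-- A positive affine function on the plane is constant. -/
lemma affine_pos_const {p q r : ℝ} (h : ∀ X : ℝ × ℝ, 0 < p + q * X.1 + r * X.2) :
    q = 0 ∧ r = 0 := by
  constructor
  · by_contra hq
    have := h (-(p / q), 0)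
    simp only [mul_zero, add_zero] at this
    have e : p + q * -(p / q) = 0 := by field_simp; ring
    rw [e] at this
    exact lt_irrefl _ this
  · by_contra hr
    have := h (0, -(p / r))
    simp only [mul_zero, add_zero] at this
    have e : p + r * -(p / r) = 0 := by field_simp; ring
    rw [e] at this
    exact lt_irrefl _ this

/-- The parabolic type. -/
theorem euclid_of_identity (hd : StraightPlane univ d) (hσ : CircleIdentity id univ d) :
    EuclideanModel d := by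
  obtain ⟨x, hx⟩ := exists_euclidChart hd (par_form hd hσ)
  have hind : ∀ a : Fin 3 → ℝ, (∀ X ∈ (univ : Set (ℝ × ℝ)), ∑ i, a i * x X i = 0) → a = 0 :=
    base_ind hx.base
  obtain ⟨b, ρ, hbρ⟩ := ThalesB.projective_of_lines univ hd.isOpen hd.convex hd.nonempty
    (fun i X => x X i) hx.cont (fun X _ => by simp only [hx.one X]; exact one_pos)
    (fun a X hX Y hY hXY h1 h2 Z hZ hl =>
      (sum_affLin hx.afflin a).twoPoint hd X hX Y hY hXY h1 h2 Z hZ hl) hind
  have hpos : ∀ X, 0 < ρ X := fun X => (hbρ X (mem_univ X)).1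
  have hρ : ∀ X i, x X i = ρ X * (b i 0 + b i 1 * X.1 + b i 2 * X.2) :=
    fun X => (hbρ X (mem_univ X)).2
  have hw0 : ∀ X : ℝ × ℝ, 0 < b 0 0 + b 0 1 * X.1 + b 0 2 * X.2 := by
    intro X
    have h1 := hρ X 0
    rw [hx.one X] at h1
    have h2 : 0 < ρ X * (b 0 0 + b 0 1 * X.1 + b 0 2 * X.2) := by rw [← h1]; exact one_pos
    exact (pos_iff_pos_of_mul_pos h2).1 (hpos X)
  obtain ⟨hb1, hb2⟩ := affine_pos_const hw0
  have hb0 : 0 < b 0 0 := by
    have := hw0 (0, 0)
    simpa using this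
  have hρc : ∀ X, ρ X = 1 / b 0 0 := by
    intro X
    have h1 := hρ X 0
    rw [hx.one X, hb1, hb2] at h1
    rw [eq_div_iff hb0.ne']
    linarith
  obtain ⟨f, hf⟩ : ∃ f : (ℝ × ℝ) →ₗ[ℝ] EuclideanSpace ℝ (Fin 2), ∀ X : ℝ × ℝ,
      f X = WithLp.toLp 2 ![(b 1 1 * X.1 + b 1 2 * X.2) / b 0 0,
        (b 2 1 * X.1 + b 2 2 * X.2) / b 0 0] := by
    refine ⟨{ toFun := fun X => WithLp.toLp 2 ![(b 1 1 * X.1 + b 1 2 * X.2) / b 0 0,
        (b 2 1 * X.1 + b 2 2 * X.2) / b 0 0], map_add' := ?_, map_smul' := ?_ }, fun X => rfl⟩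
    · intro X Y
      ext i
      fin_cases i
      · simp; ring
      · simp; ring
    · intro c X
      ext i
      fin_cases i
      · simp; ring
      · simp; ring
  have hdist : ∀ X Y, d X Y = dist (f X) (f Y) := by
    intro X Y
    have h1 := hx.dist X (mem_univ X) Y (mem_univ Y)
    rw [hρ X 1, hρ X 2, hρ Y 1, hρ Y 2, hρc, hρc] at h1
    have h0 : 0 ≤ d X Y := by
      by_cases hXY : X = Y
      · rw [hXY, hd.self Y (mem_univ Y)]
      · exact (hd.pos X (mem_univ X) Y (mem_univ Y) hXY).le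
    rw [EuclideanSpace.dist_eq, hf, hf]
    simp only [Fin.sum_univ_two, Real.dist_eq, sq_abs]
    rw [← Real.sqrt_sq h0, h1]
    congr 1
    simp only [Matrix.cons_val_zero, Matrix.cons_val_one]
    field_simp
    ring
  have hinj : Function.Injective f := by
    intro X Y hXY
    by_contra hne
    have h1 := hd.pos X (mem_univ X) Y (mem_univ Y) hne
    rw [hdist, hXY, dist_self] at h1
    exact lt_irrefl _ h1
  refine ⟨LinearEquiv.ofInjectiveOfFinrankEq f hinj (by simp), fun X Y => ?_⟩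
  rw [hdist]
  rfl

end Pool.Agent.Helper87.Thales
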