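import Pool.Agent.Helper87.ThalesHyp

set_option autoImplicit false

namespace Pool.Agent.Helper87.Thales

open Set

variable {M : Set (ℝ × ℝ)} {d : ℝ × ℝ → ℝ × ℝ → ℝ}

/-- Functions which along every line are affine in the arc length. -/
def AffLin (M : Set (ℝ × ℝ)) (d : ℝ × ℝ → ℝ × ℝ → ℝ) (F : ℝ × ℝ → ℝ) : Prop :=
  ∀ γ, IsLine M d γ → ∃ α β : ℝ, ∀ u, F (γ u) = α + β * u

lemma AffLin.add {F G : ℝ × ℝ → ℝ} (hF : AffLin M d F) (hG : AffLin M d G) :
    AffLin M d (fun X => F X + G X) := by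
  intro γ hγ
  obtain ⟨a, b, h⟩ := hF γ hγ
  obtain ⟨a', b', h'⟩ := hG γ hγ
  exact ⟨a + a', b + b', fun u => by simp only [h, h']; ring⟩

lemma AffLin.smul {F : ℝ × ℝ → ℝ} (hF : AffLin M d F) (c : ℝ) :
    AffLin M d (fun X => c * F X) := by
  intro γ hγ
  obtain ⟨a, b, h⟩ := hF γ hγ
  exact ⟨c * a, c * b, fun u => by simp only [h]; ring⟩

lemma AffLin.const (c : ℝ) : AffLin M d (fun _ => c) := fun γ _ => ⟨c, 0, fun u => by ring⟩

lemma AffLin.twoPoint (hd : StraightPlane M d) {F : ℝ × ℝ → ℝ} (hF : AffLin M d F) :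
    TwoPoint M F := by
  intro X hX Y hY hXY h1 h2 Z hZ hZl
  obtain ⟨γ, hγ, g0, g1, hr⟩ := line_param hd hX hY hXY
  obtain ⟨α, β, h⟩ := hF γ hγ
  have hZr : Z ∈ range γ := by rw [hr]; exact ⟨hZ, hZl⟩
  obtain ⟨u, rfl⟩ := hZr
  have hne : d X Y ≠ 0 := (hd.pos X hX Y hY hXY).ne'
  have h3 := h 0
  rw [g0, h1] at h3
  have h4 := h (d X Y)
  rw [g1, h2] at h4
  have ha : α = 0 := by linarith
  rw [ha, zero_add] at h4
  have hb : β = 0 := (mul_eq_zero.1 h4.symm).resolve_right hne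
  rw [h u, ha, hb]; ring

/-- The polarised square of the distance. -/
noncomputable def bb (d : ℝ × ℝ → ℝ × ℝ → ℝ) (O X Y : ℝ × ℝ) : ℝ :=
  (d O X ^ 2 + d O Y ^ 2 - d X Y ^ 2) / 2

variable (hd : StraightPlane M d)
  (hform : ∀ P ∈ M, ∀ γ, IsLine M d γ → ∃ a b : ℝ, ∀ u, d P (γ u) ^ 2 = u ^ 2 + a * u + b)

include hd hform in
lemma bb_affLin {O Y : ℝ × ℝ} (hO : O ∈ M) (hY : Y ∈ M) : AffLin M d (fun X => bb d O X Y) := by
  intro γ hγ
  obtain ⟨a, b, h⟩ := hform O hO γ hγ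
  obtain ⟨a', b', h'⟩ := hform Y hY γ hγ
  refine ⟨(b - b' + d O Y ^ 2) / 2, (a - a') / 2, fun u => ?_⟩
  simp only [bb]
  rw [hd.symm _ (hγ.mem u) Y hY, h, h']
  ring

/-- The package of Euclidean coordinates. -/
structure EuclidChart (M : Set (ℝ × ℝ)) (d : ℝ × ℝ → ℝ × ℝ → ℝ) (x : ℝ × ℝ → Fin 3 → ℝ) :
    Prop where
  afflin : ∀ i, AffLin M d (fun X => x X i)
  one : ∀ X, x X 0 = 1
  dist : ∀ X ∈ M, ∀ Y ∈ M, d X Y ^ 2 = (x X 1 - x Y 1) ^ 2 + (x X 2 - x Y 2) ^ 2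
  cont : ∀ i, ContinuousOn (fun X => x X i) M
  base : ∃ O ∈ M, ∃ E ∈ M, ∃ G ∈ M, x O = ![1, 0, 0] ∧ 0 < x E 1 ∧ x E 2 = 0 ∧ 0 < x G 2

include hd hform in
lemma exists_euclidChart : ∃ x, EuclidChart M d x := by
  obtain ⟨O, hO, E, hE, G, hG, hdet⟩ := exists_triple hd
  have hOE : O ≠ E := by rintro rfl; apply hdet; simp [det3]
  have hOG : O ≠ G := by rintro rfl; apply hdet; simp [det3]
  obtain ⟨a, ha⟩ : ∃ a, a = d O E := ⟨_, rfl⟩
  obtain ⟨b, hb⟩ : ∃ b, b = d O G := ⟨_, rfl⟩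
  obtain ⟨c, hc⟩ : ∃ c, c = d E G := ⟨_, rfl⟩
  have ha0 : 0 < a := by rw [ha]; exact hd.pos O hO E hE hOE
  have hb0 : 0 < b := by rw [hb]; exact hd.pos O hO G hG hOG
  have t1 : c < a + b := by
    have := strict_triangle hd hE hO hG (by
      intro h; apply hdet
      have : det3 O E G = -det3 E O G := by simp only [det3]; ring
      rw [this, h, neg_zero])
    rw [hd.symm E hE O hO] at this
    rw [ha, hb, hc]; exact this
  have t2 : a < b + c := by
    have := strict_triangle hd hO hG hE (by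
      intro h; apply hdet
      have : det3 O E G = -det3 O G E := by simp only [det3]; ring
      rw [this, h, neg_zero])
    rw [hd.symm G hG E hE] at this
    rw [ha, hb, hc]; exact this
  have t3 : b < a + c := by
    have := strict_triangle hd hO hE hG hdet
    rw [ha, hb, hc]; exact this
  obtain ⟨g, hg⟩ : ∃ g, g = bb d O E G := ⟨_, rfl⟩
  have hgv : g = (a ^ 2 + b ^ 2 - c ^ 2) / 2 := by rw [hg, bb, ha, hb, hc]
  have hgram : 0 < b ^ 2 - g ^ 2 / a ^ 2 := by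
    have hc0 : 0 < c := by linarith
    have h1 : g < a * b := by rw [hgv]; nlinarith [mul_pos (sub_pos.2 t2) (sub_pos.2 t3)]
    have h2 : -(a * b) < g := by
      rw [hgv]; nlinarith [mul_pos (sub_pos.2 t1) (add_pos (add_pos ha0 hb0) hc0)]
    have h3 : g ^ 2 < (a * b) ^ 2 := by
      rw [sq_lt_sq, abs_of_pos (mul_pos ha0 hb0), abs_lt]
      exact ⟨h2, h1⟩
    rw [sub_pos, div_lt_iff₀ (by positivity)]
    linarith
  obtain ⟨S, hS⟩ : ∃ S, S = Real.sqrt (b ^ 2 - g ^ 2 / a ^ 2) := ⟨_, rfl⟩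
  have hSpos : 0 < S := by rw [hS]; exact Real.sqrt_pos.2 hgram
  have hSsq : S ^ 2 = b ^ 2 - g ^ 2 / a ^ 2 := by rw [hS]; exact Real.sq_sqrt hgram.le
  have sym : ∀ X ∈ M, ∀ Y ∈ M, bb d O X Y = bb d O Y X := by
    intro X hX Y hY
    simp only [bb]
    rw [hd.symm X hX Y hY]; ring
  have bOX : ∀ X ∈ M, bb d O O X = 0 := by
    intro X hX
    simp only [bb]
    rw [hd.self O hO]; ring
  have bEE : bb d O E E = a ^ 2 := by simp only [bb]; rw [hd.self E hE, ← ha]; ring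
  have bGG : bb d O G G = b ^ 2 := by simp only [bb]; rw [hd.self G hG, ← hb]; ring
  have bGE : bb d O G E = g := by rw [sym G hG E hE, hg]
  obtain ⟨y1, hy1⟩ : ∃ y1 : ℝ × ℝ → ℝ, y1 = fun X => (1 / a) * bb d O X E := ⟨_, rfl⟩
  obtain ⟨y2, hy2⟩ : ∃ y2 : ℝ × ℝ → ℝ, y2 = fun X =>
      (1 / S) * (bb d O X G + (-(g / a ^ 2)) * bb d O X E) := ⟨_, rfl⟩
  have A1 : AffLin M d y1 := by rw [hy1]; exact (bb_affLin hd hform hO hE).smul _
  have A2 : AffLin M d y2 := by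
    rw [hy2]
    exact ((bb_affLin hd hform hO hG).add ((bb_affLin hd hform hO hE).smul _)).smul _
  have v1O : y1 O = 0 := by rw [hy1]; simp only [bOX E hE, mul_zero]
  have v2O : y2 O = 0 := by rw [hy2]; simp only [bOX E hE, bOX G hG, mul_zero, add_zero]
  have v1E : y1 E = a := by rw [hy1]; simp only [bEE]; field_simp
  have v2E : y2 E = 0 := by rw [hy2]; simp only [bEE, ← hg]; field_simp; ring
  have v1G : y1 G = g / a := by rw [hy1]; simp only [bGE]; ring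
  have v2G : y2 G = S := by
    rw [hy2]; simp only [bGG, bGE]
    have : b ^ 2 + -(g / a ^ 2) * g = S ^ 2 := by rw [hSsq]; ring
    rw [this]; field_simp
  have d1 : ∀ Y, y1 Y * a = bb d O Y E := by intro Y; rw [hy1]; field_simp
  have d2 : ∀ Y, y2 Y * S = bb d O Y G - (g / a) * y1 Y := by
    intro Y; rw [hy2, hy1]; field_simp; ring
  have key : ∀ X ∈ M, ∀ Y ∈ M, bb d O X Y = y1 X * y1 Y + y2 X * y2 Y := by
    intro X hX Y hY
    have hF : AffLin M d (fun Z => y1 Y * y1 Z + y2 Y * y2 Z + (-1) * bb d O Z Y) :=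
      ((A1.smul _).add (A2.smul _)).add ((bb_affLin hd hform hO hY).smul _)
    have hker := kernel hd.convex (hF.twoPoint hd) hO hE hG hdet ?_ ?_ ?_ X hX
    · linarith
    · rw [v1O, v2O, bOX Y hY]; ring
    · rw [v1E, v2E, sym E hE Y hY]
      linear_combination d1 Y
    · rw [v1G, v2G, sym G hG Y hY]
      linear_combination d2 Y
  have bc : ∀ P ∈ M, ContinuousOn (fun X => bb d O X P) M := by
    intro P hP
    have h1 : ContinuousOn (fun X : ℝ × ℝ => d O X) M := by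
      have h : ContinuousOn (fun X : ℝ × ℝ => (O, X)) M := by fun_prop
      exact hd.cont.comp h (fun X hX => ⟨hO, hX⟩)
    have h2 : ContinuousOn (fun X : ℝ × ℝ => d X P) M := by
      have h : ContinuousOn (fun X : ℝ × ℝ => (X, P)) M := by fun_prop
      exact hd.cont.comp h (fun X hX => ⟨hX, hP⟩)
    simp only [bb]
    fun_prop
  refine ⟨fun X => ![1, y1 X, y2 X], ⟨?_, fun X => rfl, ?_, ?_, O, hO, E, hE, G, hG, ?_, ?_, ?_, ?_⟩⟩
  · intro i
    fin_cases i
    · exact AffLin.const 1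
    · exact A1
    · exact A2
  · intro X hX Y hY
    change d X Y ^ 2 = (y1 X - y1 Y) ^ 2 + (y2 X - y2 Y) ^ 2
    have k1 := key X hX Y hY
    have k2 := key X hX X hX
    have k3 := key Y hY Y hY
    have e1 : bb d O X X = d O X ^ 2 := by simp only [bb]; rw [hd.self X hX]; ring
    have e2 : bb d O Y Y = d O Y ^ 2 := by simp only [bb]; rw [hd.self Y hY]; ring
    have e3 : d X Y ^ 2 = d O X ^ 2 + d O Y ^ 2 - 2 * bb d O X Y := by simp only [bb]; ring
    rw [e3, ← e1, ← e2, k1, k2, k3]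
    ring
  · intro i
    fin_cases i
    · exact continuousOn_const
    · change ContinuousOn (fun X => y1 X) M
      rw [hy1]
      exact continuousOn_const.mul (bc E hE)
    · change ContinuousOn (fun X => y2 X) M
      rw [hy2]
      exact continuousOn_const.mul ((bc G hG).add (continuousOn_const.mul (bc E hE)))
  · simp only [v1O, v2O]
  · change 0 < y1 E
    rw [v1E]; exact ha0
  · exact v2E
  · change 0 < y2 G
    rw [v2G]; exact hSpos

end Pool.Agent.Helper87.Thales
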