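import Pool.Agent.Helper87.ThalesStraight

set_option autoImplicit false

namespace Pool.Agent.Helper87.Thales

open Set

/-- The Euclidean distance. -/
noncomputable def euclidDist (X Y : ℝ × ℝ) : ℝ :=
  Real.sqrt ((X.1 - Y.1) ^ 2 + (X.2 - Y.2) ^ 2)

/-- Passage to the Euclidean space. -/
noncomputable def toE (X : ℝ × ℝ) : EuclideanSpace ℝ (Fin 2) := WithLp.toLp 2 ![X.1, X.2]

lemma euclidDist_eq (X Y : ℝ × ℝ) : euclidDist X Y = dist (toE X) (toE Y) := by
  rw [EuclideanSpace.dist_eq, euclidDist]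
  simp only [Fin.sum_univ_two, Real.dist_eq, sq_abs]
  rfl

lemma toE_inj {X Y : ℝ × ℝ} (h : toE X = toE Y) : X = Y := by
  have h0 := congrFun (congrArg WithLp.ofLp h) 0
  have h1 := congrFun (congrArg WithLp.ofLp h) 1
  exact Prod.ext h0 h1

lemma toE_line (X Y : ℝ × ℝ) (t : ℝ) :
    toE (AffineMap.lineMap X Y t) = AffineMap.lineMap (toE X) (toE Y) t := by
  rw [AffineMap.lineMap_apply_module, AffineMap.lineMap_apply_module]
  ext i
  fin_cases i
  · simp [toE]
  · simp [toE]

/-- The Euclidean plane satisfies the hypotheses. -/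
lemma euclid_plane : StraightPlane univ euclidDist := by
  refine ⟨isOpen_univ, convex_univ, univ_nonempty, ?_, ?_, ?_, ?_, ?_, ?_, ?_⟩
  · intro X _
    simp [euclidDist]
  · intro X _ Y _ hXY
    rw [euclidDist_eq]
    exact dist_pos.2 (fun h => hXY (toE_inj h))
  · intro X _ Y _
    rw [euclidDist_eq, euclidDist_eq, dist_comm]
  · intro X _ Y _ Z _
    rw [euclidDist_eq, euclidDist_eq, euclidDist_eq]
    exact dist_triangle _ _ _
  · apply Continuous.continuousOn
    simp only [euclidDist]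
    fun_prop
  · intro X _ Y _ hXY
    have hpos : 0 < euclidDist X Y := by
      rw [euclidDist_eq]
      exact dist_pos.2 (fun h => hXY (toE_inj h))
    refine ⟨fun s => AffineMap.lineMap X Y (s / euclidDist X Y), ?_, ?_⟩
    · intro s t
      rw [euclidDist_eq, toE_line, toE_line, dist_lineMap_lineMap, ← euclidDist_eq, Real.dist_eq,
        ← sub_div, abs_div, abs_of_pos hpos]
      field_simp
    · ext Z
      simp only [mem_range, univ_inter, SetLike.mem_coe]
      rw [mem_affineSpan_pair_iff_exists_lineMap_eq]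
      constructor
      · rintro ⟨s, h⟩
        exact ⟨_, h⟩
      · rintro ⟨r, h⟩
        exact ⟨r * euclidDist X Y, by rw [mul_div_cancel_right₀ _ hpos.ne']; exact h⟩
  · intro X _ Y _ Z _ h
    rw [euclidDist_eq, euclidDist_eq, euclidDist_eq, dist_add_dist_eq_iff] at h
    obtain ⟨t, ht, e⟩ := h
    rw [← toE_line] at e
    rw [segment_eq_image_lineMap]
    exact ⟨t, ht, toE_inj e⟩

/-- The Euclidean plane satisfies the circle identity. -/
lemma euclid_identity : CircleIdentity id univ euclidDist := by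
  intro O _ r hr A _ B _ P _ hA hB hO hP _
  obtain ⟨a, b, ha, hb, hab, e⟩ := hO
  have e1 := congrArg Prod.fst e
  have e2 := congrArg Prod.snd e
  simp only [Prod.fst_add, Prod.smul_fst, smul_eq_mul, Prod.snd_add, Prod.smul_snd] at e1 e2
  have sA : (O.1 - A.1) ^ 2 + (O.2 - A.2) ^ 2 = r ^ 2 := by
    rw [← hA, euclidDist, Real.sq_sqrt (by positivity)]
  have sB : (O.1 - B.1) ^ 2 + (O.2 - B.2) ^ 2 = r ^ 2 := by
    rw [← hB, euclidDist, Real.sq_sqrt (by positivity)]
  have sP : (O.1 - P.1) ^ 2 + (O.2 - P.2) ^ 2 = r ^ 2 := by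
    rw [← hP, euclidDist, Real.sq_sqrt (by positivity)]
  have hba : b = 1 - a := by linarith
  have f1 : O.1 - A.1 = b * (B.1 - A.1) := by rw [← e1, hba]; ring
  have f2 : O.2 - A.2 = b * (B.2 - A.2) := by rw [← e2, hba]; ring
  have g1 : O.1 - B.1 = -(a * (B.1 - A.1)) := by rw [← e1, hba]; ring
  have g2 : O.2 - B.2 = -(a * (B.2 - A.2)) := by rw [← e2, hba]; ring
  have hD : 0 < (B.1 - A.1) ^ 2 + (B.2 - A.2) ^ 2 := by
    have : 0 < b ^ 2 * ((B.1 - A.1) ^ 2 + (B.2 - A.2) ^ 2) := by
      have h : b ^ 2 * ((B.1 - A.1) ^ 2 + (B.2 - A.2) ^ 2) = r ^ 2 := by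
        rw [← sA, f1, f2]; ring
      rw [h]; positivity
    exact (pos_iff_pos_of_mul_pos this).1 (by positivity)
  have hab2 : a = b := by
    have h : (a ^ 2 - b ^ 2) * ((B.1 - A.1) ^ 2 + (B.2 - A.2) ^ 2) = 0 := by
      have h1 : a ^ 2 * ((B.1 - A.1) ^ 2 + (B.2 - A.2) ^ 2) = r ^ 2 := by
        rw [← sB, g1, g2]; ring
      have h2 : b ^ 2 * ((B.1 - A.1) ^ 2 + (B.2 - A.2) ^ 2) = r ^ 2 := by
        rw [← sA, f1, f2]; ring
      linarith
    have h3 := (mul_eq_zero.1 h).resolve_right hD.ne'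
    have h4 : (a - b) * (a + b) = 0 := by linear_combination h3
    rw [hab, mul_one] at h4
    linarith
  have m1 : A.1 = 2 * O.1 - B.1 := by
    have : a = 1 / 2 := by linarith
    rw [this] at e1
    have hb2 : b = 1 / 2 := by linarith
    rw [hb2] at e1
    linarith
  have m2 : A.2 = 2 * O.2 - B.2 := by
    have : a = 1 / 2 := by linarith
    rw [this] at e2
    have hb2 : b = 1 / 2 := by linarith
    rw [hb2] at e2
    linarith
  simp only [id]
  rw [div_pow, div_pow, euclidDist, euclidDist, Real.sq_sqrt (by positivity),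
    Real.sq_sqrt (by positivity), m1, m2]
  linear_combination (1 / 2) * sB + (1 / 2) * sP

end Pool.Agent.Helper87.Thales
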