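import Pool.Agent.Helper87.ThalesEllK4

set_option autoImplicit false

open Real Filter Topology

namespace Pool.Agent.Helper87.Elliptic

/-- The metric of curvature one on the projective plane. -/
noncomputable def stdDist (v w : E3) : ℝ :=
  min (InnerProductGeometry.angle v w) (π - InnerProductGeometry.angle v w)

open InnerProductGeometry in
theorem std_smul (v w : E3) (a : ℝ) (ha : a ≠ 0) : stdDist (a • v) w = stdDist v w := by
  unfold stdDist
  rcases lt_or_gt_of_ne ha with h | h
  · rw [angle_smul_left_of_neg v w h, angle_neg_left]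
    rw [show π - (π - angle v w) = angle v w by ring, min_comm]
  · rw [angle_smul_left_of_pos v w h]

open InnerProductGeometry in
theorem std_symm (v w : E3) : stdDist v w = stdDist w v := by
  unfold stdDist
  rw [angle_comm]

open InnerProductGeometry in
theorem std_tri (u v w : E3) : stdDist u w ≤ stdDist u v + stdDist v w := by
  unfold stdDist
  have h1 := angle_le_angle_add_angle u v w
  have h2 := angle_le_angle_add_angle (-u) v w
  have h3 := angle_le_angle_add_angle u v (-w)
  have h4 := angle_le_angle_add_angle u (-v) w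
  rw [angle_neg_left, angle_neg_left] at h2
  rw [angle_neg_right, angle_neg_right] at h3
  rw [angle_neg_right, angle_neg_left] at h4
  rcases min_choice (angle u v) (π - angle u v) with h | h <;>
  rcases min_choice (angle v w) (π - angle v w) with h' | h' <;> rw [h, h']
  · exact (min_le_left _ _).trans h1
  · exact (min_le_right _ _).trans h3
  · exact (min_le_right _ _).trans h2
  · exact (min_le_left _ _).trans h4

open InnerProductGeometry in
theorem std_pos (v w : E3) (h : LinearIndependent ℝ ![v, w]) : 0 < stdDist v w := by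
  have hv : v ≠ 0 := h.ne_zero 0
  have hw : w ≠ 0 := h.ne_zero 1
  rw [LinearIndependent.pair_iff' hv] at h
  unfold stdDist
  apply lt_min
  · rcases (angle_nonneg v w).lt_or_eq with h1 | h1
    · exact h1
    · exfalso
      obtain ⟨-, r, hr, hr2⟩ := angle_eq_zero_iff.1 h1.symm
      exact h r hr2.symm
  · rcases (angle_le_pi v w).lt_or_eq with h1 | h1
    · linarith
    · exfalso
      obtain ⟨-, r, hr, hr2⟩ := angle_eq_pi_iff.1 h1
      exact h r hr2.symm

open InnerProductGeometry in
theorem std_cont : ContinuousOn (fun p : E3 × E3 => stdDist p.1 p.2) {p | p.1 ≠ 0 ∧ p.2 ≠ 0} := by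
  intro p hp
  have h : ContinuousAt (fun p : E3 × E3 => angle p.1 p.2) p := continuousAt_angle hp.1 hp.2
  have h2 : ContinuousAt (fun p : E3 × E3 => π - angle p.1 p.2) p := continuousAt_const.sub h
  have h3 : ContinuousAt (fun p : E3 × E3 => min (angle p.1 p.2) (π - angle p.1 p.2)) p :=
    Filter.Tendsto.min h h2
  exact h3.continuousWithinAt

/-- the angle function -/
theorem angle_fun (α β γ : ℝ) (hα : 0 < α) (hγ : 0 < γ) :
    ∃ θ : ℝ → ℝ, Continuous θ ∧ StrictMono θ ∧ (∀ t, θ (t + π) = θ t + π) ∧
      ∀ t, ∃ ρ : ℝ, 0 < ρ ∧ cos (θ t) = ρ * (α * cos t + β * sin t) ∧ sin (θ t) = ρ * (γ * sin t) := by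
  let g : ℝ → ℂ := fun t => ⟨α * cos t + β * sin t, γ * sin t⟩
  let h : ℝ → ℂ := fun t => g t * Complex.exp (-(t * Complex.I))
  have hgc : Continuous g := by
    have : g = fun t : ℝ => ((α * cos t + β * sin t : ℝ) : ℂ) + ((γ * sin t : ℝ) : ℂ) * Complex.I := by
      funext t
      exact Complex.mk_eq_add_mul_I _ _
    rw [this]
    fun_prop
  have hhc : Continuous h := by
    apply hgc.mul
    fun_prop
  have hre : ∀ t, (h t).re = (α * cos t + β * sin t) * cos t + γ * sin t * sin t := by
    intro t
    simp only [h, g, Complex.mul_re]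
    rw [show -((t : ℂ) * Complex.I) = ((-t : ℝ) : ℂ) * Complex.I by push_cast; ring]
    rw [Complex.exp_ofReal_mul_I_re, Complex.exp_ofReal_mul_I_im, cos_neg, sin_neg]
    ring
  have him : ∀ t, (h t).im = γ * sin t * cos t - (α * cos t + β * sin t) * sin t := by
    intro t
    simp only [h, g, Complex.mul_im]
    rw [show -((t : ℂ) * Complex.I) = ((-t : ℝ) : ℂ) * Complex.I by push_cast; ring]
    rw [Complex.exp_ofReal_mul_I_re, Complex.exp_ofReal_mul_I_im, cos_neg, sin_neg]
    ring
  have hslit : ∀ t, h t ∈ Complex.slitPlane := by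
    intro t
    rw [Complex.mem_slitPlane_iff]
    by_cases hi : (h t).im = 0
    · left
      rw [hre]
      rw [him] at hi
      have h1 := sin_sq_add_cos_sq t
      have h2 : sin t * ((γ - α) * cos t - β * sin t) = 0 := by linarith
      rcases mul_eq_zero.1 h2 with h3 | h3
      · have h4 : cos t ^ 2 = 1 := by rw [h3] at h1; linarith
        rw [h3]
        have : (α * cos t + β * 0) * cos t + γ * 0 * 0 = α * cos t ^ 2 := by ring
        rw [this, h4]
        linarith
      · have h4 : β * sin t = (γ - α) * cos t := by linarith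
        have : (α * cos t + β * sin t) * cos t + γ * sin t * sin t = γ := by
          rw [h4]
          have : (α * cos t + (γ - α) * cos t) * cos t + γ * sin t * sin t
            = γ * (sin t ^ 2 + cos t ^ 2) := by ring
          rw [this, h1, mul_one]
        rw [this]
        exact hγ
    · right
      exact hi
  have hne : ∀ t, h t ≠ 0 := fun t => Complex.slitPlane_ne_zero (hslit t)
  have hper : ∀ t, h (t + π) = h t := by
    intro t
    apply Complex.ext
    · rw [hre, hre, cos_add_pi, sin_add_pi]; ring
    · rw [him, him, cos_add_pi, sin_add_pi]; ring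
  let θ : ℝ → ℝ := fun t => t + (h t).arg
  have hθc : Continuous θ := by
    rw [continuous_iff_continuousAt]
    intro t
    apply ContinuousAt.add continuousAt_id
    exact (Complex.continuousAt_arg (hslit t)).comp hhc.continuousAt
  have hθp : ∀ t, θ (t + π) = θ t + π := by
    intro t
    simp only [θ, hper]
    ring
  have hkey : ∀ t, ∃ ρ : ℝ, 0 < ρ ∧ cos (θ t) = ρ * (α * cos t + β * sin t) ∧
      sin (θ t) = ρ * (γ * sin t) := by
    intro t
    have hn : 0 < ‖h t‖ := norm_pos_iff.2 (hne t)
    refine ⟨‖h t‖⁻¹, inv_pos.2 hn, ?_⟩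
    have h1 := sin_sq_add_cos_sq t
    simp only [θ]
    rw [cos_add, sin_add, Complex.cos_arg (hne t), Complex.sin_arg, hre, him]
    constructor
    · have : cos t * (((α * cos t + β * sin t) * cos t + γ * sin t * sin t) / ‖h t‖) -
        sin t * ((γ * sin t * cos t - (α * cos t + β * sin t) * sin t) / ‖h t‖) =
         (sin t ^ 2 + cos t ^ 2) * (‖h t‖⁻¹ * (α * cos t + β * sin t)) := by
        rw [div_eq_mul_inv, div_eq_mul_inv]
        ring
      rw [this, h1, one_mul]
    · have : sin t * (((α * cos t + β * sin t) * cos t + γ * sin t * sin t) / ‖h t‖) +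
        cos t * ((γ * sin t * cos t - (α * cos t + β * sin t) * sin t) / ‖h t‖) =
         (sin t ^ 2 + cos t ^ 2) * (‖h t‖⁻¹ * (γ * sin t)) := by
        rw [div_eq_mul_inv, div_eq_mul_inv]
        ring
      rw [this, h1, one_mul]
  have hinj : Function.Injective θ := by
    intro s t hst
    obtain ⟨ρ, hρ, h1, h2⟩ := hkey s
    obtain ⟨σ, hσ, h3, h4⟩ := hkey t
    rw [hst] at h1 h2
    have e1 : ρ * sin s = σ * sin t := by
      have : γ * (ρ * sin s) = γ * (σ * sin t) := by linarith
      exact mul_left_cancel₀ hγ.ne' this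
    have e2 : ρ * cos s = σ * cos t := by
      have h5 : ρ * (α * cos s + β * sin s) = σ * (α * cos t + β * sin t) := by linarith
      have : α * (ρ * cos s) = α * (σ * cos t) := by
        have : ρ * (β * sin s) = σ * (β * sin t) := by
          have := congrArg (fun x => β * x) e1
          linarith [this]
        linarith
      exact mul_left_cancel₀ hα.ne' this
    have e3 : ρ = σ := by
      have : ρ ^ 2 = σ ^ 2 := by
        calc ρ ^ 2 = (ρ * sin s) ^ 2 + (ρ * cos s) ^ 2 := by
              rw [mul_pow, mul_pow, ← mul_add, sin_sq_add_cos_sq, mul_one]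
          _ = (σ * sin t) ^ 2 + (σ * cos t) ^ 2 := by rw [e1, e2]
          _ = σ ^ 2 := by rw [mul_pow, mul_pow, ← mul_add, sin_sq_add_cos_sq, mul_one]
      nlinarith
    subst e3
    have e4 : sin s = sin t := mul_left_cancel₀ hρ.ne' e1
    have e5 : cos s = cos t := mul_left_cancel₀ hρ.ne' e2
    have e6 : h s = h t := by
      apply Complex.ext
      · rw [hre, hre, e4, e5]
      · rw [him, him, e4, e5]
    have : θ s = θ t := hst
    simp only [θ, e6] at this
    linarith
  refine ⟨θ, hθc, ?_, hθp, hkey⟩
  rcases hθc.strictMono_of_inj hinj with hm | hm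
  · exact hm
  · exfalso
    have := hm (show (0 : ℝ) < 0 + π by linarith [pi_pos])
    rw [hθp] at this
    linarith [pi_pos]

open InnerProductGeometry in
theorem std_circle (e f : E3) (he : ‖e‖ = 1) (hf : ‖f‖ = 1) (hef : inner ℝ e f = 0) (s t : ℝ)
    (hst : |s - t| ≤ π / 2) :
    stdDist (cos s • e + sin s • f) (cos t • e + sin t • f) = |s - t| := by
  have hfe : inner ℝ f e = 0 := by rw [real_inner_comm]; exact hef
  have hee : inner ℝ e e = 1 := by rw [real_inner_self_eq_norm_sq, he]; norm_num
  have hff : inner ℝ f f = 1 := by rw [real_inner_self_eq_norm_sq, hf]; norm_num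
  have hin : ∀ s t : ℝ, inner ℝ (cos s • e + sin s • f) (cos t • e + sin t • f) = cos (s - t) := by
    intro s t
    rw [inner_add_left, inner_add_right, inner_add_right]
    simp only [real_inner_smul_left, real_inner_smul_right, hef, hfe, hee, hff]
    rw [cos_sub]
    ring
  have hnorm : ∀ s : ℝ, ‖cos s • e + sin s • f‖ = 1 := by
    intro s
    have h1 : ‖cos s • e + sin s • f‖ ^ 2 = 1 := by
      rw [← real_inner_self_eq_norm_sq, hin, sub_self, cos_zero]
    have h2 := norm_nonneg (cos s • e + sin s • f)
    nlinarith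
  have hang : angle (cos s • e + sin s • f) (cos t • e + sin t • f) = |s - t| := by
    unfold angle
    rw [hnorm, hnorm, hin, mul_one, div_one, ← cos_abs]
    exact arccos_cos (abs_nonneg _) (by linarith [pi_pos])
  unfold stdDist
  rw [hang]
  apply min_eq_left
  linarith

theorem std_line (v w : E3) (h : LinearIndependent ℝ ![v, w]) :
    ∃ θ : ℝ → ℝ, Continuous θ ∧ StrictMono θ ∧
    (∀ t, θ (t + π) = θ t + π) ∧ ∀ s t, |s - t| ≤ π / 2 →
      stdDist (cos (θ s) • v + sin (θ s) • w) (cos (θ t) • v + sin (θ t) • w) = |s - t| := by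
  have hv : v ≠ 0 := h.ne_zero 0
  have hvn : 0 < ‖v‖ := norm_pos_iff.2 hv
  have h' := h
  rw [LinearIndependent.pair_iff' hv] at h'
  -- orthonormal basis
  set e : E3 := ‖v‖⁻¹ • v with he
  have hen : ‖e‖ = 1 := by
    rw [he, norm_smul, norm_inv, norm_norm, inv_mul_cancel₀ hvn.ne']
  set p : ℝ := inner ℝ e w with hp
  have hq : w - p • e ≠ 0 := by
    intro h0
    apply h' (p * ‖v‖⁻¹)
    rw [mul_smul, ← he]
    exact (sub_eq_zero.1 h0).symm
  have hqn : 0 < ‖w - p • e‖ := norm_pos_iff.2 hq
  set q : ℝ := ‖w - p • e‖ with hqdef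
  set f : E3 := q⁻¹ • (w - p • e) with hf
  have hfn : ‖f‖ = 1 := by
    rw [hf, norm_smul, norm_inv, Real.norm_of_nonneg hqn.le, ← hqdef, inv_mul_cancel₀ hqn.ne']
  have hee : inner ℝ e e = 1 := by rw [real_inner_self_eq_norm_sq, hen]; norm_num
  have hef : inner ℝ e f = 0 := by
    rw [hf, real_inner_smul_right, inner_sub_right, real_inner_smul_right, hee, ← hp]
    ring
  obtain ⟨θ, hc, hm, hper, hθ⟩ := angle_fun ‖v‖⁻¹ (-(q⁻¹ * p * ‖v‖⁻¹)) q⁻¹ (inv_pos.2 hvn)
    (inv_pos.2 hqn)
  have hne : ∀ t, cos t • e + sin t • f ≠ 0 := by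
    intro t h0
    have h1 : inner ℝ (cos t • e + sin t • f) (cos t • e + sin t • f) = (1 : ℝ) := by
      have hff : inner ℝ f f = 1 := by rw [real_inner_self_eq_norm_sq, hfn]; norm_num
      have hfe : inner ℝ f e = 0 := by rw [real_inner_comm]; exact hef
      rw [inner_add_left, inner_add_right, inner_add_right]
      simp only [real_inner_smul_left, real_inner_smul_right, hef, hfe, hee, hff]
      have := sin_sq_add_cos_sq t
      linarith
    rw [h0, inner_zero_left] at h1
    exact zero_ne_one h1
  have hrep : ∀ t, ∃ ρ : ℝ, ρ ≠ 0 ∧ cos (θ t) • v + sin (θ t) • w =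
      ρ • (cos t • e + sin t • f) := by
    intro t
    obtain ⟨ρ, hρ, h1, h2⟩ := hθ t
    refine ⟨ρ, hρ.ne', ?_⟩
    rw [h1, h2, hf, he]
    module
  refine ⟨θ, hc, hm, hper, ?_⟩
  intro s t hst
  obtain ⟨ρ, hρ, h1⟩ := hrep s
  obtain ⟨σ, hσ, h2⟩ := hrep t
  rw [h1, h2, std_smul _ _ _ hρ, std_symm, std_smul _ _ _ hσ, std_symm]
  exact std_circle e f hen hfn hef s t hst

theorem std_metric_aux : EllipticMetric stdDist where
  smul := fun v w _ _ a ha => std_smul v w a ha
  symm := fun v w _ _ => std_symm v w
  self := by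
    intro v hv
    unfold stdDist
    rw [InnerProductGeometry.angle_self hv]
    apply min_eq_left
    linarith [pi_pos]
  pos := std_pos
  triangle := fun u v w _ _ _ => std_tri u v w
  cont := std_cont
  line := std_line

open InnerProductGeometry in
theorem std_convex_aux : ConvexDiscs stdDist := by
  intro N hN r hr hr2
  have hNn : 0 < ‖N‖ := norm_pos_iff.2 hN
  have hcr : 0 < cos r := cos_pos_of_mem_Ioo ⟨by linarith, hr2⟩
  refine ⟨(innerSL ℝ N).toLinearMap, ?_, ?_⟩
  · intro v hv hd h0
    have h1 : inner ℝ N v = 0 := h0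
    have h2 : angle N v = π / 2 := (inner_eq_zero_iff_angle_eq_pi_div_two N v).1 h1
    unfold stdDist at hd
    rw [h2] at hd
    have : min (π / 2) (π - π / 2) = π / 2 := by
      rw [min_eq_left]
      linarith
    rw [this] at hd
    linarith
  · intro v w hvw hdv hdw hfv hfw a b ha hb
    have hfv' : 0 < inner ℝ N v := hfv
    have hfw' : 0 < inner ℝ N w := hfw
    have key : ∀ v : E3, v ≠ 0 → stdDist N v ≤ r → 0 < inner ℝ N v →
        ‖N‖ * ‖v‖ * cos r ≤ inner ℝ N v := by
      intro v hv hd hpos
      have h1 : angle N v < π / 2 := by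
        by_contra hcon
        push Not at hcon
        have h2 : cos (angle N v) ≤ 0 := by
          apply cos_nonpos_of_pi_div_two_le_of_le hcon
          have := angle_le_pi N v
          linarith [pi_pos]
        have h3 := cos_angle_mul_norm_mul_norm N v
        have h4 : 0 ≤ ‖N‖ * ‖v‖ := by positivity
        nlinarith
      have h2 : angle N v ≤ r := by
        unfold stdDist at hd
        rwa [min_eq_left (by linarith)] at hd
      have h3 : cos r ≤ cos (angle N v) := by
        apply cos_le_cos_of_nonneg_of_le_pi (angle_nonneg N v) _ h2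
        linarith [pi_pos]
      have h4 := cos_angle_mul_norm_mul_norm N v
      have h5 : 0 ≤ ‖N‖ * ‖v‖ := by positivity
      nlinarith
    have hv : v ≠ 0 := hvw.ne_zero 0
    have hw : w ≠ 0 := hvw.ne_zero 1
    have h1 := key v hv hdv hfv'
    have h2 := key w hw hdw hfw'
    have hray : ¬ SameRay ℝ (a • v) (b • w) := by
      intro hs
      have h3 := (hs.pos_smul_left (inv_pos.2 ha)).pos_smul_right (inv_pos.2 hb)
      rw [inv_smul_smul₀ ha.ne', inv_smul_smul₀ hb.ne'] at h3
      exact (sameRay_or_sameRay_neg_iff_not_linearIndependent.1 (Or.inl h3)) hvw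
    have h3 := norm_add_lt_of_not_sameRay hray
    rw [norm_smul, norm_smul, Real.norm_of_nonneg ha.le, Real.norm_of_nonneg hb.le] at h3
    have h4 : ‖N‖ * ‖a • v + b • w‖ * cos r < inner ℝ N (a • v + b • w) := by
      rw [inner_add_right, real_inner_smul_right, real_inner_smul_right]
      have h5 : ‖N‖ * ‖a • v + b • w‖ * cos r < ‖N‖ * (a * ‖v‖ + b * ‖w‖) * cos r := by
        apply mul_lt_mul_of_pos_right _ hcr
        exact mul_lt_mul_of_pos_left h3 hNn
      nlinarith [mul_le_mul_of_nonneg_left h1 ha.le, mul_le_mul_of_nonneg_left h2 hb.le]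
    have h6 := cos_angle_mul_norm_mul_norm N (a • v + b • w)
    have h7 : cos r < cos (angle N (a • v + b • w)) := by
      by_contra hcon
      push Not at hcon
      have h8 : 0 ≤ ‖N‖ * ‖a • v + b • w‖ := by positivity
      nlinarith
    have h9 : angle N (a • v + b • w) < r := by
      by_contra hcon
      push Not at hcon
      have := cos_le_cos_of_nonneg_of_le_pi hr.le (angle_le_pi N (a • v + b • w)) hcon
      linarith
    unfold stdDist
    exact (min_le_left _ _).trans_lt h9

theorem std_metric : EllipticMetric stdDist := by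
  exact std_metric_aux

theorem std_convex : ConvexDiscs stdDist := by
  exact std_convex_aux

end Pool.Agent.Helper87.Elliptic
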